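import Pool.Agent.Lib.MP_b4b3cb_nt.BC.LocQ

/-! Comparison of the local terms of two self-dual conditions. -/

set_option linter.unusedSectionVars false

namespace Pool.Agent.BC.RD

open scoped Classical
open Module Pool.Agent.SP

variable {k : Type} [Field k] {G : Type} [Group G] [TopologicalSpace G]
  {V : Type} [AddCommGroup V] [Module k V] {X : RD k G V} {Y Y' : Submodule k (G → V × V)}
  [CharP k 2]

/-- A chosen lift of an element of the image. -/
noncomputable def lift (Y : Submodule k (G → V × V)) (x : G → V) : G → V × V :=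
  if h : x ∈ Y0 Y then (mem_Y0.1 h).choose else 0

theorem lift_mem {x : G → V} (h : x ∈ Y0 Y) : lift Y x ∈ Y := by
  rw [lift, dif_pos h]; exact (mem_Y0.1 h).choose_spec.1

theorem lift_snd {x : G → V} (h : x ∈ Y0 Y) (g : G) : (lift Y x g).2 = x g := by
  rw [lift, dif_pos h]; exact congrFun (mem_Y0.1 h).choose_spec.2 g

/-- The difference of the first components. -/
def df (t t' : G → V × V) (g : G) : V := (t g).1 + (t' g).1

theorem df_z1 {t t' : G → V × V} (ht : t ∈ X.W.Z1) (ht' : t' ∈ X.W.Z1)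
    (e : ∀ g, (t g).2 = (t' g).2) : df t t' ∈ X.r.Z1 :=
  y1_z1 le_rfl (mem_Y1.2 (add_inl k e ▸ add_mem ht ht'))

theorem P_df (y : G → V) {t t' : G → V × V} (e : ∀ g, (t g).2 = (t' g).2) :
    c11 X.a X.r y (df t t') = X.P y t + X.P y t' := by
  rw [← P_add, add_inl k e, P_inl]; rfl

variable [Finite k] [Algebra (ZMod 2) k] [FiniteDimensional k V] (H : Two G) (L : LDm k G)

include H L

/-- The pairing does not depend on the lifts. -/
theorem df_eq (h : X.SQ Y) (h' : X.SQ Y') {y : G → V} (hy : y ∈ Y0 Y ⊓ Y0 Y')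
    {t t₁ t' t₁' : G → V × V} (a : t ∈ Y) (a₁ : t₁ ∈ Y) (b : t' ∈ Y') (b₁ : t₁' ∈ Y')
    (e : ∀ g, (t g).2 = (t' g).2) (e₁ : ∀ g, (t₁ g).2 = (t₁' g).2) (e₂ : ∀ g, (t g).2 = (t₁ g).2) :
    invK (c11 X.a X.r y (df t t')) = invK (c11 X.a X.r y (df t₁ t₁')) := by
  have z := y0_z1 h.z1 hy.1
  refine invK_congr H (cz_c11 X.pf z (df_z1 (h.z1 a) (h'.z1 b) e))
    (cz_c11 X.pf z (df_z1 (h.z1 a₁) (h'.z1 b₁) e₁)) ?_
  have e₃ : ∀ g, (t' g).2 = (t₁' g).2 := fun g => by rw [← e, e₂, e₁]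
  have p := ((h.y0 H L).ge hy.1).2 (df t t₁) (mem_Y1.2 (add_inl k e₂ ▸ add_mem a a₁))
  have q := ((h'.y0 H L).ge hy.2).2 (df t' t₁') (mem_Y1.2 (add_inl k e₃ ▸ add_mem b b₁))
  refine sz_congr (p.add q) fun g l => ?_
  simp only [c11, df, Pi.add_apply, map_add]
  ring

theorem cmp (h : X.SQ Y) (h' : X.SQ Y') {z : ℤ} (T : X.Term Y' z) :
    X.Term Y (z + 2 * ((finrank k Y : ℤ) - finrank k (Y ⊓ Y' : Submodule k _))) := by
  obtain ⟨t', ht', e', m, hm, hd⟩ := T
  have fz := L.fin X.r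
  have fw := L.fin X.W
  have z0 := y0_z1 h.z1
  have z0' := y0_z1 h'.z1
  have zM : Y0 Y ⊓ Y0 Y' ≤ X.r.Z1 := inf_le_left.trans z0
  have fM := Submodule.finiteDimensional_of_le zM
  have hc : X.c ∈ Y0 Y ⊓ Y0 Y' := ⟨h.c_mem H L, h'.c_mem H L⟩
  have sn : ∀ x ∈ Y0 Y ⊓ Y0 Y', ∀ g, (lift Y x g).2 = (lift Y' x g).2 := fun x hx g => by
    rw [lift_snd hx.1, lift_snd hx.2]
  have dz : ∀ x ∈ Y0 Y ⊓ Y0 Y', df (lift Y x) (lift Y' x) ∈ X.r.Z1 := fun x hx =>
    df_z1 (h.z1 (lift_mem hx.1)) (h'.z1 (lift_mem hx.2)) (sn x hx)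
  have w := wu (A := Y0 Y ⊓ Y0 Y') (A' := Y0 (Y ⊓ Y'))
    (f := fun y x => invK (c11 X.a X.r y (df (lift Y x) (lift Y' x))))
    (Submodule.map_inf_le _) (fun b hb => ⟨fun y hy y' hy' => by
        beta_reduce
        rw [c11_add_left, invK_add H (cz_c11 X.pf (zM hy) (dz b hb))
          (cz_c11 X.pf (zM hy') (dz b hb))],
      fun r y hy => by
        beta_reduce
        rw [c11_smul_left, invK_smul H r (cz_c11 X.pf (zM hy) (dz b hb))]⟩)
    (fun y hy => ⟨fun x hx x' hx' => by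
        beta_reduce
        rw [← invK_add H (cz_c11 X.pf (zM hy) (dz x hx)) (cz_c11 X.pf (zM hy) (dz x' hx')),
          ← c11_add_right, df_eq H L h h' hy (lift_mem (add_mem hx hx').1)
            (add_mem (lift_mem hx.1) (lift_mem hx'.1)) (lift_mem (add_mem hx hx').2)
            (add_mem (lift_mem hx.2) (lift_mem hx'.2)) (sn _ (add_mem hx hx'))
            (fun g => by simp only [Pi.add_apply, Prod.snd_add, sn x hx, sn x' hx'])
            (fun g => by
              simp only [Pi.add_apply, Prod.snd_add, lift_snd hx.1, lift_snd hx'.1,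
                lift_snd (add_mem hx hx').1])]
        congr 2
        ext g
        simp only [df, Pi.add_apply, Prod.fst_add]
        abel,
      fun r x hx => by
        beta_reduce
        have hr := Submodule.smul_mem _ r hx
        rw [← invK_smul H r (cz_c11 X.pf (zM hy) (dz x hx)), ← c11_smul_right,
          df_eq H L h h' hy (lift_mem hr.1) (Y.smul_mem r (lift_mem hx.1)) (lift_mem hr.2)
            (Y'.smul_mem r (lift_mem hx.2)) (sn _ hr)
            (fun g => by simp only [Pi.smul_apply, Prod.smul_snd, sn x hx])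
            (fun g => by simp only [Pi.smul_apply, Prod.smul_snd, lift_snd hx.1, lift_snd hr.1])]
        congr 2
        ext g
        simp only [df, Pi.smul_apply, Prod.smul_fst, smul_add]⟩)
    hc (fun x hx => by
      beta_reduce
      have c1 := cz_c11 X.pf (zM hx) (dz x hx)
      have c2 := cz_c11 X.pf (zM hc) (dz x hx)
      rw [← invK_sq H c2]
      refine invK_congr H c1 (cz_sq c2) ?_
      have a1 := h.z1 (lift_mem hx.1)
      have a2 := h'.z1 (lift_mem hx.2)
      have s1 : Sz (dk fun g => X.N (lift Y x g).1 (lift Y x g).1) :=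
        ⟨_, lc_one (fun w : V × V => X.N w.1 w.1) a1.1, fun _ _ => rfl⟩
      have s2 : Sz (dk fun g => X.N (lift Y' x g).1 (lift Y' x g).1) :=
        ⟨_, lc_one (fun w : V × V => X.N w.1 w.1) a2.1, fun _ _ => rfl⟩
      refine sz_congr (((h.q _ (lift_mem hx.1)).add (h'.q _ (lift_mem hx.2))).add (s1.add s2))
        fun g l => ?_
      simp only [Pi.add_apply, P_df _ (sn x hx), Q_eq a1, Q_eq a2, lift_snd hx.1, lift_snd hx.2]
      grind)
    fun x hx => ⟨fun ⟨t, ht, q⟩ y hy => by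
        have q' : ∀ g, (t g).2 = x g := congrFun q
        beta_reduce
        rw [df_eq H L h h' hy (lift_mem hx.1) ht.1 (lift_mem hx.2) ht.2 (sn x hx) (fun _ => rfl)
          fun g => by rw [lift_snd hx.1, q']]
        exact invK_sz (sz_congr sz_zero fun g l => by simp [c11, df, add_self (k := k)]),
      fun p => by
        have : df (lift Y x) (lift Y' x) ∈ Y1 Y ⊔ Y1 Y' := by
          rw [← h.y1, ← h'.y1, ← ann_inf H L X.pf (y0_b1 h.b1) z0 (y0_b1 h'.b1) z0']
          exact ⟨dz x hx, fun y hy => sz_sy (zM hy) (dz x hx)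
            ((invK_zero H (cz_c11 X.pf (zM hy) (dz x hx))).1 (p y hy))⟩
        obtain ⟨u, hu, u', hu', q⟩ := Submodule.mem_sup.1 this
        have e : (lift Y x + fun g => (u g, 0)) = lift Y' x + fun g => (u' g, 0) := by
          ext g
          · have := congrFun q g
            simp only [df, Pi.add_apply, Prod.fst_add] at this ⊢
            rw [← sub_eq_zero, sub_eq k, add_add_add_comm, ← this, add_self (k := k)]
          · simp only [Pi.add_apply, Prod.snd_add, sn x hx]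
        refine ⟨lift Y x + fun g => (u g, 0),
          ⟨add_mem (lift_mem hx.1) (mem_Y1.1 hu), e ▸ add_mem (lift_mem hx.2) (mem_Y1.1 hu')⟩,
          funext fun g => ?_⟩
        change (lift Y x g).2 + 0 = x g
        rw [add_zero, lift_snd hx.1]⟩
  refine ⟨lift Y X.c, lift_mem hc.1, lift_snd hc.1,
    m + (finrank k (Y0 Y ⊓ Y0 Y' : Submodule k _) + finrank k (Y0 (Y ⊓ Y'))), ?_, ?_⟩
  · have g1 := cz_gv (h.z1 (lift_mem hc.1)) (lift_snd hc.1)
    have g2 := cz_gv (h'.z1 (lift_mem hc.2)) (lift_snd hc.2)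
    have e : c11 X.a X.r X.c (df (lift Y X.c) (lift Y' X.c)) =
        X.gv (lift Y X.c) + X.gv (lift Y' X.c) := by
      ext g l
      simp only [P_df _ (sn _ hc), gv, Pi.add_apply]
      grind
    beta_reduce at w
    rw [Nat.cast_add, w, e, invK_add H g1 g2,
      h'.gv_eq H L (lift_mem hc.2) ht' (lift_snd hc.2) e', hm]
    grind
  · have d1 := h.dim L
    have f1 := Submodule.finiteDimensional_of_le ((inf_le_left : Y ⊓ Y' ≤ Y).trans h.z1)
    have d2 := dimY (Y ⊓ Y')
    have d3 := dim_ann H L X.pf (y0_b1 h.b1) z0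
    have d4 := dim_ann H L X.pf (y0_b1 h'.b1) z0'
    have d5 := dim_ann H L X.pf (le_inf (y0_b1 h.b1) (y0_b1 h'.b1)) zM
    rw [ann_inf H L X.pf (y0_b1 h.b1) z0 (y0_b1 h'.b1) z0', h.y1, h'.y1] at d5
    rw [h.y1] at d3
    rw [h'.y1] at d4
    have f2 := Submodule.finiteDimensional_of_le (y1_z1 h.z1)
    have f3 := Submodule.finiteDimensional_of_le (y1_z1 h'.z1)
    have d6 := Submodule.finrank_sup_add_finrank_inf_eq (Y1 Y) (Y1 Y')
    rw [show Y1 (Y ⊓ Y') = Y1 Y ⊓ Y1 Y' from Submodule.comap_inf _ _ _] at d2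
    push_cast
    omega

end Pool.Agent.BC.RD
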