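import Pool.Agent.Lib.MP_b4b3cb_nt.BC.Ann
import Pool.Agent.Lib.MP_b4b3cb_nt.Par.LinA

/-! The dimension formula for Selmer spaces with dual local conditions. -/

set_option linter.unusedSectionVars false

namespace Pool.Agent.BC

open scoped Classical
open Module Pool.Agent.SP

variable {k : Type} [Field k]

/-- The Lagrangian dimension formula for degenerate forms with radicals `N v`. -/
theorem lag_deg {X ι : Type} [AddCommGroup X] [Module k X] [Fintype ι] {M : ι → Type}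
    [∀ v, AddCommGroup (M v)] [∀ v, Module k (M v)] [∀ v, FiniteDimensional k (M v)]
    [FiniteDimensional k X] (b : ∀ v, M v →ₗ[k] M v →ₗ[k] k) (hs : ∀ v x y, b v x y = b v y x)
    (N : ∀ v, Submodule k (M v)) (hn : ∀ v x, x ∈ N v ↔ ∀ y, b v x y = 0)
    (loc : X →ₗ[k] ∀ v, M v) (h1 : ∀ y z, ∑ v, b v (loc y v) (loc z v) = 0)
    (h2 : ∀ a : ∀ v, M v, (∀ y, ∑ v, b v (loc y v) (a v) = 0) → ∃ z, ∀ v, loc z v - a v ∈ N v)
    (W₀ W₁ : ∀ v, Submodule k (M v)) (n0 : ∀ v, N v ≤ W₀ v) (n1 : ∀ v, N v ≤ W₁ v)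
    (h3 : ∀ v, ∀ x ∈ W₁ v, ∀ y ∈ W₀ v, b v x y = 0)
    (h4 : ∀ v, finrank k (M v) + finrank k (N v) ≤ finrank k (W₀ v) + finrank k (W₁ v)) :
    2 * ((finrank k ((Submodule.pi Set.univ W₀).comap loc) : ℤ) -
      finrank k ((Submodule.pi Set.univ W₁).comap loc)) =
      ∑ v, ((finrank k (W₀ v) : ℤ) - finrank k (W₁ v)) := by
  let q : ∀ v, (M v ⧸ N v) →ₗ[k] (M v ⧸ N v) →ₗ[k] k := fun v => (b v).liftQ₂ (N v) (N v)
    (fun x hx => LinearMap.ext ((hn v x).1 hx))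
    fun x hx => LinearMap.ext fun y => (hs v y x).trans ((hn v x).1 hx y)
  let l : X →ₗ[k] ∀ v, M v ⧸ N v := LinearMap.pi fun v => (N v).mkQ ∘ₗ LinearMap.proj v ∘ₗ loc
  have dm : ∀ v (W : Submodule k (M v)), N v ≤ W →
      finrank k (W.map (N v).mkQ) + finrank k (N v) = finrank k W := fun v W h => by
    have := LinearMap.finrank_range_add_finrank_ker ((N v).mkQ ∘ₗ W.subtype)
    rwa [LinearMap.range_comp, Submodule.range_subtype, LinearMap.ker_comp, Submodule.ker_mkQ,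
      (Submodule.comapSubtypeEquivOfLe h).finrank_eq] at this
  have cm : ∀ W : ∀ v, Submodule k (M v), (∀ v, N v ≤ W v) →
      (Submodule.pi Set.univ fun v => (W v).map (N v).mkQ).comap l =
        (Submodule.pi Set.univ W).comap loc := fun W h => Submodule.ext fun y =>
    forall₂_congr fun v _ => by
      change loc y v ∈ ((W v).map (N v).mkQ).comap (N v).mkQ ↔ loc y v ∈ W v
      rw [Submodule.comap_map_mkQ, sup_eq_right.2 (h v)]
  have := (lag q (fun v x y => ?_) (fun v x h => ?_) l (fun y z => h1 y z) (fun a h => ?_)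
    (fun v => (W₀ v).map (N v).mkQ) (fun v => (W₁ v).map (N v).mkQ) ?_ fun v => ?_).2
  · rw [cm W₀ n0, cm W₁ n1] at this
    refine this.trans (Finset.sum_congr rfl fun v _ => ?_)
    have := dm v _ (n0 v)
    have := dm v _ (n1 v)
    omega
  · obtain ⟨x, rfl⟩ := (N v).mkQ_surjective x
    obtain ⟨y, rfl⟩ := (N v).mkQ_surjective y
    exact hs v x y
  · obtain ⟨x, rfl⟩ := (N v).mkQ_surjective x
    exact (Submodule.Quotient.mk_eq_zero _).2 ((hn v x).2 fun y => h ((N v).mkQ y))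
  · choose a' ha using fun v => (N v).mkQ_surjective (a v)
    obtain rfl : a = fun v => (N v).mkQ (a' v) := funext fun v => (ha v).symm
    obtain ⟨z, hz⟩ := h2 a' h
    exact ⟨z, funext fun v => (Submodule.Quotient.eq _).2 (hz v)⟩
  · rintro v _ ⟨x, hx, rfl⟩ _ ⟨y, hy, rfl⟩
    exact h3 v x hx y hy
  · have := dm v _ (n0 v)
    have := dm v _ (n1 v)
    have := (N v).finrank_quotient_add_finrank
    have := h4 v
    omega

variable {G : Type} [Group G] [TopologicalSpace G]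
  {A A' : Type} [AddCommGroup A] [Module k A] [AddCommGroup A'] [Module k A']
  {P : Type} {D I : P → Subgroup G} {S₂ S : Finset P}
  {β : A' →ₗ[k] A →ₗ[k] k} {R : FR k G A} {R' : FR k G A'}

theorem mem_Un_res (le : ∀ v, I v ≤ D v) {x : G → A} (hx : x ∈ R.Z1) (v : P) :
    (fun g : D v => x g) ∈ (R.res (D v)).Un ((I v).subgroupOf (D v)) ↔ ∀ i ∈ I v, x i = 0 :=
  ⟨fun h i hi => h.2 ⟨i, le v hi⟩ hi, fun h => ⟨FR.res_z1 hx _, fun i hi => h i hi⟩⟩

theorem Cd.sel_le (le : ∀ v, I v ≤ D v) {Y : ∀ v, Submodule k (D v → A)} (c : Cd I R Y S) :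
    R.Sel Y ≤ R.UnS I S :=
  fun _ h => ⟨h.1, fun v hv => (mem_Un_res le h.1 v).1 (c.un v hv ▸ h.2 v)⟩

theorem Cd.mem_sel (le : ∀ v, I v ≤ D v) {Y : ∀ v, Submodule k (D v → A)} (c : Cd I R Y S)
    {x : G → A} : x ∈ R.Sel Y ↔ x ∈ R.UnS I S ∧ ∀ v ∈ S, (fun g : D v => x g) ∈ Y v :=
  ⟨fun h => ⟨c.sel_le le h, fun v _ => h.2 v⟩, fun h => ⟨h.1.1, fun v => by
    by_cases e : v ∈ S
    exacts [h.2 v e, c.un v e ▸ (mem_Un_res le h.1.1 v).2 (h.1.2 v e)]⟩⟩

variable [Finite k] [Algebra (ZMod 2) k] [CharP k 2] [FiniteDimensional k A]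

theorem GP.sel_fin (h : GP k D I S₂) {Y : ∀ v, Submodule k (D v → A)} (c : Cd I R Y S) :
    FiniteDimensional k (R.Sel Y) :=
  have := h.fin R S
  Submodule.finiteDimensional_of_le (c.sel_le h.le)

/-- Reciprocity for the cup product of two global cocycles. -/
theorem G0.loc_orth (h : G0 k D I S₂) (hP : Pf R' R β) (hS : S₂ ⊆ S) {y : G → A'}
    (hy : y ∈ R'.UnS I S) {z : G → A} (hz : z ∈ R.UnS I S) :
    ∑ v ∈ S, invK (c11 β (R.res (D v)) (fun g => y g) fun g => z g) = 0 :=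
  h.recip _ (cz_c11 hP hy.1 hz.1) S fun v hv => by
    obtain ⟨σ, m⟩ := h.mi v fun e => hv (hS e)
    exact ((m.ann (hP.res (D v))).ge (Submodule.mem_sup_left
      ((mem_Un_res h.le hy.1 v).2 (hy.2 v hv)))).2 _ ((mem_Un_res h.le hz.1 v).2 (hz.2 v hv))

/-- The localisations of the global cocycles are their own annihilator. -/
theorem GP.loc_lag (h : GP k D I S₂) (hP : Pf R' R β) (hS : S₂ ⊆ S)
    (u : ∀ v ∉ S, (R.res (D v)).B1 ≤ (R.res (D v)).Un ((I v).subgroupOf (D v)))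
    (u' : ∀ v ∉ S, (R'.res (D v)).B1 ≤ (R'.res (D v)).Un ((I v).subgroupOf (D v)))
    (b : ∀ v, D v → A) (hb : ∀ v ∈ S, b v ∈ (R.res (D v)).Z1)
    (o : ∀ y ∈ R'.UnS I S, ∑ v ∈ S, invK (c11 β (R.res (D v)) (fun g => y g) (b v)) = 0) :
    ∃ z ∈ R.UnS I S, ∀ v ∈ S, ((fun g : D v => z g) - b v) ∈ (R.res (D v)).B1 := by
  let Y : ∀ v, Submodule k (D v → A) := fun v =>
    if v ∈ S then (R.res (D v)).B1 else (R.res (D v)).Un ((I v).subgroupOf (D v))
  let f : ∀ v, D v → A := fun v => if v ∈ S then b v else 0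
  have y1 : ∀ v ∈ S, Y v = (R.res (D v)).B1 := fun v e => if_pos e
  have y2 : ∀ v ∉ S, Y v = (R.res (D v)).Un ((I v).subgroupOf (D v)) := fun v e => if_neg e
  have f1 : ∀ v ∈ S, f v = b v := fun v e => if_pos e
  have f2 : ∀ v ∉ S, f v = 0 := fun v e => if_neg e
  have fz : ∀ v, f v ∈ (R.res (D v)).Z1 := fun v => by
    by_cases e : v ∈ S
    exacts [f1 v e ▸ hb v e, f2 v e ▸ zero_mem _]
  have c : Cd I R Y S := ⟨fun v => by
    by_cases e : v ∈ S
    exacts [(y1 v e).ge, (u v e).trans (y2 v e).ge], fun v => by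
    by_cases e : v ∈ S
    exacts [(y1 v e).le.trans (FR.B1_le _), (y2 v e).le.trans fun _ p => p.1], y2⟩
  obtain ⟨φ, p1, p2, p3⟩ := h.pt hP hS c (ξ := 0) (f := f)
    ⟨⟨IsLocallyConstant.const _, by simp⟩, fun v => (fz v).1, fun v g l => ((fz v).2 g l).symm,
      S, fun v e => by rw [f2 v e]; exact fun _ _ _ => rfl⟩ fun y hy =>
    ⟨0, S, IsLocallyConstant.const _, fun g l m => by simp [d3, c12], fun v e =>
      sz_congr sz_zero fun g l => by simp [pl, c11, f2 v e], by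
      refine (o y ⟨hy.1, fun v e => (mem_Un_res h.le hy.1 v).1 ?_⟩).symm.trans
        (Finset.sum_congr rfl fun v e => congrArg invK (funext₂ fun g l => ?_))
      · obtain ⟨σ, m⟩ := h.mi v fun q => e (hS q)
        have := hy.2 v
        simp only [y2 v e, m.ann (hP.res (D v)), sup_eq_left.2 (u' v e)] at this
        exact this
      · simp [pl, f1 v e]⟩
  have z : φ ∈ R.Z1 := ⟨p1, fun g l => (p2 g l).symm⟩
  refine ⟨φ, ⟨z, fun v e => (mem_Un_res h.le z v).1 ?_⟩, fun v e => ?_⟩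
  · have := p3 v
    rwa [f2 v e, y2 v e, sub_zero] at this
  · have := p3 v
    rwa [f1 v e, y1 v e] at this

/-- The dimension formula for a self-dual module and dual local conditions. -/
theorem sel {a : A →ₗ[k] A →ₗ[k] k} (h : GP k D I S₂) (hP : Pf R R a) (sy : ∀ u v, a u v = a v u)
    {Y₀ Y₁ : ∀ v, Submodule k (D v → A)} (c0 : Cd I R Y₀ S) (c1 : Cd I R Y₁ S) (hS : S₂ ⊆ S)
    (hY : ∀ v ∈ S, Y₁ v = ann a (R.res (D v)) (R.res (D v)) (Y₀ v)) :
    2 * ((finrank k (R.Sel Y₀) : ℤ) - finrank k (R.Sel Y₁)) =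
      ∑ v ∈ S, ((finrank k (Y₀ v) : ℤ) - finrank k (Y₁ v)) := by
  have := h.fin R S
  have fd : ∀ v : S, FiniteDimensional k (R.res (D v)).Z1 := fun v => (h.ld v).fin _
  have fl : a.flip = a := LinearMap.ext₂ fun u v => sy v u
  let loc : R.UnS I S →ₗ[k] ∀ v : S, (R.res (D v)).Z1 :=
    { toFun := fun y v => ⟨fun g => y.1 g, FR.res_z1 y.2.1 _⟩
      map_add' := fun _ _ => rfl
      map_smul' := fun _ _ => rfl }
  have u : ∀ v ∉ S, (R.res (D v)).B1 ≤ (R.res (D v)).Un ((I v).subgroupOf (D v)) :=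
    fun v e => (c0.b1 v).trans (c0.un v e).le
  have cm : ∀ {Y : ∀ v, Submodule k (D v → A)}, Cd I R Y S → finrank k ((Submodule.pi Set.univ
      fun v : S => (Y v).submoduleOf (R.res (D v)).Z1).comap loc) = finrank k (R.Sel Y) :=
    fun {Y} c => by
      rw [← (Submodule.submoduleOfEquivOfLe (c.sel_le h.le)).finrank_eq]
      exact congrArg (fun W : Submodule k (R.UnS I S) => finrank k W) (Submodule.ext fun y =>
        ⟨fun p => (c.mem_sel h.le).2 ⟨y.2, fun v e => p ⟨v, e⟩ trivial⟩, fun p v _ => p.2 v⟩)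
  have := lag_deg (fun v : S => lp (h.two v) (hP.res (D v))) (fun v x y => ?_)
    (fun v => (R.res (D v)).B1.submoduleOf _) (fun v x => ?_) loc (fun y z => ?_) (fun b o => ?_)
    (fun v => (Y₀ v).submoduleOf _) (fun v => (Y₁ v).submoduleOf _)
    (fun v _ p => c0.b1 v p) (fun v _ p => c1.b1 v p) (fun v x hx y hy => ?_) fun v => ?_
  · rw [cm c0, cm c1] at this
    rw [this, ← Finset.sum_coe_sort S]
    exact Finset.sum_congr rfl fun v _ => by
      rw [(Submodule.submoduleOfEquivOfLe (c0.z1 v)).finrank_eq,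
        (Submodule.submoduleOfEquivOfLe (c1.z1 v)).finrank_eq]
  · rw [lp_apply, lp_apply, invK_swap (h.two v) (hP.res _) x.2 y.2, fl]
  · simp only [lp_zero]
    exact ⟨fun p y => sz_b1_left (hP.res _) p y.2, fun p =>
      (ann_z1 (h.ld v) (hP.res _)).le ⟨x.2, fun y hy => p ⟨y, hy⟩⟩⟩
  · exact (Finset.sum_coe_sort S fun v =>
      invK (c11 a (R.res (D v)) (fun g => y.1 g) fun g => z.1 g)).trans
        (h.toG0.loc_orth hP hS y.2 z.2)
  · obtain ⟨z, z1, z2⟩ := h.loc_lag hP hS u u (fun v => if e : v ∈ S then (b ⟨v, e⟩).1 else 0)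
      (fun v e => by rw [dif_pos e]; exact (b ⟨v, e⟩).2) fun y hy => by
        rw [← Finset.sum_coe_sort S, ← o ⟨y, hy⟩]
        exact Finset.sum_congr rfl fun v _ => by rw [dif_pos v.2]; rfl
    refine ⟨⟨z, z1⟩, fun v => ?_⟩
    have := z2 v v.2
    rwa [dif_pos v.2] at this
  · exact (lp_zero _ _ x y).2 (((hY v v.2).le hx).2 _ hy)
  · have := dim_ann (h.two v) (h.ld v) (hP.res (D v)) (c0.b1 v) (c0.z1 v)
    rw [(Submodule.submoduleOfEquivOfLe (c0.z1 v)).finrank_eq,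
      (Submodule.submoduleOfEquivOfLe (c1.z1 v)).finrank_eq,
      (Submodule.submoduleOfEquivOfLe (FR.B1_le _)).finrank_eq, hY v v.2]
    omega

end Pool.Agent.BC
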