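import Pool.Agent.Lib.MP_b4b3cb_nt.BC.Cp
import Pool.Agent.Lib.MP_b4b3cb_nt.Eps.Rep

/-! The image of inertia in a tamely ramified representation. -/

set_option linter.unusedSectionVars false

namespace Pool.Agent.BC

open scoped Classical Topology Pointwise
open Module Pool.Agent.SP

section Abs

variable {E k : Type} [NontriviallyNormedField E] [NormedAlgebra ℚ_[2] E] [Field k] [CharP k 2]
  {I H : Type} [Group I] [TopologicalSpace I] [IsTopologicalGroup I] [CompactSpace I]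
  [Group H] [TopologicalSpace H] [IsTopologicalGroup H] [CompactSpace H] {t : I} (ht : Gen k ∅ t)
  (U : Subgroup I) [U.Normal] (hU : IsOpen (U : Set I))

variable (E) in
/-- The tame relation for almost additive functions. -/
def Tm (g t : I) (q : ℕ) : Prop :=
  ∀ f : I → E, Continuous f → (∀ g h, ‖f (g * h) - f g - f h‖ ≤ 1) → ‖f g - q * f t‖ ≤ 1

include ht hU

theorem gen2 (hp : ∀ g, ∃ a, g ^ 2 ^ a ∈ U) (g : I) : ∃ m : ℕ, (t : I ⧸ U) ^ m = g := by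
  have := U.quotient_finite_of_isOpen hU
  have := QuotientGroup.discreteTopology hU
  have : Fact (Nat.Prime 2) := ⟨Nat.prime_two⟩
  have p : IsPGroup 2 (I ⧸ U) := fun x => by
    obtain ⟨g, rfl⟩ := QuotientGroup.mk_surjective x
    exact (hp g).imp fun a h => (QuotientGroup.eq_one_iff _).2 h
  obtain ⟨n, hn⟩ := IsPGroup.iff_card.1 p
  refine mem_powers_iff_mem_zpowers.2 ?_
  revert g
  by_contra h
  obtain ⟨a, ha⟩ := IsPGroup.iff_card.1 (p.to_subgroup (Subgroup.zpowers (t : I ⧸ U)))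
  have lt : a < n := (Nat.pow_lt_pow_iff_right one_lt_two).1 (lt_of_le_of_ne
    (ha ▸ hn ▸ Subgroup.card_le_card_group _) fun e => h fun g => (Subgroup.eq_top_iff' _).1
      (Subgroup.eq_top_of_card_eq _ (by rw [ha, hn, e])) _)
  obtain ⟨n, rfl⟩ := Nat.exists_eq_add_one_of_ne_zero (Nat.ne_zero_of_lt lt)
  obtain ⟨M, m1, m2⟩ := Sylow.exists_subgroup_card_pow_prime_le 2 (m := n)
    (hn ▸ pow_dvd_pow 2 n.le_succ) _ ha (by omega)
  have m3 : M.index = 2 := mul_left_cancel₀ (pow_ne_zero n two_ne_zero)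
    (by rw [← m1, M.card_mul_index, hn, m1, pow_succ])
  have m4 := ht (fun g => if (g : I ⧸ U) ∈ M then 0 else 1)
    ⟨(IsLocallyConstant.of_discrete fun x => if x ∈ M then 0 else 1).comp_continuous
      QuotientGroup.continuous_mk, fun g l => by
      simp only [QuotientGroup.mk_mul, Subgroup.mul_mem_iff_of_index_two m3]
      by_cases a : (g : I ⧸ U) ∈ M <;> by_cases b : (l : I ⧸ U) ∈ M <;>
        simp [a, b, CharTwo.add_self_eq_zero]⟩ (by simp) (if_pos (m2 (Subgroup.mem_zpowers _)))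
  rw [(Subgroup.eq_top_iff' M).2 fun x => by
    obtain ⟨g, rfl⟩ := QuotientGroup.mk_surjective x
    simpa using congrFun m4 g] at m3
  simp at m3

theorem cycT (ι : H →* I) (hι : Continuous ι) {τ τ' : H} (hτ : Gen k ∅ τ)
    (cov : ∀ g, ∃ (j : ℕ) (x : H), g = t ^ j * ι x) (e : ι τ' = t * ι τ * t⁻¹) (tm : Tm E τ' τ 1)
    (hp : ∀ x, ∃ a, ι x ^ 2 ^ a ∈ U) (g : I) : ∃ m : ℕ, (t : I ⧸ U) ^ m = g := by
  have := U.quotient_finite_of_isOpen hU
  have hp' : ∀ x, ∃ a, x ^ 2 ^ a ∈ U.comap ι := fun x => (hp x).imp fun a h => by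
    rwa [Subgroup.mem_comap, map_pow]
  have a2 := cyc2 hτ tm (U.comap ι) (hU.preimage hι) hp'
  rw [Subgroup.mem_comap, map_mul, map_inv, pow_one, ← QuotientGroup.eq, e, QuotientGroup.mk_mul,
    QuotientGroup.mk_inv, mul_inv_eq_iff_eq_mul, QuotientGroup.mk_mul] at a2
  have a3 : ∀ g : I, ∃ j m : ℕ, (g : I ⧸ U) = (t : I ⧸ U) ^ j * (ι τ : I ⧸ U) ^ m := fun g => by
    obtain ⟨j, x, rfl⟩ := cov g
    obtain ⟨m, hm⟩ := gen2 hτ (U.comap ι) (hU.preimage hι) hp' x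
    rw [← QuotientGroup.mk_pow, QuotientGroup.eq, Subgroup.mem_comap, map_mul, map_inv,
      ← QuotientGroup.eq, map_pow] at hm
    exact ⟨j, m, by rw [QuotientGroup.mk_mul, ← hm]; rfl⟩
  replace a2 : Commute (t : I ⧸ U) (ι τ) := a2
  have a4 : ∀ g : I, Commute (t : I ⧸ U) g := fun g => by
    obtain ⟨j, m, h⟩ := a3 g
    exact h ▸ (Commute.self_pow _ j).mul_right (a2.pow_right m)
  let M := (Subgroup.zpowers (t : I ⧸ U)).comap (QuotientGroup.mk' U)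
  have : M.Normal := ⟨fun g ⟨j, hj⟩ l => ⟨j, by
    rw [map_mul, map_mul, ← hj, map_inv]
    exact eq_mul_inv_of_mul_eq ((a4 l).zpow_left j).eq⟩⟩
  obtain ⟨a, ha⟩ := hp τ
  obtain ⟨m, hm⟩ := gen2 ht M (Subgroup.isOpen_mono (fun g hg => ⟨0, by
    simpa using ((QuotientGroup.eq_one_iff g).2 hg).symm⟩) hU) (fun g => ⟨a, by
      obtain ⟨j, m, h⟩ := a3 g
      rw [Subgroup.mem_comap, map_pow, QuotientGroup.mk'_apply, h, (a2.pow_pow j m).mul_pow,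
        pow_right_comm _ m, show (ι τ : I ⧸ U) ^ 2 ^ a = 1 from (QuotientGroup.eq_one_iff _).2 ha,
        one_pow, mul_one]
      exact pow_mem (pow_mem (Subgroup.mem_zpowers _) _) _⟩) g
  rw [← QuotientGroup.mk_pow, QuotientGroup.eq] at hm
  refine mem_powers_iff_mem_zpowers.2 ?_
  simpa using mul_mem (pow_mem (Subgroup.mem_zpowers (t : I ⧸ U)) m) hm

theorem relT (gen : ∀ g : I, ∃ m : ℕ, (t : I ⧸ U) ^ m = g) {g : I} {q b : ℕ} (tm : Tm E g t q)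
    (h : (g⁻¹ * t ^ q) ^ 2 ^ b ∈ U) : g⁻¹ * t ^ q ∈ U := by
  have := U.quotient_finite_of_isOpen hU
  obtain ⟨a, o, o1, o2⟩ := Nat.exists_eq_two_pow_mul_odd (Nat.card_pos (α := I ⧸ U)).ne'
  let ψ : I →* I ⧸ U := MonoidHom.mk' (fun g => (g : I ⧸ U) ^ o) fun g l => by
    obtain ⟨m, hm⟩ := gen g
    obtain ⟨n, hn⟩ := gen l
    rw [QuotientGroup.mk_mul, ← hm, ← hn, (Commute.pow_pow_self _ m n).mul_pow]
  have := cyc2 ht tm ψ.ker (Subgroup.isOpen_mono (fun g hg => by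
    change (g : I ⧸ U) ^ o = 1
    rw [(QuotientGroup.eq_one_iff g).2 hg, one_pow]) hU) fun g => ⟨a, by
      change ((g : I ⧸ U) ^ 2 ^ a) ^ o = 1
      rw [← pow_mul, ← o2, pow_card_eq_one']⟩
  exact (QuotientGroup.eq_one_iff _).1 ((pow_eq_one_iff_of_coprime
    ((Nat.coprime_two_left.2 o1).pow_left b)).1 ⟨(QuotientGroup.eq_one_iff _).2 h, this⟩)

end Abs

section Lv

variable {E k : Type} [NontriviallyNormedField E] [Field k] {G : Type} [Group G]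
  [TopologicalSpace G] {c : CF E k} {W : Type} [NormedAddCommGroup W] [NormedSpace E W]
  {A : Type} [AddCommGroup A] [Module k A] {C : Lt c W A} {R : Rp E G W} {Rb : FR k G A}
  (h : Cp C R Rb)

namespace Cp

/-- The elements that act trivially modulo a power of the uniformiser. -/
def lv (j : ℕ) : Subgroup G := ⨅ i, ⨅ y : C.T i, h.fx (i + j) y

theorem mem_lv {j : ℕ} {g : G} : g ∈ h.lv j ↔ ∀ i, ∀ y ∈ C.T i, R.ac g y - y ∈ C.T (i + j) := by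
  simp only [lv, Subgroup.mem_iInf, Subtype.forall]
  rfl

instance lv_normal (j : ℕ) : (h.lv j).Normal := ⟨fun g hg l => h.mem_lv.2 fun i y hy => by
  convert h.mem l (h.mem_lv.1 hg i _ (h.mem l⁻¹ hy)) using 1
  rw [map_sub, ← R.mul l l⁻¹, mul_inv_cancel, R.one, R.mul, R.mul]⟩

theorem lv_open [Finite A] (j : ℕ) : IsOpen (h.lv j : Set G) := by
  choose e e1 e2 using C.ex 0
  convert isOpen_iInter_of_finite fun a => h.fx_open (0 + j) (e a)
  ext g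
  rw [Set.mem_iInter]
  refine h.mem_lv.trans ⟨fun a x => a 0 _ (e1 x), fun a => ?_⟩
  have : ∀ l ≤ j, ∀ i, ∀ y ∈ C.T i, R.ac g y - y ∈ C.T (i + (l : ℕ)) := fun l => by
    induction l with
    | zero => exact fun _ i y hy => by simpa using sub_mem (h.mem g hy) hy
    | succ l ih =>
      intro hl i y hy
      have b1 := (C.per_zpow i 0 _).2 (e1 (C.lam i y))
      have b2 := (C.lam_zpow i 0 _).trans (e2 (C.lam i y))
      rw [zero_add] at b1 b2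
      convert add_mem (C.anti (by push_cast; omega) (ih (by omega) _ _ (C.sub_mem_of hy b1 b2.symm)))
        (C.anti (show i + (l + 1 : ℕ) ≤ _ by omega) ((C.per_zpow i _ _).2 (a (C.lam i y)))) using 1
      rw [map_sub, smul_sub, map_smul]
      abel
  exact this j le_rfl

theorem lv_pow [IsUltrametricDist E] [CharP k 2] {g : G} (hg : IsNilpotent (R.ac g - 1)) (j : ℕ) :
    ∃ a, g ^ 2 ^ a ∈ h.lv j := by
  obtain ⟨n, hn⟩ := hg
  have a1 : ∀ l : ℕ, ∀ y ∈ C.T 0, ((R.ac g - 1) ^ l) y ∈ C.T 0 ∧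
      C.lam 0 (((R.ac g - 1) ^ l) y) = ((Rb.ac g - 1) ^ l) (C.lam 0 y) := fun l y hy => by
    induction l with
    | zero => exact ⟨hy, rfl⟩
    | succ l ih =>
      rw [pow_succ', pow_succ', End.mul_apply, End.mul_apply, ← ih.2]
      exact h.lam_d1 ih.1 g
  have a2 : (Rb.ac g - 1) ^ n = 0 := LinearMap.ext fun a => by
    obtain ⟨y, h1, rfl⟩ := C.ex 0 a
    rw [← (a1 n y h1).2, hn]
    exact C.lam_of (zero_mem _)
  have a3 : ∀ a : ℕ, Rb.ac (g ^ 2 ^ a) = 1 + (Rb.ac g - 1) ^ 2 ^ a := fun a => by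
    induction a with
    | zero => simp
    | succ a ih =>
      rw [pow_succ, pow_mul, pow_mul, map_pow, ih, sq, sq, add_mul, mul_add, mul_add, one_mul,
        one_mul, mul_one, add_assoc, ← add_assoc (_ ^ _), add_self (k := k), zero_add]
  have a4 : ∀ j : ℕ, g ^ 2 ^ (n + j) ∈ h.lv (j + 1) := fun j => by
    induction j with
    | zero =>
      refine h.mem_lv.2 fun i y hy => C.sub_mem_of (h.mem _ hy) hy ?_
      rw [h.lam _ hy, a3, add_zero, pow_eq_zero_of_le Nat.lt_two_pow_self.le a2, add_zero]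
      rfl
    | succ j ih =>
      refine h.mem_lv.2 fun i y hy => ?_
      have b := h.mem_lv.1 ih i y hy
      convert add_mem (C.anti (by push_cast; omega) (h.mem_lv.1 ih _ _ b))
        (C.anti (show i + (j + 1 + 1 : ℕ) ≤ _ by push_cast; omega)
          ((C.lam_zero (C.smul c.two_lt.le b)).1 (by
          rw [C.lam_smul c.two_lt.le b, (c.rd_lt c.two_lt).2, zero_smul]))) using 1
      rw [← add_assoc, pow_succ, pow_mul, pow_two, R.mul, map_sub, two_smul]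
      abel
  exact ⟨_, h.mem_lv.2 fun i y hy => C.anti (by push_cast; omega) (h.mem_lv.1 (a4 j) i y hy)⟩

theorem lv_sub {j : ℕ} {g l : G} (a : g⁻¹ * l ∈ h.lv j) {i : ℤ} {y : W} (hy : y ∈ C.T i) :
    R.ac l y - R.ac g y ∈ C.T (i + j) := by
  have := h.mem g (h.mem_lv.1 a i y hy)
  rwa [map_sub, ← R.mul, mul_inv_cancel_left] at this

theorem lv_eq {g l : G} (a : ∀ j, g⁻¹ * l ∈ h.lv j) : R.ac g = R.ac l := LinearMap.ext fun y => by
  obtain ⟨i, hi⟩ := C.exh y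
  exact (sub_eq_zero.1 (C.sep fun j => C.anti (by omega) (h.lv_sub (a (j - i).toNat) hi))).symm

variable {t : G} {D : Set G} (gen : ∀ g ∈ D, ∀ j, ∃ m : ℕ, (t ^ m)⁻¹ * g ∈ h.lv j)

include gen

theorem gen_T {g : G} (hg : g ∈ D) {j : ℤ} {x : W} (hx : R.ac t x - x ∈ C.T j) :
    R.ac g x - x ∈ C.T j := by
  obtain ⟨i, hi⟩ := C.exh x
  obtain ⟨m, hm⟩ := gen g hg (j - i).toNat
  have : R.ac (t ^ m) x - x ∈ C.T j := (h.fx j x).pow_mem hx m
  simpa only [sub_add_sub_cancel] using add_mem (C.anti (by omega) (h.lv_sub hm hi)) this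

theorem gen_r {g : G} (hg : g ∈ D) : ∃ m : ℕ, Rb.ac g = Rb.ac t ^ m :=
  (gen g hg 1).imp fun m hm => LinearMap.ext fun a => by
    obtain ⟨y, hy, rfl⟩ := C.ex 0 a
    rw [← map_pow, ← h.lam _ hy, ← h.lam _ hy]
    exact C.lam_congr (h.mem _ hy) (h.lv_sub hm hy)

theorem gen_fix {g : G} (hg : g ∈ D) {x : W} (hx : R.ac t x = x) : R.ac g x = x :=
  sub_eq_zero.1 (C.sep fun _ => h.gen_T gen hg (by rw [hx, sub_self]; exact zero_mem _))

end Cp

end Lv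

open NumberField Pool.Agent.Stark EP
open SC hiding Hm Rp V T Two Cob Sel Spl cup dq Cz Sz res gs cyc

variable {K Ω : Type} [Field K] [NumberField K] [Field Ω] [Algebra K Ω] [IsAlgClosed Ω]
  [IsGalois K Ω] [CharZero Ω] {𝔓 : Ideal (𝓞 Ω)} (h : 𝔓.IsMaximal) (h2 : 2 ∉ 𝔓)

include h h2

theorem ine_gen2 {V : Subgroup Gal(Ω/K)} (hV : IsOpen (V : Set Gal(Ω/K))) :
    ∃ τ ∈ Ine K 𝔓 ⊓ V, ∀ f, Hom (Ine K 𝔓 ⊓ V) f → f τ = 0 → ∀ g ∈ Ine K 𝔓 ⊓ V, f g = 0 := by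
  have T := facts K Ω
  by_cases h0 : ∀ f, Hom (Ine K 𝔓 ⊓ V) f → ∀ g ∈ Ine K 𝔓 ⊓ V, f g = 0
  · exact ⟨1, one_mem _, fun f hf _ => h0 f hf⟩
  push Not at h0
  obtain ⟨f', hf', τ, h3, h4⟩ := h0
  refine ⟨τ, h3, fun f hf h5 => ?_⟩
  have cl := (ine_closed 𝔓).inter (V.isClosed_of_isOpen hV)
  obtain ⟨r, r0, r1, r2⟩ := T.kum.kum _ f cl hf
  obtain ⟨s, s0, s1, s2⟩ := T.kum.kum _ f' cl hf'
  obtain ⟨F, fd, hF⟩ := T.top.field
    (V ⊓ (MulAction.stabilizer _ (r ^ 2) ⊓ MulAction.stabilizer _ (s ^ 2))) (hV.inter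
    ((stabilizer_isOpen_of_isIntegral _).inter (stabilizer_isOpen_of_isIntegral _)))
  have := NumberField.of_module_finite K F
  obtain ⟨q, hq⟩ := T.pr.under F 𝔓 h
  obtain ⟨a, ha⟩ := T.top.gs_fix F (r ^ 2) fun g hg => (hF ▸ hg).2.1
  obtain ⟨b, hb⟩ := T.top.gs_fix F (s ^ 2) fun g hg => (hF ▸ hg).2.2
  have a0 : a ≠ 0 := fun e => pow_ne_zero 2 r0 (by rw [← ha, e, map_zero])
  have b0 : b ≠ 0 := fun e => pow_ne_zero 2 s0 (by rw [← hb, e, map_zero])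
  have key : ∀ {a : F} {r : Ω}, a ≠ 0 → r ^ 2 = algebraMap F Ω a → Even (og q a) →
      ∀ g ∈ Ine K 𝔓 ⊓ V, kr r g = 0 := fun a0 ha e g hg => kr_zero.2
    ((T.ine.ine hq ((T.pr.two hq).1 h2) a0 ha).1 e g ⟨hg.1, hF ▸ ⟨hg.2, r1 g hg, s1 g hg⟩⟩)
  rcases Int.even_or_odd (og q a) with e | e
  · exact fun g hg => (r2 g hg).trans (key a0 ha.symm e g hg)
  rcases Int.even_or_odd (og q b) with e' | e'
  · exact (h4 ((s2 τ h3).trans (key b0 hb.symm e' τ h3))).elim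
  have := key (r := r * s) (mul_ne_zero a0 b0) (by rw [map_mul, ha, hb, mul_pow])
    (by rw [og, ord_mul a0 b0]; exact e.add_odd e') τ h3
  rw [T.kum.mul r0 s0 r1 s1 τ h3, ← r2 τ h3, ← s2 τ h3, h5, zero_add] at this
  exact (h4 this).elim

variable {E k : Type} [NontriviallyNormedField E] [IsUltrametricDist E] [NormedAlgebra ℚ_[2] E]
  [Field k] [Finite k] [CharP k 2] [Algebra (ZMod 2) k]

theorem genI2 {V : Subgroup Gal(Ω/K)} (hV : IsOpen (V : Set Gal(Ω/K))) :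
    ∃ τ : (Ine K 𝔓 ⊓ V : Subgroup _), Gen k ∅ τ := by
  obtain ⟨τ, a, b⟩ := ine_gen2 h h2 hV
  exact ⟨⟨τ, a⟩, fun f hf _ e => gen_cd (s := {⟨τ, a⟩}) (fun f hf h0 => by
    obtain ⟨f, rfl⟩ := ext1 f
    exact funext fun g => b f (hom_iff.1 hf) (h0 _ rfl) g g.2) (MonoidHom.id _) continuous_id
      Function.surjective_id hf (by rintro _ rfl; exact e)⟩

theorem tame2 (c : CF E k) {σ : Gal(Ω/K)} (h3 : σ ∈ Dec K 𝔓) {H : Subgroup Gal(Ω/K)}
    (cl : IsClosed (H : Set Gal(Ω/K))) (le : H ≤ Ine K 𝔓)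
    (f : H → E) (f1 : Continuous f) (f2 : ∀ g h, ‖f (g * h) - f g - f h‖ ≤ 1)
    (g g' : H) (hθ : g'.1 = σ * g * σ⁻¹) : ‖f g' - cycE E K Ω σ * f g‖ ≤ 1 := by
  have T := facts K Ω
  by_contra hx
  obtain ⟨f, rfl⟩ := ext1 f
  set x := f g' - cycE E K Ω σ * f g
  have a1 : 1 ≤ ‖c.π * x‖ := not_lt.1 fun a => hx (CF.le_one a)
  have a0 : c.π * x ≠ 0 := norm_pos_iff.1 (one_pos.trans_le a1)
  have a2 : ‖(c.π * x)⁻¹‖ ≤ 1 := by rw [norm_inv]; exact inv_le_one_of_one_le₀ a1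
  obtain ⟨i, hi⟩ : ∃ i, cd i (1 : k) ≠ cd i 0 := not_forall.1 fun a => one_ne_zero (cd_ext a)
  obtain ⟨e, e1, e2, e3, -, e5⟩ := exE K Ω c (cd i).toAddMonoidHom
  have econ : ∀ {s t}, ‖s - t‖ ≤ 1 → e s = e t := fun {s t} h => by
    rw [← add_sub_cancel t s, e1, e3 _ 0 (c.rd_pi h), map_zero, sg_zero, mul_one]
  obtain ⟨b, b0, hb⟩ := T.kum.h90 H (fun g => e ((c.π * x)⁻¹ * f g)) cl
    (fun g hg => (((continuousOn_iff_continuous_domRestrict.2 f1).const_smul (c.π * x)⁻¹ g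
      hg).eventually (Metric.closedBall_mem_nhds _ one_pos)).mono fun x hx =>
      econ (dist_eq_norm (E := E) _ _ ▸ hx)) (fun _ _ => e2 _) fun g hg l hl => by
    rw [e5, cycE_apply, T.fr.cyc_ine h h2 (le hg), ← e1]
    refine econ ?_
    convert ((c.rd_of a2).mul (c.rd_of (f2 ⟨g, hg⟩ ⟨l, hl⟩))).1 using 2
    simp
    ring
  refine unit_fix h h2 (inv_mem h3) (le g.2) b0 (σ.injective ?_)
  have d1 := e3 ((c.π * x)⁻¹ * x) 1 (c.rd_one'.congr (by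
    rw [mul_left_comm, inv_mul_cancel₀ a0]) rfl)
  rw [map_zero] at hi
  rw [LinearMap.toAddMonoidHom_coe, (zmod2_cases _).resolve_left hi, sg_one] at d1
  have d2 : e ((c.π * x)⁻¹ * f g') = -e (cycE E K Ω σ * ((c.π * x)⁻¹ * f g)) := by
    rw [← neg_one_mul, ← d1, ← e1]
    congr 1
    simp only [x]
    ring
  have d3 : σ (g.1 (σ⁻¹ b)) = g'.1 b := by rw [hθ]; rfl
  have := e2 (cycE E K Ω σ * ((c.π * x)⁻¹ * f g))
  rw [map_div₀, map_div₀, d3, hb _ g.2, hb _ g'.2, map_neg, map_div₀, map_mul σ, e5, d2,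
    ← AlgEquiv.mul_apply, mul_inv_cancel, AlgEquiv.one_apply, neg_mul, neg_div,
    mul_div_mul_left _ _ this]

variable {N : ℕ} (hN : ((2 * N : ℕ) : 𝓞 Ω) ∉ 𝔓) {β : Ω} {t : Gal(Ω/K)} (ht : t ∈ Ine K 𝔓)
  {η : Ω} (hη : IsPrimitiveRoot η N) (e : t β = η * β)

include hN ht hη e

omit h2 in
theorem pwb (j : ℕ) : (t ^ j) β = η ^ j * β := by
  induction j with
  | zero => simp
  | succ j ih =>
    rw [pow_succ', AlgEquiv.mul_apply, ih, map_mul, e, fr_root h (ine_fr ht) hN (by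
      rw [pow_right_comm, pow_mul', hη.pow_eq_one, one_pow, one_pow]), pow_one, pow_succ,
      mul_assoc]

omit h2 in
theorem cjb (β0 : β ≠ 0) {a : Gal(Ω/K)} {q : ℕ} (ha : IsFr 𝔓 q a)
    (hb : a⁻¹ β ^ (2 * N) = β ^ (2 * N)) : (a * t * a⁻¹) β = η ^ q * β := by
  rw [AlgEquiv.mul_apply, AlgEquiv.mul_apply, ine_root h ht hN hb β0 e, map_mul,
    ← AlgEquiv.mul_apply a a⁻¹, mul_inv_cancel, AlgEquiv.one_apply,
    fr_root h ha hN (by rw [pow_mul', hη.pow_eq_one, one_pow])]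

/-- The image of inertia is generated by `t`, and the tame relation holds in it. -/
theorem tameR [CompleteSpace E] [CharZero E] {c : CF E k} {W : Type} [NormedAddCommGroup W]
    [NormedSpace E W] [FiniteDimensional E W] {A : Type} [AddCommGroup A] [Module k A]
    {C : Lt c W A} {R : Rp E Gal(Ω/K) W} {Rb : FR k Gal(Ω/K) A} (hS : Cp C R Rb) (ev : Even N)
    (β0 : β ≠ 0) (fx : Fix (Ine K 𝔓) (β ^ N))
    (un : ∀ g ∈ Ine K 𝔓, g β = β → IsNilpotent (R.ac g - 1)) :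
    (∀ g ∈ Ine K 𝔓, ∀ j, ∃ m : ℕ, (t ^ m)⁻¹ * g ∈ hS.lv j) ∧ ∀ g (hg : g ∈ Ine K 𝔓) (m : ℕ),
      g β = η ^ m * β → Tm E (⟨g, hg⟩ : Ine K 𝔓) ⟨t, ht⟩ m → R.ac g = R.ac t ^ m := by
  have N0 : 0 < N := Nat.pos_of_ne_zero fun a => hN (by simp [a])
  have := NeZero.mk N0.ne'
  have := C.dim_A.1
  have := Module.finite_of_finite k (M := A)
  have gt : Gen k ∅ (⟨t, ht⟩ : Ine K 𝔓) := genK h h2 ht (pow_ne_zero (N / 2) β0)
    (by rwa [← pow_mul, Nat.div_mul_cancel ev.two_dvd])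
    (by rw [map_pow, e, mul_pow, half hη N0 ev, neg_one_mul])
  have op : IsOpen (MulAction.stabilizer Gal(Ω/K) β : Set Gal(Ω/K)) :=
    stabilizer_isOpen_of_isIntegral β
  have cl := (ine_closed 𝔓).inter (Subgroup.isClosed_of_isOpen _ op)
  have : CompactSpace (Ine K 𝔓 ⊓ MulAction.stabilizer Gal(Ω/K) β : Subgroup _) :=
    isCompact_iff_compactSpace.1 cl.isCompact
  obtain ⟨τ, hτ⟩ := genI2 (k := k) h h2 op
  have st : ∀ g ∈ Ine K 𝔓, ∀ m : ℕ, g β = η ^ m * β → ((t ^ m)⁻¹ * g) β = β := fun g _ m a => by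
    rw [AlgEquiv.mul_apply, a, ← pwb h hN ht hη e, ← AlgEquiv.mul_apply, inv_mul_cancel,
      AlgEquiv.one_apply]
  have ex : ∀ g ∈ Ine K 𝔓, ∃ m : ℕ, g β = η ^ m * β := fun g hg => by
    obtain ⟨m, -, a⟩ := hη.eq_pow_of_pow_eq_one (ξ := g β / β)
      (by rw [div_pow, ← map_pow, fx g hg, div_self (pow_ne_zero _ β0)])
    exact ⟨m, (div_eq_iff β0).1 a.symm⟩
  have op' := fun j => (hS.res (Ine K 𝔓)).lv_open j
  have pw : ∀ j, ∀ g : Ine K 𝔓, g.1 β = β → ∃ a, g ^ 2 ^ a ∈ (hS.res (Ine K 𝔓)).lv j :=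
    fun j g a => (hS.res _).lv_pow (un _ g.2 a) j
  have n1 : t * τ * t⁻¹ ∈ Ine K 𝔓 ⊓ MulAction.stabilizer Gal(Ω/K) β :=
    ⟨(Ine K 𝔓).mul_mem ((Ine K 𝔓).mul_mem ht τ.2.1) (inv_mem ht), by
      obtain ⟨m, a⟩ := ex _ (inv_mem ht)
      change t (τ.1 (t⁻¹ β)) = β
      rw [a, map_mul, show τ.1 β = β from τ.2.2, fr_root h (ine_fr τ.2.1) hN (by
        rw [pow_right_comm, pow_mul', hη.pow_eq_one, one_pow, one_pow]), pow_one, ← a,
        ← AlgEquiv.mul_apply, mul_inv_cancel, AlgEquiv.one_apply]⟩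
  have tm : Tm E ⟨_, n1⟩ τ 1 := fun f f1 f2 => by
    rw [← cyc_q (E := E) h h2 (ine_fr ht)]
    exact tame2 h h2 c ((facts K Ω).pr.le _ ht) cl inf_le_left f f1 f2 _ _ rfl
  have gen := fun j => cycT gt _ (op' j) (Subgroup.inclusion inf_le_left)
    (continuous_inclusion inf_le_left) hτ (fun g => by
      obtain ⟨m, a⟩ := ex _ g.2
      exact ⟨m, ⟨_, (Ine K 𝔓).mul_mem (inv_mem (pow_mem ht m)) g.2, st _ g.2 m a⟩,
        Subtype.ext (mul_inv_cancel_left _ _).symm⟩) rfl tm fun x => pw j _ x.2.2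
  refine ⟨fun g hg j => ?_, fun g hg m a tm => ?_⟩
  · obtain ⟨m, a⟩ := gen j ⟨g, hg⟩
    rw [← QuotientGroup.mk_pow, QuotientGroup.eq, Cp.mem_lv] at a
    exact ⟨m, hS.mem_lv.2 a⟩
  rw [← map_pow]
  refine (hS.res (Ine K 𝔓)).lv_eq (g := ⟨g, hg⟩) (l := ⟨t, ht⟩ ^ m) fun j => ?_
  obtain ⟨b, hb⟩ := pw j ((⟨g, hg⟩ : Ine K 𝔓)⁻¹ * ⟨t, ht⟩ ^ m) (by
    change g⁻¹ ((t ^ m) β) = β
    rw [pwb h hN ht hη e, ← a, ← AlgEquiv.mul_apply, inv_mul_cancel, AlgEquiv.one_apply])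
  exact relT gt _ (op' j) (gen j) tm hb

end Pool.Agent.BC
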