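import Pool.Agent.Lib.MP_b4b3cb_nt.BC.LocQ

/-! Local terms at split, real and unramified places. -/

set_option linter.unusedSectionVars false

namespace Pool.Agent.BC.RD

open scoped Classical
open Module Pool.Agent.SP

variable {k : Type} [Field k] {G : Type} [Group G] [TopologicalSpace G]
  {V : Type} [AddCommGroup V] [Module k V] {X : RD k G V} {Y : Submodule k (G → V × V)}
  [CharP k 2]

theorem Q_add {t t' : G → V × V} (ht : t ∈ X.W.Z1) (ht' : t' ∈ X.W.Z1) :
    Sz (X.Q (t + t') + (X.Q t + X.Q t' + c11 X.om X.W t t')) :=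
  ⟨fun g => X.a (t g).1 (t' g).1 + X.a (t g).1 (t' g).2,
    lc_two (fun u w : V × V => X.a u.1 w.1 + X.a u.1 w.2) ht.1 ht'.1, fun g h => by
      have a1 := X.pf.eq g (t h).1 (t' h).1
      have a2 := X.pf.eq g (t h).1 (t' h).2
      have a3 := X.pf.eq g (t h).2 (t' h).1
      have a4 := X.pf.eq g (t h).2 (t' h).2
      have a5 := X.sy (t' g).1 (X.r.ac g (t h).1)
      have a6 := X.sy (t' g).1 (X.r.ac g (t h).2)
      have a7 := X.sy (t' g).2 (X.r.ac g (t h).1)
      have a8 := X.sy (t' g).2 (X.r.ac g (t h).2)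
      have a9 := X.sy (t' h).2 (t h).1
      have := X.χ2 g
      simp only [Q, c11, om_apply, fst_coc ht, fst_coc ht', snd_coc ht', Pi.add_apply, W_ac,
        Prod.fst_add, Prod.snd_add, map_add, map_smul, LinearMap.add_apply, LinearMap.smul_apply,
        smul_eq_mul]
      grind⟩

theorem Q_b1 {t : G → V × V} (ht : t ∈ X.W.B1) : Sz (X.Q t) := by
  have z := X.W.B1_le ht
  obtain ⟨w, e⟩ := ht
  refine ⟨fun g => X.a (w.1 + w.2) (t g).1, lc_one (fun u : V × V => X.a _ u.1) z.1,
    fun g h => ?_⟩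
  have e1 : ∀ g, (t g).1 = X.r.ac g (w.1 + X.χ g • w.2) - w.1 := fun g => by rw [← e]; rfl
  have e2 : ∀ g, (t g).2 = X.r.ac g w.2 - w.2 := fun g => by rw [← e]; rfl
  have a1 := X.pf.eq g w.1 (t h).1
  have a2 := X.pf.eq g w.1 (t h).2
  have a3 := X.pf.eq g w.2 (t h).1
  have a4 := X.pf.eq g w.2 (t h).2
  have a5 : X.a (t h).2 (t h).1 = X.a w.1 (t h).2 + X.a w.2 (t h).1 := by
    have b1 := X.pf.eq h w.2 w.1
    have b2 := X.sy w.1 w.2
    have b3 := X.sy w.1 (X.r.ac h w.2)
    simp only [e1, e2, map_add, map_sub, map_smul, LinearMap.sub_apply, X.alt, smul_eq_mul]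
    grind
  have := X.χ2 g
  beta_reduce
  rw [Q, e2 g, fst_coc z, e1 g]
  simp only [W_ac, map_add, map_sub, map_smul, LinearMap.add_apply, LinearMap.sub_apply,
    LinearMap.smul_apply, smul_eq_mul]
  grind

/-- The unramified condition. -/
theorem unr [IsTopologicalGroup G] [FiniteDimensional k V] {I : Subgroup G} {σ : G} (M : MI k I σ)
    (hI : ∀ i ∈ I, X.χ i = 0 ∨ X.r.ac i = 1) : X.SQ (X.W.Un I ⊔ X.W.B1) := by
  refine ⟨le_sup_right, sup_le (fun _ p => p.1) X.W.B1_le,
    by rw [ann_sup_b1 X.pfW, M.ann X.pfW], fun t ht => ?_⟩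
  obtain ⟨x, hx, y, hy, rfl⟩ := Submodule.mem_sup.1 ht
  have f := (FR.inf_iff hx.1).2 hx.2
  have q : Sz (X.Q x) := M.sz (cz_Q hx.1) fun g h i hi => by
    have e : X.W.ac i (x h) = x h := by
      have := FR.coc hx.1 i h
      rw [hx.2 i hi, zero_add, show i * h = h * (h⁻¹ * i * h⁻¹⁻¹) by group,
        f h _ (M.nor.conj_mem i hi _)] at this
      exact this.symm
    have e' : X.χ i * X.a (x h).2 (x h).1 = 0 := by
      rcases hI i hi with p | p
      · rw [p, zero_mul]
      · have := congrArg Prod.fst e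
        rw [W_ac, p, Module.End.one_apply, add_eq_left] at this
        rw [← smul_eq_mul, ← LinearMap.smul_apply, ← map_smul, this, map_zero,
          LinearMap.zero_apply]
    refine ⟨?_, by simp only [Q, f h i hi]⟩
    simp only [Q, f g i hi, X.W.mul, e, X.χ_mul, add_mul, e', add_zero]
  have := (Q_add hx.1 (X.W.B1_le hy)).add
    ((q.add (Q_b1 hy)).add (sz_b1_right X.pfW hx.1 hy))
  exact sz_congr this fun g l => by simp only [Pi.add_apply]; grind

variable [Finite k] [Algebra (ZMod 2) k] [FiniteDimensional k V] (H : Two G) (L : LDm k G)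

include H L

/-- Split places. -/
theorem split (h0 : ∀ g, X.χ g = 0) {A : Submodule k (G → V)} (h1 : X.r.B1 ≤ A) (h2 : A ≤ X.r.Z1)
    (hY : ∀ t, t ∈ Y ↔ (fun g => (t g).1 + (t g).2) ∈ A ∧
      (fun g => (t g).1) ∈ ann X.a X.r X.r A) :
    X.SQ Y ∧ X.Term Y (finrank k A - finrank k (ann X.a X.r X.r A)) := by
  set B := ann X.a X.r X.r A with hB
  have tw : ∀ u v : V, u + (u + v) = v := fun u v => by
    rw [← add_assoc, add_self (k := k), zero_add]
  have z : Y ≤ X.W.Z1 := fun t p => by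
    obtain ⟨p, q⟩ := (hY t).1 p
    refine X.W.mk_z1 (lc_two (fun u v => (u, u + v)) q.1.1 (h2 p).1 |>.desc _ id
      Function.injective_id |> fun l => by simpa only [tw] using l) fun g l => ?_
    have a1 := FR.coc q.1 g l
    have a2 := FR.coc (add_mem q.1 (h2 p)) g l
    simp only [Pi.add_apply, tw] at a1 a2
    exact Prod.ext (by simp [W_ac, h0, a1]) a2
  have zs : ∀ t ∈ X.W.Z1, (fun g => (t g).1) ∈ X.r.Z1 := fun t p =>
    X.r.mk_z1 (lc_one _ p.1) fun g l => by simp [fst_coc p, h0]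
  have om : ∀ t t' : G → V × V, c11 X.om X.W t t' =
      c11 X.a X.r (fun g => (t g).1 + (t g).2) (fun g => (t' g).1) +
        c11 X.a X.r (fun g => (t g).1) fun g => (t' g).1 + (t' g).2 := fun t t' => by
    ext g l
    simp only [c11, om_apply, W_ac, h0, zero_smul, add_zero, Pi.add_apply, map_add,
      LinearMap.add_apply]
    grind
  have AB : ∀ x ∈ A, ∀ s ∈ B, Sz (c11 X.a X.r x s) := fun x p s q => sz_sy q.1 (h2 p) (q.2 x p)
  have S : X.SQ Y := by
    refine ⟨?_, z, le_antisymm (fun t p => (hY t).2 ⟨?_, zs t p.1, fun x hx => ?_⟩)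
      fun t p => ⟨z p, fun t' q => ?_⟩, fun t p => ?_⟩
    · rintro _ ⟨w, rfl⟩
      refine (hY _).2 ⟨h1 ⟨w.1 + w.2, funext fun g => ?_⟩,
        b1_le_ann X.pf h2 ⟨w.1, funext fun g => ?_⟩⟩
      · simp only [FR.d1_apply, W_ac, h0, zero_smul, add_zero, Prod.fst_sub, Prod.snd_sub, map_add]
        abel
      · simp [FR.d1_apply, W_ac, h0]
    · rw [← ann_ann_a H L h1 h2]
      refine ⟨add_mem (zs t p.1) (snd_z1 p.1), fun s hs => ?_⟩
      refine sz_congr (p.2 (fun g => (s g, s g)) ((hY _).2 ⟨?_, hs⟩)) fun g l => ?_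
      · simp only [add_self (k := k)]
        exact zero_mem _
      · simp [c11, om_apply, W_ac, h0, add_comm]
    · refine sz_congr (p.2 (fun g => (0, x g)) ((hY _).2 ⟨by simpa using hx, zero_mem _⟩))
        fun g l => by simp [c11, om_apply, W_ac, h0]
    · rw [om]
      exact (AB _ ((hY t).1 p).1 _ ((hY t').1 q).2).add (((hY t).1 p).2.2 _ ((hY t').1 q).1)
    · refine sz_congr (AB _ ((hY t).1 p).1 _ ((hY t).1 p).2) fun g l => ?_
      simp [c11, Q, W_ac, h0, add_comm]
  obtain ⟨t, ht, e⟩ := S.c_mem H L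
  have e' : ∀ g, (t g).2 = X.c g := congrFun e
  obtain ⟨t1, t2⟩ := (hY t).1 ht
  have := L.fin X.r
  have := Submodule.finiteDimensional_of_le h2
  have : FiniteDimensional k B := Submodule.finiteDimensional_of_le ann_le
  have e0 : Y0 Y = A ⊔ B := le_antisymm (fun _ ⟨t, p, q⟩ => by
      have := add_mem (Submodule.mem_sup_right (S := A) ((hY t).1 p).2)
        (Submodule.mem_sup_left ((hY t).1 p).1)
      rw [← q]
      exact Set.mem_of_eq_of_mem (funext fun g => (tw (t g).1 _).symm) this)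
    (sup_le (fun x p => ⟨fun g => (0, x g), (hY _).2 ⟨by simpa using p, zero_mem _⟩, rfl⟩)
      fun s p => ⟨fun g => (s g, s g), (hY _).2 ⟨by
        simp only [add_self (k := k)]; exact zero_mem _, p⟩, rfl⟩)
  have e1 : Y1 Y = A ⊓ B := Submodule.ext fun s => (hY _).trans (by simp)
  have cz : ∀ x ∈ B, ∀ y ∈ B, Cz (c11 X.a X.r x y) := fun x p y q => cz_c11 X.pf p.1 q.1
  have cs : ∀ x ∈ B, invK (c11 X.a X.r X.c x) = invK (c11 X.a X.r (fun g => (t g).1) x) :=
    fun x p => invK_congr H (cz_c11 X.pf X.c_z1 p.1) (cz _ t2 x p)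
      (sz_congr (AB _ t1 x p) fun g l => by simp [c11, e', add_comm])
  have w := wu (A := B) (A' := A ⊓ B) (f := fun x y => invK (c11 X.a X.r x y)) inf_le_right
    (fun b p => ⟨fun x q y r => by beta_reduce; rw [c11_add_left, invK_add H (cz x q b p) (cz y r b p)],
      fun r x q => by beta_reduce; rw [c11_smul_left, invK_smul H r (cz x q b p)]⟩)
    (fun b p => ⟨fun x q y r => by beta_reduce; rw [c11_add_right, invK_add H (cz b p x q) (cz b p y r)],
      fun r x q => by beta_reduce; rw [c11_smul_right, invK_smul H r (cz b p x q)]⟩) t2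
    (fun x p => by
      rw [← cs x p, ← invK_sq H (cz_c11 X.pf X.c_z1 p.1)]
      exact invK_congr H (cz x p x p) (cz_sq (cz_c11 X.pf X.c_z1 p.1))
        ⟨fun g => X.N (x g) (x g), lc_one (fun u => X.N u u) p.1.1, fun g l => by
          have := c11_self p.1 g l
          simp only [Pi.add_apply, dk] at this ⊢
          grind⟩)
    fun b p => ⟨fun q a r => invK_sz (r.2 b q.1), fun q => ⟨mem_of_ann H L X.pf h1 h2 p.1
      fun a r => (invK_zero H (cz a r b p)).1 (q a r), p⟩⟩
  refine ⟨S, t, ht, e', finrank k B + finrank k (A ⊓ B : Submodule k _), ?_, ?_⟩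
  · rw [w, ← cs _ t2]
    congr 1
    ext g l
    simp [gv, P, c11, W_ac, h0]
  · have := Submodule.finrank_sup_add_finrank_inf_eq A B
    rw [e0, e1]
    omega

/-- Real places that become complex. -/
theorem real {s : G} (hs : ∀ g, g = 1 ∨ g = s) (h1 : X.χ s = 1) :
    X.W.Z1 = X.W.B1 ∧ finrank k X.W.B1 = finrank k V ∧ X.SQ X.W.B1 ∧
      X.Term X.W.B1 (-finrank k V) := by
  have ss : s * s = 1 := (hs _).resolve_right fun e => by
    have := X.χ_mul s s
    rw [e, h1, left_eq_add] at this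
    exact one_ne_zero this
  have key : ∀ t ∈ X.W.Z1, X.W.d1 ((t s).1, (t s).1) = t := fun t p => funext fun g => by
    rcases hs g with rfl | rfl
    · rw [FR.z1_one p, FR.z1_one (X.W.d1_mem _)]
    have a1 := fst_coc p g g
    have a2 := snd_coc p g g
    rw [ss, FR.z1_one p] at a1 a2
    rw [h1, one_smul, map_add] at a1
    refine Prod.ext ?_ ?_
    · simp [FR.d1_apply, W_ac, h1, add_self (k := k), neg_eq k]
    · change X.r.ac g (t g).1 - (t g).1 = (t g).2
      rw [sub_eq k, add_comm, (eq_neg_of_add_eq_zero_left a2.symm).trans (neg_eq k _)]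
      exact (eq_neg_of_add_eq_zero_left ((add_assoc _ _ _).trans a1.symm)).trans (neg_eq k _)
  have zb : X.W.Z1 = X.W.B1 := le_antisymm (fun t p => ⟨_, key t p⟩) X.W.B1_le
  have d : finrank k X.W.B1 = finrank k V := by
    rw [show X.W.B1 = LinearMap.range (X.W.d1 ∘ₗ LinearMap.id.prod LinearMap.id) from
      le_antisymm (fun t p => ⟨_, key t (X.W.B1_le p)⟩) (LinearMap.range_comp_le_range _ _)]
    exact LinearMap.finrank_range_of_inj fun a b e => by
      simpa [FR.d1_apply, W_ac, h1, add_self (k := k)] using congrArg Prod.fst (congrFun e s)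
  have S : X.SQ X.W.B1 := ⟨le_rfl, X.W.B1_le, by rw [ann_b1 X.pfW, zb], fun _ => Q_b1⟩
  have e0 : Y0 X.W.B1 = X.r.B1 :=
    le_antisymm (fun _ ⟨_, p, q⟩ => q ▸ X.eqv_p.b1 p) (y0_b1 le_rfl)
  obtain ⟨u, hu⟩ := e0.le (S.c_mem H L)
  have c : ∀ g, X.c g = X.r.ac g u - u := fun g => (congrFun hu g).symm
  have e : ∀ g, (X.W.d1 (0, u) g).2 = X.c g := fun g => (c g).symm
  have r : finrank k X.r.B1 = finrank k (LinearMap.range (X.r.ac s - 1)) := by
    have a1 := X.r.rank_B1
    have a2 := (X.r.ac s - 1).finrank_range_add_finrank_ker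
    have : X.r.H0 = LinearMap.ker (X.r.ac s - 1) := Submodule.ext fun v => by
      rw [FR.mem_H0, LinearMap.mem_ker, LinearMap.sub_apply, sub_eq_zero]
      exact ⟨fun p => p s, fun p g => by
        rcases hs g with rfl | rfl
        exacts [X.r.one v, p]⟩
    rw [this] at a1
    omega
  have cz : Cz fun g h => X.χ g * X.χ h := ⟨(lc_at X.hχ.1 continuous_fst).mul
    (lc_at X.hχ.1 continuous_snd), fun a b c => by simp only [X.χ_mul]; ring⟩
  have i1 : invK (fun g h => X.χ g * X.χ h) = 1 := by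
    have a1 := invK_sq H cz
    simp only [mul_pow] at a1
    simp only [sq, X.χ2] at a1
    refine mul_left_cancel₀ (fun p => ?_) (a1.symm.trans (mul_one _).symm)
    obtain ⟨f, -, q⟩ := (invK_zero H cz).1 p
    have b1 := q 1 1
    have b2 := q s s
    beta_reduce at b1 b2
    rw [ss, h1] at b2
    rw [X.χ_one, mul_one] at b1
    grind
  refine ⟨zb, d, S, _, ⟨_, rfl⟩, e, finrank k X.r.B1, ?_, ?_⟩
  · rw [← mul_one (finrank k X.r.B1 : k), ← i1, ← invK_smul H _ cz]
    refine invK_congr H (cz_gv (X.W.d1_mem _) e) ⟨lc_one (_ * ·) cz.1, fun a b c => by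
      simp only [Pi.smul_apply, smul_eq_mul, X.χ_mul]; ring⟩
      (sz_congr (gv_shift (X.W.d1_mem _) e u) fun g l => ?_)
    have : X.D0 u l = finrank k X.r.B1 * X.χ l := by
      rw [D0_rk (c l)]
      rcases hs l with rfl | rfl
      · rw [map_one, sub_self, LinearMap.range_zero, finrank_bot, X.χ_one, mul_zero,
          Nat.cast_zero]
      · rw [h1, r, mul_one]
    simp only [Pi.add_apply, P, this, hu, add_self (k := k), map_zero, LinearMap.zero_apply,
      Pi.smul_apply, smul_eq_mul]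
    ring
  · have := S.dim L
    rw [e0] at this ⊢
    omega

end Pool.Agent.BC.RD
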