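import Pool.Agent.Lib.MP_b4b3cb_nt.BC.LocQ

/-! Local terms at ramified and inert places, and comparison of two conditions. -/

set_option linter.unusedSectionVars false

namespace Pool.Agent.BC

open scoped Classical
open Module Pool.Agent.SP

variable {k : Type} [Field k] {G : Type} [Group G] [TopologicalSpace G]
  {V : Type} [AddCommGroup V] [Module k V] {I : Subgroup G} {σ τ : G}

/-- The values of an unramified cocycle are fixed by the inertia group. -/
theorem FR.un_fix {R : FR k G V} (n : I.Normal) {x : G → V} (hx : x ∈ R.Un I) {i : G} (hi : i ∈ I)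
    (g : G) : R.ac i (x g) = x g := by
  have := FR.coc hx.1 i g
  rw [hx.2 i hi, zero_add, show i * g = g * (g⁻¹ * i * g) by group,
    (FR.inf_iff hx.1).2 hx.2 g _ (n.conj_mem' i hi g)] at this
  exact this.symm

theorem FR.un_fix' {R : FR k G V} (n : I.Normal) {x : G → V} (hx : x ∈ R.Un I) {i : G} (hi : i ∈ I)
    (g h : G) : R.ac i (R.ac g (x h)) = R.ac g (x h) := by
  rw [← R.mul, show i * g = g * (g⁻¹ * i * g) by group, R.mul,
    FR.un_fix n hx (n.conj_mem' i hi g)]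

variable [CharP k 2]

theorem MI.sz_un (M : MI k I σ) {α β : G → k} (ha : α ∈ (triv k G).Un I)
    (hb : β ∈ (triv k G).Un I) : Sz fun g h => α g * β h :=
  ((M.ann triv_pf).ge (Submodule.mem_sup_left ha)).2 β hb

/-- The cup product of the unramified character with a ramified one. -/
theorem MI.inv_un [Finite k] [Algebra (ZMod 2) k] (M : MI k I σ) (H : Two G) {α β : G → k}
    (ha : α ∈ (triv k G).Un I) (a1 : α σ = 1) (a2 : ∀ g, α g ^ 2 = α g) (hb : β ∈ (triv k G).Z1)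
    (b2 : ∀ i ∈ I, β i ^ 2 = β i) (hτ : τ ∈ I) (b1 : β τ = 1) :
    invK (fun g h => α g * β h) = 1 := by
  have cz : Cz fun g h => α g * β h := cz_c11 triv_pf ha.1 hb
  have b3 : (fun g => β g ^ 2 + β g) ∈ (triv k G).Un I :=
    ⟨triv_z1.2 ⟨lc_one (fun x => x ^ 2 + x) hb.1, fun g h => by
      simp only [(triv_z1.1 hb).2]
      grind⟩, fun i hi => by simp only [b2 i hi, CharTwo.add_self_eq_zero]⟩
  have e : invK (fun g h => α g * β h) ^ 2 = invK fun g h => α g * β h := by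
    rw [← invK_sq H cz]
    exact invK_congr H (cz_sq cz) cz (sz_congr (M.sz_un ha b3) fun g h => by
      simp only [Pi.add_apply, mul_pow, a2, mul_add])
  by_contra n
  have z : invK (fun g h => α g * β h) = 0 := by grind
  have s := sz_flip triv_pf ha.1 hb ((invK_zero H cz).1 z)
  have : β ∈ BC.ann (LinearMap.mul k k) (triv k G) (triv k G) ((triv k G).Un I) := ⟨hb, fun x hx => by
    have := M.ext (sub_mem hx (Submodule.smul_mem _ (x σ) ha)) (by simp [a1])
    rw [sub_eq_zero.1 this, c11_smul_right]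
    exact sz_smul (sz_congr s fun g h => mul_comm _ _) _⟩
  rw [M.ann triv_pf] at this
  obtain ⟨y, hy, _, ⟨u, rfl⟩, e⟩ := Submodule.mem_sup.1 this
  have := congrFun e τ
  rw [Pi.add_apply, hy.2 τ hτ, b1, zero_add] at this
  exact one_ne_zero (this.symm.trans (sub_self u))

theorem cast_sq (n : ℕ) : (n : k) ^ 2 = n := by
  rcases CharTwo.natCast_cases (R := k) n with e | e <;> simp [e]

namespace RD

variable {X : RD k G V} {Y Y' : Submodule k (G → V × V)}

theorem c_congr {g h : G} (e : X.r.ac g = X.r.ac h) : X.c g = X.c h :=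
  sub_eq_zero.1 (X.pf.nl _ fun w => by
    obtain ⟨v, rfl⟩ : ∃ v, X.r.ac g v = w := ⟨_, X.r.ac_inv _ w⟩
    have a1 := X.hc g v
    have a2 := X.hc h v
    rw [← e] at a2
    simp only [map_sub, LinearMap.sub_apply]
    refine (pow_eq_zero_iff two_ne_zero).1 ?_
    grind)

theorem c_range [FiniteDimensional k V] (X : RD k G V) (g : G) : ∃ u, X.c g = X.r.ac g u - u := by
  obtain ⟨u, hu⟩ := bidual (X.a.flip ∘ₗ (1 - X.r.ac g)) (X.a (X.c g) ∘ₗ X.r.ac g) fun v h => by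
    have e : v - X.r.ac g v = 0 := X.pf.nr _ h
    have := X.hc g v
    rw [← sub_eq_zero.1 e] at this
    simpa [← sub_eq_zero.1 e] using this
  refine ⟨u, sub_eq_zero.1 (X.pf.nl _ fun w => ?_)⟩
  obtain ⟨v, rfl⟩ : ∃ v, X.r.ac g v = w := ⟨_, X.r.ac_inv _ w⟩
  have a1 : X.a (X.c g) (X.r.ac g v) = X.a u (v - X.r.ac g v) := hu v
  simp only [map_sub, LinearMap.sub_apply, X.pf.eq] at a1 ⊢
  rw [a1, sub_self]

theorem y0_sup : Y0 (Y ⊔ Y') = Y0 Y ⊔ Y0 Y' := Submodule.map_sup _ _ _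

theorem y0_B1 : Y0 X.W.B1 = X.r.B1 :=
  le_antisymm (fun _ ⟨_, p, e⟩ => e ▸ X.eqv_p.b1 p) (y0_b1 le_rfl)

variable [Finite k] [Algebra (ZMod 2) k] [FiniteDimensional k V] (H : Two G)

theorem y1_un (M : MI k I σ) :
    Y1 (X.W.Un I ⊔ X.W.B1) = ann X.a X.r X.r (Y0 (X.W.Un I ⊔ X.W.B1)) := by
  rw [ann_y0, ann_sup_b1 X.pfW, M.ann X.pfW]

include H

/-- The local term at a place where the character ramifies. -/
theorem ram (M : MI k I σ) (hI : ∀ i ∈ I, X.r.ac i = 1) (hτ : τ ∈ I) (hχ : X.χ τ = 1)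
    (ev : Even (finrank k V)) : X.Term (X.W.Un I ⊔ X.W.B1) 0 := by
  have e0 : Y0 (X.W.Un I ⊔ X.W.B1) = X.r.B1 := by
    rw [y0_sup, y0_B1, sup_eq_right]
    rintro _ ⟨t, ht, rfl⟩
    exact ⟨0, (map_zero _).trans (funext fun g => Eq.symm (by
      simpa [W_ac, hI τ hτ, hχ] using congrArg Prod.fst (FR.un_fix M.nor ht hτ g)))⟩
  have e1 : Y1 (X.W.Un I ⊔ X.W.B1) = X.r.Z1 := by rw [y1_un M, e0, ann_b1 X.pf]
  have un : ∀ u, X.r.d1 u ∈ X.r.Un I := fun u =>
    ⟨X.r.d1_mem u, fun i hi => by simp [FR.d1_apply, hI i hi]⟩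
  obtain ⟨u, hu⟩ := X.c_range σ
  have cu : X.c = X.r.d1 u := sub_eq_zero.1
    (M.ext (sub_mem ⟨X.c_z1, fun i hi => X.c_triv (hI i hi)⟩ (un u)) (sub_eq_zero.2 hu))
  have c0 : X.c + X.r.d1 u = 0 := by rw [cu, add_self (k := k)]
  have rk := fun g => D0_rk (X := X) (congrFun cu g)
  have θ : X.D0 u ∈ (triv k G).Un I :=
    ⟨triv_z1.2 ⟨D0_lc u, fun g h => by rw [D0_mul, c0]; simp⟩, fun i hi => by
      rw [rk, hI i hi, sub_self, LinearMap.range_zero, finrank_bot, Nat.cast_zero]⟩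
  have tz := X.W.d1_mem (0, u)
  have t2 : ∀ g, (X.W.d1 (0, u) g).2 = X.c g := fun g => (congrFun cu g).symm
  have χz := triv_z1.2 X.hχ
  refine ⟨_, Submodule.mem_sup_right ⟨(0, u), rfl⟩, t2,
    finrank k (LinearMap.range (X.r.ac σ - 1)), ?_, ?_⟩
  · rw [invK_congr H (cz_gv tz t2) (cz_c11 triv_pf χz θ.1) (sz_congr (gv_shift tz t2 u)
      fun g h => by rw [c0]; simp [P, c11, triv]), invK_swap H triv_pf χz θ.1, ← rk]
    rcases CharTwo.natCast_cases (R := k) (finrank k (LinearMap.range (X.r.ac σ - 1))) with e | e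
    · rw [M.ext θ ((rk σ).trans e)]
      exact invK_sz (sz_congr sz_zero fun g h => by simp [c11])
    · rw [rk, e, ← M.inv_un H θ ((rk σ).trans e) (fun g => by rw [rk, cast_sq]) χz
        (fun i _ => by rw [pow_two, X.χ2]) hτ hχ]
      exact congrArg invK (funext₂ fun g h => mul_comm _ _)
  · have a1 := M.dimZ X.pf
    have a2 := X.r.rank_B1
    have a3 := (X.r.ac σ - 1).finrank_range_add_finrank_ker
    rw [show LinearMap.ker (X.r.ac σ - 1) = X.r.H0 from Submodule.ext fun v =>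
      ⟨fun p => M.ext (un v) p, fun p => congrFun p σ⟩] at a3
    rw [e0, e1]
    obtain ⟨n, ev⟩ := ev
    omega

omit H in
theorem lift_un (M : MI k I σ) (hI : ∀ i ∈ I, X.χ i = 0) {x : G → V} (hx : x ∈ X.r.Un I) :
    ∃ t ∈ X.W.Un I, ∀ g, (t g).2 = x g := by
  obtain ⟨φ, p1, p3, -, p2⟩ := M.u0 X.r (fun g l => X.χ g • X.r.ac g (x l)) 0
    ⟨lc_two (fun (c : k) (u : V) => c • u) (lc_at X.hχ.1 continuous_fst)
      (X.r.lc_ac continuous_fst (lc_at hx.1.1 continuous_snd)), fun g l m => by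
        simp only [FR.coc hx.1, X.χ_mul, X.r.mul, map_add, map_smul, smul_add, add_smul]
        abel⟩ (fun g l i hi => by
      simp only [X.χ_mul, hI i hi, add_zero, X.r.mul, FR.un_fix M.nor hx hi,
        (FR.inf_iff hx.1).2 hx.2 l i hi, and_self])
    (fun g l i hi => by simp only [map_smul, FR.un_fix' M.nor hx hi]) fun _ _ => map_zero _
  have z : (fun g => (φ g, x g)) ∈ X.W.Z1 :=
    X.W.mk_z1 (lc_two Prod.mk p1 hx.1.1) fun g l => Prod.ext (by
      have := p2 g l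
      rw [FR.d2, eq_sub_iff_add_eq] at this
      change φ (g * l) = φ g + X.r.ac g (φ l + X.χ g • x l)
      rw [map_add, map_smul, ← add_assoc, ← this, add_right_comm, add_self (k := k), zero_add])
      (FR.coc hx.1 g l)
  exact ⟨_, ⟨z, (FR.inf_iff z).1 fun g i hi =>
    Prod.ext (p3 g i hi) ((FR.inf_iff hx.1).2 hx.2 g i hi)⟩, fun _ => rfl⟩

/-- The local term at an inert place. -/
theorem inert (M : MI k I σ) (hI : ∀ i ∈ I, X.χ i = 0) (hχ : X.χ σ = 1) (hτ : τ ∈ I)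
    (cy : ∀ i ∈ I, ∃ j : ℕ, X.r.ac i = X.r.ac τ ^ j) :
    X.Term (X.W.Un I ⊔ X.W.B1) (2 * finrank k (LinearMap.range (X.r.ac τ - 1))) := by
  have e0 : Y0 (X.W.Un I ⊔ X.W.B1) = X.r.Un I ⊔ X.r.B1 := by
    rw [y0_sup, y0_B1]
    refine congrArg (· ⊔ _) (le_antisymm ?_ fun x hx => ?_)
    · rintro _ ⟨t, ht, rfl⟩
      exact ⟨snd_z1 ht.1, fun i hi => congrArg Prod.snd (ht.2 i hi)⟩
    · obtain ⟨t, t1, t2⟩ := lift_un M hI hx
      exact ⟨t, t1, funext t2⟩
  have e1 : Y1 (X.W.Un I ⊔ X.W.B1) = X.r.Un I ⊔ X.r.B1 := by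
    rw [y1_un M, e0, ann_sup_b1 X.pf, M.ann X.pf]
  obtain ⟨u, hu⟩ := X.c_range τ
  have cz := add_mem X.c_z1 (X.r.d1_mem u)
  have ci : ∀ i ∈ I, X.c i = X.r.ac i u - u := fun i hi => by
    obtain ⟨j, e⟩ := cy i hi
    rw [← map_pow] at e
    have : (X.c + X.r.d1 u) (τ ^ j) = 0 := (FR.zs cz).pow_mem
      (show X.c τ + (X.r.ac τ u - u) = 0 by rw [hu, add_self (k := k)]) j
    rw [c_congr e, e]
    exact (eq_neg_of_add_eq_zero_left this).trans (neg_eq k _)
  have c0 : X.c + X.r.d1 u ∈ X.r.Un I := ⟨cz, fun i hi => by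
    rw [Pi.add_apply, ci i hi]
    exact add_self (k := k) _⟩
  obtain ⟨t, t1, t2⟩ := lift_un M hI c0
  have tz := add_mem t1.1 (X.W.d1_mem (0, u))
  have t3 : ∀ g, ((t + X.W.d1 (0, u)) g).2 = X.c g := fun g => by
    rw [Pi.add_apply, Prod.snd_add, t2, Pi.add_apply, add_assoc]
    exact add_eq_left.2 (add_self (k := k) _)
  have ic := (FR.inf_iff cz).2 c0.2
  obtain ⟨E, E1, E2, -, E3⟩ := M.u0 (triv k G) _ 0 (cz_c11 X.pf cz cz) (fun g l i hi => by
      simp only [c11, X.r.mul, FR.un_fix M.nor c0 hi, ic g i hi, ic l i hi, and_self])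
    (fun _ _ _ _ => rfl) fun _ _ => rfl
  replace E3 : ∀ g l, c11 X.a X.r (X.c + X.r.d1 u) (X.c + X.r.d1 u) g l = dk E g l := E3
  have E0 : ∀ i ∈ I, E i = 0 := fun i hi => by
    have := E3 1 1
    rw [← one_mul i, E2 1 i hi]
    simpa [c11, dk, FR.z1_one cz] using this.symm
  have θ : X.D0 u + E ∈ (triv k G).Z1 := triv_z1.2 ⟨(D0_lc u).add E1, fun g h => by
    have := E3 g h
    simp only [c11, dk] at this
    simp only [Pi.add_apply, D0_mul] at this ⊢
    grind⟩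
  have rk : ∀ i ∈ I, (X.D0 u + E) i = finrank k (LinearMap.range (X.r.ac i - 1)) := fun i hi => by
    rw [Pi.add_apply, E0 i hi, add_zero, D0_rk (ci i hi)]
  have χz : X.χ ∈ (triv k G).Un I := ⟨triv_z1.2 X.hχ, hI⟩
  have s : Sz fun g h => X.χ g * E h + X.P (X.c + X.r.d1 u) t g h := M.sz
    (cz_iff_d3.2 ⟨((lc_at X.hχ.1 continuous_fst).mul (lc_at E1 continuous_snd)).add
      (X.P_lc cz.1 t1.1.1), fun g l m => by
        have a1 := d3_chi (X := X) E g l m
        have a2 := d3_P cz t1.1 g l m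
        rw [funext t2, E3] at a2
        simp only [d3] at a1 a2 ⊢
        grind⟩) fun g l i hi => by
      simp only [P, X.χ_mul, hI i hi, add_zero, X.W.mul, FR.un_fix M.nor t1 hi, ic g i hi,
        E2 l i hi, (FR.inf_iff t1.1).2 t1.2 l i hi, and_self]
  refine ⟨_, Submodule.add_mem_sup t1 ⟨(0, u), rfl⟩, t3,
    finrank k (LinearMap.range (X.r.ac τ - 1)), ?_, by rw [e0, e1]; simp⟩
  rw [invK_congr H (cz_gv tz t3) (ε' := fun g h => X.χ g * (X.D0 u + E) h) (cz_c11 triv_pf χz.1 θ)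
    (sz_congr ((gv_shift tz t3 u).add s) fun g h => by
      rw [add_assoc t, add_self (k := k), add_zero]
      simp only [Pi.add_apply]
      grind)]
  rcases CharTwo.natCast_cases (R := k) (finrank k (LinearMap.range (X.r.ac τ - 1))) with e | e
  · rw [e]
    refine invK_sz (M.sz_un χz ⟨θ, fun i hi => ?_⟩)
    obtain ⟨j, q⟩ := cy i hi
    rw [rk i hi, q, ← map_pow, ← rk _ (I.pow_mem hτ j)]
    exact (FR.zs θ).pow_mem ((rk τ hτ).trans e) j
  · rw [e]
    exact M.inv_un H χz hχ (fun g => by rw [pow_two, X.χ2]) θ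
      (fun i hi => by rw [rk i hi, cast_sq]) hτ ((rk τ hτ).trans e)

end RD

end Pool.Agent.BC
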