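import Pool.Agent.Lib.MP_b4b3cb_nt.BC.EInd
import Pool.Agent.Lib.MP_b4b3cb_nt.BC.LocM
import Pool.Agent.Lib.MP_b4b3cb_nt.BC.LocN

/-! The local conditions away from two. -/

set_option linter.unusedSectionVars false

namespace Pool.Agent.BC

open scoped Classical
open Module Pool.Agent.SP

variable {E k : Type} [NontriviallyNormedField E] [Field k] {Γ G : Type} [Group Γ]
  [TopologicalSpace Γ] [Group G] [TopologicalSpace G] {J : IG Γ G} {c : CF E k} {χ : G →* E}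
  {V : Type} [NormedAddCommGroup V] [NormedSpace E V] {A : Type} [AddCommGroup A] [Module k A]
  (U : VD J c χ V A) [Finite k] [IsUltrametricDist E] [CompleteSpace E] [FiniteDimensional E V]
  [CharP k 2] [CharZero E] [Algebra (ZMod 2) k] [IsTopologicalGroup G] {D : Subgroup G}
  [CompactSpace D] {Y : Submodule E (D → V × V)} {I : Subgroup D} {σ τ : D}

namespace VD

theorem isoQ (Λ : LD D c fun g => χ g) (h1 : ∀ g, c.Rd (χ g) 1) (coc : Y ≤ (U.R.res D).Z1)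
    (iso : ∀ t ∈ Y, ∀ t' ∈ Y, Cob (fun g : D => χ g) (cupB U.om (U.R.res D) t t')) :
    ∀ t ∈ U.T.Wd Y, Sz ((U.X.res D).Q t) := fun x hx => by
  have S := U.cpT.res D
  have cz := RD.cz_Q (X := U.X.res D) (S.W_le coc hx)
  obtain ⟨t, ht, rfl⟩ := hx
  obtain ⟨f, f1, f2⟩ := iso t ht.1 t ht.1
  have z := coc ht.1
  have pb : ∀ {u v}, u ∈ U.T.T 0 → v ∈ U.T.T 0 → c.Rd (U.be u v)
      (U.X.a ((U.T.lam 0 u).2 + (U.T.lam 0 u).1) (U.T.lam 0 v).1) := fun hu hv => by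
    simpa using U.pb_be.rd hu hv
  refine (Λ.zero cz).1 (Λ.rloc (fun g => (f g - U.be (t g) (t g)) / (2 * c.π)) cz
    ((f1.sub (cont_bil _ z.1 z.1)).div_const _) fun g h => ?_)
  have a1 := pb (ht.2 g) (S.mem g (ht.2 h))
  have a2 := pb (ht.2 h) (ht.2 h)
  have a3 := f2 g h
  have p := c.ne
  rw [S.lam g (ht.2 h)] at a1
  rw [map_add, LinearMap.add_apply, U.X.alt, add_zero] at a2
  simp only [cupB, dq, om_eq] at a3
  by_cases hg : g.1 ∈ J.H
  · have a4 : U.be ((U.R.res D).ac g _) ((U.R.res D).ac g _) = _ := U.be_in hg (t h)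
    refine a1.congr ?_ ?_
    · simp only [dq, (U.R.res D).coc z, map_add, LinearMap.add_apply, a4]
      field_simp
      linear_combination a3
    · exact (add_eq_left.2 (mul_eq_zero_of_left (U.c0 g hg) _)).symm
  · have a4 : U.be ((U.R.res D).ac g _) ((U.R.res D).ac g _) = _ := U.be_out hg (t h)
    refine (a1.sub ((h1 g).mul a2)).congr ?_ ?_
    · simp only [dq, (U.R.res D).coc z, map_add, LinearMap.add_apply, a4]
      field_simp
      linear_combination a3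
    · rw [CharTwo.sub_eq_add, ← U.c1 g hg]
      rfl

include U in
theorem fdA : FiniteDimensional k A := U.Λ.dim_A.1

include U in
theorem dimA : finrank k A = finrank E V := U.Λ.dim_A.2

theorem isoZ : ∀ t ∈ (U.R.res D).Z1, ∀ t' ∈ (U.R.res D).B1,
    Cob (fun g : D => χ g) (cupB U.om (U.R.res D) t t') := by
  rintro t ht _ ⟨u, rfl⟩
  exact cob_right (R := U.R.res D) (fun g => U.equiT g) ht u

theorem isoB : ∀ t ∈ (U.R.res D).B1, ∀ t' ∈ (U.R.res D).B1,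
    Cob (fun g : D => χ g) (cupB U.om (U.R.res D) t t') := fun t ht => U.isoZ t (Rp.B1_le _ ht)

theorem real (H : Two D) (L : LDm k D) (s : D) (h2 : s.1 ∉ J.H) (h : ∀ g : D, g = 1 ∨ g = s) :
    (U.R.res D).Z1 = (U.R.res D).B1 ∧ U.Loc D (U.R.res D).B1 (-finrank E V) := by
  have := U.fdA
  have S := U.cpT.res D
  obtain ⟨a1, -, a3, a4⟩ := RD.real (X := U.X.res D) H L h (U.c1 _ h2)
  have e : ∀ {Y}, (U.R.res D).B1 ≤ Y → Y ≤ (U.R.res D).Z1 → U.T.Wd Y = (U.X.res D).W.B1 :=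
    fun p q => le_antisymm ((S.W_le q).trans a1.le) (S.b1_le p)
  have e1 := e le_rfl (Rp.B1_le _)
  obtain ⟨b1, -, b2⟩ := S.fd L le_rfl
  refine ⟨(Submodule.eq_of_le_of_finrank_le (Rp.B1_le _) ?_).symm, Rp.B1_le _, U.isoB, e1 ▸ a3, ?_⟩
  · rw [← b2, ← (S.fd L (Rp.B1_le _)).2.2, e1, e (Rp.B1_le _) le_rfl]
  · rwa [e1, ← U.dimA]

/-- The part of the inertia group that lies in the subgroup acts trivially. -/
theorem triv_in (hτ : τ ∈ I) (h2 : τ.1 ∉ J.H)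
    (hI : ∀ i ∈ I, i.1 ∈ J.H → U.ρ.ac (J.u i) = 1) {i : D} (hi : i ∈ I) (h : i.1 ∈ J.H)
    (w : V × V) : U.R.ac i w = w := by
  have a : ∀ j ∈ I, j.1 ∈ J.H → ∀ w, (U.R.ac j w).1 = w.1 := fun j hj p w => by
    rw [U.R_in p, hI j hj p]; rfl
  have b := a (τ * i * τ⁻¹) (mul_mem (mul_mem hτ hi) (inv_mem hτ))
    (J.two _ _ ((mul_mem_cancel_right h).not.2 h2) (inv_mem_iff.not.2 h2)) (U.R.ac τ w)
  rw [← U.R.mul, ← Subgroup.coe_mul, inv_mul_cancel_right, Subgroup.coe_mul, U.R.mul, U.R_out h2,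
    U.R_out h2] at b
  have := congrArg (U.ρ.ac (J.u τ)⁻¹) b
  simp only [← U.ρ.mul, inv_mul_cancel, U.ρ.one] at this
  exact Prod.ext (a i hi h w) this

theorem r_triv {γ : Γ} (h : U.ρ.ac γ = 1) : U.X.r.ac (J.ι γ) = 1 := LinearMap.ext fun a => by
  obtain ⟨u, h1, rfl⟩ := U.Λ.ex 0 a
  rw [← U.lam γ h1, h]
  rfl

variable (H : Two D) (L : LDm k D) (Λ : LD D c fun g => χ g) (h1 : ∀ g, c.Rd (χ g) 1)

include H L Λ h1

theorem sq (b1 : (U.R.res D).B1 ≤ Y) (coc : Y ≤ (U.R.res D).Z1)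
    (iso : ∀ t ∈ Y, ∀ t' ∈ Y, Cob (fun g : D => χ g) (cupB U.om (U.R.res D) t t'))
    (big : finrank k (U.X.W.res D).Z1 + finrank k (U.X.W.res D).B1 ≤ 2 * finrank E Y) :
    (U.X.res D).SQ (U.T.Wd Y) := by
  have := U.fdA
  have S := U.cpT.res D
  have P := U.X.pfW.res D
  have := L.fin (U.X.W.res D)
  have := Submodule.finiteDimensional_of_le (ann_le (β := U.X.om) (R' := U.X.W.res D)
    (R := U.X.W.res D) (Y := U.T.Wd Y))
  have a := dim_ann H L P (S.b1_le b1) (S.W_le coc)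
  have b := (S.fd L coc).2.2
  exact ⟨S.b1_le b1, S.W_le coc, (Submodule.eq_of_le_of_finrank_le
    (iso_rd Λ U.pbT P S S coc coc iso) (by omega)).symm, U.isoQ Λ h1 coc iso⟩

variable (M : MI k I σ) (h0W : ∀ w, (∀ g : D, U.R.ac g w = w) → w = 0)

include M h0W

theorem odd : (U.R.res D).Z1 = (U.R.res D).B1 ∧
    finrank k (U.T.Wd (U.R.res D).B1) = 2 * finrank E V ∧
    (U.X.res D).SQ (U.T.Wd (U.R.res D).B1) := by
  have := U.fdA
  have S := U.cpT.res D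
  have P := U.X.pfW.res D
  have := L.fin (U.X.W.res D)
  have := Submodule.finiteDimensional_of_le (ann_le (β := U.X.om) (R' := U.X.W.res D)
    (R := U.X.W.res D) (Y := U.T.Wd (U.R.res D).B1))
  have a1 := dim_ann H L P (S.b1_le le_rfl) (S.W_le (Rp.B1_le _))
  have a2 := (S.fd L (Rp.B1_le _)).2.2
  obtain ⟨_, -, a3⟩ := S.fd L le_rfl
  have a4 := Submodule.finrank_mono (iso_rd Λ U.pbT P S S le_rfl (Rp.B1_le _) U.isoZ)
  have a5 := (U.R.res D).rank_B1 h0W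
  have a6 := M.dimZ P
  have a7 := (U.X.W.res D).rank_B1
  have a8 := U.dimA
  rw [finrank_prod] at a5 a6 a7
  exact ⟨(Submodule.eq_of_le_of_finrank_le (Rp.B1_le _) (by omega)).symm, by omega,
    U.sq H L Λ h1 le_rfl (Rp.B1_le _) U.isoB (by omega)⟩

theorem un_eq (h : U.T.Wd (U.R.res D).B1 ≤ (U.X.W.res D).Un I ⊔ (U.X.W.res D).B1) :
    U.T.Wd (U.R.res D).B1 = (U.X.W.res D).Un I ⊔ (U.X.W.res D).B1 := by
  have := U.fdA
  have := L.fin (U.X.W.res D)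
  have := Submodule.finiteDimensional_of_le (sup_le (fun _ p => p.1) (FR.B1_le _) :
    (U.X.W.res D).Un I ⊔ (U.X.W.res D).B1 ≤ (U.X.W.res D).Z1)
  refine Submodule.eq_of_le_of_finrank_le h ?_
  rw [M.dimU, (U.odd H L Λ h1 M h0W).2.1, finrank_prod, U.dimA, two_mul]

theorem good (hI : ∀ i ∈ I, U.R.ac i = 1) : U.T.Wd (U.R.res D).B1 = (U.X.W.res D).Un I := by
  have S := U.cpT.res D
  have a : U.T.Wd (U.R.res D).B1 ≤ (U.X.W.res D).Un I := fun f hf =>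
    ⟨S.W_le (Rp.B1_le _) hf, fun i hi => by
      obtain ⟨_, ⟨⟨u, rfl⟩, -⟩, rfl⟩ := hf
      refine U.T.lam_of ?_
      change U.R.ac i u - u ∈ _
      simp [hI i hi]⟩
  exact le_antisymm a (le_sup_left.trans (U.un_eq H L Λ h1 M h0W (a.trans le_sup_left)).ge)

theorem ram_eq (hτ : τ ∈ I) (h2 : τ.1 ∉ J.H) (hI : ∀ i ∈ I, i.1 ∈ J.H → U.ρ.ac (J.u i) = 1) :
    U.T.Wd (U.R.res D).B1 = (U.X.W.res D).Un I ⊔ (U.X.W.res D).B1 := by
  have S := U.cpT.res D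
  refine U.un_eq H L Λ h1 M h0W ?_
  rintro _ ⟨_, ⟨⟨w, rfl⟩, hw⟩, rfl⟩
  have m : ((0, ((U.R.res D).d1 w τ).2) : V × V) ∈ U.T.T 0 := U.mem_T.2 ⟨zero_mem _, (hw τ).2⟩
  have fx : U.R.ac τ (w + (0, ((U.R.res D).d1 w τ).2)) = w + (0, ((U.R.res D).d1 w τ).2) := by
    have := congrArg Prod.fst (U.triv_in hτ h2 hI (mul_mem hτ hτ) (J.two _ _ h2 h2) w)
    rw [Subgroup.coe_mul, U.R.mul, U.R_out h2] at this
    change U.R.ac τ (w + (0, (U.R.ac τ w - w).2)) = w + (0, (U.R.ac τ w - w).2)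
    rw [U.R_out h2 (_ + _)]
    exact Prod.ext (by simpa using this) (by simp [U.R_out h2])
  generalize ((0, ((U.R.res D).d1 w τ).2) : V × V) = v at m fx
  have a : ∀ g, (U.R.res D).d1 (w + v) g ∈ U.T.T 0 := fun g => by
    rw [map_add]
    exact add_mem (hw g) (S.lam_d1 m g).1
  refine Submodule.mem_sup.2 ⟨_, ⟨S.W_le (Rp.B1_le _) (U.T.W_of ⟨w + v, rfl⟩ a), fun i hi => ?_⟩,
    _, ⟨-U.T.lam 0 v, rfl⟩, funext fun g => ?_⟩
  · refine U.T.lam_of ?_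
    change U.R.ac i (w + v) - (w + v) ∈ _
    by_cases p : i.1 ∈ J.H
    · rw [U.triv_in hτ h2 hI hi p, sub_self]
      exact zero_mem _
    · rw [← inv_mul_cancel_right i τ, Subgroup.coe_mul, U.R.mul, fx, U.triv_in hτ h2 hI
        (mul_mem hi (inv_mem hτ)) (J.two _ _ p (inv_mem_iff.not.2 h2)), sub_self]
      exact zero_mem _
  · rw [Pi.add_apply, map_add, map_neg, Pi.add_apply, U.T.lam_add (hw g) (S.lam_d1 m g).1,
      (S.lam_d1 m g).2]
    exact add_neg_cancel_right _ _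

theorem ram (ev : Even (finrank E V)) (hτ : τ ∈ I) (h2 : τ.1 ∉ J.H)
    (hI : ∀ i ∈ I, i.1 ∈ J.H → U.ρ.ac (J.u i) = 1) (hr : U.X.r.ac τ = 1) :
    U.Loc D (U.R.res D).B1 0 := by
  have := U.fdA
  have a : ∀ i ∈ I, i.1 ∈ J.H → U.X.r.ac i = 1 := fun i hi p => by
    rw [← J.u1 _ p]
    exact U.r_triv (hI i hi p)
  refine ⟨Rp.B1_le _, U.isoB, (U.odd H L Λ h1 M h0W).2.2, ?_⟩
  rw [U.ram_eq H L Λ h1 M h0W hτ h2 hI]
  refine RD.ram (X := U.X.res D) H M (fun i hi => ?_) hτ (U.c1 _ h2) (U.dimA ▸ ev)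
  change U.X.r.ac i = 1
  by_cases p : i.1 ∈ J.H
  · exact a i hi p
  · rw [← inv_mul_cancel_right i τ, Subgroup.coe_mul, map_mul, hr,
      a _ (mul_mem hi (inv_mem hτ)) (J.two _ _ p (inv_mem_iff.not.2 h2)), mul_one]

end VD

end Pool.Agent.BC
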