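import Pool.Agent.Lib.MP_b4b3cb_nt.BC.EInB
import Pool.Agent.Lib.MP_b4b3cb_nt.BC.EOdd

/-! The local condition at an inert place. -/

set_option linter.unusedSectionVars false

namespace Pool.Agent.BC

open scoped Classical
open Module Pool.Agent.SP

variable {E k : Type} [NontriviallyNormedField E] [Field k] {Γ G : Type} [Group Γ]
  [TopologicalSpace Γ] [Group G] [TopologicalSpace G] {J : IG Γ G} {c : CF E k} {χ : G →* E}
  {V : Type} [NormedAddCommGroup V] [NormedSpace E V] {A : Type} [AddCommGroup A] [Module k A]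
  (U : VD J c χ V A) [Finite k] [IsUltrametricDist E] [CompleteSpace E] [FiniteDimensional E V]
  [CharP k 2] [CharZero E] [Algebra (ZMod 2) k] [IsTopologicalGroup G] {D : Subgroup G}
  [CompactSpace D] {I : Subgroup D} {σ τ : D}

theorem VD.inert (H : Two D) (L : LDm k D) (Λ : LD D c fun g => χ g) (h1 : ∀ g, c.Rd (χ g) 1)
    (M : MI k I σ) (h0W : ∀ w, (∀ g : D, U.R.ac g w = w) → w = 0) (hσ : σ.1 ∉ J.H)
    (hI : ∀ i ∈ I, i.1 ∈ J.H ∧ χ i = 1) (hτ : τ ∈ I)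
    (gI : ∀ i ∈ I, ∀ j x, U.ρ.ac (J.u τ) x - x ∈ U.Λ.T j → U.ρ.ac (J.u i) x - x ∈ U.Λ.T j)
    (gr : ∀ i ∈ I, ∃ j : ℕ, U.X.r.ac i = U.X.r.ac τ ^ j)
    (tame : ∀ f : I → E, Continuous f → (∀ g h, ‖f (g * h) - f g - f h‖ ≤ 1) →
      ∀ g g' : I, g'.1 = σ * g * σ⁻¹ → ‖f g' - χ σ * f g‖ ≤ 1) :
    U.Loc D (U.R.res D).B1 (2 * finrank E (LinearMap.range (U.ρ.ac (J.u τ) - 1))) :=
  ⟨Rp.B1_le _, U.isoB, (U.odd H L Λ h1 M h0W).2.2,
    U.inert_tm H L h1 M h0W hσ hI hτ gI gr tame (U.odd H L Λ h1 M h0W).2.2⟩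

end Pool.Agent.BC
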