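import Pool.Agent.Lib.MP_b4b3cb_nt.BC.Inv

/-! The residual induced module, its quadratic form and the local terms. -/

set_option linter.unusedSectionVars false

namespace Pool.Agent.BC

open scoped Classical
open Module Pool.Agent.SP

variable {k : Type} [Field k] {G G' : Type} [Group G] [TopologicalSpace G] [Group G']
  [TopologicalSpace G'] {V : Type} [AddCommGroup V] [Module k V]

theorem wu [CharP k 2] {X : Type} [AddCommGroup X] [Module k X] {A A' : Submodule k X}
    [FiniteDimensional k A] {f : X → X → k} (hA : A' ≤ A) (h1 : ∀ b ∈ A, Lin A (f · b))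
    (h2 : ∀ a ∈ A, Lin A (f a)) {c : X} (hc : c ∈ A) (h3 : ∀ x ∈ A, f x x = f c x ^ 2)
    (h4 : ∀ b ∈ A, b ∈ A' ↔ ∀ a ∈ A, f a b = 0) :
    ((finrank k A + finrank k A' : ℕ) : k) = f c c := by
  have l1 : ∀ b ∈ A, Lin A fun a => f b a + f c a * f c b := fun b hb =>
    ⟨fun x hx y hy => by beta_reduce; rw [(h2 b hb).1 x hx y hy, (h2 c hc).1 x hx y hy]; ring,
      fun r x hx => by beta_reduce; rw [(h2 b hb).2 r x hx, (h2 c hc).2 r x hx]; ring⟩
  have l2 : ∀ a ∈ A, Lin A fun b => f b a + f c a * f c b := fun a ha =>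
    ⟨fun x hx y hy => by
        have := (h1 a ha).1 x hx y hy
        beta_reduce at this ⊢
        rw [this, (h2 c hc).1 x hx y hy]; ring,
      fun r x hx => by
        have := (h1 a ha).2 r x hx
        beta_reduce at this ⊢
        rw [this, (h2 c hc).2 r x hx]; ring⟩
  have l3 : ∀ a ∈ A, f a a + f c a * f c a = 0 := fun a ha => by rw [h3 a ha]; grind
  have cast : ∀ {n : ℕ}, Even n → (n : k) = 0 := fun h => (CharP.cast_eq_zero_iff k 2 _).2 h.two_dvd
  have key : ∀ a ∈ A, ∀ b ∈ A, f b (a + f c a • c) = f b a + f c a * f b c := fun a ha b hb => by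
    rw [(h2 b hb).1 a ha _ (A.smul_mem _ hc), (h2 b hb).2 _ c hc]
  have sy : ∀ b ∈ A, f b c = f c b := fun b hb => by
    have e := l3 _ (add_mem hb hc)
    have e1 := (h1 _ (add_mem hb hc)).1 b hb c hc
    beta_reduce at e1
    rw [e1, (h2 b hb).1 b hb c hc, (h2 c hc).1 b hb c hc] at e
    have e2 := l3 b hb
    have e3 := l3 c hc
    grind
  have cc := h3 c hc
  by_cases h : f c c = 0
  · rw [h]
    refine cast (pair_alt (f := fun a b => f b a + f c a * f c b) hA l1 l2 l3 fun a ha =>
      ⟨fun a' b hb => by rw [(h4 a ha).1 a' b hb, (h4 a ha).1 a' c hc]; ring, fun e => ?_⟩)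
    have e1 := e c hc
    rw [h, mul_zero, add_zero] at e1
    exact (h4 a ha).2 fun b hb => by simpa [e1] using e b hb
  · have h' : f c c = 1 := mul_left_cancel₀ h (by rw [mul_one, ← pow_two, ← cc])
    have nc : c ∉ A' := fun a => h ((h4 c hc).1 a c hc)
    have := Submodule.finiteDimensional_of_le hA
    have e := cast (pair_alt (A' := A' ⊔ k ∙ c) (f := fun a b => f b a + f c a * f c b)
      (sup_le hA ((Submodule.span_singleton_le_iff_mem _ _).2 hc)) l1 l2 l3 fun a ha =>
      ⟨fun a' b hb => by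
        obtain ⟨x, hx, y, hy, rfl⟩ := Submodule.mem_sup.1 a'
        obtain ⟨r, rfl⟩ := Submodule.mem_span_singleton.1 hy
        have z := (h4 x (hA hx)).1 hx
        rw [(h2 b hb).1 x (hA hx) _ (A.smul_mem _ hc), (h2 c hc).1 x (hA hx) _ (A.smul_mem _ hc),
          z b hb, z c hc, (h2 b hb).2 r c hc, (h2 c hc).2 r c hc, h', sy b hb]
        grind,
      fun e => by
        have := (h4 _ (add_mem ha (A.smul_mem (f c a) hc))).2 fun b hb => by
          rw [key a ha b hb, sy b hb, e b hb]
        simpa using sub_mem (Submodule.mem_sup_left (T := k ∙ c) this) (Submodule.mem_sup_right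
          (Submodule.smul_mem _ (f c a) (Submodule.mem_span_singleton_self c)))⟩)
    have d := Submodule.finrank_sup_add_finrank_inf_eq A' (k ∙ c)
    rw [disjoint_iff.1 ((Submodule.disjoint_span_singleton' fun a => nc (by
      rw [a]; exact zero_mem _)).2 nc), finrank_bot,
      finrank_span_singleton fun a => nc (by rw [a]; exact zero_mem _), add_zero] at d
    rw [d, ← add_assoc, Nat.cast_succ] at e
    rw [h']
    grind

variable (k G V) in
/-- A symplectic module, a quadratic character, and a pseudo-determinant. -/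
structure RD where
  /-- the representation -/
  r : FR k G V
  /-- the symplectic form -/
  a : V →ₗ[k] V →ₗ[k] k
  /-- the character -/
  χ : G → k
  /-- a refinement of the form -/
  N : V →ₗ[k] V →ₗ[k] k
  /-- the defect of invariance of the refinement -/
  c : G → V
  /-- the pseudo-determinant -/
  D : G → k
  pf : Pf r r a
  hχ : χ ∈ Hm k G
  χ2 : ∀ g, χ g * χ g = χ g
  hN : ∀ u v, N u v + N v u = a u v
  hc : ∀ g v, N (r.ac g v) (r.ac g v) = N v v + a (c g) (r.ac g v) ^ 2
  hD : ∀ g h, D (g * h) = D g + D h + a (c g) (r.ac g (c h))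
  lcc : IsLocallyConstant c
  lcD : IsLocallyConstant D
  rk : ∀ g u, c g = r.ac g u - u →
    D g + a u (r.ac g u) = (finrank k (LinearMap.range (r.ac g - 1)) : k)

namespace RD

variable (X : RD k G V)

/-- Pull back along a continuous homomorphism. -/
def comap (φ : G' →* G) (hφ : Continuous φ) : RD k G' V where
  r := X.r.comap φ hφ
  a := X.a
  χ g := X.χ (φ g)
  N := X.N
  c g := X.c (φ g)
  D g := X.D (φ g)
  pf := X.pf.comap φ hφ
  hχ := Hm.comp X.hχ φ hφ
  χ2 g := X.χ2 _
  hN := X.hN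
  hc g := X.hc _
  hD g h := by rw [map_mul]; exact X.hD _ _
  lcc := lc_at X.lcc hφ
  lcD := lc_at X.lcD hφ
  rk g := X.rk _

/-- Restriction to a subgroup. -/
def res (D : Subgroup G) : RD k D V := X.comap D.subtype continuous_subtype_val

theorem χ_mul (g h : G) : X.χ (g * h) = X.χ g + X.χ h := X.hχ.2 g h

theorem χ_one : X.χ 1 = 0 := by simpa using X.χ_mul 1 1

/-- The induced module. -/
def W : FR k G (V × V) where
  ac :=
    { toFun := fun g => (X.r.ac g ∘ₗ (LinearMap.fst k V V + X.χ g • LinearMap.snd k V V)).prod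
        (X.r.ac g ∘ₗ LinearMap.snd k V V)
      map_one' := LinearMap.ext fun w => by simp [X.χ_one]
      map_mul' := fun g h => LinearMap.ext fun w => by
        simp only [X.χ_mul, LinearMap.prod_apply, Function.prod, LinearMap.comp_apply,
          LinearMap.add_apply, LinearMap.smul_apply, LinearMap.fst_apply, LinearMap.snd_apply,
          X.r.mul, Module.End.mul_apply, map_add, map_smul, add_smul, Prod.mk.injEq, and_true]
        abel }
  lc := lc_two (fun (M : Module.End k V) (t : k) =>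
    (M ∘ₗ (LinearMap.fst k V V + t • LinearMap.snd k V V)).prod (M ∘ₗ LinearMap.snd k V V))
    X.r.lc X.hχ.1

theorem W_ac (g : G) (w : V × V) :
    X.W.ac g w = (X.r.ac g (w.1 + X.χ g • w.2), X.r.ac g w.2) := rfl

theorem res_W (D : Subgroup G) : (X.res D).W = X.W.res D := rfl

/-- The symplectic form on the induced module. -/
def om : (V × V) →ₗ[k] (V × V) →ₗ[k] k :=
  X.a.compl₁₂ (LinearMap.snd k V V) (LinearMap.fst k V V) +
    X.a.compl₁₂ (LinearMap.fst k V V) (LinearMap.snd k V V)

theorem om_apply (u v : V × V) : X.om u v = X.a u.2 v.1 + X.a u.1 v.2 := rfl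

theorem eqv_i : Eqv X.r X.W (LinearMap.inl k V V) := fun g u => by simp [W_ac]

theorem eqv_p : Eqv X.W X.r (LinearMap.snd k V V) := fun _ _ => rfl

/-- The local term of the pairing. -/
def P (y : G → V) (t : G → V × V) (g h : G) : k := X.a (y g) (X.W.ac g (t h)).1

/-- The quadratic form on cocycles. -/
def Q (t : G → V × V) (g h : G) : k :=
  X.a ((t g).2 + (t g).1) (X.W.ac g (t h)).1 + X.χ g * X.a (t h).2 (t h).1

/-- The cocycle that computes the local defect. -/
def gv (t : G → V × V) (g h : G) : k := X.χ g * X.D h + X.P X.c t g h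

/-- The image of a condition in the quotient. -/
def Y0 (Y : Submodule k (G → V × V)) : Submodule k (G → V) :=
  Y.map ((LinearMap.snd k V V).compLeft G)

/-- The intersection of a condition with the submodule. -/
def Y1 (Y : Submodule k (G → V × V)) : Submodule k (G → V) :=
  Y.comap ((LinearMap.inl k V V).compLeft G)

theorem mem_Y0 {Y : Submodule k (G → V × V)} {x : G → V} :
    x ∈ Y0 Y ↔ ∃ t ∈ Y, (fun g => (t g).2) = x := Iff.rfl

theorem mem_Y1 {Y : Submodule k (G → V × V)} {s : G → V} :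
    s ∈ Y1 Y ↔ (fun g => (s g, 0)) ∈ Y := Iff.rfl

/-- A self-dual condition on which the quadratic form vanishes. -/
structure SQ (Y : Submodule k (G → V × V)) : Prop where
  b1 : X.W.B1 ≤ Y
  z1 : Y ≤ X.W.Z1
  sd : ann X.om X.W X.W Y = Y
  q : ∀ t ∈ Y, Sz (X.Q t)

/-- The local term modulo four. -/
def Term [Finite k] [Algebra (ZMod 2) k] (Y : Submodule k (G → V × V)) (z : ℤ) : Prop :=
  ∃ t ∈ Y, (∀ g, (t g).2 = X.c g) ∧ ∃ m : ℕ, invK (X.gv t) = m ∧
    (4 : ℤ) ∣ finrank k (Y0 Y) - finrank k (Y1 Y) + 2 * m - z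

variable [CharP k 2]

theorem alt (u : V) : X.a u u = 0 := by rw [← X.hN]; grind

theorem sy (u v : V) : X.a u v = X.a v u := by rw [← X.hN, ← X.hN, add_comm]

theorem flip_a : X.a.flip = X.a := LinearMap.ext₂ fun u v => X.sy v u

theorem om_sy (u v : V × V) : X.om u v = X.om v u := by
  rw [om_apply, om_apply, add_comm, X.sy u.1, X.sy u.2]

theorem flip_om : X.om.flip = X.om := LinearMap.ext₂ fun u v => X.om_sy v u

theorem pfW : Pf X.W X.W X.om := by
  have nl : ∀ u, (∀ v, X.om u v = 0) → u = 0 := fun u h =>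
    Prod.ext (X.pf.nl _ fun v => by simpa [om_apply] using h (0, v))
      (X.pf.nl _ fun v => by simpa [om_apply] using h (v, 0))
  refine ⟨fun g u v => ?_, nl, fun u h => nl u fun v => (X.om_sy u v).trans (h v)⟩
  simp only [om_apply, W_ac, X.pf.eq, map_add, map_smul, LinearMap.add_apply,
    LinearMap.smul_apply, smul_eq_mul]
  grind

theorem c_z1 : X.c ∈ X.r.Z1 := X.r.mk_z1 X.lcc fun g h => sub_eq_zero.1 (X.pf.nl _ fun w => by
  obtain ⟨v, rfl⟩ : ∃ v, X.r.ac (g * h) v = w := ⟨_, X.r.ac_inv _ w⟩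
  have a1 := X.hc (g * h) v
  have a2 := X.hc g (X.r.ac h v)
  have a3 := X.hc h v
  have a4 := X.pf.eq g (X.c h) (X.r.ac h v)
  simp only [X.r.mul, map_add, map_sub, LinearMap.add_apply, LinearMap.sub_apply] at a1 ⊢
  refine (pow_eq_zero_iff two_ne_zero).1 ?_
  grind)

theorem c_triv {g : G} (h : X.r.ac g = 1) : X.c g = 0 := X.pf.nl _ fun v => by
  have := X.hc g v
  rw [h] at this
  simpa using this

theorem D_triv {g : G} (h : X.r.ac g = 1) : X.D g = 0 := by
  have := X.rk g 0 (by simp [X.c_triv h])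
  rw [h, sub_self, LinearMap.range_zero, finrank_bot] at this
  simpa using this

theorem N_add (u v : V) : X.N (u + v) (u + v) = X.N u u + X.N v v + X.a u v := by
  simp only [map_add, LinearMap.add_apply, ← X.hN]; ring

theorem P_lc {y : G → V} {t : G → V × V} (hy : IsLocallyConstant y) (ht : IsLocallyConstant t) :
    LC2 (X.P y t) :=
  lc_two (fun u (w : V × V) => X.a u w.1) (lc_at hy continuous_fst)
    (X.W.lc_ac continuous_fst (lc_at ht continuous_snd))

variable {X}

theorem snd_z1 {t : G → V × V} (ht : t ∈ X.W.Z1) : (fun g => (t g).2) ∈ X.r.Z1 := X.eqv_p.z1 ht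

theorem fst_coc {t : G → V × V} (ht : t ∈ X.W.Z1) (g h : G) :
    (t (g * h)).1 = (t g).1 + X.r.ac g ((t h).1 + X.χ g • (t h).2) :=
  congrArg Prod.fst (FR.coc ht g h)

theorem snd_coc {t : G → V × V} (ht : t ∈ X.W.Z1) (g h : G) :
    (t (g * h)).2 = (t g).2 + X.r.ac g (t h).2 := congrArg Prod.snd (FR.coc ht g h)

/-- The quadratic form in terms of the pairing. -/
theorem Q_eq {t : G → V × V} (ht : t ∈ X.W.Z1) (g h : G) :
    X.Q t g h = X.P (fun g => (t g).2) t g h + X.χ g * X.N (t h).2 (t h).2 + X.P X.c t g h ^ 2 +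
      dk (fun g => X.N (t g).1 (t g).1) g h := by
  have a1 := X.hc g ((t h).1 + X.χ g • (t h).2)
  have a2 := X.N_add (t h).1 (X.χ g • (t h).2)
  have a3 := X.χ2 g
  have a4 := X.sy (t h).2 (t h).1
  simp only [Q, P, dk, fst_coc ht, X.N_add, W_ac, a1]
  simp only [map_add, map_smul, LinearMap.add_apply, LinearMap.smul_apply, smul_eq_mul]
  grind

theorem d3_P {y : G → V} (hy : y ∈ X.r.Z1) {t : G → V × V} (ht : t ∈ X.W.Z1) (g h l : G) :
    d3 (X.P y t) g h l = X.χ g * c11 X.a X.r y (fun g => (t g).2) h l := by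
  have a1 := X.pf.eq g (y h) (X.r.ac h (t l).1)
  have a2 := X.pf.eq g (y h) (X.r.ac h (t l).2)
  simp only [d3, P, c11, W_ac, fst_coc ht, snd_coc ht, FR.coc hy, X.χ_mul, X.r.mul, map_add,
    map_smul, LinearMap.add_apply, smul_eq_mul, add_smul]
  grind

theorem c11_self {x : G → V} (hx : x ∈ X.r.Z1) (g h : G) :
    c11 X.a X.r x x g h = dk (fun g => X.N (x g) (x g)) g h + c11 X.a X.r X.c x g h ^ 2 := by
  have a1 := X.hc g (x h)
  simp only [c11, dk, FR.coc hx, X.N_add]
  grind

theorem d3_chi (f : G → k) (g h l : G) :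
    d3 (fun g h => X.χ g * f h) g h l = X.χ g * dk f h l := by
  simp only [d3, dk, X.χ_mul]
  grind

theorem cz_gv {t : G → V × V} (ht : t ∈ X.W.Z1) (h : ∀ g, (t g).2 = X.c g) : Cz (X.gv t) :=
  cz_iff_d3.2 ⟨((lc_at X.hχ.1 continuous_fst).mul (lc_at X.lcD continuous_snd)).add
    (X.P_lc X.lcc ht.1), fun g l m => by
    have a1 := d3_chi (X := X) X.D g l m
    have a2 := d3_P X.c_z1 ht g l m
    have a3 := X.hD l m
    simp only [d3, gv, dk, c11, h] at a1 a2 ⊢
    grind⟩

theorem cz_Q [ContinuousMul G] {t : G → V × V} (ht : t ∈ X.W.Z1) : Cz (X.Q t) :=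
  cz_iff_d3.2 ⟨(lc_two (fun (u w : V × V) => X.a (u.2 + u.1) w.1) (lc_at ht.1 continuous_fst)
    (X.W.lc_ac continuous_fst (lc_at ht.1 continuous_snd))).add ((lc_at X.hχ.1 continuous_fst).mul
      (lc_one (fun u : V × V => X.a u.2 u.1) (lc_at ht.1 continuous_snd))), fun g l m => by
    have a1 := d3_chi (X := X) (fun g => X.N (t g).2 (t g).2) g l m
    have a2 := d3_P X.c_z1 ht g l m
    have a3 := d3_P (snd_z1 ht) ht g l m
    have a4 := c11_self (snd_z1 ht) l m
    have a5 := d3_dk (fun g => X.N (t g).1 (t g).1) g l m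
    have a6 := X.χ2 g
    simp only [d3, Q_eq ht] at a1 a2 a3 a5 ⊢
    grind⟩

end RD

end Pool.Agent.BC
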