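import Pool.Agent.Lib.MP_b4b3cb_nt.BC.ETame
import Pool.Agent.Lib.MP_b4b3cb_nt.BC.EInd
import Pool.Agent.Lib.MP_b4b3cb_nt.Eps.Loc3

/-! The local constants of a tamely ramified representation at the odd primes. -/

set_option linter.unusedSectionVars false

namespace Pool.Agent.BC

open scoped Classical Pointwise
open NumberField Pool.Agent.Stark Polynomial Finset Module Matrix
open Pool.Agent.SP hiding VD
open EP hiding pr pr_l pr_r pr1 pr2 locS locI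
open SC hiding Hm Rp V T Two Cob Sel Spl cup dq Cz Sz res gs cyc
open SelTwo hiding Ine Dec Cob

variable {E k : Type} [NontriviallyNormedField E] [IsUltrametricDist E] [NormedAlgebra ℚ_[2] E]
  [Field k] [Finite k] [CharP k 2] [Algebra (ZMod 2) k] {c : CF E k} [CompleteSpace E] [CharZero E]
  {A₀ : Type} [AddCommGroup A₀] [Module k A₀]

section

variable {Γ G : Type} [Group Γ] [TopologicalSpace Γ] [Group G] [TopologicalSpace G] {J : IG Γ G}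
  {χ : G →* E} {V : Type} [NormedAddCommGroup V] [NormedSpace E V] (U : VD J c χ V A₀)
  {a : G} (ha : a ∉ J.H)

/-- The pairing attached to an element outside the subgroup. -/
noncomputable def pr (a : G) : V →ₗ[E] V →ₗ[E] E := U.B.compl₂ (U.ρ.ac (J.cj (J.u a)))

theorem pr_l (hB : ∀ x, (∀ y, U.B x y = 0) → x = 0) (x : V) (hx : ∀ y, pr U a x y = 0) : x = 0 :=
  hB x fun y => by simpa [pr, ← U.ρ.mul, U.ρ.one] using hx (U.ρ.ac (J.cj (J.u a))⁻¹ y)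

theorem pr_r (hB : ∀ x, (∀ y, U.B x y = 0) → x = 0) (y : V) (hy : ∀ x, pr U a x y = 0) : y = 0 := by
  have := congrArg (U.ρ.ac (J.cj (J.u a))⁻¹) (hB _ fun x => (U.sy _ _).trans (hy x))
  rwa [← U.ρ.mul, inv_mul_cancel, U.ρ.one, map_zero] at this

include ha

theorem pr1 (γ : Γ) (x y : V) :
    pr U a (U.ρ.ac (J.u (a * J.ι γ * a⁻¹)) x) (U.ρ.ac γ y) = χ (J.ι γ) * pr U a x y := by
  have e : J.cj (J.u (a * J.ι γ * a⁻¹)) * J.cj (J.u a) = J.cj (J.u a) * γ := J.inj (by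
    rw [map_mul, map_mul, J.hcj, J.hcj, ι_u ha, J.u2 a ha]
    simp only [mul_assoc, J.s_s, J.ss, mul_one, inv_mul_cancel])
  have := U.equi (J.u (a * J.ι γ * a⁻¹)) x (U.ρ.ac (J.cj (J.u a)) y)
  rwa [← U.ρ.mul, e, U.ρ.mul, ι_u ha, map_mul χ, map_mul χ, mul_right_comm (χ a), ← map_mul χ,
    mul_inv_cancel, map_one, one_mul] at this

theorem pr2 (x y : V) : pr U a (U.ρ.ac (J.u (a * a)) y) x = -(χ a * pr U a x y) := by
  rw [J.u_out ha, U.ρ.mul]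
  exact (U.equi _ _ _).trans (by rw [U.chi_out ha, U.sy, neg_mul]; rfl)

end

section

variable {L : Type} [Field L] [NumberField L] {n : ℕ} {ρ : Gal L →* Matrix (Fin n) (Fin n) E}
  {R : Rp E (Gal L) (Fin n → E)} (ea : ∀ g, R.ac g = toLinAlgEquiv' (ρ g)) {𝔓 : Idl L}

include ea

theorem coreE {Λ : Lt c (Fin n → E) A₀} {Rb : FR k (Gal L) A₀} (hS : Cp Λ R Rb) (h : 𝔓.IsMaximal)
    (h2 : 2 ∉ 𝔓) {ϖ : L} {Ψ : AddChar (𝓞 L) E} {e : E} (he : Eps ρ 𝔓 ϖ Ψ e) :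
    ∃ D > 0, ∃ (σ : Gal L) (α : AlgebraicClosure L) (f : End E _), IsFr 𝔓 (nq 𝔓) σ ∧
      α ^ (nq 𝔓 - 1) = -algebraMap L _ ϖ ∧ σ α = α ∧ QD (Fx ρ (Ine L 𝔓)) (-R.ac σ⁻¹) f ∧
      ∀ {κ : Type} [Field κ] {π : 𝓞 (AlgebraicClosure L) →+* κ} {Φ : κ → E} {N : ℕ}
        {β : AlgebraicClosure L} {t : Gal L} {η : 𝓞 (AlgebraicClosure L)},
        (∀ x, π x = 0 ↔ x ∈ 𝔓) → (∀ y, Φ (π (algebraMap _ _ y)) = Ψ y) →
        ((2 * N : ℕ) : 𝓞 (AlgebraicClosure L)) ∉ 𝔓 → Even N → nq 𝔓 ^ D - 1 ∣ N → β ≠ 0 →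
        (β ^ N) ^ 2 = algebraMap L _ ϖ ^ 2 → ∀ ht : t ∈ Ine L 𝔓, IsPrimitiveRoot η N →
        t β = η * β →
        ∃ (m : ℕ) (d : Fin m → ℕ) (ζ : Fin m → E), (∀ i, Per (nq 𝔓) (d i) (ζ i)) ∧
          (∀ i, IsPrimitiveRoot (π η ^ (N / (nq 𝔓 ^ d i - 1))) (nq 𝔓 ^ d i - 1)) ∧
          e = LinearMap.det f * ∏ i, -gs (nq 𝔓) Φ (π η ^ (N / (nq 𝔓 ^ d i - 1))) (d i) (ζ i) ∧
          (∀ j, (j.Coprime N → ∀ x, x ∈ Fx ρ (Ine L 𝔓) ↔ (R.ac t ^ j) x = x) ∧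
            (R.ac t ^ j).charpoly =
              (((∑ i, orb (nq 𝔓) (d i) (ζ i)).map (· ^ j)).map fun y => X - C y).prod) ∧
          (∀ φ, IsFr 𝔓 (nq 𝔓) φ → R.ac φ * R.ac t = R.ac t ^ nq 𝔓 * R.ac φ) ∧
          (∀ g ∈ Ine L 𝔓, ∃ j, LinearMap.det (R.ac g) =
            ((∑ i, orb (nq 𝔓) (d i) (ζ i)).map (· ^ j)).prod ∧ ∀ a : AlgebraicClosure L,
            a ^ (2 * (nq 𝔓 - 1)) = algebraMap L _ ϖ ^ 2 →
              g a = (η ^ (N / (nq 𝔓 - 1))) ^ j * a) ∧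
          (∀ g ∈ Ine L 𝔓, ∀ j, ∃ m : ℕ, (t ^ m)⁻¹ * g ∈ hS.lv j) ∧
          ∀ g (hg : g ∈ Ine L 𝔓) (m : ℕ), g β = η ^ m * β →
            Tm E (⟨g, hg⟩ : Ine L 𝔓) ⟨t, ht⟩ m → R.ac g = R.ac t ^ m := by
  obtain ⟨m, d, z, G, σ, α, _, B, a1, a2, a3, a4, a6, rfl⟩ := he
  obtain ⟨f, a5, rfl⟩ := qd_ex a6
  replace a5 : ∀ x, f (Submodule.Quotient.mk x) = Submodule.Quotient.mk (-(ρ σ⁻¹ *ᵥ x)) :=
    fun x => by rw [a5, Matrix.neg_mulVec]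
  have d0 : ∀ i, 0 < d i := fun i => (B i).choose_spec.choose_spec.choose_spec.1
  refine ⟨∏ i, d i, prod_pos fun i _ => d0 i, σ, α, f, a2, a3, a4, fun x => (a5 x).trans (by
    rw [ea]; rfl), fun {κ _ π Φ N β t η} hπ hΦ hN ev dv β0 hβ ht hη e => ?_⟩
  have hd : ∀ i, nq 𝔓 ^ d i - 1 ∣ N := fun i =>
    (Nat.pow_sub_one_dvd_pow_sub_one _ (dvd_prod_of_mem d (mem_univ i))).trans dv
  have d1 : nq 𝔓 - 1 ∣ N := (Nat.sub_one_dvd_pow_sub_one _ _).trans dv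
  have fx : ∀ g : Gal L, g (β ^ N) = β ^ N := fun g => by
    rcases sq_eq_sq_iff_eq_or_eq_neg.1 hβ with a | a <;> simp [a]
  rw [← pow_mul, mul_comm] at hβ
  obtain ⟨n1, n2, n3⟩ := nfE hπ h hΦ hN β0 hβ ht hη e B hd
  have pη := hη.map_of_injective (f := algebraMap _ (AlgebraicClosure L))
    RingOfIntegers.coe_injective
  have pw := pwb h hN ht pη e
  have ch : ∀ g ∈ Ine L 𝔓, ∀ j, g β = η ^ j * β → (R.ac g).charpoly = _ := fun g hg j hj =>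
    (by rw [ea]; exact charpoly_toLin' _ : (R.ac g).charpoly = (ρ g).charpoly).trans
      ((a1 g hg).trans (n3 g hg j hj))
  have un : ∀ g ∈ Ine L 𝔓, g β = β → IsNilpotent (R.ac g - 1) := fun g hg a => by
    have := (R.ac g).aeval_self_charpoly
    rw [ch g hg 0 (by simpa using a)] at this
    exact ⟨_, by simpa using this⟩
  obtain ⟨t1, t2⟩ := tameR h h2 hN ht pη e hS ev β0 (fun g _ => fx g) un
  have n0 : nq 𝔓 ≠ 0 := fun a =>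
    h.ne_top ((Ideal.eq_top_iff_one _).2 (by simpa [a] using neg_mem (a2 0)))
  refine ⟨m, d, _, n1, fun i => prim hπ h hN hη (hd i), congrArg _ n2,
    fun j => ⟨fun co x => ?_, ?_⟩, fun φ hφ => ?_, fun g hg => ?_, t1, t2⟩
  · rw [mem_inv ea, ← map_pow]
    exact ⟨fun a => a _ (pow_mem ht _), fun a g hg => hS.gen_fix (D := Ine L 𝔓) (tameR h h2 hN
      (pow_mem ht j) (pη.pow_of_coprime j co) (pw j) hS ev β0 (fun g _ => fx g) un).1 hg a⟩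
  · rw [← map_pow]
    exact ch _ (pow_mem ht _) j (pw j)
  · have s := (facts L _).fr.dec h n0 hφ
    have n1 : φ * t * φ⁻¹ ∈ Ine L 𝔓 := by simpa using ine_nor (inv_mem s) ht
    rw [← t2 _ n1 _ (cjb h hN ht pη e β0 hφ (by rw [← map_pow, hβ, map_pow, φ⁻¹.commutes]))
      fun f f1 f2 => cyc_q (E := E) h h2 hφ ▸ tame c h h2 s f f1 f2 _ _ rfl, ← map_mul, ← map_mul,
      inv_mul_cancel_right]
  · obtain ⟨j, hj⟩ := ex_k hN β0 hη (fx g)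
    refine ⟨j, by simpa using det_aeval (ch g hg j hj) X, fun a ha => ?_⟩
    rw [cmp h hN β0 hβ d1 ha hg hj, pow_right_comm]

end

variable {K L : Type} [Field K] [NumberField K] [Field L] [NumberField L] [Algebra K L]
  [IsGalois K (AlgebraicClosure L)] {J : IG (Gal L) Gal(AlgebraicClosure L/K)}
  (hι : ∀ g x, J.ι g x = g x) {d : K} (Q : Quad K L d) (hH : J.H = Gs K (AlgebraicClosure L) L)
  {n : ℕ} (U : VD J c (cycE E K (AlgebraicClosure L)) (Fin n → E) A₀)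
  {ρ : Gal L →* Matrix (Fin n) (Fin n) E} (ea : ∀ g, U.ρ.ac g = toLinAlgEquiv' (ρ g))
  (hB : ∀ x, (∀ y, U.B x y = 0) → x = 0) {𝔓 : Idl L} {w : Pr L} (hw : Over 𝔓 w) (h2 : 2 ∉ 𝔓)
  {ϖ : L} (v1 : Q.tau ϖ = -ϖ) (v2 : og w ϖ = 1) {Ψ : AddChar (𝓞 L) E} (s1 : Ψ ≠ 1)
  (s2 : ∀ x ∈ w.asIdeal, Ψ x = 1) {e : E} (he : Eps ρ 𝔓 ϖ Ψ e)

include hι hH ea hB hw h2 v1 v2 s1 s2 he

theorem locS (sp : Q.act w ≠ w) {𝔓' : Idl L} (hw' : Over 𝔓' (Q.act w)) {Ψ' : AddChar (𝓞 L) E}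
    (s3 : ∀ x, Ψ' (Q.sg x) = Ψ x) {e' : E} (he' : Eps ρ 𝔓' ϖ Ψ' e') : e * e' = 1 := by
  have T := facts K (AlgebraicClosure L)
  obtain ⟨a, -, rfl⟩ := T.pr.trans (T.pr.below (F := K) hw)
    ((st_Qd st_Cn).below_act Q w ▸ T.pr.below hw')
  have ha : a ∉ J.H := fun b => sp (T.pr.uniq hw' (T.pr.smul hw (hH ▸ b)))
  have ta := glK.tau Q a (hH ▸ ha)
  have h2' : 2 ∉ a • 𝔓 := fun b => h2 ((T.pr.mem_smul a 𝔓 2).1 (by
    rwa [show a • (2 : 𝓞 (AlgebraicClosure L)) = 2 from RingOfIntegers.ext (map_ofNat a 2)]))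
  have q : nq (a • 𝔓) = nq 𝔓 := by
    rw [nq_eq hw, nq_eq hw', (st_Qd st_Cn).act_ideal, (st_Qd st_Cn).norm_map]
  obtain ⟨κ, _, p, _, _, π, Φ, hπ, hΦ, A, -⟩ := exRes hw h2 s1 s2
  obtain ⟨D, D0, σ, α, f, a1, a2, a3, a4, a5⟩ := coreE ea U.cp hw.1 h2 he
  obtain ⟨D', D0', σ', α', f', b1, b2, b3, b4, b5⟩ := coreE ea U.cp hw'.1 h2' he'
  have hN := nmem hπ A h2 (mul_pos D0 D0')
  have ev : Even (nq 𝔓 ^ (D * D') - 1) := A.odd.pow.tsub_odd odd_one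
  obtain ⟨β, β0, hβ⟩ := exb hN (v0 v2)
  obtain ⟨t, ht, η, hη, et⟩ := sur hw v2 (fun b => hN (by
    rw [Nat.cast_mul]; exact 𝔓.mul_mem_left _ b)) hβ
  have ap : ∀ γ x, J.u (a * J.ι γ * a⁻¹) (a x) = a (γ x) := fun γ x => by
    rw [← hι, ι_u ha, ← hι]
    simp
  have hπ' : ∀ x, π (a⁻¹ • x) = 0 ↔ x ∈ a • 𝔓 := fun x => by
    rw [hπ, ← T.pr.mem_smul a, smul_inv_smul]
  have hN' : ((2 * (nq 𝔓 ^ (D * D') - 1) : ℕ) : 𝓞 (AlgebraicClosure L)) ∉ a • 𝔓 := fun b =>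
    hN ((hπ _).1 ((map_natCast π _).trans
      ((map_natCast (π.comp (MulSemiringAction.toRingHom _ _ a⁻¹)) _).symm.trans ((hπ' _).2 b))))
  have hη' := hη.map_of_injective (f := MulSemiringAction.toRingHom _ _ a) (MulAction.injective a)
  obtain ⟨m, d, ζ, c1, c2, rfl, c3, c4, -⟩ := a5 hπ hΦ hN ev
    (Nat.pow_sub_one_dvd_pow_sub_one _ (dvd_mul_right _ _)) β0 (by rw [hβ]) ht hη et
  obtain ⟨m', d', ζ', d1, -, rfl, d3, -, d5, -⟩ := b5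
    (π := π.comp (MulSemiringAction.toRingHom _ _ a⁻¹)) (Φ := Φ) (β := a β)
    (t := J.u (a * J.ι t * a⁻¹)) hπ' (fun y => by
      rw [← (st_Qd st_Cn).sg_sg Q y, s3, ← hΦ, ← show a • algebraMap _ (𝓞 (AlgebraicClosure L))
        (Q.sg y) = algebraMap _ _ (Q.sg (Q.sg y)) from RingOfIntegers.ext (ta _)]
      exact congrArg (fun x => Φ (π x)) (inv_smul_smul _ _)) hN' ev
    (q ▸ Nat.pow_sub_one_dvd_pow_sub_one _ (dvd_mul_left _ _)) ((_root_.map_ne_zero _).2 β0)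
    (by rw [← map_pow, hβ, ta, v1, map_neg, neg_sq]) (by
      rw [ine_iff hι, ι_u ha, T.pr.ine_conj]
      simpa [mul_assoc] using (ine_iff hι t).1 ht) hη' (by rw [ap, et, map_mul]; rfl)
  have f1 : IsFr (a • 𝔓) (nq 𝔓) (J.u (a * J.ι σ * a⁻¹)) := fun x => by
    rw [← i_smul hι, ι_u ha]
    refine (T.pr.fr_conj 𝔓 _ a _).2 (fun y => ?_) x
    simpa [mul_assoc, i_smul hι] using a1 y
  have T' := facts L (AlgebraicClosure L)
  rw [q] at b1 b2 d1 d3 d5 ⊢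
  have g1 : (J.u (a * J.ι σ * a⁻¹))⁻¹ * σ' ∈ Ine L (a • 𝔓) := by
    simpa [mul_assoc] using ine_nor (T'.fr.dec hw'.1 A.odd.pos.ne' f1) (T'.fr.ine b1 f1)
  obtain ⟨j, j1, j2⟩ := d5 _ g1
  have q1 := nmem hπ A h2 one_pos
  have α0 : ∀ {x : AlgebraicClosure L}, x ^ (nq 𝔓 - 1) = -algebraMap L _ ϖ → x ≠ 0 := fun h b =>
    v0 v2 (by rwa [b, zero_pow (Nat.sub_ne_zero_of_lt A.one), eq_comm, neg_eq_zero] at h)
  have dv : nq 𝔓 - 1 ∣ _ := Nat.sub_one_dvd_pow_sub_one _ (D * D')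
  have a6 : a α ^ (nq 𝔓 - 1) = algebraMap L _ ϖ := by
    rw [← map_pow, a2, map_neg, ta, v1, map_neg, neg_neg]
  have a7 : (a α / α') ^ (nq 𝔓 - 1) = -1 := by rw [div_pow, a6, b2, div_neg, div_self (v0 v2)]
  have a8 : σ' (a α) = -a α := by
    have := fr_root hw'.1 b1 (N := 2 * (nq 𝔓 - 1)) (fun b => hN' (Ideal.mem_of_dvd _
      (Nat.cast_dvd_cast (Nat.mul_dvd_mul_left 2 dv)) b)) (ξ := a α / α')
      (by rw [pow_mul', a7, neg_one_sq])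
    rw [← Nat.sub_add_cancel A.one.le, pow_succ, a7] at this
    rw [← div_mul_cancel₀ (a α) (α0 b2), map_mul, this, b3, neg_one_mul, neg_mul]
  have a9 := j2 (a α) (by rw [pow_mul', a6])
  rw [AlgEquiv.mul_apply, a8, map_neg, show (J.u (a * J.ι σ * a⁻¹))⁻¹ (a α) = a α from
    (AlgEquiv.symm_apply_eq _).2 (by rw [ap, a3]), ← neg_one_mul] at a9
  obtain ⟨l, l1, rfl⟩ := half_mod ((hη'.map_of_injective (f := algebraMap _ (AlgebraicClosure L))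
    RingOfIntegers.coe_injective).pow (npos A (mul_pos D0 D0')) (Nat.div_mul_cancel dv).symm)
    (Nat.sub_pos_of_lt A.one) (A.odd.tsub_odd odd_one)
    (mul_right_cancel₀ ((_root_.map_ne_zero a).2 (α0 a2)) a9.symm)
  have p1 := pr1 U ha t
  rw [cyc_q hw.1 h2 (ine_fr ((ine_iff hι t).1 ht)), Nat.cast_one] at p1
  simp only [one_mul] at p1
  have := linS _ (pr_l U hB) (pr_r U hB) (by simpa using (c3 1).1)
    (by simpa using (d3 1).1) p1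
    A.odd.pos.ne' (fun x y => by
      rw [pr1 U ha σ, cyc_q hw.1 h2 fun x => by rw [i_smul hι]; exact a1 x]) (c4 σ a1)
    (by rw [← map_mul, mul_inv_cancel, map_one]) (γ := U.ρ.ac (_ * σ'))
    (by rw [← map_mul, ← map_mul, mul_inv_cancel_left, mul_inv_cancel, map_one])
    (fun x hx => (mem_inv ea).1 hx _ g1) a4 b4
  have z := eig (pr_r U hB) (pr_l U hB) (P := (pr U a).flip) (c3 1).2 (d3 1).2 fun x y => by
    simpa using p1 y x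
  have k := blkS (ω := fun d => π η ^ ((nq 𝔓 ^ (D * D') - 1) / (nq 𝔓 ^ d - 1))) A c1 c2 d1
    (by simpa using z) l1
  have g0 : LinearMap.det (U.ρ.ac ((J.u (a * J.ι σ * a⁻¹))⁻¹ * σ')) ≠ 0 :=
    (((Group.isUnit _).map U.ρ.ac).map LinearMap.det).ne_zero
  rw [dpoly (c3 1).2] at this
  rw [Multiset.prod_map_inv, show nq 𝔓 / 2 = (nq 𝔓 - 1) / 2 by obtain ⟨r, hr⟩ := A.odd; omega,
    ← j1] at k
  simp only [eval_mul, eval_C, eval_geom_sum] at this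
  rw [← this] at k
  simp only [RingHom.comp_apply, MulSemiringAction.toRingHom_apply, inv_smul_smul]
  refine Eq.trans ?_ k
  field_simp

theorem locI (ns : Q.act w = w) (e1 : eI K w = 1) (s3 : ∀ x, Ψ (Q.sg x) = Ψ x) :
    e = (-1) ^ finrank E ((Fin n → E) ⧸ Fx ρ (Ine L 𝔓)) := by
  have T := facts K (AlgebraicClosure L)
  have T' := facts L (AlgebraicClosure L)
  have b := T.pr.below (F := K) hw
  obtain ⟨⟨a, a0⟩, fa⟩ := exFr b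
  obtain ⟨ev', le⟩ := ine_le Q hH hw h2 e1
  have ha : a ∉ J.H := fun h => (Q.split_iff w).2 ((T.ine.leg b ((T.pr.two b).1 h2) Q.a_ne
    (glK.sq Q).2 ev' a (by rw [Gs_self]; trivial) fa).1 ((GlAux.iff Q _).1 (hH ▸ h))) ns
  have ta := glK.tau Q a (hH ▸ ha)
  obtain ⟨κ, _, p, pp, _, π, Φ, hπ, hΦ, A, sj, -⟩ := exRes hw h2 s1 s2
  have q : Ideal.absNorm (below K w).asIdeal ^ 2 = nq 𝔓 := by
    rw [nq_eq hw]
    rcases Q.efg w with e | e | e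
    exacts [(e.1 ns).elim, e.2.2.symm, by omega]
  obtain ⟨s, -, hs⟩ := (Nat.dvd_prime_pow pp.out).1
    (A.pw.choose_spec ▸ q ▸ dvd_pow_self (Ideal.absNorm (below K w).asIdeal) two_ne_zero)
  rw [hs] at q fa
  have hΨ : ∀ y, y ^ nq 𝔓 = y → Φ (y ^ p ^ s) = Φ y := fun y hy => by
    obtain ⟨y, rfl⟩ := sj y hy
    have := (hπ _).2 (fa (algebraMap _ _ y))
    rw [map_sub, sub_eq_zero, map_pow, show a • algebraMap _ (𝓞 (AlgebraicClosure L)) y =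
      algebraMap _ _ (Q.sg y) from RingOfIntegers.ext (ta _)] at this
    rw [← this, hΦ, hΦ, s3]
  obtain ⟨r, hr⟩ : Odd (p ^ s) := (Nat.odd_pow_iff two_ne_zero).1 (q ▸ A.odd)
  obtain ⟨D, D0, σ, α, f, a1, a2, a3, a4, a5⟩ := coreE ea U.cp hw.1 h2 he
  have hN := nmem hπ A h2 D0
  have ev : Even (nq 𝔓 ^ D - 1) := A.odd.pow.tsub_odd odd_one
  obtain ⟨β, β0, hβ⟩ := exb hN (v0 v2)
  obtain ⟨t, ht, η, hη, et⟩ := sur hw v2 (fun b => hN (by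
    rw [Nat.cast_mul]; exact 𝔓.mul_mem_left _ b)) hβ
  obtain ⟨m, d, ζ, c1, c2, rfl, c3, c4, c5, -, c6⟩ :=
    a5 hπ hΦ hN ev dvd_rfl β0 (by rw [hβ]) ht hη et
  have pη := hη.map_of_injective (f := algebraMap _ (AlgebraicClosure L))
    RingOfIntegers.coe_injective
  have N0 := npos A D0
  have s3 := J.u1 _ (J.two _ _ ha ha)
  have f0 : IsFr 𝔓 (nq 𝔓) (J.u (a * a)) := fun x => by
    have := T.fr.pow hw.1 (pow_ne_zero s pp.out.ne_zero) fa 2 x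
    rwa [q, pow_two, ← s3, i_smul hι] at this
  have t0 := (ine_iff hι t).1 ht
  have t1 : a * J.ι t * a⁻¹ ∈ Ine K 𝔓 := by simpa using ine_nor (inv_mem a0) t0
  have k2 : U.ρ.ac (J.u (a * J.ι t * a⁻¹)) = U.ρ.ac t ^ p ^ s := by
    refine c6 _ ((ine_iff hι _).2 (by rwa [ι_u ha])) _ ?_ fun f f1 f2 => ?_
    · rw [← hι, ι_u ha]
      exact cjb hw.1 hN t0 pη ((hι _ _).trans et) β0 fa (by
        rw [← map_pow, pow_mul', hβ, map_pow, glK.tau Q a⁻¹ (hH ▸ inv_mem_iff.not.2 ha), v1,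
          map_neg, neg_sq])
    · let r : Ine K 𝔓 →* Ine L 𝔓 := (J.uD _ le).codRestrict _ fun g => (ine_iff hι _).2 (by
        change J.ι (J.u g) ∈ _
        rw [J.u1 _ (le g.2)]
        exact g.2)
      have := tame c hw.1 h2 a0 (fun g => f (r g)) (f1.comp
        ((J.cu.comp continuous_subtype_val).subtype_mk _))
        (fun g h => by rw [map_mul]; exact f2 _ _) ⟨_, t0⟩ ⟨_, t1⟩ rfl
      rwa [show r ⟨_, t0⟩ = ⟨t, ht⟩ from Subtype.ext (J.u_ι _), cyc_q hw.1 h2 fa] at this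
  have g1 : (J.u (a * a))⁻¹ * σ ∈ Ine L 𝔓 := by
    simpa [mul_assoc] using ine_nor (T'.fr.dec hw.1 A.odd.pos.ne' f0) (T'.fr.ine a1 f0)
  obtain ⟨j, j1, j2⟩ := c5 _ g1
  have q1 := nmem hπ A h2 one_pos
  rw [pow_one] at q1
  have α0 : α ≠ 0 := fun b =>
    v0 v2 (by rwa [b, zero_pow (Nat.sub_ne_zero_of_lt A.one), eq_comm, neg_eq_zero] at a2)
  have dv : nq 𝔓 - 1 ∣ _ := Nat.sub_one_dvd_pow_sub_one _ D
  have eq : nq 𝔓 - 1 = 2 * r * (p ^ s + 1) := by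
    rw [← q, hr]; exact Nat.sub_eq_of_eq_add (by ring)
  have a7 : (a α / α) ^ (nq 𝔓 - 1) = -1 := by
    rw [div_pow, ← map_pow, a2, map_neg, ta, v1, map_neg, neg_neg, div_neg, div_self (v0 v2)]
  have a8 : J.u (a * a) α = (a α / α) ^ (p ^ s + 1) * α := by
    rw [← hι, s3, AlgEquiv.mul_apply]
    nth_rw 1 [← div_mul_cancel₀ (a α) α0]
    rw [map_mul, fr_root hw.1 fa q1 (by rw [pow_mul', a7, neg_one_sq]), pow_succ, mul_assoc,
      div_mul_cancel₀ _ α0]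
  have p0 := pη.pow N0 (Nat.div_mul_cancel dv).symm
  have a9 := congrArg (J.u (a * a)) (j2 α (by rw [pow_mul', a2, neg_sq]))
  have c0 : ((η ^ ((nq 𝔓 ^ D - 1) / (nq 𝔓 - 1)) : AlgebraicClosure L) ^ j) ^ (nq 𝔓 - 1) = 1 := by
    rw [pow_right_comm]
    exact (congrArg (· ^ j) p0.pow_eq_one).trans (one_pow _)
  rw [← AlgEquiv.mul_apply, mul_inv_cancel_left, a3, map_mul, fr_root hw.1 f0 q1 (by
    rw [pow_mul', c0, one_pow]), a8, ← mul_assoc, eq_comm, mul_eq_right₀ α0,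
    ← pow_sub_one_mul A.odd.pos.ne', c0, one_mul] at a9
  replace a9 := congrArg (· ^ (2 * r)) a9
  simp only [mul_pow, one_pow] at a9
  rw [← pow_mul (a α / α), mul_comm _ (2 * r), ← eq, a7, mul_neg_one, neg_eq_iff_eq_neg,
    pow_right_comm] at a9
  obtain ⟨l, l1, rfl⟩ := half_mod (p0.pow (Nat.sub_pos_of_lt A.one) eq) (Nat.succ_pos _)
    ⟨r + 1, by omega⟩ a9
  have co : (p ^ s).Coprime (nq 𝔓 ^ D - 1) := Nat.Coprime.of_dvd_left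
    (q ▸ (dvd_pow_self _ two_ne_zero).trans (dvd_pow_self _ D0.ne'))
    ((Nat.coprime_self_sub_right (pow_pos A.odd.pos D)).2 (Nat.coprime_one_right _))
  have p1 := pr1 U ha t
  rw [cyc_q hw.1 h2 (ine_fr ((ine_iff hι t).1 ht)), Nat.cast_one, k2] at p1
  simp only [one_mul] at p1
  have := linI _ (pr_l U hB) (pr_r U hB) (by simpa using (c3 1).1) (pow_ne_zero s pp.out.ne_zero)
    ((c3 _).1 co) p1 (fun x y => by rw [pr2 U ha, cyc_q hw.1 h2 fa]) (by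
      rw [← pow_mul, ← sq (p ^ s), q]
      exact c4 _ f0)
    (γ := U.ρ.ac (_ * σ))
    (by rw [← map_mul, ← map_mul, mul_inv_cancel_left, mul_inv_cancel, map_one])
    (fun x hx => (mem_inv ea).1 hx _ g1) a4
  have k := blkI (ω := fun d => π η ^ ((nq 𝔓 ^ D - 1) / (nq 𝔓 ^ d - 1))) A c1 c2 q hΨ l1
    (eig (pr_l U hB) (pr_r U hB) (c3 _).2 (c3 1).2 p1).symm
  have g0 : LinearMap.det (U.ρ.ac ((J.u (a * a))⁻¹ * σ)) ≠ 0 :=
    (((Group.isUnit _).map U.ρ.ac).map LinearMap.det).ne_zero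
  rw [dpoly (c3 1).2] at this
  simp only [eval_mul, eval_C, eval_finsetSum, eval_X, eval_pow] at this
  rw [Multiset.prod_map_mul, Multiset.prod_map_inv, ← j1, ← this] at k
  rw [← inv_neg_one, inv_pow]
  refine eq_inv_of_mul_eq_one_right (Eq.trans ?_ k)
  field_simp

omit hι hH hB v1 in
theorem tameE : ∃ τ ∈ Ine L 𝔓,
    (∀ i ∈ Ine L 𝔓, ∀ j x, U.ρ.ac τ x - x ∈ U.Λ.T j → U.ρ.ac i x - x ∈ U.Λ.T j) ∧
    (∀ i ∈ Ine L 𝔓, ∃ j : ℕ, U.X.r.ac (J.ι i) = U.X.r.ac (J.ι τ) ^ j) ∧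
    Fx ρ (Ine L 𝔓) = LinearMap.ker (U.ρ.ac τ - 1) := by
  obtain ⟨κ, _, p, pp, _, π, Φ, hπ, hΦ, A, -⟩ := exRes hw h2 s1 s2
  obtain ⟨D, D0, σ, α, f, -, -, -, -, a5⟩ := coreE ea U.cp hw.1 h2 he
  have hN := nmem hπ A h2 D0
  obtain ⟨β, β0, hβ⟩ := exb hN (v0 v2)
  obtain ⟨t, ht, η, hη, et⟩ := sur hw v2 (fun b => hN (by
    rw [Nat.cast_mul]; exact 𝔓.mul_mem_left _ b)) hβ
  obtain ⟨m, d, ζ, -, -, -, c3, -, -, c5, -⟩ :=
    a5 hπ hΦ hN (A.odd.pow.tsub_odd odd_one) dvd_rfl β0 (by rw [hβ]) ht hη et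
  exact ⟨t, ht, fun i hi j x => U.cp.gen_T (D := Ine L 𝔓) c5 hi,
    fun i hi => U.cp.gen_r (D := Ine L 𝔓) c5 hi, Submodule.ext fun x =>
      ((c3 1).1 (Nat.coprime_one_left _) x).trans (by rw [pow_one]; exact sub_eq_zero.symm)⟩

omit hι hH hB v1 in
theorem locR0 (h1 : ∀ g ∈ Ine L 𝔓, ρ g = 1) : e = 1 := by
  obtain ⟨κ, _, p, pp, _, π, Φ, hπ, hΦ, A, -⟩ := exRes hw h2 s1 s2
  obtain ⟨D, D0, σ, α, f, -, -, -, -, a5⟩ := coreE ea U.cp hw.1 h2 he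
  have hN := nmem hπ A h2 D0
  obtain ⟨β, β0, hβ⟩ := exb hN (v0 v2)
  obtain ⟨t, ht, η, hη, et⟩ := sur hw v2 (fun b => hN (by
    rw [Nat.cast_mul]; exact 𝔓.mul_mem_left _ b)) hβ
  obtain ⟨m, d, ζ, c1, c2, rfl, c3, -⟩ :=
    a5 hπ hΦ hN (A.odd.pow.tsub_odd odd_one) dvd_rfl β0 (by rw [hβ]) ht hη et
  have : Subsingleton ((Fin n → E) ⧸ Fx ρ (Ine L 𝔓)) := Submodule.Quotient.subsingleton_iff.2
    (eq_top_iff.2 fun x _ => (mem_inv ea).2 fun g hg => by rw [ea, h1 g hg, map_one]; rfl)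
  rw [LinearMap.det_eq_one_of_subsingleton, one_mul]
  refine prod_eq_one fun i _ => ?_
  have := congrArg (eval (ζ i)) (c3 1).2
  rw [ea, h1 t ht, map_one, one_pow, LinearMap.charpoly_one, eval_multiset_prod,
    Multiset.prod_eq_zero (by
      simp only [Multiset.mem_map]
      exact ⟨_, ⟨_, ⟨_, Multiset.mem_sum.2 ⟨i, mem_univ _, (c1 i).self⟩, rfl⟩, rfl⟩, by simp⟩)]
    at this
  simp only [eval_pow, eval_sub, eval_X, eval_one] at this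
  rw [sub_eq_zero.1 (pow_eq_zero_iff'.1 this).1, g0 A (c1 i).pos (c2 i), neg_neg]

end Pool.Agent.BC
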