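import Mathlib

/-! The Dickson pseudo-determinant on symplectic groups in characteristic two. -/

set_option linter.unusedSectionVars false

namespace Pool.Agent.BC

open Module LinearMap

variable {k V : Type*} [Field k] [CharP k 2] [AddCommGroup V] [Module k V] [FiniteDimensional k V]

/-- An alternating form is the symmetrisation of a bilinear form. -/
theorem exN (a : V →ₗ[k] V →ₗ[k] k) (h : ∀ v, a v v = 0) :
    ∃ N : V →ₗ[k] V →ₗ[k] k, ∀ u v, N u v + N v u = a u v := by
  have b := finBasis k V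
  have s : ∀ u v, a u v = a v u := fun u v => by
    have := h (u + v)
    simp only [map_add, LinearMap.add_apply, h] at this
    grind
  obtain ⟨N, hN⟩ : ∃ N : V →ₗ[k] V →ₗ[k] k, ∀ i j,
      N (b i) (b j) = if i < j then a (b i) (b j) else 0 :=
    ⟨b.constr k fun i => b.constr k fun j => if i < j then a (b i) (b j) else 0,
      fun i j => by simp only [Basis.constr_basis]⟩
  have : N + N.flip = a := LinearMap.ext_basis b b fun i j => by
    simp only [LinearMap.add_apply, flip_apply, hN]
    rcases lt_trichotomy i j with e | rfl | e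
    · simp [e, e.not_gt]
    · simp [h]
    · simp [e, e.not_gt, s (b i)]
  exact ⟨N, fun u v => by rw [← this]; rfl⟩

/-- Adjoints for a symmetric nondegenerate form. -/
structure Adj (a : V →ₗ[k] V →ₗ[k] k) (d : End k V → End k V) : Prop where
  sym : ∀ u v, a u v = a v u
  ad : ∀ x u v, a (x u) v = a u (d x v)
  tr : ∀ x, trace k V (d x) = trace k V x
  nd : ∀ u, (∀ v, a u v = 0) → u = 0
  fn : ∀ l : V →ₗ[k] k, ∃ c, ∀ v, l v = a c v
  rep : ∀ B : V →ₗ[k] V →ₗ[k] k, ∃ w : End k V, ∀ u v, B u v = a u (w v)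

theorem exAdj (a : V →ₗ[k] V →ₗ[k] k) (s : ∀ u v, a u v = a v u)
    (nd : ∀ u, (∀ v, a u v = 0) → u = 0) : ∃ d, Adj a d := by
  obtain ⟨e, he⟩ : ∃ e : V ≃ₗ[k] Dual k V, ∀ u, e u = a u :=
    ⟨a.linearEquivOfInjective ((injective_iff_map_eq_zero a).2 fun u p =>
      nd u fun v => by rw [p]; rfl) Subspace.dual_finrank_eq.symm, fun _ => rfl⟩
  have k1 : ∀ (l : Dual k V) v, a (e.symm l) v = l v := fun l v => by
    rw [← he, e.apply_symm_apply]
  refine ⟨fun x => e.symm.conj (Dual.transpose x), s, fun x u v => ?_, fun x => ?_, nd,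
    fun l => ⟨e.symm l, fun v => (k1 l v).symm⟩,
    fun B => ⟨e.symm.toLinearMap ∘ₗ B.flip, fun u v => ?_⟩⟩
  · rw [s u, LinearEquiv.conj_apply_apply, k1, s]
    simp [he, Dual.transpose_apply]
  · rw [trace_conj', trace_transpose']
  · rw [s u]
    exact (k1 (B.flip v) u).symm

namespace Adj

variable {a : V →ₗ[k] V →ₗ[k] k} {d : End k V → End k V}

theorem ext (h : Adj a d) {x y : End k V} (e : ∀ u v, a u (x v) = a u (y v)) : x = y :=
  LinearMap.ext fun v => sub_eq_zero.1 (h.nd _ fun u => by rw [h.sym, map_sub, e, sub_self])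

theorem ad' (h : Adj a d) (x : End k V) (u v : V) : a (d x u) v = a u (x v) := by
  rw [h.sym, ← h.ad, h.sym]

theorem dd (h : Adj a d) (x : End k V) : d (d x) = x :=
  h.ext fun u v => by rw [← h.ad, h.ad']

theorem add (h : Adj a d) (x y : End k V) : d (x + y) = d x + d y :=
  h.ext fun u v => by simp [← h.ad]

theorem mul (h : Adj a d) (x y : End k V) : d (x * y) = d y * d x :=
  h.ext fun u v => by simp [← h.ad]

theorem one (h : Adj a d) : d 1 = 1 := h.ext fun u v => by simp [← h.ad]

theorem alt (h : Adj a d) {y : End k V} (e : ∀ v, a v (y v) = 0) : ∃ w, y = w + d w := by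
  obtain ⟨N, hN⟩ := exN (a.compl₂ y) e
  obtain ⟨w, hw⟩ := h.rep N
  exact ⟨w, h.ext fun u v => by
    rw [LinearMap.add_apply, map_add, ← h.ad, h.sym (w u), ← hw, ← hw, hN]; rfl⟩

theorem alt_d (h : Adj a d) {y : End k V} (e : ∀ v, a v (y v) = 0) : d y = y := by
  obtain ⟨w, rfl⟩ := h.alt e
  rw [h.add, h.dd, add_comm]

/-- Alternating times self-adjoint has trace zero. -/
theorem tr_alt (h : Adj a d) {y z : End k V} (e : ∀ v, a v (y v) = 0) (s : d z = z) :
    trace k V (y * z) = 0 := by
  obtain ⟨w, rfl⟩ := h.alt e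
  rw [add_mul, map_add, ← h.tr (d w * z), h.mul, h.dd, s, trace_mul_comm k z]
  exact CharTwo.add_self_eq_zero _

theorem tr_rk (c : V) (x : End k V) : trace k V ((a c).smulRight c * x) = a c (x c) :=
  trace_smulRight ((a c).comp x) c

theorem d_rk (h : Adj a d) (c : V) : d ((a c).smulRight c) = (a c).smulRight c :=
  h.ext fun u v => by simp [← h.ad, h.sym u c, mul_comm]

theorem sp (h : Adj a d) {g : End k V} (e : ∀ u v, a (g u) (g v) = a u v) :
    d g * g = 1 ∧ g * d g = 1 := by
  have : d g * g = 1 := h.ext fun u v => by rw [End.mul_apply, ← h.ad, e]; rfl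
  exact ⟨this, mul_eq_one_comm.1 this⟩

end Adj

theorem ginv (s : End k V) :
    ∃ K : End k V, s * K * s = s ∧ trace k V (s * K) = finrank k (range s) := by
  obtain ⟨ρ, hρ⟩ := s.rangeRestrict.exists_rightInverse_of_surjective s.range_rangeRestrict
  obtain ⟨K, hK⟩ := ρ.exists_extend
  have e : ∀ v ∈ range s, s (K v) = v := fun v p => by
    have h1 := LinearMap.congr_fun hK ⟨v, p⟩
    have h2 := congrArg Subtype.val (LinearMap.congr_fun hρ ⟨v, p⟩)
    simp only [comp_apply, Submodule.subtype_apply] at h1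
    rw [h1]
    exact h2
  exact ⟨K, LinearMap.ext fun v => e _ ⟨v, rfl⟩,
    IsProj.trace (f := s * K) ⟨fun v => ⟨_, rfl⟩, e⟩⟩

namespace Adj

variable {a : V →ₗ[k] V →ₗ[k] k} {d : End k V → End k V}

/-- The square of the pseudo-determinant. -/
noncomputable def Dl (d : End k V → End k V) (n g : End k V) : k :=
  trace k V (d n * (d g * n * g + n))

theorem two (x : End k V) : x + x = 0 := by
  rw [← two_smul k x, CharTwo.two_eq_zero, zero_smul]

theorem dn (_ : Adj a d) {n : End k V} (hn : n + d n = 1) : d n = 1 + n := by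
  rw [← hn, add_comm n, add_assoc, two, add_zero]

theorem q_d (h : Adj a d) (n : End k V) (v : V) : a v (d n v) = a v (n v) := by
  rw [← h.ad, h.sym]

theorem fac {s t : End k V} (e : (s + 1) * (t + 1) = 1) : ∃ u, t = s * u :=
  ⟨t + 1, by
    rw [add_mul, one_mul, ← add_assoc, add_eq_right] at e
    rw [← add_zero (s * _), ← two t, ← add_assoc, e, zero_add]⟩

/-- On the orthogonal group the pseudo-determinant is the rank of `g - 1`. -/
theorem core (h : Adj a d) {n g : End k V} (hn : n + d n = 1)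
    (e : ∀ u v, a (g u) (g v) = a u v) (o : ∀ v, a (g v) (n (g v)) = a v (n v)) :
    Dl d n g = finrank k (range (g - 1)) := by
  obtain ⟨s, rfl⟩ : ∃ s, g = s + 1 := ⟨g - 1, by simp⟩
  rw [add_sub_cancel_right]
  obtain ⟨K, k1, k2⟩ := ginv s
  obtain ⟨e1, e2⟩ := h.sp e
  rw [h.add, h.one] at e1 e2
  have a0 : ∀ u v, a u (n v) + a v (n u) = a u v := fun u v => by
    rw [h.sym v, h.ad, ← map_add, ← LinearMap.add_apply, hn]; rfl
  obtain ⟨u, t1⟩ := fac e2
  obtain ⟨w, t2⟩ := fac e1
  have k3 : d s * d K * d s = d s := by rw [mul_assoc, ← h.mul, ← h.mul, k1]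
  have k4 : s * K * d s = d s := by rw [t1, ← mul_assoc, k1]
  have k5 : d s * d K * s = s :=
    calc d s * d K * s = d s * d K * (d s * w) := by rw [← t2]
      _ = s := by rw [← mul_assoc, k3, ← t2]
  have k6 : s * d K * d s = s := by
    have := congrArg d k4
    rwa [h.mul, h.mul, h.dd, ← mul_assoc] at this
  have k7 : d s * K * s = d s := by
    have := congrArg d k5
    rwa [h.mul, h.mul, h.dd, h.dd, ← mul_assoc] at this
  have A : ∀ v, a v ((s + d s * n * s) v) = 0 := fun v => by
    have p := o v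
    have q := a0 v (s v)
    simp only [LinearMap.add_apply, End.one_apply, map_add, End.mul_apply, ← h.ad] at p ⊢
    grind
  have A1 := h.alt_d A
  have z := h.tr_alt (y := d K * (s + d s * n * s) * K) (z := s + d s * n * s)
    (fun v => by simpa only [End.mul_apply, ← h.ad] using A (K v)) A1
  have A2 : s + d s * n * s = d s + d s * d n * s := by
    rw [← A1, h.add, h.mul, h.mul, h.dd, mul_assoc]
  have c := trace_mul_comm k (M := V)
  have z1 : d K * (d s + d s * d n * s) * K * (s + d s * n * s) =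
      d K * (d s * K * s) + d K * d s * K * d s * n * s + d K * d s * d n * (s * K * s) +
        d K * d s * d n * (s * K * d s) * n * s := by noncomm_ring
  have z2 : trace k V (d K * d s * K * d s * n * s) = trace k V (d s * n) := by
    rw [c _ s]
    congr 1
    calc _ = s * d K * d s * K * d s * n := by simp only [mul_assoc]
      _ = _ := by rw [k6, k4]
  have z3 : trace k V (d K * d s * d n * s) = trace k V (d s * n) := by
    rw [c _ s, ← mul_assoc, ← mul_assoc, k6, ← h.tr, h.mul, h.dd, c]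
  have z4 : trace k V (d K * d s * d n * d s * n * s) = trace k V (d n * (d s * n * s)) := by
    rw [c _ s, ← mul_assoc, ← mul_assoc, ← mul_assoc, ← mul_assoc, k6, ← mul_assoc, ← mul_assoc,
      c _ s, mul_assoc, mul_assoc, mul_assoc]
  have z5 : trace k V (d n * (d s * n)) = trace k V (d n * (n * s)) := by
    rw [← h.tr, h.mul, h.mul, h.dd, h.dd, c, ← mul_assoc, ← mul_assoc, h.dn hn, mul_add, mul_one,
      add_mul 1, one_mul]
  nth_rewrite 1 [A2] at z
  rw [z1, k7, k1, k4, map_add, map_add, map_add, z2, z3, z4, ← h.mul, h.tr, k2] at z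
  have z6 : d (s + 1) * n * (s + 1) + n = d s * n * s + d s * n + n * s + (n + n) := by
    rw [h.add, h.one]; noncomm_ring
  rw [Dl, z6, two, add_zero, mul_add, mul_add, map_add, map_add, z5]
  grind

/-- The cocycle relation. -/
theorem coc (h : Adj a d) {n g f : End k V} (hn : n + d n = 1)
    (eg : ∀ u v, a (g u) (g v) = a u v) (ef : ∀ u v, a (f u) (f v) = a u v) {c : V}
    (o : ∀ v, a (f v) (n (f v)) = a v (n v) + a c (f v) ^ 2) :
    Dl d n (g * f) = Dl d n g + Dl d n f + (a (g c) (n (g c)) + a c (n c)) := by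
  obtain ⟨g1, -⟩ := h.sp eg
  obtain ⟨-, f2⟩ := h.sp ef
  have b : d (d g * n * g + n) = d g * n * g + n := by
    rw [h.add, h.mul, h.mul, h.dd, h.dn hn, add_mul, mul_add, one_mul, g1, mul_assoc]
    calc _ = d g * (n * g) + n + (1 + 1) := by abel
      _ = _ := by rw [two, add_zero]
  have z := h.tr_alt (y := f * d n * d f + d n + (a c).smulRight c) (fun v => by
    have p := o (d f v)
    rw [← End.mul_apply f, f2, End.one_apply] at p
    simp only [LinearMap.add_apply, map_add, End.mul_apply, smulRight_apply, map_smul,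
      smul_eq_mul]
    rw [← h.ad' f, h.q_d, h.q_d, h.sym v c, p]
    grind) b
  rw [add_mul, add_mul, map_add, map_add, tr_rk, mul_assoc f, mul_assoc f, trace_mul_comm k f,
    LinearMap.add_apply, map_add, End.mul_apply, End.mul_apply, ← h.ad] at z
  have e : d n * (d (g * f) * n * (g * f) + n) + (d n * (d f * n * f) + d n * (d f * n * f)) =
      d n * (d f * (d g * n * g + n)) * f + d n * (d f * n * f + n) := by
    rw [h.mul]; noncomm_ring
  rw [two, add_zero] at e
  unfold Dl
  rw [e, map_add]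
  grind

/-- Change of the quadratic form. -/
theorem chg (h : Adj a d) {n g : End k V} (a0 : ∀ v, a v v = 0) (u : V) :
    Dl d (n + (a u).smulRight u) g = Dl d n g + (a (d g u) (n (d g u)) + a u (n u)) +
      (a (g u) (n (g u)) + a u (n u)) + a u (g u) ^ 2 := by
  have e : d (n + (a u).smulRight u) * (d g * (n + (a u).smulRight u) * g +
      (n + (a u).smulRight u)) = d n * (d g * n * g + n) + d n * d g * ((a u).smulRight u * g) +
      d n * (a u).smulRight u + (a u).smulRight u * (d g * n * g + n +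
        d g * (a u).smulRight u * g + (a u).smulRight u) := by
    rw [h.add, h.d_rk]; noncomm_ring
  unfold Dl
  rw [e, map_add, map_add, map_add, tr_rk, trace_mul_comm k (d n * d g), mul_assoc _ g, tr_rk,
    trace_mul_comm k (d n) (smulRight _ _), tr_rk]
  simp only [LinearMap.add_apply, map_add, End.mul_apply, smulRight_apply, map_smul, a0,
    smul_eq_mul]
  rw [← h.ad' g, h.q_d, h.q_d, ← h.ad, ← h.ad, h.sym (g u) u]
  grind

end Adj

/-- The Dickson pseudo-determinant. -/
theorem dickson [Finite k] (a N : V →ₗ[k] V →ₗ[k] k) (hN : ∀ u v, N u v + N v u = a u v)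
    (nd : ∀ u, (∀ v, a u v = 0) → u = 0) :
    ∃ (cc : End k V → V) (Dk : End k V → k),
      (∀ g : End k V, (∀ u v, a (g u) (g v) = a u v) →
        ∀ v, N (g v) (g v) = N v v + a (cc g) (g v) ^ 2) ∧
      (∀ g h : End k V, (∀ u v, a (g u) (g v) = a u v) → (∀ u v, a (h u) (h v) = a u v) →
        Dk (g * h) = Dk g + Dk h + a (cc g) (g (cc h))) ∧
      ∀ (g : End k V) (u : V), (∀ u v, a (g u) (g v) = a u v) → cc g = g u - u →
        Dk g + a u (g u) = (finrank k (range (g - 1)) : k) := by
  obtain ⟨d, h⟩ := exAdj a (fun u v => by rw [← hN, ← hN, add_comm]) nd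
  obtain ⟨n, hn⟩ := h.rep N
  have a0 : ∀ v, a v v = 0 := fun v => by rw [← hN]; exact CharTwo.add_self_eq_zero _
  have n1 : n + d n = 1 := h.ext fun u v => by
    rw [LinearMap.add_apply, map_add, ← h.ad, h.sym (n u), ← hn, ← hn, hN]; rfl
  obtain ⟨r, hr⟩ : ∃ r : k → k, ∀ x, r x ^ 2 = x :=
    ⟨(frobeniusEquiv k 2).symm, fun x => (frobeniusEquiv k 2).apply_symm_apply x⟩
  have inj : ∀ x y : k, x ^ 2 = y ^ 2 → x = y := fun x y e => frobenius_inj k 2 e
  have : ∀ g : End k V, ∃ c, (∀ u v, a (g u) (g v) = a u v) →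
      ∀ v, N (g v) (g v) = N v v + a c (g v) ^ 2 := fun g => by
    by_cases e : ∀ u v, a (g u) (g v) = a u v
    swap
    · exact ⟨0, fun p => (e p).elim⟩
    obtain ⟨c, hc⟩ := h.fn ⟨⟨fun v => r (N (g v) (g v) + N v v), fun u v => inj _ _ (by
      have p := e u v
      rw [← hN, ← hN] at p
      rw [CharTwo.add_sq, hr, hr, hr]
      simp only [map_add, LinearMap.add_apply]
      grind)⟩, fun x v => inj _ _ (by
      simp only [map_smul, LinearMap.smul_apply, smul_eq_mul, RingHom.id_apply, mul_pow, hr]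
      ring)⟩
    refine ⟨g c, fun _ v => ?_⟩
    have := hr (N (g v) (g v) + N v v)
    rw [e, ← hc]
    change _ = _ + r (N (g v) (g v) + N v v) ^ 2
    grind
  choose cc hc using this
  refine ⟨cc, fun g => r (Adj.Dl d n g), hc, fun g f eg ef => inj _ _ ?_, fun g u e p => inj _ _ ?_⟩
  · rw [CharTwo.add_sq, CharTwo.add_sq, hr, hr, hr,
      h.coc n1 eg ef (c := cc f) fun v => by rw [← hn, ← hn, hc f ef], ← hn, ← hn, hc g eg]
    grind
  · have q : ∀ v, a (cc g) (g v) = a u v + a u (g v) := fun v => by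
      rw [p, map_sub, LinearMap.sub_apply, e, CharTwo.sub_eq_add]
    have c := h.core (n := n + (a u).smulRight u) (g := g)
      (by rw [h.add, h.d_rk, add_add_add_comm, n1, Adj.two, add_zero]) e fun v => by
        simp only [LinearMap.add_apply, map_add, smulRight_apply, map_smul, smul_eq_mul, ← hn]
        rw [hc g e, q, h.sym (g v) u, h.sym v u]
        grind
    have q1 := hc g e u
    have q2 := hc g e (d g u)
    rw [q] at q1 q2
    rw [← End.mul_apply g, (h.sp e).2, End.one_apply, ← h.ad, h.sym (g u)] at q2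
    rw [h.chg a0, ← hn, ← hn, ← hn] at c
    rw [a0] at q1 q2
    have f := map_natCast (_root_.frobenius k 2) (finrank k (range (g - 1)))
    rw [_root_.frobenius_def] at f
    rw [CharTwo.add_sq, hr, f, ← c]
    grind

end Pool.Agent.BC
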