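import Pool.Agent.Lib.MP_b4b3cb_nt.BC.EInd
import Pool.Agent.Lib.MP_b4b3cb_nt.BC.Dick
import Pool.Agent.Lib.MP_b4b3cb_nt.Par.Mat

/-! The data attached to a matrix representation. -/

set_option linter.unusedSectionVars false

namespace Pool.Agent.BC

open scoped Classical
open Module Matrix Pool.Agent.SP

variable {E k ι : Type} [NontriviallyNormedField E] [IsUltrametricDist E] [Field k] [Fintype ι]
  [DecidableEq ι] {c : CF E k}

variable (c ι) in
/-- The standard lattice. -/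
def stdL : Lt c (ι → E) (ι → k) where
  L :=
    { carrier := {x | ∀ i, ‖x i‖ ≤ 1}
      add_mem' := fun h h' i => ((c.rd_of (h i)).add (c.rd_of (h' i))).1
      zero_mem' := fun _ => c.rd_zero'.1
      neg_mem' := fun h i => (c.rd_of (h i)).neg.1 }
  rd x i := c.rd (x i)
  sm ha h i := ((c.rd_of ha).mul (c.rd_of (h i))).1
  rd_add h h' := funext fun i => ((c.rd_of (h i)).add (c.rd_of (h' i))).2
  rd_smul ha h := funext fun i => ((c.rd_of ha).mul (c.rd_of (h i))).2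
  rd_zero {u} h e i := CF.le_one (c := c) (by
    rw [Pi.smul_apply, smul_eq_mul, mul_inv_cancel_left₀ c.ne]
    exact CF.Rd.lt ⟨h i, congrFun e i⟩)
  sj a := ⟨fun i => c.sc (a i), fun _ => c.sc_le _, funext fun _ => c.rd_sc _⟩
  op := AddSubgroup.isOpen_of_mem_nhds _ (g := 0) (Filter.mem_of_superset
    (Metric.ball_mem_nhds 0 one_pos) fun x hx i =>
      ((norm_le_pi_norm x i).trans_lt (mem_ball_zero_iff.1 hx)).le)
  bdd := ⟨1, fun _ h => (pi_norm_le_iff_of_nonneg zero_le_one).2 h⟩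

theorem rd_mm {M N : Matrix ι ι E} {M' N' : Matrix ι ι k} (h : ∀ i j, c.Rd (M i j) (M' i j))
    (h' : ∀ i j, c.Rd (N i j) (N' i j)) (i j : ι) : c.Rd ((M * N) i j) ((M' * N') i j) :=
  rd_dot (h i) fun l => h' l j

theorem rd_m1 (i j : ι) : c.Rd ((1 : Matrix ι ι E) i j) ((1 : Matrix ι ι k) i j) := by
  simp only [one_apply]
  split_ifs
  exacts [c.rd_one', c.rd_zero']

theorem rd_meq {M N : Matrix ι ι E} {M' N' : Matrix ι ι k} (h : ∀ i j, c.Rd (M i j) (M' i j))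
    (h' : ∀ i j, c.Rd (N i j) (N' i j)) (e : ∀ i j, ‖(M - N) i j‖ < 1) : M' = N' :=
  Matrix.ext fun i j => (h i j).uniq ((h' i j).of_sub (e i j))

theorem bil_eq {R : Type} [CommRing R] (M N P : Matrix ι ι R) (x y : ι → R) :
    toBilin' P (M *ᵥ x) (N *ᵥ y) = toBilin' (Mᵀ * P * N) x y := by
  rw [toBilin'_apply', toBilin'_apply', ← mulVec_mulVec, ← mulVec_mulVec, dotProduct_mulVec x,
    vecMul_transpose]

theorem bil_sy {R : Type} [CommRing R] {M : Matrix ι ι R} (h : M.IsSymm) (x y : ι → R) :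
    toBilin' M x y = toBilin' M y x := by
  rw [toBilin'_apply', toBilin'_apply', dotProduct_mulVec, dotProduct_comm, ← mulVec_transpose,
    h.eq]

theorem bil_alt [CharP k 2] {M : Matrix ι ι k} (h : M.IsSymm) (h0 : ∀ i, M i i = 0) (x : ι → k) :
    toBilin' M x x = 0 := by
  rw [toBilin'_apply, ← Finset.sum_product']
  refine Finset.sum_involution (fun p _ => p.swap) (fun p _ => ?_) (fun p _ hp e => hp ?_)
    (fun _ _ => Finset.mem_univ _) fun _ _ => rfl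
  · rw [Prod.fst_swap, Prod.snd_swap, h.apply p.1 p.2]
    grind
  · rw [show p.2 = p.1 from congrArg Prod.fst e, h0, mul_zero, zero_mul]

theorem exVD [Finite k] [CharP k 2] {Γ G : Type} [Group Γ] [TopologicalSpace Γ] [Group G]
    [TopologicalSpace G] (J : IG Γ G) (χ : G →* E) (hχ : ∀ g, c.Rd (χ g) 1) (χs : χ J.s = -1)
    (ρ : Γ →* Matrix ι ι E) (hρ : Continuous ρ) (h1 : ∀ g i j, ‖ρ g i j‖ ≤ 1)
    (B : Matrix ι ι E) (b1 : B.IsSymm) (b2 : ∀ i j, ‖B i j‖ ≤ 1) (b3 : ‖B.det‖ = 1)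
    (b4 : ∀ g, (ρ g)ᵀ * B * ρ (J.cj g) = χ (J.ι g) • B)
    (M : Matrix ι ι E) (m1 : ∀ i j, ‖M i j‖ ≤ 1) (m2 : ∀ i j, ‖(M * M - 1) i j‖ < 1)
    (m3 : ∀ g i j, ‖(M * ρ g - ρ (J.cj g) * M) i j‖ < 1)
    (m4 : ∀ i j, ‖(B * M - (B * M)ᵀ) i j‖ < 1) (m5 : ∀ i, ‖(B * M) i i‖ < 1) :
    ∃ U : VD J c χ (ι → E) (ι → k), U.ρ = rpM ρ hρ ∧ U.B = toBilin' B ∧
      (∀ x, x ∈ U.Λ.L ↔ ∀ i, ‖x i‖ ≤ 1) ∧ (∀ x i, U.Λ.rd x i = c.rd (x i)) ∧
      ∀ g, (∀ i j, ‖(ρ g * M - 1) i j‖ < 1) → U.X.r.ac (J.ι g * J.s) = 1 := by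
  have q1 : ∀ g i j, c.Rd (ρ g i j) ((ρ g).map c.rd i j) := fun g i j => c.rd_of (h1 g i j)
  have q2 : ∀ i j, c.Rd (B i j) (B.map c.rd i j) := fun i j => c.rd_of (b2 i j)
  have q3 : ∀ i j, c.Rd (M i j) (M.map c.rd i j) := fun i j => c.rd_of (m1 i j)
  let ρ' : Γ →* Matrix ι ι k :=
    { toFun := fun g => (ρ g).map c.rd
      map_one' := Matrix.ext fun i j => (q1 _ i j).uniq (map_one ρ ▸ rd_m1 i j)
      map_mul' := fun g h =>
        Matrix.ext fun i j => (q1 _ i j).uniq (map_mul ρ g h ▸ rd_mm (q1 g) (q1 h) i j) }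
  have l1 : IsLocallyConstant ρ' := lc_pi fun i => lc_pi fun j =>
    (IsLocallyConstant.iff_eventually_eq _).2 fun g =>
      (((hρ.matrix_elem i j).continuousAt (x := g)).eventually
        (Metric.ball_mem_nhds _ one_pos)).mono fun l hl =>
          ((q1 g i j).of_sub (by rwa [← dist_eq_norm])).2
  have sB : (B.map c.rd).IsSymm := b1.map _
  have dB : (B.map c.rd).det ≠ 0 := fun e => ((rd_det b2).congr rfl e).lt.ne b3
  have e1 : M.map c.rd * M.map c.rd = 1 := rd_meq (rd_mm q3 q3) rd_m1 m2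
  have e2 : ∀ g, M.map c.rd * ρ' g = ρ' (J.cj g) * M.map c.rd := fun g =>
    rd_meq (rd_mm q3 (q1 g)) (rd_mm (q1 _) q3) (m3 g)
  have e3 : (B.map c.rd * M.map c.rd).IsSymm :=
    (rd_meq (rd_mm q2 q3) (fun i j => rd_mm q2 q3 j i) m4).symm
  have e4 : ∀ i, (B.map c.rd * M.map c.rd) i i = 0 := fun i =>
    (rd_mm q2 q3 i i).uniq (c.rd_lt (m5 i))
  have e5 : ∀ g, (ρ' g)ᵀ * B.map c.rd * ρ' (J.cj g) = B.map c.rd := fun g =>
    Matrix.ext fun i j => (rd_mm (rd_mm (M := (ρ g)ᵀ) (M' := (ρ' g)ᵀ) (fun i j => q1 g j i) q2)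
      (q1 _) i j).uniq (((hχ _).mul (q2 i j)).congr (congrFun₂ (b4 g) i j).symm (one_mul _))
  have e6 : ∀ g, (∀ i j, ‖(ρ g * M - 1) i j‖ < 1) → ρ' g * M.map c.rd = 1 := fun g h =>
    rd_meq (rd_mm (q1 g) q3) rd_m1 h
  generalize M.map c.rd = M' at e1 e2 e3 e4 e6
  generalize B.map c.rd = B' at q2 sB dB e3 e4 e5
  let r' : G →* Matrix ι ι k :=
    { toFun := fun g => if g ∈ J.H then ρ' (J.u g) else ρ' (J.u g) * M'
      map_one' := by rw [if_pos (one_mem _), ← map_one J.ι, J.u_ι, map_one]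
      map_mul' := fun g h => by
        by_cases hg : g ∈ J.H <;> by_cases hh : h ∈ J.H
        · rw [if_pos hg, if_pos hh, if_pos (mul_mem hg hh), J.u_in hg, map_mul]
        · rw [if_pos hg, if_neg hh, if_neg (by rwa [mul_mem_cancel_left hg]), J.u_in hg, map_mul,
            mul_assoc]
        · rw [if_neg hg, if_pos hh, if_neg (by rwa [mul_mem_cancel_right hh]), J.u_out hg, map_mul,
            mul_assoc, mul_assoc, e2]
        · rw [if_neg hg, if_neg hh, if_pos (J.two g h hg hh), J.u_out hg, map_mul, mul_assoc,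
            ← mul_assoc M', e2, mul_assoc, e1, mul_one] }
  have ri : ∀ g, r' (J.ι g) = ρ' g := fun g => (if_pos (J.mem g)).trans (by rw [J.u_ι])
  have rs : r' J.s = M' := (if_neg J.sH).trans (by rw [J.u_s, map_one, one_mul])
  have l2 : IsLocallyConstant fun g => g ∈ J.H :=
    (IsLocallyConstant.iff_eventually_eq _).2 fun g => by
      by_cases hg : g ∈ J.H
      · exact Filter.mem_of_superset (J.clopen.2.mem_nhds hg) fun l hl =>
          eq_iff_iff.2 (iff_of_true hl hg)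
      · exact Filter.mem_of_superset (J.clopen.compl.2.mem_nhds hg) fun l hl =>
          eq_iff_iff.2 (iff_of_false hl hg)
  have l3 : IsLocallyConstant r' :=
    lc_two (fun (p : Prop) (N : Matrix ι ι k) => if p then N else N * M') l2 (lc_at l1 J.cu)
  let R : FR k G (ι → k) :=
    ⟨(toLinAlgEquiv' : Matrix ι ι k ≃ₐ[k] _).toMonoidHom.comp r',
      lc_one (fun N : Matrix ι ι k => (toLinAlgEquiv' N : End k (ι → k))) l3⟩
  have s1 : ∀ g, (ρ' g)ᵀ * (B' * M') * ρ' g = B' * M' := fun g => by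
    rw [mul_assoc, mul_assoc, e2, ← mul_assoc, ← mul_assoc, e5]
  have s2 : M'ᵀ * (B' * M') * M' = B' * M' := by
    rw [mul_assoc, mul_assoc, e1, mul_one, ← e3.eq, transpose_mul, sB.eq]
  have sp : ∀ g u v, toBilin' (B' * M') (R.ac g u) (R.ac g v) = toBilin' (B' * M') u v :=
    fun g u v => (bil_eq (r' g) (r' g) _ u v).trans (congrArg (toBilin' · u v) (by
      by_cases hg : g ∈ J.H
      · rw [show r' g = ρ' (J.u g) from if_pos hg, s1]
      · rw [show r' g = ρ' (J.u g) * M' from if_neg hg, transpose_mul, mul_assoc M'ᵀ,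
          ← mul_assoc _ _ M', mul_assoc M'ᵀ, s1, s2]))
  have nd := LinearMap.BilinForm.nondegenerate_toBilin'_of_det_ne_zero' (B' * M') (by
    rw [det_mul]
    exact mul_ne_zero dB (left_ne_zero_of_mul_eq_one (det_mul M' M' ▸ e1 ▸ det_one)))
  obtain ⟨N, hN⟩ := exN (toBilin' (B' * M')) (bil_alt e3 e4)
  obtain ⟨cc, Dk, d1, d2, d3⟩ := dickson _ N hN nd.1
  refine ⟨⟨stdL ι c, rpM ρ hρ, toBilin' B, ⟨R, toBilin' (B' * M'), fun g => if g ∈ J.H then 0 else 1,
    N, fun g => cc (R.ac g), fun g => Dk (R.ac g), ⟨sp, nd.1, nd.2⟩,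
    ⟨lc_one (fun p : Prop => if p then (0 : k) else 1) l2, fun g h => ?_⟩, fun g => ?_, hN,
    fun g => d1 _ (sp g), fun g h => by rw [map_mul, d2 _ _ (sp g) (sp h)], lc_one cc R.lc,
    lc_one Dk R.lc, fun g u => d3 _ u (sp g)⟩, bil_sy b1, fun g u hu => ?_, fun u hu v hv => ?_,
    fun g x y => (bil_eq _ _ _ x y).trans (by rw [b4, map_smul]; rfl), χs,
    fun g hg => if_pos hg, fun g hg => if_neg hg⟩, rfl, rfl, fun _ => Iff.rfl, fun _ _ => rfl,
    fun g hg => ?_⟩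
  · beta_reduce
    by_cases hg : g ∈ J.H <;> by_cases hh : h ∈ J.H
    · rw [if_pos hg, if_pos hh, if_pos (mul_mem hg hh), add_zero]
    · rw [if_pos hg, if_neg hh, if_neg (by rwa [mul_mem_cancel_left hg]), zero_add]
    · rw [if_neg hg, if_pos hh, if_neg (by rwa [mul_mem_cancel_right hh]), add_zero]
    · rw [if_neg hg, if_neg hh, if_pos (J.two g h hg hh), CharTwo.add_self_eq_zero]
  · split_ifs
    exacts [mul_zero _, mul_one _]
  · have a := fun t => rd_dot (q1 g t) fun l => c.rd_of (hu l)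
    refine ⟨fun t => (a t).1, funext fun t => (a t).2.trans ?_⟩
    change _ = (r' (J.ι g) *ᵥ _) t
    rw [ri]
    rfl
  · change c.Rd _ (toBilin' (B' * M') _ (r' J.s *ᵥ _))
    rw [rs, toBilin'_apply', toBilin'_apply', mulVec_mulVec, mul_assoc, e1, mul_one]
    exact rd_dot (fun i => c.rd_of (hu i)) fun i => rd_dot (q2 i) fun l => c.rd_of (hv l)
  · change toLinAlgEquiv' (r' _) = 1
    rw [map_mul, ri, rs, e6 g hg, map_one]

end Pool.Agent.BC
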