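import Pool.Agent.Lib.MP_b4b3cb_nt.Eps.Stmt3

/-! Conjugate self-dual representations whose reduction extends to a symplectic one. -/

namespace Pool.Agent.SelTwo

open Matrix

variable {E : Type} [NontriviallyNormedField E] {n : ℕ}

/-- All entries are integral. -/
def Int (N : Matrix (Fin n) (Fin n) E) : Prop := ∀ i j, ‖N i j‖ ≤ 1

/-- The matrices are congruent modulo the maximal ideal. -/
def Cg (N N' : Matrix (Fin n) (Fin n) E) : Prop := ∀ i j, ‖(N - N') i j‖ < 1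

/-- `ρ` is continuous and integral, and `B` is an integral unimodular symmetric matrix that makes
`ρ` dual to `ρ ∘ cj` with values in `χ`. Modulo the maximal ideal, the integral matrix `M` is an
involution that carries `ρ` to `ρ ∘ cj`, and `B M` is alternating. -/
def PolS {Γ : Type} [Group Γ] [TopologicalSpace Γ] (ρ : Γ →* Matrix (Fin n) (Fin n) E) (χ : Γ → E)
    (cj : Γ → Γ) (B : Matrix (Fin n) (Fin n) E) : Prop :=
  Continuous ρ ∧ (∀ g, Int (ρ g)) ∧ B.IsSymm ∧ Int B ∧ ‖B.det‖ = 1 ∧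
    (∀ g, (ρ g)ᵀ * B * ρ (cj g) = χ g • B) ∧ ∃ M, Int M ∧ Cg (M * M) 1 ∧
      (∀ g, Cg (M * ρ g) (ρ (cj g) * M)) ∧ Cg (B * M) (B * M)ᵀ ∧ ∀ i, ‖(B * M) i i‖ < 1

end Pool.Agent.SelTwo
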