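import Pool.Agent.Lib.MP_b4b3cb_nt.BC.EK
import Pool.Agent.Lib.MP_b4b3cb_nt.BC.EMat
import Pool.Agent.Lib.MP_b4b3cb_nt.BC.EEps
import Pool.Agent.Lib.MP_b4b3cb_nt.BC.Stmt4
import Pool.Agent.Lib.MP_b4b3cb_nt.Par.Main2

/-! The parity of the Selmer group and the product of the local constants. -/

namespace Pool.Agent.BC

open scoped Classical Pointwise
open Module NumberField Pool.Agent.Stark Matrix IsDedekindDomain Finset
open Pool.Agent.SP hiding VD exVD autoR oddK locRam locIn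
open EP hiding pr pr_l pr_r pr1 pr2 locS locI
open SC hiding Hm Rp V T Two Cob Sel Spl cup dq Cz Sz res Dec Ine cyc gs
open SelTwo hiding Cob Int

theorem RD.even {k G V : Type} [Field k] [CharP k 2] [Group G] [TopologicalSpace G]
    [AddCommGroup V] [Module k V] [FiniteDimensional k V] (X : RD k G V) : Even (finrank k V) := by
  simpa using pair_alt (A := ⊤) (A' := ⊥) (f := fun u v => X.a u v) bot_le
    (fun b _ => ⟨fun x _ y _ => by simp, fun r x _ => by simp⟩)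
    (fun b _ => ⟨fun x _ y _ => by simp, fun r x _ => by simp⟩) (fun a _ => X.alt a)
    fun a _ => ⟨fun h b _ => by simp [(Submodule.mem_bot k).1 h],
      fun h => X.pf.nl a fun b => h b trivial⟩

theorem card_real (K : Type) [Field K] [NumberField K] [IsTotallyReal K] :
    Fintype.card (K →+* ℝ) = finrank ℚ K := by
  rw [← Embeddings.card K ℂ]
  refine Fintype.card_of_bijective (f := fun φ => Complex.ofRealHom.comp φ)
    ⟨fun a b h => RingHom.ext fun x => Complex.ofReal_injective (RingHom.congr_fun h x), fun φ =>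
      ⟨(IsTotallyReal.complexEmbedding_isReal φ).embedding, RingHom.ext fun x => ?_⟩⟩
  exact ComplexEmbedding.IsReal.coe_embedding_apply _ x

theorem main4 (L : Type) [Field L] [NumberField L] [IsCMField L] (E : Type)
    [NontriviallyNormedField E] [NormedAlgebra ℚ_[2] E] [FiniteDimensional ℚ_[2] E] (n : ℕ)
    (ρ : Gal L →* Matrix (Fin n) (Fin n) E) (cj : Gal L → Gal L)
    (hcj : IsCj cj) (B : Matrix (Fin n) (Fin n) E) (hB : PolS ρ (cyc E) cj B)
    (inv : ∀ 𝔓 : Idl L, 𝔓.IsMaximal → fdim (ρ '' Dec 𝔓) = 0)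
    (Q : HeightOneSpectrum (𝓞 L) → Idl L) (hQ : ∀ w, (Q w).IsMaximal ∧ (Q w).under _ = w.asIdeal)
    (s : HeightOneSpectrum (𝓞 (maximalRealSubfield L)) → HeightOneSpectrum (𝓞 L))
    (hs : ∀ v, (s v).under _ = v) (D : Finset (HeightOneSpectrum (𝓞 (maximalRealSubfield L))))
    (hD : ∀ v, v ∈ D ↔ 2 ∈ v.asIdeal) (Y : _ → Submodule E (Gal L → Fin n → E))
    (hY : ∀ v ∈ D, ¬ Nonsplit (Q (s v)) ∧ Cond ρ (Dec (Q (s v))) (Y v))
    (hF : {w | ∃ g ∈ Ine (Q w), ρ g ≠ 1}.Finite) (T : Finset (HeightOneSpectrum (𝓞 L)))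
    (hU : ∀ w, Ram (Q w) ∨ w ∉ T ∧ Nonsplit (Q w) → ∀ g ∈ Ine (Q w), ρ g = 1)
    (ϖ : HeightOneSpectrum (𝓞 (maximalRealSubfield L)) → L)
    (Ψ : HeightOneSpectrum (𝓞 L) → AddChar (𝓞 L) E) (hT : Ok T ϖ Ψ)
    (e : _ → E) (he : ∀ w ∈ T, Eps ρ (Q w) (ϖ (w.under _)) (Ψ w) (e w)) :
    (Submodule.span E (Sel ρ cj B (fun v => Q (s v)) Y)).FG ∧
      (-1) ^ (h1 ρ ⊤ (Sel ρ cj B (fun v => Q (s v)) Y) + ∑ v ∈ D, h1 ρ (Dec (Q (s v))) (Y v)) =
        ∏ w ∈ T, e w := by
  obtain ⟨hρ, int, b1, b2, b3, b4, M, m1, m2, m3, m4, m5⟩ := hB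
  obtain ⟨d, R, hR⟩ := exists_quad_cm L
  have : Algebra.IsAlgebraic (maximalRealSubfield L) (AlgebraicClosure L) :=
    Algebra.IsAlgebraic.trans _ L _
  have : IsAlgClosure (maximalRealSubfield L) (AlgebraicClosure L) := ⟨inferInstance, this⟩
  have := IsUltrametricDist.of_normedAlgebra ℚ_[2] (L := E)
  have := FiniteDimensional.proper ℚ_[2] E
  have := charZero_of_injective_algebraMap (algebraMap ℚ_[2] E).injective
  obtain ⟨k, _, _, _, ⟨c⟩⟩ := exCF (E := E) (by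
    rw [← map_ofNat (algebraMap ℚ_[2] E), norm_algebraMap']
    exact_mod_cast Padic.norm_p_lt_one (p := 2))
  let := ZMod.algebra k 2
  have F := facts (maximalRealSubfield L) (AlgebraicClosure L)
  have F' := facts L (AlgebraicClosure L)
  obtain ⟨j, c', hc', hcj⟩ := hcj
  let s' : Gal(AlgebraicClosure L/maximalRealSubfield L) := AlgEquiv.ofRingEquiv (f := c') fun x =>
    j.injective ((hc' _).trans (x.2 (j.comp (algebraMap L _))))
  have hre : ∀ j (g : Gal(AlgebraicClosure L/maximalRealSubfield L)), Cj j g →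
      g ∉ Gs (maximalRealSubfield L) (AlgebraicClosure L) L := fun j g hj hg => by
    have a := IsCMField.complexEmbedding_complexConj L (j.comp (algebraMap L _)) R.rt
    have b := hj (algebraMap L _ R.rt)
    rw [hg R.rt] at b
    rw [← hR, R.tau_rt, map_neg, RingHom.comp_apply, ← b] at a
    exact GlAux.ne R ((map_eq_zero j).1 (by linear_combination (-1 / 2 : ℂ) * a))
  obtain ⟨J, hι, hJ, hH, hc⟩ := exIG R (F.cj.sq (g := s') hc').1 (hre j _ hc') cj hcj
  choose P₀ hP₀ using F.pr.ex (maximalRealSubfield L)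
  obtain ⟨π, -⟩ := exPlc P₀ hP₀
  have ec : ∀ g, cycE E _ _ (J.ι g) = cyc E g := fun g => by
    rw [show J.ι g = g.restrictScalars _ from AlgEquiv.ext (hι g)]
    rfl
  obtain ⟨U, hU', uB, -⟩ := exVD (c := c) J (cycE E _ _) (akK π c).rd_chi (by
      rw [hJ, cycE_apply, F.fr.cyc_cj (g := s') hc']
      simp) ρ hρ int B b1 b2 b3 (fun g => by rw [hc, ec, b4]) M m1 m2
      (fun g => by rw [hc]; exact m3 g) m4 m5
  have ev : Even (finrank E (Fin n → E)) := by
    have := U.fdA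
    exact U.dimA ▸ U.X.even
  have ea : ∀ g, U.ρ.ac g = toLinAlgEquiv' (ρ g) := fun g => by rw [hU']; rfl
  have ua : ∀ g x, U.ρ.ac g x = ρ g *ᵥ x := fun g x => by rw [hU']; rfl
  have u1 : ∀ g, ρ g = 1 → U.ρ.ac g = 1 := fun g h => by rw [ea, h, map_one]
  have nd : ∀ x, (∀ y, U.B x y = 0) → x = 0 := fun x hx =>
    (nondegenerate_of_det_ne_zero (norm_ne_zero_iff.1 (b3 ▸ one_ne_zero))).eq_zero_of_ortho
      fun y => by rw [← toBilin'_apply', ← uB, hx]
  have ov : ∀ w, Over (Q w) w := fun w => ⟨(hQ w).1, fun x => by rw [← (hQ w).2]; rfl⟩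
  have bs : ∀ v, below (maximalRealSubfield L) (s v) = v := hs
  have hP : ∀ v, Over (Q (s v)) v := fun v => by
    simpa only [bs] using F.pr.below (F := maximalRealSubfield L) (ov (s v))
  have tw : ∀ w, 2 ∈ Q w ↔ 2 ∈ w.asIdeal := fun w => by rw [(ov w).2, map_ofNat]
  have tv : ∀ w : Pr L, 2 ∈ w.asIdeal ↔ below (maximalRealSubfield L) w ∈ D := fun w => by
    rw [hD, (st_Qd st_Cn).mem_below, map_ofNat]
  have ts : ∀ v, 2 ∈ Q (s v) ↔ v ∈ D := fun v => by rw [tw, tv, bs]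
  have sg : R.sg = (IsCMField.ringOfIntegersComplexConj L).toRingEquiv := by
    ext x
    exact congrArg (fun f => f (x : L)) hR
  have ac : ∀ w, (R.act w).asIdeal = w.asIdeal.map (IsCMField.ringOfIntegersComplexConj L) :=
    fun w => by rw [(st_Qd st_Cn).act_ideal, sg]; rfl
  have ns : ∀ w, Nonsplit (Q w) ↔ R.act w = w := fun w => by
    rw [Nonsplit, (hQ w).2, HeightOneSpectrum.ext_iff, ac]
  have rm : ∀ w, Ram (Q w) ↔ eI (maximalRealSubfield L) w ≠ 1 := fun w => by rw [Ram, (hQ w).2, eI]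
  have i0 : ∀ 𝔓 : Ideal (𝓞 (AlgebraicClosure L)), 𝔓.IsMaximal → ∀ a,
      (∀ g : SC.Dec L 𝔓, U.ρ.ac g a = a) → a = 0 := fun 𝔓 h a ha =>
    (Submodule.finrank_eq_zero.1 ((fdim_inv hρ).symm.trans (inv 𝔓 h))).le (hU' ▸ ha)
  have key : ∀ v, ∃ a : ℕ, v ∉ D → U.Loc (SC.Dec _ (Q (s v))) (U.R.res _).B1 (2 * a) ∧
      (-1) ^ a = ∏ w ∈ T with w.under _ = v, e w := by
    intro v
    by_cases hv : v ∈ D
    · exact ⟨0, fun h => (h hv).elim⟩
    simp only [hv, not_false_iff, true_imp_iff]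
    have h2 := (ts v).not.2 hv
    by_cases h : s v ∈ T
    swap
    · refine ⟨0, ?_, by
        rw [pow_zero, prod_eq_one]
        intro w hw
        rw [mem_filter] at hw
        exact (h ((hT w hw.1).1.2 _ ((hs v).trans hw.2.symm))).elim⟩
      rcases R.efg (s v) with a | a | a
      · exact locSp hι U i0 R hH (ov _) h2 a.1
      · have u := hU _ (.inr ⟨h, (ns _).2 a.1⟩)
        have := locIn hι U i0 R hH (ov _) h2 a.1 a.2.1 (one_mem _)
          (fun i hi j x _ => by simp [u1 i (u i hi)])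
          fun i hi => ⟨0, by rw [pow_zero, U.r_triv (u1 i (u i hi))]⟩
        rwa [map_one, sub_self, LinearMap.range_zero, finrank_bot] at this
      · exact locRam hι U i0 R hH (ov _) h2 (by omega) ev
          fun g hg => u1 g (hU _ (.inl ((rm _).2 (by omega))) g hg)
    rw [show ({w ∈ T | w.under _ = v} : Finset _) = {s v, R.act (s v)} from ext fun w => by
      rw [mem_filter, mem_insert, mem_singleton, ← R.below_eq_iff, below, below, hs]
      exact and_iff_right_of_imp fun a => (hT _ h).1.2 w (a.trans (hs v).symm)]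
    generalize s v = w at *
    obtain ⟨⟨-, t2⟩, ⟨v1, v2⟩, s1, s2, s3⟩ := hT w h
    have s4 := s3 _ (ac w)
    replace v2 : og w (ϖ (w.under _)) = 1 := by simp [og, ord, v2]
    rw [← hR] at v1
    rcases R.efg w with a | a | a
    · refine ⟨0, locSp hι U i0 R hH (ov _) h2 a.1, ?_⟩
      have := he _ (t2 _ (R.below_act w))
      rw [show (R.act w).under _ = w.under _ from R.below_act w] at this
      rw [prod_pair a.1.symm, locS hι R hH U ea nd (ov w) h2 v1 v2 s1 s2 (he w h) a.1 (ov _)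
        (by rw [sg]; exact s4) this, pow_zero]
    · obtain ⟨τ, t3, t4, t5, t6⟩ := tameE U ea (ov w) h2 v2 s1 s2 (he w h)
      rw [a.1] at s4
      rw [a.1, pair_eq_singleton, prod_singleton, locI hι R hH U ea nd (ov w) h2 v1 v2 s1 s2
        (he w h) a.1 a.2.1 (by rw [sg]; exact s4), t6, (LinearMap.quotKerEquivRange _).finrank_eq]
      exact ⟨_, locIn hι U i0 R hH (ov _) h2 a.1 a.2.1 t3 t4 t5, rfl⟩
    · have u := hU _ (.inl ((rm w).2 (by omega)))
      rw [a.1, pair_eq_singleton, prod_singleton, locR0 U ea (ov w) h2 v2 s1 s2 (he w h) u]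
      exact ⟨0, locRam hι U i0 R hH (ov _) h2 (by omega) ev fun g hg => u1 g (u g hg), pow_zero _⟩
  choose a ha using key
  let Y' := fun v => (Y v).map (LinearMap.funLeft E _ (Subtype.val : Dec (Q (s v)) → _))
  have hB' : ∀ v, 2 ∈ Q (s v) → (U.ρ.res _).B1 ≤ Y' v := fun v h =>
    hU' ▸ (cond_le hρ (hY v ((ts v).1 h)).2).1
  have hZ : ∀ v, 2 ∈ Q (s v) → Y' v ≤ (U.ρ.res _).Z1 := fun v h =>
    hU' ▸ (cond_le hρ (hY v ((ts v).1 h)).2).2
  obtain ⟨S, S1, S2, S3, S4⟩ : ∃ S : Finset (Pr (maximalRealSubfield L)), D ⊆ S ∧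
      (∀ w ∈ T, w.under _ ∈ S) ∧ (∀ v ∉ S, og v d = 0) ∧
      ∀ w, below _ w ∉ S → ∀ g ∈ Ine (Q w), ρ g = 1 :=
    ⟨D ∪ T.image (·.under _) ∪ (og_finite d).toFinset ∪ hF.toFinset.image (below _),
      fun v h => by simp [h], fun w h => by simp [mem_image_of_mem _ h],
      fun v h => not_not.1 fun p => h (by simp [p]), fun w h g hg => not_not.1 fun p =>
        h (mem_union_right _ (mem_image_of_mem _ (hF.mem_toFinset.2 ⟨g, hg, p⟩)))⟩
  obtain ⟨fd, par⟩ := mainB hι U i0 R hH hre (card_real _) ev (fun v => Q (s v)) hP s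
    (fun v => ov _) (fun v h => (ns _).not.1 (hY v ((ts v).1 h)).1) S (fun v hv => by
      have o := (ts v).not.2 fun p => hv (S1 p)
      refine ⟨o, ?_, fun 𝔓 h l hl => u1 l ?_⟩
      · have := (QdAux.ram R (s v) ((F.pr.two (F.pr.below (ov _))).1 o)).not.2 (by
          rw [bs, S3 v hv]; decide)
        rcases R.efg (s v) with a | a | a
        exacts [a.2.1, a.2.1, (this a.2.1).elim]
      · obtain ⟨w, hw⟩ := F'.pr.under L 𝔓 h.1
        obtain ⟨g, -, rfl⟩ := F'.pr.trans (ov w) hw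
        rw [← mul_inv_cancel_left g l, ← mul_inv_cancel_right (g⁻¹ * l) g, map_mul, map_mul,
          S4 w (F.pr.uniq (F.pr.below hw) h ▸ hv) _ ((F'.pr.ine_conj _ _ _).1 hl), one_mul,
          ← map_mul, mul_inv_cancel, map_one]) Y' hB' hZ a fun v _ h => (ha v ((ts v).not.1 h)).1
  have es : Sel ρ cj B (fun v => Q (s v)) Y =
      U.Sel (fun v => SC.Dec L (Q (s v))) (fun v => 2 ∈ Q (s v)) Y' := by
    ext x
    rw [SetLike.mem_coe, U.mem_Sel, hU', ← coc_top hρ]
    refine and_congr_right fun hx => (and_iff_right fun 𝔓 h h2 => ?_).trans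
      (forall₂_congr fun v h => and_congr (cond_mem (hY v ((ts v).1 h)).2).symm ?_)
    · obtain ⟨u, hu⟩ := autoR hι U i0 h h2 (hU' ▸ (coc_top hρ).1 hx)
      exact ⟨u, fun g hg => (hu g hg).trans (by rw [ua])⟩
    rw [mem_perp, and_iff_right]
    · refine ⟨fun H _ ⟨y, hy, e⟩ => (H y hy).elim fun f hf => ⟨fun g => f g,
        continuousOn_iff_continuous_domRestrict.1 hf.1, fun g l => ?_⟩, fun H y hy => ?_⟩
      · rw [cupB, dq, uB, toBilin'_apply', ec, ← e]
        refine Eq.trans ?_ (hf.2 g g.2 l l.2)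
        rw [← hc, ← hc, ← ua]
        rfl
      · obtain ⟨f, f1, f2⟩ := H _ ⟨y, hy, rfl⟩
        obtain ⟨f, rfl⟩ := ext1 f
        refine ⟨f, continuousOn_iff_continuous_domRestrict.2 f1, fun g hg l hl => ?_⟩
        have := f2 ⟨g, hg⟩ ⟨l, hl⟩
        rw [cupB, dq, uB, toBilin'_apply', ec] at this
        refine Eq.trans ?_ this
        rw [← hc, ← hc, ← ua]
        rfl
    · refine ⟨(continuousOn_univ.1 hx.1).comp (J.ccj.comp continuous_subtype_val), fun g l => ?_⟩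
      have := (hU' ▸ (coc_top hρ).1 hx : x ∈ U.ρ.Z1).2 (J.cj g) (J.cj l)
      rwa [SP.Rp.d2, ← map_mul] at this
  refine ⟨by rw [es, Submodule.span_eq]; exact (Submodule.fg_iff_finiteDimensional _).2 fd, ?_⟩
  obtain ⟨𝔓, h𝔓⟩ := Ideal.exists_maximal (𝓞 (AlgebraicClosure L))
  have r := qd (B := U.ρ.B1) LinearMap.id (by
      rintro _ ⟨u, rfl⟩
      exact ⟨_, U.mem_Sel.2 ⟨U.ρ.d1_mem u, fun v h => ⟨hB' v h ⟨u, rfl⟩, mem_perp.2
        ⟨(U.ρc.res _).d1_mem u, fun t ht => cob_right (R' := U.ρc.res _) (fun g => U.equi g)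
          (hZ v h ht) u⟩⟩⟩, rfl⟩) es (b := {x | SelTwo.Cob ρ ⊤ x})
    (Set.ext fun x => exists_congr fun u => ⟨fun h => funext fun g => by
      rw [Rp.d1_apply, ua]; exact (h g trivial).symm,
      fun h g _ => by rw [← ua]; exact (congrFun h g).symm⟩)
  rw [Submodule.map_id, U.ρ.rank_B1 fun a ha => i0 _ h𝔓 a fun g => ha g] at r
  rw [r, ← sum_sdiff S1, sum_congr (g := fun v => a v) rfl fun v hv => if_neg ((ts v).not.2 (mem_sdiff.1 hv).2),
    sum_congr (s₁ := D) (g := fun v => h1 ρ (Dec (Q (s v))) (Y v) + finrank E (Fin n → E)) rfl fun v hv => by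
      have h := (ts v).2 hv
      have : CompactSpace (Dec (Q (s v))) := cptD _
      have := ((U.cp.res (Dec (Q (s v)))).fd (ldm (lfD (K := L) (hQ _).1)) (hZ v h)).1
      have r := qd _ (hB' v h) rfl (b := {x | SelTwo.Cob ρ (Dec (Q (s v))) x})
        (Set.ext fun x => hU' ▸ cob_iff hρ)
      rw [(U.ρ.res (Dec (Q (s v)))).rank_B1 (i0 _ (hQ _).1)] at r
      rw [if_pos h]
      exact r, sum_add_distrib, sum_const] at par
  rw [← prod_fiberwise_of_maps_to (g := (·.under (𝓞 (maximalRealSubfield L)))) (t := S \ D)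
    fun w hw => mem_sdiff.2 ⟨S2 w hw, (tv w).not.1 (hT w hw).1.1⟩,
    ← prod_congr rfl fun v hv => (ha v (mem_sdiff.1 hv).2).2, prod_pow_eq_pow_sum]
  refine (eq_inv_of_mul_eq_one_left ?_).trans (by rw [← inv_pow, inv_neg_one])
  rw [← pow_add]
  refine Even.neg_one_pow ?_
  obtain ⟨m, ev⟩ := ev
  rw [ev, smul_eq_mul, mul_add, Nat.even_iff] at par
  rw [Nat.even_iff, h1]
  have : ∀ x y z : ℕ, (x + (m + m) + (y + (z + (#D * m + #D * m)))) % 2 = 0 → (x + z + y) % 2 = 0 :=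
    fun x y z h => by omega
  exact this _ _ _ par

end Pool.Agent.BC
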