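import Pool.Agent.Lib.MP_b4b3cb_nt.BC.AriL

/-! Reciprocity and ramification for a number field. -/

set_option linter.unusedSectionVars false

namespace Pool.Agent.BC

open scoped Classical Topology Pointwise
open Module Pool.Agent.SP

open NumberField Pool.Agent.Stark
open SC hiding Hm Rp V T Two Cob Sel Spl cup dq Cz Sz res

variable {K Ω : Type} [Field K] [NumberField K] [Field Ω] [Algebra K Ω] [IsAlgClosed Ω]
  [IsGalois K Ω] [CharZero Ω] (π : Plc K Ω)
  {k : Type} [Field k] [Finite k] [CharP k 2] [Algebra (ZMod 2) k]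

instance cptP (v : Pl K) : CompactSpace (π.D v) :=
  isCompact_iff_compactSpace.1 ((facts K Ω).dict.closed π v).isCompact

theorem leK (v : Pl K) : π.I v ≤ π.D v := by
  rcases v with q | φ
  exacts [(facts K Ω).pr.le _, bot_le]

theorem finIK : ∀ U ∈ nhds (1 : Gal(Ω/K)), {v | ¬ (π.I v : Set Gal(Ω/K)) ⊆ U}.Finite := by
  obtain ⟨A, -, -, h3, -⟩ := (facts K Ω).ad π
  exact h3 ▸ A.finI

theorem recipK (ε : Gal(Ω/K) → Gal(Ω/K) → k) (hε : Cz ε) (S : Finset (Pl K))
    (h0 : ∀ v ∉ S, Sz fun g h : π.D v => ε g h) :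
    ∑ v ∈ S, invK (fun g h : π.D v => ε g h) = 0 := cd_ext fun i => by
  have F := facts K Ω
  have hε' : ∀ v, Cz fun g h : π.D v => ε g h := fun v =>
    cz_comap hε (π.D v).subtype continuous_subtype_val
  rw [map_sum, map_zero, ← rec2 π _ 1 (F.br.coc_sg (cz_top (hε.map (cd i))))
    (fun g h => (pow_two _).trans (sg_mul_self _)) (fun v g h => cd i (ε g h))
    (fun v => (hε' v).map _) (fun v => by
      rw [← F.br.sgc_add, F.br.sz (F.dict.closed π v)]
      exact SC.st_Sz.zero fun g _ h _ => CharTwo.add_self_eq_zero _) S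
    fun v hv => (h0 v hv).map _]
  exact Finset.sum_congr rfl fun v _ => invK_spec (two_D π v) (hε' v) _

variable (K) in
/-- The real and the dyadic places. -/
noncomputable def S2 : Finset (Pl K) := (og_finite (2 : K)).toFinset.disjSum Finset.univ

theorem inl_mem_S2 {q : Pr K} : Sum.inl q ∈ S2 K ↔ og q (2 : K) ≠ 0 :=
  Finset.inl_mem_disjSum.trans (Set.Finite.mem_toFinset _)

theorem inr_mem_S2 (φ : K →+* ℝ) : Sum.inr φ ∈ S2 K := Finset.inr_mem_disjSum.2 (Finset.mem_univ _)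

theorem not_mem_S2 {v : Pl K} (h : v ∉ S2 K) : ∃ q, v = .inl q ∧ og q (2 : K) = 0 := by
  rcases v with q | φ
  exacts [⟨q, rfl, not_not.1 (inl_mem_S2.not.1 h)⟩, (h (inr_mem_S2 φ)).elim]

theorem exPC {q : Pr K} (h2 : og q (2 : K) = 0) : ∃ σ : π.D (.inl q),
    IsFr (π.pr q) (Ideal.absNorm q.asIdeal) σ.1 ∧
      PC ((π.I (.inl q)).subgroupOf (π.D (.inl q))) σ :=
  (exFr (π.hov q)).imp fun σ h => ⟨h, pcK π h2 σ h⟩

theorem g0_of (ld : ∀ v, LDm k (π.D v))
    (mi : ∀ v (σ : π.D v), PC ((π.I v).subgroupOf (π.D v)) σ →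
      MI k ((π.I v).subgroupOf (π.D v)) σ)
    (h3 : ∀ z : Gal(Ω/K) → Gal(Ω/K) → Gal(Ω/K) → k, Z3 z →
      (∀ v, B3 fun g h l : π.D v => z g h l) → B3 z) : G0 k π.D π.I (S2 K) where
  le := leK π
  two := two_D π
  ld := ld
  mi v hv := by
    obtain ⟨q, rfl, h2⟩ := not_mem_S2 hv
    exact (exPC π h2).imp fun σ h => mi _ σ h.2
  finI := finIK π
  recip := recipK π
  h3 := h3

end Pool.Agent.BC
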