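import Pool.Agent.Lib.MP_b4b3cb_nt.BC.EInd
import Pool.Agent.Lib.MP_b4b3cb_nt.BC.LocM

/-! A lower bound for the space of local cocycles, and the local term at split places. -/

set_option linter.unusedSectionVars false

namespace Pool.Agent.BC

open scoped Classical
open Module Pool.Agent.SP

theorem dim_map {k X Z : Type} [Field k] [AddCommGroup X] [Module k X] [AddCommGroup Z]
    [Module k Z] (f : X →ₗ[k] Z) (S : Submodule k X) [FiniteDimensional k S] :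
    finrank k S = finrank k (S.map f) + finrank k (S ⊓ LinearMap.ker f : Submodule k X) := by
  have h := (f.domRestrict S).finrank_range_add_finrank_ker
  rw [LinearMap.range_domRestrict, LinearMap.ker_domRestrict] at h
  rw [← h, ← Submodule.map_comap_subtype, Submodule.finrank_map_subtype_eq]

section Rk

variable {E k : Type} [NontriviallyNormedField E] [Field k] {G : Type} [Group G]
  [TopologicalSpace G] {c : CF E k} {W W' : Type} [NormedAddCommGroup W] [NormedSpace E W]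
  [NormedAddCommGroup W'] [NormedSpace E W']
  {A A' : Type} [AddCommGroup A] [Module k A] [AddCommGroup A'] [Module k A']
  {C : Lt c W A} {R : Rp E G W} {Rb : FR k G A} {Rb' : FR k G A'} {b : A' →ₗ[k] A →ₗ[k] k}
  [Finite k] [CharP k 2] [Algebra (ZMod 2) k] [ContinuousMul G]

variable (C R b) in
/-- The obstruction to lifting one step. -/
noncomputable def Lt.ob (j : ℤ) (x : G → W) (u : A') : k :=
  invK fun g l => b u (C.lam j (R.d2 x g l))

theorem Lt.ob_per (j m : ℤ) (x : G → W) : C.ob R b (j + m) (c.π ^ m • x) = C.ob R b j x :=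
  funext fun u => congrArg invK (funext₂ fun g l => by rw [R.d2_smul, C.lam_zpow])

variable (H : Two G) (hf : Pf Rb' Rb b) (h : Cp C R Rb) {i j : ℤ} {x y : G → W}

include H hf h

theorem ob_add (hx : x ∈ C.Lev R i j) (hy : y ∈ C.Lev R i j) (u : Rb'.H0) :
    C.ob R b j (x + y) u = C.ob R b j x u + C.ob R b j y u :=
  (congrArg invK (funext₂ fun g l => by
    rw [R.d2_add, C.lam_add (hx.2.2 g l) (hy.2.2 g l), map_add]; rfl)).trans
    (invK_add H (cz_c02 hf u.2 (h.z2 hx)) (cz_c02 hf u.2 (h.z2 hy)))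

theorem ob_smul (hx : x ∈ C.Lev R i j) (a : k) (u : Rb'.H0) :
    C.ob R b j (c.sc a • x) u = a * C.ob R b j x u :=
  (congrArg invK (funext₂ fun g l => by
    rw [R.d2_smul, C.lam_sc a (hx.2.2 g l), map_smul]; rfl)).trans
    (invK_smul H a (cz_c02 hf u.2 (h.z2 hx)))

theorem ob_ex (hx : x ∈ C.Lev R i j) : ∃ φ : Dual k Rb'.H0, ∀ u, φ u = C.ob R b j x u :=
  ⟨{ toFun := fun u => C.ob R b j x u
     map_add' := fun u v => (congrArg invK (funext₂ fun g l => by simp)).trans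
       (invK_add H (cz_c02 hf u.2 (h.z2 hx)) (cz_c02 hf v.2 (h.z2 hx)))
     map_smul' := fun a u => (congrArg invK (funext₂ fun g l => by simp)).trans
       (invK_smul H a (cz_c02 hf u.2 (h.z2 hx))) }, fun _ => rfl⟩

/-- Reductions of approximate cocycles together with their obstructions. -/
def ObS (j : ℤ) : Submodule k ((G → A) × Dual k Rb'.H0) where
  carrier := {p | ∃ x ∈ C.Lev R 0 j, (∀ g, p.1 g = C.lam 0 (x g)) ∧ ∀ u, p.2 u = C.ob R b j x u}
  add_mem' := fun ⟨x, a1, a2, a3⟩ ⟨y, b1, b2, b3⟩ => ⟨x + y, add_mem a1 b1, fun g => by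
    rw [Pi.add_apply x, C.lam_add (a1.2.1 g) (b1.2.1 g), ← a2, ← b2]; rfl, fun u => by
    rw [ob_add H hf h a1 b1, ← a3, ← b3]; rfl⟩
  zero_mem' := ⟨0, zero_mem _, fun _ => (C.lam_of (zero_mem _)).symm, fun u =>
    (invK_sz (sz_congr sz_zero fun g l => by
      rw [(zero_mem R.Z1).2, C.lam_of (zero_mem _), map_zero]; rfl)).symm⟩
  smul_mem' := fun a _ ⟨x, a1, a2, a3⟩ => ⟨c.sc a • x, Lt.lev_smul a1 (c.sc_le a), fun g => by
    rw [Pi.smul_apply _ x, C.lam_sc a (a1.2.1 g), ← a2]; rfl, fun u => by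
    rw [ob_smul H hf h a1, ← a3]; rfl⟩

theorem ob_lift [FiniteDimensional k A] (L : LDm k G) (hx : x ∈ C.Lev R i j) (hij : i ≤ j)
    (h0 : ∀ u : Rb'.H0, C.ob R b j x u = 0) :
    ∃ x' ∈ C.Lev R i (j + 1), ∀ g, x g - x' g ∈ C.T j := by
  obtain ⟨φ, p, q⟩ := L.two hf _ (h.z2 hx) fun u hu =>
    (invK_zero H (cz_c02 hf hu (h.z2 hx))).1 (h0 ⟨u, hu⟩)
  obtain ⟨x', a, d⟩ := h.lift hx hij p q
  exact ⟨x', a, fun g => (d g).1⟩

variable [IsUltrametricDist E] [CompleteSpace E] [FiniteDimensional E W] [CompactSpace G]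

omit H hf h in
theorem rankZ (H : Two G) (L : LDm k G) (hf : Pf Rb' Rb b) (h : Cp C R Rb) :
    finrank k Rb.Z1 ≤ finrank E R.Z1 + finrank k Rb'.H0 := by
  have := C.dim_A.1
  have := hf.bij.1
  have := L.fin Rb
  obtain ⟨-, f1, f2⟩ := h.fd L (le_refl R.Z1)
  let O : ℤ → Submodule k (Dual k Rb'.H0) := fun j => (ObS H hf h j).map (LinearMap.snd k _ _)
  let Im : ℤ → Submodule k (G → A) := fun j => (ObS H hf h j).map (LinearMap.fst k _ _)
  have sh : ∀ (j m : ℤ), ∀ φ ∈ O j, ∃ x ∈ C.Lev R m (j + m), ∀ u, φ u = C.ob R b (j + m) x u := by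
    rintro j m _ ⟨p, ⟨x, a1, -, a3⟩, rfl⟩
    exact ⟨_, by simpa using Lt.lev_per m a1, fun u => by rw [Lt.ob_per]; exact a3 u⟩
  have up : ∀ (j m : ℤ), 0 < m → ∀ φ ∈ O j, (0, φ) ∈ ObS H hf h (j + m) := fun j m hm φ hφ => by
    obtain ⟨x, a1, a2⟩ := sh j m φ hφ
    exact ⟨x, Lt.lev_mono hm.le le_rfl a1, fun g => (C.lam_of (C.anti hm (a1.2.1 g))).symm, a2⟩
  have le : ∀ j, 0 < j → Im j ≤ Rb.Z1 := by
    rintro j hj _ ⟨p, ⟨x, a1, a2, -⟩, rfl⟩
    exact Set.mem_of_eq_of_mem (funext a2) (h.hom a1 hj)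
  have : FiniteDimensional k (Rb.Z1.prod (⊤ : Submodule k (Dual k Rb'.H0))) :=
    Module.Finite.iff_fg.2 ((Module.Finite.iff_fg.1 inferInstance).prod
      (Module.Finite.iff_fg.1 inferInstance))
  have step : ∀ j, 0 ≤ j → finrank k (Im (j + 1)) + finrank k (O j) ≤
      finrank k (Im (j + 1 + 1)) + finrank k (O (j + 1)) := fun j hj => by
    have : FiniteDimensional k (ObS H hf h (j + 1)) :=
      Submodule.finiteDimensional_of_le (S₂ := Rb.Z1.prod ⊤) fun p hp =>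
        ⟨le (j + 1) (by omega) ⟨p, hp, rfl⟩, trivial⟩
    have := Submodule.finiteDimensional_of_le (le (j + 1 + 1) (by omega))
    have a := dim_map (LinearMap.fst k _ _) (ObS H hf h (j + 1))
    have d := dim_map (LinearMap.snd k _ _) (ObS H hf h (j + 1))
    have e1 : (O j).map (LinearMap.inr k _ _) ≤
        ObS H hf h (j + 1) ⊓ LinearMap.ker (LinearMap.fst k _ _) := by
      rintro _ ⟨φ, hφ, rfl⟩
      exact ⟨up j 1 one_pos φ hφ, rfl⟩
    have e2 : ObS H hf h (j + 1) ⊓ LinearMap.ker (LinearMap.snd k _ _) ≤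
        (Im (j + 1 + 1)).map (LinearMap.inl k _ _) := by
      rintro p ⟨⟨x, a1, a2, a3⟩, q⟩
      have q : p.2 = 0 := q
      obtain ⟨x', b1, b2⟩ := ob_lift H hf h L a1 (by omega) fun u => by rw [← a3, q]; rfl
      obtain ⟨φ, hφ⟩ := ob_ex H hf h b1
      exact ⟨p.1, ⟨(p.1, φ), ⟨x', b1, fun g => (a2 g).trans (C.lam_congr (b1.2.1 g)
        (C.anti (by omega) (b2 g))), hφ⟩, rfl⟩, Prod.ext rfl q.symm⟩
    have e3 := Submodule.finrank_mono e1
    have e4 := (Submodule.finrank_mono e2).trans (Submodule.finrank_map_le _ _)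
    rw [← (Submodule.equivMapOfInjective _ LinearMap.inr_injective _).finrank_eq] at e3
    simp only [Im, O] at e3 e4 ⊢
    omega
  have cnt : ∀ j, 0 ≤ j → finrank k Rb.Z1 ≤ finrank k (Im (j + 1)) + finrank k (O j) := by
    intro j hj
    induction j, hj using Int.leInduction with
    | base =>
      have := Submodule.finiteDimensional_of_le (le (0 + 1) (by omega))
      refine (Submodule.finrank_mono fun f hf' => ?_).trans (Nat.le_add_right _ _)
      obtain ⟨x, hx, e⟩ := h.lev_hom 0 hf'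
      obtain ⟨φ, hφ⟩ := ob_ex H hf h hx
      exact ⟨(f, φ), ⟨x, hx, fun g => (e g).symm, hφ⟩, rfl⟩
    | succ j hj ih => exact ih.trans (step j hj)
  obtain ⟨M, hM⟩ := monotone_stabilizes_iff_noetherian.2 inferInstance
    ⟨fun m : ℕ => O m, monotone_nat_of_le_succ fun m φ hφ => ⟨_, up m 1 one_pos φ hφ, rfl⟩⟩
  have hc : CompleteSpace W := FiniteDimensional.complete E W
  have lim : Im (M + 1) ≤ C.Wd R.Z1 := by
    rintro _ ⟨p, ⟨x, hx, a2, -⟩, rfl⟩
    obtain ⟨y, y1, y2, y3⟩ := C.lim_of (fun j x => x ∈ C.Lev R 0 j) (M + 1) M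
      (fun _ _ h => h.1) (fun j hj x hx => by
        obtain ⟨φ, hφ⟩ := ob_ex H hf h hx
        have e : O M = O j := (hM j.toNat (by omega)).trans (congrArg O (by omega))
        obtain ⟨z, z1, z2⟩ := sh M (j - M) φ (e ▸ ⟨(_, φ), ⟨x, hx, fun _ => rfl, hφ⟩, rfl⟩)
        rw [add_sub_cancel] at z1 z2
        have z3 := Lt.lev_mono (show 0 ≤ j - M by omega) le_rfl z1
        obtain ⟨x', b1, b2⟩ := ob_lift H hf h L (add_mem hx z3) (by omega) fun u => by
          rw [ob_add H hf h hx z3, ← z2, ← hφ, CharTwo.add_self_eq_zero]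
        refine ⟨x', b1, fun g => ?_⟩
        convert sub_mem (z1.2.1 g) (C.anti (by omega : j - M ≤ j) (b2 g)) using 1
        rw [Pi.add_apply]
        abel) hx
    rw [add_sub_cancel_left] at y2
    refine ⟨y, ⟨⟨y1, fun g l => C.sep fun j => ?_⟩,
      fun g => C.of_sub (hx.2.1 g) (C.anti zero_le_one (y2 g))⟩,
      funext fun g => (a2 g).trans (C.lam_congr (hx.2.1 g) (y2 g)).symm⟩
    obtain ⟨j', x', h1, h2, h3⟩ := y3 j
    refine C.of_sub (C.anti h1 (h2.2.2 g l)) ?_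
    rw [← R.d2_sub]
    exact (h.lam_d2 h3 g l).1
  have a := cnt M (by omega)
  have d := Submodule.finrank_mono lim
  have e := (O M).finrank_le
  rw [Subspace.dual_finrank_eq] at e
  omega

omit H hf h in
theorem rank_perp [FiniteDimensional E W'] {χ : G →* E} (Lam : LD G c χ) (hχ : Continuous χ)
    (h1 : ∀ g, c.Rd (χ g) 1) {R' : Rp E G W'} {β : W →ₗ[E] W' →ₗ[E] E} (hE : Equi χ R R' β)
    [FiniteDimensional E R'.Z1] {Y : Submodule E (G → W)} [FiniteDimensional E Y]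
    (hB : R.B1 ≤ Y) (hY : Y ≤ R.Z1) :
    finrank E R'.Z1 + finrank E R.B1 ≤ finrank E Y + finrank E (perp β R' χ Y) := by
  obtain ⟨K, k1, k2⟩ := Lam.h2 hχ h1
  let Φ : R'.Z1 →ₗ[E] Dual E Y :=
    (((cupL β R').compr₂ K).domRestrict₁₂ Y R'.Z1).flip
  have r1 := LinearMap.finrank_range_add_finrank_ker Φ
  have r2 : LinearMap.ker Φ ≤ (perp β R' χ Y).comap R'.Z1.subtype := fun x hx =>
    mem_perp.2 ⟨x.2, fun t ht => k2 _ (z2_cup hE (hY ht) x.2) (LinearMap.congr_fun hx ⟨t, ht⟩)⟩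
  have r3 : LinearMap.range Φ ≤ (R.B1.comap Y.subtype).dualAnnihilator := by
    rintro _ ⟨x, rfl⟩
    rw [Submodule.mem_dualAnnihilator]
    rintro ⟨t, ht⟩ ⟨u, rfl⟩
    exact k1 _ (cob_left hE u x.2)
  have r4 := Subspace.finrank_add_finrank_dualAnnihilator_eq (R.B1.comap Y.subtype)
  have r5 := Submodule.finrank_mono r2
  have r6 := Submodule.finrank_mono r3
  rw [(Submodule.comapSubtypeEquivOfLe hB).finrank_eq] at r4
  rw [(Submodule.comapSubtypeEquivOfLe (show perp β R' χ Y ≤ R'.Z1 from inf_le_left)).finrank_eq]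
    at r5
  omega

end Rk

namespace VD

variable {E k : Type} [NontriviallyNormedField E] [Field k] {Γ G : Type} [Group Γ]
  [TopologicalSpace Γ] [Group G] [TopologicalSpace G] {J : IG Γ G} {c : CF E k} {χ : G →* E}
  {V : Type} [NormedAddCommGroup V] [NormedSpace E V] {A : Type} [AddCommGroup A] [Module k A]
  (U : VD J c χ V A)

/-- The lattice with the reduction twisted by the involution. -/
noncomputable def Λs : Lt c V A where
  L := U.Λ.L
  rd u := U.X.r.ac J.s (U.Λ.rd u)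
  sm := U.Λ.sm
  rd_add h h' := by rw [U.Λ.rd_add h h', map_add]
  rd_smul ha h := by rw [U.Λ.rd_smul ha h, map_smul]
  rd_zero h e := U.Λ.rd_zero h (by rw [← U.r_ss (U.Λ.rd _), e, map_zero])
  sj a := (U.Λ.sj (U.X.r.ac J.s a)).imp fun _ h => ⟨h.1, by rw [h.2, U.r_ss]⟩
  op := U.Λ.op
  bdd := U.Λ.bdd

variable {D : Subgroup G} (hD : D ≤ J.H)

theorem pbs : Pb U.Λ U.Λs U.B (U.X.res D).a := U.pb

theorem cp1 : Cp U.Λ (U.r1 D hD) (U.X.res D).r := fun g u hu =>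
  ⟨(U.cp (J.u g) u hu).1, (U.cp (J.u g) u hu).2.trans
    (congrArg (fun s => U.X.r.ac s (U.Λ.rd u)) (J.u1 _ (hD g.2)))⟩

theorem cp2 : Cp U.Λs (U.r2 D hD) (U.X.res D).r := fun g u hu =>
  ⟨(U.cp (J.cj (J.u g)) u hu).1, (congrArg (U.X.r.ac J.s) (U.cp (J.cj (J.u g)) u hu).2).trans (by
    change U.X.r.ac J.s (U.X.r.ac (J.ι _) _) = U.X.r.ac g (U.X.r.ac J.s _)
    rw [J.hcj, J.u1 _ (hD g.2), FR.mul, FR.mul, U.r_ss])⟩

theorem W_spl [CharP k 2] {X : Type} {Y Y' : Submodule E (X → V)} (t : X → A × A) :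
    t ∈ U.T.Wd (Spl Y Y') ↔ (fun g => (t g).1 + (t g).2) ∈ U.Λ.Wd Y ∧
      (fun g => (t g).1) ∈ U.Λs.Wd Y' := by
  have tw : ∀ u v : A, u + (v + u) = v := fun u v => by
    rw [add_left_comm, add_self (k := k), add_zero]
  constructor
  · rintro ⟨w, hw, rfl⟩
    exact ⟨⟨_, ⟨hw.1.1, fun g => (hw.2 g).1⟩, funext fun g => tw _ _⟩,
      _, ⟨hw.1.2, fun g => (hw.2 g).2⟩, rfl⟩
  · rintro ⟨⟨y, hy, e⟩, y', hy', e'⟩
    refine ⟨fun g => (y g, y' g), ⟨⟨hy.1, hy'.1⟩, fun g => ⟨hy.2 g, hy'.2 g⟩⟩,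
      funext fun g => Prod.ext (congrFun e' g) ?_⟩
    change _ = U.Λ.lam 0 (y g) + U.Λs.lam 0 (y' g)
    rw [← congrFun e g, ← congrFun e' g, add_comm (t g).1, add_comm, add_comm (t g).2, add_comm,
      add_comm (t g).1, add_comm, tw]

variable [Finite k] [IsUltrametricDist E] [CompleteSpace E] [FiniteDimensional E V] [CharP k 2]
  [Algebra (ZMod 2) k] [IsTopologicalGroup G] [CompactSpace D] (H : Two D) (L : LDm k D)
  (Lam : LD D c fun g => χ g)

theorem b12 (h0W : ∀ w, (∀ g : D, U.R.ac g w = w) → w = 0) :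
    finrank E (U.r1 D hD).B1 = finrank E V ∧ finrank E (U.r2 D hD).B1 = finrank E V :=
  ⟨Rp.rank_B1 _ fun u hu => congrArg Prod.fst (h0W (u, 0) fun g =>
      (U.res_in hD g _).trans (by rw [hu, map_zero])),
    Rp.rank_B1 _ fun u hu => congrArg Prod.snd (h0W (0, u) fun g =>
      (U.res_in hD g _).trans (by rw [hu, map_zero]))⟩

include H L Lam

theorem le12 {Y Y' : Submodule E (D → V)} (hZ : Y ≤ (U.r1 D hD).Z1) (hB' : (U.r2 D hD).B1 ≤ Y')
    (hZ' : Y' ≤ (U.r2 D hD).Z1)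
    (h : ∀ t ∈ Y, ∀ t' ∈ Y', Cob (fun g : D => χ g) (cupB U.B (U.r2 D hD) t t')) :
    finrank E Y + finrank E Y' ≤ finrank k (U.X.res D).r.Z1 + finrank k (U.X.res D).r.B1 := by
  have := U.Λ.dim_A.1
  have := L.fin (U.X.res D).r
  have := Submodule.finiteDimensional_of_le (ann_le (β := (U.X.res D).a) (R := (U.X.res D).r)
    (R' := (U.X.res D).r) (Y := U.Λs.Wd Y'))
  rw [← ((U.cp1 hD).fd L hZ).2.2, ← ((U.cp2 hD).fd L hZ').2.2,
    ← dim_ann H L (U.X.res D).pf ((U.cp2 hD).b1_le hB') ((U.cp2 hD).W_le hZ')]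
  exact Nat.add_le_add_right (Submodule.finrank_mono
    (iso_rd Lam U.pbs (U.X.res D).pf (U.cp1 hD) (U.cp2 hD) hZ hZ' h)) _

theorem split (h1 : ∀ g, c.Rd (χ g) 1) (hχ : Continuous χ) (hD : D ≤ J.H)
    (h0W : ∀ w, (∀ g : D, U.R.ac g w = w) → w = 0) {Y : Submodule E (D → V)}
    (hB : (U.r1 D hD).B1 ≤ Y) (hZ : Y ≤ (U.r1 D hD).Z1) :
    U.Loc D (Spl Y (perp U.B (U.r2 D hD) (fun g => χ g) Y))
      (2 * finrank E Y - finrank E (U.r1 D hD).Z1 - finrank E V) := by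
  set Y' := perp U.B (U.r2 D hD) (fun g => χ g) Y
  have hZ' : Y' ≤ (U.r2 D hD).Z1 := inf_le_left
  have coc : Spl Y Y' ≤ (U.R.res D).Z1 := fun t ht => U.z1_spl hD ▸ ⟨hZ ht.1, hZ' ht.2⟩
  have iso : ∀ t ∈ Spl Y Y', ∀ t' ∈ Spl Y Y',
      Cob (fun g : D => χ g) (cupB U.om (U.R.res D) t t') := fun t ht t' ht' => by
    obtain ⟨f, f1, f2⟩ := (mem_perp.1 ht'.2).2 _ ht.1
    obtain ⟨f', f3, f4⟩ := (mem_perp.1 ht.2).2 _ ht'.1
    refine ⟨fun g => f g + f' g + U.B (t' g).1 (t g).2, (f1.add f3).add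
      (cont_bil U.B (hZ ht'.1).1 (hZ' ht.2).1), fun g h => ?_⟩
    have a := f2 g h
    have b := f4 g h
    have d := U.equi12 hD g (t' h).1 (t h).2
    have e1 : (t' (g * h)).1 = (t' g).1 + _ := (U.r1 D hD).coc (hZ ht'.1) g h
    have e2 : (t (g * h)).2 = (t g).2 + _ := (U.r2 D hD).coc (hZ' ht.2) g h
    simp only [cupB, dq, LinearMap.compLeft_apply, Function.comp_apply, LinearMap.fst_apply,
      LinearMap.snd_apply] at a b e1 e2
    simp only [cupB, dq, U.res_in hD, U.om_apply, e1, e2, map_add, LinearMap.add_apply, d]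
    linear_combination a + b
  obtain ⟨n, a1⟩ := U.Λ.dim_A
  have := L.fin (U.X.res D).r
  have := Submodule.finiteDimensional_of_le (ann_le (β := (U.X.res D).a) (R := (U.X.res D).r)
    (R' := (U.X.res D).r) (Y := U.Λ.Wd Y))
  obtain ⟨_, -, a2⟩ := (U.cp1 hD).fd L hZ
  obtain ⟨-, -, a3⟩ := (U.cp2 hD).fd L hZ'
  have := ((U.cp2 hD).fd L le_rfl).1
  obtain ⟨a4, a5⟩ := U.b12 hD h0W
  have a6 := rank_perp (χ := χ.comp D.subtype) Lam (hχ.comp continuous_subtype_val)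
    (fun g => h1 g) (U.equi12 hD) hB hZ
  change _ ≤ _ + finrank E Y' at a6
  have a7 := rankZ H L (U.X.res D).pf (U.cp1 hD)
  have a8 := rankZ H L (U.X.res D).pf (U.cp2 hD)
  have a9 := (U.X.res D).r.rank_B1
  have b1 := (U.cp1 hD).b1_le hB
  have b2 := (U.cp1 hD).W_le hZ
  have b3 := dim_ann H L (U.X.res D).pf b1 b2
  have b4 := U.le12 hD H L Lam le_rfl le_rfl (Rp.B1_le _) fun t ht _ ⟨u, e⟩ =>
    e ▸ cob_right (U.equi12 hD) ht u
  have e : U.Λs.Wd Y' = ann (U.X.res D).a (U.X.res D).r (U.X.res D).r (U.Λ.Wd Y) :=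
    Submodule.eq_of_le_of_finrank_le (fun y hy => ⟨(U.cp2 hD).W_le hZ' hy, fun x hx =>
      RD.sz_sy (b2 hx) ((U.cp2 hD).W_le hZ' hy) ((iso_rd Lam U.pbs (U.X.res D).pf (U.cp1 hD)
        (U.cp2 hD) hZ hZ' (fun t ht t' ht' => (mem_perp.1 ht').2 t ht) hx).2 y hy)⟩) (by omega)
  obtain ⟨s, t⟩ := RD.split H L (fun g : D => U.c0 g (hD g.2)) b1 b2 fun t => e ▸ U.W_spl t
  exact ⟨coc, iso, s, by convert t using 1; omega⟩

end VD

end Pool.Agent.BC
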