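import Pool.Agent.Lib.MP_b4b3cb_nt.BC.Inv

/-! The lemma of Shapiro for permutation modules. -/

set_option linter.unusedSectionVars false

namespace Pool.Agent.BC

open scoped Classical
open Module MulAction Pool.Agent.SP

variable {k : Type} [Field k] {G : Type} [Group G] [TopologicalSpace G]
  {A : Type} [AddCommGroup A] [Module k A]

theorem prism2 {R : FR k G A} {ξ : G → G → A} (hξ : R.Z2 ξ) {g l u0 u1 u2 g' l' : G}
    (e1 : u0 * g' = g * u1) (e2 : u1 * l' = l * u2) :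
    ξ g l = (ξ g u1 - ξ u0 g') + R.ac g (ξ l u2 - ξ u1 l') - (ξ (g * l) u2 - ξ u0 (g' * l')) +
      R.ac u0 (ξ g' l') := by
  have c1 := hξ.2 u0 g' l'
  have c2 := hξ.2 g u1 l'
  have c3 := hξ.2 g l u2
  rw [e1] at c1
  rw [e2] at c2
  rw [map_sub]
  linear_combination (norm := abel) c2 - c1 - c3

theorem conj_d2 {R : FR k G A} {ξ : G → G → A} (hξ : R.Z2 ξ) (c g l : G) :
    ξ g l = R.d2 (fun g => ξ g c - ξ c (c⁻¹ * g * c)) g l +
      R.ac c (ξ (c⁻¹ * g * c) (c⁻¹ * l * c)) := by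
  rw [prism2 hξ (g := g) (l := l) (u0 := c) (u1 := c) (u2 := c) (g' := c⁻¹ * g * c)
    (l' := c⁻¹ * l * c) (by group) (by group), FR.d2,
    show c⁻¹ * g * c * (c⁻¹ * l * c) = c⁻¹ * (g * l) * c by group]

variable [IsTopologicalGroup G]

theorem conj_lc {R : FR k G A} {ξ : G → G → A} (hξ : R.Z2 ξ) (c : G) :
    IsLocallyConstant fun g => ξ g c - ξ c (c⁻¹ * g * c) :=
  (hξ.1.at continuous_id continuous_const).sub (hξ.1.at continuous_const (by fun_prop))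

theorem conj2 {R : FR k G A} {ξ : G → G → A} (hξ : R.Z2 ξ) {D D' : Subgroup G} {c : G}
    (hc : ∀ g ∈ D', c⁻¹ * g * c ∈ D) (h : (R.res D).B2 fun g l => ξ g l) :
    (R.res D').B2 fun g l => ξ g l := by
  obtain ⟨φ, a, b⟩ := h
  obtain ⟨φ, rfl⟩ := ext1 φ
  refine ⟨fun g => ξ g c - ξ c (c⁻¹ * g * c) + R.ac c (φ (c⁻¹ * g * c)),
    (lc_at (conj_lc hξ c) continuous_subtype_val).add (lc_one (R.ac c) (lc_at a
      (Continuous.subtype_mk (by fun_prop) fun g : D' => hc g g.2))), fun g l => ?_⟩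
  have d : ξ (c⁻¹ * g * c) (c⁻¹ * l * c) = φ (c⁻¹ * g * c) + R.ac (c⁻¹ * g * c) (φ (c⁻¹ * l * c)) -
    φ (c⁻¹ * g * c * (c⁻¹ * l * c)) := b ⟨_, hc g g.2⟩ ⟨_, hc l l.2⟩
  beta_reduce
  rw [conj_d2 hξ c g l, d, show c⁻¹ * g * c * (c⁻¹ * l * c) = c⁻¹ * (g * l) * c by group,
    map_sub, map_add, ← R.mul, show c * (c⁻¹ * g * c) = g * c by group, R.mul]
  simp only [FR.d2, FR.res_ac, Subgroup.coe_mul, map_add]
  abel

theorem conj_sz [CharP k 2] {ε : G → G → k} (h : Cz ε) (c : G) :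
    Sz fun g l => ε g l + ε (c⁻¹ * g * c) (c⁻¹ * l * c) :=
  ⟨_, conj_lc (R := triv k G) h c, fun g l => by
    have : ε g l = _ + ε _ _ := conj_d2 (R := triv k G) h c g l
    beta_reduce
    rw [this, add_assoc, CharTwo.add_self_eq_zero, add_zero]
    rfl⟩

variable {X : Type} [MulAction G X] {h : IsLocallyConstant (toPermHom G X)}

omit [TopologicalSpace G] [IsTopologicalGroup G] in
theorem exSec (T : Set X) (h2 : ∀ t ∈ T, ∀ t' ∈ T, ∀ g : G, g • t = t' → t = t') :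
    ∃ (r : X → X) (τ : X → G), (∀ x, τ x • r x = x) ∧ (∀ (g : G) x, r (g • x) = r x) ∧
      (∀ t ∈ T, r t = t ∧ τ t = 1) ∧ ∀ t ∈ T, ∀ g : G, r (g • t) = t := by
  have a : ∀ w : orbitRel.Quotient G X, ∃ s : X, Quotient.mk _ s = w ∧
      ∀ t ∈ T, Quotient.mk _ t = w → s = t := fun w => by
    by_cases c : ∃ t ∈ T, Quotient.mk _ t = w
    · obtain ⟨t, c1, c2⟩ := c
      refine ⟨t, c2, fun t' c3 c4 => ?_⟩
      obtain ⟨g, hg⟩ : t' ∈ orbit G t := Quotient.exact (c4.trans c2.symm)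
      exact h2 t c1 t' c3 g hg
    · exact ⟨w.out, w.out_eq, fun t c1 c2 => (c ⟨t, c1, c2⟩).elim⟩
  choose s s1 s2 using a
  have b : ∀ x : X, ∃ g : G, g • s (Quotient.mk _ x) = x ∧ (s (Quotient.mk _ x) = x → g = 1) :=
    fun x => by
      by_cases c : s (Quotient.mk _ x) = x
      · exact ⟨1, by rw [c, one_smul], fun _ => rfl⟩
      · obtain ⟨g, hg⟩ : x ∈ orbit G (s (Quotient.mk _ x)) := Quotient.exact (s1 _).symm
        exact ⟨g, hg, fun d => (c d).elim⟩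
  choose τ t1 t2 using b
  have e : ∀ (g : G) (x : X), (Quotient.mk _ (g • x) : orbitRel.Quotient G X) = Quotient.mk _ x :=
    fun g x => Quotient.sound (mem_orbit x g)
  exact ⟨fun x => s (Quotient.mk _ x), τ, t1, fun g x => congrArg s (e g x),
    fun t ht => ⟨s2 _ t ht rfl, t2 t (s2 _ t ht rfl)⟩, fun t ht g => s2 _ t ht (e g t).symm⟩

omit [TopologicalSpace G] [IsTopologicalGroup G] in
theorem rho_mem {r : X → X} {τ : X → G} (h1 : ∀ x, τ x • r x = x)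
    (h2 : ∀ (g : G) x, r (g • x) = r x) (g : G) (x : X) :
    (τ x)⁻¹ * g * τ (g⁻¹ • x) ∈ stabilizer G (r x) := by
  have := h1 (g⁻¹ • x)
  rw [h2] at this
  rw [mem_stabilizer_iff, mul_smul, mul_smul, this, smul_inv_smul, inv_smul_eq_iff, h1]

omit [TopologicalSpace G] [IsTopologicalGroup G] in
theorem rho_mul (τ : X → G) (g l : G) (x : X) : (τ x)⁻¹ * (g * l) * τ ((g * l)⁻¹ • x) =
    (τ x)⁻¹ * g * τ (g⁻¹ • x) * ((τ (g⁻¹ • x))⁻¹ * l * τ (l⁻¹ • g⁻¹ • x)) := by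
  rw [mul_inv_rev, mul_smul]
  group

omit [IsTopologicalGroup G] in
theorem lc_inv_smul (h : IsLocallyConstant (toPermHom G X)) (x : X) :
    IsLocallyConstant fun g : G => g⁻¹ • x :=
  lc_one (fun s : Equiv.Perm X => s.symm x) h

theorem rho_cont (h : IsLocallyConstant (toPermHom G X)) (τ : X → G) (x : X) :
    Continuous fun g : G => (τ x)⁻¹ * g * τ (g⁻¹ • x) :=
  (continuous_const.mul continuous_id).mul (lc_one τ (lc_inv_smul h x)).continuous

omit [IsTopologicalGroup G] in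
theorem lc_dep {Y Z W : Type} [TopologicalSpace Y] {f : Y → Z} (hf : IsLocallyConstant f)
    {F : Z → Y → W} (hF : ∀ z, IsLocallyConstant (F z)) : IsLocallyConstant fun y => F (f y) y :=
  (IsLocallyConstant.iff_eventually_eq _).2 fun y => by
    filter_upwards [hf.eventually_eq y, (hF (f y)).eventually_eq y] with p a b
    rw [a, b]

omit [IsTopologicalGroup G] in
theorem perm_pf [Fintype X] : Pf (perm k X h) (perm k X h) (dotProductBilin k k) :=
  ⟨fun g u v => Equiv.sum_comp (toPerm g⁻¹) fun x => u x * v x,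
    fun u hu => funext fun x => by simpa using hu (Pi.single x 1),
    fun u hu => funext fun x => by simpa using hu (Pi.single x 1)⟩

omit [IsTopologicalGroup G] in
theorem perm_coc {x : G → X → k} (hx : x ∈ (perm k X h).Z1) (g l : G) (y : X) :
    x (g * l) y = x g y + x l (g⁻¹ • y) := congrFun (FR.coc hx g l) y

omit [TopologicalSpace G] [IsTopologicalGroup G] in
theorem stab_inv {g : G} {y : X} (hg : g ∈ stabilizer G y) : g⁻¹ • y = y := inv_mem hg

omit [IsTopologicalGroup G] in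
theorem sh1r {x : G → X → k} (hx : x ∈ (perm k X h).Z1) (y : X) :
    (fun g : stabilizer G y => x g y) ∈ Hm k (stabilizer G y) :=
  ⟨lc_one (· y) (lc_at hx.1 continuous_subtype_val), fun g l => by
    simp only [Subgroup.coe_mul, perm_coc hx, stab_inv g.2]⟩

omit [IsTopologicalGroup G] in
theorem sh1c {x : G → X → k} (hx : x ∈ (perm k X h).Z1) {y : X} {g : G}
    (hg : g ∈ stabilizer G y) (c : G) : x (c⁻¹ * g * c) (c⁻¹ • y) = x g y := by
  have a := perm_coc hx c (c⁻¹ * g * c) y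
  rw [show c * (c⁻¹ * g * c) = g * c by group, perm_coc hx, stab_inv hg, add_comm] at a
  exact (add_left_cancel a).symm

omit [IsTopologicalGroup G] in
theorem sh1 {x : G → X → k} (hx : x ∈ (perm k X h).Z1) :
    x ∈ (perm k X h).B1 ↔ ∀ y, ∀ g ∈ stabilizer G y, x g y = 0 := by
  constructor
  · rintro ⟨u, rfl⟩ y g hg
    rw [FR.d1_apply, Pi.sub_apply, perm_ac, stab_inv hg, sub_self]
  · intro h0
    obtain ⟨r, τ, t1, t2, -⟩ := exSec (G := G) (∅ : Set X) (by simp)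
    refine ⟨fun y => -x (τ y) y, funext₂ fun g y => ?_⟩
    have a := perm_coc hx (τ y) ((τ y)⁻¹ * g * τ (g⁻¹ • y)) y
    rw [show (τ y)⁻¹ • y = r y from inv_smul_eq_iff.2 (t1 y).symm, h0 _ _ (rho_mem t1 t2 g y),
      show τ y * ((τ y)⁻¹ * g * τ (g⁻¹ • y)) = g * τ (g⁻¹ • y) by group, perm_coc hx] at a
    rw [FR.d1_apply, Pi.sub_apply, perm_ac]
    linear_combination -a

omit [IsTopologicalGroup G] in
theorem sh1T {T : Finset X} (h1 : ∀ y, ∃ t ∈ T, ∃ g : G, g • t = y) {x : G → X → k}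
    (hx : x ∈ (perm k X h).Z1) (h0 : ∀ t ∈ T, ∀ g ∈ stabilizer G t, x g t = 0) :
    x ∈ (perm k X h).B1 := (sh1 hx).2 fun y g hg => by
  obtain ⟨t, ht, c, rfl⟩ := h1 y
  rw [← sh1c hx hg c, inv_smul_smul]
  refine h0 t ht _ ?_
  rw [mem_stabilizer_iff, mul_smul, mul_smul, show g • c • t = c • t from hg, inv_smul_smul]

omit [IsTopologicalGroup G] in
theorem sh2r {ξ : G → G → X → k} (hξ : (perm k X h).Z2 ξ) (y : X) :
    Cz fun g l : stabilizer G y => ξ g l y :=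
  ⟨lc_one (· y) (hξ.1.at (by fun_prop) (by fun_prop)), fun a b c => by
    have := congrFun (hξ.2 a b c) y
    rwa [Pi.add_apply, Pi.add_apply, perm_ac, stab_inv a.2] at this⟩

theorem sh2c [CharP k 2] {ξ : G → G → X → k} (hξ : (perm k X h).Z2 ξ) (y : X) (c : G) :
    Sz fun g l : stabilizer G y => ξ g l y + ξ (c⁻¹ * g * c) (c⁻¹ * l * c) (c⁻¹ • y) :=
  ⟨fun g => ξ g c y - ξ c (c⁻¹ * g * c) y,
    lc_one (· y) (lc_at (conj_lc hξ c) continuous_subtype_val), fun g l => by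
      have := congrFun (conj_d2 hξ c g l) y
      simp only [FR.d2, Pi.add_apply, Pi.sub_apply, perm_ac, stab_inv g.2] at this
      simp only [Subgroup.coe_mul]
      grind⟩

variable [Finite X]

theorem sh1s (T : Finset X) (h2 : ∀ t ∈ T, ∀ t' ∈ T, ∀ g : G, g • t = t' → t = t')
    (a : ∀ t : X, stabilizer G t → k) (ha : ∀ t ∈ T, a t ∈ Hm k (stabilizer G t)) :
    ∃ x ∈ (perm k X h).Z1, (∀ t ∈ T, ∀ g : stabilizer G t, x g t = a t g) ∧
      ∀ y, (∀ t ∈ T, ∀ c : G, c • t ≠ y) → ∀ g, x g y = 0 := by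
  obtain ⟨r, τ, t1, t2, t3, -⟩ := exSec (G := G) (T : Set X) h2
  choose b hb using fun t => ext1 (if t ∈ T then a t else 0)
  have hm : ∀ t, (fun g : stabilizer G t => b t g) ∈ Hm k (stabilizer G t) := fun t => by
    rw [← hb]
    split_ifs with c
    exacts [ha t c, zero_mem _]
  refine ⟨fun g y => b (r y) ((τ y)⁻¹ * g * τ (g⁻¹ • y)), FR.mk_z1 _ (lc_pi fun y =>
    lc_at (hm (r y)).1 ((rho_cont h τ y).subtype_mk fun g => rho_mem t1 t2 g y))
    fun g l => funext fun y => ?_, fun t ht g => ?_, fun y hy g => ?_⟩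
  · have m := rho_mem t1 t2 l (g⁻¹ • y)
    rw [t2] at m
    rw [Pi.add_apply, perm_ac, t2, rho_mul]
    exact (hm (r y)).2 ⟨_, rho_mem t1 t2 g y⟩ ⟨_, m⟩
  · have := congrFun (hb t) g
    rw [if_pos ht] at this
    simp only [stab_inv g.2, (t3 t ht).1, (t3 t ht).2, inv_one, one_mul, mul_one, this]
  · have := congrFun (hb (r y)) ⟨_, rho_mem t1 t2 g y⟩
    rw [if_neg fun c => hy _ c _ (t1 y)] at this
    exact this.symm

theorem sh2_of {ξ : G → G → X → k} (hξ : (perm k X h).Z2 ξ) {r : X → X} {τ : X → G}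
    (t1 : ∀ x, τ x • r x = x) (t2 : ∀ (g : G) x, r (g • x) = r x)
    (h0 : ∀ y, Sz fun g l : stabilizer G (r y) => ξ g l (r y)) : (perm k X h).B2 ξ := by
  have : ∀ t : X, ∃ f : G → k, ∀ y, r y = t → IsLocallyConstant (fun g : stabilizer G t => f g) ∧
      ∀ g ∈ stabilizer G t, ∀ l ∈ stabilizer G t, ξ g l t = f g + f l - f (g * l) := fun t => by
    by_cases c : ∃ y, r y = t
    · obtain ⟨y, rfl⟩ := c
      obtain ⟨f, f1, f2⟩ := h0 y
      obtain ⟨f, rfl⟩ := ext1 f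
      exact ⟨f, fun _ _ => ⟨f1, fun g hg l hl => f2 ⟨g, hg⟩ ⟨l, hl⟩⟩⟩
    · exact ⟨0, fun y hy => (c ⟨y, hy⟩).elim⟩
  choose f hf using this
  refine ⟨fun g y => ξ g (τ (g⁻¹ • y)) y - ξ (τ y) ((τ y)⁻¹ * g * τ (g⁻¹ • y)) y +
    f (r y) ((τ y)⁻¹ * g * τ (g⁻¹ • y)), lc_pi fun y => ((lc_one (· y) (hξ.1.at continuous_id
      (lc_one τ (lc_inv_smul h y)).continuous)).sub (lc_one (· y) (hξ.1.at continuous_const
      (rho_cont h τ y)))).add (lc_at (hf _ y rfl).1 ((rho_cont h τ y).subtype_mk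
        fun g => rho_mem t1 t2 g y)), fun g l => funext fun y => ?_⟩
  have m := rho_mem t1 t2 l (g⁻¹ • y)
  rw [t2] at m
  have a := congrFun (prism2 hξ (g := g) (l := l) (u0 := τ y) (u1 := τ (g⁻¹ • y))
    (u2 := τ (l⁻¹ • g⁻¹ • y)) (g' := (τ y)⁻¹ * g * τ (g⁻¹ • y))
    (l' := (τ (g⁻¹ • y))⁻¹ * l * τ (l⁻¹ • g⁻¹ • y)) (by group) (by group)) y
  have b := (hf _ y rfl).2 _ (rho_mem t1 t2 g y) _ m
  simp only [Pi.add_apply, Pi.sub_apply, perm_ac,
    show (τ y)⁻¹ • y = r y from inv_smul_eq_iff.2 (t1 y).symm] at a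
  simp only [FR.d2, Pi.add_apply, Pi.sub_apply, perm_ac, t2, rho_mul]
  rw [mul_inv_rev g, mul_smul]
  linear_combination a + b

theorem sh2 {ξ : G → G → X → k} (hξ : (perm k X h).Z2 ξ) :
    (perm k X h).B2 ξ ↔ ∀ y, Sz fun g l : stabilizer G y => ξ g l y := by
  constructor
  · rintro ⟨φ, a, b⟩ y
    exact ⟨fun g => φ g y, lc_one (· y) (lc_at a continuous_subtype_val), fun g l => by
      simp only [b, FR.d2, Pi.add_apply, Pi.sub_apply, perm_ac, stab_inv g.2, Subgroup.coe_mul]⟩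
  · intro h0
    obtain ⟨r, τ, t1, t2, -⟩ := exSec (G := G) (∅ : Set X) (by simp)
    exact sh2_of hξ t1 t2 fun y => h0 _

theorem sh2T {T : Finset X} (h1 : ∀ y, ∃ t ∈ T, ∃ g : G, g • t = y)
    (h2 : ∀ t ∈ T, ∀ t' ∈ T, ∀ g : G, g • t = t' → t = t') {ξ : G → G → X → k}
    (hξ : (perm k X h).Z2 ξ) (h0 : ∀ t ∈ T, Sz fun g l : stabilizer G t => ξ g l t) :
    (perm k X h).B2 ξ := by
  obtain ⟨r, τ, t1, t2, -, t4⟩ := exSec (G := G) (T : Set X) h2
  refine sh2_of hξ t1 t2 fun y => h0 _ ?_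
  obtain ⟨t, ht, c, rfl⟩ := h1 y
  rwa [t4 t ht]

theorem sh2s (T : Finset X) (h2 : ∀ t ∈ T, ∀ t' ∈ T, ∀ g : G, g • t = t' → t = t')
    (e : ∀ t : X, stabilizer G t → stabilizer G t → k) (he : ∀ t ∈ T, Cz (e t)) :
    ∃ ξ, (perm k X h).Z2 ξ ∧ (∀ t ∈ T, ∀ g l : stabilizer G t, ξ g l t = e t g l) ∧
      ∀ y, (∀ t ∈ T, ∀ c : G, c • t ≠ y) → ∀ g l, ξ g l y = 0 := by
  obtain ⟨r, τ, t1, t2, t3, -⟩ := exSec (G := G) (T : Set X) h2
  choose b hb using fun t => ext2 (if t ∈ T then e t else 0)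
  have hm : ∀ t, Cz fun g l : stabilizer G t => b t g l := fun t => by
    rw [← hb]
    split_ifs with c
    exacts [he t c, cz_zero]
  have m : ∀ (g l : G) y, (τ (g⁻¹ • y))⁻¹ * l * τ (l⁻¹ • g⁻¹ • y) ∈ stabilizer G (r y) :=
    fun g l y => t2 g⁻¹ y ▸ rho_mem t1 t2 l (g⁻¹ • y)
  refine ⟨fun g l y => b (r y) ((τ y)⁻¹ * g * τ (g⁻¹ • y))
    ((τ (g⁻¹ • y))⁻¹ * l * τ (l⁻¹ • g⁻¹ • y)), ⟨lc_pi fun y => ?_, fun g l n => funext fun y => ?_⟩,
    fun t ht g l => ?_, fun y hy g l => ?_⟩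
  · have c1 : Continuous fun p : G × G => τ (p.1⁻¹ • y) :=
      (lc_one τ (lc_inv_smul h y)).continuous.comp continuous_fst
    have c2 : Continuous fun p : G × G => τ (p.2⁻¹ • p.1⁻¹ • y) :=
      ((lc_one τ (lc_inv_smul h y)).continuous.comp continuous_mul).congr fun p => by
        simp only [Function.comp_apply, mul_inv_rev, mul_smul]
    exact LC2.at (f := fun g l : stabilizer G (r y) => b (r y) g l) (hm (r y)).1
      (((rho_cont h τ y).comp continuous_fst).subtype_mk fun p => rho_mem t1 t2 p.1 y)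
      (((c1.inv.mul continuous_snd).mul c2).subtype_mk fun p => m p.1 p.2 y)
  · have m' := m l n (g⁻¹ • y)
    rw [t2] at m'
    simp only [Pi.add_apply, perm_ac, t2, rho_mul]
    rw [mul_inv_rev g, mul_smul]
    exact (hm (r y)).2 ⟨_, rho_mem t1 t2 g y⟩ ⟨_, m g l y⟩ ⟨_, m'⟩
  · have := congrFun₂ (hb t) g l
    rw [if_pos ht] at this
    simp only [stab_inv g.2, stab_inv l.2, (t3 t ht).1, (t3 t ht).2, inv_one, one_mul, mul_one,
      this]
  · have := congrFun₂ (hb (r y)) ⟨_, rho_mem t1 t2 g y⟩ ⟨_, m g l y⟩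
    rw [if_neg fun c => hy _ c _ (t1 y)] at this
    exact this.symm

end Pool.Agent.BC
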