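import Pool.Agent.Lib.MP_b4b3cb_nt.BC.LDa
import Pool.Agent.Lib.MP_b4b3cb_nt.BC.Perm

/-! Local duality for all finite modules, and corestriction. -/

set_option linter.unusedSectionVars false

namespace Pool.Agent.BC

open scoped Classical
open Module MulAction Pool.Agent.SP

variable {k : Type} [Field k] [CharP k 2] {G : Type} [Group G] [TopologicalSpace G]
  [IsTopologicalGroup G] {X : Type} [Fintype X] [MulAction G X]
  {h : IsLocallyConstant (toPermHom G X)}

theorem stab_open (h : IsLocallyConstant (toPermHom G X)) (x : X) :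
    IsOpen (stabilizer G x : Set G) := (lc_one (fun s : Equiv.Perm X => s x) h).isOpen_fiber x

theorem perm_h0 : (fun _ => 1) ∈ (perm k X h).H0 := (FR.mem_H0 _).2 fun _ => rfl

theorem cz_sum {ξ : G → G → X → k} (hξ : (perm k X h).Z2 ξ) : Cz fun g l => ∑ x, ξ g l x := by
  simpa [dotProduct] using cz_c02 perm_pf perm_h0 hξ

theorem sz_sum {ξ : G → G → X → k} (hξ : (perm k X h).B2 ξ) : Sz fun g l => ∑ x, ξ g l x := by
  obtain ⟨φ, a, b⟩ := hξ
  simpa [dotProduct, b] using sz_h0 (perm_pf (h := h)) perm_h0 a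

theorem perm_mul {x y : G → X → k} (hy : y ∈ (perm k X h).Z1) (hx : x ∈ (perm k X h).Z1) :
    (perm k X h).Z2 fun g l t => y g t * x l (g⁻¹ • t) :=
  ⟨lc_two (fun u v : X → k => u * v) (lc_at hy.1 continuous_fst)
    ((perm k X h).lc_ac continuous_fst (lc_at hx.1 continuous_snd)), fun a b c => funext fun t => by
      simp only [Pi.add_apply, perm_ac, perm_coc hx, perm_coc hy, mul_inv_rev, mul_smul]
      ring⟩

theorem perm_const {ε : G → G → k} (hε : Cz ε) : (perm k X h).Z2 fun g l _ => ε g l :=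
  ⟨lc_one (fun u _ => u) hε.1, fun a b c => funext fun _ => hε.2 a b c⟩

theorem cor_inj2 (L : LF G) {x₀ : X} (tr : ∀ x, ∃ g : G, g • x₀ = x) (n : Odd (Fintype.card X))
    {ξ : G → G → X → ZMod 2} (hξ : (perm (ZMod 2) X h).Z2 ξ) (h0 : Sz fun g l => ∑ x, ξ g l x) :
    Sz fun g l : stabilizer G x₀ => ξ g l x₀ := by
  obtain ⟨a, a1, a2⟩ := L.ex
  obtain ⟨b, hb⟩ := not_forall.1 (mt (L.top.nd a a1) a2)
  obtain ⟨b1, b2⟩ := Classical.not_imp.1 hb
  have c := perm_const (h := h) (cz_cup a1 b1)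
  have T : ∀ {ζ : G → G → X → ZMod 2}, (perm (ZMod 2) X h).Z2 ζ →
      (Sz fun g l : stabilizer G x₀ => ζ g l x₀) → Sz fun g l => ∑ x, ζ g l x := fun hζ e =>
    sz_sum (sh2T (T := {x₀}) (by simpa using tr) (by simp) hζ (by simpa using e))
  have e : ∀ g l, ∑ _ : X, cup a b g l = cup a b g l := fun g l => by
    rw [Finset.sum_const, Finset.card_univ, nsmul_eq_mul, (ZMod.natCast_eq_one_iff_odd).2 n, one_mul]
  refine (((L.sub _ (stab_open h x₀)).two _ _ (sh2r hξ x₀) (sh2r c x₀)).resolve_right ?_)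
  rintro (d | d)
  · exact b2 (sz_congr (T c d) e)
  · exact b2 (sz_cancel h0 (sz_congr (T (hξ.add c) d) fun g l => by
      simp only [Pi.add_apply, Finset.sum_add_distrib, e]))

variable [Finite k] [Algebra (ZMod 2) k]

theorem perm_map {ξ : G → G → X → k} (hξ : (perm k X h).Z2 ξ) (f : Dual (ZMod 2) k) :
    (perm (ZMod 2) X h).Z2 fun g l x => f (ξ g l x) :=
  ⟨lc_one (fun (u : X → k) x => f (u x)) hξ.1, fun a b c => funext fun x => by
    have := congrArg f (congrFun (hξ.2 a b c) x)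
    simpa only [Pi.add_apply, map_add, perm_ac] using this⟩

theorem cor_inj (L : LF G) {x₀ : X} (tr : ∀ x, ∃ g : G, g • x₀ = x) (n : Odd (Fintype.card X))
    {ξ : G → G → X → k} (hξ : (perm k X h).Z2 ξ) (h0 : Sz fun g l => ∑ x, ξ g l x) :
    Sz fun g l : stabilizer G x₀ => ξ g l x₀ := sz_cd fun i =>
  cor_inj2 L tr n (perm_map hξ (cd i)) (sz_congr (h0.map (cd i)) fun _ _ => map_sum _ _ _)

theorem L0.finK (L : L0 G) : Finite (Hm k G) :=
  have := L.fin
  Finite.of_injective (fun a i => (⟨_, Hm.map a.2 (cd i)⟩ : Hm (ZMod 2) G)) fun _ _ h => Subtype.ext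
    (funext fun g => cd_ext fun i => congrFun (congrArg Subtype.val (congrFun h i)) g)

theorem L0.ndK (L : L0 G) {a : G → k} (ha : a ∈ Hm k G) (h0 : ∀ b ∈ Hm k G, Sz (cup b a)) :
    a = 0 := funext fun g => cd_ext fun i => by
  refine (congrFun (L.nd _ (Hm.map ha (cd i)) fun b hb => ?_) g).trans (map_zero _).symm
  refine sz_congr (sz_flip triv_pf (triv_z1.2 hb) (triv_z1.2 (Hm.map ha (cd i)))
    (sz_congr ((h0 _ (Hm.up hb)).map (cd i)) fun g l => ?_)) fun g l => mul_comm _ _
  rw [cup, ← Algebra.smul_def, map_smul]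
  rfl

theorem ldp_perm (L : LF G) {x₀ : X} (tr : ∀ x, ∃ g : G, g • x₀ = x) (n : Odd (Fintype.card X)) :
    LDp (perm k X h) (perm k X h) (dotProductBilin k k) where
  fin := by
    have := (L.sub _ (stab_open h x₀)).finK (k := k)
    let f : (G → X → k) →ₗ[k] stabilizer G x₀ → k :=
      LinearMap.pi fun g => LinearMap.proj x₀ ∘ₗ LinearMap.proj g.1
    have a : FiniteDimensional k ((perm k X h).Z1.map f) :=
      Submodule.finiteDimensional_of_le (S₂ := Hm k (stabilizer G x₀)) fun _ ⟨_, hx, e⟩ =>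
        e ▸ sh1r hx x₀
    have b : FiniteDimensional k ((perm k X h).Z1 ⊓ LinearMap.ker f : Submodule k _) :=
      Submodule.finiteDimensional_of_le (S₂ := (perm k X h).B1) fun x hx =>
        sh1T (T := {x₀}) (by simpa using tr) hx.1 fun t ht g hg => by
          obtain rfl := Finset.mem_singleton.1 ht
          exact congrFun hx.2 ⟨g, hg⟩
    exact Module.Finite.iff_fg.2 (Submodule.fg_of_fg_map_of_fg_inf_ker _ (Module.Finite.iff_fg.1 a)
      (Module.Finite.iff_fg.1 b))
  one x hx h0 := sh1T (T := {x₀}) (by simpa using tr) hx fun t ht g hg => by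
    obtain rfl := Finset.mem_singleton.1 ht
    refine congrFun ((L.sub _ (stab_open h t)).ndK (sh1r hx t) fun b hb => ?_) ⟨g, hg⟩
    obtain ⟨y, y1, y2, -⟩ := sh1s (h := h) {t} (by simp)
      (Function.update (fun _ => 0) t b) (by simpa using hb)
    refine sz_congr (cor_inj L tr n (perm_mul y1 hx) (h0 y y1)) fun g l => ?_
    rw [y2 t ht, Function.update_self, stab_inv g.2, cup]
  two ξ hξ h0 := sh2T (T := {x₀}) (by simpa using tr) (by simp) hξ fun t ht => by
    obtain rfl := Finset.mem_singleton.1 ht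
    exact cor_inj L tr n hξ (by simpa [dotProduct] using h0 _ perm_h0)

theorem ldm [CompactSpace G] (L : LF G) : LDm k G := ldm_of L.top.two fun U _ n _ _ =>
  ⟨perm_pf, ldp_perm L (x₀ := ((1 : G) : G ⧸ U)) (fun x => exists_smul_eq G _ x)
    (by rwa [← Nat.card_eq_fintype_card])⟩

theorem cor_one [CompactSpace G] (L : LF G) {t : X} {ξ : G → G → X → k} (hξ : (perm k X h).Z2 ξ)
    (h0 : ∀ g l x, x ∉ orbit G t → ξ g l x = 0) :
    invK (fun g l => ∑ x, ξ g l x) = invK fun g l : stabilizer G t => ξ g l t := by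
  unfold invK
  refine congrArg _ (funext fun i => if_congr ⟨fun a => ?_, fun a => ?_⟩ rfl rfl)
  · refine (sh2 (perm_map hξ (cd i))).1 ((ldm L).two perm_pf _ (perm_map hξ (cd i))
      fun u hu => sz_congr (sz_smul a (u t)) fun g l => ?_) t
    simp only [Pi.smul_apply, smul_eq_mul, map_sum, Finset.mul_sum]
    refine Finset.sum_congr rfl fun x _ => ?_
    by_cases hx : x ∈ orbit G t
    · obtain ⟨c, rfl⟩ := hx
      rw [← congrFun ((FR.mem_H0 _).1 hu c) (c • t), perm_ac, inv_smul_smul]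
    · simp only [h0 g l x hx, map_zero, mul_zero]
  · refine sz_congr (sz_sum ((sh2 (perm_map hξ (cd i))).2 fun y => ?_)) fun g l =>
      (map_sum _ _ _).symm
    by_cases hy : y ∈ orbit G t
    · obtain ⟨c, rfl⟩ := hy
      have := (sh2c (perm_map hξ (cd i)) (c • t) c).add (sz_comap a
        (((MulAut.conj c⁻¹).toMonoidHom.comp (stabilizer G (c • t)).subtype).codRestrict _
          fun g => by
            have : g.1 • c • t = c • t := g.2
            simp [mul_smul, this]) (Continuous.subtype_mk (by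
              change Continuous fun g : stabilizer G (c • t) => c⁻¹ * g.1 * c⁻¹⁻¹
              fun_prop) _))
      refine sz_congr this fun g l => ?_
      simp [CharTwo.add_cancel_right]
    · exact sz_congr sz_zero fun g l => by rw [h0 _ _ y hy, map_zero]; rfl

theorem cor [CompactSpace G] (L : LF G) {T : Finset X} (h1 : ∀ y, ∃ t ∈ T, ∃ g : G, g • t = y)
    (h2 : ∀ t ∈ T, ∀ t' ∈ T, ∀ g : G, g • t = t' → t = t') {ξ : G → G → X → k}
    (hξ : (perm k X h).Z2 ξ) : invK (fun g l => ∑ x, ξ g l x) =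
      ∑ t ∈ T, invK fun g l : stabilizer G t => ξ g l t := by
  let ζ : X → G → G → X → k := fun t g l x => if x ∈ orbit G t then ξ g l x else 0
  have z : ∀ t, (perm k X h).Z2 (ζ t) := fun t =>
    ⟨lc_one (fun (u : X → k) x => if x ∈ orbit G t then u x else 0) hξ.1,
      fun a b c => funext fun x => by
        have := congrFun (hξ.2 a b c) x
        have e : a⁻¹ • x ∈ orbit G t ↔ x ∈ orbit G t :=
          ⟨fun e => smul_inv_smul a x ▸ mem_orbit_of_mem_orbit a e, mem_orbit_of_mem_orbit _⟩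
        simp only [Pi.add_apply, perm_ac, ζ, e] at this ⊢
        split_ifs
        exacts [this, rfl]⟩
  have s : ∀ S : Finset X, Cz (∑ t ∈ S, fun g l => ∑ x, ζ t g l x) ∧
      invK (∑ t ∈ S, fun g l => ∑ x, ζ t g l x) = ∑ t ∈ S, invK fun g l => ∑ x, ζ t g l x :=
    fun S => by
      induction S using Finset.induction_on with
      | empty => exact ⟨cz_zero, invK_sz sz_zero⟩
      | insert t S ht ih =>
        rw [Finset.sum_insert ht, Finset.sum_insert ht, invK_add L.top.two (cz_sum (z t)) ih.1, ih.2]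
        exact ⟨(cz_sum (z t)).add ih.1, rfl⟩
  refine Eq.trans (congrArg invK (funext₂ fun g l => ?_)) ((s T).2.trans
    (Finset.sum_congr rfl fun t _ => (cor_one L (z t) fun g l x hx => if_neg hx).trans
      (congrArg invK (funext₂ fun g l => if_pos (mem_orbit_self t)))))
  simp only [Finset.sum_apply]
  rw [Finset.sum_comm]
  refine Finset.sum_congr rfl fun x _ => ?_
  obtain ⟨t, ht, c, rfl⟩ := h1 x
  rw [Finset.sum_eq_single_of_mem t ht fun t' ht' ne => if_neg fun ⟨d, hd⟩ =>
    ne (h2 _ ht' _ ht (c⁻¹ * d) (by rw [mul_smul, show d • t' = c • t from hd, inv_smul_smul]))]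
  exact (if_pos ⟨c, rfl⟩).symm

end Pool.Agent.BC
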