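import Pool.Agent.Lib.MP_b4b3cb_nt.BC.EuS
import Pool.Agent.Lib.MP_b4b3cb_nt.BC.LD
import Pool.Agent.Lib.MP_b4b3cb_nt.BC.ERk

/-! The lemma of Shapiro and descent of the Euler characteristic along a subgroup of index two. -/

set_option linter.unusedSectionVars false

namespace Pool.Agent.BC.Eu

open scoped Classical
open Module Pool.Agent.SP

variable {k : Type} [Field k] {G : Type} [Group G] [TopologicalSpace G]
  {A A' : Type} [AddCommGroup A] [Module k A] [AddCommGroup A'] [Module k A']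
  {H : Subgroup G} (l : IsLocallyConstant (MulAction.toPermHom G (G ⧸ H))) (R : FR k G A)

theorem inv_mk (g c : G) : g⁻¹ • (c : G ⧸ H) = (g⁻¹ * c : G) := rfl

theorem inv_one' {g : G} (hg : g ∈ H) : g⁻¹ • ((1 : G) : G ⧸ H) = (1 : G) :=
  QuotientGroup.eq.2 (by simpa using hg)

theorem fn_zero : (R.fn _ l).H0 ⊓ LinearMap.ker (LinearMap.proj ((1 : G) : G ⧸ H)) = ⊥ :=
  eq_bot_iff.2 fun φ ⟨p, q⟩ => funext fun x => by
    obtain ⟨c, rfl⟩ := QuotientGroup.mk_surjective x
    rw [← (FR.mem_H0 _).1 p c, FR.fn_ac, inv_mk, inv_mul_cancel, show φ _ = 0 from q, map_zero]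
    rfl

variable [Fintype (G ⧸ H)]

theorem fn_h0 [FiniteDimensional k A] : finrank k (R.fn _ l).H0 = finrank k (R.res H).H0 := by
  rw [dim_map (LinearMap.proj ((1 : G) : G ⧸ H)), fn_zero, finrank_bot, add_zero]
  refine congrArg (fun S : Submodule k A => finrank k S) (le_antisymm ?_ fun a ha => ?_)
  · rintro _ ⟨φ, p, rfl⟩
    refine (FR.mem_H0 _).2 fun g => Eq.trans ?_ (congrFun ((FR.mem_H0 _).1 p g) (1 : G))
    rw [FR.fn_ac, inv_one' g.2]
    rfl
  · have e : ∀ c : G, R.ac (c : G ⧸ H).out a = R.ac c a := fun c => by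
      obtain ⟨u, hu⟩ := QuotientGroup.mk_out_eq_mul H c
      rw [hu, R.mul]
      exact congrArg _ ((FR.mem_H0 _).1 ha u)
    refine ⟨fun x => R.ac x.out a, (FR.mem_H0 _).2 fun g => funext fun x => ?_, (e 1).trans (R.one a)⟩
    obtain ⟨c, rfl⟩ := QuotientGroup.mk_surjective x
    rw [FR.fn_ac, inv_mk, e, e, R.mul, R.ac_inv]

theorem fn_pf {R R' β} (hP : Pf (k := k) (G := G) (A := A) (A' := A') R' R β) :
    Pf (R'.fn _ l) (R.fn _ l)
      (∑ x : G ⧸ H, β.compl₁₂ (LinearMap.proj x) (LinearMap.proj x)) := by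
  refine ⟨fun g u v => ?_, fun u h => funext fun x => hP.nl _ fun a => ?_,
    fun u h => funext fun x => hP.nr _ fun a => ?_⟩
  · simp only [LinearMap.sum_apply, LinearMap.compl₁₂_apply, LinearMap.proj_apply, FR.fn_ac, hP.eq]
    exact Equiv.sum_comp (MulAction.toPerm g⁻¹) fun x => β (u x) (v x)
  · simpa [Pi.single_apply, apply_ite] using h (Pi.single x a)
  · have := h (Pi.single x a)
    simp only [LinearMap.sum_apply, LinearMap.compl₁₂_apply, LinearMap.proj_apply] at this
    rwa [Finset.sum_eq_single_of_mem x (Finset.mem_univ x) fun y _ e => by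
      rw [Pi.single_eq_of_ne e, map_zero, LinearMap.zero_apply], Pi.single_eq_same] at this

variable [IsTopologicalGroup G]

theorem fn_z1 [FiniteDimensional k A] [FiniteDimensional k (R.fn _ l).Z1] :
    finrank k (R.fn _ l).Z1 + finrank k A =
      finrank k (R.res H).Z1 + Fintype.card (G ⧸ H) * finrank k A := by
  let f : (G → G ⧸ H → A) →ₗ[k] H → A :=
    LinearMap.pi fun g => LinearMap.proj ((1 : G) : G ⧸ H) ∘ₗ LinearMap.proj g.1
  have e1 : (R.fn _ l).Z1.map f = (R.res H).Z1 := by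
    refine le_antisymm ?_ fun y hy => ?_
    · rintro _ ⟨x, hx, rfl⟩
      refine FR.mk_z1 _ (lc_one (fun φ : G ⧸ H → A => φ (1 : G)) (lc_at hx.1 continuous_subtype_val))
        fun a b => (congrFun (FR.coc hx a b) _).trans ?_
      rw [Pi.add_apply, FR.fn_ac, inv_one' a.2]
      rfl
    · obtain ⟨u, hu⟩ := QuotientGroup.mk_out_eq_mul H 1
      obtain ⟨s, s1, s2⟩ : ∃ s : G ⧸ H → G, (∀ x, (s x : G ⧸ H) = x) ∧ s (1 : G) = 1 :=
        ⟨fun x => x.out * u⁻¹, fun x => (QuotientGroup.mk_mul_of_mem _ (u⁻¹).2).trans x.out_eq,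
          by simp [hu]⟩
      have m : ∀ g x, (s x)⁻¹ * (g * s (g⁻¹ • x)) ∈ H := fun g x => QuotientGroup.eq.1 (by
        rw [← smul_eq_mul, ← MulAction.Quotient.smul_coe, s1, s1, smul_inv_smul])
      refine ⟨fun g x => R.ac (s x) (y ⟨_, m g x⟩), FR.mk_z1 _ (lc_pi fun x => lc_one _
        (lc_at hy.1 ((continuous_const.mul (continuous_id.mul (lc_one
          (fun p : Equiv.Perm (G ⧸ H) => s (p.symm x)) l).continuous)).subtype_mk _)))
        fun g h => funext fun x => ?_, funext fun g => ?_⟩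
      · rw [Pi.add_apply, FR.fn_ac, show (⟨_, m (g * h) x⟩ : H) = ⟨_, m g x⟩ * ⟨_, m h (g⁻¹ • x)⟩
          from Subtype.ext (by simp [mul_smul, mul_assoc]), FR.coc hy, map_add, FR.res_ac, R.mul,
          R.ac_inv, R.mul]
      · change R.ac (s (1 : G)) (y ⟨_, m g (1 : G)⟩) = _
        rw [show (⟨_, m g (1 : G)⟩ : H) = g from Subtype.ext (by simp [inv_one' g.2, s2]), s2,
          R.one]
  have e2 : (R.fn _ l).Z1 ⊓ LinearMap.ker f =
      (LinearMap.ker (LinearMap.proj ((1 : G) : G ⧸ H))).map (R.fn _ l).d1 := by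
    refine le_antisymm ?_ ?_
    · rintro x ⟨hx, h0⟩
      have h0 : ∀ g ∈ H, x g (1 : G) = 0 := fun g hg => congrFun h0 ⟨g, hg⟩
      have h2 : ∀ c : G, x (c : G ⧸ H).out c = x c c := fun c => by
        obtain ⟨u, hu⟩ := QuotientGroup.mk_out_eq_mul H c
        rw [hu, FR.coc hx, Pi.add_apply, FR.fn_ac, inv_mk, inv_mul_cancel, h0 u u.2, map_zero,
          add_zero]
      refine ⟨fun y => -x y.out y, neg_eq_zero.2 ((h2 1).trans (h0 1 (one_mem _))),
        funext fun g => funext fun y => ?_⟩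
      obtain ⟨c, rfl⟩ := QuotientGroup.mk_surjective y
      have := congrFun (FR.coc hx g (g⁻¹ * c)) c
      rw [mul_inv_cancel_left, Pi.add_apply, FR.fn_ac, inv_mk] at this
      rw [FR.d1_apply, Pi.sub_apply, FR.fn_ac, inv_mk, h2, h2, this, map_neg]
      abel
    · rintro _ ⟨φ, p, rfl⟩
      refine ⟨FR.d1_mem _ φ, funext fun g => ?_⟩
      change (R.fn _ l).ac g φ (1 : G) - φ (1 : G) = 0
      rw [FR.fn_ac, inv_one' g.2, show φ _ = 0 from p, map_zero, sub_zero]
  have a := dim_map f (R.fn _ l).Z1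
  have b := dim_map (R.fn _ l).d1 (LinearMap.ker (LinearMap.proj ((1 : G) : G ⧸ H)))
  have d := (LinearMap.proj (R := k) (φ := fun _ => A)
    ((1 : G) : G ⧸ H)).finrank_range_add_finrank_ker
  rw [e1, e2] at a
  rw [inf_comm, show LinearMap.ker (R.fn _ l).d1 ⊓ _ = ⊥ from fn_zero l R, finrank_bot] at b
  rw [LinearMap.range_eq_top.2 (LinearMap.proj_surjective _), finrank_top, finrank_pi_fintype,
    Finset.sum_const, Finset.card_univ, smul_eq_mul] at d
  omega

variable [CharP k 2] [Finite k] [Algebra (ZMod 2) k] [CompactSpace G]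

omit [Fintype (G ⧸ H)] in
theorem two_step (L : LF G) (o : IsOpen (H : Set G)) (h2 : H.index = 2) [FiniteDimensional k A]
    {R R' β} (hP : Pf (k := k) (G := G) (A := A) (A' := A') R' R β) :
    finrank k (R.res H).Z1 + finrank k A + 2 * finrank k R'.H0 =
      2 * finrank k R.Z1 + finrank k (R'.res H).H0 := by
  have := H.quotient_finite_of_isOpen o
  have := Fintype.ofFinite (G ⧸ H)
  have := hP.bij.1
  have l := lc_quot o
  have := (ldm L).fin (R.fn _ l)
  have c : Fintype.card (G ⧸ H) = 2 := by rwa [← Nat.card_eq_fintype_card]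
  obtain ⟨x, y, ne, e⟩ := Finset.card_eq_two.1 c
  have s : ∀ φ : G ⧸ H → A, (∑ x, LinearMap.proj x : _ →ₗ[k] A) φ = ∑ x, φ x := fun φ => by simp
  have a := MIA.dim_add L.top.two (ldm L) (fn_pf l hP) hP hP (i := LinearMap.pi fun _ => .id)
    (q := ∑ x, LinearMap.proj x) (fun _ _ => rfl) (fun g φ => by
      rw [s, s, map_sum]
      exact Equiv.sum_comp (MulAction.toPerm g⁻¹) fun x => R.ac g (φ x))
    (fun _ _ e => congrFun e x) (fun a => ⟨Pi.single x a, by simp⟩) (Submodule.ext fun φ => by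
      rw [LinearMap.mem_ker, s, e, Finset.sum_pair ne]
      refine ⟨fun p => ⟨φ x, funext fun z => ?_⟩, ?_⟩
      · have := Finset.mem_univ z
        rw [e, Finset.mem_insert, Finset.mem_singleton] at this
        rcases this with rfl | rfl
        exacts [rfl, (eq_neg_of_add_eq_zero_left p).trans (neg_eq k _)]
      · rintro ⟨a, rfl⟩
        exact add_self (k := k) a)
  have b := fn_z1 l R
  rw [fn_h0] at a
  rw [c] at b
  omega

omit [Fintype (G ⧸ H)] in
theorem hm_two (L : LF G) (o : IsOpen (H : Set G)) (h2 : H.index = 2) :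
    finrank k (Hm k H) + 2 = 2 * finrank k (Hm k G) := by
  have a := two_step L o h2 (triv_pf (k := k) (G := G))
  rw [show ((triv k G).res H).Z1 = Hm k H from Submodule.ext fun _ => triv_z1,
    show (triv k G).Z1 = Hm k G from Submodule.ext fun _ => triv_z1,
    show ((triv k G).res H).H0 = ⊤ from eq_top_iff.2 fun _ _ => (FR.mem_H0 _).2 fun _ => rfl,
    show (triv k G).H0 = ⊤ from eq_top_iff.2 fun _ _ => (FR.mem_H0 _).2 fun _ => rfl,
    finrank_top, finrank_self] at a
  omega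

omit [Fintype (G ⧸ H)] in
theorem step2 (L : LF G) (H : Subgroup G) (o : IsOpen (H : Set G)) (h2 : H.index = 2)
    [FiniteDimensional k A] (R : FR k G A) (h : FE (R.res H)) : FE R := fun A' _ _ R' β hP => by
  have a := two_step L o h2 hP
  have b := h A' _ β (hP.res H)
  have c := congrArg (· * finrank k A) (hm_two (k := k) L o h2)
  simp only [add_mul, mul_assoc] at c
  omega

end Pool.Agent.BC.Eu
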