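import Pool.Agent.Lib.MP_b4b3cb_nt.BC.AriL

/-! Finite levels that are stable under a decomposition group. -/

namespace Pool.Agent.BC.Eu

open scoped Classical Pointwise
open NumberField Pool.Agent.Stark Pool.Agent.SP
open SC hiding Hm Rp V T Two Cob Sel Spl cup dq Cz Sz res

section Val

variable {F : Type} [Field F] [NumberField F] (q : Pr F)

theorem val_le (e : F ≃+* F)
    (h : ∀ x ∈ q.asIdeal, RingOfIntegers.mapRingEquiv e x ∈ q.asIdeal) (r : 𝓞 F) :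
    q.intValuation (RingOfIntegers.mapRingEquiv e r) ≤ q.intValuation r := by
  by_cases h0 : r = 0
  · simp [h0]
  have h1 := (q.intValuation_if_neg h0).le
  rw [q.intValuation_if_neg h0, q.intValuation_le_pow_iff_mem]
  rw [q.intValuation_le_pow_iff_mem] at h1
  have h2 := Ideal.mem_map_of_mem (RingOfIntegers.mapRingEquiv e) h1
  rw [Ideal.map_pow] at h2
  exact Ideal.pow_right_mono (Ideal.map_le_iff_le_comap.2 h) _ h2

theorem val_inv (e : F ≃+* F)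
    (h : ∀ x, RingOfIntegers.mapRingEquiv e x ∈ q.asIdeal ↔ x ∈ q.asIdeal) (x : F) :
    q.valuation F (e x) = q.valuation F x := by
  have k1 : ∀ r : 𝓞 F, RingOfIntegers.mapRingEquiv e (RingOfIntegers.mapRingEquiv e.symm r) = r :=
    fun r => RingOfIntegers.ext (e.apply_symm_apply _)
  have k2 : ∀ r : 𝓞 F, RingOfIntegers.mapRingEquiv e.symm (RingOfIntegers.mapRingEquiv e r) = r :=
    fun r => RingOfIntegers.ext (e.symm_apply_apply _)
  have key : ∀ r : 𝓞 F, q.valuation F (e r) = q.valuation F (r : F) := fun r => by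
    have h1 := val_le q e (fun x => (h x).2) r
    have h2 := val_le q e.symm (fun x hx => (h _).1 (by rwa [k1])) (RingOfIntegers.mapRingEquiv e r)
    rw [k2] at h2
    exact (q.valuation_of_algebraMap (RingOfIntegers.mapRingEquiv e r)).trans
      ((le_antisymm h1 h2).trans (q.valuation_of_algebraMap r).symm)
  obtain ⟨a, b, -, rfl⟩ := IsFractionRing.div_surjective (𝓞 F) x
  rw [map_div₀, map_div₀, map_div₀]
  exact congrArg₂ (· / ·) (key a) (key b)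

theorem val_hs (n : ℤ) : ∃ x : F, x ≠ 0 ∧ ord (q.valuation F) x = n := by
  obtain ⟨π, hπ⟩ := q.valuation_exists_uniformizer F
  have h0 : π ≠ 0 := by rintro rfl; simp at hπ; exact absurd hπ.symm (by simp)
  exact ⟨π ^ n, zpow_ne_zero _ h0, by rw [ord_zpow, ord, hπ, WithZero.log_exp]; ring⟩

theorem pw_emb (j : ℤ) (x : F) : emb q x ∈ pw (wv q) j ↔ x ∈ pw (q.valuation F) j := by
  rw [mem_pw_iff, mem_pw_iff, ord_emb, map_eq_zero]
  rfl

theorem val_hf (i j : ℤ) : (pw (q.valuation F) j).relIndex (pw (q.valuation F) i) ≠ 0 := by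
  have e : ∀ j, pw (q.valuation F) j = (pw (wv q) j).comap (emb q).toAddMonoidHom := fun j =>
    AddSubgroup.ext fun x => (pw_emb q j x).symm
  rw [e j, AddSubgroup.relIndex_comap]
  refine mt (AddSubgroup.relIndex_eq_zero_of_le_right (L := pw (wv q) i) ?_)
    (AddSubgroup.index_ne_zero_iff_finite.2 (LocAux.fin_pw (isLoc_wv q) i j))
  rintro _ ⟨x, hx, rfl⟩
  exact (pw_emb q i x).2 hx

end Val

variable {K Ω : Type} [Field K] [NumberField K] [Field Ω] [Algebra K Ω] [IsAlgClosed Ω]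
  [IsGalois K Ω] [CharZero Ω] {𝔓 : Ideal (𝓞 Ω)}

theorem exStab {U : Subgroup (Dec K 𝔓)} (nU : U.Normal) (hU : IsOpen (U : Set (Dec K 𝔓))) :
    ∃ (F : IntermediateField K Ω) (_ : FiniteDimensional K F) (_ : NumberField F)
      (σ : Dec K 𝔓 →* Gal(F/K)), (∀ g (x : F), (σ g x : Ω) = g.1 x) ∧
      (∀ g, g ∈ U ↔ g.1 ∈ Gs K Ω F) ∧ σ.ker = U ∧
      ∀ q : Pr F, Over 𝔓 q → ∀ g x, q.valuation F (σ g x) = q.valuation F x := by
  have T := facts K Ω
  obtain ⟨V, V1, V2⟩ := isOpen_induced_iff.1 hU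
  obtain ⟨W, W1, W2, W3⟩ := T.top.nhds V (V1.mem_nhds (V2.ge U.one_mem))
  obtain ⟨-, a, b⟩ := T.top.mid (Dec K 𝔓) W (U.map (Dec K 𝔓).subtype) (T.pr.closed 𝔓) W1 W2
    (fun g hg => ⟨⟨g, hg.1⟩, V2.le (W3 hg.2), rfl⟩) (Subgroup.map_subtype_le U)
  obtain ⟨F, c, e⟩ := T.top.field _ a
  have nf := NumberField.of_module_finite K F
  have mem : ∀ g : Dec K 𝔓, g ∈ U ↔ g.1 ∈ Gs K Ω F := fun g => by
    rw [e]
    refine ⟨fun hg => Subgroup.mem_sup_left ⟨g, hg, rfl⟩, fun hg => ?_⟩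
    obtain ⟨l, l1, l2⟩ := b.le ⟨g.2, hg⟩
    exact (Subtype.ext l2 : l = g) ▸ l1
  have cj : ∀ g : Dec K 𝔓, ∀ h ∈ Gs K Ω F, g.1⁻¹ * h * g.1 ∈ Gs K Ω F := fun g h hh => by
    rw [e] at hh ⊢
    obtain ⟨_, ⟨u, hu, rfl⟩, z, hz, rfl⟩ := Subgroup.mem_sup_of_normal_right.1 hh
    rw [show g.1⁻¹ * ((Dec K 𝔓).subtype u * z) * g.1 =
      (g⁻¹ * u * g : Dec K 𝔓).1 * (g.1⁻¹ * z * g.1) by simp [mul_assoc]]
    exact Subgroup.mul_mem_sup ⟨_, nU.conj_mem' u hu g, rfl⟩ (W2.conj_mem' z hz g.1)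
  have st : ∀ (g : Dec K 𝔓) (x : F), g.1 x ∈ F := fun g x => by
    obtain ⟨y, hy⟩ := T.top.gs_fix F (g.1 x) fun h hh => by
      have := congrArg g.1 (cj g h hh x)
      rwa [← AlgEquiv.mul_apply, ← mul_assoc, ← mul_assoc, mul_inv_cancel, one_mul] at this
    exact hy ▸ y.2
  let τ : Dec K 𝔓 →* (F →ₐ[K] F) :=
    { toFun := fun g => ((g.1 : Ω →ₐ[K] Ω).comp F.val).codRestrict F.toSubalgebra (st g)
      map_one' := rfl
      map_mul' := fun _ _ => rfl }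
  let σ : Dec K 𝔓 →* Gal(F/K) := (AlgEquiv.algHomUnitsEquiv K F).toMonoidHom.comp τ.toHomUnits
  have hσ : ∀ g (x : F), (σ g x : Ω) = g.1 x := fun _ _ => rfl
  refine ⟨F, c, nf, σ, hσ, mem, Subgroup.ext fun g => ?_, fun q hq g => ?_⟩
  · rw [mem, MonoidHom.mem_ker]
    exact ⟨fun h x => (hσ g x).symm.trans (by rw [h]; rfl),
      fun h => AlgEquiv.ext fun x => Subtype.ext (h x)⟩
  · refine val_inv q (σ g).toRingEquiv fun x => ?_
    rw [hq.2, hq.2, ← (T.pr.mem_dec 𝔓 g.1).1 g.2 (algebraMap (𝓞 F) (𝓞 Ω) x)]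
    rfl

end Pool.Agent.BC.Eu
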