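import Pool.Agent.Lib.MP_b4b3cb_nt.BC.Defs
import Pool.Agent.Lib.MP_b4b3cb_nt.Syl

/-! Devissage: from permutation modules of odd degree to all finite modules. -/

set_option linter.unusedSectionVars false

namespace Pool.Agent.BC

open scoped Classical
open Module Pool.Agent.SP

variable {k : Type} [Field k] {G : Type} [Group G] [TopologicalSpace G]
  {A : Type} [AddCommGroup A] [Module k A]

/-- A stable subspace as a representation. -/
def FR.sub (R : FR k G A) (V : Submodule k A) (hV : ∀ g, ∀ v ∈ V, R.ac g v ∈ V) : FR k G V where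
  ac :=
    { toFun := fun g => (R.ac g).restrict (hV g)
      map_one' := LinearMap.ext fun v => Subtype.ext (R.one v)
      map_mul' := fun g h => LinearMap.ext fun v => Subtype.ext (R.mul g h v) }
  lc := (IsLocallyConstant.iff_eventually_eq _).2 fun x => (R.lc.eventually_eq x).mono
    fun _ e => LinearMap.ext fun v => Subtype.ext (LinearMap.congr_fun e v)

theorem FR.sub_ac (R : FR k G A) (V : Submodule k A) (hV : ∀ g, ∀ v ∈ V, R.ac g v ∈ V) (g : G)
    (v : V) : ((R.sub V hV).ac g v : A) = R.ac g v := rfl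

theorem FR.sub_eqv (R : FR k G A) (V : Submodule k A) (hV : ∀ g, ∀ v ∈ V, R.ac g v ∈ V) :
    Eqv (R.sub V hV) R V.subtype := fun _ _ => rfl

/-- The quotient by a stable subspace as a representation. -/
def FR.quo (R : FR k G A) (V : Submodule k A) (hV : ∀ g, ∀ v ∈ V, R.ac g v ∈ V) :
    FR k G (A ⧸ V) where
  ac :=
    { toFun := fun g => V.mapQ V (R.ac g) (hV g)
      map_one' := V.linearMap_qext (LinearMap.ext fun v => congrArg V.mkQ (R.one v))
      map_mul' := fun g h => V.linearMap_qext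
        (LinearMap.ext fun v => congrArg V.mkQ (R.mul g h v)) }
  lc := (IsLocallyConstant.iff_eventually_eq _).2 fun x => (R.lc.eventually_eq x).mono
    fun _ e => V.linearMap_qext (LinearMap.ext fun v => congrArg V.mkQ (LinearMap.congr_fun e v))

theorem FR.quo_eqv (R : FR k G A) (V : Submodule k A) (hV : ∀ g, ∀ v ∈ V, R.ac g v ∈ V) :
    Eqv R (R.quo V hV) V.mkQ := fun _ _ => rfl

/-- Functions on a set with an action, with values in a representation. -/
def FR.fn (R : FR k G A) (X : Type) [MulAction G X]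
    (h : IsLocallyConstant (MulAction.toPermHom G X)) : FR k G (X → A) where
  ac :=
    { toFun := fun g => LinearMap.pi fun x => R.ac g ∘ₗ LinearMap.proj (g⁻¹ • x)
      map_one' := by ext; simp
      map_mul' := fun g l => by ext; simp [mul_smul] }
  lc := lc_two (fun (M : Module.End k A) (s : Equiv.Perm X) =>
    (LinearMap.pi fun x => M ∘ₗ LinearMap.proj (s.symm x) : Module.End k (X → A))) R.lc h

theorem FR.fn_ac (R : FR k G A) {X : Type} [MulAction G X]
    (h : IsLocallyConstant (MulAction.toPermHom G X)) (g : G) (φ : X → A) (x : X) :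
    (R.fn X h).ac g φ x = R.ac g (φ (g⁻¹ • x)) := rfl

namespace Dev

theorem lc_of_ker [IsTopologicalGroup G] {M : Type} [Monoid M] (f : G →* M) (U : Subgroup G)
    (hU : IsOpen (U : Set G)) (h : ∀ u ∈ U, f u = 1) : IsLocallyConstant f :=
  (IsLocallyConstant.iff_eventually_eq _).2 fun x => by
    have : ∀ᶠ y in nhds x, x⁻¹ * y ∈ U :=
      (hU.preimage (continuous_const.mul continuous_id)).mem_nhds (by simp)
    exact this.mono fun y e => by
      rw [← mul_inv_cancel_left x y, map_mul, h _ e, mul_one]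

theorem ker_open (R : FR k G A) : IsOpen (R.ac.ker : Set G) := R.lc.isOpen_fiber 1

/-- Every nonzero stable subspace carries a nonzero invariant functional. -/
def Inv (R : FR k G A) (N : Subgroup G) : Prop :=
  ∀ W : Submodule k A, (∀ g ∈ N, ∀ w ∈ W, R.ac g w ∈ W) → W ≠ ⊥ →
    ∃ l : Dual k A, (∃ w ∈ W, l w ≠ 0) ∧ ∀ g ∈ N, ∀ w ∈ W, l (R.ac g w) = l w

theorem inv_step [CharP k 2] (R : FR k G A) {N N' : Subgroup G} (le : N ≤ N')
    (h2 : N.relIndex N' = 2) (h : Inv R N) : Inv R N' := by
  intro W hW h0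
  obtain ⟨l, ⟨w, w1, w2⟩, hl⟩ := h W (fun g hg => hW g (le hg)) h0
  obtain ⟨s, hs, hx⟩ := Subgroup.relIndex_eq_two_iff.1 h2
  have s1 : s ∉ N := fun c => by
    rcases hx 1 N'.one_mem with ⟨_, e⟩ | ⟨_, e⟩
    · exact e N.one_mem
    · exact e (by rwa [one_mul])
  have k1 : ∀ g ∈ N', g ∉ N → g * s ∈ N := fun g hg c => by
    rcases hx g hg with ⟨e, _⟩ | ⟨e, _⟩
    · exact e
    · exact absurd e c
  have k2 : ∀ g ∈ N', g ∉ N → ∀ w ∈ W, l (R.ac g w) = l (R.ac s⁻¹ w) := fun g hg c w hw => by
    rw [← hl _ (k1 g hg c) _ (hW _ (N'.inv_mem hs) w hw), ← R.mul, mul_inv_cancel_right]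
  have k3 : ∀ g ∈ N', ∀ w ∈ W, l (R.ac g w) + l (R.ac s⁻¹ (R.ac g w)) =
      l w + l (R.ac s⁻¹ w) := fun g hg w hw => by
    have m := N'.mul_mem (N'.inv_mem hs) hg
    rw [← R.mul]
    by_cases c : g ∈ N
    · rw [hl g c w hw, k2 _ m (fun d => s1 ?_) w hw]
      simpa using N.inv_mem (N.mul_mem d (N.inv_mem c))
    · rw [k2 g hg c w hw, add_comm, hl _ ?_ w hw]
      have := k1 g⁻¹ (N'.inv_mem hg) (fun d => c (by simpa using N.inv_mem d))
      simpa using N.inv_mem this
  by_cases c : ∃ w ∈ W, (l + l ∘ₗ R.ac s⁻¹) w ≠ 0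
  · exact ⟨_, c, k3⟩
  · refine ⟨l, ⟨w, w1, w2⟩, fun g hg w hw => ?_⟩
    by_cases d : g ∈ N
    · exact hl g d w hw
    · rw [k2 g hg d w hw]
      have : l w + l (R.ac s⁻¹ w) = 0 := by
        by_contra e
        exact c ⟨w, hw, e⟩
      grind

theorem exists_odd [CharP k 2] [IsTopologicalGroup G] [CompactSpace G] (R : FR k G A) :
    ∃ H : Subgroup G, R.ac.ker ≤ H ∧ Odd H.index ∧ Inv R H := by
  have : Finite (G ⧸ R.ac.ker) := Subgroup.quotient_finite_of_isOpen _ (ker_open R)
  have : R.ac.ker.FiniteIndex := Subgroup.finiteIndex_of_finite_quotient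
  obtain ⟨H, h1, -, h2, h3⟩ := SC.st_Syl G ⊤ R.ac.ker inferInstance this (Inv R)
    (fun W _ h0 => by
      obtain ⟨w, w1, w2⟩ := (Submodule.ne_bot_iff W).1 h0
      obtain ⟨l, hl⟩ := not_forall.1 (mt (forall_dual_apply_eq_zero_iff k w).1 w2)
      exact ⟨l, ⟨w, w1, hl⟩, fun g hg w _ => by rw [MonoidHom.mem_ker.1 hg.2]; rfl⟩)
    fun N N' _ le _ h2 h => inv_step R le h2 h
  exact ⟨H, by simpa using h1, by simpa using h2, h3⟩

/-- The induced module of a subspace. -/
def B (R : FR k G A) (H : Subgroup G) (W : Submodule k A) : Submodule k (G ⧸ H → A) where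
  carrier := {φ | ∀ c : G, R.ac c⁻¹ (φ c) ∈ W}
  add_mem' := fun ha hb c => by
    rw [Pi.add_apply, map_add]
    exact add_mem (ha c) (hb c)
  zero_mem' := fun c => by simp
  smul_mem' := fun r _ ha c => by
    rw [Pi.smul_apply, map_smul]
    exact W.smul_mem r (ha c)

theorem B_st (R : FR k G A) (H : Subgroup G) (W : Submodule k A)
    (h : IsLocallyConstant (MulAction.toPermHom G (G ⧸ H))) (g : G) :
    ∀ φ ∈ B R H W, (R.fn _ h).ac g φ ∈ B R H W := fun φ hφ c => by
  have := hφ (g⁻¹ * c)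
  rwa [mul_inv_rev, inv_inv, R.mul] at this

end Dev

open Dev

theorem deviss [CharP k 2] [IsTopologicalGroup G] [CompactSpace G]
    (Q : ∀ (A : Type) [AddCommGroup A] [Module k A], FR k G A → Prop)
    (base : ∀ H : Subgroup G, IsOpen (H : Set G) → Odd H.index →
      ∀ h : IsLocallyConstant (MulAction.toPermHom G (G ⧸ H)), Q _ (perm k (G ⧸ H) h))
    (zero : ∀ (A : Type) [AddCommGroup A] [Module k A] (R : FR k G A), Subsingleton A → Q A R)
    (ext : ∀ (A₁ A A₂ : Type) [AddCommGroup A₁] [Module k A₁] [FiniteDimensional k A₁]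
      [AddCommGroup A] [Module k A] [FiniteDimensional k A] [AddCommGroup A₂] [Module k A₂]
      [FiniteDimensional k A₂] (R₁ : FR k G A₁) (R : FR k G A) (R₂ : FR k G A₂)
      (i : A₁ →ₗ[k] A) (p : A →ₗ[k] A₂), Eqv R₁ R i → Eqv R R₂ p → Function.Injective i →
      Function.Surjective p → LinearMap.ker p = LinearMap.range i → Q A₁ R₁ → Q A₂ R₂ → Q A R)
    (ret : ∀ (A B : Type) [AddCommGroup A] [Module k A] [FiniteDimensional k A]
      [AddCommGroup B] [Module k B] [FiniteDimensional k B] (R : FR k G A) (R' : FR k G B)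
      (i : A →ₗ[k] B) (p : B →ₗ[k] A), Eqv R R' i → Eqv R' R p → (∀ a, p (i a) = a) →
      Q B R' → Q A R)
    (A : Type) [AddCommGroup A] [Module k A] [FiniteDimensional k A] (R : FR k G A) : Q A R := by
  obtain ⟨H, h1, h2, h3⟩ := exists_odd R
  have ho : IsOpen (H : Set G) := Subgroup.isOpen_mono h1 (ker_open R)
  have : Finite (G ⧸ H) := Subgroup.quotient_finite_of_isOpen _ ho
  have := Fintype.ofFinite (G ⧸ H)
  have h : IsLocallyConstant (MulAction.toPermHom G (G ⧸ H)) :=
    lc_of_ker _ _ (ker_open R) fun u hu => Equiv.ext fun x => by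
      induction x using QuotientGroup.induction_on with
      | H c =>
        refine QuotientGroup.eq.2 (h1 ?_)
        have := (inferInstance : R.ac.ker.Normal).conj_mem _ (R.ac.ker.inv_mem hu) c⁻¹
        simpa [mul_assoc] using this
  have key : ∀ n, ∀ W : Submodule k A, finrank k W = n → (∀ g ∈ H, ∀ w ∈ W, R.ac g w ∈ W) →
      Q _ ((R.fn _ h).sub (B R H W) (B_st R H W h)) := by
    intro n
    induction n using Nat.strong_induction_on with
    | _ n ih =>
      intro W hn hW
      by_cases h0 : W = ⊥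
      · refine zero _ _ ⟨fun a b => Subtype.ext (funext fun x => ?_)⟩
        induction x using QuotientGroup.induction_on with
        | H c =>
          have ha := (Submodule.mem_bot k).1 (h0.le (a.2 c))
          have hb := (Submodule.mem_bot k).1 (h0.le (b.2 c))
          rw [← R.ac_inv c (a.1 c), ← R.ac_inv c (b.1 c), ha, hb]
      obtain ⟨l, ⟨w, w1, w2⟩, hl⟩ := h3 W hW h0
      have le : B R H (W ⊓ LinearMap.ker l) ≤ B R H W := fun φ hφ c => (hφ c).1
      have lt : W ⊓ LinearMap.ker l < W := lt_of_le_of_ne inf_le_left fun e =>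
        w2 (e.ge w1).2
      have ho' : ∀ (x : G ⧸ H) (c : G), (c : G ⧸ H) = x → c⁻¹ * x.out ∈ H := fun x c e =>
        QuotientGroup.eq.1 (e.trans x.out_eq'.symm)
      let p : B R H W →ₗ[k] (G ⧸ H → k) :=
        (LinearMap.pi fun x => l ∘ₗ R.ac (x.out)⁻¹ ∘ₗ LinearMap.proj x) ∘ₗ (B R H W).subtype
      have hp : ∀ (φ : B R H W) (c : G), p φ c = l (R.ac c⁻¹ (φ.1 c)) := fun φ c => by
        have a := φ.2 (c : G ⧸ H).out
        rw [QuotientGroup.out_eq'] at a
        have := hl _ (ho' _ c rfl) _ a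
        rw [← R.mul, mul_inv_cancel_right] at this
        exact this.symm
      refine ext _ _ _ _ _ _ (Submodule.inclusion le) p (fun _ _ => rfl) (fun g φ => ?_)
        (Submodule.inclusion_injective le) (fun f => ?_) ?_
        (ih _ (hn ▸ Submodule.finrank_lt_finrank_of_lt lt) _ rfl fun g hg v hv =>
          ⟨hW g hg v hv.1, (hl g hg v hv.1).trans hv.2⟩) (base H ho h2 h)
      · funext x
        induction x using QuotientGroup.induction_on with
        | H c =>
          have := hp φ (g⁻¹ * c)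
          rw [mul_inv_rev, inv_inv, R.mul] at this
          exact (hp _ c).trans this.symm
      · refine ⟨⟨fun x => (f x * (l w)⁻¹) • R.ac x.out w, fun c => ?_⟩, funext fun x => ?_⟩
        · rw [map_smul, ← R.mul]
          exact W.smul_mem _ (hW _ (ho' _ c rfl) w w1)
        · change l (R.ac (x.out)⁻¹ ((f x * (l w)⁻¹) • R.ac x.out w)) = f x
          rw [map_smul, R.inv_ac, map_smul, smul_eq_mul, inv_mul_cancel_right₀ w2]
      · ext φ
        constructor
        · intro e
          exact ⟨⟨φ.1, fun c => ⟨φ.2 c, (hp φ c).symm.trans (congrFun e c)⟩⟩, rfl⟩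
        · rintro ⟨ψ, rfl⟩
          funext x
          induction x using QuotientGroup.induction_on with
          | H c => exact (hp _ c).trans (ψ.2 c).2
  refine ret _ _ _ _ ((LinearMap.pi fun _ => LinearMap.id).codRestrict (B R H ⊤) fun _ _ => trivial)
    ((∑ x, LinearMap.proj x) ∘ₗ (B R H ⊤).subtype) (fun _ _ => rfl) (fun g φ => ?_) (fun a => ?_)
    (key _ ⊤ rfl fun _ _ _ _ => trivial)
  · simp only [LinearMap.comp_apply, LinearMap.sum_apply, LinearMap.proj_apply, map_sum]
    exact Equiv.sum_comp (MulAction.toPerm g⁻¹) fun x => R.ac g (φ.1 x)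
  · simp only [LinearMap.comp_apply, LinearMap.sum_apply, LinearMap.proj_apply]
    change ∑ _ : G ⧸ H, a = a
    obtain ⟨m, hm⟩ := h2
    rw [Finset.sum_const, Finset.card_univ, ← Nat.card_eq_fintype_card, ← Subgroup.index, hm,
      add_smul, one_smul, mul_smul, two_smul, add_self (k := k), zero_add]

end Pool.Agent.BC
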