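import Pool.Agent.Lib.MP_b4b3cb_nt.BC.Ann
import Pool.Agent.Lib.MP_b4b3cb_nt.BC.Dev

/-! Unramified classes at an odd place and the local Euler characteristic. -/

set_option linter.unusedSectionVars false

namespace Pool.Agent.BC

open scoped Classical
open Module Pool.Agent.SP

variable {k : Type} [Field k] {G : Type} [Group G] [TopologicalSpace G]
  {A A' : Type} [AddCommGroup A] [Module k A] [AddCommGroup A'] [Module k A']
  {I : Subgroup G} {σ : G}

namespace MIA

/-- The values of the primitive on the powers of the generator. -/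
def sq (R : FR k G A) (ξ : G → G → A) (σ : G) (a : A) : ℕ → A
  | 0 => ξ 1 1
  | j + 1 => sq R ξ σ a j + R.ac (σ ^ j) a - ξ (σ ^ j) σ

theorem sq_coc {R : FR k G A} {ξ : G → G → A} (h : R.Z2 ξ) (σ : G) (a : A) (i j : ℕ) :
    ξ (σ ^ i) (σ ^ j) = sq R ξ σ a i + R.ac (σ ^ i) (sq R ξ σ a j) - sq R ξ σ a (i + j) := by
  induction j with
  | zero => rw [pow_zero, h.one_right, add_zero, sq, add_sub_cancel_left]
  | succ j ih =>
    have e := h.2 (σ ^ i) (σ ^ j) σ
    rw [← pow_succ, ← pow_add, ih] at e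
    rw [← add_assoc, sq, sq, map_sub, map_add, ← R.mul, ← pow_add, eq_sub_of_add_eq' e]
    abel

/-- The elements that fix all the data. -/
def fx (R : FR k G A) (ξ : G → G → A) (a : A) : Subgroup G where
  carrier := {w | (∀ g h, ξ (g * w) h = ξ g h) ∧ (∀ g h, ξ g (h * w) = ξ g h) ∧
    (∀ g h, R.ac w (ξ g h) = ξ g h) ∧ R.ac w a = a}
  mul_mem' := fun {v w} hv hw => ⟨fun g h => by rw [← mul_assoc, hw.1, hv.1],
    fun g h => by rw [← mul_assoc, hw.2.1, hv.2.1],
    fun g h => by rw [R.mul, hw.2.2.1, hv.2.2.1], by rw [R.mul, hw.2.2.2, hv.2.2.2]⟩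
  one_mem' := ⟨fun g h => by rw [mul_one], fun g h => by rw [mul_one], fun g h => R.one _, R.one _⟩
  inv_mem' := fun {w} hw => ⟨fun g h => by rw [← hw.1, inv_mul_cancel_right],
    fun g h => by rw [← hw.2.1, inv_mul_cancel_right],
    fun g h => by rw [← hw.2.2.1 g h, R.inv_ac, hw.2.2.1], by
      have := R.inv_ac w a
      rwa [hw.2.2.2] at this⟩

theorem un_fix (nor : I.Normal) {R : FR k G A} {x : G → A} (hx : x ∈ R.Un I) (h : G) {i : G}
    (hi : i ∈ I) : R.ac i (x h) = x h := by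
  have e1 := FR.coc hx.1 i h
  have e2 := FR.coc hx.1 h (h⁻¹ * i * h⁻¹⁻¹)
  rw [hx.2 _ (nor.conj_mem i hi h⁻¹), map_zero, add_zero, inv_inv, ← mul_assoc, ← mul_assoc,
    mul_inv_cancel, one_mul] at e2
  rw [hx.2 i hi, zero_add, e2] at e1
  exact e1.symm

variable [CharP k 2] [IsTopologicalGroup G] [CompactSpace G]

theorem u0 (p : PC I σ) (R : FR k G A) (ξ : G → G → A) (a : A) (h : R.Z2 ξ) (h2 : Inf2 I ξ)
    (h3 : ∀ g h, ∀ i ∈ I, R.ac i (ξ g h) = ξ g h) (h4 : ∀ i ∈ I, R.ac i a = a) :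
    ∃ φ, IsLocallyConstant φ ∧ Inf I φ ∧ φ σ = a ∧ ∀ g h, ξ g h = R.d2 φ g h := by
  obtain ⟨U0, o0, -, i0⟩ := unif2 h.1
  have nor := p.nor
  have oV : IsOpen (fx R ξ a : Set G) :=
    Subgroup.isOpen_mono (H₁ := U0 ⊓ R.ac.ker) (fun w hw => by
      have e : R.ac w = 1 := hw.2
      exact ⟨fun g l => (i0 g l w hw.1).1, fun g l => (i0 g l w hw.1).2,
        fun g l => by rw [e]; rfl, by rw [e]; rfl⟩) (o0.inter R.ker_open)
  set W := (fx R ξ a).normalCore with hW
  have oW : IsOpen (W : Set G) := core_open oV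
  have nW : W.Normal := inferInstance
  have lW : W ≤ fx R ξ a := Subgroup.normalCore_le _
  have IW : I ≤ W := Subgroup.normal_le_normalCore.2 fun i hi =>
    ⟨fun g l => (h2 g l i hi).1, fun g l => (h2 g l i hi).2, fun g l => h3 g l i hi, h4 i hi⟩
  have fW : Finite (G ⧸ W) := W.quotient_finite_of_isOpen oW
  set m := orderOf (σ : G ⧸ W) with hm
  have m0 : 0 < m := orderOf_pos _
  have md : ∀ n, σ ^ n ∈ W ↔ m ∣ n := fun n => by
    rw [hm, orderOf_dvd_iff_pow_eq_one, ← QuotientGroup.mk_pow, QuotientGroup.eq_one_iff]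
  obtain ⟨U1, o1, n1, l1, d1⟩ := p.div m
  set s := sq R ξ σ a with hs
  have sm : σ ^ m ∈ fx R ξ a := lW ((md m).2 dvd_rfl)
  have ss : ∀ j, s (j + 1) = s j + R.ac (σ ^ j) a - ξ (σ ^ j) σ := fun _ => rfl
  have c1 : ∀ j, s (j + m) = s j + (s m - s 0) := fun j => by
    induction j with
    | zero => rw [zero_add, add_sub_cancel]
    | succ j ih =>
      rw [Nat.add_right_comm, ss, ss, ih, pow_add, R.mul, sm.2.2.2, sm.1]
      abel
  have c2 : ∀ t j, s (j + m * (2 * t)) = s j := fun t => by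
    induction t with
    | zero => simp
    | succ t ih =>
      intro j
      rw [show j + m * (2 * (t + 1)) = j + m * (2 * t) + m + m by ring, c1, c1, ih, add_assoc,
        add_self (k := k), add_zero]
  have c3 : ∀ j n, σ ^ n ∈ W ⊓ U1 → s (j + n) = s j := fun j n hn => by
    obtain ⟨t, rfl⟩ := (md n).1 hn.1
    rcases Nat.even_or_odd' t with ⟨r, rfl | rfl⟩
    · exact c2 r j
    · have := (Nat.Coprime.pow_left m (by simp : Nat.Coprime 2 (2 * r + 1))).dvd_of_dvd_mul_right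
        (d1 _ hn.2)
      exact absurd (Nat.le_of_dvd m0 this) (not_le.2 Nat.lt_two_pow_self)
  have c4 : ∀ j, ∀ w ∈ W, R.ac w (s j) = s j := fun j w hw => by
    induction j with
    | zero => exact (lW hw).2.2.1 1 1
    | succ j ih =>
      have := (lW (nW.conj_mem w hw (σ ^ j)⁻¹)).2.2.2
      rw [inv_inv, R.mul, R.mul] at this
      have e := congrArg (R.ac (σ ^ j)) this
      rw [R.ac_inv] at e
      rw [ss, map_sub, map_add, ih, e, (lW hw).2.2.1]
  set U := W ⊓ U1 with hU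
  have oU : IsOpen (U : Set G) := oW.inter o1
  have nU : U.Normal := inferInstance
  have fU : Finite (G ⧸ U) := U.quotient_finite_of_isOpen oU
  have ex : ∀ g : G, ∃ j : ℕ, ((σ ^ j : G) : G ⧸ U) = g := fun g => by
    have := p.gen ((Subgroup.zpowers (σ : G ⧸ U)).comap (QuotientGroup.mk' U))
      (Subgroup.isOpen_mono (H₁ := U) (fun u hu => by
        rw [Subgroup.mem_comap, QuotientGroup.mk'_apply, (QuotientGroup.eq_one_iff u).2 hu]
        exact one_mem _) oU)
      (fun u hu => by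
        rw [Subgroup.mem_comap, QuotientGroup.mk'_apply,
          (QuotientGroup.eq_one_iff u).2 (show u ∈ U from ⟨IW hu, l1 hu⟩)]
        exact one_mem _) (Subgroup.mem_zpowers _)
    have hg : (g : G ⧸ U) ∈ Subgroup.zpowers (σ : G ⧸ U) := this.ge (Subgroup.mem_top g)
    obtain ⟨j, hj⟩ := mem_powers_iff_mem_zpowers.2 hg
    exact ⟨j, (QuotientGroup.mk_pow U σ j).trans hj⟩
  have wd : ∀ i j : ℕ, ((σ ^ i : G) : G ⧸ U) = (σ ^ j : G) → s i = s j := fun i j e => by
    wlog le : i ≤ j generalizing i j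
    · exact (this j i e.symm (le_of_not_ge le)).symm
    obtain ⟨n, rfl⟩ := Nat.exists_eq_add_of_le le
    have := QuotientGroup.eq.1 e
    rw [pow_add, inv_mul_cancel_left] at this
    exact (c3 i n this).symm
  choose J hJ using ex
  have iU : Inf U fun g => s (J g) := fun g u hu => wd _ _ (by
    rw [hJ, hJ, QuotientGroup.mk_mul, (QuotientGroup.eq_one_iff u).2 hu, mul_one])
  refine ⟨fun g => s (J g), lc_of_inf oU iU, iU.mono fun u hu => ⟨IW hu, l1 hu⟩, ?_, fun g l => ?_⟩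
  · beta_reduce
    rw [wd (J σ) 1 (by rw [hJ, pow_one]), hs, sq, sq, pow_zero, R.one, h.one_left σ,
      add_sub_cancel_left]
  · have a1 : (σ ^ J g)⁻¹ * g ∈ W := (QuotientGroup.eq.1 (hJ g)).1
    have a2 : (σ ^ J l)⁻¹ * l ∈ W := (QuotientGroup.eq.1 (hJ l)).1
    have b1 := (lW a1).1 (σ ^ J g) l
    have b2 := (lW a2).2.1 (σ ^ J g) (σ ^ J l)
    have b3 := congrArg (R.ac (σ ^ J g)) (c4 (J l) _ a1)
    rw [mul_inv_cancel_left] at b1 b2
    rw [← R.mul, mul_inv_cancel_left] at b3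
    rw [FR.d2, b1, b2, b3, sq_coc h σ a, wd (J (g * l)) (J g + J l) (by
      rw [hJ, pow_add, QuotientGroup.mk_mul, QuotientGroup.mk_mul, hJ, hJ])]

theorem un_sz (p : PC I σ) {β : A' →ₗ[k] A →ₗ[k] k} {R : FR k G A} {R' : FR k G A'}
    (hP : Pf R' R β) {y : G → A'} (hy : y ∈ R'.Un I) {x : G → A} (hx : x ∈ R.Un I) :
    Sz (c11 β R y x) := by
  obtain ⟨φ, a, -, -, b⟩ := u0 p (triv k G) (c11 β R y x) 0 (cz_c11 hP hy.1 hx.1)
    (fun g h i hi => ⟨by
      rw [c11, c11, (FR.inf_iff hy.1).2 hy.2 g i hi, R.mul, un_fix p.nor hx h hi], by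
      rw [c11, c11, (FR.inf_iff hx.1).2 hx.2 h i hi]⟩) (fun _ _ _ _ => rfl) fun _ _ => rfl
  exact ⟨φ, a, b⟩

theorem dimU (p : PC I σ) [FiniteDimensional k A] (R : FR k G A) :
    finrank k (R.Un I ⊔ R.B1 : Submodule k _) = finrank k A := by
  let ev : R.Un I →ₗ[k] (R.res I).H0 :=
    ((LinearMap.proj σ) ∘ₗ (R.Un I).subtype).codRestrict _ fun x =>
      (R.res I).mem_H0.2 fun i => un_fix p.nor x.2 σ i.2
  have bi : Function.Bijective ev := by
    refine ⟨(injective_iff_map_eq_zero _).2 fun x hx => Subtype.ext (funext fun g => ?_),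
      fun a => ?_⟩
    · exact (p.gen (FR.zs x.2.1) (x.2.1.1.isOpen_fiber 0) x.2.2 (congrArg Subtype.val hx)).ge
        (Subgroup.mem_top g)
    · obtain ⟨φ, a1, a2, a3, a4⟩ := u0 p R 0 a ⟨IsLocallyConstant.const _, by simp⟩
        (fun _ _ _ _ => ⟨rfl, rfl⟩) (by simp) fun i hi => (R.res I).mem_H0.1 a.2 ⟨i, hi⟩
      have z : φ ∈ R.Z1 := ⟨a1, fun g h => (a4 g h).symm⟩
      exact ⟨⟨φ, z, (FR.inf_iff z).1 a2⟩, Subtype.ext a3⟩
  have e1 := (LinearEquiv.ofBijective ev bi).finrank_eq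
  have f1 := (LinearEquiv.ofBijective ev bi).symm.finiteDimensional
  have e2 := Submodule.finrank_sup_add_finrank_inf_eq (R.Un I) R.B1
  have e3 := LinearMap.finrank_range_add_finrank_ker (R.d1.domRestrict (R.res I).H0)
  have le : R.H0 ≤ (R.res I).H0 := fun u hu => (R.res I).mem_H0.2 fun i => R.mem_H0.1 hu i
  have r1 : LinearMap.range (R.d1.domRestrict (R.res I).H0) = R.Un I ⊓ R.B1 := by
    ext x
    constructor
    · rintro ⟨u, rfl⟩
      exact ⟨⟨R.d1_mem u, fun i hi => sub_eq_zero.2 ((R.res I).mem_H0.1 u.2 ⟨i, hi⟩)⟩, u, rfl⟩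
    · rintro ⟨h, u, rfl⟩
      exact ⟨⟨u, (R.res I).mem_H0.2 fun i => sub_eq_zero.1 (h.2 i i.2)⟩, rfl⟩
  have r2 : LinearMap.ker (R.d1.domRestrict (R.res I).H0) = R.H0.submoduleOf (R.res I).H0 := rfl
  rw [r1, r2, (Submodule.submoduleOfEquivOfLe le).finrank_eq] at e3
  have e4 := R.rank_B1
  omega

theorem un_le {β : A' →ₗ[k] A →ₗ[k] k} {R : FR k G A} {R' : FR k G A'} (p : PC I σ)
    (hP : Pf R' R β) : R'.Un I ⊔ R'.B1 ≤ ann β R' R (R.Un I) :=
  sup_le (fun _ hy => ⟨hy.1, fun _ hx => un_sz p hP hy hx⟩) (b1_le_ann hP fun _ hx => hx.1)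

variable [Finite k] [Algebra (ZMod 2) k]

theorem dim_ge (H : Two G) (L : LDm k G) (p : PC I σ) [FiniteDimensional k A]
    {β : A' →ₗ[k] A →ₗ[k] k} {R : FR k G A} {R' : FR k G A'} (hP : Pf R' R β) :
    finrank k A + finrank k R'.H0 ≤ finrank k R.Z1 := by
  obtain ⟨f', d', -⟩ := hP.bij
  have := L.fin R
  have := Submodule.finiteDimensional_of_le (ann_le (β := β.flip) (R := R') (R' := R)
    (Y := R'.Un I))
  have e1 := dim_ann H L hP.flip (Y := R'.Un I ⊔ R'.B1) le_sup_right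
    (sup_le (fun _ h => h.1) R'.B1_le)
  rw [ann_sup_b1 hP.flip, dimU p] at e1
  have e2 := Submodule.finrank_mono (un_le p hP.flip)
  rw [dimU p] at e2
  have e3 := R'.rank_B1
  omega

/-- The Euler characteristic is additive. -/
theorem dim_add (H : Two G) (L : LDm k G) {A₁ A₁' A₂ A₂' : Type} [AddCommGroup A₁] [Module k A₁]
    [AddCommGroup A₁'] [Module k A₁'] [AddCommGroup A₂] [Module k A₂] [AddCommGroup A₂']
    [Module k A₂'] [FiniteDimensional k A] [FiniteDimensional k A₁] [FiniteDimensional k A₂]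
    {β : A' →ₗ[k] A →ₗ[k] k} {R : FR k G A} {R' : FR k G A'} (hP : Pf R' R β)
    {β₁ : A₁' →ₗ[k] A₁ →ₗ[k] k} {R₁ : FR k G A₁} {R₁' : FR k G A₁'} (h₁ : Pf R₁' R₁ β₁)
    {β₂ : A₂' →ₗ[k] A₂ →ₗ[k] k} {R₂ : FR k G A₂} {R₂' : FR k G A₂'} (h₂ : Pf R₂' R₂ β₂)
    {i : A₁ →ₗ[k] A} {q : A →ₗ[k] A₂} (hi : Eqv R₁ R i) (hq : Eqv R R₂ q)
    (inj : Function.Injective i) (sj : Function.Surjective q)
    (ex : LinearMap.ker q = LinearMap.range i) :
    finrank k R.Z1 + finrank k R₁'.H0 + finrank k R₂'.H0 =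
      finrank k R₁.Z1 + finrank k R₂.Z1 + finrank k R'.H0 := by
  obtain ⟨f', d', -⟩ := hP.bij
  obtain ⟨f1, d1, -⟩ := h₁.bij
  obtain ⟨f2, d2, s2⟩ := h₂.bij
  obtain ⟨q', hq', eq⟩ := hP.adj h₂ hq
  obtain ⟨i', hi', ei⟩ := h₁.adj hP hi
  have := L.fin R
  have := L.fin R₁
  have := L.fin R₂
  have := L.fin R₂'
  have jq : Function.Injective q' := (injective_iff_map_eq_zero _).2 fun u hu =>
    h₂.nl u fun v => by
      obtain ⟨v, rfl⟩ := sj v
      rw [← eq, hu, map_zero]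
      rfl
  have ex' : LinearMap.ker i' = LinearMap.range q' := by
    ext u
    constructor
    · intro hu
      obtain ⟨r, hr⟩ := q.exists_rightInverse_of_surjective (LinearMap.range_eq_top.2 sj)
      obtain ⟨w, hw⟩ := s2 (β u ∘ₗ r)
      refine ⟨w, sub_eq_zero.1 (hP.nl _ fun v => ?_)⟩
      obtain ⟨z, hz⟩ : r (q v) - v ∈ LinearMap.range i := ex.le (by
        rw [LinearMap.mem_ker, map_sub, sub_eq_zero]
        exact LinearMap.congr_fun hr (q v))
      have := ei u z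
      rw [LinearMap.mem_ker.1 hu, hz, map_sub, map_zero] at this
      rw [map_sub, LinearMap.sub_apply, eq, hw]
      exact this.symm
    · rintro ⟨u, rfl⟩
      refine h₁.nl _ fun v => ?_
      rw [ei, eq, LinearMap.mem_ker.1 (ex.ge ⟨v, rfl⟩), map_zero]
  have n1 := LinearMap.finrank_range_add_finrank_ker q
  rw [ex, LinearMap.range_eq_top.2 sj, finrank_top, LinearMap.finrank_range_of_inj inj] at n1
  have n2 := LinearMap.finrank_range_add_finrank_ker i'
  rw [ex', LinearMap.finrank_range_of_inj jq] at n2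
  have si : LinearMap.range i' = ⊤ := Submodule.eq_top_of_finrank_eq (by omega)
  have e1 := dim_ann H L h₂ (hq.b1_map sj R.B1_le) (hq.map_z1 le_rfl)
  rw [ann_map hq hq' eq, ann_z1 L hP] at e1
  have e2 := dim_h1 H L h₂
  have e3 := R₂'.rank_B1
  have e4 := LinearMap.finrank_range_add_finrank_ker ((q.compLeft G).domRestrict R.Z1)
  rw [LinearMap.range_domRestrict] at e4
  have e5 : finrank k (LinearMap.ker ((q.compLeft G).domRestrict R.Z1)) = finrank k R₁.Z1 := by
    let F : R₁.Z1 →ₗ[k] LinearMap.ker ((q.compLeft G).domRestrict R.Z1) :=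
      (((i.compLeft G).domRestrict R₁.Z1).codRestrict R.Z1 fun x => hi.z1 x.2).codRestrict _
        fun x => funext fun g => ex.ge ⟨x.1 g, rfl⟩
    refine (LinearEquiv.ofBijective F ⟨fun x y e => Subtype.ext (funext fun g => inj ?_),
      fun x => ?_⟩).finrank_eq.symm
    · exact congrFun (congrArg (fun z => z.1.1) e) g
    · choose y hy using fun g => ex.le (show x.1.1 g ∈ LinearMap.ker q from congrFun x.2 g)
      exact ⟨⟨y, hi.z1_of inj (by rw [funext hy]; exact x.1.2)⟩,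
        Subtype.ext (Subtype.ext (funext hy))⟩
  set T := R₁'.H0.comap i' with hT
  have e6 := LinearMap.finrank_range_add_finrank_ker (i'.domRestrict T)
  have l6 : LinearMap.ker i' ≤ T := fun u hu => by
    rw [hT, Submodule.mem_comap, LinearMap.mem_ker.1 hu]
    exact zero_mem _
  rw [LinearMap.range_domRestrict, hT, Submodule.map_comap_eq, si, top_inf_eq, ← hT,
    show LinearMap.ker (i'.domRestrict T) = (LinearMap.ker i').submoduleOf T from rfl,
    (Submodule.submoduleOfEquivOfLe l6).finrank_eq, ex', LinearMap.finrank_range_of_inj jq] at e6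
  have e7 := LinearMap.finrank_range_add_finrank_ker (R'.d1.domRestrict T)
  have l7 : R'.H0 ≤ T := fun u hu => R₁'.mem_H0.2 fun g => by rw [← hi', R'.mem_H0.1 hu]
  rw [show LinearMap.ker (R'.d1.domRestrict T) = R'.H0.submoduleOf T from rfl,
    (Submodule.submoduleOfEquivOfLe l7).finrank_eq] at e7
  have e8 : finrank k (LinearMap.range (R'.d1.domRestrict T)) =
      finrank k (R₂'.Z1 ⊓ R'.B1.comap (q'.compLeft G) : Submodule k _) := by
    rw [(Submodule.equivMapOfInjective (q'.compLeft G)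
      (fun x y e => funext fun g => jq (congrFun e g)) _).finrank_eq]
    refine congrArg (fun S : Submodule k (G → A') => finrank k S) ?_
    ext x
    constructor
    · rintro ⟨u, rfl⟩
      choose y hy using fun g => ex'.le (show R'.d1 u.1 g ∈ LinearMap.ker i' from by
        rw [LinearMap.mem_ker, FR.d1_apply, map_sub, hi', R₁'.mem_H0.1 u.2, sub_self])
      exact ⟨y, ⟨hq'.z1_of jq (by rw [funext hy]; exact R'.d1_mem _), u, (funext hy).symm⟩,
        funext hy⟩
    · rintro ⟨y, ⟨-, u, hu⟩, rfl⟩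
      refine ⟨⟨u, R₁'.mem_H0.2 fun g => ?_⟩, hu⟩
      rw [← hi', ← sub_eq_zero, ← map_sub]
      exact ex'.ge ⟨y g, (congrFun hu g).symm⟩
  omega

theorem dim_hm {H : Type} [Group H] [TopologicalSpace H] (f : Finite (Hm (ZMod 2) H))
    (c : Nat.card (Hm (ZMod 2) H) ≤ 4) : FiniteDimensional k (Hm k H) ∧ finrank k (Hm k H) ≤ 2 := by
  let F : Hm k H → Fin (finrank (ZMod 2) k) → Hm (ZMod 2) H := fun a i => ⟨_, Hm.map a.2 (cd i)⟩
  have inj : Function.Injective F := fun a b h => Subtype.ext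
    (funext fun g => cd_ext fun i => congrFun (congrArg Subtype.val (congrFun h i)) g)
  have : Finite (Hm k H) := Finite.of_injective F inj
  refine ⟨Module.Finite.of_finite, ?_⟩
  have e1 := Nat.card_le_card_of_injective F inj
  rw [Module.natCard_eq_pow_finrank (K := k), Nat.card_fun, Nat.card_fin] at e1
  have e2 : Nat.card k = 2 ^ finrank (ZMod 2) k := by
    rw [Module.natCard_eq_pow_finrank (K := ZMod 2), Nat.card_zmod]
  have e3 : Nat.card k ^ finrank k (Hm k H) ≤ Nat.card k ^ 2 :=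
    e1.trans ((Nat.pow_le_pow_left c _).trans (by rw [e2, ← pow_mul, mul_comm, pow_mul]; rfl))
  exact (Nat.pow_le_pow_iff_right Finite.one_lt_card).1 e3

theorem dim_perm (h : LF G) (L : LDm k G) (p : PC I σ) {H : Subgroup G} (o : IsOpen (H : Set G))
    (l : IsLocallyConstant (MulAction.toPermHom G (G ⧸ H))) {β : A' →ₗ[k] (G ⧸ H → k) →ₗ[k] k}
    {R' : FR k G A'} (hP : Pf R' (perm k (G ⧸ H) l) β) :
    finrank k (perm k (G ⧸ H) l).Z1 ≤ finrank k (G ⧸ H → k) + finrank k R'.H0 := by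
  have := H.quotient_finite_of_isOpen o
  have := Fintype.ofFinite (G ⧸ H)
  obtain ⟨f', -, s'⟩ := hP.bij
  obtain ⟨f1, d1⟩ := dim_hm (k := k) (h.sub H o).fin (p.rk H o)
  set P := perm k (G ⧸ H) l with hPd
  have fx : ∀ g ∈ H, g⁻¹ • ((1 : G) : G ⧸ H) = (1 : G) := fun g hg =>
    QuotientGroup.eq.2 (by simpa using hg)
  let F : P.Z1 →ₗ[k] Hm k H :=
    { toFun := fun x => ⟨fun g => x.1 g (1 : G),
        lc_one (fun φ : G ⧸ H → k => φ (1 : G)) (lc_at x.2.1 continuous_subtype_val),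
        fun a b => (congrFun (FR.coc x.2 a b) _).trans
          (congrArg (x.1 a (1 : G) + x.1 b ·) (fx a a.2))⟩
      map_add' := fun _ _ => rfl
      map_smul' := fun _ _ => rfl }
  have kl : LinearMap.ker F ≤ P.B1.submoduleOf P.Z1 := fun x hx => by
    have h0 : ∀ g ∈ H, x.1 g (1 : G) = 0 := fun g hg =>
      congrFun (congrArg Subtype.val hx) ⟨g, hg⟩
    have h1 : ∀ g c : G, x.1 (g * c) (g * c : G) = x.1 g (g * c : G) + x.1 c c := fun g c =>
      (congrFun (FR.coc x.2 g c) _).trans (congrArg (x.1 g (g * c : G) + x.1 c ·) (by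
        beta_reduce
        rw [MulAction.Quotient.smul_mk, smul_eq_mul, inv_mul_cancel_left]))
    have h2 : ∀ c : G, x.1 (c : G ⧸ H).out c = x.1 c c := fun c => by
      obtain ⟨u, hu⟩ := QuotientGroup.mk_out_eq_mul H c
      have := congrFun (FR.coc x.2 c u) c
      rw [hu, this, Pi.add_apply, perm_ac, MulAction.Quotient.smul_mk, smul_eq_mul, inv_mul_cancel,
        h0 u u.2, add_zero]
    refine ⟨fun y => -x.1 y.out y, funext fun g => funext fun y => ?_⟩
    induction y using QuotientGroup.induction_on with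
    | H c =>
      have := h1 g (g⁻¹ * c)
      rw [mul_inv_cancel_left] at this
      rw [FR.d1_apply, Pi.sub_apply, perm_ac, MulAction.Quotient.smul_mk, smul_eq_mul, h2, h2,
        this]
      change _ = x.1 g c
      ring
  have := L.fin P
  have e1 := LinearMap.finrank_range_add_finrank_ker F
  have e2 := Submodule.finrank_mono kl
  rw [(Submodule.submoduleOfEquivOfLe P.B1_le).finrank_eq] at e2
  have e3 := Submodule.finrank_le (LinearMap.range F)
  have e4 := P.rank_B1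
  have e5 : finrank k P.H0 ≠ 0 := fun e =>
    one_ne_zero (congrFun ((Submodule.mem_bot k).1 ((Submodule.finrank_eq_zero.1 e).le
      (show (fun _ => (1 : k)) ∈ P.H0 from P.mem_H0.2 fun _ => rfl))) (1 : G))
  have e6 : finrank k R'.H0 ≠ 0 := fun e => by
    obtain ⟨u, hu⟩ := s' (∑ x, LinearMap.proj x)
    have e7 : ∀ φ, β u φ = ∑ x, φ x := fun φ => by rw [hu]; simp
    have e8 : u ∈ R'.H0 := R'.mem_H0.2 fun g => sub_eq_zero.1 (hP.nl _ fun φ => by
      rw [map_sub, LinearMap.sub_apply, ← P.ac_inv g φ, hP.eq, e7, e7, sub_eq_zero]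
      exact (Equiv.sum_comp (MulAction.toPerm g⁻¹) fun x => P.ac g⁻¹ φ x).symm)
    have := e7 (Pi.single ((1 : G) : G ⧸ H) 1)
    rw [(Submodule.mem_bot k).1 ((Submodule.finrank_eq_zero.1 e).le e8)] at this
    simp at this
  omega

theorem dimZ (h : LF G) (L : LDm k G) (p : PC I σ) [FiniteDimensional k A]
    {β : A' →ₗ[k] A →ₗ[k] k} {R : FR k G A} {R' : FR k G A'} (hP : Pf R' R β) :
    finrank k R.Z1 = finrank k A + finrank k R'.H0 := by
  refine le_antisymm (deviss (fun A _ _ R => ∀ (A' : Type) [AddCommGroup A'] [Module k A']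
    (R' : FR k G A') (β : A' →ₗ[k] A →ₗ[k] k), Pf R' R β →
      finrank k R.Z1 ≤ finrank k A + finrank k R'.H0) ?_ ?_ ?_ ?_ A R A' R' β hP)
    (dim_ge h.top.two L p hP)
  · intro H o _ l A' _ _ R' β hP
    exact dim_perm h L p o l hP
  · intro A _ _ R _ A' _ _ R' β _
    rw [finrank_zero_of_subsingleton]
    exact Nat.zero_le _
  · intro A₁ A A₂ _ _ _ _ _ _ _ _ _ R₁ R R₂ i q hi hq inj sj ex q1 q2 A' _ _ R' β hP
    obtain ⟨R₁', h₁, -⟩ := R₁.dual
    obtain ⟨R₂', h₂, -⟩ := R₂.dual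
    have e1 := dim_add h.top.two L hP h₁ h₂ hi hq inj sj ex
    have e2 := q1 _ _ _ h₁
    have e3 := q2 _ _ _ h₂
    have n1 := LinearMap.finrank_range_add_finrank_ker q
    rw [ex, LinearMap.range_eq_top.2 sj, finrank_top, LinearMap.finrank_range_of_inj inj] at n1
    omega
  · intro A B _ _ _ _ _ _ R RB i q _ hq rt qB A' _ _ R' β hP
    have st : ∀ g, ∀ v ∈ LinearMap.ker q, RB.ac g v ∈ LinearMap.ker q := fun g v hv => by
      rw [LinearMap.mem_ker, hq, LinearMap.mem_ker.1 hv, map_zero]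
    have sj : Function.Surjective q := fun a => ⟨_, rt a⟩
    obtain ⟨R₁', h₁, -⟩ := (RB.sub _ st).dual
    obtain ⟨RB', hB, -⟩ := RB.dual
    have e1 := dim_add h.top.two L hB h₁ hP (RB.sub_eqv _ st) hq (Submodule.injective_subtype _) sj
      (Submodule.range_subtype _).symm
    have e2 := dim_ge h.top.two L p h₁
    have e3 := qB _ _ _ hB
    have n1 := LinearMap.finrank_range_add_finrank_ker q
    rw [LinearMap.range_eq_top.2 sj, finrank_top] at n1
    omega

theorem ann_un (h : LF G) (L : LDm k G) (p : PC I σ) [FiniteDimensional k A]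
    {β : A' →ₗ[k] A →ₗ[k] k} {R : FR k G A} {R' : FR k G A'} (hP : Pf R' R β) :
    ann β R' R (R.Un I) = R'.Un I ⊔ R'.B1 := by
  obtain ⟨f', d', -⟩ := hP.bij
  have := L.fin R'
  have := Submodule.finiteDimensional_of_le (ann_le (β := β) (R := R) (R' := R') (Y := R.Un I))
  have e1 := dim_ann h.top.two L hP (Y := R.Un I ⊔ R.B1) le_sup_right
    (sup_le (fun _ h => h.1) R.B1_le)
  rw [ann_sup_b1 hP, dimU p, dimZ h L p hP.flip] at e1
  have e2 := dimU p R'
  have e3 := R.rank_B1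
  exact (Submodule.eq_of_le_of_finrank_eq (un_le p hP) (by omega)).symm

end MIA

/-- The unramified classes at an odd place. -/
theorem mi' [CharP k 2] [IsTopologicalGroup G] [CompactSpace G] [Finite k] [Algebra (ZMod 2) k]
    (h : LF G) (L : LDm k G) (p : PC I σ) : MI k I σ :=
  ⟨p.nor, p.gen, MIA.u0 p, MIA.dimU p, MIA.dimZ h L p, MIA.ann_un h L p⟩

/-- Unramified two-cocycles split; no duality is used. -/
theorem PC.sz [CharP k 2] [IsTopologicalGroup G] [CompactSpace G] (p : PC I σ) {ε : G → G → k}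
    (hε : Cz ε) (h' : Inf2 I ε) : Sz ε := by
  obtain ⟨φ, a, -, -, b⟩ := MIA.u0 p (triv k G) ε 0 hε h' (fun _ _ _ _ => rfl) fun _ _ => rfl
  exact ⟨φ, a, b⟩

end Pool.Agent.BC
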