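import Pool.Agent.Lib.MP_b4b3cb_nt.BC.EuC
import Pool.Agent.Lib.MP_b4b3cb_nt.BC.MI

/-! The local Euler characteristic: definitions. -/

namespace Pool.Agent.BC.Eu

open scoped Classical
open Module Pool.Agent.SP

variable {k : Type} [Field k] {G : Type} [Group G] [TopologicalSpace G]

/-- The formula for the Euler characteristic of one module. -/
def FE {A : Type} [AddCommGroup A] [Module k A] (R : FR k G A) : Prop :=
  ∀ (A' : Type) [AddCommGroup A'] [Module k A'] (R' : FR k G A') (β : A' →ₗ[k] A →ₗ[k] k),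
    Pf R' R β → finrank k R.Z1 + finrank k A = finrank k R'.H0 + finrank k (Hm k G) * finrank k A

/-- Conjugation on the characters of a normal subgroup. -/
def cjH [IsTopologicalGroup G] (U : Subgroup G) [h : U.Normal] (g : G) :
    Hm (ZMod 2) U →+ Hm (ZMod 2) U :=
  AddMonoidHom.mk' (fun a => ⟨fun u => a.1 ⟨g⁻¹ * u * g, h.conj_mem' _ u.2 g⟩,
    lc_at a.2.1 (((continuous_const.mul continuous_subtype_val).mul continuous_const).subtype_mk _),
    fun u v => by
      rw [← a.2.2]
      exact congrArg a.1 (Subtype.ext (by simp [mul_assoc]))⟩) fun _ _ => rfl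

theorem cjH_apply [IsTopologicalGroup G] (U : Subgroup G) [h : U.Normal] (g : G)
    (a : Hm (ZMod 2) U) (u : U) :
    (cjH U g a).1 u = a.1 ⟨g⁻¹ * u * g, h.conj_mem' _ u.2 g⟩ := rfl

variable (G) in
/-- The characters of a normal subgroup of odd index form, as a module for the quotient, two
trivial modules plus a multiple of the regular module. -/
def Cnt [IsTopologicalGroup G] : Prop :=
  ∀ (U : Subgroup G) [U.Normal], IsOpen (U : Set G) → Odd U.index → ∃ y : ℕ,
    ∀ (ι : Type) [Fintype ι] [DecidableEq ι] (a : G →* Matrix ι ι (ZMod 2)), (∀ u ∈ U, a u = 1) →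
      Nat.card (Iv a (cjH U)) =
        Nat.card (Iv a fun _ => AddMonoidHom.id (ZMod 2)) ^ 2 * y ^ Fintype.card ι

variable (G) in
/-- The structure of the finite quotients. -/
def Ram : Prop :=
  ∀ U : Subgroup G, U.Normal → IsOpen (U : Set G) → Odd U.index ∨
    (∃ H : Subgroup G, U ≤ H ∧ H.index = 2) ∨
    ∃ P : Subgroup G, P.Normal ∧ U < P ∧ ∀ g ∈ P, ∃ n : ℕ, g ^ 2 ^ n ∈ U

end Pool.Agent.BC.Eu
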