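import Pool.Agent.Lib.MP_b4b3cb_nt.BC.EuL
import Pool.Agent.Lib.MP_b4b3cb_nt.BC.EuF
import Pool.Agent.Lib.MP_b4b3cb_nt.BC.EuS

/-! The characters of a normal subgroup of odd index in a decomposition group. -/

namespace Pool.Agent.BC.Eu

open scoped Classical Pointwise
open NumberField Pool.Agent.Stark Pool.Agent.SP
open SC hiding Hm Rp V T Two Cob Sel Spl cup dq Cz Sz res

theorem lsq_iff {F : Type} [Field F] [NumberField F] (q : Pr F) (x : Fˣ) :
    LSq q (x : F) ↔ ∃ z : Fˣ, ((x / z ^ 2 : Fˣ) : F) - 1 ∈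
      pw (q.valuation F) (2 * ord (q.valuation F) (2 : F) + 1) := by
  have e2 : ord (wv q) (2 : Kc q) = ord (q.valuation F) (2 : F) := by
    rw [← map_ofNat (emb q) 2, ord_emb]
    rfl
  have he := LocAux.two_nonneg (w := wv q) (k := Kc q)
  simp only [← pw_emb, ← e2, map_sub, map_one, Units.val_div_eq_div_val, Units.val_pow_eq_pow_val,
    map_div₀, map_pow]
  constructor
  · rintro ⟨y, hy⟩
    have y0 : y ≠ 0 := by
      rintro rfl
      simp at hy
    obtain ⟨z, hz⟩ := exists_approx q y (ord (wv q) y + (2 * ord (wv q) (2 : Kc q) + 1))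
    have h1 : emb q z / y - 1 ∈ pw (wv q) (2 * ord (wv q) (2 : Kc q) + 1) := by
      rw [← div_self y0, ← sub_div]
      exact LocAux.pw_div hz (by omega)
    have h0 : emb q z / y ≠ 0 := by
      have := (LocAux.one_add (LocAux.anti (j := 1) (by omega) h1)).1
      rwa [add_sub_cancel] at this
    have z0 : z ≠ 0 := by
      rintro rfl
      simp at h0
    have h2 := LocAux.mem_U.1 (_root_.pow_mem (inv_mem (show Units.mk0 _ h0 ∈
      LocAux.U (wv q) (2 * ord (wv q) (2 : Kc q) + 1) (by omega) from h1)) 2)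
    refine ⟨Units.mk0 z z0, ?_⟩
    convert h2 using 2
    rw [hy]
    simp [sq, div_mul_div_comm]
  · rintro ⟨z, hz⟩
    have := (LocAux.hens (isLoc_wv q) hz).mul (IsSquare.sq (emb q z))
    rwa [div_mul_cancel₀ _ (pow_ne_zero _ ((map_ne_zero _).2 z.ne_zero))] at this

variable {K Ω : Type} [Field K] [NumberField K] [Field Ω] [Algebra K Ω] [IsAlgClosed Ω]
  [IsGalois K Ω] [CharZero Ω] {𝔓 : Ideal (𝓞 Ω)}

theorem cnt (h : 𝔓.IsMaximal) : Cnt (Dec K 𝔓) := by
  intro U nU hU odd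
  have T := facts K Ω
  obtain ⟨F, _, _, σ₀, h1, mem, ker, hw⟩ := exStab nU hU
  obtain ⟨q, hq⟩ := T.pr.under F 𝔓 h
  have := (l0_open h hU).fin
  let σ := (IntermediateField.subgroupEquivAlgEquiv σ₀.range).toMonoidHom.comp σ₀.rangeRestrict
  have hσ : ∀ g x, σ g x = σ₀ g x := fun _ _ => rfl
  have : IsGalois (IntermediateField.fixedField σ₀.range) F := IsGalois.of_fixed_field F σ₀.range
  have kσ : σ.ker = U := by
    rw [← ker]
    exact Subgroup.ext fun g => ⟨fun e => AlgEquiv.ext fun x => (hσ g x).symm.trans (by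
      rw [MonoidHom.mem_ker.1 e]; rfl), fun e => AlgEquiv.ext fun x => (hσ g x).trans (by
      rw [MonoidHom.mem_ker.1 e]; rfl)⟩
  let N := Dec K 𝔓 ⊓ Gs K Ω F
  let φ : U →* N := ((Dec K 𝔓).subtype.comp U.subtype).codRestrict N
    fun u => ⟨u.1.2, (mem u).1 u.2⟩
  have cφ : Continuous φ := (continuous_subtype_val.comp continuous_subtype_val).subtype_mk _
  let ψ : N →* U := (Subgroup.inclusion inf_le_left).codRestrict U fun g => (mem _).2 g.2.2
  have cψ : Continuous ψ := (continuous_subtype_val.subtype_mk _).subtype_mk _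
  have r0 : ∀ {x : F} {r : Ω}, x ≠ 0 → r ^ 2 = algebraMap F Ω x → r ≠ 0 := fun hx e h0 =>
    (map_ne_zero (algebraMap F Ω)).2 hx (by rw [← e, h0, zero_pow two_ne_zero])
  have fx : ∀ {x : F} {r : Ω}, r ^ 2 = algebraMap F Ω x → Fix N (r ^ 2) := fun e g hg => by
    rw [e]
    exact hg.2 _
  have same : ∀ {x : F} {r : Ω}, x ≠ 0 → r ^ 2 = algebraMap F Ω x → ∀ g ∈ N,
      kr (rt Ω x) g = kr r g := fun hx e =>
    T.kum.sq (t := 1) (r0 hx (rt_sq _)) (r0 hx e) (fun g _ => map_one g) (by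
      rw [rt_sq, e, one_pow, mul_one])
  let κ : Additive Fˣ →+ Hm (ZMod 2) U := AddMonoidHom.mk' (fun x =>
    ⟨fun u => kr (rt Ω (x.toMul : F)) u.1.1, Hm.comp (hom_iff.2
      (T.kum.hom (r0 x.toMul.ne_zero (rt_sq _)) (fx (rt_sq _)))) φ cφ⟩) fun x y =>
    Subtype.ext (funext fun u => (same (r := rt Ω (x.toMul : F) * rt Ω (y.toMul : F))
      (Units.ne_zero _) (by rw [mul_pow, rt_sq, rt_sq, ← map_mul]; rfl) _ (φ u).2).trans
      (T.kum.mul (r0 x.toMul.ne_zero (rt_sq _)) (r0 y.toMul.ne_zero (rt_sq _)) (fx (rt_sq _))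
        (fx (rt_sq _)) _ (φ u).2))
  obtain ⟨y, hy⟩ := loc (w := q.valuation F) two_ne_zero (val_hs q) (val_hf q) σ
    ((IntermediateField.subgroupEquivAlgEquiv σ₀.range).surjective.comp
      σ₀.rangeRestrict_surjective) (hw q hq) (kσ ▸ odd) (cjH U) κ
    (fun f => by
      obtain ⟨f', e⟩ := ext1 fun g : N => f.1 (ψ g)
      obtain ⟨a, r, a0, hr, e'⟩ := (T.sym hq).2 f' (hom_iff.1 (e ▸ Hm.comp f.2 ψ cψ))
      exact ⟨.ofMul (Units.mk0 a a0), Subtype.ext (funext fun u => (same a0 hr _ (φ u).2).trans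
        ((e' _ (φ u).2).symm.trans (congrFun e (φ u)).symm))⟩)
    (fun g x => Subtype.ext (funext fun u => (same (r := g.1 (rt Ω (x.toMul : F)))
      (Units.ne_zero _) (by rw [← map_pow, rt_sq]; exact (h1 g _).symm) _ (φ u).2).trans (by
        refine if_congr ⟨fun e => g.1.injective ?_, fun e => ?_⟩ rfl rfl
        · exact (g.1.apply_symm_apply _).trans e
        · exact (g.1.apply_symm_apply _).symm.trans (congrArg g.1 e))))
    fun x => by
      rw [← lsq_iff, T.loc.sq hq x.ne_zero (rt_sq _)]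
      refine ⟨fun e g hg => ?_, fun e => Subtype.ext (funext fun u => if_pos (e _ (φ u).2))⟩
      by_contra c
      exact one_ne_zero ((if_neg c).symm.trans (congrFun (congrArg Subtype.val e) (ψ ⟨g, hg⟩)))
  exact ⟨y, kσ ▸ hy⟩

end Pool.Agent.BC.Eu
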