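import Pool.Agent.Lib.MP_b4b3cb_nt.BC.EuS
import Pool.Agent.Lib.MP_b4b3cb_nt.BC.LD

/-! The local Euler characteristic: normal subgroups of order a power of two, and transport. -/

set_option linter.unusedSectionVars false

namespace Pool.Agent.BC.Eu

open scoped Classical
open Module Pool.Agent.SP

variable {k : Type} [Field k] {G G' : Type} [Group G] [TopologicalSpace G] [Group G']
  [TopologicalSpace G'] {A : Type} [AddCommGroup A] [Module k A]

theorem z1_iso (e : G ≃ₜ* G') {R : FR k G A} {R' : FR k G' A} (h : ∀ g, R.ac g = R'.ac (e g)) :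
    finrank k R.Z1 = finrank k R'.Z1 := by
  rw [← (LinearEquiv.funCongrLeft k A e.toEquiv).finrank_map_eq]
  refine congrArg (fun S : Submodule k (G → A) => finrank k S) (Submodule.ext fun x => ?_)
  refine ⟨fun p => ⟨fun g => x (e.symm g), R'.mk_z1 (lc_at p.1 e.symm.continuous) fun g l => ?_,
    funext fun g => congrArg x (e.symm_apply_apply g)⟩, ?_⟩
  · rw [map_mul, FR.coc p, h, e.apply_symm_apply]
  · rintro ⟨y, p, rfl⟩
    refine R.mk_z1 (lc_at p.1 e.continuous) fun g l => ?_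
    change y (e (g * l)) = y (e g) + R.ac g (y (e l))
    rw [map_mul, FR.coc p, h]

variable [CharP k 2]

theorem hm_rank (e : G ≃ₜ* G') : finrank k (Hm k G) = finrank k (Hm k G') := by
  rw [← Submodule.ext fun _ => triv_z1, ← Submodule.ext fun _ => triv_z1]
  exact z1_iso e fun _ => rfl

/-- Transport along an isomorphism of groups. -/
theorem FE.iso (e : G ≃ₜ* G') {R : FR k G A} {R' : FR k G' A} (h : ∀ g, R.ac g = R'.ac (e g))
    (f : FE R) : FE R' := fun B _ _ S β hP => by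
  have := f B (S.comap e.toMulEquiv.toMonoidHom e.continuous) β
    ⟨fun g u v => by rw [h]; exact hP.eq _ u v, hP.nl, hP.nr⟩
  rwa [z1_iso e h, hm_rank e, show (S.comap e.toMulEquiv.toMonoidHom e.continuous).H0 = S.H0 from
    Submodule.ext fun u => by
      rw [FR.mem_H0, FR.mem_H0]
      exact ⟨fun p g => by rw [← e.apply_symm_apply g]; exact p _, fun p g => p _⟩] at this

variable [Finite k] [Algebra (ZMod 2) k] [IsTopologicalGroup G] [CompactSpace G]

/-- The formula passes to extensions. -/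
theorem FE.ext (L : LF G) {A₁ A₂ : Type} [AddCommGroup A₁] [Module k A₁] [AddCommGroup A₂]
    [Module k A₂] [FiniteDimensional k A] [FiniteDimensional k A₁] [FiniteDimensional k A₂]
    {R : FR k G A} {R₁ : FR k G A₁} {R₂ : FR k G A₂} {i : A₁ →ₗ[k] A} {q : A →ₗ[k] A₂}
    (hi : Eqv R₁ R i) (hq : Eqv R R₂ q) (inj : Function.Injective i) (sj : Function.Surjective q)
    (ex : LinearMap.ker q = LinearMap.range i) (f₁ : FE R₁) (f₂ : FE R₂) : FE R :=
  fun A' _ _ R' β hP => by
  obtain ⟨R₁', h₁, -⟩ := R₁.dual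
  obtain ⟨R₂', h₂, -⟩ := R₂.dual
  have e1 := MIA.dim_add L.top.two (ldm L) hP h₁ h₂ hi hq inj sj ex
  have e2 := f₁ _ _ _ h₁
  have e3 := f₂ _ _ _ h₂
  have n1 := LinearMap.finrank_range_add_finrank_ker q
  rw [ex, LinearMap.range_eq_top.2 sj, finrank_top, LinearMap.finrank_range_of_inj inj] at n1
  rw [← n1, mul_add]
  omega

omit [IsTopologicalGroup G] [CompactSpace G] in
theorem fix_ne [FiniteDimensional k A] [Nontrivial A] (R : FR k G A) {P : Subgroup G}
    (h : ∀ g ∈ P, ∃ n : ℕ, g ^ 2 ^ n ∈ R.ac.ker) : ∃ a ≠ 0, ∀ g ∈ P, R.ac g a = a := by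
  have : Finite A := Module.finite_of_finite k
  let f : G →* (Module.End k A)ˣ := R.ac.toHomUnits
  have p : IsPGroup 2 (P.map f) := by
    rintro ⟨_, g, hg, rfl⟩
    obtain ⟨n, hn⟩ := h g hg
    refine ⟨n, Subtype.ext ?_⟩
    change f g ^ 2 ^ n = 1
    rw [← map_pow]
    exact Units.ext hn
  have d : 2 ∣ Nat.card A := by
    obtain ⟨a, ha⟩ := exists_ne (0 : A)
    rw [← addOrderOf_eq_prime (p := 2) (by rw [two_nsmul, add_self (k := k)]) ha]
    exact addOrderOf_dvd_natCard a
  obtain ⟨a, h1, h2⟩ := p.exists_fixed_point_of_prime_dvd_card_of_fixed_point A d (a := 0)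
    fun g => smul_zero _
  exact ⟨a, h2.symm, fun g hg => h1 ⟨f g, g, hg, rfl⟩⟩

theorem stepU (L : LF G) {U P : Subgroup G} (nor : P.Normal) (h : ∀ g ∈ P, ∃ n : ℕ, g ^ 2 ^ n ∈ U)
    (ih : ∀ (B : Type) [AddCommGroup B] [Module k B] [FiniteDimensional k B] (RB : FR k G B),
      P ≤ RB.ac.ker → U ≤ RB.ac.ker → FE RB) (n : ℕ) :
    ∀ (A : Type) [AddCommGroup A] [Module k A] [FiniteDimensional k A] (R : FR k G A),
      finrank k A = n → U ≤ R.ac.ker → FE R := by
  induction n using Nat.strong_induction_on with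
  | _ n hn =>
  intro A _ _ _ R e hU
  rcases subsingleton_or_nontrivial A with s | s
  · exact ih A R (fun g _ => LinearMap.ext fun _ => Subsingleton.elim _ _) hU
  obtain ⟨a, a0, a1⟩ := fix_ne R fun g hg => (h g hg).imp fun _ p => hU p
  have mm : ∀ {v}, v ∈ (R.res P).H0 ↔ ∀ g ∈ P, R.ac g v = v :=
    (FR.mem_H0 _).trans ⟨fun p g hg => p ⟨g, hg⟩, fun p g => p g g.2⟩
  have st : ∀ g, ∀ v ∈ (R.res P).H0, R.ac g v ∈ (R.res P).H0 := fun g v hv => mm.2 fun i hi => by
    rw [← R.mul, show i * g = g * (g⁻¹ * i * g) by group, R.mul, mm.1 hv _ (nor.conj_mem' i hi g)]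
  have u1 : ∀ g ∈ U, ∀ v, R.ac g v = v := fun g hg v => LinearMap.congr_fun (hU hg) v
  refine FE.ext L (R.sub_eqv _ st) (R.quo_eqv _ st) (Submodule.injective_subtype _)
    (Submodule.mkQ_surjective _) (by rw [Submodule.ker_mkQ, Submodule.range_subtype])
    (ih _ _ (fun g hg => LinearMap.ext fun v => Subtype.ext (mm.1 v.2 g hg))
      fun g hg => LinearMap.ext fun v => Subtype.ext (u1 g hg v))
    (hn _ ?_ _ _ rfl fun g hg => Submodule.linearMap_qext _
      (LinearMap.ext fun v => congrArg (R.res P).H0.mkQ (u1 g hg v)))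
  have a2 := Submodule.finrank_quotient_add_finrank (R.res P).H0
  have a3 : 0 < finrank k (R.res P).H0 :=
    finrank_pos_iff_exists_ne_zero.2 ⟨⟨a, mm.2 a1⟩, fun p => a0 (congrArg Subtype.val p)⟩
  omega

/-- Reduction to modules on which a normal subgroup acts trivially. -/
theorem stepP (L : LF G) [FiniteDimensional k A] (R : FR k G A) {P : Subgroup G} (nor : P.Normal)
    (h : ∀ g ∈ P, ∃ n : ℕ, g ^ 2 ^ n ∈ R.ac.ker)
    (ih : ∀ (B : Type) [AddCommGroup B] [Module k B] [FiniteDimensional k B] (RB : FR k G B),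
      P ≤ RB.ac.ker → R.ac.ker ≤ RB.ac.ker → FE RB) : FE R :=
  stepU L nor h ih _ A R rfl le_rfl

end Pool.Agent.BC.Eu
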