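import Pool.Agent.Lib.MP_b4b3cb_nt.BC.EuS
import Pool.Agent.Lib.MP_b4b3cb_nt.BC.EuF

/-! The finite quotients of a decomposition group above two. -/

namespace Pool.Agent.BC.Eu

open scoped Classical Pointwise
open NumberField Pool.Agent.Stark Pool.Agent.SP
open SC hiding Hm Rp V T Two Cob Sel Spl cup dq Cz Sz res

section Grp

variable {G : Type} [Group G]

theorem ram_of {U N P : Subgroup G} [U.Normal] [N.Normal] (nP : P.Normal) [Finite (G ⧸ U)]
    (h1 : U ≤ N) (h2 : U ≤ P) {s : G} (hs : ∀ H : Subgroup G, N ≤ H → s ∈ H → H = ⊤)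
    (h3 : ∀ g ∈ N, g ^ 2 ∈ U → g ∈ P) (h4 : ∀ g ∈ P, ∃ n : ℕ, g ^ 2 ^ n ∈ U) :
    Odd U.index ∨ (∃ H : Subgroup G, U ≤ H ∧ H.index = 2) ∨
      ∃ P : Subgroup G, P.Normal ∧ U < P ∧ ∀ g ∈ P, ∃ n : ℕ, g ^ 2 ^ n ∈ U := by
  rw [or_iff_not_imp_left, Nat.not_odd_iff_even, even_iff_two_dvd]
  intro e
  rcases Nat.even_or_odd N.index with o | ⟨m, o⟩
  · have : Finite (G ⧸ N) := Nat.finite_of_card_ne_zero fun z =>
      Subgroup.index_ne_zero_of_finite (zero_dvd_iff.1 (z.symm.dvd.trans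
        (Subgroup.index_dvd_of_le h1)))
    have : IsCyclic (G ⧸ N) := ⟨⟨(s : G ⧸ N), fun x => by
      obtain ⟨x, rfl⟩ := QuotientGroup.mk_surjective x
      exact (hs ((Subgroup.zpowers (s : G ⧸ N)).comap (QuotientGroup.mk' N)) (fun g hg => by
        rw [Subgroup.mem_comap, QuotientGroup.mk'_apply, (QuotientGroup.eq_one_iff g).2 hg]
        exact one_mem _) (Subgroup.mem_zpowers _)).ge (Subgroup.mem_top x)⟩⟩
    let _ : CommGroup (G ⧸ N) := IsCyclic.commGroup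
    refine .inl ⟨(powMonoidHom 2 : G ⧸ N →* G ⧸ N).range.comap (QuotientGroup.mk' N),
      fun g hg => ?_, ?_⟩
    · rw [Subgroup.mem_comap, QuotientGroup.mk'_apply, (QuotientGroup.eq_one_iff g).2 (h1 hg)]
      exact one_mem _
    · rw [Subgroup.index_comap_of_surjective _ (QuotientGroup.mk'_surjective N),
        IsCyclic.index_powMonoidHom_range]
      exact Nat.gcd_eq_right o.two_dvd
  · obtain ⟨x, hx⟩ := exists_prime_orderOf_dvd_card' (G := G ⧸ U) 2 e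
    obtain ⟨x, rfl⟩ := QuotientGroup.mk_surjective x
    have a : x ^ 2 ∈ U := by
      rw [← QuotientGroup.eq_one_iff, QuotientGroup.mk_pow, ← hx, pow_orderOf_eq_one]
    have b := N.pow_index_mem x
    rw [o, pow_succ, pow_mul, N.mul_mem_cancel_left (N.pow_mem (h1 a) m)] at b
    refine .inr ⟨P, nP, lt_of_le_of_ne h2 fun z => ?_, h4⟩
    rw [(QuotientGroup.eq_one_iff x).2 (z ▸ h3 x b a), orderOf_one] at hx
    omega

variable {K F Γ : Type} [Field K] [Field F] [Algebra K F] [LinearOrderedCommGroupWithZero Γ]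
  {v : Valuation F Γ} {σ : G →* Gal(F/K)} (hv : ∀ g x, v (σ g x) = v x)

/-- The ramification groups. -/
def rg (p : Γ → Prop) (f : Γ → Γ) (hf : ∀ c, p c → 0 < f c) : Subgroup G where
  carrier := {g | ∀ x, p (v x) → v (σ g x - x) < f (v x)}
  one_mem' x hx := by simpa using hf _ hx
  mul_mem' {g h} a b x hx := by
    have := a (σ h x) (by rwa [hv])
    rw [hv] at this
    rw [map_mul, AlgEquiv.mul_apply, ← sub_add_sub_cancel _ (σ h x)]
    exact v.map_add_lt this (b x hx)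
  inv_mem' {g} a x hx := by
    rw [← hv g, map_sub, ← AlgEquiv.mul_apply, ← map_mul, mul_inv_cancel, map_one,
      AlgEquiv.one_apply, v.map_sub_swap]
    exact a x hx

theorem rg_nor (p : Γ → Prop) (f : Γ → Γ) (hf : ∀ c, p c → 0 < f c) : (rg hv p f hf).Normal :=
  ⟨fun g a h x hx => by
    have := a (σ h⁻¹ x) (by rwa [hv])
    rwa [hv, ← hv h, map_sub, ← AlgEquiv.mul_apply, ← AlgEquiv.mul_apply, ← AlgEquiv.mul_apply,
      ← map_mul, ← map_mul, ← map_mul, mul_inv_cancel, map_one, AlgEquiv.one_apply] at this⟩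

theorem ker_rg (p : Γ → Prop) (f : Γ → Γ) (hf : ∀ c, p c → 0 < f c) : σ.ker ≤ rg hv p f hf :=
  fun g a x hx => by simpa [show σ g = 1 from a] using hf _ hx

/-- Inertia. -/
abbrev r0 : Subgroup G := rg hv (· ≤ 1) (fun _ => 1) fun _ _ => zero_lt_one

/-- Wild inertia. -/
abbrev r1 : Subgroup G := rg hv (0 < ·) id fun _ h => h

theorem r0_sq (h2 : v 2 < 1) {g : G} (a : g ∈ r0 hv) (b : g ^ 2 ∈ σ.ker) : g ∈ r1 hv := by
  intro x hx
  have x0 : x ≠ 0 := v.pos_iff.1 hx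
  have y0 : σ g x ≠ 0 := (map_ne_zero _).2 x0
  have e : σ g (σ g x) = x := by
    rw [← AlgEquiv.mul_apply, ← map_mul, ← sq, show σ (g ^ 2) = 1 from b, AlgEquiv.one_apply]
  have c1 : v (σ g x / x) = 1 := by rw [map_div₀, hv, div_self hx.ne']
  have c2 := a _ c1.le
  rw [map_div₀, e] at c2
  have c3 : (σ g x / x - 1) ^ 2 =
      -(σ g x / x * (x / σ g x - σ g x / x)) - 2 * (σ g x / x - 1) := by
    field_simp
    ring
  have c4 : v (σ g x / x - 1) ^ 2 < 1 := by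
    rw [← map_pow, c3]
    refine v.map_sub_lt (by rwa [v.map_neg, map_mul, c1, one_mul]) ?_
    rw [map_mul]
    exact mul_lt_one_of_lt_of_le h2 (v.map_sub_le c1.le v.map_one.le)
  rw [pow_lt_one_iff two_ne_zero, div_sub_one x0, map_div₀, div_lt_one₀ hx] at c4
  exact c4

theorem r1_odd (h2 : v 2 < 1) {g : G} (a : g ∈ r1 hv) {m : ℕ} (b : g ^ (2 * m + 1) ∈ σ.ker) :
    g ∈ σ.ker := AlgEquiv.ext fun x => sub_eq_zero.1 <| by_contra fun y0 => by
  rw [AlgEquiv.one_apply] at y0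
  have p := v.pos_iff.2 y0
  have e := Finset.sum_range_sub (fun j => σ (g ^ j) x) (2 * m + 1)
  rw [show σ (g ^ (2 * m + 1)) = 1 from b, pow_zero, map_one, sub_self] at e
  have c := v.map_sum_lt (s := Finset.range (2 * m + 1)) p.ne'
    fun j _ => Subgroup.pow_mem _ a j _ p
  have v1 : v (2 * m + 1) = 1 := by
    rw [add_comm]
    refine v.map_one_add_of_lt ?_
    rw [map_mul]
    exact mul_lt_one_of_lt_of_le h2 (by
      simpa using v.map_sum_le (s := Finset.range m) (f := fun _ => 1) fun _ _ => v.map_one.le)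
  simp only [pow_succ, map_mul, AlgEquiv.mul_apply, ← map_sub] at e
  rw [Finset.sum_sub_distrib, e, zero_sub, v.map_neg, Finset.sum_const, Finset.card_range,
    nsmul_eq_mul, map_mul, Nat.cast_add, Nat.cast_mul, Nat.cast_two, Nat.cast_one, v1,
    one_mul] at c
  exact c.false

end Grp

variable {K Ω : Type} [Field K] [NumberField K] [Field Ω] [Algebra K Ω] [IsAlgClosed Ω]
  [IsGalois K Ω] [CharZero Ω] {𝔓 : Ideal (𝓞 Ω)}

theorem genD' {q : Pr K} (h : Over 𝔓 q) (σ : Dec K 𝔓)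
    (h4 : IsFr 𝔓 (Ideal.absNorm q.asIdeal) σ.1) (U : Subgroup (Dec K 𝔓))
    (hU : IsOpen (U : Set (Dec K 𝔓))) (hI : ∀ g : Dec K 𝔓, g.1 ∈ Ine K 𝔓 → g ∈ U) (hσ : σ ∈ U) :
    U = ⊤ := eq_top_iff.2 fun g _ => by
  obtain ⟨F, a, b⟩ := exF hU
  have := NumberField.of_module_finite K F
  obtain ⟨l, l1, l2⟩ := (facts K Ω).fr.res (F := F) h.1 g.1 g.2 fun y => res_fix h (by
    have e : σ.1 • algebraMap (𝓞 F) (𝓞 Ω) y = algebraMap (𝓞 F) (𝓞 Ω) y :=
      RingOfIntegers.ext ((b σ).1 hσ y)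
    have := h4 (algebraMap (𝓞 F) (𝓞 Ω) y)
    rwa [e] at this) g.2
  have := mul_mem (hI (g * (⟨l, l1.1⟩ : Dec K 𝔓)⁻¹) l2) ((b ⟨l, l1.1⟩).2 l1.2)
  rwa [inv_mul_cancel_right] at this

theorem ram (h : 𝔓.IsMaximal) (h2 : 2 ∈ 𝔓) : Ram (Dec K 𝔓) := by
  intro U nU hU
  have T := facts K Ω
  obtain ⟨F, _, _, σ, h1, -, rfl, h3⟩ := exStab nU hU
  obtain ⟨q, hq⟩ := T.pr.under F 𝔓 h
  obtain ⟨q₀, hq₀⟩ := T.pr.under K 𝔓 h
  obtain ⟨s, hs⟩ := exFr hq₀
  have hv := h3 q hq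
  have v2 : q.valuation F 2 < 1 :=
    (q.valuation_lt_one_iff_mem (K := F) 2).2 ((hq.2 2).2 (by rwa [map_ofNat]))
  have := rg_nor hv (· ≤ 1) (fun _ => 1) fun _ _ => zero_lt_one
  have : Finite (Dec K 𝔓 ⧸ σ.ker) := Finite.of_injective _ (QuotientGroup.kerLift_injective σ)
  refine ram_of (N := r0 hv) (P := r1 hv) (s := s) (rg_nor ..) (ker_rg ..) (ker_rg ..)
    (fun H a b => genD' hq₀ s hs H (Subgroup.isOpen_mono ((ker_rg ..).trans a) hU)
      (fun g hg => a fun x hx => ?_) b) (fun g => r0_sq hv v2) fun g hg => ?_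
  · obtain ⟨y, hy⟩ := q.exists_valuation_sub_lt_of_integer hx 1
    have c : q.valuation F (σ g y - y) < 1 :=
      (q.valuation_lt_one_iff_mem (K := F)
        (RingOfIntegers.mapRingEquiv (σ g).toRingEquiv y - y)).2 ((hq.2 _).2 (by
          rw [map_sub, show algebraMap (𝓞 F) (𝓞 Ω)
            (RingOfIntegers.mapRingEquiv (σ g).toRingEquiv y) = g.1 • algebraMap (𝓞 F) (𝓞 Ω) y from
              RingOfIntegers.ext (h1 g y)]
          exact (T.pr.mem_ine 𝔓 g.1).1 hg (algebraMap (𝓞 F) (𝓞 Ω) y)))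
    rw [show σ g x - x = σ g y - y - σ g (y - x) + (y - x) by rw [map_sub]; ring]
    exact Valuation.map_add_lt _ (Valuation.map_sub_lt _ c (by rwa [hv])) hy
  · obtain ⟨n, _, ⟨m, rfl⟩, e⟩ := Nat.exists_eq_two_pow_mul_odd (orderOf_pos (σ g)).ne'
    exact ⟨n, r1_odd hv v2 (Subgroup.pow_mem _ hg _) (m := m) (by
      rw [MonoidHom.mem_ker, ← pow_mul, map_pow, ← e, pow_orderOf_eq_one])⟩

end Pool.Agent.BC.Eu
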