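import Pool.Agent.Lib.MP_b4b3cb_nt.BC.EuA
import Pool.Agent.Lib.MP_b4b3cb_nt.BC.EuB
import Pool.Agent.Lib.MP_b4b3cb_nt.BC.EuK
import Pool.Agent.Lib.MP_b4b3cb_nt.BC.EuP
import Pool.Agent.Lib.MP_b4b3cb_nt.BC.EuR
import Pool.Agent.Lib.MP_b4b3cb_nt.BC.AriG0

/-! The local Euler characteristic at the dyadic places. -/

set_option linter.unusedSectionVars false

namespace Pool.Agent.BC.Eu

open scoped Classical
open Module Pool.Agent.SP

variable {k : Type} [Field k] [CharP k 2] [Finite k] [Algebra (ZMod 2) k]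

theorem card_hm {G : Type} [Group G] [TopologicalSpace G] (f : Finite (Hm (ZMod 2) G)) :
    Nat.card (Hm (ZMod 2) G) = 2 ^ finrank k (Hm k G) := by
  let F : Hm k G → Fin (finrank (ZMod 2) k) → Hm (ZMod 2) G := fun a i => ⟨_, Hm.map a.2 (cd i)⟩
  have bij : Function.Bijective F := ⟨fun a b h => Subtype.ext
    (funext fun g => cd_ext fun i => congrFun (congrArg Subtype.val (congrFun h i)) g), fun a => by
      obtain ⟨x, h1, h2⟩ := glue (fun i => (a i).1) fun i => (a i).2.1
      exact ⟨⟨x, h1, fun g l => cd_ext fun i => by rw [map_add, h2, h2, h2, (a i).2.2]⟩,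
        funext fun i => Subtype.ext (funext (h2 i))⟩⟩
  have : Finite (Hm k G) := Finite.of_injective F bij.1
  have e := Nat.card_eq_of_bijective F bij
  rw [Module.natCard_eq_pow_finrank (K := k), Nat.card_fun, Nat.card_fin,
    Module.natCard_eq_pow_finrank (K := ZMod 2) (V := k), Nat.card_zmod, ← pow_mul, mul_comm,
    pow_mul] at e
  exact (Nat.pow_left_injective finrank_pos.ne' e).symm

open NumberField Pool.Agent.Stark
open SC hiding Hm Rp V T Two Cob Sel Spl cup dq Cz Sz res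

variable {Ω : Type} [Field Ω] [IsAlgClosed Ω] [CharZero Ω] {𝔓 : Ideal (𝓞 Ω)}

theorem feD (h : 𝔓.IsMaximal) (h2 : 2 ∈ 𝔓) (n : ℕ) :
    ∀ (K : Type) [Field K] [NumberField K] [Algebra K Ω] [IsGalois K Ω] (A : Type) [AddCommGroup A]
      [Module k A] [FiniteDimensional k A] (R : FR k (Dec K 𝔓) A), R.ac.ker.index = n → FE R := by
  induction n using Nat.strong_induction_on with
  | _ n ih =>
  rintro K _ _ _ _ A _ _ _ R rfl
  have := fin_index R.ker_open
  rcases ram h h2 _ inferInstance R.ker_open with a | ⟨H, a, b⟩ | ⟨P, a, b, c⟩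
  · exact odd (lfD h) (cnt h) R a
  · have o := Subgroup.isOpen_mono a R.ker_open
    obtain ⟨F, f, d⟩ := exF o
    have := NumberField.of_module_finite K F
    have : IsGalois F Ω := IsGalois.tower_top_of_isGalois K F Ω
    obtain ⟨e, -⟩ := isoD F d
    refine step2 (lfD h) H o b R (FE.iso e (fun _ => rfl)
      (ih _ ?_ F A ((R.res H).comap e.toMulEquiv.toMonoidHom e.continuous) rfl))
    have p := Subgroup.relIndex_mul_index a
    have q : ((R.res H).comap e.toMulEquiv.toMonoidHom e.continuous).ac.ker.index =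
        R.ac.ker.relIndex H :=
      Subgroup.index_comap_of_surjective (R.ac.ker.subgroupOf H) (f := e.toMulEquiv.toMonoidHom)
        e.surjective
    have := Nat.pos_of_ne_zero (Subgroup.FiniteIndex.index_ne_zero (H := R.ac.ker))
    rw [b] at p
    omega
  · exact stepP (lfD h) R a c fun B _ _ _ RB le _ =>
      ih _ (Subgroup.index_strictAnti (b.trans_le le)) K B RB rfl

variable {K : Type} [Field K] [NumberField K] [Algebra K Ω] [IsGalois K Ω] (π : Plc K Ω)

theorem sum_hm (S : Finset (Pr K)) (hS : ∀ q, q ∈ S ↔ og q (2 : K) ≠ 0) :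
    ∑ q ∈ S, finrank k (Hm k (π.D (.inl q))) = 2 * S.card + finrank ℚ K := by
  have e : ∀ q, 2 ^ finrank k (Hm k (π.D (.inl q))) =
      2 ^ 2 * Ideal.absNorm q.asIdeal ^ (og q (2 : K)).toNat := fun q => by
    rw [← card_hm (l0K π _).fin]
    refine Eq.trans (Nat.card_eq_of_bijective (fun f : SC.Hm (π.D (.inl q)) =>
      (⟨_, hom_iff.2 f.2.1⟩ : Hm (ZMod 2) (π.D (.inl q)))) ⟨fun a b e => Subtype.ext
        (funext fun g => ?_), fun ⟨a, ha⟩ => ?_⟩).symm
      ((st_Card (facts K Ω).dict (facts K Ω).cj).card π q)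
    · by_cases hg : g ∈ π.D (.inl q)
      · exact congrFun (congrArg Subtype.val e) ⟨g, hg⟩
      · rw [a.2.2 g hg, b.2.2 g hg]
    · obtain ⟨a, rfl⟩ := ext1 a
      have e : (fun g : π.D (.inl q) => SC.res (π.D (.inl q)) a g) = fun g : π.D (.inl q) => a g :=
        funext fun g => if_pos g.2
      exact ⟨⟨SC.res _ a, hom_iff.1 (e ▸ ha), fun g hg => if_neg hg⟩, Subtype.ext e⟩
  refine Nat.pow_right_injective le_rfl ?_
  beta_reduce
  rw [← Finset.prod_pow_eq_pow_sum, Finset.prod_congr rfl fun q _ => e q, Finset.prod_mul_distrib,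
    prod_absNorm_two S fun q hq => not_not.1 ((hS q).not.1 hq), Finset.prod_const, ← pow_mul,
    pow_add]

/-- The formula of Tate, summed over the dyadic places. -/
theorem tateK {A A' : Type} [AddCommGroup A] [Module k A] [FiniteDimensional k A]
    [AddCommGroup A'] [Module k A'] (R : FR k Gal(Ω/K) A) {R' : FR k Gal(Ω/K) A'}
    {b : A' →ₗ[k] A →ₗ[k] k} (hP : Pf R' R b) (S : Finset (Pr K))
    (hS : ∀ q, q ∈ S ↔ og q (2 : K) ≠ 0) :
    ∑ q ∈ S, finrank k (R.res (π.D (.inl q))).Z1 =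
      ∑ q ∈ S, (finrank k A + finrank k (R'.res (π.D (.inl q))).H0) + finrank ℚ K * finrank k A := by
  have f : ∀ q ∈ S, FE (R.res (π.D (.inl q))) := fun q hq => feD (π.hov q).1
    (not_not.1 (((facts K Ω).pr.two (π.hov q)).not.2 ((hS q).1 hq))) _ K A _ rfl
  have a := Finset.sum_congr rfl fun q hq => f q hq A' _ b (hP.res _)
  simp only [Finset.sum_add_distrib, Finset.sum_const, smul_eq_mul, ← Finset.sum_mul,
    sum_hm π S hS, add_mul, mul_assoc] at a ⊢
  omega

end Pool.Agent.BC.Eu
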