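import Pool.Agent.Lib.MP_b4b3cb_nt.BC.Dev

/-! Finiteness of the cocycles with restricted ramification. -/

namespace Pool.Agent.BC

open scoped Classical
open Module Pool.Agent.SP

variable {k : Type} [Field k] {G : Type} [Group G] [TopologicalSpace G] {P : Type}
  {D I : P → Subgroup G} {A B : Type} [AddCommGroup A] [Module k A] [AddCommGroup B] [Module k B]

theorem Eqv.unS {R : FR k G A} {R' : FR k G B} {f : A →ₗ[k] B} (h : Eqv R R' f) {S : Finset P}
    {x : G → A} (hx : x ∈ R.UnS I S) : (fun g => f (x g)) ∈ R'.UnS I S :=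
  ⟨h.z1 hx.1, fun v hv i hi => by simp only [hx.2 v hv i hi, map_zero]⟩

theorem Eqv.unS_of {R : FR k G A} {R' : FR k G B} {f : A →ₗ[k] B} (h : Eqv R R' f)
    (inj : Function.Injective f) {S : Finset P} {x : G → A}
    (hx : (fun g => f (x g)) ∈ R'.UnS I S) : x ∈ R.UnS I S :=
  ⟨h.z1_of inj hx.1, fun v hv i hi => inj ((hx.2 v hv i hi).trans (map_zero f).symm)⟩

theorem finUn [Finite k] [CharP k 2] [Algebra (ZMod 2) k] [IsTopologicalGroup G] [CompactSpace G]
    (b : BaseP k D I) [FiniteDimensional k A] (R : FR k G A) (S : Finset P) :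
    FiniteDimensional k (R.UnS I S) := by
  refine deviss (fun A _ _ R => FiniteDimensional k (R.UnS I S)) (fun H o _ h => ?_)
    (fun A _ _ R h => Module.Finite.of_finite) ?_ ?_ A R
  · have := H.quotient_finite_of_isOpen o
    have := Fintype.ofFinite (G ⧸ H)
    exact (b H h).fin S
  · intro A₁ A A₂ _ _ _ _ _ _ _ _ _ R₁ R R₂ i p hi hp inj _ ex q1 q2
    have a : (R.UnS I S).map (p.compLeft G) ≤ R₂.UnS I S := by
      rintro _ ⟨x, hx, rfl⟩
      exact hp.unS hx
    have c : R.UnS I S ⊓ LinearMap.ker (p.compLeft G) ≤ (R₁.UnS I S).map (i.compLeft G) := by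
      rintro x ⟨h1, h2⟩
      choose y hy using fun g => show x g ∈ LinearMap.range i from ex ▸ congrFun h2 g
      obtain rfl : x = fun g => i (y g) := (funext hy).symm
      exact ⟨y, hi.unS_of inj h1, rfl⟩
    exact (Module.Finite.iff_fg).2 (Submodule.fg_of_fg_map_of_fg_inf_ker (p.compLeft G)
      ((Module.Finite.iff_fg).1 (Submodule.finiteDimensional_of_le a))
      ((Module.Finite.iff_fg).1 (Submodule.finiteDimensional_of_le c)))
  · intro A B _ _ _ _ _ _ R R' i p hi _ e q
    exact Submodule.finiteDimensional_of_le (S₂ := (R'.UnS I S).map (p.compLeft G))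
      fun x hx => ⟨_, hi.unS hx, funext fun g => e _⟩

end Pool.Agent.BC
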