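import Pool.Agent.Lib.MP_b4b3cb_nt.BC.PTe
import Pool.Agent.Lib.MP_b4b3cb_nt.BC.FinU
import Pool.Agent.Lib.MP_b4b3cb_nt.BC.Perm

/-! The global duality for all finite modules. -/

set_option linter.unusedSectionVars false

namespace Pool.Agent.BC

open scoped Classical
open Module Pool.Agent.SP

variable {k : Type} [Field k] [Finite k] [CharP k 2] [Algebra (ZMod 2) k]
  {G : Type} [Group G] [TopologicalSpace G] [IsTopologicalGroup G] [CompactSpace G]
  {A A' A₁ A₁' A₂ A₂' : Type} [AddCommGroup A] [Module k A] [AddCommGroup A'] [Module k A']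
  [AddCommGroup A₁] [Module k A₁] [AddCommGroup A₁'] [Module k A₁']
  [AddCommGroup A₂] [Module k A₂] [AddCommGroup A₂'] [Module k A₂']
  {P : Type} {D I : P → Subgroup G} {S₂ S : Finset P}
  {β : A' →ₗ[k] A →ₗ[k] k} {R : FR k G A} {R' : FR k G A'}
  {γ : A₁' →ₗ[k] A₁ →ₗ[k] k} {R₁ : FR k G A₁} {R₁' : FR k G A₁'}
  {δ : A₂' →ₗ[k] A₂ →ₗ[k] k} {R₂ : FR k G A₂} {R₂' : FR k G A₂'}

namespace PTf

open PTe

theorem zero (s : Subsingleton A) : PTs D I S₂ β R' R := fun Y _ _ _ _ _ _ _ =>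
  ⟨0, IsLocallyConstant.const _, fun _ _ => Subsingleton.elim _ _, fun v =>
    Set.mem_of_eq_of_mem (funext fun _ => Subsingleton.elim _ _) (Y v).zero_mem⟩

theorem ret (h : G0 k D I S₂) {i : A →ₗ[k] A₁} {p : A₁ →ₗ[k] A} {i' : A₁' →ₗ[k] A'}
    (hi : Eqv R R₁ i) (hp : Eqv R₁ R p) (hi' : Eqv R₁' R' i') (pi : ∀ a, p (i a) = a)
    (e : ∀ u v, β (i' u) v = γ u (i v)) (q : PTs D I S₂ γ R₁' R₁) : PTs D I S₂ β R' R := by
  intro Y S hS c ξ f d hy
  obtain ⟨T, hT⟩ := h.ram R₁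
  let W : ∀ v, Submodule k (D v → A₁) := fun v =>
    if v ∈ S ∪ T then (R₁.res (D v)).Z1 ⊓ (Y v).comap (p.compLeft _)
    else (R₁.res (D v)).Un ((I v).subgroupOf (D v))
  have w1 : ∀ v ∈ S ∪ T, W v = (R₁.res (D v)).Z1 ⊓ (Y v).comap (p.compLeft _) :=
    fun v e => if_pos e
  have w2 : ∀ v ∉ S ∪ T, W v = (R₁.res (D v)).Un ((I v).subgroupOf (D v)) := fun v e => if_neg e
  have c' : Cd I R₁ W (S ∪ T) := ⟨fun v => ?_, fun v => ?_, w2⟩
  rotate_left
  · by_cases m : v ∈ S ∪ T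
    · exact ((hp.res _).b1_comap (c.b1 v)).trans (w1 v m).ge
    · rintro _ ⟨u, rfl⟩
      refine (w2 v m).ge ⟨FR.d1_mem _ u, fun j hj => ?_⟩
      rw [FR.d1_apply, FR.res_ac, hT v (fun a => m (Finset.mem_union_right _ a)) j hj]
      exact sub_self u
  · by_cases m : v ∈ S ∪ T
    exacts [(w1 v m).le.trans inf_le_left, (w2 v m).le.trans fun _ a => a.1]
  obtain ⟨φ, l, a1, a2⟩ := q W _ (hS.trans Finset.subset_union_left) c' _ _ (d.map hi)
    fun y hy' => (PV.adj hi e).1 (hy _ ⟨hi'.z1 hy'.1, fun v =>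
      ⟨FR.res_z1 (hi'.z1 hy'.1) _, fun x hx => by
        rw [c11_adj (hi.res (D v)) e]
        refine (hy'.2 v).2 _ ?_
        have z := (hi.res (D v)).z1 (c.z1 v hx)
        by_cases m : v ∈ S ∪ T
        · exact (w1 v m).ge ⟨z, Submodule.mem_comap.2 (by
            convert hx using 1
            exact funext fun g => pi (x g))⟩
        · exact (w2 v m).ge ⟨z, fun j hj => (congrArg i (((c.un v fun a =>
            m (Finset.mem_union_left _ a)).le hx).2 j hj)).trans (map_zero i)⟩⟩⟩)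
  refine ⟨fun g => p (φ g), lc_one p l, fun g l => by rw [hp.d2, ← a1, pi], fun v => ?_⟩
  have e' : (fun g : D v => p (φ g)) - f v =
      fun g => p (((fun g : D v => φ g) - fun g => i (f v g)) g) := funext fun g => by
    simp [pi]
  rw [e']
  by_cases m : v ∈ S ∪ T
  · exact ((w1 v m).le (a2 v)).2
  · have := (w2 v m).le (a2 v)
    exact (c.un v fun a => m (Finset.mem_union_left _ a)).ge ⟨(hp.res _).z1 this.1, fun j hj =>
      (congrArg p (this.2 j hj)).trans (map_zero p)⟩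

theorem base [FiniteDimensional k A] (h : G0 k D I S₂) {β : A →ₗ[k] A →ₗ[k] k} (hP : Pf R R β)
    (b : Base D I R β) : PTs D I S₂ β R R := by
  intro Y S hS c ξ f d hy
  obtain ⟨φ, l, e⟩ := b.abhn ξ d.z2 fun v => ⟨f v, d.lc v, d.df v⟩
  let a : ∀ v, D v → A := fun v g => f v g + φ g
  have da : Dat I R 0 a := by
    have := d.add (h.dat_cob (R := R) l)
    rwa [show ξ + R.d2 φ = 0 from funext₂ fun g l => by
      rw [Pi.add_apply, Pi.add_apply, ← e]; exact add_self (k := k) _] at this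
  have za : ∀ v, a v ∈ (R.res (D v)).Z1 := fun v => ⟨da.lc v, fun g l => (da.df v g l).symm⟩
  obtain ⟨T, hT⟩ := da.ae
  obtain ⟨U, le, lag⟩ := b.lag (S ∪ T)
  have n1 : ∀ v ∉ U, v ∉ S := fun v m q => m (le (Finset.mem_union_left _ q))
  have ya : ∀ v ∉ U, a v ∈ Y v := fun v m => (c.un v (n1 v m)).ge
    ⟨za v, (FR.inf_iff (za v)).1 (hT v fun q => m (le (Finset.mem_union_right _ q)))⟩
  have fd : ∀ v, FiniteDimensional k (Y v) := fun v =>
    have := (h.ld v).fin (R.res (D v))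
    Submodule.finiteDimensional_of_le (c.z1 v)
  let r : ∀ v, R.UnS I U →ₗ[k] (R.res (D v)).Z1 := fun v =>
    ⟨⟨fun y => ⟨_, FR.res_z1 y.2.1 (D v)⟩, fun _ _ => rfl⟩, fun _ _ => rfl⟩
  let B : R.UnS I U →ₗ[k] (∀ v : U, Y v) →ₗ[k] k := ∑ v : U, (lp (h.two v) (hP.res _)).compl₁₂
    (r v) (Submodule.inclusion (c.z1 v) ∘ₗ LinearMap.proj v)
  have hB : ∀ y t, B y t = ∑ v : U, invK (c11 β (R.res (D v)) (fun g => y.1 g) (t v)) :=
    fun y t => by simp only [B, LinearMap.sum_apply]; rfl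
  obtain ⟨t, ht⟩ := bidual B (∑ v : U, (lp (h.two v) (hP.res _)).flip ⟨_, za v⟩ ∘ₗ r v)
    fun y q => by
    have m : y.1 ∈ R.Sel fun v => ann β (R.res (D v)) (R.res (D v)) (Y v) := ⟨y.2.1, fun v => by
      by_cases m : v ∈ U
      · refine ⟨(r v y).2, fun x hx => (lp_zero (h.two v) (hP.res _) (r v y) ⟨x, c.z1 v hx⟩).1 ?_⟩
        have := q (Pi.single ⟨v, m⟩ ⟨x, hx⟩)
        rw [hB, Finset.sum_eq_single ⟨v, m⟩ (fun w _ n => by
          rw [Pi.single_eq_of_ne n]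
          exact invK_sz (sz_congr sz_zero fun g l => by simp [c11])) (by simp),
          Pi.single_eq_same] at this
        exact this
      · exact ((cd_ann h hP hS c).un v (n1 v m)).ge
          ((mem_Un_res h.le y.2.1 v).2 (y.2.2 v m))⟩
    have := (PV.loc ⟨U, fun v n => (m.2 v).2 _ (ya v n), rfl⟩).uniq h hP y.2.1 da
      ((hy _ m).cob hP y.2.1 l (fun g l => by rw [← e]; exact (add_self (k := k) _).symm)
        fun _ _ => rfl)
    rw [← Finset.sum_coe_sort] at this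
    rw [LinearMap.sum_apply]
    exact this
  let s : ∀ v, D v → A := fun v => if m : v ∈ U then (t ⟨v, m⟩).1 else 0
  have s1 : ∀ v : U, s v = t v := fun v => dif_pos v.2
  have s2 : ∀ v ∈ U, s v ∈ Y v := fun v m => s1 ⟨v, m⟩ ▸ (t ⟨v, m⟩).2
  obtain ⟨z, hz, z2⟩ := lag (a + s) (fun v m => add_mem (za v) (c.z1 v (s2 v m))) fun y m => by
    have := ht ⟨y, m⟩
    rw [hB, LinearMap.sum_apply] at this
    rw [← Finset.sum_coe_sort, ← CharTwo.add_eq_zero.2 this, ← Finset.sum_add_distrib]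
    refine Finset.sum_congr rfl fun v _ => ?_
    rw [Pi.add_apply, c11_add_right, invK_add (h.two v) (cz_c11 (hP.res _) (FR.res_z1 m.1 _) (za v))
      (cz_c11 (hP.res _) (FR.res_z1 m.1 _) (c.z1 v (s2 v v.2))), s1]
    rfl
  refine ⟨φ + z, l.add hz.1.1, fun g l => by rw [R.d2_add, hz.1.2, add_zero, e], fun v => ?_⟩
  have e' : (fun g : D v => (φ + z) g) - f v = (fun g : D v => z g) - a v := funext fun g => by
    change φ g + z g - f v g = z g - (f v g + φ g)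
    rw [show z g - (f v g + φ g) = -φ g + z g - f v g by abel, neg_eq k]
  rw [e']
  by_cases m : v ∈ U
  · have := add_mem (c.b1 v (z2 v m)) (s2 v m)
    rwa [Pi.add_apply, ← sub_sub, sub_add_cancel] at this
  · exact sub_mem ((c.un v (n1 v m)).ge ((mem_Un_res h.le hz.1 v).2 (hz.2 v m))) (ya v m)

/-- The dual of an exact sequence. -/
theorem exact [FiniteDimensional k A] [FiniteDimensional k A₁] [FiniteDimensional k A₂]
    (hP : Pf R' R β) (hP₁ : Pf R₁' R₁ γ) (hP₂ : Pf R₂' R₂ δ) {i : A₁ →ₗ[k] A} {p : A →ₗ[k] A₂}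
    {i' : A' →ₗ[k] A₁'} {p' : A₂' →ₗ[k] A'} (inj : Function.Injective i)
    (sj : Function.Surjective p) (ex : LinearMap.ker p = LinearMap.range i)
    (ei : ∀ u v, γ (i' u) v = β u (i v)) (ep : ∀ u v, β (p' u) v = δ u (p v)) :
    Function.Injective p' ∧ Function.Surjective i' ∧ LinearMap.ker i' = LinearMap.range p' := by
  refine ⟨(injective_iff_map_eq_zero _).2 fun u q => hP₂.nl u fun v => ?_, fun u => ?_,
    le_antisymm (fun u q => ?_) ?_⟩
  · obtain ⟨w, rfl⟩ := sj v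
    rw [← ep, q, LinearMap.map_zero₂]
  · obtain ⟨s, hs⟩ := i.exists_leftInverse_of_injective (LinearMap.ker_eq_bot.2 inj)
    obtain ⟨w, hw⟩ := hP.bij.2.2 (γ u ∘ₗ s)
    refine ⟨w, sub_eq_zero.1 (hP₁.nl _ fun v => ?_)⟩
    rw [map_sub, LinearMap.sub_apply, ei, hw]
    exact sub_eq_zero.2 (congrArg (γ u) (LinearMap.congr_fun hs v))
  · obtain ⟨s, hs⟩ := p.exists_rightInverse_of_surjective (LinearMap.range_eq_top.2 sj)
    obtain ⟨w, hw⟩ := hP₂.bij.2.2 (β u ∘ₗ s)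
    refine ⟨w, sub_eq_zero.1 (hP.nl _ fun v => ?_)⟩
    obtain ⟨a, ha⟩ : s (p v) - v ∈ LinearMap.range i := ex.le (by
      rw [LinearMap.mem_ker, map_sub]
      exact sub_eq_zero.2 (LinearMap.congr_fun hs (p v)))
    rw [map_sub, LinearMap.sub_apply, ep, hw, LinearMap.comp_apply, ← map_sub, ← ha, ← ei,
      show i' u = 0 from q, LinearMap.map_zero₂]
  · rintro _ ⟨u, rfl⟩
    exact hP₁.nl _ fun v => by rw [ei, ep, show p (i v) = 0 from ex.ge ⟨v, rfl⟩, map_zero]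

theorem ret2 [FiniteDimensional k A] [FiniteDimensional k A₁] (h : G0 k D I S₂) (hP : Pf R' R β)
    (hP₁ : Pf R₁' R₁ γ) {i : A →ₗ[k] A₁} {p : A₁ →ₗ[k] A} (hi : Eqv R R₁ i) (hp : Eqv R₁ R p)
    (pi : ∀ a, p (i a) = a) (q : PTs D I S₂ γ R₁' R₁) (q' : PTs D I S₂ γ.flip R₁ R₁') :
    PTs D I S₂ β R' R ∧ PTs D I S₂ β.flip R R' := by
  obtain ⟨i', hi', ei⟩ := hP.adj hP₁ hi
  obtain ⟨p', hp', ep⟩ := hP₁.adj hP hp
  exact ⟨ret h hi hp hi' pi ei q, ret (γ := γ.flip) h hp' hi' hp (fun a => sub_eq_zero.1 (hP.nl _ fun v => by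
    rw [map_sub, LinearMap.sub_apply, ei, ep, pi, sub_self])) (fun u v => (ep v u).symm) q'⟩

end PTf

open PTf

/-- The duality of Poitou and Tate, given finiteness. -/
theorem gp' (h : G0 k D I S₂) (b : BaseP k D I)
    (fin : ∀ {A : Type} [AddCommGroup A] [Module k A] [FiniteDimensional k A] (R : FR k G A)
      (S : Finset P), FiniteDimensional k (R.UnS I S)) : GP k D I S₂ := by
  have key := deviss (k := k) (G := G) (fun A _ _ R => ∀ (A' : Type) [AddCommGroup A']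
    [Module k A'] (R' : FR k G A') (β : A' →ₗ[k] A →ₗ[k] k), Pf R' R β →
      PTs D I S₂ β R' R ∧ PTs D I S₂ β.flip R R') ?_ ?_ ?_ ?_
  · exact ⟨h, fin, fun hP Y S hS c ξ f d hy => (key _ _ _ _ _ hP).1 Y S hS c ξ f d hy⟩
  · intro H o _ l A' _ _ R' β hP
    have : Finite (G ⧸ H) := H.quotient_finite_of_isOpen o
    have := Fintype.ofFinite (G ⧸ H)
    have q := base h perm_pf (b H l)
    refine ret2 h hP perm_pf (i := LinearMap.id) (p := LinearMap.id) (fun _ _ => rfl)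
      (fun _ _ => rfl) (fun _ => rfl) q ?_
    convert q using 1
    exact LinearMap.ext₂ fun u v => dotProduct_comm v u
  · intro A _ _ R s A' _ _ R' β hP
    exact ⟨zero s, zero (subsingleton_of_forall_eq 0 fun u => hP.nl u fun v => by
      rw [Subsingleton.elim v 0, map_zero])⟩
  · intro A₁ A A₂ _ _ _ _ _ _ _ _ _ R₁ R R₂ i p hi hp inj sj ex q₁ q₂ A' _ _ R' β hP
    obtain ⟨R₁', hP₁, -⟩ := R₁.dual
    obtain ⟨R₂', hP₂, -⟩ := R₂.dual
    obtain ⟨i', hi', ei⟩ := hP₁.adj hP hi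
    obtain ⟨p', hp', ep⟩ := hP.adj hP₂ hp
    obtain ⟨inj', sj', ex'⟩ := PTf.exact hP hP₁ hP₂ inj sj ex ei ep
    have := hP.bij.1
    exact ⟨PTs.ext h hP hP₁ hP₂ hi hp hi' hp' inj sj ex inj' sj' ex' ei ep (fin _)
      (q₁ _ _ _ hP₁).1 (q₂ _ _ _ hP₂).1 (q₂ _ _ _ hP₂).2,
      PTs.ext h hP.flip hP₂.flip hP₁.flip hp' hi' hp hi inj' sj' ex' inj sj ex
        (fun u v => (ep v u).symm) (fun u v => (ei v u).symm) (fin _)
        (q₂ _ _ _ hP₂).2 (q₁ _ _ _ hP₁).2 (q₁ _ _ _ hP₁).1⟩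
  · intro A B _ _ _ _ _ _ R R₁ i p hi hp pi q A' _ _ R' β hP
    obtain ⟨R₁', hP₁, -⟩ := R₁.dual
    exact ret2 h hP hP₁ hi hp pi (q _ _ _ hP₁).1 (q _ _ _ hP₁).2

/-- The duality of Poitou and Tate. -/
theorem gp (h : G0 k D I S₂) (b : BaseP k D I) : GP k D I S₂ := gp' h b fun R S => finUn b R S

end Pool.Agent.BC
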