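import Pool.Agent.Lib.MP_b4b3cb_nt.BC.AriG
import Pool.Agent.Lib.MP_b4b3cb_nt.BC.PT

/-! The duality of Poitou and Tate for a number field, in characteristic two. -/

namespace Pool.Agent.BC

variable {K Ω : Type} [Field K] [NumberField K] [Field Ω] [Algebra K Ω] [IsAlgClosed Ω]
  [IsGalois K Ω] [CharZero Ω] (k : Type) [Field k] [Finite k] [CharP k 2] [Algebra (ZMod 2) k]
  (π : SC.Plc K Ω)

theorem gpK : GP k π.D π.I (S2 K) := gp (g0K k π) (basePK k π)

end Pool.Agent.BC
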