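import Pool.Agent.Lib.MP_b4b3cb_nt.BC.EOdd
import Pool.Agent.Lib.MP_b4b3cb_nt.BC.ERk

/-! The local term at a ramified place, in general. -/

set_option linter.unusedSectionVars false

namespace Pool.Agent.BC

open scoped Classical
open Module Pool.Agent.SP

section

variable {k : Type} [Field k] {G : Type} [Group G] [TopologicalSpace G]
  {V : Type} [AddCommGroup V] [Module k V] {I : Subgroup G} {σ τ : G} [CharP k 2]

/-- The cup product of a ramified character with an unramified one. -/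
theorem MI.inv_ram [Finite k] [Algebra (ZMod 2) k] (M : MI k I σ) (H : Two G) {θ β : G → k}
    (hθ : θ ∈ (triv k G).Un I) (hb : β ∈ (triv k G).Z1) (b2 : ∀ i ∈ I, β i ^ 2 = β i) (hτ : τ ∈ I)
    (b1 : β τ = 1) : invK (fun g h => β g * θ h) = θ σ := by
  obtain ⟨α, p1, p2, p3, p4⟩ := M.u0 (triv k G) 0 1 ⟨IsLocallyConstant.const _, by simp⟩
    (fun _ _ _ _ => ⟨rfl, rfl⟩) (fun _ _ _ _ => rfl) fun _ _ => rfl
  have z : α ∈ (triv k G).Z1 := ⟨p1, fun g h => (p4 g h).symm⟩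
  have ha : α ∈ (triv k G).Un I := ⟨z, (FR.inf_iff z).1 p2⟩
  have a2 : (fun g => α g ^ 2 + α g) = 0 := M.ext (R := triv k G)
    ⟨triv_z1.2 ⟨lc_one (fun x => x ^ 2 + x) p1, fun g h => by
      simp only [(triv_z1.1 z).2]
      grind⟩, fun i hi => by simp [ha.2 i hi]⟩ (by simp [p3, CharTwo.add_self_eq_zero])
  have e := sub_eq_zero.1 (M.ext (sub_mem hθ (Submodule.smul_mem _ (θ σ) ha)) (by simp [p3]))
  have q := M.inv_un H ha p3 (fun g => (eq_neg_of_add_eq_zero_left (congrFun a2 g)).trans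
    (CharTwo.neg_eq _)) hb b2 hτ b1
  have cz : Cz fun g h => α g * β h := cz_c11 triv_pf ha.1 hb
  refine (invK_swap H triv_pf hb hθ.1).trans ?_
  rw [← mul_one (θ σ), ← q, ← invK_smul H _ cz]
  refine congrArg invK (funext₂ fun g h => ?_)
  change β h * θ g = θ σ * (α g * β h)
  rw [show θ g = θ σ * α g from congrFun e g]
  ring

namespace RD

variable {X : RD k G V} [FiniteDimensional k V]

theorem ram_key {N g : Module.End k V} (hN : ∀ x y, X.a (N x) y = X.a x (N y))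
    (hg : ∀ x y, X.a (g x) (g y) = X.a x y) (sj : Function.Surjective g)
    (cm : ∀ x, N (g x) = g (N x)) {u : V} (hu : (g - 1) u ∈ LinearMap.range N)
    (hQ : ∀ x, (g - 1) x ∈ LinearMap.range N → X.a x ((g - 1) x) = X.a u ((g - 1) x) ^ 2) :
    ∃ m : ℕ, (m : k) = X.a u ((g - 1) u) ∧
      m + finrank k (LinearMap.ker N) + finrank k (LinearMap.range (g - 1)) = 2 * finrank k V +
        finrank k (LinearMap.ker N ⊓ (LinearMap.range N).comap (g - 1) : Submodule k V) := by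
  set K := LinearMap.ker N
  set A := (LinearMap.range N).comap (g - 1)
  let β : V →ₗ[k] K →ₗ[k] k := X.a.compl₂ ((g - 1) ∘ₗ K.subtype)
  have mv : ∀ x v, X.a x ((g - 1) v) = X.a ((g - 1) x) (g v) := fun x v => by
    simp only [LinearMap.sub_apply, Module.End.one_apply, map_sub, hg]
    grind
  have kb : LinearMap.ker β = A := Submodule.ext fun x => by
    constructor
    · intro h
      obtain ⟨y, hy⟩ := bidual (X.a.compl₂ N) (X.a.flip ((g - 1) x)) fun w p => by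
        obtain ⟨v, rfl⟩ := sj w
        have a1 : N (g v) = 0 := X.pf.nl _ fun z => (hN _ _).trans (p z)
        have a2 : N v = 0 := X.pf.nl _ fun z => by rw [← hg, ← cm, a1]; simp
        exact (X.sy _ _).trans ((mv x v).symm.trans (LinearMap.congr_fun h ⟨v, a2⟩))
      exact ⟨y, (sub_eq_zero.1 (X.pf.nr _ fun w => by
        rw [map_sub]; exact sub_eq_zero.2 (hy w))).symm⟩
    · rintro ⟨y, hy⟩
      refine LinearMap.ext fun v => (mv x v).trans ?_
      rw [← hy, hN, cm, show N v = 0 from v.2]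
      simp
  have kA : LinearMap.ker (g - 1) ≤ A := fun x p => ⟨0, (map_zero _).trans (Eq.symm p)⟩
  have w := wu (A := A) (A' := K ⊓ A ⊔ LinearMap.ker (g - 1))
    (f := fun x y => X.a x ((g - 1) y)) (sup_le inf_le_right kA)
    (fun b _ => ⟨fun x _ y _ => by simp, fun r x _ => by simp⟩)
    (fun b _ => ⟨fun x _ y _ => by simp only [map_add], fun r x _ => by
      simp only [map_smul, smul_eq_mul]⟩) hu hQ fun b hb => ⟨fun p x hx => by
      obtain ⟨v, hv, z, hz, rfl⟩ := Submodule.mem_sup.1 p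
      beta_reduce
      rw [map_add, show (g - 1) z = 0 from hz, add_zero]
      exact LinearMap.congr_fun (kb.ge hx) ⟨v, hv.1⟩, fun p => by
      obtain ⟨v, hv⟩ := bidual β (X.a.flip ((g - 1) b)) fun x q => p x (kb.le (LinearMap.ext q))
      have e : (g - 1) (b - v) = 0 := X.pf.nr _ fun x => by
        rw [map_sub, map_sub]; exact sub_eq_zero.2 (hv x)
      exact Submodule.mem_sup.2 ⟨v, ⟨v.2, by simpa using sub_mem hb (kA e)⟩, _, e,
        add_sub_cancel _ _⟩⟩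
  refine ⟨_, w, ?_⟩
  have a1 := rank_ker β
  have a2 : LinearMap.ker β.flip = (LinearMap.ker (g - 1)).comap K.subtype :=
    Submodule.ext fun v => ⟨fun p => X.pf.nr _ fun x => LinearMap.congr_fun p x,
      fun p => LinearMap.ext fun x => (congrArg (X.a x) p).trans (map_zero _)⟩
  have a3 := Submodule.finrank_sup_add_finrank_inf_eq (K ⊓ A) (LinearMap.ker (g - 1))
  have a4 := (g - 1).finrank_range_add_finrank_ker
  rw [kb, a2, SC.PairAux.finrank_comap] at a1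
  rw [inf_assoc, inf_eq_right.2 kA] at a3
  omega

theorem ram_q {u w : V} (al : ∀ x, X.a x (X.r.ac τ x) = 0) (h0 : (X.c + X.r.d1 u) τ = 0)
    (cs : (X.c + X.r.d1 u) σ = (X.r.ac σ - 1) w) (x : V)
    (hx : (X.r.ac σ - 1) x ∈ LinearMap.range (X.r.ac τ - 1)) :
    X.a x ((X.r.ac σ - 1) x) = X.a w ((X.r.ac σ - 1) x) ^ 2 := by
  have hQ : ∀ g x, X.N (X.r.ac g x - x) (X.r.ac g x - x) + X.a u (X.r.ac g x - x) ^ 2 =
      X.a x (X.r.ac g x) + X.a ((X.c + X.r.d1 u) g) (X.r.ac g x) ^ 2 := fun g x => by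
    rw [sub_eq k, X.N_add, X.sy _ x]
    simp only [X.hc, Pi.add_apply, FR.d1_apply, map_add, map_sub, LinearMap.add_apply,
      LinearMap.sub_apply, X.pf.eq]
    grind
  obtain ⟨y, hy⟩ := hx
  have a1 := hQ σ x
  have a2 := hQ τ y
  rw [show X.r.ac τ y - y = X.r.ac σ x - x from hy, a1, h0, al, cs] at a2
  simp only [LinearMap.sub_apply, Module.End.one_apply, map_sub, map_zero, LinearMap.zero_apply,
    X.alt, X.pf.eq] at a2 ⊢
  grind

theorem D0_rk' {u v : V} (hv : X.c σ = X.r.ac σ v - v) : X.D0 u σ =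
    finrank k (LinearMap.range (X.r.ac σ - 1)) + X.a (v + u) ((X.r.ac σ - 1) (v + u)) := by
  rw [← X.rk σ v hv, D0, Pi.add_apply, FR.d1_apply, hv]
  have a1 := X.sy u v
  simp only [LinearMap.sub_apply, Module.End.one_apply, map_sub, map_add, LinearMap.add_apply,
    X.pf.eq, X.alt]
  grind

variable [Finite k] [Algebra (ZMod 2) k]

/-- The local term at a place where the character ramifies, in general. -/
theorem ram2 (H : Two G) (L : LDm k G) (M : MI k I σ) (hq : X.SQ (X.W.Un I ⊔ X.W.B1))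
    (hI : ∀ i ∈ I, X.χ i = 0 → X.r.ac i = 1) (hτ : τ ∈ I) (hχ : X.χ τ = 1)
    (al : ∀ x, X.a x (X.r.ac τ x) = 0) (ev : Even (finrank k V)) :
    X.Term (X.W.Un I ⊔ X.W.B1) 0 := by
  have rT : ∀ i ∈ I, X.χ i = 1 → ∀ x, X.r.ac i (X.r.ac τ x) = x := fun i hi p x => by
    rw [← X.r.mul, hI _ (mul_mem hi hτ) (by rw [X.χ_mul, p, hχ, CharTwo.add_self_eq_zero])]
    rfl
  have rI : ∀ i ∈ I, X.r.ac i = 1 ∨ X.r.ac i = X.r.ac τ := fun i hi => by
    by_cases p : X.χ i = 0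
    · exact Or.inl (hI i hi p)
    refine Or.inr (LinearMap.ext fun x => ?_)
    rw [← rT i hi (mul_left_cancel₀ p ((X.χ2 i).trans (mul_one _).symm)) (X.r.ac τ x), rT τ hτ hχ]
  have cm : ∀ x, X.r.ac τ (X.r.ac σ x) = X.r.ac σ (X.r.ac τ x) := fun x => by
    have a1 := X.χ_mul (σ * τ * σ⁻¹) σ
    rw [inv_mul_cancel_right, X.χ_mul, hχ, add_comm, add_left_inj] at a1
    have a2 := rT _ (M.nor.conj_mem τ hτ σ) a1.symm (X.r.ac τ (X.r.ac σ x))
    rw [rT τ hτ hχ, ← X.r.mul, inv_mul_cancel_right, X.r.mul] at a2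
    exact a2.symm
  set N := X.r.ac τ - 1 with hN0
  have hN : ∀ x y, X.a (N x) y = X.a x (N y) := fun x y => by
    have := X.pf.eq τ x (X.r.ac τ y)
    rw [rT τ hτ hχ] at this
    simp only [hN0, LinearMap.sub_apply, Module.End.one_apply, map_sub, this]
  have wI : ∀ t ∈ X.W.Un I, ∀ g, N (t g).1 = (t g).2 := fun t ht g => by
    have a1 := FR.un_fix M.nor ht hτ g
    have a2 : X.r.ac τ ((t g).1 + X.χ τ • (t g).2) = (t g).1 := congrArg Prod.fst a1
    have a3 : X.r.ac τ (t g).2 = (t g).2 := congrArg Prod.snd a1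
    rw [hχ, one_smul, map_add, a3] at a2
    exact (sub_eq_iff_eq_add'.2 (eq_sub_of_add_eq a2 |>.trans (sub_eq k _ _)))
  have evN : (finrank k (LinearMap.range N) : k) = 0 ∧ Even (finrank k (LinearMap.range N)) := by
    have a1 := pair_alt (A := ⊤) (A' := LinearMap.ker N) (f := fun x y => X.a x (N y)) le_top
      (fun b _ => ⟨fun x _ y _ => by simp, fun r x _ => by simp⟩)
      (fun b _ => ⟨fun x _ y _ => by simp only [map_add], fun r x _ => by
        simp only [map_smul, smul_eq_mul]⟩)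
      (fun x _ => by simp [hN0, al, X.alt]) fun x _ => ⟨fun p y _ => by
        rw [← hN, show N x = 0 from p]; simp, fun p => X.pf.nl _ fun y => (hN _ _).trans (p y trivial)⟩
    have a2 := N.finrank_range_add_finrank_ker
    rw [finrank_top] at a1
    have : Even (finrank k (LinearMap.range N)) := by
      obtain ⟨m, a1⟩ := a1
      exact ⟨finrank k V - m, by omega⟩
    exact ⟨(CharP.cast_eq_zero_iff k 2 _).2 this.two_dvd, this⟩
  obtain ⟨_, ht, e⟩ := hq.c_mem H L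
  obtain ⟨t, t1, _, ⟨⟨w, u⟩, rfl⟩, rfl⟩ := Submodule.mem_sup.1 ht
  have t2 : ∀ g, (t g).2 = (X.c + X.r.d1 u) g := fun g => by
    rw [Pi.add_apply, ← congrFun e g]
    change _ = (t g).2 + X.r.d1 u g + _
    rw [add_assoc, add_self (k := k), add_zero]
  have tz := add_mem t1.1 (X.W.d1_mem (0, u))
  have t3 : ∀ g, ((t + X.W.d1 (0, u)) g).2 = X.c g := congrFun e
  have cz := add_mem X.c_z1 (X.r.d1_mem u)
  have c0 : X.c + X.r.d1 u ∈ X.r.Un I := ⟨cz, fun i hi => by rw [← t2, t1.2 i hi]; rfl⟩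
  have ci : ∀ i ∈ I, X.c i = X.r.ac i u - u := fun i hi =>
    (eq_neg_of_add_eq_zero_left (c0.2 i hi)).trans (neg_eq k _)
  have iso : ∀ g h, X.a ((X.c + X.r.d1 u) g) (X.r.ac g ((X.c + X.r.d1 u) h)) = 0 := fun g h => by
    rw [← t2 g, ← wI t t1, hN, hN0, LinearMap.sub_apply, FR.un_fix' M.nor c0 hτ]
    simp
  have θ : X.D0 u ∈ (triv k G).Un I :=
    ⟨triv_z1.2 ⟨D0_lc u, fun g h => by rw [D0_mul, iso, add_zero]⟩, fun i hi => by
      rw [D0_rk (ci i hi)]
      rcases rI i hi with p | p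
      · rw [p, sub_self, LinearMap.range_zero, finrank_bot, Nat.cast_zero]
      · rw [p]; exact evN.1⟩
  have ic := (FR.inf_iff cz).2 c0.2
  have s : Sz (X.P (X.c + X.r.d1 u) t) := M.sz
    (cz_iff_d3.2 ⟨X.P_lc cz.1 t1.1.1, fun g l m => by
      rw [d3_P cz t1.1, funext t2, c11, iso, mul_zero]⟩) fun g l i hi => by
      simp only [P, X.W.mul, FR.un_fix M.nor t1 hi, ic g i hi,
        (FR.inf_iff t1.1).2 t1.2 l i hi, and_self]
  obtain ⟨v, hv⟩ := X.c_range σ
  have cs : (X.c + X.r.d1 u) σ = (X.r.ac σ - 1) (v + u) := by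
    rw [Pi.add_apply, hv, map_add]; rfl
  obtain ⟨m, m1, m2⟩ := ram_key (X := X) (g := X.r.ac σ) (u := v + u) hN (X.pf.eq σ)
    (fun x => ⟨_, X.r.ac_inv σ x⟩) (fun x => by
      simp only [hN0, LinearMap.sub_apply, Module.End.one_apply, map_sub, cm])
    ⟨_, (wI t t1 σ).trans ((t2 σ).trans cs)⟩ (ram_q al (c0.2 τ hτ) cs)
  refine ⟨_, Submodule.add_mem_sup t1 ⟨(0, u), rfl⟩, t3,
    finrank k (LinearMap.range (X.r.ac σ - 1)) + m, ?_, ?_⟩
  · rw [invK_congr H (cz_gv tz t3) (ε' := fun g h => X.χ g * X.D0 u h)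
      (cz_c11 triv_pf (triv_z1.2 X.hχ) θ.1) (sz_congr ((gv_shift tz t3 u).add s) fun g h => by
        rw [add_assoc t, add_self (k := k), add_zero]
        simp only [Pi.add_apply]
        grind), M.inv_ram H θ (triv_z1.2 X.hχ) (fun i _ => by rw [pow_two, X.χ2]) hτ hχ,
      Nat.cast_add, m1, D0_rk' hv]
  have a1 := M.dimU X.W
  have a2 := hq.dim L
  have := L.fin X.r
  have fU := Submodule.finiteDimensional_of_le (y0_z1 (Y := X.W.Un I) fun _ p => p.1)
  have a3 := Submodule.finrank_sup_add_finrank_inf_eq X.r.B1 (Y0 (X.W.Un I))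
  have un : Y0 (X.W.Un I) ≤ X.r.Un I := by
    rintro _ ⟨t, ht, rfl⟩
    exact ⟨snd_z1 ht.1, fun i hi => congrArg Prod.snd (ht.2 i hi)⟩
  have up : ∀ y, ∃ x ∈ Y0 (X.W.Un I), x σ = N y := fun y => by
    obtain ⟨φ, p1, p2, p3, p4⟩ := M.u0 X.W 0 (y, N y) ⟨IsLocallyConstant.const _, by simp⟩
      (fun _ _ _ _ => ⟨rfl, rfl⟩) (fun _ _ _ _ => map_zero _) fun i hi => by
        by_cases p : X.χ i = 0
        · simp [W_ac, p, hI i hi p]
        have q := mul_left_cancel₀ p ((X.χ2 i).trans (mul_one _).symm)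
        have r : X.r.ac i y = X.r.ac τ y := by rw [← rT i hi q (X.r.ac τ y), rT τ hτ hχ]
        simp [W_ac, q, hN0, rT i hi q, r, sub_eq k y, sub_eq k _ y, add_comm,
          add_left_comm (X.r.ac τ y), add_self (k := k)]
    have z : φ ∈ X.W.Z1 := ⟨p1, fun g h => (p4 g h).symm⟩
    exact ⟨_, ⟨φ, ⟨z, (FR.inf_iff z).1 p2⟩, rfl⟩, congrArg Prod.snd p3⟩
  have a4 := dim_map (LinearMap.proj σ) (Y0 (X.W.Un I))
  rw [show (Y0 (X.W.Un I)).map (LinearMap.proj σ) = LinearMap.range N from le_antisymm (by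
      rintro _ ⟨_, ⟨t, ht, rfl⟩, rfl⟩
      exact ⟨_, wI t ht σ⟩) (by rintro _ ⟨y, rfl⟩; exact up y),
    show Y0 (X.W.Un I) ⊓ LinearMap.ker (LinearMap.proj σ) = ⊥ from
      eq_bot_iff.2 fun x p => M.ext (un p.1) p.2, finrank_bot] at a4
  have a5 := SC.LagAux.finrank_comap X.r.d1 (Y0 (X.W.Un I))
  rw [show (Y0 (X.W.Un I)).comap X.r.d1 =
      LinearMap.ker N ⊓ (LinearMap.range N).comap (X.r.ac σ - 1) from Submodule.ext fun y =>
    ⟨fun p => ⟨(un p).2 τ hτ, by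
      obtain ⟨t, ht, q⟩ := p
      exact ⟨_, (wI t ht σ).trans (congrFun q σ)⟩⟩, fun ⟨p, z, q⟩ => by
      obtain ⟨x, x1, x2⟩ := up z
      have : X.r.d1 y ∈ X.r.Un I := ⟨X.r.d1_mem y, fun i hi => by
        rcases rI i hi with r | r <;> rw [FR.d1_apply, r]
        exacts [sub_self _, p]⟩
      rwa [Submodule.mem_comap, sub_eq_zero.1 (M.ext (sub_mem this (un x1))
        (sub_eq_zero.2 (q.symm.trans x2.symm)))]⟩] at a5
  have a6 := X.r.rank_B1
  have a7 := N.finrank_range_add_finrank_ker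
  rw [finrank_prod] at a1
  rw [sup_comm, ← y0_B1, ← y0_sup, y0_B1] at a3
  change _ = finrank k (X.r.B1 ⊓ _ : Submodule k _) + finrank k X.r.H0 at a5
  obtain ⟨n, ev⟩ := ev
  omega

end RD

end

variable {E k : Type} [NontriviallyNormedField E] [Field k] {Γ G : Type} [Group Γ]
  [TopologicalSpace Γ] [Group G] [TopologicalSpace G] {J : IG Γ G} {c : CF E k} {χ : G →* E}
  {V : Type} [NormedAddCommGroup V] [NormedSpace E V] {A : Type} [AddCommGroup A] [Module k A]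
  (U : VD J c χ V A) [Finite k] [IsUltrametricDist E] [CompleteSpace E] [FiniteDimensional E V]
  [CharP k 2] [CharZero E] [Algebra (ZMod 2) k] [IsTopologicalGroup G] {D : Subgroup G}
  [CompactSpace D] {I : Subgroup D} {σ τ : D}

theorem VD.ram2 (H : Two D) (L : LDm k D) (Λ : LD D c fun g => χ g) (h1 : ∀ g, c.Rd (χ g) 1)
    (M : MI k I σ) (h0W : ∀ w, (∀ g : D, U.R.ac g w = w) → w = 0) (ev : Even (finrank E V))
    (hτ : τ ∈ I) (h2 : τ.1 ∉ J.H) (hI : ∀ i ∈ I, i.1 ∈ J.H → U.ρ.ac (J.u i) = 1)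
    (hχ : χ τ = 1) : U.Loc D (U.R.res D).B1 0 := by
  have := U.fdA
  have q := (U.odd H L Λ h1 M h0W).2.2
  refine ⟨Rp.B1_le _, U.isoB, q, ?_⟩
  rw [U.ram_eq H L Λ h1 M h0W hτ h2 hI] at q ⊢
  refine RD.ram2 (X := U.X.res D) H L M q (fun i hi p => ?_) hτ (U.c1 _ h2) (fun x => ?_)
    (U.dimA ▸ ev)
  · have m : i.1 ∈ J.H := by_contra fun n => one_ne_zero ((U.c1 _ n).symm.trans p)
    change U.X.r.ac i = 1
    rw [← J.u1 _ m]
    exact U.r_triv (hI i hi m)
  obtain ⟨y, hy, rfl⟩ := U.Λ.sj x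
  have a1 := hI _ (mul_mem hτ hτ) (J.two _ _ h2 h2)
  rw [Subgroup.coe_mul, J.u_out h2] at a1
  have a2 := U.equi (J.u τ) (U.ρ.ac (J.cj (J.u τ)) y) y
  rw [← U.ρ.mul, a1, U.chi_out h2, hχ, U.sy _ y, Module.End.one_apply, neg_one_mul,
    self_eq_neg] at a2
  have a3 := U.pb y hy _ (U.cp (J.cj (J.u τ)) y hy).1
  rw [a2, (U.cp _ y hy).2] at a3
  refine Eq.trans ?_ (a3.uniq c.rd_zero')
  change U.X.a _ (U.X.r.ac τ _) = U.X.a _ (U.X.r.ac J.s (U.X.r.ac (J.ι (J.cj (J.u τ))) _))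
  rw [J.hcj, J.u2 _ h2, ← FR.mul, mul_assoc, mul_assoc, J.ss, mul_one, J.s_s]

end Pool.Agent.BC
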