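import Pool.Agent.Lib.MP_b4b3cb_nt.BC.EPar
import Pool.Agent.Lib.MP_b4b3cb_nt.BC.GPK
import Pool.Agent.Lib.MP_b4b3cb_nt.BC.EIn
import Pool.Agent.Lib.MP_b4b3cb_nt.BC.LocR2
import Pool.Agent.Lib.MP_b4b3cb_nt.BC.EuT
import Pool.Agent.Lib.MP_b4b3cb_nt.Par.LocK

/-! The local conditions at the odd primes, and the parity theorem with local terms. -/

set_option linter.unusedSectionVars false

namespace Pool.Agent.BC

open scoped Classical Topology Pointwise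
open Module NumberField Pool.Agent.Stark Pool.Agent.SP
open SC hiding Hm Rp V T Two Cob Sel Spl cup dq Cz Sz res

theorem VD.z1_eq {E k : Type} [NontriviallyNormedField E] [Field k] {Γ G : Type} [Group Γ]
    [TopologicalSpace Γ] [Group G] [TopologicalSpace G] {J : IG Γ G} {c : CF E k} {χ : G →* E}
    {V : Type} [NormedAddCommGroup V] [NormedSpace E V] {A : Type} [AddCommGroup A] [Module k A]
    (U : VD J c χ V A) {D : Subgroup G} [Finite k] [IsUltrametricDist E] [CompleteSpace E]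
    [FiniteDimensional E V] [CharP k 2] [Algebra (ZMod 2) k] [IsTopologicalGroup G]
    [CompactSpace D] (H : Two D) (L : LDm k D) (Λ : LD D c fun g => χ g) (hD : D ≤ J.H)
    (h0W : ∀ w, (∀ g : D, U.R.ac g w = w) → w = 0) :
    finrank E (U.r1 D hD).Z1 + finrank k (U.X.r.res D).H0 = finrank k (U.X.r.res D).Z1 := by
  obtain ⟨n, a1⟩ := U.Λ.dim_A
  have a2 := (U.b12 hD h0W).2
  have a3 := rankZ H L (U.X.res D).pf (U.cp1 hD)
  have a4 := (U.X.res D).r.rank_B1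
  have a5 := U.le12 hD H L Λ le_rfl le_rfl (Rp.B1_le _) fun t ht _ ⟨u, e⟩ =>
    e ▸ cob_right (U.equi12 hD) ht u
  change _ + finrank k (U.X.res D).r.H0 = finrank k (U.X.res D).r.Z1
  omega

variable {K L Ω : Type} [Field K] [NumberField K] [Field L] [NumberField L] [Algebra K L]
  [Field Ω] [Algebra K Ω] [Algebra L Ω] [IsScalarTower K L Ω] [IsAlgClosed Ω] [IsGalois K Ω]
  [IsGalois L Ω] [CharZero Ω] {J : IG Gal(Ω/L) Gal(Ω/K)} (hι : ∀ g x, J.ι g x = g x)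
  {E k : Type} [NontriviallyNormedField E] [IsUltrametricDist E] [NormedAlgebra ℚ_[2] E]
  [Field k] [Finite k] [CharP k 2] [Algebra (ZMod 2) k] {c : CF E k} [CompleteSpace E] [CharZero E]
  {V : Type} [NormedAddCommGroup V] [NormedSpace E V] [FiniteDimensional E V]
  {A : Type} [AddCommGroup A] [Module k A] {𝔓 : Ideal (𝓞 Ω)}

variable (c) in
theorem exL (h : 𝔓.IsMaximal) : ∃ _ : LD (Dec K 𝔓) c fun g => cycE E K Ω g,
    (∀ g, c.Rd (cycE E K Ω g) 1) ∧ Continuous (cycE E K Ω) := by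
  obtain ⟨π, v, rfl⟩ := exPlc' (K := K) h
  exact ⟨ldK π c (.inl v), (akK π c).rd_chi, (akK π c).cχ⟩

theorem miD {q : Pr K} (h : Over 𝔓 q) (h2 : 2 ∉ 𝔓) (σ : Dec K 𝔓)
    (h4 : IsFr 𝔓 (Ideal.absNorm q.asIdeal) σ.1) : MI k ((Ine K 𝔓).subgroupOf (Dec K 𝔓)) σ :=
  mi' (lfD h.1) (ldm (lfD h.1)) (pcD h h2 σ h4)

theorem exM (h : 𝔓.IsMaximal) (h2 : 2 ∉ 𝔓) :
    ∃ σ, MI k ((Ine K 𝔓).subgroupOf (Dec K 𝔓)) σ := by
  obtain ⟨q, hq⟩ := (facts K Ω).pr.under K 𝔓 h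
  exact (exFr hq).imp fun σ a => miD hq h2 σ a

theorem chi_ine (h : 𝔓.IsMaximal) (h2 : 2 ∉ 𝔓) {g : Gal(Ω/K)} (hg : g ∈ Ine K 𝔓) :
    cycE E K Ω g = 1 := by
  rw [cycE_apply, (facts K Ω).fr.cyc_ine h h2 hg]
  simp

variable (U : VD J c (cycE E K Ω) V A)
  (h0 : ∀ 𝔓 : Ideal (𝓞 Ω), 𝔓.IsMaximal → ∀ a, (∀ g : Dec L 𝔓, U.ρ.ac g a = a) → a = 0)

include hι h0

theorem h0W (h : 𝔓.IsMaximal) (w : V × V) (hw : ∀ g : Dec K 𝔓, U.R.ac g w = w) : w = 0 := by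
  have e : ∀ g ∈ Dec L 𝔓, (U.ρ.ac g w.1, U.ρ.ac (J.cj g) w.2) = w := fun g hg => by
    have := hw ⟨_, (dec_iff hι g).1 hg⟩
    rwa [U.R_in (J.mem g), J.u_ι] at this
  refine Prod.ext (h0 _ h _ fun g => congrArg Prod.fst (e g g.2))
    (h0 _ ((facts K Ω).pr.smul_max J.s h) _ fun g => ?_)
  have := congrArg Prod.snd (e _ ((dec_cj hι _).2 g.2))
  rwa [J.cj_cj] at this

theorem oddK (h : 𝔓.IsMaximal) (h2 : 2 ∉ 𝔓) :
    (U.R.res (Dec K 𝔓)).Z1 = (U.R.res (Dec K 𝔓)).B1 := by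
  obtain ⟨Λ, a, -⟩ := exL (K := K) c h
  obtain ⟨σ, m⟩ := exM (K := K) (k := k) h h2
  exact (U.odd (lfD h).top.two (ldm (lfD h)) Λ a m (h0W hι U h0 h)).1

theorem autoR (h : 𝔓.IsMaximal) (h2 : 2 ∉ 𝔓) {x : Gal(Ω/L) → V} (hx : x ∈ U.ρ.Z1) :
    ∃ u, ∀ g ∈ Ine L 𝔓, x g = U.ρ.ac g u - u := by
  obtain ⟨u, hu⟩ := (oddK hι U h0 h h2).le (U.R.res_mem (U.sh_mem hx 0) _)
  refine ⟨u.1, fun g hg => ?_⟩
  have := congrArg Prod.fst (congrFun hu ⟨_, (dec_iff hι g).1 ((facts L Ω).pr.le _ hg)⟩)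
  change (U.R.ac (J.ι g) u).1 - _ = (U.sh (x, 0) (J.ι g)).1 at this
  rw [U.sh_in _ _ (J.mem g), U.R_in (J.mem g), J.u_ι] at this
  exact this.symm

variable {d : K} (Q : Quad K L d) (hH : J.H = Gs K Ω L)

include Q hH

theorem locSp {w : Pr L} (hw : Over 𝔓 w) (h2 : 2 ∉ 𝔓) (h : Q.act w ≠ w) :
    U.Loc (Dec K 𝔓) (U.R.res (Dec K 𝔓)).B1 0 := by
  obtain ⟨Λ, a, b⟩ := exL (K := K) c hw.1
  obtain ⟨σ, m⟩ := exM (K := K) (k := k) hw.1 h2
  exact U.odd_split (lfD hw.1).top.two (ldm (lfD hw.1)) Λ a b m (h0W hι U h0 hw.1)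
    ((dec_le Q hH hw).2 h)

theorem locRam {w : Pr L} (hw : Over 𝔓 w) (h2 : 2 ∉ 𝔓) (he : eI K w ≠ 1)
    (ev : Even (finrank E V)) (hI : ∀ g ∈ Ine L 𝔓, U.ρ.ac g = 1) :
    U.Loc (Dec K 𝔓) (U.R.res (Dec K 𝔓)).B1 0 := by
  have T := facts K Ω
  obtain ⟨Λ, a, -⟩ := exL (K := K) c hw.1
  obtain ⟨σ, m⟩ := exM (K := K) (k := k) hw.1 h2
  have b := T.pr.below (F := K) hw
  have o := (T.pr.two b).1 h2
  obtain ⟨τ, t1, t2⟩ : ∃ τ ∈ Ine K 𝔓, τ ∉ J.H := by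
    by_contra! e
    have := (T.ine.ine b o Q.a_ne (glK.sq Q).2).2 fun g hg => (GlAux.iff Q g).1 (hH ▸ e g hg.1)
    rcases Q.efg w with f | f | f
    exacts [he f.2.1, he f.2.1, Int.not_odd_iff_even.2 this ((QdAux.ram Q w o).1 f.2.1)]
  exact U.ram2 (lfD hw.1).top.two (ldm (lfD hw.1)) Λ a m (h0W hι U h0 hw.1) ev
    (τ := ⟨τ, T.pr.le _ t1⟩) t1 t2 (fun i hi p => hI _ ((ine_iff hι _).2 (by rwa [J.u1 _ p])))
    (chi_ine hw.1 h2 t1)

theorem locIn {w : Pr L} (hw : Over 𝔓 w) (h2 : 2 ∉ 𝔓) (h : Q.act w = w) (he : eI K w = 1)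
    {τ : Gal(Ω/L)} (hτ : τ ∈ Ine L 𝔓)
    (gI : ∀ i ∈ Ine L 𝔓, ∀ j x, U.ρ.ac τ x - x ∈ U.Λ.T j → U.ρ.ac i x - x ∈ U.Λ.T j)
    (gr : ∀ i ∈ Ine L 𝔓, ∃ j : ℕ, U.X.r.ac (J.ι i) = U.X.r.ac (J.ι τ) ^ j) :
    U.Loc (Dec K 𝔓) (U.R.res (Dec K 𝔓)).B1 (2 * finrank E (LinearMap.range (U.ρ.ac τ - 1))) := by
  have T := facts K Ω
  obtain ⟨Λ, a, -⟩ := exL (K := K) c hw.1
  have b := T.pr.below (F := K) hw
  obtain ⟨σ, hσ⟩ := exFr b
  obtain ⟨ev, le⟩ := ine_le Q hH hw h2 he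
  have s2 : σ.1 ∉ J.H := fun a => (Q.split_iff w).2 ((T.ine.leg b ((T.pr.two b).1 h2) Q.a_ne
    (glK.sq Q).2 ev σ (by rw [Gs_self]; trivial) hσ).1 ((GlAux.iff Q _).1 (hH ▸ a))) h
  have t1 := (ine_iff hι _).1 hτ
  have ui : ∀ i ∈ Ine K 𝔓, J.u i ∈ Ine L 𝔓 := fun i hi =>
    (ine_iff hι _).2 (by rwa [J.u1 _ (le hi)])
  have := U.inert (lfD hw.1).top.two (ldm (lfD hw.1)) Λ a (miD b h2 σ hσ) (h0W hι U h0 hw.1) s2
    (fun i hi => ⟨le hi, chi_ine hw.1 h2 hi⟩) (τ := ⟨_, T.pr.le _ t1⟩) t1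
    (fun i hi => by rw [J.u_ι]; exact gI _ (ui i hi))
    (fun i hi => by rw [← J.u1 i.1 (le hi)]; exact gr _ (ui i hi)) fun f f1 f2 g g' e => by
      let r : Ine K 𝔓 →* (Ine K 𝔓).subgroupOf (Dec K 𝔓) :=
        (Subgroup.inclusion (T.pr.le 𝔓)).codRestrict _ fun g => g.2
      exact tame c hw.1 h2 σ.2 (fun g => f (r g))
        (f1.comp ((continuous_inclusion (T.pr.le 𝔓)).subtype_mk _))
        (fun g h => by rw [map_mul]; exact f2 _ _) ⟨g.1.1, g.2⟩ ⟨g'.1.1, g'.2⟩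
        (congrArg Subtype.val e)
  rwa [J.u_ι] at this

theorem mainB (hre : ∀ j g, Cj j g → g ∉ Gs K Ω L) (hK : Fintype.card (K →+* ℝ) = finrank ℚ K)
    (ev : Even (finrank E V)) (P : Pr K → Ideal (𝓞 Ω))
    (hP : ∀ v, Over (P v) v) (w : Pr K → Pr L) (hw : ∀ v, Over (P v) (w v))
    (sp : ∀ v, 2 ∈ P v → Q.act (w v) ≠ w v) (S : Finset (Pr K))
    (hS : ∀ v ∉ S, 2 ∉ P v ∧ eI K (w v) = 1 ∧ ∀ 𝔓, Over 𝔓 v → ∀ g ∈ Ine L 𝔓, U.ρ.ac g = 1)
    (Y : ∀ v, Submodule E (Dec L (P v) → V)) (hB : ∀ v, 2 ∈ P v → (U.ρ.res _).B1 ≤ Y v)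
    (hZ : ∀ v, 2 ∈ P v → Y v ≤ (U.ρ.res _).Z1) (a : Pr K → ℕ)
    (ha : ∀ v ∈ S, 2 ∉ P v → U.Loc (Dec K (P v)) (U.R.res (Dec K (P v))).B1 (2 * a v)) :
    FiniteDimensional E (U.Sel (fun v => Dec L (P v)) (fun v => 2 ∈ P v) Y) ∧
      Even (finrank E (U.Sel (fun v => Dec L (P v)) (fun v => 2 ∈ P v) Y) +
        ∑ v ∈ S, if 2 ∈ P v then finrank E (Y v) else a v) := by
  have T := facts K Ω
  obtain ⟨π, rfl⟩ := exPlc P hP
  let D : Pl K → Subgroup Gal(Ω/L) :=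
    Sum.elim (fun v => Dec L (π.pr v)) fun φ => (π.D (.inr φ)).comap J.ι
  let Y' : ∀ v, Submodule E (D v → V) := fun v =>
    Sum.rec (motive := fun v => Submodule E (D v → V)) Y (fun _ => ⊥) v
  let dy : Pl K → Prop := Sum.elim (fun v => 2 ∈ π.pr v) fun _ => False
  have tw : ∀ v, og v (2 : K) ≠ 0 ↔ 2 ∈ π.pr v := fun v => (T.pr.two (hP v)).not.symm.trans not_not
  have le : ∀ v, 2 ∈ π.pr v → π.D (.inl v) ≤ J.H := fun v hv => (dec_le Q hH (hw v)).2 (sp v hv)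
  have := VD.parity (akK π c) (gpK k π) (fun _ => rfl) U (S.disjSum Finset.univ) (by
      rintro (v | φ) hv
      · exact Finset.inl_mem_disjSum.2 (not_not.1 fun q => (hS v q).1 ((tw v).1 (inl_mem_S2.1 hv)))
      · simp) D (by
      rintro (v | φ) γ
      exacts [dec_iff hι γ, Iff.rfl]) dy (by
      rintro (v | φ) hv
      exacts [(hS v (by simpa using hv)).1, id]) (by
      rintro (v | φ) hv
      exacts [le v hv, hv.elim]) Y' (by
      rintro (v | φ) hv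
      exacts [hB v hv, hv.elim]) (by
      rintro (v | φ) hv
      exacts [hZ v hv, hv.elim]) (by
      rintro (v | φ) hv
      exacts [h0W hι U h0 (hP v).1, hv.elim False.elim fun q => (q (by simp)).elim])
      (Sum.elim (fun v => 2 * a v) fun _ => -finrank E V) (by
      rintro (v | φ) h hv
      · exact ⟨oddK hι U h0 (hP v).1 hv, ha v (by simpa using h) hv⟩
      · exact U.real (D := π.D (.inr φ)) (two_D π _) (ldmK k π _)
          ⟨π.c φ, Subgroup.mem_zpowers _⟩ (hH ▸ hre _ _ (π.hc φ)) fun g =>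
            (((T.cj.sq (π.hc φ)).2.1 g).1 g.2).imp Subtype.ext Subtype.ext) (by
      rintro (v | φ) hv g hg
      · obtain ⟨a, b, e⟩ := hS v (by simpa using hv)
        have i := (ine_le Q hH (hw v) a b).2 hg
        have j : J.u g ∈ Ine L (π.pr v) := (ine_iff hι _).2 (by rwa [J.u1 g i])
        refine LinearMap.ext fun x => (U.R_in i x).trans ?_
        rw [e _ (hP v) _ j, e _ (T.pr.smul (g := J.s) (hP v) (by rw [Gs_self]; trivial)) _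
          ((ine_cj hι _).2 j)]
        rfl
      · exact (hv (by simp)).elim)
  have e : U.Sel D dy Y' = U.Sel (fun v => Dec L (π.pr v)) (fun v => 2 ∈ π.pr v) Y := by
    ext x
    rw [U.mem_Sel, U.mem_Sel, Sum.forall]
    exact and_congr_right fun _ => and_iff_left fun _ h => h.elim
  rw [← e]
  refine ⟨this.1, ?_⟩
  have fA := U.fdA
  have ta := Eu.tateK π _ U.X.pf (S.filter fun v => 2 ∈ π.pr v) fun q => by
    rw [Finset.mem_filter, tw, and_iff_right_of_imp fun p => not_not.1 fun n => (hS q n).1 p]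
  rw [Finset.sum_filter, Finset.sum_filter, U.dimA] at ta
  have s1 : (4 : ℤ) ∣ 2 * (finrank E (U.Sel D dy Y') + finrank E V) - _ := this.2
  rw [Finset.sum_disjSum, Finset.sum_congr (s₂ := S) (g := fun v =>
      2 * ((if 2 ∈ π.pr v then finrank E (Y v) else a v : ℕ) : ℤ) -
      ((if 2 ∈ π.pr v then finrank k (U.X.r.res (π.D (.inl v))).Z1 else 0 : ℕ) : ℤ) +
      ((if 2 ∈ π.pr v then finrank E V + finrank k (U.X.r.res (π.D (.inl v))).H0 else 0 : ℕ) : ℤ) -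
      2 * (if 2 ∈ π.pr v then finrank E V else 0 : ℕ)) rfl fun v _ => by
    by_cases q : 2 ∈ π.pr v
    · have := U.z1_eq (two_D π _) (ldmK k π _) (ldK π c _) (le v q) (h0W hι U h0 (hP v).1)
      rw [dif_pos (show dy (.inl v) from q)]
      simp only [if_pos q]
      change 2 * (finrank E (Y v) : ℤ) - finrank E (U.r1 _ (le v q)).Z1 - _ = _
      omega
    · rw [dif_neg (show ¬ dy (.inl v) from q)]
      simp [q], Finset.sum_congr (s₂ := Finset.univ) (g := fun _ => (-finrank E V : ℤ)) rfl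
      fun φ _ => dif_neg id, Finset.sum_const, Finset.card_univ, hK, Finset.sum_sub_distrib,
      Finset.sum_add_distrib, Finset.sum_sub_distrib, ← Finset.mul_sum, ← Finset.mul_sum,
      ← Nat.cast_sum, ← Nat.cast_sum, ← Nat.cast_sum, ← Nat.cast_sum, ta, ← Finset.sum_filter
      (f := fun _ => finrank E V), Finset.sum_const] at s1
  obtain ⟨n, ev⟩ := ev
  simp only [ev, smul_eq_mul, nsmul_eq_mul, mul_add, mul_neg, Nat.cast_add, Nat.cast_mul,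
    neg_add] at s1
  rw [Nat.even_iff]
  omega

end Pool.Agent.BC
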