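import Pool.Agent.Lib.MP_b4b3cb_nt.BC.R9
import Pool.Agent.Lib.MP_b4b3cb_nt.BC.ETame

/-! The invariant of a two-cocycle that comes from a tame quotient. -/

set_option linter.unusedSectionVars false

namespace Pool.Agent.BC

open scoped Classical
open Module Polynomial Pool.Agent.SP

variable {E k : Type} [NontriviallyNormedField E] [NormedAlgebra ℚ_[2] E] [Field k] [Finite k]
  [CharP k 2] [Algebra (ZMod 2) k] {G I₀ : Type} [Group G] [TopologicalSpace G]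
  [IsTopologicalGroup G] [Group I₀] [TopologicalSpace I₀] [IsTopologicalGroup I₀]
  [CompactSpace I₀] {I : Subgroup G} {σ : G}

/-- A tame quotient stays tame after cutting by an invariant character. -/
theorem TQ.step (ι : I₀ →* G) (hι : Continuous ι) (sj : ∀ i, i ∈ I ↔ ∃ x, ι x = i) {t t' : I₀}
    (gt : Gen k ∅ t) (e : ι t' = σ * ι t * σ⁻¹) {q : ℕ} (tm : Tm E t' t q) {K : Subgroup G}
    (hK : TQ I σ (ι t) q K) {ψ : G → k} (p1 : IsLocallyConstant ψ)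
    (p2 : ∀ x ∈ K, ∀ y ∈ K, ψ (x * y) = ψ x + ψ y) (p3 : ∀ g, ∀ x ∈ K, ψ (g * x * g⁻¹) = ψ x) :
    ∃ K', TQ I σ (ι t) q K' ∧ ∀ x ∈ K', x ∈ K ∧ ψ x = 0 := by
  have p0 : ψ 1 = 0 := by
    have := p2 1 K.one_mem 1 K.one_mem
    rwa [mul_one, CharTwo.add_self_eq_zero] at this
  have p4 : ∀ x ∈ K, ψ x + ψ x⁻¹ = 0 := fun x hx => by
    rw [← p2 x hx _ (K.inv_mem hx), mul_inv_cancel, p0]
  let K' : Subgroup G :=
    { carrier := {x | x ∈ K ∧ ψ x = 0}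
      mul_mem' := fun {a b} ha hb => ⟨K.mul_mem ha.1 hb.1, by
        rw [p2 a ha.1 b hb.1, ha.2, hb.2, add_zero]⟩
      one_mem' := ⟨K.one_mem, p0⟩
      inv_mem' := fun {a} ha => ⟨K.inv_mem ha.1, by
        have := p4 a ha.1
        rwa [ha.2, zero_add] at this⟩ }
  have nor : K'.Normal := ⟨fun x hx g => ⟨hK.nor.conj_mem x hx.1 g, (p3 g x hx.1).trans hx.2⟩⟩
  have op : IsOpen (K' : Set G) := hK.op.inter (p1.isOpen_fiber 0)
  let U := K'.comap ι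
  have hU : IsOpen (U : Set I₀) := op.preimage hι
  have := U.quotient_finite_of_isOpen hU
  have sq : ∀ x : I₀, ι x ∈ K → x ^ 2 ^ 1 ∈ U := fun x hx => by
    rw [pow_one, Subgroup.mem_comap, map_pow, pow_two]
    exact ⟨K.mul_mem hx hx, by rw [p2 _ hx _ hx, CharTwo.add_self_eq_zero]⟩
  have a3 : ∀ g : I₀, ∃ (j : ℕ) (x : I₀), ι x ∈ K ∧ g = t ^ j * x := fun g => by
    obtain ⟨j, hj⟩ := hK.gen _ ((sj _).2 ⟨g, rfl⟩)
    exact ⟨j, (t ^ j)⁻¹ * g, by rwa [map_mul, map_inv, map_pow], (mul_inv_cancel_left _ _).symm⟩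
  have a2 : ∀ x : I₀, ι x ∈ K → Commute (t : I₀ ⧸ U) x := fun x hx => by
    refine QuotientGroup.eq.2 (Subgroup.mem_comap.2 ?_)
    rw [show ι ((t * x)⁻¹ * (x * t)) = (ι x)⁻¹ * ((ι t)⁻¹ * ι x * (ι t)⁻¹⁻¹) by
      simp only [map_mul, map_inv]; group]
    have b := hK.nor.conj_mem _ hx (ι t)⁻¹
    exact ⟨K.mul_mem (K.inv_mem hx) b, by
      rw [p2 _ (K.inv_mem hx) _ b, p3 _ _ hx, add_comm, p4 _ hx]⟩
  have a4 : ∀ g : I₀, Commute (t : I₀ ⧸ U) g := fun g => by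
    obtain ⟨j, x, hx, rfl⟩ := a3 g
    exact (Commute.self_pow _ j).mul_right (a2 x hx)
  let M := (Subgroup.zpowers (t : I₀ ⧸ U)).comap (QuotientGroup.mk' U)
  have : M.Normal := ⟨fun g ⟨j, hj⟩ l => ⟨j, by
    rw [map_mul, map_mul, ← hj, map_inv]
    exact eq_mul_inv_of_mul_eq ((a4 l).zpow_left j).eq⟩⟩
  have gen : ∀ g : I₀, ∃ m : ℕ, (t : I₀ ⧸ U) ^ m = g := fun g => by
    obtain ⟨m, hm⟩ := gen2 gt M (Subgroup.isOpen_mono (fun g hg => ⟨0, by
      simpa using ((QuotientGroup.eq_one_iff g).2 hg).symm⟩) hU) (fun g => ⟨1, by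
        obtain ⟨j, x, hx, rfl⟩ := a3 g
        rw [Subgroup.mem_comap, map_pow, QuotientGroup.mk'_apply, QuotientGroup.mk_mul,
          QuotientGroup.mk_pow, ((a2 x hx).pow_left j).mul_pow,
          show (x : I₀ ⧸ U) ^ 2 ^ 1 = 1 from (QuotientGroup.eq_one_iff _).2 (sq x hx), mul_one]
        exact pow_mem (pow_mem (Subgroup.mem_zpowers _) _) _⟩) g
    rw [← QuotientGroup.mk_pow, QuotientGroup.eq] at hm
    refine mem_powers_iff_mem_zpowers.2 ?_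
    simpa using mul_mem (pow_mem (Subgroup.mem_zpowers (t : I₀ ⧸ U)) m) hm
  have ee : ι (t'⁻¹ * t ^ q) = (σ * ι t * σ⁻¹)⁻¹ * ι t ^ q := by
    rw [map_mul, map_inv, map_pow, e]
  refine ⟨K', ⟨nor, op, fun i hi => ?_, ?_⟩, fun x hx => hx⟩
  · obtain ⟨g, rfl⟩ := (sj i).1 hi
    obtain ⟨m, hm⟩ := gen g
    rw [← QuotientGroup.mk_pow, QuotientGroup.eq, Subgroup.mem_comap, map_mul, map_inv,
      map_pow] at hm
    exact ⟨m, hm⟩
  · exact ee ▸ relT gt U hU gen tm (sq _ (ee ▸ hK.rel))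

theorem MI.inv_tame (M : MI k I σ) (H : Two G) (ι : I₀ →* G) (hι : Continuous ι)
    (sj : ∀ i, i ∈ I ↔ ∃ x, ι x = i) {t t' : I₀} (gt : Gen k ∅ t) (e : ι t' = σ * ι t * σ⁻¹)
    {q : ℕ} (hq : Odd q) (tm : Tm E t' t q) {β : G → k} (hb : β ∈ Hm k G)
    (b2 : ∀ g, β g * β g = β g) (b1 : β (ι t) = 1) : IT I σ (ι t) q β := by
  intro K hK ε cz inf
  have hτ : ι t ∈ I := (sj _).2 ⟨t, rfl⟩
  obtain ⟨α, p1, p2, p3, p4⟩ := M.u0 (triv k G) 0 1 ⟨IsLocallyConstant.const _, by simp⟩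
    (fun _ _ _ _ => ⟨rfl, rfl⟩) (fun _ _ _ _ => rfl) fun _ _ => rfl
  have z : α ∈ (triv k G).Z1 := ⟨p1, fun g h => (p4 g h).symm⟩
  have ha : α ∈ (triv k G).Un I := ⟨z, (FR.inf_iff z).1 p2⟩
  have hα := triv_z1.1 z
  have a2 : (fun g => α g ^ 2 + α g) = 0 := M.ext (R := triv k G)
    ⟨triv_z1.2 ⟨lc_one (fun x => x ^ 2 + x) p1, fun g h => by
      simp only [hα.2]
      grind⟩, fun i hi => by simp [ha.2 i hi]⟩ (by simp [p3, CharTwo.add_self_eq_zero])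
  have iv := M.inv_un H ha p3 (fun g => (eq_neg_of_add_eq_zero_left (congrFun a2 g)).trans
    (CharTwo.neg_eq _)) (triv_z1.2 hb) (fun i _ => (sq _).trans (b2 i)) hτ b1
  have cz' : Cz fun g h => α g * β h := cz_cup hα hb
  have cj : ∀ {γ : G → k}, γ ∈ Hm k G → ∀ g x, γ (g * x * g⁻¹) = γ x := fun {γ} h g x => by
    have a := h.2 (g * x * g⁻¹) g
    rw [inv_mul_cancel_right, h.2, add_comm] at a
    exact (add_right_cancel a).symm
  obtain ⟨K1, t1, k1⟩ := hK.step ι hι sj gt e tm hb.1 (fun x _ y _ => hb.2 x y) fun g x _ =>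
    cj hb g x
  obtain ⟨K2, t2, k2⟩ := t1.step ι hι sj gt e tm hα.1 (fun x _ y _ => hα.2 x y) fun g x _ =>
    cj hα g x
  obtain ⟨f, f1, f2⟩ := (invK_zero H (cz.add (cz'.smul (invK ε)))).1 (by
    rw [invK_add H cz (cz'.smul _), invK_smul H _ cz', iv, mul_one, CharTwo.add_self_eq_zero])
  replace f2 : ∀ g h, ε g h + invK ε * (α g * β h) = f g + f h - f (g * h) := f2
  have l1 : ∀ g, ∀ x ∈ K2, f (g * x) = f g + (f x - f 1) := fun g x hx => by
    obtain ⟨a, b⟩ := k1 x (k2 x hx).1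
    have c1 := f2 g (1 * x)
    rw [(inf g 1 x a b).2, hb.2, b, add_zero, f2, one_mul, mul_one] at c1
    linear_combination c1
  have l2 : ∀ g, ∀ x ∈ K2, f (x * g) = f g + (f x - f 1) := fun g x hx => by
    obtain ⟨a, b⟩ := k1 x (k2 x hx).1
    have c1 := f2 (1 * x) g
    rw [(inf 1 g x a b).1, hα.2, (k2 x hx).2, add_zero, f2, one_mul, one_mul] at c1
    linear_combination c1
  obtain ⟨K3, t3, k3⟩ := t2.step ι hι sj gt e tm (ψ := fun x => f x - f 1)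
    (lc_one (fun y => y - f 1) f1) (fun x _ y hy => by rw [l1 x y hy]; ring) fun g x hx => by
      have a := l2 g _ (t2.nor.conj_mem x hx g)
      rw [inv_mul_cancel_right, l1 g x hx] at a
      exact (add_left_cancel a).symm
  obtain ⟨r1, r2⟩ := k3 _ (t3.nor.conj_mem' _ t3.rel σ)
  have r3 := l1 (σ * ι t) _ r1
  rw [r2, add_zero, show σ * ι t * (σ⁻¹ * ((σ * ι t * σ⁻¹)⁻¹ * ι t ^ q) * σ) = ι t ^ q * σ by
    group] at r3
  have a0 : ∀ n : ℕ, α (ι t ^ n) = 0 := fun n => ha.2 _ (pow_mem hτ n)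
  have tel : ∀ n : ℕ, ∑ j ∈ Finset.range n, ε (ι t ^ (j + 1)) (ι t) =
      n * f (ι t) + f (ι t) - f (ι t ^ (n + 1)) := fun n => by
    induction n with
    | zero => simp
    | succ n ih =>
      have a := f2 (ι t ^ (n + 1)) (ι t)
      rw [a0, ← pow_succ] at a
      rw [Finset.sum_range_succ, ih]
      push_cast
      linear_combination a
  obtain ⟨r, rfl⟩ := hq
  have c1 := f2 σ (ι t)
  have c2 := f2 (ι t ^ (2 * r + 1)) σ
  rw [p3, b1] at c1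
  rw [a0, r3] at c2
  rw [Nat.add_sub_cancel, tel]
  push_cast
  grind

end Pool.Agent.BC
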