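import Pool.Agent.Lib.MP_b4b3cb_nt.BC.R9E
import Pool.Agent.Lib.MP_b4b3cb_nt.BC.R9T
import Pool.Agent.Lib.MP_b4b3cb_nt.BC.EK
import Pool.Agent.Lib.MP_b4b3cb_nt.BC.EEps

/-! The local constant and the local term at a ramified prime. -/

set_option linter.unusedSectionVars false

namespace Pool.Agent.BC

open scoped Classical Pointwise
open NumberField Pool.Agent.Stark Polynomial Finset Module Matrix
open Pool.Agent.SP hiding VD
open EP hiding pr pr_l pr_r pr1 pr2 locS locI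
open SC hiding Hm Rp V T Two Cob Sel Spl cup dq Cz Sz res gs cyc
open SelTwo hiding Ine Dec Cob

variable {E k : Type} [NontriviallyNormedField E] [IsUltrametricDist E] [NormedAlgebra ℚ_[2] E]
  [Field k] [Finite k] [CharP k 2] [Algebra (ZMod 2) k] {c : CF E k} [CompleteSpace E] [CharZero E]
  {A₀ : Type} [AddCommGroup A₀] [Module k A₀]

theorem unE {L : Type} [Field L] [NumberField L] {n : ℕ} {ρ : Gal L →* Matrix (Fin n) (Fin n) E}
    {R : Rp E (Gal L) (Fin n → E)} (ea : ∀ g, R.ac g = toLinAlgEquiv' (ρ g)) {𝔓 : Idl L}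
    (h : 𝔓.IsMaximal) {ϖ : L} {Ψ : AddChar (𝓞 L) E} {e : E} (he : Eps ρ 𝔓 ϖ Ψ e) :
    ∃ D > 0, ∀ {κ : Type} [Field κ] {π : 𝓞 (AlgebraicClosure L) →+* κ} {Φ : κ → E} {N : ℕ}
      {β : AlgebraicClosure L} {t : Gal L} {η : 𝓞 (AlgebraicClosure L)},
      (∀ x, π x = 0 ↔ x ∈ 𝔓) → (∀ y, Φ (π (algebraMap _ _ y)) = Ψ y) →
      ((2 * N : ℕ) : 𝓞 (AlgebraicClosure L)) ∉ 𝔓 → nq 𝔓 ^ D - 1 ∣ N → β ≠ 0 →
      β ^ (2 * N) = algebraMap L _ ϖ ^ 2 → t ∈ Ine L 𝔓 → IsPrimitiveRoot η N → t β = η * β →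
      ∀ g ∈ Ine L 𝔓, g β = β → IsNilpotent (R.ac g - 1) := by
  obtain ⟨m, d, z, G, σ, α, _, B, a1, -⟩ := he
  refine ⟨∏ i, d i, prod_pos fun i _ => (B i).choose_spec.choose_spec.choose_spec.1,
    fun {κ _ π Φ N β t η} hπ hΦ hN dv β0 hβ ht hη e g hg a => ?_⟩
  have := (R.ac g).aeval_self_charpoly
  rw [(by rw [ea]; exact charpoly_toLin' _ : (R.ac g).charpoly = (ρ g).charpoly), a1 g hg,
    (nfE hπ h hΦ hN β0 hβ ht hη e B fun i => (Nat.pow_sub_one_dvd_pow_sub_one _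
      (dvd_prod_of_mem d (mem_univ i))).trans dv).2.2 g hg 0 (by simpa using a)] at this
  exact ⟨_, by simpa using this⟩

variable {K L : Type} [Field K] [NumberField K] [Field L] [NumberField L] [Algebra K L]
  [IsGalois K (AlgebraicClosure L)] {J : IG (Gal L) Gal(AlgebraicClosure L/K)}
  (hι : ∀ g x, J.ι g x = g x) {d : K} (Q : Quad K L d) (hH : J.H = Gs K (AlgebraicClosure L) L)
  {n : ℕ} (U : VD J c (cycE E K (AlgebraicClosure L)) (Fin n → E) A₀)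
  {ρ : Gal L →* Matrix (Fin n) (Fin n) E} (ea : ∀ g, U.ρ.ac g = toLinAlgEquiv' (ρ g))
  (hB : ∀ x, (∀ y, U.B x y = 0) → x = 0) {𝔓 : Idl L} {w : Pr L} (hw : Over 𝔓 w) (h2 : 2 ∉ 𝔓)
  {ϖ : L} (v1 : Q.tau ϖ = -ϖ) (v2 : og w ϖ = 1) {Ψ : AddChar (𝓞 L) E} (s1 : Ψ ≠ 1)
  (s2 : ∀ x ∈ w.asIdeal, Ψ x = 1) {e : E} (he : Eps ρ 𝔓 ϖ Ψ e)

include hι hH ea hB hw h2 v1 v2 s1 s2 he

theorem locR9 (e2 : eI K w = 2) (ev' : Even (finrank E (Fin n → E)))
    (h0 : ∀ 𝔓 : Idl L, 𝔓.IsMaximal → ∀ a, (∀ g : Dec L 𝔓, U.ρ.ac g a = a) → a = 0) :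
    ∃ a : ℕ, U.Loc (Dec K 𝔓) (U.R.res (Dec K 𝔓)).B1 (2 * a) ∧ (-1) ^ a = e := by
  have F := facts K (AlgebraicClosure L)
  have b := F.pr.below (F := K) hw
  obtain ⟨κ, _, p, pp, _, π, Φ, hπ, hΦ, A, -, po, ξ, hξ⟩ := exRes hw h2 s1 s2
  obtain ⟨D, D0, σ, α, f, a1, a2, a3, a4, a5⟩ := coreE ea U.cp hw.1 h2 he
  obtain ⟨D', D0', a6⟩ := unE ea hw.1 he
  have hN := nmem hπ A h2 (mul_pos D0 D0')
  have ev : Even (nq 𝔓 ^ (D * D') - 1) := A.odd.pow.tsub_odd odd_one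
  have N0 := npos A (mul_pos D0 D0')
  have dv := Nat.pow_sub_one_dvd_pow_sub_one (nq 𝔓) (dvd_mul_right D D')
  have dv' := Nat.pow_sub_one_dvd_pow_sub_one (nq 𝔓) (dvd_mul_left D' D)
  have dv1 := Nat.pow_sub_one_dvd_pow_sub_one (nq 𝔓) (one_dvd (D * D'))
  generalize nq 𝔓 ^ (D * D') - 1 = N at hN ev N0 dv dv' dv1
  have hN' : ((2 * (2 * N) : ℕ) : 𝓞 (AlgebraicClosure L)) ∉ 𝔓 := fun a => by
    rw [Nat.cast_mul, Nat.cast_ofNat] at a
    exact (hw.1.isPrime.mem_or_mem a).elim h2 hN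
  obtain ⟨β, β0, hβ⟩ := exb hN (v0 v2)
  obtain ⟨x, hx⟩ : ∃ x : K, algebraMap K L x = ϖ ^ 2 := by
    obtain ⟨g, h, rfl⟩ := Q.span ϖ
    rw [Q.tau_mk] at v1
    exact ⟨-(g ^ 2 - d * h ^ 2), by rw [map_neg, ← Q.mul_tau_mk, Q.tau_mk, v1]; ring⟩
  have x1 := og_algebraMap w x
  rw [hx, e2, og, ord_pow, ← og, v2] at x1
  have x2 : algebraMap L (AlgebraicClosure L) ϖ ^ 2 = algebraMap K _ x := by
    rw [← map_pow, ← hx, GlAux.alg]
  have x3 : β ^ (2 * N) = algebraMap K _ x := by rw [pow_mul', hβ, x2]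
  obtain ⟨τ, t1, η, hη, et⟩ := sur b (ϖ := x) (by omega) hN x3
  have pη := hη.map_of_injective (f := algebraMap _ (AlgebraicClosure L))
    RingOfIntegers.coe_injective
  have r2 : τ (algebraMap L _ ϖ) = -algebraMap L _ ϖ := by
    have := half pη (by omega) (even_two_mul _)
    rw [Nat.mul_div_cancel_left _ two_pos] at this
    rw [← hβ, map_pow, et, mul_pow, show (η : AlgebraicClosure L) ^ _ = -1 from this, neg_one_mul]
  have ha : τ ∉ J.H := fun h => v0 v2 (by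
    have := ((hH ▸ h) ϖ).symm.trans r2
    linear_combination (1 / 2 : AlgebraicClosure L) * this)
  have s3 := J.u1 _ (J.two _ _ ha ha)
  have ht : J.u (τ * τ) ∈ Ine L 𝔓 := (ine_iff hι _).2 (s3.symm ▸ mul_mem t1 t1)
  have et' : J.u (τ * τ) β = (η ^ 2 : 𝓞 (AlgebraicClosure L)) * β := by
    rw [← hι, s3, AlgEquiv.mul_apply, et, map_mul, et, fr_root hw.1 (ine_fr t1) hN pη.pow_eq_one,
      pow_one, ← mul_assoc, ← sq]
    rfl
  have hη' := hη.pow (by omega) (rfl : 2 * N = 2 * N)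
  obtain ⟨m, d, ζ, c1, c2, rfl, c3, c4, -⟩ := a5 hπ hΦ hN ev dv β0 (by rw [hβ]) ht hη' et'
  have u0 : ∀ g ∈ Ine K 𝔓, g β = β → ∃ l : ℕ, ∀ l' ≥ l, ∀ y, (((U.R.ac g - 1) ^ l') y).1 = 0 :=
    fun g hg a => by
    have i : g ∈ J.H := by_contra fun i => v0 v2 (by
      have := glK.tau Q g (hH ▸ i) ϖ
      rw [v1, map_neg, ← hβ, map_pow, a] at this
      rw [← hβ]
      linear_combination (1 / 2 : AlgebraicClosure L) * this)
    obtain ⟨l, hl⟩ := a6 hπ hΦ hN dv' β0 (x3.trans x2.symm) ht hη' et' (J.u g)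
      ((ine_iff hι _).2 (by rwa [J.u1 _ i])) (by rw [← hι, J.u1 _ i, a])
    have : ∀ (l : ℕ) y, (((U.R.ac g - 1) ^ l) y).1 = ((U.ρ.ac (J.u g) - 1) ^ l) y.1 := fun l y => by
      induction l with
      | zero => rfl
      | succ l ih =>
        rw [pow_succ', pow_succ', End.mul_apply, End.mul_apply, ← ih, LinearMap.sub_apply, U.R_in i]
        rfl
    exact ⟨l, fun l' h y => by rw [this, pow_eq_zero_of_le h hl]; rfl⟩
  obtain ⟨g1, g2⟩ := tameR hw.1 h2 hN' t1 pη et U.cpT (even_two_mul _) β0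
    (fun g _ => by rw [x3, g.commutes]) fun g hg a => by
      obtain ⟨l, hl⟩ := u0 g hg a
      obtain ⟨l', hl'⟩ := u0 (τ * g * τ⁻¹) (mul_mem (mul_mem t1 hg) (inv_mem t1)) (by
        rw [AlgEquiv.mul_apply, AlgEquiv.mul_apply, ine_root hw.1 hg hN (c := 1)
          (by rw [← map_pow, x3, τ⁻¹.commutes]) β0 (by rw [a, one_mul]), one_mul,
          ← AlgEquiv.mul_apply, mul_inv_cancel, AlgEquiv.one_apply])
      refine ⟨l + l', LinearMap.ext fun y => Prod.ext (hl _ (by omega) y) ?_⟩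
      have s : SemiconjBy (U.R.ac τ) (U.R.ac g - 1) (U.R.ac (τ * g * τ⁻¹) - 1) := by
        rw [SemiconjBy, mul_sub, sub_mul, ← map_mul, ← map_mul, inv_mul_cancel_right, mul_one,
          one_mul]
      have := hl' (l + l') (by omega) (U.R.ac τ y)
      rw [← End.mul_apply, ← (s.pow_right _).eq, End.mul_apply, U.R_out ha] at this
      replace this := congrArg (U.ρ.ac (J.u τ)⁻¹) this
      rwa [← U.ρ.mul, inv_mul_cancel, U.ρ.one, map_zero] at this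
  have p0 := prim hπ hw.1 hN hη' dv1
  obtain ⟨r, hr⟩ := A.odd
  obtain ⟨s, hs⟩ := A.pw
  have g := EP.g1 A one_pos p0 (ζ := -1)
    (by rw [pow_one]; exact (A.odd.tsub_odd odd_one).neg_one_pow) (by norm_num)
  rw [inv_neg_one, pow_one, pow_one, show (nq 𝔓 - 1) / 2 = nq 𝔓 / 2 by omega, ← neg_mul_neg] at g
  obtain ⟨u, v, v', w', u1, u2, w1, u3, u4, u5, w2⟩ := exU0 c (f := s) po (by
    rw [← map_natCast (algebraMap ℚ_[2] E), norm_algebraMap', Padic.norm_natCast_eq_one_iff]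
    exact Nat.coprime_two_left.2 po) hξ (by rw [← hs]; exact g)
  rw [← hs] at u4 u5 w2
  have u6 : u.eval 1 = 1 := by simp [u1]
  have f1 : IsFr 𝔓 (2 * r + 1) (J.ι σ) := fun x => by rw [i_smul hι, ← hr]; exact a1 x
  have s4 := (facts L (AlgebraicClosure L)).fr.dec hw.1 A.odd.pos.ne' a1
  have s5 := F.fr.dec hw.1 (Nat.succ_ne_zero _) f1
  have n1 : J.ι σ * τ * (J.ι σ)⁻¹ ∈ Ine K 𝔓 := by simpa using ine_nor (inv_mem s5) t1
  have tm : Tm E (⟨_, n1⟩ : Ine K 𝔓) ⟨τ, t1⟩ (2 * r + 1) := fun f f2 f3 =>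
    cyc_q (E := E) hw.1 h2 f1 ▸ tame c hw.1 h2 s5 f f2 f3 _ _ rfl
  have rel : U.R.ac (J.ι σ) * U.R.ac τ = U.R.ac τ ^ (2 * r + 1) * U.R.ac (J.ι σ) := by
    rw [← g2 _ n1 _ (cjb hw.1 hN' t1 pη et β0 f1 (by
      rw [← map_pow, pow_mul', x3, map_pow, AlgEquiv.commutes])) tm, ← map_mul, ← map_mul,
      inv_mul_cancel_right]
  have q : nq 𝔓 = Ideal.absNorm (below K w).asIdeal := by
    rw [nq_eq hw]
    rcases Q.efg w with e | e | e
    exacts [by omega, by omega, e.2.2]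
  have M := miD (k := k) b h2 ⟨J.ι σ, s5⟩ (by rw [← q, hr]; exact f1)
  obtain ⟨Λ, l1, -⟩ := exL (K := K) c hw.1
  have tt : U.ρ.ac (J.u (τ * τ))⁻¹ * U.ρ.ac (J.u (τ * τ)) = 1 := by
    rw [← map_mul, inv_mul_cancel, map_one]
  have hid := u5 U.ρ.ac (J.u (τ * τ))
  have hw2 := w2 U.X.r.ac τ
  rw [hr, show (2 * r + 1) / 2 = r by omega] at hid hw2
  have loc := U.ram9 (lfD hw.1).top.two (ldm (lfD hw.1)) Λ l1 M (h0W hι U h0 hw.1) ev'
    (τ := ⟨τ, F.pr.le _ t1⟩) t1 ha (chi_ine hw.1 h2 t1) (J.mem σ) (cyc_q hw.1 h2 f1)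
    (M.inv_tame (lfD hw.1).top.two (Subgroup.inclusion (F.pr.le 𝔓))
      (continuous_inclusion (F.pr.le 𝔓))
      (fun i => ⟨fun h => ⟨⟨i, h⟩, rfl⟩, fun ⟨x, h⟩ => h ▸ x.2⟩)
      (genK hw.1 h2 t1 (v0 v2) (fun g _ => by rw [x2, g.commutes]) r2) rfl ⟨r, rfl⟩ tm
      (U.X.res _).hχ (U.X.res _).χ2 (U.c1 _ ha))
    (fun g hg j => (g1 g hg j).imp fun m h => (U.cpT.res _).mem_lv.2 (U.cpT.mem_lv.1 h)) rel
    u1 u2 w1 hid hw2
  rw [J.u_ι] at loc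
  refine ⟨_, loc, ?_⟩
  have p2 := pr2 U ha
  rw [cyc_q hw.1 h2 (ine_fr t1), Nat.cast_one] at p2
  simp only [one_mul] at p2
  have r1 := (U.rel9 ha (J.mem σ) rel).1
  rw [J.u_ι] at r1
  have := linR _ (pr_l U hB) (by simpa using (c3 1).1) tt
    (by rw [← map_mul, mul_inv_cancel, map_one]) p2 (fun x y => by
      rw [← cyc_q hw.1 h2 f1]
      exact (congrArg _ (r1 y).symm).trans (U.equi _ _ _)) (hr ▸ c4 σ a1) u6 hid
    (by rw [← map_mul, mul_inv_cancel, map_one]) (fun x hx => (mem_inv ea).2 fun g hg => by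
      have := congrArg (U.ρ.ac σ) ((mem_inv ea).1 hx _ (ine_nor s4 hg))
      rwa [← U.ρ.mul, ← mul_assoc, mul_inv_cancel_left, U.ρ.mul] at this)
    (fun x hx a => h0 _ hw.1 x fun g => sub_eq_zero.1 (U.Λ.sep fun j =>
      ((miD (k := k) hw h2 ⟨σ, s4⟩ (nq_eq hw ▸ a1)).gen ((U.cp.res _).fx j x)
        ((U.cp.res _).fx_open j x)
        (fun i hi => show U.ρ.ac i x - x ∈ U.Λ.T j from
          (sub_eq_zero.2 ((mem_inv ea).1 hx _ hi)).symm.subst (zero_mem _))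
        (show U.ρ.ac σ x - x ∈ U.Λ.T j from
          (sub_eq_zero.2 a).symm.subst (zero_mem _))).ge (Subgroup.mem_top g))) a4
  have k := blkR (ω := fun d => π (η ^ 2) ^ (N / (nq 𝔓 ^ d - 1))) A c1 c2 u6 u4
    (by rwa [pow_one]) (by
    simpa using (eig (pr_l U hB) (pr_r U hB) (c3 1).2 (c3 1).2 fun x y => by
      rw [pow_one, p2, p2, neg_neg]).symm)
  rw [this, dpoly (c3 1).2, mul_assoc, k, mul_one]

end Pool.Agent.BC
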