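import Pool.Agent.Lib.MP_b4b3cb_nt.BC.Inv

/-! Annihilators under the local pairing. -/

set_option linter.unusedSectionVars false

namespace Pool.Agent.BC

open scoped Classical
open Module Pool.Agent.SP

variable {k : Type} [Field k]

section Lin

variable {V V' : Type} [AddCommGroup V] [Module k V] [AddCommGroup V'] [Module k V']

/-- A functional that vanishes on the left kernel is represented by a vector. -/
theorem bidual [FiniteDimensional k V] (b : V' →ₗ[k] V →ₗ[k] k) (l : V' →ₗ[k] k)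
    (h : ∀ y, (∀ x, b y x = 0) → l y = 0) : ∃ x, ∀ y, l y = b y x := by
  have : l ∈ LinearMap.range (LinearMap.dualMap (M₂ := Dual k V) b) := by
    rw [LinearMap.range_dualMap_eq_dualAnnihilator_ker, Submodule.mem_dualAnnihilator]
    exact fun y hy => h y fun x => LinearMap.congr_fun hy x
  obtain ⟨φ, rfl⟩ := this
  obtain ⟨x, rfl⟩ := (Module.evalEquiv k V).surjective φ
  exact ⟨x, fun y => rfl⟩

/-- The two kernels of a pairing have the same codimension. -/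
theorem rank_ker [FiniteDimensional k V] [FiniteDimensional k V'] (b : V' →ₗ[k] V →ₗ[k] k) :
    finrank k (LinearMap.ker b) + finrank k V = finrank k V' + finrank k (LinearMap.ker b.flip) := by
  have e : LinearMap.range b.flip = LinearMap.range (LinearMap.dualMap (M₂ := Dual k V) b) := by
    ext l
    refine ⟨fun ⟨x, hx⟩ => ⟨Module.evalEquiv k V x, hx⟩, fun ⟨φ, hφ⟩ => ?_⟩
    obtain ⟨x, rfl⟩ := (Module.evalEquiv k V).surjective φ
    exact ⟨x, hφ⟩
  have h1 := LinearMap.finrank_range_add_finrank_ker b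
  have h2 := LinearMap.finrank_range_add_finrank_ker b.flip
  rw [e, LinearMap.finrank_range_dualMap_eq_finrank_range] at h2
  have h3 : finrank k (LinearMap.range b) + finrank k (LinearMap.ker b.flip) = finrank k V := h2
  omega

end Lin

variable {G : Type} [Group G] [TopologicalSpace G]
  {A A' A₁ A₁' : Type} [AddCommGroup A] [Module k A] [AddCommGroup A'] [Module k A']
  [AddCommGroup A₁] [Module k A₁] [AddCommGroup A₁'] [Module k A₁']
  {β : A' →ₗ[k] A →ₗ[k] k} {R : FR k G A} {R' : FR k G A'}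
  {γ : A₁' →ₗ[k] A₁ →ₗ[k] k} {R₁ : FR k G A₁} {R₁' : FR k G A₁'}
  {Y Y' : Submodule k (G → A)}

theorem c11_add_left (y y' : G → A') (x : G → A) :
    c11 β R (y + y') x = c11 β R y x + c11 β R y' x := by
  ext g h; simp [c11]

theorem c11_add_right (y : G → A') (x x' : G → A) :
    c11 β R y (x + x') = c11 β R y x + c11 β R y x' := by
  ext g h; simp [c11]

theorem c11_smul_left (a : k) (y : G → A') (x : G → A) :
    c11 β R (a • y) x = a • c11 β R y x := by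
  ext g h; simp [c11]

theorem c11_smul_right (a : k) (y : G → A') (x : G → A) :
    c11 β R y (a • x) = a • c11 β R y x := by
  ext g h; simp [c11]

theorem mem_ann {y : G → A'} : y ∈ ann β R' R Y ↔ y ∈ R'.Z1 ∧ ∀ x ∈ Y, Sz (c11 β R y x) := Iff.rfl

theorem ann_le : ann β R' R Y ≤ R'.Z1 := fun _ h => h.1

theorem ann_anti (h : Y ≤ Y') : ann β R' R Y' ≤ ann β R' R Y :=
  fun _ p => ⟨p.1, fun x hx => p.2 x (h hx)⟩

theorem ann_sup : ann β R' R (Y ⊔ Y') = ann β R' R Y ⊓ ann β R' R Y' :=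
  le_antisymm (le_inf (ann_anti le_sup_left) (ann_anti le_sup_right)) fun y h => ⟨h.1.1, fun x hx => by
    obtain ⟨a, ha, b, hb, rfl⟩ := Submodule.mem_sup.1 hx
    rw [c11_add_right]
    exact (h.1.2 a ha).add (h.2.2 b hb)⟩

/-- The cup product and adjoint maps. -/
theorem c11_adj {f : A →ₗ[k] A₁} {f' : A₁' →ₗ[k] A'} (hf : Eqv R R₁ f)
    (e : ∀ u v, β (f' u) v = γ u (f v)) (y : G → A₁') (x : G → A) :
    c11 β R (fun g => f' (y g)) x = c11 γ R₁ y fun g => f (x g) := by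
  ext g h
  simp only [c11, e, hf g]

/-- The annihilator of an image is the preimage of the annihilator under the adjoint. -/
theorem mem_ann_map {f : A →ₗ[k] A₁} {f' : A₁' →ₗ[k] A'} (hf : Eqv R R₁ f) (hf' : Eqv R₁' R' f')
    (e : ∀ u v, β (f' u) v = γ u (f v)) {y : G → A₁'} :
    y ∈ ann γ R₁' R₁ (Y.map (f.compLeft G)) ↔
      y ∈ R₁'.Z1 ∧ (fun g => f' (y g)) ∈ ann β R' R Y :=
  ⟨fun h => ⟨h.1, hf'.z1 h.1, fun x hx => c11_adj hf e y x ▸ h.2 _ ⟨x, hx, rfl⟩⟩,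
    fun h => ⟨h.1, fun _ ⟨x, hx, q⟩ => q ▸ (c11_adj hf e y x ▸ h.2.2 x hx :)⟩⟩

theorem ann_map {f : A →ₗ[k] A₁} {f' : A₁' →ₗ[k] A'} (hf : Eqv R R₁ f) (hf' : Eqv R₁' R' f')
    (e : ∀ u v, β (f' u) v = γ u (f v)) : ann γ R₁' R₁ (Y.map (f.compLeft G)) =
      R₁'.Z1 ⊓ (ann β R' R Y).comap (f'.compLeft G) :=
  Submodule.ext fun _ => mem_ann_map hf hf' e

theorem Eqv.map_z1 {f : A →ₗ[k] A₁} (hf : Eqv R R₁ f) (h : Y ≤ R.Z1) :
    Y.map (f.compLeft G) ≤ R₁.Z1 := fun _ ⟨_, hx, q⟩ => q ▸ hf.z1 (h hx)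

theorem Eqv.b1_comap {f : A →ₗ[k] A₁} (hf : Eqv R R₁ f) {Y₁ : Submodule k (G → A₁)}
    (h : R₁.B1 ≤ Y₁) : R.B1 ≤ R.Z1 ⊓ Y₁.comap (f.compLeft G) :=
  fun _ hx => ⟨R.B1_le hx, h (hf.b1 hx)⟩

theorem Eqv.b1_map {f : A →ₗ[k] A₁} (hf : Eqv R R₁ f) (sj : Function.Surjective f)
    (h : R.B1 ≤ Y) : R₁.B1 ≤ Y.map (f.compLeft G) := by
  rintro _ ⟨u, rfl⟩
  obtain ⟨u, rfl⟩ := sj u
  exact ⟨_, h ⟨u, rfl⟩, hf.d1 u⟩

variable [CharP k 2]

theorem b1_le_ann (hP : Pf R' R β) (h : Y ≤ R.Z1) : R'.B1 ≤ ann β R' R Y :=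
  fun _ p => ⟨R'.B1_le p, fun _ hx => sz_b1_left hP p (h hx)⟩

theorem ann_b1 (hP : Pf R' R β) : ann β R' R R.B1 = R'.Z1 :=
  le_antisymm ann_le fun _ p => ⟨p, fun _ hx => sz_b1_right hP p hx⟩

theorem ann_sup_b1 (hP : Pf R' R β) : ann β R' R (Y ⊔ R.B1) = ann β R' R Y := by
  rw [ann_sup, ann_b1 hP, inf_eq_left.2 ann_le]

theorem le_ann_ann (hP : Pf R' R β) (h : Y ≤ R.Z1) : Y ≤ ann β.flip R R' (ann β R' R Y) :=
  fun x hx => ⟨h hx, fun _ p => sz_flip hP p.1 (h hx) (p.2 x hx)⟩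

theorem ann_z1 [FiniteDimensional k A] (L : LDm k G) (hP : Pf R' R β) :
    ann β R' R R.Z1 = R'.B1 :=
  have := hP.bij.1
  le_antisymm (fun y p => L.one hP.flip y p.1 fun x hx => sz_flip hP p.1 hx (p.2 x hx))
    (b1_le_ann hP le_rfl)

variable [Finite k] [Algebra (ZMod 2) k]

/-- The local pairing. -/
noncomputable def lp (H : Two G) (hP : Pf R' R β) : R'.Z1 →ₗ[k] R.Z1 →ₗ[k] k :=
  LinearMap.mk₂ k (fun y x => invK (c11 β R y x))
    (fun a b x => by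
      rw [Submodule.coe_add, c11_add_left, invK_add H (cz_c11 hP a.2 x.2) (cz_c11 hP b.2 x.2)])
    (fun c a x => by rw [Submodule.coe_smul, c11_smul_left, invK_smul H c (cz_c11 hP a.2 x.2)]; rfl)
    (fun a x x' => by
      rw [Submodule.coe_add, c11_add_right, invK_add H (cz_c11 hP a.2 x.2) (cz_c11 hP a.2 x'.2)])
    fun c a x => by rw [Submodule.coe_smul, c11_smul_right, invK_smul H c (cz_c11 hP a.2 x.2)]; rfl

theorem lp_apply (H : Two G) (hP : Pf R' R β) (y : R'.Z1) (x : R.Z1) :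
    lp H hP y x = invK (c11 β R y x) := rfl

theorem lp_zero (H : Two G) (hP : Pf R' R β) (y : R'.Z1) (x : R.Z1) :
    lp H hP y x = 0 ↔ Sz (c11 β R y x) := invK_zero H (cz_c11 hP y.2 x.2)

variable [FiniteDimensional k A] (H : Two G) (L : LDm k G) (hP : Pf R' R β)

include H L hP

theorem dim_ann (h1 : R.B1 ≤ Y) (h2 : Y ≤ R.Z1) :
    finrank k (ann β R' R Y) + finrank k Y = finrank k R'.Z1 + finrank k R.B1 := by
  have := hP.bij.1
  have := L.fin R
  have := L.fin R'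
  have := Submodule.finiteDimensional_of_le h2
  have h := rank_ker ((lp H hP).compl₂ (Submodule.inclusion h2))
  have e1 : LinearMap.ker ((lp H hP).compl₂ (Submodule.inclusion h2)) =
      (ann β R' R Y).submoduleOf R'.Z1 := Submodule.ext fun y =>
    ⟨fun p => ⟨y.2, fun x hx => (lp_zero H hP y ⟨x, h2 hx⟩).1 (LinearMap.congr_fun p ⟨x, hx⟩)⟩,
      fun p => LinearMap.ext fun x => (lp_zero H hP y ⟨x, h2 x.2⟩).2 (p.2 x x.2)⟩
  have e2 : LinearMap.ker ((lp H hP).compl₂ (Submodule.inclusion h2)).flip =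
      R.B1.submoduleOf Y := Submodule.ext fun x =>
    ⟨fun p => L.one hP x (h2 x.2) fun y hy =>
      (lp_zero H hP ⟨y, hy⟩ ⟨x, h2 x.2⟩).1 (LinearMap.congr_fun p ⟨y, hy⟩),
      fun p => LinearMap.ext fun y => (lp_zero H hP y ⟨x, h2 x.2⟩).2 (sz_b1_right hP y.2 p)⟩
  rw [e1, e2, (Submodule.submoduleOfEquivOfLe ann_le).finrank_eq,
    (Submodule.submoduleOfEquivOfLe h1).finrank_eq] at h
  exact h

theorem dim_h1 : finrank k R'.B1 + finrank k R.Z1 = finrank k R'.Z1 + finrank k R.B1 := by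
  rw [← ann_z1 L hP]
  exact dim_ann H L hP R.B1_le le_rfl

theorem ann_ann (h1 : R.B1 ≤ Y) (h2 : Y ≤ R.Z1) : ann β.flip R R' (ann β R' R Y) = Y := by
  have := hP.bij.1
  have := L.fin R
  have := Submodule.finiteDimensional_of_le (ann_le (β := β.flip) (R := R') (R' := R)
    (Y := ann β R' R Y))
  have a := dim_ann H L hP h1 h2
  have b := dim_ann H L hP.flip (b1_le_ann hP h2) ann_le
  have c := dim_h1 H L hP
  exact (Submodule.eq_of_le_of_finrank_eq (le_ann_ann hP h2) (by omega)).symm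

theorem ann_ann' {W : Submodule k (G → A')} (h1 : R'.B1 ≤ W) (h2 : W ≤ R'.Z1) :
    ann β R' R (ann β.flip R R' W) = W :=
  have := hP.bij.1
  ann_ann H L hP.flip h1 h2

/-- A cocycle that is orthogonal to the annihilator of `Y` lies in `Y`. -/
theorem mem_of_ann (h1 : R.B1 ≤ Y) (h2 : Y ≤ R.Z1) {x : G → A} (hx : x ∈ R.Z1)
    (h : ∀ y ∈ ann β R' R Y, Sz (c11 β R y x)) : x ∈ Y :=
  (ann_ann H L hP h1 h2).le ⟨hx, fun y hy => sz_flip hP hy.1 hx (h y hy)⟩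

theorem ann_inf (h1 : R.B1 ≤ Y) (h2 : Y ≤ R.Z1) (h3 : R.B1 ≤ Y') (h4 : Y' ≤ R.Z1) :
    ann β R' R (Y ⊓ Y') = ann β R' R Y ⊔ ann β R' R Y' := by
  rw [← ann_ann' H L hP (le_sup_of_le_left (b1_le_ann hP h2)) (sup_le ann_le ann_le), ann_sup,
    ann_ann H L hP h1 h2, ann_ann H L hP h3 h4]

/-- The annihilator of a preimage is the image of the annihilator under the adjoint. -/
theorem ann_comap [FiniteDimensional k A₁] (hP₁ : Pf R₁' R₁ γ) {f : A →ₗ[k] A₁}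
    {f' : A₁' →ₗ[k] A'} (hf : Eqv R R₁ f) (hf' : Eqv R₁' R' f')
    (e : ∀ u v, β (f' u) v = γ u (f v)) {Y₁ : Submodule k (G → A₁)} (h1 : R₁.B1 ≤ Y₁)
    (h2 : Y₁ ≤ R₁.Z1) : ann β R' R (R.Z1 ⊓ Y₁.comap (f.compLeft G)) =
      (ann γ R₁' R₁ Y₁).map (f'.compLeft G) ⊔ R'.B1 := by
  rw [← ann_ann' H L hP (W := (ann γ R₁' R₁ Y₁).map (f'.compLeft G) ⊔ R'.B1) le_sup_right
      (sup_le (hf'.map_z1 ann_le) R'.B1_le), ann_sup_b1 hP.flip,
    ann_map (β := γ.flip) (γ := β.flip) hf' hf (fun u v => (e v u).symm), ann_ann H L hP₁ h1 h2]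

end Pool.Agent.BC
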