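import Pool.Agent.Lib.MP_b4b3cb_nt.BC.Lt
import Pool.Agent.Lib.MP_b4b3cb_nt.BC.Ann

/-! Representations with a stable lattice and their reductions. -/

set_option linter.unusedSectionVars false

namespace Pool.Agent.BC

open scoped Classical
open Module Pool.Agent.SP

variable {E k : Type} [NontriviallyNormedField E] [Field k] {G G' : Type} [Group G]
  [TopologicalSpace G] [Group G'] [TopologicalSpace G'] {c : CF E k}
  {W W' : Type} [NormedAddCommGroup W] [NormedSpace E W] [NormedAddCommGroup W'] [NormedSpace E W']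
  {A A' : Type} [AddCommGroup A] [Module k A] [AddCommGroup A'] [Module k A']

/-- The lattice is stable and the reduction is equivariant. -/
def Cp (C : Lt c W A) (R : Rp E G W) (Rb : FR k G A) : Prop :=
  ∀ g, ∀ u ∈ C.L, R.ac g u ∈ C.L ∧ C.rd (R.ac g u) = Rb.ac g (C.rd u)

/-- An integral pairing and its reduction. -/
def Pb (C : Lt c W A) (C' : Lt c W' A') (β : W →ₗ[E] W' →ₗ[E] E) (b : A →ₗ[k] A' →ₗ[k] k) : Prop :=
  ∀ u ∈ C.L, ∀ v ∈ C'.L, c.Rd (β u v) (b (C.rd u) (C'.rd v))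

/-- Cochains with values in `T i` which are cocycles modulo `T j`. -/
def Lt.Lev (C : Lt c W A) (R : Rp E G W) (i j : ℤ) : AddSubgroup (G → W) where
  carrier := {x | Continuous x ∧ (∀ g, x g ∈ C.T i) ∧ ∀ g h, R.d2 x g h ∈ C.T j}
  add_mem' := fun {a b} ha hb => ⟨ha.1.add hb.1, fun g => add_mem (ha.2.1 g) (hb.2.1 g),
    fun g h => by rw [R.d2_add]; exact add_mem (ha.2.2 g h) (hb.2.2 g h)⟩
  zero_mem' := ⟨continuous_const, fun _ => zero_mem _, fun g h => by simp [Rp.d2]⟩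
  neg_mem' := fun {a} ha => ⟨ha.1.neg, fun g => neg_mem (ha.2.1 g), fun g h => by
    rw [← neg_one_smul E a, R.d2_smul, neg_one_smul]; exact neg_mem (ha.2.2 g h)⟩

variable {C : Lt c W A} {C' : Lt c W' A'} {R : Rp E G W} {R' : Rp E G W'} {Rb : FR k G A}
  {Rb' : FR k G A'} {β : W →ₗ[E] W' →ₗ[E] E} {b : A →ₗ[k] A' →ₗ[k] k}

theorem Pb.rd (h : Pb C C' β b) {i j : ℤ} {u : W} {v : W'} (hu : u ∈ C.T i) (hv : v ∈ C'.T j) :
    c.Rd (c.π ^ (-(i + j)) * β u v) (b (C.lam i u) (C'.lam j v)) :=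
  (h _ hu _ hv).congr (by
    simp only [sml_apply, map_smul, LinearMap.smul_apply, smul_eq_mul]
    rw [← mul_assoc, ← zpow_add₀ c.ne, neg_add_rev]) rfl

theorem Pb.lam (h : Pb C C' β b) {i j : ℤ} (e : i + j = -1) {u : W} {v : W'} (hu : u ∈ C.T i)
    (hv : v ∈ C'.T j) : c.Rd (c.π * β u v) (b (C.lam i u) (C'.lam j v)) := by
  simpa [e] using h.rd hu hv

theorem Pb.le (h : Pb C C' β b) {i j : ℤ} {u : W} {v : W'} (hu : u ∈ C.T i) (hv : v ∈ C'.T j)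
    (e : 0 ≤ i + j) : ‖β u v‖ ≤ 1 := by
  simpa using (h.rd hu (C'.anti (show -i ≤ j by omega) hv)).1

theorem Pb.div (h : Pb C C' β b) {i j r : ℤ} {u : W} {v : W'} (hu : u ∈ C.T i) (hv : v ∈ C'.T j)
    (e : r ≤ i + j) : ‖β u v / c.π ^ r‖ ≤ 1 := by
  have := h.le ((C.per_zpow (-r) _ _).2 hu) hv (by omega)
  rwa [map_smul, LinearMap.smul_apply, smul_eq_mul, zpow_neg, ← div_eq_inv_mul] at this

theorem Pb.flip (h : Pb C C' β b) : Pb C' C β.flip b.flip := fun u hu v hv => h v hv u hu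

namespace Lt

theorem lev_mono {i i' j j' : ℤ} (h : i' ≤ i) (h' : j' ≤ j) : C.Lev R i j ≤ C.Lev R i' j' :=
  fun _ hx => ⟨hx.1, fun g => C.anti h (hx.2.1 g), fun g l => C.anti h' (hx.2.2 g l)⟩

theorem lev_res {i j : ℤ} {x : G → W} (hx : x ∈ C.Lev R i j) (D : Subgroup G) :
    (fun g : D => x g) ∈ C.Lev (R.res D) i j :=
  ⟨hx.1.comp continuous_subtype_val, fun g => hx.2.1 g, fun g h => hx.2.2 g h⟩

theorem lev_of {Y : Submodule E (G → W)} (hY : Y ≤ R.Z1) {i : ℤ} {t : G → W} (ht : t ∈ C.Z Y i)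
    (j : ℤ) : t ∈ C.Lev R i j :=
  ⟨(hY ht.1).1, ht.2, fun g h => by rw [(hY ht.1).2]; exact zero_mem _⟩

theorem lev_smul {i j : ℤ} {x : G → W} (hx : x ∈ C.Lev R i j) {a : E} (ha : ‖a‖ ≤ 1) :
    a • x ∈ C.Lev R i j :=
  ⟨hx.1.const_smul a, fun g => C.smul ha (hx.2.1 g), fun g h => by
    rw [R.d2_smul]; exact C.smul ha (hx.2.2 g h)⟩

theorem lev_per {i j : ℤ} {x : G → W} (m : ℤ) (hx : x ∈ C.Lev R i j) :
    c.π ^ m • x ∈ C.Lev R (i + m) (j + m) :=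
  ⟨hx.1.const_smul _, fun g => (C.per_zpow m _ _).2 (hx.2.1 g), fun g h => by
    rw [R.d2_smul]; exact (C.per_zpow m _ _).2 (hx.2.2 g h)⟩

variable (C) in
theorem lift_lc {X : Type} [TopologicalSpace X] (i : ℤ) {f : X → A} (hf : IsLocallyConstant f) :
    ∃ y : X → W, Continuous y ∧ ∀ g, y g ∈ C.T i ∧ C.lam i (y g) = f g := by
  choose e h1 h2 using C.ex i
  exact ⟨fun g => e (f g), (hf.comp e).continuous, fun g => ⟨h1 _, h2 _⟩⟩

theorem bd_of [CompactSpace G] {Y : Submodule E (G → W)} (hY : Y ≤ R.Z1) : C.Bd Y :=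
  fun _ ht => C.exh_cont (hY ht).1

end Lt

namespace Cp

variable (h : Cp C R Rb)

include h

theorem comap (φ : G' →* G) (hφ : Continuous φ) : Cp C (R.comap φ hφ) (Rb.comap φ hφ) :=
  fun g => h (φ g)

theorem res (D : Subgroup G) : Cp C (R.res D) (Rb.res D) := fun g => h g

theorem mem (g : G) {i : ℤ} {u : W} (hu : u ∈ C.T i) : R.ac g u ∈ C.T i := by
  rw [Lt.mem_T, ← map_smul]
  exact (h g _ hu).1

theorem lam (g : G) {i : ℤ} {u : W} (hu : u ∈ C.T i) :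
    C.lam i (R.ac g u) = Rb.ac g (C.lam i u) := by
  rw [Lt.lam, ← map_smul]
  exact (h g _ hu).2

theorem lam_d1 {j : ℤ} {u : W} (hu : u ∈ C.T j) (g : G) :
    R.d1 u g ∈ C.T j ∧ C.lam j (R.d1 u g) = Rb.d1 (C.lam j u) g :=
  ⟨sub_mem (h.mem g hu) hu, by rw [R.d1_apply, C.lam_sub (h.mem g hu) hu, h.lam g hu]; rfl⟩

theorem lam_d2 {j : ℤ} {a : G → W} (ha : ∀ g, a g ∈ C.T j) (g l : G) :
    R.d2 a g l ∈ C.T j ∧ C.lam j (R.d2 a g l) = Rb.d2 (fun g => C.lam j (a g)) g l :=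
  ⟨sub_mem (add_mem (ha g) (h.mem g (ha l))) (ha _), by
    rw [Rp.d2, C.lam_sub (add_mem (ha g) (h.mem g (ha l))) (ha _),
      C.lam_add (ha g) (h.mem g (ha l)), h.lam g (ha l)]
    rfl⟩

theorem hom {i j : ℤ} {x : G → W} (hx : x ∈ C.Lev R i j) (hij : i < j) :
    (fun g => C.lam i (x g)) ∈ Rb.Z1 :=
  ⟨C.lc hx.1 hx.2.1, fun g l => by
    rw [← (h.lam_d2 hx.2.1 g l).2, C.lam_of (C.anti hij (hx.2.2 g l))]⟩

theorem z2 [ContinuousMul G] {i j : ℤ} {x : G → W} (hx : x ∈ C.Lev R i j) :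
    Rb.Z2 fun g l => C.lam j (R.d2 x g l) :=
  ⟨C.lc (R.d2_cont hx.1) fun p => hx.2.2 p.1 p.2, fun g l m => by
    beta_reduce
    rw [← h.lam g (hx.2.2 l m), ← C.lam_add (h.mem g (hx.2.2 l m)) (hx.2.2 _ _), R.dd,
      C.lam_add (hx.2.2 _ _) (hx.2.2 _ _)]⟩

theorem W_le {Y : Submodule E (G → W)} (hY : Y ≤ R.Z1) : C.Wd Y ≤ Rb.Z1 := by
  rintro _ ⟨t, ht, rfl⟩
  exact h.hom (Lt.lev_of hY ht 1) (by omega)

theorem b1_le {Y : Submodule E (G → W)} (hY : R.B1 ≤ Y) : Rb.B1 ≤ C.Wd Y := by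
  rintro _ ⟨a, rfl⟩
  obtain ⟨u, h1, rfl⟩ := C.ex 0 a
  exact ⟨_, ⟨hY ⟨u, rfl⟩, fun g => (h.lam_d1 h1 g).1⟩, funext fun g => (h.lam_d1 h1 g).2.symm⟩

theorem lev_hom (i : ℤ) {f : G → A} (hf : f ∈ Rb.Z1) :
    ∃ x ∈ C.Lev R i (i + 1), ∀ g, C.lam i (x g) = f g := by
  obtain ⟨y, h1, h2⟩ := C.lift_lc i hf.1
  refine ⟨y, ⟨h1, fun g => (h2 g).1, fun g l => ?_⟩, fun g => (h2 g).2⟩
  obtain ⟨a, b⟩ := h.lam_d2 (fun g => (h2 g).1) g l
  rw [← C.lam_zero a, b, funext fun g => (h2 g).2]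
  exact hf.2 g l

/-- A cochain whose obstruction is the coboundary of `φ` can be lifted one step. -/
theorem lift {i j : ℤ} {x : G → W} (hx : x ∈ C.Lev R i j) (hij : i ≤ j) {φ : G → A}
    (h1 : IsLocallyConstant φ) (h2 : ∀ g l, C.lam j (R.d2 x g l) = Rb.d2 φ g l) :
    ∃ x' ∈ C.Lev R i (j + 1), ∀ g, x g - x' g ∈ C.T j ∧ C.lam j (x g - x' g) = φ g := by
  obtain ⟨y, a1, a2⟩ := C.lift_lc j h1
  refine ⟨x - y, ⟨hx.1.sub a1, fun g => sub_mem (hx.2.1 g) (C.anti hij (a2 g).1), fun g l => ?_⟩,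
    fun g => by simpa using a2 g⟩
  obtain ⟨a, b⟩ := h.lam_d2 (fun g => (a2 g).1) g l
  rw [R.d2_sub]
  refine C.sub_mem_of (hx.2.2 g l) a ?_
  rw [b, h2, funext fun g => (a2 g).2]

/-- The elements that fix a vector modulo a multiple of the lattice. -/
def fx (j : ℤ) (u : W) : Subgroup G where
  carrier := {g | R.ac g u - u ∈ C.T j}
  mul_mem' := fun {a b} ha hb => by
    have := add_mem (h.mem a hb) ha
    rwa [map_sub, sub_add_sub_cancel, ← R.mul] at this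
  one_mem' := by simp
  inv_mem' := fun {a} ha => by
    have := neg_mem (h.mem a⁻¹ ha)
    rwa [map_sub, ← R.mul, inv_mul_cancel, R.one, neg_sub] at this

theorem fx_open (j : ℤ) (u : W) : IsOpen (h.fx j u : Set G) :=
  (C.isOpen j).preimage (R.d1_mem u).1

variable [IsUltrametricDist E] [CompleteSpace E] [Finite k] [FiniteDimensional E W]
  [CompactSpace G]

theorem fd (L : LDm k G) {Y : Submodule E (G → W)} (hY : Y ≤ R.Z1) : FiniteDimensional E Y ∧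
    FiniteDimensional k (C.Wd Y) ∧ finrank k (C.Wd Y) = finrank E Y := by
  have := C.dim_A.1
  have := L.fin Rb
  have := C.fd (Lt.bd_of hY) _ (h.W_le hY)
  exact ⟨this, C.dim_W (Lt.bd_of hY)⟩

end Cp

/-- Reductions of orthogonal spaces are orthogonal. -/
theorem iso_rd [CharP k 2] {χ : G → E} (L : LD G c χ) (hP : Pb C C' β b) (hf : Pf Rb Rb' b)
    (hS : Cp C R Rb) (hS' : Cp C' R' Rb') {Y : Submodule E (G → W)} {Y' : Submodule E (G → W')}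
    (hY : Y ≤ R.Z1) (hY' : Y' ≤ R'.Z1) (h : ∀ t ∈ Y, ∀ t' ∈ Y', Cob χ (cupB β R' t t')) :
    C.Wd Y ≤ ann b Rb Rb' (C'.Wd Y') := fun x hx => ⟨hS.W_le hY hx, fun y hy => by
  have h1 := cz_c11 hf (hS.W_le hY hx) (hS'.W_le hY' hy)
  obtain ⟨t, ht, rfl⟩ := (C.mem_W (-1)).1 hx
  obtain ⟨t', ht', rfl⟩ := hy
  obtain ⟨f, f1, f2⟩ := h t ht.1 t' ht'.1
  exact (L.zero h1).1 (L.rloc f h1 f1 fun g l => (hP.lam rfl (ht.2 g) (hS'.mem g (ht'.2 l))).congr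
    (by rw [← f2]; rfl) (by rw [hS'.lam g (ht'.2 l)]; rfl))⟩

end Pool.Agent.BC
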