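import Pool.Agent.Lib.MP_b4b3cb_nt.BC.ECore
import Pool.Agent.Lib.MP_b4b3cb_nt.BC.EInd
import Pool.Agent.Lib.MP_b4b3cb_nt.BC.Core
import Pool.Agent.Lib.MP_b4b3cb_nt.Par.Core

/-! The pairing is alternating; the parity of the Selmer rank is the residual one. -/

set_option linter.unusedSectionVars false

namespace Pool.Agent.BC

open scoped Classical
open Module Pool.Agent.SP

variable {E k : Type} [NontriviallyNormedField E] [IsUltrametricDist E] [Field k] {G P : Type}
  [Group G] [TopologicalSpace G] {c : CF E k}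

namespace SD

variable {A : AK G P c} {W : Type} [NormedAddCommGroup W] [NormedSpace E W] {M : Type}
  [AddCommGroup M] [Module k M] (X : SD A W M) [CharZero E] [CharP k 2]

/-- The quadratic section. -/
noncomputable def ss (r : ℤ) (u : W) : E := X.be u u / (2 * c.π ^ r)

theorem ss_add {r j : ℤ} (e : r ≤ j + j) {u v : W} (hu : u ∈ X.C.T j) (hv : v ∈ X.C.T j) :
    X.ss r (u + v) - X.ss r u - X.ss r v - X.om u v / (2 * c.π ^ r) ∈ O1 E := by
  convert mem_O1.2 (X.pe.div hv hu e) using 1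
  have := zpow_ne_zero r c.ne
  simp only [ss, X.om_eq, map_add, LinearMap.add_apply]
  field_simp
  ring

theorem ss_ac {r j : ℤ} (e : r ≤ j + j) (g : G) {u : W} (hu : u ∈ X.C.T j) :
    X.ss r (X.R.ac g u) - A.χ g * X.ss r u ∈ O1 E := by
  have := zpow_ne_zero r c.ne
  rcases X.be_ac g u with h | h
  · rw [ss, ss, h, mul_div_assoc, sub_self]; exact zero_mem _
  · convert neg_mem (mem_O1.2 ((A.rd_chi g).mul (c.rd_of (X.pe.div hu hu e))).1) using 1
    rw [ss, ss, h]
    field_simp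
    ring

/-- The cochain attached to the Heisenberg group. -/
noncomputable def heis (r : ℤ) (x : G → W) (g h : G) : E :=
  (X.om (x g) (X.R.ac g (x h)) - X.om (X.R.d2 x g h) (x (g * h))) / (2 * c.π ^ r) -
    X.ss r (X.R.d2 x g h)

/-- The global Selmer cocycles. -/
def Yg : Submodule E (G → W) :=
  X.R.Z1 ⊓ ⨅ v, (X.Y v).comap (LinearMap.funLeft E W Subtype.val)

theorem mem_Yg {x : G → W} : x ∈ X.Yg ↔ x ∈ X.R.Z1 ∧ ∀ v, (fun g : A.D v => x g) ∈ X.Y v := by
  rw [Yg, Submodule.mem_inf, Submodule.mem_iInf]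
  rfl

variable [CompleteSpace E] [FiniteDimensional E W] [Finite k] [Algebra (ZMod 2) k]
  [IsTopologicalGroup G] [CompactSpace G] {S₂ : Finset P} (h : GP k A.D A.I S₂)
  (hinv : ∀ v, (A.ld v).inv = invK)

include h hinv

variable {X} in
theorem alt {i j : ℤ} {x : G → W} (hij : i < j) (hx : x ∈ X.Sl i j) :
    X.pr i j x (fun g => X.C.lam i (x g)) = 0 := by
  obtain ⟨t, w⟩ := wt_ex hx
  obtain ⟨r, hr⟩ : ∃ r, -j - 1 = i + r := ⟨-j - 1 - i, by ring⟩
  have le : -r ≤ j + j := by omega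
  have z0 := zpow_ne_zero r c.ne
  have sc : ∀ {u}, u ∈ X.C.T i → c.π ^ r • u ∈ X.C.T (-j - 1) := fun hu =>
    hr ▸ (X.C.per_zpow r i _).2 hu
  have t1 := w.lev.2.2
  have cs : ∀ {Z : Type} [TopologicalSpace Z] {a : Z → W}, Continuous a →
      Continuous fun z => X.ss (-r) (a z) := fun ha => (cont_bil X.be ha ha).div_const _
  refine fin_sum h hinv w (X.ss_one i ▸ ⟨x, sl_mono le_rfl (by omega) hx, rfl⟩) (X.heis (-r) x)
    ((((cont_bil X.om (w.lev.1.comp continuous_fst) (X.R.cont_ac continuous_fst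
      (w.lev.1.comp continuous_snd))).sub (cont_bil X.om (X.R.d2_cont w.lev.1)
      (w.lev.1.comp continuous_mul))).div_const _).sub (cs (X.R.d2_cont w.lev.1)))
    (fun g h l => ?_) fun v => ?_
  · have e0 := X.R.dd x g h l
    have a2 := X.ss_ac le g (t1 h l)
    have a3 := X.ss_add le (X.cp.mem g (t1 h l)) (t1 g (h * l))
    have a4 := X.ss_add le (t1 g h) (t1 (g * h) l)
    have a7 := X.pb.lam (by omega) (sc (w.lev.2.1 g)) (X.cp.mem g (t1 h l))
    rw [X.cp.lam g (t1 h l), hr, X.C.lam_zpow] at a7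
    rw [e0, add_comm] at a3
    have e1 : x (g * h) = x g + X.R.ac g (x h) - X.R.d2 x g h := by rw [Rp.d2]; abel
    have e2 : X.R.ac g (x (h * l)) =
        X.R.ac g (x h) + X.R.ac (g * h) (x l) - X.R.ac g (X.R.d2 x h l) := by
      rw [Rp.d2, map_sub, map_add, X.R.mul]; abel
    have e3 : x (g * h * l) = x (g * h) + X.R.ac (g * h) (x l) - X.R.d2 x (g * h) l := by
      rw [Rp.d2]; abel
    have e4 : X.R.d2 x g (h * l) =
        X.R.d2 x (g * h) l + X.R.d2 x g h - X.R.ac g (X.R.d2 x h l) := by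
      rw [← e0]; abel
    have key : A.χ g * (X.om (x h) (X.R.ac h (x l)) - X.om (X.R.d2 x h l) (x (h * l))) -
        (X.om (x (g * h)) (X.R.ac (g * h) (x l)) - X.om (X.R.d2 x (g * h) l) (x (g * h * l))) +
        (X.om (x g) (X.R.ac g (x (h * l))) - X.om (X.R.d2 x g (h * l)) (x (g * (h * l)))) -
        (X.om (x g) (X.R.ac g (x h)) - X.om (X.R.d2 x g h) (x (g * h))) =
        -2 * X.om (x g) (X.R.ac g (X.R.d2 x h l)) -
          X.om (X.R.ac g (X.R.d2 x h l)) (X.R.d2 x g (h * l)) +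
          X.om (X.R.d2 x g h) (X.R.d2 x (g * h) l) := by
      rw [mul_sub, ← X.equi g, ← X.equi g, ← X.R.mul, ← mul_assoc, e4, e3, e2, e1]
      simp only [X.om_eq, map_add, map_sub, LinearMap.add_apply, LinearMap.sub_apply]
      ring
    refine ((c.rd_pi (mem_O1.1 (sub_mem (add_mem a2 a3) a4))).sub a7).congr ?_
      (by rw [zero_sub, CharTwo.neg_eq]; rfl)
    simp only [heis, map_smul, smul_eq_mul, zpow_neg, div_eq_mul_inv, mul_inv, inv_inv,
      LinearMap.smul_apply]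
    linear_combination (exp := 1) (-c.π * c.π ^ r / 2) * key
  · obtain ⟨f, f1, f2⟩ := X.iso v (t v) (w.z v).1 (t v) (w.z v).1
    have hz := X.coc v (w.z v).1
    have c1 := w.cont v
    refine ⟨fun g => f g / (2 * c.π ^ (-r)) - (X.ss (-r) (x g - t v g) +
      X.om (x g - t v g) (t v g) / (2 * c.π ^ (-r))),
      (f1.div_const _).sub ((cs c1).add ((cont_bil X.om c1 hz.1).div_const _)), fun g h => ?_⟩
    have e1 : t v (g * h) = t v g + X.R.ac g (t v h) := (X.R.res _).coc hz g h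
    have e0 : X.R.d2 x g h + (x (g * h) - t v (g * h)) =
        x g - t v g + X.R.ac g (x h - t v h) := by
      rw [Rp.d2, e1, map_sub]; abel
    have a2 := X.ss_ac le g (w.loc v h)
    have a3 := X.ss_add le (w.loc v g) (X.cp.mem g (w.loc v h))
    have a4 := X.ss_add le (t1 g h) (w.loc v (g * h))
    have a5 := X.pb.lam (by omega) (sc ((w.z v).2 g)) (X.cp.mem g (w.loc v h))
    rw [X.cp.lam g (w.loc v h), hr, X.C.lam_zpow,
      ← X.C.lam_congr ((w.z v).2 g) (X.C.anti (by omega) (w.loc v g))] at a5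
    rw [Subgroup.coe_mul, e0] at a4
    have key : X.om (x g) (X.R.ac g (x h)) - X.om (X.R.d2 x g h) (x (g * h)) -
        dq (fun g : A.D v => A.χ g) f g h + (X.om (x g - t v g) (t v g) +
          A.χ g * X.om (x h - t v h) (t v h) - X.om (x (g * h) - t v (g * h)) (t v (g * h))) =
        2 * X.om (t v g) (X.R.ac g (x h - t v h)) +
          X.om (x g - t v g) (X.R.ac g (x h - t v h)) -
          X.om (X.R.d2 x g h) (x (g * h) - t v (g * h)) := by
      rw [← f2 g h, ← X.equi g, Rp.d2, e1]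
      change _ - X.om (t v g) (X.R.ac g (t v h)) + _ = _
      simp only [X.om_eq, map_add, map_sub, LinearMap.add_apply, LinearMap.sub_apply]
      ring
    refine (a5.add (c.rd_pi (mem_O1.1 (sub_mem (sub_mem a4 a2) a3)))).congr ?_ (add_zero _)
    simp only [heis, dq, map_smul, smul_eq_mul, zpow_neg, LinearMap.smul_apply,
      Subgroup.coe_mul, div_eq_mul_inv, mul_inv, inv_inv] at key ⊢
    linear_combination (exp := 1) (-c.π * c.π ^ r / 2) * key

theorem par (hS : S₂ ⊆ X.S) :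
    FiniteDimensional E X.Yg ∧ Even (finrank E X.Yg + finrank k X.Sb) := by
  have fM := X.C.dim_A.1
  have fS : FiniteDimensional k X.Sb := h.sel_fin X.cd
  obtain ⟨par, N, hN⟩ := tower Nat.one_pos (X.C.Z ⊤) X.Sl (fun i x g => X.C.lam i (x g)) X.SS X.pr
    (fun r x => c.sc r • x) (fun _ _ _ => Iff.rfl)
    (fun i x hx y hy => funext fun g => X.C.lam_add (hx.2 g) (hy.2 g))
    (fun i x hx => ⟨fun h => ⟨trivial, fun g => (X.C.lam_zero (hx.2 g)).1 (congrFun h g)⟩,
      fun h => funext fun g => X.C.lam_of (h.2 g)⟩)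
    (fun i r x hx => funext fun g => X.C.lam_sc r (hx.2 g))
    (fun i j h => X.C.Z_anti h) (fun i j x hx => ⟨trivial, hx.1.2.1⟩)
    (fun i i' j j' h h' => sl_mono h h') (fun i i' j h x hx hx' => sl_up h hx hx'.2)
    (fun i j r x hx => sl_smul hx (c.sc_le r)) X.ss_per (fun i => X.ss_one i ▸ fS)
    (fun i j _ x hx x' hx' y hy => pr_add h hx hx' (X.ss_one _ ▸ hy))
    (fun i j _ r x hx y hy => pr_smul h r hx (X.ss_one _ ▸ hy))
    (fun i j _ x hx => X.ss_one _ ▸ pr_lin h hx)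
    (fun i i' j h' _ x hx y hy => pr_nat h h' hx (X.ss_one _ ▸ hy))
    (fun i j hij x hx => by
      rw [X.ss_one, ker h hS hij hx]
      exact exists_congr fun x' => and_congr_right' ⟨fun e => ⟨trivial, e⟩, fun e => e.2⟩)
    (fun i j m hj x hx y hy => orth h hinv hj hx hy)
    (fun i j r hij _ x hx => alt h hinv hij hx)
  have hc : CompleteSpace W := FiniteDimensional.complete E W
  have le : X.Yg ≤ X.R.Z1 := inf_le_left
  have eq : ∀ i, X.SS i (N + 1) = X.C.Wd X.Yg := fun i => by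
    refine le_antisymm ?_ fun y hy => ?_
    · rintro _ ⟨x, hx, rfl⟩
      obtain ⟨y, y1, y2, y3⟩ := X.C.lim_of (fun j x => x ∈ X.Sl i j) (i + (N + 1 : ℕ)) N
        (fun _ _ h => h.1.1) (fun j hj x hx => (hN i j (by omega) x hx).imp fun _ h => ⟨h.1, h.2.2⟩)
        hx
      rw [show i + ((N + 1 : ℕ) : ℤ) - N = i + 1 by omega] at y2
      have y4 : ∀ g, y g ∈ X.C.T i := fun g => X.C.of_sub (hx.1.2.1 g) (X.C.succ _ (y2 g))
      refine (X.C.mem_W i).2 ⟨y, ⟨X.mem_Yg.2 ⟨⟨y1, fun g h => X.C.sep fun j => ?_⟩, fun v => ?_⟩,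
        y4⟩, funext fun g => (X.C.lam_congr (hx.1.2.1 g) (y2 g)).symm⟩
      · obtain ⟨j', x', h1, h2, h3⟩ := y3 j
        refine X.C.of_sub (X.C.anti h1 (h2.1.2.2 g h)) ?_
        rw [← X.R.d2_sub]
        exact (X.cp.lam_d2 h3 g h).1
      · have := A.cpt v
        have := ((X.cp.res (A.D v)).fd (h.ld v) (X.coc v)).1
        refine X.C.cls (Lt.bd_of (X.coc v)) ⟨i, fun g => y4 g⟩ fun j => ?_
        obtain ⟨j', x', h1, h2, h3⟩ := y3 j
        obtain ⟨t, t1, t2⟩ := h2.2 v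
        exact ⟨t, t1.1, fun g => by simpa using add_mem (h3 g) (X.C.anti h1 (t2 g))⟩
    · obtain ⟨t, ht, rfl⟩ := (X.C.mem_W i).1 hy
      exact ⟨t, ⟨Lt.lev_of le ht _, fun v => ⟨_, ⟨(X.mem_Yg.1 ht.1).2 v, fun g => ht.2 g⟩,
        fun g => by simp⟩⟩, rfl⟩
  have fd : FiniteDimensional E X.Yg := X.C.fd (Lt.bd_of le) X.Sb fun y hy => by
    rw [← eq 0] at hy
    obtain ⟨x, hx, rfl⟩ := hy
    exact X.ss_one 0 ▸ ⟨x, sl_mono le_rfl (by omega) hx, rfl⟩
  have := par N
  rw [Finset.sum_range_one, Finset.sum_range_one, eq, X.ss_one,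
    (X.C.dim_W (Lt.bd_of le)).2] at this
  exact ⟨fd, this⟩

end SD

end Pool.Agent.BC
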