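import Pool.Agent.Lib.MP_b4b3cb_nt.BC.Inv
import Pool.Agent.Lib.MP_b4b3cb_nt.Par.Sel

/-! The places of an open subgroup, and the global facts for permutation modules. -/

set_option linter.unusedSectionVars false

namespace Pool.Agent.BC

open scoped Classical
open Module Pool.Agent.SP

variable {k : Type} [Field k] {G G' : Type} [Group G] [TopologicalSpace G] [Group G']
  [TopologicalSpace G']

namespace PDAux

theorem sz_fun {ε : G → G → k} (h : Sz ε) {φ : G' → G} (hφ : Continuous φ)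
    (hm : ∀ a b, φ (a * b) = φ a * φ b) : Sz fun g l => ε (φ g) (φ l) := by
  obtain ⟨f, f1, f2⟩ := h
  exact ⟨_, lc_at f1 hφ, fun g l => by simp only [f2, hm]⟩

theorem invK_iso [Finite k] [Algebra (ZMod 2) k] (ε : G → G → k) {φ : G' → G} (hφ : Continuous φ)
    (hm : ∀ a b, φ (a * b) = φ a * φ b) {ψ : G → G'} (hψ : Continuous ψ)
    (hm' : ∀ a b, ψ (a * b) = ψ a * ψ b) (e : ∀ g, φ (ψ g) = g) :
    invK (fun g l => ε (φ g) (φ l)) = invK ε := by
  unfold invK i2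
  exact congrArg _ (funext fun i => if_congr ⟨fun h => by simpa only [e] using sz_fun h hψ hm',
    fun h => sz_fun h hφ hm⟩ rfl rfl)

theorem sz_triv (ε : G → G → k) (h : ∀ g : G, g = 1) : Sz ε :=
  ⟨fun _ => ε 1 1, IsLocallyConstant.const _, fun g l => by rw [h g, h l, add_sub_cancel_right]⟩

theorem ex_reps (Γ : Type) [Group Γ] {X : Type} [Finite X] [MulAction Γ X] (T₀ : Finset X)
    (h : ∀ t ∈ T₀, ∀ t' ∈ T₀, ∀ g : Γ, g • t = t' → t = t') : ∃ T : Finset X, T₀ ⊆ T ∧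
      (∀ x, ∃ t ∈ T, ∃ g : Γ, g • t = x) ∧ ∀ t ∈ T, ∀ t' ∈ T, ∀ g : Γ, g • t = t' → t = t' := by
  have := Fintype.ofFinite X
  obtain ⟨T, a, b⟩ := Finite.exists_le_maximal
    (p := fun T : Finset X => ∀ t ∈ T, ∀ t' ∈ T, ∀ g : Γ, g • t = t' → t = t') h
  refine ⟨T, a, fun x => by_contra fun hx => hx ⟨x, ?_, 1, one_smul _ _⟩, b.1⟩
  refine b.2 (y := insert x T) (fun t ht t' ht' g e => ?_) (Finset.subset_insert _ _)
    (Finset.mem_insert_self _ _)
  rcases Finset.mem_insert.1 ht with rfl | h1 <;> rcases Finset.mem_insert.1 ht' with rfl | h2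
  · rfl
  · exact (hx ⟨t', h2, g⁻¹, by rw [← e, inv_smul_smul]⟩).elim
  · exact (hx ⟨t, h1, g, e⟩).elim
  · exact b.1 t h1 t' h2 g e

variable {X : Type} [MulAction G X] {h : IsLocallyConstant (MulAction.toPermHom G X)}

theorem cj1 {y : G → X → k} (hy : y ∈ (perm k X h).Z1) (c : G) {g : G} {x : X} (hg : g • x = x) :
    y (c * g * c⁻¹) (c • x) = y g x := by
  have a := congrFun (FR.coc hy (c * g * c⁻¹) c) (c • x)
  have b := congrFun (FR.coc hy c g) (c • x)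
  rw [inv_mul_cancel_right, b, Pi.add_apply, Pi.add_apply, perm_ac, perm_ac, inv_smul_smul,
    show (c * g * c⁻¹)⁻¹ • c • x = c • x by
      rw [inv_smul_eq_iff, mul_smul, inv_smul_smul, mul_smul, hg], add_comm, add_left_inj] at a
  exact a.symm

theorem cj2 [ContinuousMul G] {ξ : G → G → X → k} (hξ : (perm k X h).Z2 ξ) (c : G) {x : X}
    {φ : G' → G} (hφ : Continuous φ) (hm : ∀ a b, φ (a * b) = φ a * φ b) (hx : ∀ g, φ g • x = x)
    (hs : Sz fun g l => ξ (c * φ g * c⁻¹) (c * φ l * c⁻¹) (c • x)) :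
    Sz fun g l => ξ (φ g) (φ l) x := by
  obtain ⟨f, f1, f2⟩ := hs
  refine ⟨fun g => f g + (ξ c (φ g) (c • x) - ξ (c * φ g * c⁻¹) c (c • x)), f1.add
    (lc_two (fun a b : X → k => a (c • x) - b (c • x)) (hξ.1.at continuous_const hφ)
      (hξ.1.at (by fun_prop) continuous_const)), fun g l => ?_⟩
  have e : (c * φ g * c⁻¹)⁻¹ • c • x = c • x := by
    rw [inv_smul_eq_iff, mul_smul, inv_smul_smul, mul_smul, hx]
  have a1 := congrFun (hξ.2 c (φ g) (φ l)) (c • x)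
  have a2 := congrFun (hξ.2 (c * φ g * c⁻¹) c (φ l)) (c • x)
  have a3 := congrFun (hξ.2 (c * φ g * c⁻¹) (c * φ l * c⁻¹) c) (c • x)
  have a4 := f2 g l
  simp only [Pi.add_apply, perm_ac, e, inv_smul_smul, inv_mul_cancel_right] at a1 a2 a3
  rw [show c * φ g * c⁻¹ * (c * φ l * c⁻¹) = c * (φ g * φ l) * c⁻¹ by group] at a3
  simp only [hm]
  linear_combination a1 - a2 + a3 + a4

theorem sh1 {y : G → X → k} (hy : y ∈ (perm k X h).Z1) (h0 : ∀ x g, g • x = x → y g x = 0) :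
    y ∈ (perm k X h).B1 := by
  let s : X → X := fun x => (Quotient.mk (MulAction.orbitRel G X) x).out
  have e : ∀ x, ∃ g : G, g • s x = x := fun x =>
    (MulAction.orbitRel G X).symm (Quotient.exact (Quotient.out_eq _))
  choose t ht using e
  refine ⟨fun x => -y (t x) x, funext₂ fun g x => ?_⟩
  have e1 : s (g⁻¹ • x) = s x := congrArg Quotient.out (Quotient.sound ⟨g⁻¹, rfl⟩)
  have a := congrFun (FR.coc hy g (t (g⁻¹ • x))) x
  have b := congrFun (FR.coc hy (t x) ((t x)⁻¹ * g * t (g⁻¹ • x))) x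
  rw [Pi.add_apply, perm_ac, h0 ((t x)⁻¹ • x) _ (by
    rw [inv_smul_eq_iff.2 (ht x).symm, mul_smul, mul_smul, ← e1, ht, smul_inv_smul, e1,
      inv_smul_eq_iff, ht]), ← mul_assoc, ← mul_assoc, mul_inv_cancel, one_mul, a,
    Pi.add_apply, perm_ac] at b
  rw [FR.d1_apply, Pi.sub_apply, perm_ac]
  linear_combination -b

end PDAux

open PDAux

variable {P P' : Type}

/-- A dictionary between the places of `G` and the places of the open subgroup `H`. -/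
structure PD (D I : P → Subgroup G) (D' I' : P' → Subgroup G') (H : Subgroup G) where
  /-- the embedding -/
  ι : G' →* G
  /-- its inverse -/
  u : G → G'
  cι : Continuous ι
  cu : ContinuousOn u H
  inj : Function.Injective ι
  mem : ∀ g, ι g ∈ H
  ιu : ∀ g ∈ H, ι (u g) = g
  /-- the place below -/
  bl : P' → P
  /-- the conjugating element -/
  c : P' → G
  le : ∀ v, I v ≤ D v
  nor : ∀ v, ∀ d ∈ D v, ∀ i ∈ I v, d⁻¹ * i * d ∈ I v
  memD : ∀ w g, g ∈ D' w ↔ c w * ι g * (c w)⁻¹ ∈ D (bl w)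
  memI : ∀ w g, g ∈ I' w ↔ c w * ι g * (c w)⁻¹ ∈ I (bl w)
  uniq : ∀ w w', bl w = bl w' → ∀ d ∈ D (bl w), (d * c w)⁻¹ * c w' ∈ H → w = w'
  all : ∀ v a, (∃ w, bl w = v ∧ ∃ d ∈ D v, (d * c w)⁻¹ * a ∈ H) ∨
    ∀ d ∈ D v, a⁻¹ * d * a ∈ H → d = 1

variable (k G) in
/-- The invariant of the corestriction. -/
def Cor [Finite k] [Algebra (ZMod 2) k] : Prop :=
  ∀ (X : Type) [Fintype X] [MulAction G X] (h : IsLocallyConstant (MulAction.toPermHom G X))
    (T : Finset X), (∀ x, ∃ t ∈ T, ∃ g : G, g • t = x) →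
    (∀ t ∈ T, ∀ t' ∈ T, ∀ g : G, g • t = t' → t = t') → ∀ ξ, (perm k X h).Z2 ξ →
    invK (fun g l => ∑ x, ξ g l x) = ∑ t ∈ T, invK fun g l : MulAction.stabilizer G t => ξ g l t

namespace PD

variable {D I : P → Subgroup G} {D' I' : P' → Subgroup G'} {H : Subgroup G} (d : PD D I D' I' H)
  {h : IsLocallyConstant (MulAction.toPermHom G (G ⧸ H))} [IsTopologicalGroup G]

theorem fix {g a : G} : g • (a : G ⧸ H) = a ↔ a⁻¹ * g * a ∈ H := by
  rw [eq_comm, MulAction.Quotient.smul_coe, QuotientGroup.eq, smul_eq_mul, mul_assoc]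

theorem fix0 (g : G') : d.ι g • ((1 : G) : G ⧸ H) = (1 : G) :=
  fix.2 (by simpa using d.mem g)

theorem sm (a : G) : a • ((1 : G) : G ⧸ H) = a := by
  rw [MulAction.Quotient.smul_coe, smul_eq_mul, mul_one]

theorem um {a b : G} (ha : a ∈ H) (hb : b ∈ H) : d.u (a * b) = d.u a * d.u b :=
  d.inj (by rw [map_mul, d.ιu _ ha, d.ιu _ hb, d.ιu _ (mul_mem ha hb)])

/-- The transfer cocycle. -/
noncomputable def tr (g : G) (x : G ⧸ H) : G := x.out⁻¹ * g * (g⁻¹ • x).out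

omit [IsTopologicalGroup G] in
theorem tr_mem (g : G) (x : G ⧸ H) : tr g x ∈ H := by
  rw [tr, mul_assoc, ← QuotientGroup.eq, ← smul_eq_mul, ← MulAction.Quotient.smul_coe,
    QuotientGroup.out_eq', QuotientGroup.out_eq', smul_inv_smul]

omit [IsTopologicalGroup G] in
theorem tr_mul (g l : G) (x : G ⧸ H) : tr (g * l) x = tr g x * tr l (g⁻¹ • x) := by
  simp only [tr, mul_inv_rev, mul_smul, mul_assoc, mul_inv_cancel_left]

include h in
theorem out_cont (x : G ⧸ H) : Continuous fun g : G => (g⁻¹ • x).out :=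
  (lc_one (fun s : Equiv.Perm (G ⧸ H) => (s.symm x).out) h).continuous

include h in
theorem tr_cont (x : G ⧸ H) : Continuous fun g => tr g x :=
  (continuous_const.mul continuous_id).mul (out_cont (h := h) x)

include h in
theorem utr_cont (x : G ⧸ H) : Continuous fun g => d.u (tr g x) :=
  d.cu.comp_continuous (tr_cont (h := h) x) fun g => tr_mem g x

theorem dn {y : G → G ⧸ H → k} (hy : y ∈ (perm k _ h).Z1) :
    (fun g => y (d.ι g) (1 : G)) ∈ Hm k G' :=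
  ⟨lc_one (fun a : G ⧸ H → k => a (1 : G)) (lc_at hy.1 d.cι), fun g l => by
    beta_reduce
    rw [map_mul, FR.coc hy, Pi.add_apply, perm_ac, ← map_inv, d.fix0]⟩

theorem ev {y : G → G ⧸ H → k} (hy : y ∈ (perm k _ h).Z1) (a : G) (g : G') :
    y (a * d.ι g * a⁻¹) a = y (d.ι g) (1 : G) := by
  rw [← cj1 hy a (d.fix0 g), sm]

theorem ev' {y : G → G ⧸ H → k} (hy : y ∈ (perm k _ h).Z1) {a g : G} (hg : a⁻¹ * g * a ∈ H) :
    y g a = y (d.ι (d.u (a⁻¹ * g * a))) (1 : G) := by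
  rw [← d.ev hy a, d.ιu _ hg]
  congr 1
  group

theorem fibre [Finite (G ⧸ H)] (S : Finset P) : ∃ S' : Finset P', ∀ w, w ∈ S' ↔ d.bl w ∈ S := by
  have : {w | d.bl w ∈ S}.Finite := Set.Finite.of_finite_image
    (f := fun w => (d.bl w, (d.c w : G ⧸ H)))
    ((S.finite_toSet.prod Set.finite_univ).subset (by
      rintro _ ⟨w, hw, rfl⟩
      exact ⟨hw, trivial⟩)) fun w _ w' _ e => d.uniq w w' (congrArg Prod.fst e) 1 (one_mem _) (by
        rw [one_mul, ← QuotientGroup.eq]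
        exact congrArg Prod.snd e)
  exact ⟨this.toFinset, fun w => this.mem_toFinset⟩

theorem dn_un {S : Finset P} {S' : Finset P'} (hS : ∀ w, w ∈ S' ↔ d.bl w ∈ S)
    {y : G → G ⧸ H → k} (hy : y ∈ (perm k _ h).UnS I S) :
    (fun g => y (d.ι g) (1 : G)) ∈ Un k I' S' :=
  ⟨d.dn hy.1, fun w hw g hg => by
    beta_reduce
    rw [← d.ev hy.1 (d.c w), hy.2 _ ((hS w).not.1 hw) _ ((d.memI w g).1 hg), Pi.zero_apply]⟩

variable [Finite (G ⧸ H)]

theorem up {a : G' → k} (ha : a ∈ Hm k G') :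
    ∃ y ∈ (perm k _ h).Z1, ∀ g, y (d.ι g) (1 : G) = a g := by
  refine ⟨fun g x => a (d.u (tr g x)), FR.mk_z1 _ (lc_pi fun x => lc_at ha.1 (d.utr_cont (h := h) x))
    fun g l => funext fun x => ?_, fun g => ?_⟩
  · rw [Pi.add_apply, perm_ac, tr_mul, d.um (tr_mem _ _) (tr_mem _ _), ha.2]
  · have m : ((1 : G) : G ⧸ H).out ∈ H := by
      simpa using QuotientGroup.eq.1 (QuotientGroup.out_eq' ((1 : G) : G ⧸ H)).symm
    have e : d.u ((1 : G) : G ⧸ H).out * d.u (tr (d.ι g) (1 : G)) = g * d.u ((1 : G) : G ⧸ H).out :=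
      d.inj (by
        rw [map_mul, map_mul, d.ιu _ m, d.ιu _ (tr_mem _ _), tr, ← map_inv, d.fix0]
        group)
    have := congrArg a e
    rwa [ha.2, ha.2, add_comm, add_left_inj] at this

theorem up_un {S : Finset P} {S' : Finset P'} (hS : ∀ w, w ∈ S' ↔ d.bl w ∈ S)
    (hI : ∀ v ∉ S, ∀ i ∈ I v, MulAction.toPermHom G (G ⧸ H) i = 1) {a : G' → k}
    (ha : a ∈ Un k I' S') : ∃ y ∈ (perm k _ h).UnS I S, ∀ g, y (d.ι g) (1 : G) = a g := by
  obtain ⟨y, hy, e⟩ := d.up (h := h) ha.1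
  refine ⟨y, ⟨hy, fun v hv i hi => funext fun x => ?_⟩, e⟩
  obtain ⟨x, rfl⟩ := QuotientGroup.mk_surjective x
  have f : ∀ x : G, x⁻¹ * i * x ∈ H := fun x => fix.1 (DFunLike.congr_fun (hI v hv i hi) (x : G ⧸ H))
  rcases d.all v x with ⟨w, rfl, t, ht, e'⟩ | e'
  · rw [← QuotientGroup.eq.2 e', d.ev' hy (f _), e]
    refine ha.2 w ((hS w).not.2 hv) _ ((d.memI w _).2 ?_)
    rw [d.ιu _ (f _)]
    convert d.nor _ t ht i hi using 1
    group
  · rw [e' i (d.le v hi) (f x), FR.z1_one hy]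

theorem up2 {ξ : G → G → G ⧸ H → k} (hξ : (perm k _ h).Z2 ξ)
    (hs : Sz fun g l => ξ (d.ι g) (d.ι l) (1 : G)) : (perm k _ h).B2 ξ := by
  obtain ⟨f, f1, f2⟩ := hs
  refine ⟨fun g x => f (d.u (tr g x)) + (ξ g (g⁻¹ • x).out x - ξ x.out (tr g x) x),
    lc_pi fun x => (lc_at f1 (d.utr_cont (h := h) x)).add (lc_two (fun a b : G ⧸ H → k => a x - b x)
      (hξ.1.at continuous_id (out_cont (h := h) x))
      (hξ.1.at continuous_const (tr_cont (h := h) x))), fun g l => funext fun x => ?_⟩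
  have a1 := congrFun (hξ.2 g l (l⁻¹ • g⁻¹ • x).out) x
  have a2 := congrFun (hξ.2 g (g⁻¹ • x).out (tr l (g⁻¹ • x))) x
  have a3 := congrFun (hξ.2 x.out (tr g x) (tr l (g⁻¹ • x))) x
  have a4 := f2 (d.u (tr g x)) (d.u (tr l (g⁻¹ • x)))
  have e1 : (g⁻¹ • x).out * tr l (g⁻¹ • x) = l * (l⁻¹ • g⁻¹ • x).out := by
    simp only [tr, mul_assoc, mul_inv_cancel_left]
  have e2 : x.out * tr g x = g * (g⁻¹ • x).out := by simp only [tr, mul_assoc, mul_inv_cancel_left]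
  have e3 : x.out⁻¹ • x = (1 : G) := by rw [inv_smul_eq_iff, sm, QuotientGroup.out_eq']
  beta_reduce at a4
  rw [d.ιu _ (tr_mem _ _), d.ιu _ (tr_mem _ _), ← d.um (tr_mem _ _) (tr_mem _ _)] at a4
  simp only [Pi.add_apply, perm_ac, e1, e2, e3] at a1 a2 a3
  simp only [FR.d2, Pi.add_apply, Pi.sub_apply, perm_ac, tr_mul, mul_inv_rev, mul_smul]
  linear_combination -a1 + a2 - a3 + a4

include d in
theorem abhn (h' : ∀ ε : G' → G' → k, Cz ε → (∀ w, Sz fun g l : D' w => ε g l) → Sz ε)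
    {ξ : G → G → G ⧸ H → k} (hξ : (perm k _ h).Z2 ξ)
    (h0 : ∀ v, ((perm k _ h).res (D v)).B2 fun g l => ξ g l) : (perm k _ h).B2 ξ := by
  refine d.up2 hξ (h' _ ⟨lc_one (fun a : G ⧸ H → k => a (1 : G))
    (hξ.1.at (d.cι.comp continuous_fst) (d.cι.comp continuous_snd)), fun a b c => ?_⟩ fun w => ?_)
  · have := congrFun (hξ.2 (d.ι a) (d.ι b) (d.ι c)) (1 : G)
    rw [Pi.add_apply, Pi.add_apply, perm_ac, ← map_inv, d.fix0] at this
    simpa only [map_mul] using this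
  · obtain ⟨φ, p1, p2⟩ := h0 (d.bl w)
    have ct : Continuous fun g : D' w => d.ι g := d.cι.comp continuous_subtype_val
    refine cj2 hξ (d.c w) ct (fun a b => map_mul _ _ _) (fun g => d.fix0 g)
      ⟨fun g => φ ⟨_, (d.memD w g).1 g.2⟩ (d.c w • ((1 : G) : G ⧸ H)),
        lc_one (fun a : G ⧸ H → k => a _) (lc_at p1 (Continuous.subtype_mk (by fun_prop) _)),
        fun g l => ?_⟩
    refine (congrFun (p2 ⟨_, (d.memD w g).1 g.2⟩ ⟨_, (d.memD w l).1 l.2⟩) _).trans ?_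
    rw [FR.d2, Pi.sub_apply, Pi.add_apply, FR.res_ac, perm_ac]
    congr 3
    · rw [inv_smul_eq_iff, mul_smul, inv_smul_smul, mul_smul, d.fix0]
    · exact Subtype.ext (by simp)

theorem b1 {y : G → G ⧸ H → k} (hy : y ∈ (perm k _ h).Z1) (h0 : ∀ g, y (d.ι g) (1 : G) = 0) :
    y ∈ (perm k _ h).B1 := sh1 hy fun x g hg => by
  obtain ⟨x, rfl⟩ := QuotientGroup.mk_surjective x
  rw [d.ev' hy (fix.1 hg), h0]

include d in
theorem fin (h' : ∀ S' : Finset P', FiniteDimensional k (Un k I' S')) (S : Finset P) :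
    FiniteDimensional k ((perm k _ h).UnS I S) := by
  obtain ⟨S', hS⟩ := d.fibre S
  have := h' S'
  let f : (G → G ⧸ H → k) →ₗ[k] G' → k :=
    ⟨⟨fun y g => y (d.ι g) (1 : G), fun _ _ => rfl⟩, fun _ _ => rfl⟩
  refine (Module.Finite.iff_fg).2 (Submodule.fg_of_fg_map_of_fg_inf_ker f
    ((Module.Finite.iff_fg).1 (Submodule.finiteDimensional_of_le (S₂ := Un k I' S') ?_))
    ((Module.Finite.iff_fg).1 (Submodule.finiteDimensional_of_le (S₂ := (perm k _ h).B1) ?_)))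
  · rintro _ ⟨y, hy, rfl⟩
    exact d.dn_un hS hy
  · exact fun y hy => d.b1 hy.1.1 (congrFun hy.2)

/-- The local characters attached to local cocycles. -/
def lo (b : ∀ v, D v → G ⧸ H → k) (w : P') (g : D' w) : k :=
  b (d.bl w) ⟨_, (d.memD w g).1 g.2⟩ (d.c w)

omit [Finite (G ⧸ H)] in
theorem fixc (w : P') (g : G') : (d.c w * d.ι g * (d.c w)⁻¹) • (d.c w : G ⧸ H) = d.c w :=
  fix.2 (by simpa [mul_assoc] using d.mem g)

omit [Finite (G ⧸ H)] in
theorem memD' (w : P') (g : D (d.bl w)) (hg : (d.c w)⁻¹ * g * d.c w ∈ H) :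
    d.u ((d.c w)⁻¹ * g * d.c w) ∈ D' w := (d.memD w _).2 (by
  rw [d.ιu _ hg]
  convert g.2 using 1
  group)

omit [Finite (G ⧸ H)] in
theorem lo_hm {b : ∀ v, D v → G ⧸ H → k} {w : P'}
    (hb : b (d.bl w) ∈ ((perm k _ h).res (D (d.bl w))).Z1) : d.lo b w ∈ Hm k (D' w) := by
  have ct : Continuous fun g : D' w => d.ι g := d.cι.comp continuous_subtype_val
  refine ⟨lc_one (fun a : G ⧸ H → k => a _) (lc_at hb.1 (Continuous.subtype_mk (by fun_prop) _)),
    fun g l => ?_⟩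
  have := congrFun (FR.coc hb ⟨_, (d.memD w g).1 g.2⟩ ⟨_, (d.memD w l).1 l.2⟩) (d.c w)
  rw [Pi.add_apply, FR.res_ac, perm_ac, inv_smul_eq_iff.2 (d.fixc w g).symm] at this
  refine Eq.trans ?_ this
  unfold lo
  congr 1
  exact Subtype.ext (by simp)

variable [Finite k] [CharP k 2] [Algebra (ZMod 2) k]

omit [Finite (G ⧸ H)] in
theorem loc [Fintype (G ⧸ H)] {v : P} (hc : Cor k (D v)) {y : G → G ⧸ H → k}
    (hy : y ∈ (perm k _ h).Z1) {b : ∀ v, D v → G ⧸ H → k} (hb : b v ∈ ((perm k _ h).res (D v)).Z1)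
    {W : Finset P'} (hW : ∀ w, w ∈ W ↔ d.bl w = v) :
    invK (c11 (dotProductBilin k k) ((perm k _ h).res (D v)) (fun g => y g) (b v)) =
      ∑ w ∈ W, invK (cup (fun g : D' w => y (d.ι g) (1 : G)) (d.lo b w)) := by
  have un : ∀ w ∈ W, ∀ w' ∈ W, ∀ g : D v, g • (d.c w : G ⧸ H) = d.c w' → w = w' :=
    fun w hw w' hw' g e => d.uniq w w' (((hW w).1 hw).trans ((hW w').1 hw').symm) g
      (((hW w).1 hw).symm ▸ g.2) (QuotientGroup.eq.1 e)
  obtain ⟨T, t0, t1, t2⟩ := ex_reps (D v) (W.image fun w => (d.c w : G ⧸ H)) (by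
    simp only [Finset.mem_image]
    rintro _ ⟨w, hw, rfl⟩ _ ⟨w', hw', rfl⟩ g e
    rw [un w hw w' hw' g e])
  have hy' := FR.res_z1 hy (D v)
  refine (hc (G ⧸ H) (lc_at h continuous_subtype_val) T t1 t2
    (fun g l x => y g x * b v l (g⁻¹ • x)) ⟨lc_pi fun x => lc_two (· * ·)
      (lc_one (fun a : G ⧸ H → k => a x) (lc_at hy'.1 continuous_fst))
      (lc_one (fun a : G ⧸ H → k => a x) (((perm k _ h).res (D v)).lc_ac continuous_fst
        (lc_at hb.1 continuous_snd))), fun g l m => funext fun x => ?_⟩).trans ?_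
  · have a1 : y (g * l) x = y g x + y l (g⁻¹ • x) := congrFun (FR.coc hy g l) x
    have a2 : b v (l * m) (g⁻¹ • x) = b v l (g⁻¹ • x) + b v m (l⁻¹ • g⁻¹ • x) :=
      congrFun (FR.coc hb l m) (g⁻¹ • x)
    change y l (g⁻¹ • x) * b v m (l⁻¹ • g⁻¹ • x) + y g x * b v (l * m) (g⁻¹ • x) =
      y (g * l) x * b v m ((g * l)⁻¹ • x) + y g x * b v l (g⁻¹ • x)
    rw [a1, a2, mul_inv_rev, mul_smul]
    ring
  have tv : ∀ t ∈ T, t ∉ W.image (fun w => (d.c w : G ⧸ H)) →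
      ∀ g : MulAction.stabilizer (D v) t, g = 1 := fun t ht ht' g => by
    obtain ⟨a, rfl⟩ := QuotientGroup.mk_surjective t
    rcases d.all v a with ⟨w, hw, s, hs, e⟩ | e
    · have i : (d.c w : G ⧸ H) ∈ W.image fun w => (d.c w : G ⧸ H) :=
        Finset.mem_image_of_mem _ ((hW w).2 hw)
      exact (ht' (t2 _ (t0 i) _ ht ⟨s, hs⟩ (QuotientGroup.eq.2 e) ▸ i)).elim
    · exact Subtype.ext (Subtype.ext (e _ g.1.2 (fix.1 g.2)))
  rw [← Finset.sum_subset t0 fun t ht ht' => invK_sz (sz_triv _ (tv t ht ht')),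
    Finset.sum_image fun w hw w' hw' e => un w hw w' hw' 1 ((one_smul _ _).trans e)]
  refine Finset.sum_congr rfl fun w hw => ?_
  obtain rfl := (hW w).1 hw
  have ct : Continuous fun g : D' w => d.ι g := d.cι.comp continuous_subtype_val
  have m : ∀ g : MulAction.stabilizer (D (d.bl w)) (d.c w : G ⧸ H),
      (d.c w)⁻¹ * g * d.c w ∈ H := fun g => fix.1 g.2
  let φ : D' w → MulAction.stabilizer (D (d.bl w)) (d.c w : G ⧸ H) :=
    fun g => ⟨⟨_, (d.memD w g).1 g.2⟩, d.fixc w g⟩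
  let ψ : MulAction.stabilizer (D (d.bl w)) (d.c w : G ⧸ H) → D' w :=
    fun g => ⟨_, d.memD' w g (m g)⟩
  rw [← invK_iso _ (φ := φ) ((Continuous.subtype_mk (by fun_prop) _).subtype_mk _)
    (fun a b => Subtype.ext (Subtype.ext (by simp [φ]))) (ψ := ψ)
    ((d.cu.comp_continuous (by fun_prop) m).subtype_mk _)
    (fun a b => Subtype.ext (by
      refine Eq.trans (congrArg d.u ?_) (d.um (m a) (m b))
      simp [mul_assoc])) fun g => Subtype.ext (Subtype.ext (by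
        change _ * d.ι (d.u _) * _ = _
        rw [d.ιu _ (m g)]
        group))]
  refine congrArg _ (funext₂ fun g l => ?_)
  rw [cup, ← d.ev hy (d.c w), lo]
  exact congrArg (fun x => _ * b _ _ x) (inv_smul_eq_iff.2 (d.fixc w g).symm)

include d in
omit [Finite (G ⧸ H)] in
theorem lag [Fintype (G ⧸ H)] (hc : ∀ v, Cor k (D v))
    (hI : ∀ U ∈ nhds (1 : G), {v | ¬ (I v : Set G) ⊆ U}.Finite) {S₁ : Finset P'}
    (h' : ∀ S', S₁ ⊆ S' → ∀ b : ∀ w, D' w → k, (∀ w ∈ S', b w ∈ Hm k (D' w)) →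
      (∀ y ∈ Un k I' S', ∑ w ∈ S', invK (cup (fun g : D' w => y g) (b w)) = 0) →
      ∃ z ∈ Un k I' S', ∀ w ∈ S', (fun g : D' w => z g) = b w) (S₀ : Finset P) :
    ∃ S : Finset P, S₀ ⊆ S ∧ ∀ b : ∀ v, D v → G ⧸ H → k,
      (∀ v ∈ S, b v ∈ ((perm k _ h).res (D v)).Z1) →
      (∀ y ∈ (perm k _ h).UnS I S, ∑ v ∈ S, invK (c11 (dotProductBilin k k)
        ((perm k _ h).res (D v)) (fun g => y g) (b v)) = 0) →
      ∃ z ∈ (perm k _ h).UnS I S, ∀ v ∈ S,
        ((fun g : D v => z g) - b v) ∈ ((perm k _ h).res (D v)).B1 := by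
  have f := hI _ ((h.isOpen_fiber 1).mem_nhds (map_one _))
  obtain ⟨S', hS⟩ := d.fibre (S₀ ∪ f.toFinset ∪ S₁.image d.bl)
  refine ⟨S₀ ∪ f.toFinset ∪ S₁.image d.bl, Finset.subset_union_left.trans Finset.subset_union_left,
    fun b hb ho => ?_⟩
  have s1 : S₁ ⊆ S' := fun w hw => (hS w).2 (Finset.mem_union_right _ (Finset.mem_image_of_mem _ hw))
  have s2 : ∀ v ∉ S₀ ∪ f.toFinset ∪ S₁.image d.bl, ∀ i ∈ I v, MulAction.toPermHom G (G ⧸ H) i = 1 :=
    fun v hv i hi => by_contra fun a => hv (Finset.mem_union_left _ (Finset.mem_union_right _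
      (f.mem_toFinset.2 fun b => a (b hi))))
  generalize S₀ ∪ f.toFinset ∪ S₁.image d.bl = S at *
  obtain ⟨a, a1, a2⟩ := h' S' s1 (d.lo b) (fun w hw => d.lo_hm (hb _ ((hS w).1 hw))) fun a ha => by
    obtain ⟨y, y1, y2⟩ := d.up_un (h := h) hS s2 ha
    rw [← ho y y1, ← Finset.sum_fiberwise_of_maps_to fun w hw => (hS w).1 hw]
    refine Finset.sum_congr rfl fun v hv => ?_
    rw [d.loc (hc v) y1.1 (hb v hv) (W := S'.filter fun w => d.bl w = v) fun w => by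
      rw [Finset.mem_filter, hS]
      exact ⟨fun a => a.2, fun a => ⟨a ▸ hv, a⟩⟩]
    simp only [y2]
  obtain ⟨z, z1, z2⟩ := d.up_un (h := h) hS s2 a1
  refine ⟨z, z1, fun v hv => ?_⟩
  have m := sub_mem (FR.res_z1 z1.1 (D v)) (hb v hv)
  have hv' : IsLocallyConstant (MulAction.toPermHom (D v) (G ⧸ H)) := lc_at h continuous_subtype_val
  refine sh1 (h := hv') m fun x g hg => ?_
  obtain ⟨x, rfl⟩ := QuotientGroup.mk_surjective x
  rcases d.all v x with ⟨w, rfl, s, hs, e⟩ | e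
  · have e' : (⟨s, hs⟩ : D (d.bl w))⁻¹ • (x : G ⧸ H) = d.c w :=
      inv_smul_eq_iff.2 (QuotientGroup.eq.2 e).symm
    have hg' : ((⟨s, hs⟩ : D (d.bl w))⁻¹ * g * (⟨s, hs⟩ : D (d.bl w))⁻¹⁻¹) • (d.c w : G ⧸ H) =
        d.c w := by rw [← e', mul_smul, inv_smul_smul, mul_smul, hg]
    rw [← cj1 (h := hv') m (⟨s, hs⟩ : D (d.bl w))⁻¹ hg, e']
    generalize (⟨s, hs⟩ : D (d.bl w))⁻¹ * g * (⟨s, hs⟩ : D (d.bl w))⁻¹⁻¹ = g at hg'
    have m' : (d.c w)⁻¹ * g * d.c w ∈ H := fix.1 hg'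
    have := congrFun (a2 w ((hS w).2 hv)) ⟨_, d.memD' w g m'⟩
    rw [Pi.sub_apply, Pi.sub_apply, sub_eq_zero, d.ev' z1.1 m', z2]
    refine this.trans ?_
    unfold lo
    congr 1
    refine Subtype.ext ?_
    change _ * d.ι (d.u _) * _ = _
    rw [d.ιu _ m']
    group
  · rw [show g = 1 from Subtype.ext (e _ g.2 (fix.1 hg)), FR.z1_one m, Pi.zero_apply]

include d in
omit [Finite (G ⧸ H)] in
theorem base [Fintype (G ⧸ H)] (hc : ∀ v, Cor k (D v))
    (hI : ∀ U ∈ nhds (1 : G), {v | ¬ (I v : Set G) ⊆ U}.Finite)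
    (h1 : ∀ ε : G' → G' → k, Cz ε → (∀ w, Sz fun g l : D' w => ε g l) → Sz ε)
    (h2 : ∀ S' : Finset P', FiniteDimensional k (Un k I' S')) {S₁ : Finset P'}
    (h3 : ∀ S', S₁ ⊆ S' → ∀ b : ∀ w, D' w → k, (∀ w ∈ S', b w ∈ Hm k (D' w)) →
      (∀ y ∈ Un k I' S', ∑ w ∈ S', invK (cup (fun g : D' w => y g) (b w)) = 0) →
      ∃ z ∈ Un k I' S', ∀ w ∈ S', (fun g : D' w => z g) = b w) :
    Base D I (perm k (G ⧸ H) h) (dotProductBilin k k) :=
  ⟨fun _ => d.abhn h1, d.fin h2, d.lag hc hI h3⟩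

end PD

end Pool.Agent.BC
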