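import Pool.Agent.Lib.MP_b4b3cb_nt.BC.AriG0
import Pool.Agent.Lib.MP_b4b3cb_nt.BC.PD

/-! The global facts for the permutation modules of a number field. -/

set_option linter.unusedSectionVars false

namespace Pool.Agent.BC

open scoped Classical Topology Pointwise
open Module Pool.Agent.SP

open NumberField Pool.Agent.Stark
open SC hiding Hm Rp V T Two Cob Sel Spl cup dq Cz Sz res

variable {K Ω : Type} [Field K] [NumberField K] [Field Ω] [Algebra K Ω] [IsAlgClosed Ω]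
  [IsGalois K Ω] [CharZero Ω] (π : Plc K Ω)
  {k : Type} [Field k] [Finite k] [CharP k 2] [Algebra (ZMod 2) k]

theorem lagM : ∃ S₁ : Finset (Pl K), ∀ S, S₁ ⊆ S →
    ∀ b : Pl K → Gal(Ω/K) → ZMod 2, (∀ v ∈ S, Hom (π.D v) (b v)) →
    (∀ y, Hom ⊤ y → (∀ v ∉ S, ∀ g ∈ π.I v, y g = 0) → ∑ v ∈ S, symz (π.D v) y (b v) = 0) →
    ∃ z, Hom ⊤ z ∧ (∀ v ∉ S, ∀ g ∈ π.I v, z g = 0) ∧ ∀ v ∈ S, ∀ g ∈ π.D v, z g = b v g := by
  have hD := (facts K Ω).dict
  obtain ⟨S₀, hS, hc⟩ := exists_clTriv (og_finite (2 : K)).toFinset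
  refine ⟨S₀.disjSum Finset.univ, fun S hS' => ?_⟩
  have s1 : S₀ ⊆ S.toLeft := fun q hq => Finset.mem_toLeft.2 (hS' (Finset.inl_mem_disjSum.2 hq))
  obtain ⟨S', rfl⟩ : ∃ S' : Finset (Pr K), S = S'.disjSum Finset.univ := ⟨S.toLeft, by
    ext (q | φ)
    · simp
    · simpa using hS' (Finset.inr_mem_disjSum.2 (Finset.mem_univ φ))⟩
  rw [Finset.toLeft_disjSum] at s1
  have hcl := hc.mono s1
  have h2 : ∀ q ∉ S', og q (2 : K) = 0 := fun q hq => by_contra fun h =>
    hq (s1 (hS ((Set.Finite.mem_toFinset _).2 h)))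
  intro b hb h
  have key : ∀ v : Pl K, ∃ a : K, a ≠ 0 ∧ (v ∈ S'.disjSum Finset.univ →
      ∀ g ∈ π.D v, b v g = kr (rt Ω a) g) := fun v => by
    by_cases hv : v ∈ S'.disjSum Finset.univ
    · obtain ⟨a, ha, ha'⟩ := hD.kum π v _ (hb v hv)
      exact ⟨a, ha, fun _ => ha'⟩
    · exact ⟨1, one_ne_zero, fun h => (hv h).elim⟩
  choose x hx hx' using key
  have hun : ∀ u ∈ SU S', ∀ v ∉ S'.disjSum Finset.univ, ∀ g ∈ π.I v,
      kr (K := K) (rt Ω (u : K)) g = 0 := by
    rintro u hu (q | φ) hv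
    · have hq : q ∉ S' := fun h => hv (Finset.inl_mem_disjSum.2 h)
      refine (hD.unr π q u.ne_zero (h2 q hq)).2 ?_
      rw [hu q hq]
      exact Even.zero
    · exact (hv (Finset.inr_mem_disjSum.2 (Finset.mem_univ _))).elim
  obtain ⟨s, hs, hr, hq⟩ := lagrangian S' h2 hcl (fun φ => φ (x (Sum.inr φ)))
    (fun φ => (map_ne_zero φ).2 (hx _)) (fun q => emb q (x (Sum.inl q)))
    (fun q _ => (map_ne_zero _).2 (hx _)) fun u hu => by
      have h1 := h _ (hD.hom u.ne_zero) (hun u hu)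
      rw [Finset.sum_congr rfl fun v hv => (hD.congr _ _ _ _ _ (fun _ _ => rfl) (hx' v hv)).trans
        ((hD.sym π v u.ne_zero (hx v)).trans (hD.hp_comm v u.ne_zero (hx v))),
        Finset.sum_disjSum, add_comm] at h1
      exact h1
  refine ⟨_, hD.hom s.ne_zero, hun s hs, fun v hv g hg => ?_⟩
  rw [hx' v hv g hg]
  refine LagKAux.eq_of hD π v s.ne_zero (hx v) ?_ g hg
  rcases v with q | φ
  · change IsSquare (emb q _)
    rw [map_mul]
    exact hq q (Finset.inl_mem_disjSum.1 hv)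
  · change 0 < φ _
    rw [map_mul]
    exact hr φ

theorem lagK : ∃ S₁ : Finset (Pl K), ∀ S, S₁ ⊆ S → ∀ b : ∀ v, π.D v → k,
    (∀ v ∈ S, b v ∈ Hm k (π.D v)) →
    (∀ y ∈ Un k π.I S, ∑ v ∈ S, invK (cup (fun g : π.D v => y g) (b v)) = 0) →
    ∃ z ∈ Un k π.I S, ∀ v ∈ S, (fun g : π.D v => z g) = b v := by
  obtain ⟨S₁, h⟩ := lagM π
  refine ⟨S₁, fun S hS b hb ho => ?_⟩
  choose b' h1 using fun v => ext1 (b v)
  obtain rfl : b = fun v (g : π.D v) => b' v g := funext h1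
  choose z z1 z2 z3 using fun i => h S hS (fun v g => cd i (b' v g))
    (fun v hv => hom_iff.1 (Hm.map (hb v hv) _)) fun y y1 y2 => by
      have y3 := Hm.up (k := k) (hom_top.2 y1)
      rw [← map_zero (cd i), ← ho _ ⟨y3, fun v hv g hg => by rw [y2 v hv g hg, map_zero]⟩, map_sum]
      refine Finset.sum_congr rfl fun v hv => (symz_eq _ _ _).trans (Eq.trans (congrArg i2
        (funext₂ fun g l => ?_)) (invK_spec (two_D π v) (cz_cup (Hm.res y3 _) (hb v hv)) _).symm)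
      rw [cup, cup, ← Algebra.smul_def, map_smul, smul_eq_mul]
  obtain ⟨Z, a, b⟩ := glue z fun i => (hom_top.2 (z1 i)).1
  exact ⟨Z, ⟨⟨a, fun g h => cd_ext fun i => by rw [map_add, b, b, b, (hom_top.2 (z1 i)).2]⟩,
    fun v hv g hg => cd_ext fun i => by rw [b, z2 i v hv g hg, map_zero]⟩,
    fun v hv => funext fun g => cd_ext fun i => (b i g).trans (z3 i v hv g g.2)⟩

theorem abhnK (ε : Gal(Ω/K) → Gal(Ω/K) → k) (hε : Cz ε) (h : ∀ v, Sz fun g h : π.D v => ε g h) :
    Sz ε := sz_cd fun i => by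
  obtain ⟨A, -, h2, -, -⟩ := (facts K Ω).ad π
  exact sz_top (A.abhn _ (cz_top (hε.map _)) fun v => h2 ▸ sz_iff.1 ((h v).map _))

theorem finSK (S : Finset (Pl K)) : FiniteDimensional k (Un k π.I S) := by
  obtain ⟨A, -, -, h3, -⟩ := (facts K Ω).ad π
  have : Finite {x // x ∈ {y | SC.Hom ⊤ y ∧ ∀ v ∉ S, ∀ g ∈ π.I v, y g = 0}} :=
    (h3 ▸ A.finS S).to_subtype
  have : Finite (Un k π.I S) := Finite.of_injective (fun a i => (⟨fun g => cd i (a.1 g),
    hom_top.1 (Hm.map a.2.1 _), fun v hv g hg => by simp only [a.2.2 v hv g hg, map_zero]⟩ :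
      {x // x ∈ {y | SC.Hom ⊤ y ∧ ∀ v ∉ S, ∀ g ∈ π.I v, y g = 0}})) fun a b h => Subtype.ext
      (funext fun g => cd_ext fun i => congrFun (congrArg Subtype.val (congrFun h i)) g)
  exact Module.Finite.of_finite

theorem norK (v : Pl K) (d : Gal(Ω/K)) (hd : d ∈ π.D v) (i : Gal(Ω/K)) (hi : i ∈ π.I v) :
    d⁻¹ * i * d ∈ π.I v := by
  rcases v with q | φ
  · exact ((facts K Ω).pr.ine_conj _ d i).1 ((show d • π.pr q = π.pr q from hd).symm ▸ hi)
  · rw [show i = 1 from hi, mul_one, inv_mul_cancel]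
    exact one_mem _

theorem exPD {F : Type} [Field F] [NumberField F] [Algebra K F] [Algebra F Ω]
    [IsScalarTower K F Ω] (π' : Plc F Ω) : Nonempty (PD π.D π.I π'.D π'.I (Gs K Ω F)) := by
  have : IsGalois F Ω := IsGalois.tower_top_of_isGalois K F Ω
  have T := facts K Ω
  have T' := facts F Ω
  obtain ⟨u, u1, u2⟩ := (st_Trf (K := K) (L := F) (Ω := Ω)).lift
  choose s _ hs using fun Q : Pr F => T.pr.trans (T.pr.below (F := K) (π'.hov Q)) (π.hov (below K Q))
  choose t ht using fun ψ : F →+* ℝ => CjAux.two_emb (K := K) (π'.j ψ)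
    (π.j (ψ.comp (algebraMap K F))) fun a => by
      rw [π.hj, IsScalarTower.algebraMap_apply K F Ω, π'.hj, RingHom.comp_apply]
  have inj : Function.Injective (AlgEquiv.restrictScalarsHom K : Gal(Ω/F) →* Gal(Ω/K)) :=
    AlgEquiv.restrictScalars_injective K
  have tc : ∀ ψ, t ψ * AlgEquiv.restrictScalarsHom K (π'.c ψ) * (t ψ)⁻¹ =
      π.c (ψ.comp (algebraMap K F)) := fun ψ => by
    rw [mul_inv_eq_iff_eq_mul]
    refine AlgEquiv.ext fun x => (π.j (ψ.comp (algebraMap K F))).injective ?_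
    rw [AlgEquiv.mul_apply, AlgEquiv.mul_apply, ht, π.hc, ht]
    exact π'.hc ψ x
  have t1 : ∀ ψ (g : Gal(Ω/F)), t ψ * AlgEquiv.restrictScalarsHom K g * (t ψ)⁻¹ = 1 ↔ g = 1 :=
    fun ψ g => by rw [conj_eq_one_iff, map_eq_one_iff _ inj]
  refine ⟨{ ι := AlgEquiv.restrictScalarsHom K
            u := u
            cι := (st_Trf (K := K) (L := F) (Ω := Ω)).cont
            cu := u1
            inj := inj
            mem := fun g x => g.commutes x
            ιu := u2
            bl := Sum.map (below K) fun ψ => ψ.comp (algebraMap K F)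
            c := Sum.elim s t
            le := leK π
            nor := norK π
            memD := ?_
            memI := ?_
            uniq := ?_
            all := ?_ }⟩
  · rintro (Q | ψ) g
    · change g ∈ Dec F (π'.pr Q) ↔ s Q * _ * (s Q)⁻¹ ∈ Dec K (π.pr (below K Q))
      rw [← hs Q, T.pr.dec_conj, ← mul_assoc, ← mul_assoc, inv_mul_cancel, one_mul,
        inv_mul_cancel_right]
      rfl
    · change g ∈ Subgroup.zpowers _ ↔ t ψ * _ * (t ψ)⁻¹ ∈ Subgroup.zpowers _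
      rw [(T.cj.sq (π.hc _)).2.1, (T'.cj.sq (π'.hc _)).2.1, t1, ← tc, mul_left_inj, mul_right_inj,
        inj.eq_iff]
  · rintro (Q | ψ) g
    · change g ∈ Ine F (π'.pr Q) ↔ s Q * _ * (s Q)⁻¹ ∈ Ine K (π.pr (below K Q))
      rw [← hs Q, T.pr.ine_conj, ← mul_assoc, ← mul_assoc, inv_mul_cancel, one_mul,
        inv_mul_cancel_right]
      rfl
    · exact (t1 ψ g).symm
  · rintro (Q | ψ) (Q' | ψ') e d hd h
    · have e' : below K Q = below K Q' := Sum.inl.inj e
      have a := T.pr.smul (π'.hov Q') h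
      rw [Sum.elim_inl, Sum.elim_inl, mul_smul, hs, ← e', mul_inv_rev, mul_smul,
        inv_smul_eq_iff.2 (show d • π.pr (below K Q) = _ from hd).symm, ← hs, inv_smul_smul] at a
      exact congrArg _ (T.pr.uniq (π'.hov Q) a)
    · cases e
    · cases e
    · have e' : ψ.comp (algebraMap K F) = ψ'.comp (algebraMap K F) := Sum.inr.inj e
      refine congrArg _ (RingHom.ext fun a => Complex.ofReal_injective ?_)
      have b : t ψ' (algebraMap F Ω a) = d (t ψ (algebraMap F Ω a)) :=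
        (AlgEquiv.symm_apply_eq (d * t ψ)).1 (h a)
      rw [← π'.hj ψ', ← ht, ← e', b]
      rcases ((T.cj.sq (π.hc _)).2.1 d).1 hd with rfl | rfl
      · rw [AlgEquiv.one_apply, ht, π'.hj]
      · rw [π.hc, ht, π'.hj, Complex.conj_ofReal]
  · rintro (q | φ) a
    · obtain ⟨Q, hQ⟩ := T.pr.under F _ (T.pr.smul_max a⁻¹ (π.hov q).1)
      obtain rfl : below K Q = q := T.pr.uniq (T.pr.below (F := K) hQ)
        (T.pr.smul (π.hov q) (by rw [Gs_self]; trivial))
      obtain ⟨h, h1, h2⟩ := T.pr.trans (π'.hov Q) hQ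
      refine .inl ⟨.inl Q, rfl, a * h * (s Q)⁻¹, ?_, ?_⟩
      · change _ • π.pr _ = π.pr _
        rw [mul_smul, inv_smul_eq_iff.2 (hs Q).symm, mul_smul, h2, smul_inv_smul]
      · simpa using h1
    · by_cases h : a⁻¹ * π.c φ * a ∈ Gs K Ω F
      · obtain ⟨ψ, hψ⟩ := T'.cj.real (j := (π.j φ).comp (a : Ω →+* Ω)) (g := u _) fun x => by
          have := AlgEquiv.congr_fun (u2 _ h) x
          rw [AlgEquiv.restrictScalars_apply] at this
          rw [this]
          simpa using π.hc φ (a x)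
        obtain rfl : ψ.comp (algebraMap K F) = φ := RingHom.ext fun x => Complex.ofReal_injective (by
          rw [RingHom.comp_apply, ← hψ, ← IsScalarTower.algebraMap_apply, ← π.hj]
          simp)
        refine .inl ⟨.inr ψ, rfl, 1, one_mem _, fun x => ?_⟩
        rw [one_mul, Sum.elim_inr, AlgEquiv.mul_apply]
        refine (AlgEquiv.symm_apply_eq _).2 ((π.j (ψ.comp (algebraMap K F))).injective ?_)
        rw [ht, π'.hj]
        exact hψ x
      · exact .inr fun d hd hd' => (((T.cj.sq (π.hc _)).2.1 d).1 hd).resolve_right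
          fun e => h (e ▸ hd')

theorem basePK' (hc : ∀ v, Cor k (π.D v)) : BaseP k π.D π.I := fun H _ h => by
  have o : IsOpen (H : Set Gal(Ω/K)) := H.isOpen_of_mem_nhds (g := 1)
    (Filter.mem_of_superset ((h.isOpen_fiber 1).mem_nhds (map_one _)) fun g hg => by
      simpa using PD.fix.1 (DFunLike.congr_fun hg ((1 : Gal(Ω/K)) : Gal(Ω/K) ⧸ H)))
  obtain ⟨F, a, rfl⟩ := (facts K Ω).top.field H o
  have := NumberField.of_module_finite K F
  have : IsGalois F Ω := IsGalois.tower_top_of_isGalois K F Ω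
  choose P hP using (facts K Ω).pr.ex F
  obtain ⟨π', -⟩ := exPlc P hP
  obtain ⟨d⟩ := exPD π π'
  obtain ⟨S₁, h1⟩ := lagK (k := k) π'
  exact d.base hc (finIK π) (abhnK π') (finSK π') h1

end Pool.Agent.BC
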