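import Pool.Agent.Lib.MP_b4b3cb_nt.BC.H3
import Pool.Agent.Lib.MP_b4b3cb_nt.BC.AriG0
import Pool.Agent.Lib.MP_b4b3cb_nt.BC.MI

/-! The local-global principle in degree three, without hypotheses. -/

namespace Pool.Agent.BC

open NumberField Pool.Agent.SP

variable {K Ω : Type} [Field K] [NumberField K] [Field Ω] [Algebra K Ω] [IsAlgClosed Ω]
  [IsGalois K Ω] [CharZero Ω] {k : Type} [Field k] [Finite k] [CharP k 2] [Algebra (ZMod 2) k]

variable (K Ω) in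
theorem unrSz : UnrSz K Ω := fun π _ h2 _ he hi => (exPC π h2).elim fun _ h => h.2.sz he hi

theorem h3K0 (π : SC.Plc K Ω) : ∀ z : Gal(Ω/K) → Gal(Ω/K) → Gal(Ω/K) → k, Z3 z →
    (∀ v, B3 fun g h l : π.D v => z g h l) → B3 z := h3K (fun F => unrSz F Ω) π

theorem g0_ld (π : SC.Plc K Ω) (ld : ∀ v, LDm k (π.D v)) : G0 k π.D π.I (S2 K) :=
  g0_of π ld (fun v _ p => mi' (lfK π v) (ld v) p) (h3K0 π)

end Pool.Agent.BC
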