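import Pool.Agent.Lib.MP_b4b3cb_nt.BC.LD
import Pool.Agent.Lib.MP_b4b3cb_nt.BC.H3b
import Pool.Agent.Lib.MP_b4b3cb_nt.BC.BaseP

/-! The global duality data of a number field. -/

namespace Pool.Agent.BC

open Pool.Agent.SP NumberField Pool.Agent.Stark

variable {K Ω : Type} [Field K] [NumberField K] [Field Ω] [Algebra K Ω] [IsAlgClosed Ω]
  [IsGalois K Ω] [CharZero Ω] (k : Type) [Field k] [Finite k] [CharP k 2] [Algebra (ZMod 2) k]
  (π : SC.Plc K Ω)

theorem ldmK (v : SC.Pl K) : LDm k (π.D v) := ldm (lfK π v)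

theorem miK {q : Pr K} (h2 : og q (2 : K) = 0) (σ : π.D (.inl q))
    (h4 : SC.IsFr (π.pr q) (Ideal.absNorm q.asIdeal) σ.1) :
    MI k ((π.I (.inl q)).subgroupOf (π.D (.inl q))) σ :=
  mi' (lfK π _) (ldmK k π _) (pcK π h2 σ h4)

theorem corK (v : SC.Pl K) : Cor k (π.D v) := fun _ _ _ _ _ h1 h2 _ h => cor (lfK π v) h1 h2 h

theorem g0K : G0 k π.D π.I (S2 K) := g0_ld π (ldmK k π)

theorem basePK : BaseP k π.D π.I := basePK' π (corK k π)

end Pool.Agent.BC
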