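import Pool.Agent.Lib.MP_b4b3cb_nt.BC.Iso
import Pool.Agent.Lib.MP_b4b3cb_nt.Par.Ari

/-! The decomposition groups of a number field are local groups. -/

set_option linter.unusedSectionVars false

namespace Pool.Agent.BC

open scoped Classical Topology Pointwise
open Module Pool.Agent.SP

open NumberField Pool.Agent.Stark
open SC hiding Hm Rp V T Two Cob Sel Spl cup dq Cz Sz res

variable {K Ω : Type} [Field K] [NumberField K] [Field Ω] [Algebra K Ω] [IsAlgClosed Ω]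
  [IsGalois K Ω] [CharZero Ω] {𝔓 : Ideal (𝓞 Ω)}

theorem l0K (π : Plc K Ω) (v : Pl K) : L0 (π.D v) where
  two := two_D π v
  nd a ha h := by
    obtain ⟨A, -, h2, -, h4⟩ := (facts K Ω).ad π
    obtain ⟨a, rfl⟩ := ext1 a
    have := A.nondeg v a
    rw [h2, h4] at this
    exact funext fun g => this (hom_iff.1 ha)
      (fun b hb => (symz_eq _ _ _).trans (i2_zero.2 (h _ (hom_iff.2 hb)))) g g.2
  fin := by
    obtain ⟨A, -, h2, -, -⟩ := (facts K Ω).ad π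
    have := A.finH v
    rw [h2] at this
    refine Finite.of_surjective (fun f : SC.Hm (π.D v) =>
      (⟨_, hom_iff.2 f.2.1⟩ : Hm (ZMod 2) (π.D v))) fun ⟨a, ha⟩ => ?_
    obtain ⟨a, rfl⟩ := ext1 a
    have e : (fun g : π.D v => SC.res (π.D v) a g) = fun g : π.D v => a g :=
      funext fun g => if_pos g.2
    exact ⟨⟨SC.res _ a, hom_iff.1 (e ▸ ha), fun g hg => if_neg hg⟩, Subtype.ext e⟩

theorem l0D (h : 𝔓.IsMaximal) : L0 (Dec K 𝔓) := by
  obtain ⟨π, v, rfl⟩ := exPlc' (K := K) h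
  exact l0K π (.inl v)

theorem open_sub {D : Subgroup Gal(Ω/K)} (hD : IsClosed (D : Set Gal(Ω/K))) {U : Subgroup D}
    (hU : IsOpen (U : Set D)) :
    ∃ H : Subgroup Gal(Ω/K), IsOpen (H : Set Gal(Ω/K)) ∧ ∀ g : D, g ∈ U ↔ g.1 ∈ H := by
  have T := facts K Ω
  obtain ⟨V, V1, V2⟩ := isOpen_induced_iff.1 hU
  obtain ⟨W, W1, W2, W3⟩ := T.top.nhds V (V1.mem_nhds (V2.ge U.one_mem))
  obtain ⟨-, a, b⟩ := T.top.mid D W (U.map D.subtype) hD W1 W2
    (fun g hg => ⟨⟨g, hg.1⟩, V2.le (W3 hg.2), rfl⟩) (Subgroup.map_subtype_le U)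
  refine ⟨_, a, fun g => ⟨fun hg => Subgroup.mem_sup_left ⟨g, hg, rfl⟩, fun hg => ?_⟩⟩
  obtain ⟨l, l1, l2⟩ := b.le ⟨g.2, hg⟩
  exact (Subtype.ext l2 : l = g) ▸ l1

section F

variable (K) (F : Type) [Field F] [NumberField F] [Algebra K F] [Algebra F Ω]
  [IsScalarTower K F Ω]

/-- The Galois group of an extension as a subgroup. -/
theorem isoF : ∃ e : Gal(Ω/F) ≃ₜ* Gs K Ω F, ∀ g, (e g).1 = g.restrictScalars K := by
  have : IsGalois F Ω := IsGalois.tower_top_of_isGalois K F Ω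
  exact ⟨mkIso ((AlgEquiv.restrictScalarsHom K).codRestrict (Gs K Ω F) fun g x => g.commutes x)
    ((st_Trf (K := K) (L := F) (Ω := Ω)).cont.subtype_mk _)
    ⟨fun a b h => AlgEquiv.restrictScalars_injective K (congrArg Subtype.val h),
      fun g => ⟨GlAux.up g, rfl⟩⟩, fun _ => rfl⟩

variable {K}

theorem isoD {U : Subgroup (Dec K 𝔓)} (hU : ∀ g : Dec K 𝔓, g ∈ U ↔ g.1 ∈ Gs K Ω F) :
    ∃ e : Dec F 𝔓 ≃ₜ* U, ∀ g, (e g).1.1 = g.1.restrictScalars K := by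
  have : IsGalois F Ω := IsGalois.tower_top_of_isGalois K F Ω
  let φ : Dec F 𝔓 →* Dec K 𝔓 :=
    ((AlgEquiv.restrictScalarsHom K).comp (Dec F 𝔓).subtype).codRestrict (Dec K 𝔓) fun g => g.2
  exact ⟨mkIso (φ.codRestrict U fun g => (hU _).2 fun x => g.1.commutes x)
    ((((st_Trf (K := K) (L := F) (Ω := Ω)).cont.comp continuous_subtype_val).subtype_mk
      _).subtype_mk _)
    ⟨fun a b h => Subtype.ext (AlgEquiv.restrictScalars_injective K
        (congrArg (fun x : U => x.1.1) h)),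
      fun g => ⟨⟨GlAux.up ⟨g.1.1, (hU _).1 g.2⟩, g.1.2⟩, rfl⟩⟩, fun _ => rfl⟩

end F

theorem exF {U : Subgroup (Dec K 𝔓)} (hU : IsOpen (U : Set (Dec K 𝔓))) :
    ∃ F : IntermediateField K Ω, FiniteDimensional K F ∧
      ∀ g : Dec K 𝔓, g ∈ U ↔ g.1 ∈ Gs K Ω F := by
  obtain ⟨H, a, b⟩ := open_sub ((facts K Ω).pr.closed 𝔓) hU
  obtain ⟨F, c, rfl⟩ := (facts K Ω).top.field H a
  exact ⟨F, c, b⟩

theorem l0_open (h : 𝔓.IsMaximal) {U : Subgroup (Dec K 𝔓)} (hU : IsOpen (U : Set (Dec K 𝔓))) :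
    L0 U := by
  obtain ⟨F, a, b⟩ := exF hU
  have := NumberField.of_module_finite K F
  obtain ⟨e, -⟩ := isoD F b
  exact (l0D h).iso e

theorem lfK (π : Plc K Ω) (v : Pl K) : LF (π.D v) where
  top := l0K π v
  sub U hU := by
    rcases v with q | φ
    · exact l0_open (π.hov q).1 hU
    · obtain ⟨-, b, -⟩ := (facts K Ω).cj.sq (π.hc φ)
      let s : π.D (.inr φ) := ⟨π.c φ, Subgroup.mem_zpowers _⟩
      have cs : ∀ g : π.D (.inr φ), g = 1 ∨ g = s := fun g =>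
        ((b g).1 g.2).imp Subtype.ext Subtype.ext
      by_cases h : s ∈ U
      · obtain rfl : U = ⊤ := eq_top_iff.2 fun g _ => (cs g).elim (· ▸ U.one_mem) (· ▸ h)
        exact (l0K π _).iso (topIso _)
      · have e : ∀ g : U, g = 1 := fun g => Subtype.ext ((cs g).resolve_right fun e => h (e ▸ g.2))
        have : Subsingleton U := ⟨fun a b => (e a).trans (e b).symm⟩
        exact L0.triv
  ex := by
    obtain ⟨a, a0, ha⟩ := nonsq (K := K) {v}
    exact ⟨_, Hm.res (hom_top.2 ((facts K Ω).dict.hom a0)) _, fun h =>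
      ha v (Finset.mem_singleton_self v) (((facts K Ω).dict.zero π v a0).1 fun g hg =>
        congrFun h ⟨g, hg⟩)⟩

theorem lfD (h : 𝔓.IsMaximal) : LF (Dec K 𝔓) := by
  obtain ⟨π, v, rfl⟩ := exPlc' (K := K) h
  exact lfK π (.inl v)

theorem res_fix {q : Pr K} (h : Over 𝔓 q) {y : 𝓞 Ω} (hy : y - y ^ Ideal.absNorm q.asIdeal ∈ 𝔓)
    {g : Gal(Ω/K)} (hg : g ∈ Dec K 𝔓) : g • y - y ∈ 𝔓 := by
  have T := facts K Ω
  have := h.1
  have := q.isMaximal
  let _ := Ideal.Quotient.field 𝔓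
  let _ := Ideal.Quotient.field q.asIdeal
  have : Finite (𝓞 K ⧸ q.asIdeal) := Ideal.finiteQuotientOfFreeOfNeBot _ q.ne_bot
  let _ := Fintype.ofFinite (𝓞 K ⧸ q.asIdeal)
  let i : 𝓞 K ⧸ q.asIdeal →+* 𝓞 Ω ⧸ 𝔓 :=
    Ideal.quotientMap 𝔓 (algebraMap (𝓞 K) (𝓞 Ω)) fun x hx => (h.2 x).1 hx
  rw [Ideal.absNorm_apply, Submodule.cardQuot_apply, Nat.card_eq_fintype_card] at hy
  obtain ⟨a, ha⟩ := (Polynomial.splits_iff_card_roots.2 (by
    rw [FiniteField.roots_X_pow_card_sub_X, FiniteField.X_pow_card_sub_X_natDegree_eq _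
      Fintype.one_lt_card]; rfl)).mem_range_of_isRoot
    (FiniteField.X_pow_card_sub_X_ne_zero (𝓞 K ⧸ q.asIdeal) Fintype.one_lt_card) (i := i)
    (x := Ideal.Quotient.mk 𝔓 y) (by
      simp only [Polynomial.IsRoot, Polynomial.map_sub, Polynomial.map_pow, Polynomial.map_X,
        Polynomial.eval_sub, Polynomial.eval_pow, Polynomial.eval_X]
      rw [sub_eq_zero, ← map_pow]
      exact (Ideal.Quotient.eq.2 hy).symm)
  obtain ⟨a, rfl⟩ := Ideal.Quotient.mk_surjective a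
  have b : algebraMap (𝓞 K) (𝓞 Ω) a - y ∈ 𝔓 := Ideal.Quotient.eq.1 ha
  have c := ((T.pr.mem_dec 𝔓 g).1 hg _).2 b
  have e : g • algebraMap (𝓞 K) (𝓞 Ω) a = algebraMap (𝓞 K) (𝓞 Ω) a :=
    RingOfIntegers.ext (g.commutes a)
  rw [smul_sub, e] at c
  simpa using sub_mem b c

theorem pcD {q : Pr K} (h : Over 𝔓 q) (h2 : 2 ∉ 𝔓) (σ : Dec K 𝔓)
    (h4 : IsFr 𝔓 (Ideal.absNorm q.asIdeal) σ.1) : PC ((Ine K 𝔓).subgroupOf (Dec K 𝔓)) σ where
  nor := ⟨fun i hi d => by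
    have := ((facts K Ω).pr.ine_conj 𝔓 d.1⁻¹ i.1).1
    rw [show d.1⁻¹ • 𝔓 = 𝔓 from (d⁻¹).2, inv_inv] at this
    exact this hi⟩
  gen U hU hI hσ := eq_top_iff.2 fun g _ => by
    obtain ⟨F, a, b⟩ := exF hU
    have := NumberField.of_module_finite K F
    obtain ⟨l, l1, l2⟩ := (facts K Ω).fr.res (F := F) h.1 g.1 g.2 fun y => res_fix h (by
      have e : σ.1 • algebraMap (𝓞 F) (𝓞 Ω) y = algebraMap (𝓞 F) (𝓞 Ω) y :=
        RingOfIntegers.ext ((b σ).1 hσ y)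
      have := h4 (algebraMap (𝓞 F) (𝓞 Ω) y)
      rwa [e] at this) g.2
    have := mul_mem (hI (x := g * (⟨l, l1.1⟩ : Dec K 𝔓)⁻¹) l2) ((b ⟨l, l1.1⟩).2 l1.2)
    rwa [inv_mul_cancel_right] at this
  div a := by
    have n1 : 1 < Ideal.absNorm q.asIdeal := lt_of_le_of_ne
      (Nat.pos_of_ne_zero (Ideal.absNorm_eq_zero_iff.not.2 q.ne_bot))
      fun e => q.isPrime.ne_top (Ideal.absNorm_eq_one_iff.1 e.symm)
    have e1 := (facts K Ω).fr.cyc_fr h.1 h2 h4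
    generalize Ideal.absNorm q.asIdeal = n at n1 e1
    let χ : Dec K 𝔓 →* (ZMod (2 ^ (n ^ 2 ^ a + 1)))ˣ :=
      ((Units.map (PadicInt.toZModPow (n ^ 2 ^ a + 1)).toMonoidHom).comp (cyc K Ω)).comp
        (Dec K 𝔓).subtype
    refine ⟨χ.ker, ?_, inferInstance, fun i hi => ?_, fun j hj => ?_⟩
    · have c : Continuous fun g : Dec K 𝔓 => (cyc K Ω g : ℤ_[2]) :=
        ((Units.continuous_val (M := ℤ_[2])).comp st_Cyc.1).comp continuous_subtype_val
      have e : (χ.ker : Set (Dec K 𝔓)) = (fun g : Dec K 𝔓 => (cyc K Ω g : ℤ_[2])) ⁻¹'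
          Metric.closedBall 1 ((2 : ℕ) ^ (-(n ^ 2 ^ a + 1 : ℕ) : ℤ)) := by
        ext g
        rw [Set.mem_preimage, Metric.mem_closedBall, dist_eq_norm,
          PadicInt.norm_le_pow_iff_mem_span_pow, ← PadicInt.ker_toZModPow, RingHom.mem_ker,
          map_sub, map_one, sub_eq_zero]
        exact Units.ext_iff
      rw [e]
      exact (IsUltrametricDist.isOpen_closedBall _ (by positivity)).preimage c
    · change Units.map _ (cyc K Ω i) = 1
      rw [(facts K Ω).fr.cyc_ine (g := i) h.1 h2 hi, map_one]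
    · rw [MonoidHom.mem_ker, map_pow, ← orderOf_dvd_iff_pow_eq_one] at hj
      have d := orderOf_dvd_card (x := χ σ)
      rw [ZMod.card_units_eq_totient, Nat.totient_prime_pow_succ Nat.prime_two] at d
      obtain ⟨e, -, he⟩ := (Nat.dvd_prime_pow Nat.prime_two).1 (d.trans (mul_one _).dvd)
      refine (pow_dvd_pow 2 (le_of_not_ge fun le => ?_)).trans (he ▸ hj)
      have p := congrArg Units.val (orderOf_dvd_iff_pow_eq_one.1 (he ▸ pow_dvd_pow 2 le))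
      have p1 : (χ σ : ZMod (2 ^ (n ^ 2 ^ a + 1))) = n := by
        change PadicInt.toZModPow _ (cyc K Ω σ : ℤ_[2]) = _
        rw [e1, map_natCast]
      rw [Units.val_pow_eq_pow_val, p1, Units.val_one, ← Nat.cast_pow] at p
      replace p := (ZMod.natCast_eq_natCast_iff _ _ _).1 (p.trans Nat.cast_one.symm)
      have p2 : 1 < n ^ 2 ^ a := Nat.one_lt_pow (by positivity) n1
      have p3 : n ^ 2 ^ a < 2 ^ (n ^ 2 ^ a + 1) :=
        Nat.lt_two_pow_self.trans (Nat.pow_lt_pow_right one_lt_two (Nat.lt_succ_self _))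
      exact p2.ne' (p.eq_of_lt_of_lt p3 (p2.trans p3))
  rk U hU := by
    obtain ⟨F, a, b⟩ := exF hU
    have := NumberField.of_module_finite K F
    obtain ⟨e, -⟩ := isoD F b
    have : IsGalois F Ω := IsGalois.tower_top_of_isGalois K F Ω
    have := (l0D (K := F) h.1).fin
    rw [Nat.card_congr (hmEquiv _ e), Module.natCard_eq_pow_finrank (K := ZMod 2), Nat.card_zmod]
    exact Nat.pow_le_pow_right two_pos (rank2 h.1 h2)

theorem pcK (π : Plc K Ω) {q : Pr K} (h2 : og q (2 : K) = 0) (σ : π.D (.inl q))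
    (h4 : IsFr (π.pr q) (Ideal.absNorm q.asIdeal) σ.1) :
    PC ((π.I (.inl q)).subgroupOf (π.D (.inl q))) σ :=
  pcD (π.hov q) (((facts K Ω).pr.two (π.hov q)).2 h2) σ h4

end Pool.Agent.BC
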