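import Pool.Agent.Lib.MP_b4b3cb_nt.Par.Ext

/-! Cochains with values in finite modules in characteristic two. -/

set_option linter.unusedSectionVars false

namespace Pool.Agent.BC

open scoped Classical
open Module Pool.Agent.SP

/-- Locally constant functions of two variables. -/
def LC2 {G Y : Type} [TopologicalSpace G] (ξ : G → G → Y) : Prop :=
  IsLocallyConstant fun p : G × G => ξ p.1 p.2

/-- Locally constant functions of three variables. -/
def LC3 {G Y : Type} [TopologicalSpace G] (ξ : G → G → G → Y) : Prop :=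
  IsLocallyConstant fun p : G × G × G => ξ p.1 p.2.1 p.2.2

theorem lc_at {X G Y : Type} [TopologicalSpace X] [TopologicalSpace G] {f : G → Y}
    (h : IsLocallyConstant f) {a : X → G} (ha : Continuous a) :
    IsLocallyConstant fun x => f (a x) := h.comp_continuous ha

theorem LC2.at {X G Y : Type} [TopologicalSpace X] [TopologicalSpace G] {f : G → G → Y}
    (h : LC2 f) {a b : X → G} (ha : Continuous a) (hb : Continuous b) :
    IsLocallyConstant fun x => f (a x) (b x) := h.comp_continuous (ha.prodMk hb)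

theorem LC3.at {X G Y : Type} [TopologicalSpace X] [TopologicalSpace G] {f : G → G → G → Y}
    (h : LC3 f) {a b c : X → G} (ha : Continuous a) (hb : Continuous b) (hc : Continuous c) :
    IsLocallyConstant fun x => f (a x) (b x) (c x) := h.comp_continuous (ha.prodMk (hb.prodMk hc))

theorem lc_two {X Y Y' Z : Type} [TopologicalSpace X] {f : X → Y} {f' : X → Y'} (φ : Y → Y' → Z)
    (h : IsLocallyConstant f) (h' : IsLocallyConstant f') :
    IsLocallyConstant fun x => φ (f x) (f' x) := h.comp₂ h' φ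

theorem lc_one {X Y Z : Type} [TopologicalSpace X] {f : X → Y} (φ : Y → Z)
    (h : IsLocallyConstant f) : IsLocallyConstant fun x => φ (f x) := h.comp φ

theorem lc_pi {X ι Y : Type} [TopologicalSpace X] [Finite ι] {f : X → ι → Y}
    (h : ∀ i, IsLocallyConstant fun x => f x i) : IsLocallyConstant f :=
  (IsLocallyConstant.iff_eventually_eq _).2 fun x =>
    (Filter.eventually_all.2 fun i => (h i).eventually_eq x).mono fun _ e => funext e

variable {k : Type} [Field k] {G G' : Type} [Group G] [TopologicalSpace G] [Group G']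
  [TopologicalSpace G']

variable (k G) in
/-- A representation with locally constant action. -/
structure FR (A : Type) [AddCommGroup A] [Module k A] where
  /-- the action -/
  ac : G →* Module.End k A
  lc : IsLocallyConstant ac

variable {A A' A₁ : Type} [AddCommGroup A] [Module k A] [AddCommGroup A'] [Module k A']
  [AddCommGroup A₁] [Module k A₁]

theorem add_self [CharP k 2] (u : A) : u + u = 0 := by
  rw [← two_smul k, CharTwo.two_eq_zero, zero_smul]

variable (k) in
theorem neg_eq [CharP k 2] (u : A) : -u = u := neg_eq_of_add_eq_zero_left (add_self (k := k) u)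

variable (k) in
theorem sub_eq [CharP k 2] (u v : A) : u - v = u + v := by rw [sub_eq_add_neg, neg_eq k]

namespace FR

variable (R : FR k G A)

/-- Pull back along a continuous homomorphism. -/
def comap (φ : G' →* G) (hφ : Continuous φ) : FR k G' A := ⟨R.ac.comp φ, R.lc.comp_continuous hφ⟩

/-- Restriction to a subgroup. -/
def res (D : Subgroup G) : FR k D A := R.comap D.subtype continuous_subtype_val

theorem res_ac (D : Subgroup G) (g : D) : (R.res D).ac g = R.ac g := rfl

/-- The coboundary of a cochain. -/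
def d2 (x : G → A) (g h : G) : A := x g + R.ac g (x h) - x (g * h)

/-- The coboundary of a vector. -/
def d1 : A →ₗ[k] (G → A) := LinearMap.pi fun g => R.ac g - LinearMap.id

theorem d1_apply (u : A) (g : G) : R.d1 u g = R.ac g u - u := rfl

theorem mul (g h : G) (u : A) : R.ac (g * h) u = R.ac g (R.ac h u) := by rw [map_mul]; rfl

theorem one (u : A) : R.ac 1 u = u := by rw [map_one]; rfl

theorem inv_ac (g : G) (u : A) : R.ac g⁻¹ (R.ac g u) = u := by rw [← R.mul, inv_mul_cancel, R.one]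

theorem ac_inv (g : G) (u : A) : R.ac g (R.ac g⁻¹ u) = u := by rw [← R.mul, mul_inv_cancel, R.one]

theorem d2_add (x y : G → A) (g h : G) : R.d2 (x + y) g h = R.d2 x g h + R.d2 y g h := by
  simp only [d2, Pi.add_apply, map_add]; abel

theorem d2_sub (x y : G → A) (g h : G) : R.d2 (x - y) g h = R.d2 x g h - R.d2 y g h := by
  simp only [d2, Pi.sub_apply, map_sub]; abel

theorem d2_smul (a : k) (x : G → A) (g h : G) : R.d2 (a • x) g h = a • R.d2 x g h := by
  simp only [d2, Pi.smul_apply, map_smul, smul_sub, smul_add]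

/-- Cocycles. -/
def Z1 : Submodule k (G → A) where
  carrier := {x | IsLocallyConstant x ∧ ∀ g h, R.d2 x g h = 0}
  add_mem' := fun {a b} ha hb => ⟨ha.1.add hb.1, fun g h => by rw [d2_add, ha.2, hb.2, add_zero]⟩
  zero_mem' := ⟨IsLocallyConstant.const _, by simp [d2]⟩
  smul_mem' := fun c a ha => ⟨ha.1.comp (c • ·), fun g h => by rw [d2_smul, ha.2, smul_zero]⟩

/-- Coboundaries. -/
def B1 : Submodule k (G → A) := LinearMap.range R.d1

/-- Invariants. -/
def H0 : Submodule k A := LinearMap.ker R.d1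

theorem mem_H0 {u : A} : u ∈ R.H0 ↔ ∀ g, R.ac g u = u :=
  ⟨fun h g => sub_eq_zero.1 (congrFun h g), fun h => funext fun g => sub_eq_zero.2 (h g)⟩

/-- Two-cocycles. -/
def Z2 (ξ : G → G → A) : Prop :=
  LC2 ξ ∧ ∀ g h l, R.ac g (ξ h l) + ξ g (h * l) = ξ (g * h) l + ξ g h

/-- Two-coboundaries. -/
def B2 (ξ : G → G → A) : Prop := ∃ φ : G → A, IsLocallyConstant φ ∧ ∀ g h, ξ g h = R.d2 φ g h

theorem dd (x : G → A) (g h l : G) :
    R.ac g (R.d2 x h l) + R.d2 x g (h * l) = R.d2 x (g * h) l + R.d2 x g h := by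
  simp only [d2, map_sub, map_add, R.mul, mul_assoc]; abel

theorem lc_ac {X : Type} [TopologicalSpace X] {φ : X → G} {x : X → A} (h : Continuous φ)
    (h' : IsLocallyConstant x) : IsLocallyConstant fun p => R.ac (φ p) (x p) :=
  lc_two (fun (M : Module.End k A) u => M u) (lc_at R.lc h) h'

variable {R} in
theorem coc {x : G → A} (hx : x ∈ R.Z1) (g h : G) : x (g * h) = x g + R.ac g (x h) :=
  (sub_eq_zero.1 (hx.2 g h)).symm

variable {R} in
theorem z1_one {x : G → A} (hx : x ∈ R.Z1) : x 1 = 0 := by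
  have := coc hx 1 1
  rwa [mul_one, R.one, left_eq_add] at this

theorem mk_z1 {x : G → A} (h : IsLocallyConstant x)
    (h' : ∀ g l, x (g * l) = x g + R.ac g (x l)) : x ∈ R.Z1 :=
  ⟨h, fun g l => sub_eq_zero.2 (h' g l).symm⟩

theorem d1_mem (u : A) : R.d1 u ∈ R.Z1 :=
  R.mk_z1 (lc_one (fun M : Module.End k A => M u - u) R.lc) fun g h => by
    simp only [d1_apply, map_sub, R.mul]; abel

theorem B1_le : R.B1 ≤ R.Z1 := by
  rintro _ ⟨u, rfl⟩
  exact R.d1_mem u

theorem d2_lc [ContinuousMul G] {x : G → A} (hx : IsLocallyConstant x) : LC2 (R.d2 x) :=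
  ((lc_at hx continuous_fst).add (R.lc_ac continuous_fst (lc_at hx continuous_snd))).sub
    (lc_at hx continuous_mul)

theorem z2_d2 [ContinuousMul G] {x : G → A} (hx : IsLocallyConstant x) : R.Z2 (R.d2 x) :=
  ⟨R.d2_lc hx, R.dd x⟩

variable {R}

theorem comap_z1 {x : G → A} (hx : x ∈ R.Z1) (φ : G' →* G) (hφ : Continuous φ) :
    (fun g => x (φ g)) ∈ (R.comap φ hφ).Z1 :=
  mk_z1 _ (lc_at hx.1 hφ) fun g h => by rw [map_mul, coc hx]; rfl

theorem res_z1 {x : G → A} (hx : x ∈ R.Z1) (D : Subgroup G) :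
    (fun g : D => x g) ∈ (R.res D).Z1 := comap_z1 hx D.subtype _

theorem Z2.comap {ξ : G → G → A} (h : R.Z2 ξ) (φ : G' →* G) (hφ : Continuous φ) :
    (R.comap φ hφ).Z2 fun g h => ξ (φ g) (φ h) :=
  ⟨h.1.at (hφ.comp continuous_fst) (hφ.comp continuous_snd), fun a b c => by
    simp only [map_mul]; exact h.2 _ _ _⟩

theorem Z2.res {ξ : G → G → A} (h : R.Z2 ξ) (D : Subgroup G) :
    (R.res D).Z2 fun g h : D => ξ g h := h.comap D.subtype _

theorem Z2.add {ξ ζ : G → G → A} (h : R.Z2 ξ) (h' : R.Z2 ζ) : R.Z2 (ξ + ζ) :=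
  ⟨h.1.add h'.1, fun a b c => by
    simp only [Pi.add_apply, map_add]
    rw [add_add_add_comm, h.2, h'.2, add_add_add_comm]⟩

theorem Z2.smul {ξ : G → G → A} (h : R.Z2 ξ) (r : k) : R.Z2 (r • ξ) :=
  ⟨h.1.comp (r • ·), fun a b c => by
    simp only [Pi.smul_apply, map_smul, ← smul_add, h.2]⟩

theorem Z2.sub {ξ ζ : G → G → A} (h : R.Z2 ξ) (h' : R.Z2 ζ) : R.Z2 (ξ - ζ) := by
  have := h.add (h'.smul (-1))
  rwa [neg_one_smul, ← sub_eq_add_neg] at this

theorem Z2.one_left {ξ : G → G → A} (h : R.Z2 ξ) (l : G) : ξ 1 l = ξ 1 1 := by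
  have := h.2 1 1 l
  rwa [R.one, one_mul, one_mul, add_right_inj] at this

theorem Z2.one_right {ξ : G → G → A} (h : R.Z2 ξ) (g : G) : ξ g 1 = R.ac g (ξ 1 1) := by
  have := h.2 g 1 1
  rw [mul_one, mul_one, add_left_inj] at this
  exact this.symm

theorem rank_B1 [FiniteDimensional k A] (R : FR k G A) :
    finrank k R.B1 + finrank k R.H0 = finrank k A := LinearMap.finrank_range_add_finrank_ker _

instance fdB1 [FiniteDimensional k A] (R : FR k G A) : FiniteDimensional k R.B1 :=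
  inferInstanceAs (FiniteDimensional k (LinearMap.range R.d1))

end FR

/-- An equivariant linear map. -/
def Eqv (R : FR k G A) (R₁ : FR k G A₁) (f : A →ₗ[k] A₁) : Prop :=
  ∀ g u, f (R.ac g u) = R₁.ac g (f u)

namespace Eqv

variable {R : FR k G A} {R₁ : FR k G A₁} {f : A →ₗ[k] A₁} (h : Eqv R R₁ f)

include h

theorem res (D : Subgroup G) : Eqv (R.res D) (R₁.res D) f := fun g => h g

theorem d2 (x : G → A) (g l : G) : R₁.d2 (fun g => f (x g)) g l = f (R.d2 x g l) := by
  simp only [FR.d2, map_add, map_sub, h g]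

theorem d1 (u : A) : (fun g => f (R.d1 u g)) = R₁.d1 (f u) := funext fun g => by
  simp only [FR.d1_apply, map_sub, h g]

theorem z1 {x : G → A} (hx : x ∈ R.Z1) : (fun g => f (x g)) ∈ R₁.Z1 :=
  ⟨lc_one f hx.1, fun g l => by rw [h.d2, hx.2, map_zero]⟩

theorem b1 {x : G → A} (hx : x ∈ R.B1) : (fun g => f (x g)) ∈ R₁.B1 := by
  obtain ⟨u, rfl⟩ := hx
  exact ⟨_, (h.d1 u).symm⟩

theorem z2 {ξ : G → G → A} (hx : R.Z2 ξ) : R₁.Z2 fun g l => f (ξ g l) :=
  ⟨lc_one f hx.1, fun a b c => by rw [← h, ← map_add, hx.2, map_add]⟩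

theorem z2_of (inj : Function.Injective f) {ξ : G → G → A} (hx : R₁.Z2 fun g l => f (ξ g l)) :
    R.Z2 ξ :=
  ⟨hx.1.desc _ f inj, fun a b c => inj (by rw [map_add, map_add, h]; exact hx.2 a b c)⟩

theorem z1_of (inj : Function.Injective f) {x : G → A} (hx : (fun g => f (x g)) ∈ R₁.Z1) :
    x ∈ R.Z1 :=
  ⟨hx.1.desc _ f inj, fun a b => inj (by rw [← h.d2, hx.2, map_zero])⟩

end Eqv

/-- A perfect invariant pairing. -/
structure Pf (R' : FR k G A') (R : FR k G A) (β : A' →ₗ[k] A →ₗ[k] k) : Prop where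
  eq : ∀ g u v, β (R'.ac g u) (R.ac g v) = β u v
  nl : ∀ u, (∀ v, β u v = 0) → u = 0
  nr : ∀ v, (∀ u, β u v = 0) → v = 0

theorem Pf.flip {R' : FR k G A'} {R : FR k G A} {β : A' →ₗ[k] A →ₗ[k] k} (h : Pf R' R β) :
    Pf R R' β.flip := ⟨fun g u v => h.eq g v u, h.nr, h.nl⟩

theorem Pf.comap {R' : FR k G A'} {R : FR k G A} {β : A' →ₗ[k] A →ₗ[k] k} (h : Pf R' R β)
    (φ : G' →* G) (hφ : Continuous φ) : Pf (R'.comap φ hφ) (R.comap φ hφ) β :=
  ⟨fun g => h.eq (φ g), h.nl, h.nr⟩

theorem Pf.res {R' : FR k G A'} {R : FR k G A} {β : A' →ₗ[k] A →ₗ[k] k} (h : Pf R' R β)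
    (D : Subgroup G) : Pf (R'.res D) (R.res D) β := h.comap D.subtype _

theorem Pf.inv {R' : FR k G A'} {R : FR k G A} {β : A' →ₗ[k] A →ₗ[k] k} (h : Pf R' R β)
    (g : G) (u : A') (v : A) : β u (R.ac g v) = β (R'.ac g⁻¹ u) v := by
  rw [← h.eq g (R'.ac g⁻¹ u), R'.ac_inv]

theorem Pf.bij [FiniteDimensional k A] {R' : FR k G A'} {R : FR k G A} {β : A' →ₗ[k] A →ₗ[k] k}
    (h : Pf R' R β) : FiniteDimensional k A' ∧ finrank k A' = finrank k A ∧
      Function.Surjective β := by
  have i1 : Function.Injective β := (injective_iff_map_eq_zero _).2 fun u hu =>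
    h.nl u fun v => by rw [hu]; rfl
  have i2 : Function.Injective β.flip := (injective_iff_map_eq_zero _).2 fun u hu =>
    h.nr u fun v => LinearMap.congr_fun hu v
  have fd : FiniteDimensional k A' := FiniteDimensional.of_injective β i1
  have a := LinearMap.finrank_le_finrank_of_injective i1
  have b := LinearMap.finrank_le_finrank_of_injective i2
  rw [Subspace.dual_finrank_eq] at a b
  exact ⟨fd, le_antisymm a b, (LinearMap.injective_iff_surjective_of_finrank_eq_finrank
    (by rw [Subspace.dual_finrank_eq]; omega)).1 i1⟩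

/-- The adjoint of an equivariant map. -/
theorem Pf.adj [FiniteDimensional k A] {A₁' : Type} [AddCommGroup A₁'] [Module k A₁']
    {R' : FR k G A'} {R : FR k G A} {β : A' →ₗ[k] A →ₗ[k] k} (h : Pf R' R β)
    {R₁' : FR k G A₁'} {R₁ : FR k G A₁} {γ : A₁' →ₗ[k] A₁ →ₗ[k] k} (h₁ : Pf R₁' R₁ γ)
    {f : A →ₗ[k] A₁} (hf : Eqv R R₁ f) :
    ∃ f' : A₁' →ₗ[k] A', Eqv R₁' R' f' ∧ ∀ u v, β (f' u) v = γ u (f v) := by
  obtain ⟨s, hs⟩ := β.exists_rightInverse_of_surjective (LinearMap.range_eq_top.2 h.bij.2.2)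
  have e : ∀ u v, β ((s ∘ₗ γ.compl₂ f) u) v = γ u (f v) := fun u v =>
    LinearMap.congr_fun (LinearMap.congr_fun hs (γ.compl₂ f u)) v
  refine ⟨s ∘ₗ γ.compl₂ f, fun g u => sub_eq_zero.1 (h.nl _ fun v => ?_), e⟩
  rw [map_sub, LinearMap.sub_apply, e, ← R.ac_inv g v, h.eq, e, hf, h₁.eq, sub_self]

/-- The dual representation. -/
theorem FR.dual [ContinuousInv G] [FiniteDimensional k A] (R : FR k G A) :
    ∃ R' : FR k G (Dual k A), Pf R' R LinearMap.id ∧ ∀ g, R.ac g = 1 → R'.ac g = 1 := by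
  refine ⟨⟨⟨⟨fun g => (R.ac g⁻¹).dualMap, ?_⟩, fun g h => ?_⟩,
    lc_one (fun M : Module.End k A => M.dualMap) (lc_at R.lc continuous_inv)⟩,
    ⟨fun g u v => ?_, fun u h => LinearMap.ext h,
      fun v h => (forall_dual_apply_eq_zero_iff k v).1 h⟩, fun g hg => ?_⟩
  · ext u v
    simp
  · ext u v
    simp
  · change u (R.ac g⁻¹ (R.ac g v)) = u v
    rw [R.inv_ac]
  · ext u v
    have := R.inv_ac g v
    rw [hg] at this
    exact congrArg u this

theorem Pf.triv {R' : FR k G A'} {R : FR k G A} {β : A' →ₗ[k] A →ₗ[k] k} (h : Pf R' R β) {g : G}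
    (hg : R.ac g = 1) : R'.ac g = 1 := LinearMap.ext fun u => sub_eq_zero.1 (h.nl _ fun v => by
  have := h.eq g u v
  rw [hg] at this
  rw [map_sub, LinearMap.sub_apply]
  exact sub_eq_zero.2 this)

variable (β : A' →ₗ[k] A →ₗ[k] k) (R : FR k G A)

/-- The cup product of two one-cochains. -/
def c11 (y : G → A') (x : G → A) (g h : G) : k := β (y g) (R.ac g (x h))

/-- The cup product of a one-cochain and a two-cochain. -/
def c12 (y : G → A') (ξ : G → G → A) (g h l : G) : k := β (y g) (R.ac g (ξ h l))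

/-- The coboundary of a two-cochain. -/
def d3 (η : G → G → k) (g h l : G) : k := η h l + η (g * h) l + η g (h * l) + η g h

/-- The coboundary of a one-cochain. -/
def dk (f : G → k) (g h : G) : k := f g + f h - f (g * h)

theorem c11_lc {y : G → A'} {x : G → A} (hy : IsLocallyConstant y) (hx : IsLocallyConstant x) :
    LC2 (c11 β R y x) :=
  lc_two (fun u v => β u v) (lc_at hy continuous_fst)
    (R.lc_ac continuous_fst (lc_at hx continuous_snd))

variable [CharP k 2]

theorem cz_iff_d3 {ε : G → G → k} : Cz ε ↔ LC2 ε ∧ ∀ g h l, d3 ε g h l = 0 :=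
  and_congr Iff.rfl (forall₃_congr fun g h l => by unfold d3; constructor <;> intro <;> grind)

variable {β R} {R' : FR k G A'}

theorem d3_c11 (hP : Pf R' R β) {y : G → A'} (hy : y ∈ R'.Z1) (x : G → A) (g h l : G) :
    d3 (c11 β R y x) g h l = c12 β R y (R.d2 x) g h l := by
  have := hP.eq g (y h) (R.ac h (x l))
  simp only [d3, c11, c12, FR.d2, FR.coc hy, map_add, map_sub, LinearMap.add_apply, R.mul]
  grind

theorem cz_c11 (hP : Pf R' R β) {y : G → A'} (hy : y ∈ R'.Z1) {x : G → A} (hx : x ∈ R.Z1) :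
    Cz (c11 β R y x) :=
  cz_iff_d3.2 ⟨c11_lc β R hy.1 hx.1, fun g h l => by
    rw [d3_c11 hP hy, c12, hx.2, map_zero, map_zero]⟩

theorem cz_c02 (hP : Pf R' R β) {u : A'} (hu : u ∈ R'.H0) {ξ : G → G → A} (h : R.Z2 ξ) :
    Cz fun g l => β u (ξ g l) :=
  ⟨lc_one (β u) h.1, fun a b c => by
    beta_reduce
    rw [← hP.eq a u (ξ b c), R'.mem_H0.1 hu, ← map_add, h.2, map_add]⟩

theorem d3_add (η η' : G → G → k) (g h l : G) : d3 (η + η') g h l = d3 η g h l + d3 η' g h l := by
  simp only [d3, Pi.add_apply]; ring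

theorem d3_dk (f : G → k) (g h l : G) : d3 (dk f) g h l = 0 := by
  simp only [d3, dk, mul_assoc]; grind

theorem cz_dk [ContinuousMul G] {f : G → k} (hf : IsLocallyConstant f) : Cz (dk f) :=
  cz_iff_d3.2 ⟨((lc_at hf continuous_fst).add (lc_at hf continuous_snd)).sub
    (lc_at hf continuous_mul), d3_dk f⟩

theorem Sz.cz [ContinuousMul G] {ε : G → G → k} (h : Sz ε) : Cz ε := by
  obtain ⟨f, f1, f2⟩ := h
  rw [show ε = dk f from funext₂ f2]
  exact cz_dk f1

theorem cz_comap {ε : G → G → k} (h : Cz ε) (φ : G' →* G) (hφ : Continuous φ) :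
    Cz fun g l => ε (φ g) (φ l) :=
  ⟨LC2.at h.1 (hφ.comp continuous_fst) (hφ.comp continuous_snd), fun a b c => by
    simp only [map_mul]; exact h.2 _ _ _⟩

theorem sz_comap {ε : G → G → k} (h : Sz ε) (φ : G' →* G) (hφ : Continuous φ) :
    Sz fun g l => ε (φ g) (φ l) := by
  obtain ⟨f, f1, f2⟩ := h
  exact ⟨_, lc_at f1 hφ, fun g l => by simp only [f2, map_mul]⟩

variable (k G) in
/-- The trivial representation. -/
def triv : FR k G k := ⟨1, IsLocallyConstant.const _⟩

theorem triv_z1 {x : G → k} : x ∈ (triv k G).Z1 ↔ x ∈ Hm k G :=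
  and_congr Iff.rfl (forall₂_congr fun _ _ => sub_eq_zero.trans eq_comm)

theorem triv_pf : Pf (triv k G) (triv k G) (LinearMap.mul k k) :=
  ⟨fun _ _ _ => rfl, fun u h => by simpa using h 1, fun u h => by simpa using h 1⟩

end Pool.Agent.BC
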