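import Pool.Agent.Lib.MP_b4b3cb_nt.BC.Coc

/-! Duality for finite modules in characteristic two: the definitions. -/

set_option linter.unusedSectionVars false

namespace Pool.Agent.BC

open scoped Classical
open Module Pool.Agent.SP

variable {k : Type} [Field k] {G : Type} [Group G] [TopologicalSpace G]
  {A A' : Type} [AddCommGroup A] [Module k A] [AddCommGroup A'] [Module k A']

/-- Invariance under right translation by `I`. -/
def Inf {G Y : Type} [Group G] (I : Subgroup G) (f : G → Y) : Prop :=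
  ∀ g, ∀ i ∈ I, f (g * i) = f g

/-- Invariance under right translation by `I` in both variables. -/
def Inf2 {G Y : Type} [Group G] (I : Subgroup G) (ξ : G → G → Y) : Prop :=
  ∀ g h, ∀ i ∈ I, ξ (g * i) h = ξ g h ∧ ξ g (h * i) = ξ g h

theorem sz_smul {ε : G → G → k} (h : Sz ε) (a : k) : Sz (a • ε) := by
  obtain ⟨f, f1, f2⟩ := h
  exact ⟨a • f, f1.comp (a * ·), fun g h => by
    simp only [Pi.smul_apply, smul_eq_mul, f2]; ring⟩

theorem sz_zero : Sz (0 : G → G → k) := ⟨0, IsLocallyConstant.const _, by simp⟩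

theorem sz_congr {ε ε' : G → G → k} (h : Sz ε) (e : ∀ g l, ε g l = ε' g l) : Sz ε' :=
  (funext₂ e : ε = ε') ▸ h

/-- Cocycles that vanish on `I`. -/
def FR.Un (R : FR k G A) (I : Subgroup G) : Submodule k (G → A) where
  carrier := {x | x ∈ R.Z1 ∧ ∀ i ∈ I, x i = 0}
  add_mem' := fun ha hb => ⟨add_mem ha.1 hb.1, fun i hi => by
    rw [Pi.add_apply, ha.2 i hi, hb.2 i hi, add_zero]⟩
  zero_mem' := ⟨zero_mem _, fun _ _ => rfl⟩
  smul_mem' := fun c _ ha => ⟨Submodule.smul_mem _ c ha.1, fun i hi => by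
    rw [Pi.smul_apply, ha.2 i hi, smul_zero]⟩

/-- The annihilator of a space of cocycles. -/
def ann (β : A' →ₗ[k] A →ₗ[k] k) (R' : FR k G A') (R : FR k G A) (Y : Submodule k (G → A)) :
    Submodule k (G → A') where
  carrier := {y | y ∈ R'.Z1 ∧ ∀ x ∈ Y, Sz (c11 β R y x)}
  add_mem' := fun ha hb => ⟨add_mem ha.1 hb.1, fun x hx =>
    sz_congr ((ha.2 x hx).add (hb.2 x hx)) fun g l => by simp [c11]⟩
  zero_mem' := ⟨zero_mem _, fun x _ => sz_congr sz_zero fun g l => by simp [c11]⟩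
  smul_mem' := fun c _ ha => ⟨Submodule.smul_mem _ c ha.1, fun x hx =>
    sz_congr (sz_smul (ha.2 x hx) c) fun g l => by simp [c11]⟩

variable (k) in
/-- The permutation representation. -/
def perm (X : Type) [MulAction G X] (h : IsLocallyConstant (MulAction.toPermHom G X)) :
    FR k G (X → k) where
  ac :=
    { toFun := fun g => LinearMap.funLeft k k fun x => g⁻¹ • x
      map_one' := by ext; simp
      map_mul' := fun g l => by ext; simp [mul_smul] }
  lc := lc_one (fun s : Equiv.Perm X => LinearMap.funLeft k k fun x => s.symm x) h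

theorem perm_ac {X : Type} [MulAction G X] (h : IsLocallyConstant (MulAction.toPermHom G X))
    (g : G) (φ : X → k) (x : X) : (perm k X h).ac g φ x = φ (g⁻¹ • x) := rfl

/-- Three-cocycles. -/
def Z3 (z : G → G → G → k) : Prop :=
  LC3 z ∧ ∀ g h l m, z h l m + z (g * h) l m + z g (h * l) m + z g h (l * m) + z g h l = 0

/-- Three-coboundaries. -/
def B3 (z : G → G → G → k) : Prop :=
  ∃ η : G → G → k, LC2 η ∧ ∀ g h l, d3 η g h l = z g h l

variable (G) in
/-- Local duality for the field with two elements. -/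
structure L0 : Prop where
  two : Two G
  nd : ∀ a ∈ Hm (ZMod 2) G, (∀ b ∈ Hm (ZMod 2) G, Sz (cup a b)) → a = 0
  fin : Finite (Hm (ZMod 2) G)

variable (G) in
/-- A local group. -/
structure LF : Prop where
  sub : ∀ D : Subgroup G, IsOpen (D : Set G) → L0 D
  top : L0 G
  ex : ∃ a ∈ Hm (ZMod 2) G, a ≠ 0

variable (k G) in
/-- Local duality for all finite modules. -/
structure LDm : Prop where
  fin : ∀ {A : Type} [AddCommGroup A] [Module k A] [FiniteDimensional k A] (R : FR k G A),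
    FiniteDimensional k R.Z1
  one : ∀ {A A' : Type} [AddCommGroup A] [Module k A] [FiniteDimensional k A] [AddCommGroup A']
    [Module k A'] {R' : FR k G A'} {R : FR k G A} {β : A' →ₗ[k] A →ₗ[k] k}, Pf R' R β →
    ∀ x ∈ R.Z1, (∀ y ∈ R'.Z1, Sz (c11 β R y x)) → x ∈ R.B1
  two : ∀ {A A' : Type} [AddCommGroup A] [Module k A] [FiniteDimensional k A] [AddCommGroup A']
    [Module k A'] {R' : FR k G A'} {R : FR k G A} {β : A' →ₗ[k] A →ₗ[k] k}, Pf R' R β →
    ∀ ξ, R.Z2 ξ → (∀ u ∈ R'.H0, Sz fun g h => β u (ξ g h)) → R.B2 ξ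

/-- The quotient by `I` is procyclic, generated by `σ`, of order divisible by all powers of two;
the open subgroups have at most two independent characters. -/
structure PC (I : Subgroup G) (σ : G) : Prop where
  nor : I.Normal
  gen : ∀ U : Subgroup G, IsOpen (U : Set G) → I ≤ U → σ ∈ U → U = ⊤
  div : ∀ a : ℕ, ∃ U : Subgroup G, IsOpen (U : Set G) ∧ U.Normal ∧ I ≤ U ∧
    ∀ j : ℕ, σ ^ j ∈ U → 2 ^ a ∣ j
  rk : ∀ H : Subgroup G, IsOpen (H : Set G) → Nat.card (Hm (ZMod 2) H) ≤ 4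

variable (k) in
/-- The unramified classes at an odd place. -/
structure MI (I : Subgroup G) (σ : G) : Prop where
  nor : I.Normal
  gen : ∀ U : Subgroup G, IsOpen (U : Set G) → I ≤ U → σ ∈ U → U = ⊤
  u0 : ∀ {A : Type} [AddCommGroup A] [Module k A] (R : FR k G A) (ξ : G → G → A) (a : A),
    R.Z2 ξ → Inf2 I ξ → (∀ g h, ∀ i ∈ I, R.ac i (ξ g h) = ξ g h) → (∀ i ∈ I, R.ac i a = a) →
    ∃ φ, IsLocallyConstant φ ∧ Inf I φ ∧ φ σ = a ∧ ∀ g h, ξ g h = R.d2 φ g h
  dimU : ∀ {A : Type} [AddCommGroup A] [Module k A] [FiniteDimensional k A] (R : FR k G A),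
    finrank k (R.Un I ⊔ R.B1 : Submodule k _) = finrank k A
  dimZ : ∀ {A A' : Type} [AddCommGroup A] [Module k A] [FiniteDimensional k A] [AddCommGroup A']
    [Module k A'] {R' : FR k G A'} {R : FR k G A} {β : A' →ₗ[k] A →ₗ[k] k}, Pf R' R β →
    finrank k R.Z1 = finrank k A + finrank k R'.H0
  ann : ∀ {A A' : Type} [AddCommGroup A] [Module k A] [FiniteDimensional k A] [AddCommGroup A']
    [Module k A'] {R' : FR k G A'} {R : FR k G A} {β : A' →ₗ[k] A →ₗ[k] k}, Pf R' R β →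
    ann β R' R (R.Un I) = R'.Un I ⊔ R'.B1

variable {P : Type} (D I : P → Subgroup G)

/-- Global cocycles that are unramified outside `S`. -/
def FR.UnS (R : FR k G A) (S : Finset P) : Submodule k (G → A) where
  carrier := {x | x ∈ R.Z1 ∧ ∀ v ∉ S, ∀ i ∈ I v, x i = 0}
  add_mem' := fun ha hb => ⟨add_mem ha.1 hb.1, fun v hv i hi => by
    rw [Pi.add_apply, ha.2 v hv i hi, hb.2 v hv i hi, add_zero]⟩
  zero_mem' := ⟨zero_mem _, fun _ _ _ _ => rfl⟩
  smul_mem' := fun c _ ha => ⟨Submodule.smul_mem _ c ha.1, fun v hv i hi => by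
    rw [Pi.smul_apply, ha.2 v hv i hi, smul_zero]⟩

variable {D} in
/-- Local conditions, unramified outside `S`. -/
structure Cd (R : FR k G A) (Y : ∀ v, Submodule k (D v → A)) (S : Finset P) : Prop where
  b1 : ∀ v, (R.res (D v)).B1 ≤ Y v
  z1 : ∀ v, Y v ≤ (R.res (D v)).Z1
  un : ∀ v ∉ S, Y v = (R.res (D v)).Un ((I v).subgroupOf (D v))

variable {D} in
/-- The Selmer cocycles. -/
def FR.Sel (R : FR k G A) (Y : ∀ v, Submodule k (D v → A)) : Submodule k (G → A) where
  carrier := {x | x ∈ R.Z1 ∧ ∀ v, (fun g : D v => x g) ∈ Y v}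
  add_mem' := fun ha hb => ⟨add_mem ha.1 hb.1, fun v => add_mem (ha.2 v) (hb.2 v)⟩
  zero_mem' := ⟨zero_mem _, fun _ => zero_mem _⟩
  smul_mem' := fun c _ ha => ⟨Submodule.smul_mem _ c ha.1, fun v => Submodule.smul_mem _ c (ha.2 v)⟩

variable {D} in
/-- A global two-cocycle with local trivialisations. -/
structure Dat (R : FR k G A) (ξ : G → G → A) (f : ∀ v, D v → A) : Prop where
  z2 : R.Z2 ξ
  lc : ∀ v, IsLocallyConstant (f v)
  df : ∀ v (g h : D v), ξ g h = (R.res (D v)).d2 (f v) g h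
  ae : ∃ S : Finset P, ∀ v ∉ S, Inf ((I v).subgroupOf (D v)) (f v)

variable {D} in
/-- The local terms of the pairing. -/
def pl (β : A' →ₗ[k] A →ₗ[k] k) (R : FR k G A) (η : G → G → k) (y : G → A') (f : ∀ v, D v → A)
    (v : P) (g h : D v) : k := η g h + c11 β (R.res (D v)) (fun g => y g) (f v) g h

variable [Finite k] [Algebra (ZMod 2) k]

variable {D} in
/-- `e` is a value of the pairing of a datum with a cocycle. -/
def PV (β : A' →ₗ[k] A →ₗ[k] k) (R : FR k G A) (ξ : G → G → A) (f : ∀ v, D v → A) (y : G → A')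
    (e : k) : Prop :=
  ∃ (η : G → G → k) (S : Finset P), LC2 η ∧ (∀ g h l, d3 η g h l = c12 β R y ξ g h l) ∧
    (∀ v ∉ S, Sz (pl β R η y f v)) ∧ e = ∑ v ∈ S, invK (pl β R η y f v)

variable (k) in
/-- The global data that do not involve modules. -/
structure G0 (S₂ : Finset P) : Prop where
  le : ∀ v, I v ≤ D v
  two : ∀ v, Two (D v)
  ld : ∀ v, LDm k (D v)
  mi : ∀ v ∉ S₂, ∃ σ, MI k ((I v).subgroupOf (D v)) σ
  finI : ∀ U ∈ nhds (1 : G), {v | ¬ (I v : Set G) ⊆ U}.Finite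
  recip : ∀ ε : G → G → k, Cz ε → ∀ S : Finset P, (∀ v ∉ S, Sz fun g h : D v => ε g h) →
    ∑ v ∈ S, invK (fun g h : D v => ε g h) = 0
  h3 : ∀ z : G → G → G → k, Z3 z → (∀ v, B3 fun g h l : D v => z g h l) → B3 z

/-- The three global facts for a self-dual module. -/
structure Base (R : FR k G A) (β : A →ₗ[k] A →ₗ[k] k) : Prop where
  abhn : ∀ ξ, R.Z2 ξ → (∀ v, (R.res (D v)).B2 fun g h => ξ g h) → R.B2 ξ
  fin : ∀ S : Finset P, FiniteDimensional k (R.UnS I S)
  lag : ∀ S₀ : Finset P, ∃ S : Finset P, S₀ ⊆ S ∧ ∀ b : ∀ v, D v → A,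
    (∀ v ∈ S, b v ∈ (R.res (D v)).Z1) →
    (∀ y ∈ R.UnS I S, ∑ v ∈ S, invK (c11 β (R.res (D v)) (fun g => y g) (b v)) = 0) →
    ∃ z ∈ R.UnS I S, ∀ v ∈ S, ((fun g : D v => z g) - b v) ∈ (R.res (D v)).B1

variable (k) in
/-- The global facts for the permutation modules. -/
def BaseP : Prop :=
  ∀ (H : Subgroup G) [Fintype (G ⧸ H)] (h : IsLocallyConstant (MulAction.toPermHom G (G ⧸ H))),
    Base D I (perm k (G ⧸ H) h) (dotProductBilin k k)

variable (k) in
/-- The duality of Poitou and Tate. -/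
structure GP (S₂ : Finset P) : Prop extends G0 k D I S₂ where
  fin : ∀ {A : Type} [AddCommGroup A] [Module k A] [FiniteDimensional k A] (R : FR k G A)
    (S : Finset P), FiniteDimensional k (R.UnS I S)
  pt : ∀ {A A' : Type} [AddCommGroup A] [Module k A] [FiniteDimensional k A] [AddCommGroup A']
    [Module k A'] {R' : FR k G A'} {R : FR k G A} {β : A' →ₗ[k] A →ₗ[k] k}, Pf R' R β →
    ∀ {Y : ∀ v, Submodule k (D v → A)} {S : Finset P}, S₂ ⊆ S → Cd I R Y S →
    ∀ {ξ : G → G → A} {f : ∀ v, D v → A}, Dat I R ξ f →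
    (∀ y ∈ R'.Sel fun v => ann β (R'.res (D v)) (R.res (D v)) (Y v), PV β R ξ f y 0) →
    ∃ φ, IsLocallyConstant φ ∧ (∀ g h, ξ g h = R.d2 φ g h) ∧
      ∀ v, ((fun g : D v => φ g) - f v) ∈ Y v

end Pool.Agent.BC
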