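import Pool.Agent.Lib.MP_b4b3cb_nt.BC.Ann

/-! The pairing of a global two-cocycle with local trivialisations and a global cocycle. -/

set_option linter.unusedSectionVars false

namespace Pool.Agent.BC

open scoped Classical
open Module Pool.Agent.SP

variable {k : Type} [Field k] [Finite k] [CharP k 2] [Algebra (ZMod 2) k]
  {G : Type} [Group G] [TopologicalSpace G] [IsTopologicalGroup G] [CompactSpace G]
  {A A' A₁ A₁' A₂ A₂' : Type} [AddCommGroup A] [Module k A] [AddCommGroup A'] [Module k A']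
  [AddCommGroup A₁] [Module k A₁] [AddCommGroup A₁'] [Module k A₁']
  [AddCommGroup A₂] [Module k A₂] [AddCommGroup A₂'] [Module k A₂']
  {P : Type} {D I : P → Subgroup G} {S₂ : Finset P}
  {β : A' →ₗ[k] A →ₗ[k] k} {R : FR k G A} {R' : FR k G A'}
  {γ : A₁' →ₗ[k] A₁ →ₗ[k] k} {R₁ : FR k G A₁} {R₁' : FR k G A₁'}
  {δ : A₂' →ₗ[k] A₂ →ₗ[k] k} {R₂ : FR k G A₂} {R₂' : FR k G A₂'}

/-- `e` is the sum of the invariants of a family of local cocycles. -/
def Sm (ε : ∀ v, D v → D v → k) (e : k) : Prop :=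
  ∃ S : Finset P, (∀ v ∉ S, Sz (ε v)) ∧ e = ∑ v ∈ S, invK (ε v)

section

variable {ε ε' : ∀ v, D v → D v → k} {e e' : k}

theorem sum_big {S T : Finset P} (h : ∀ v ∉ S, Sz (ε v)) (le : S ⊆ T) :
    ∑ v ∈ S, invK (ε v) = ∑ v ∈ T, invK (ε v) :=
  Finset.sum_subset le fun v _ hv => invK_sz (h v hv)

theorem Sm.big (h : Sm ε e) (T : Finset P) :
    ∃ S, T ⊆ S ∧ (∀ v ∉ S, Sz (ε v)) ∧ e = ∑ v ∈ S, invK (ε v) := by
  obtain ⟨S, a, b⟩ := h
  exact ⟨T ∪ S, Finset.subset_union_left, fun v hv => a v fun q => hv (Finset.mem_union_right _ q),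
    b.trans (sum_big a Finset.subset_union_right)⟩

theorem Sm.eq_sum (h : Sm ε e) {T : Finset P} (hT : ∀ v ∉ T, Sz (ε v)) :
    e = ∑ v ∈ T, invK (ε v) := by
  obtain ⟨S, a, -, c⟩ := h.big T
  exact c.trans (sum_big hT a).symm

theorem Sm.add (H : ∀ v, Two (D v)) (c : ∀ v, Cz (ε v)) (c' : ∀ v, Cz (ε' v)) (h : Sm ε e)
    (h' : Sm ε' e') : Sm (ε + ε') (e + e') := by
  obtain ⟨T, a', b'⟩ := h'
  obtain ⟨S, le, a, b⟩ := h.big T
  refine ⟨S, fun v hv => (a v hv).add (a' v fun q => hv (le q)), ?_⟩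
  rw [b, b', sum_big a' le, ← Finset.sum_add_distrib]
  exact Finset.sum_congr rfl fun v _ => (invK_add (H v) (c v) (c' v)).symm

theorem Sm.smul (H : ∀ v, Two (D v)) (c : ∀ v, Cz (ε v)) (h : Sm ε e) (a : k) :
    Sm (a • ε) (a * e) := by
  obtain ⟨S, p, q⟩ := h
  refine ⟨S, fun v hv => sz_smul (p v hv) a, ?_⟩
  rw [q, Finset.mul_sum]
  exact Finset.sum_congr rfl fun v _ => (invK_smul (H v) a (c v)).symm

theorem Sm.of_sz (h : ∀ v, Sz (ε v)) : Sm ε 0 := ⟨∅, fun v _ => h v, rfl⟩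

theorem Sm.congr (H : ∀ v, Two (D v)) (c : ∀ v, Cz (ε v)) (h : Sm ε e)
    (s : ∀ v, Sz (ε v + ε' v)) : Sm ε' e := by
  have := h.add (ε' := ε + ε') H c (fun v => Sz.cz (s v)) (Sm.of_sz (ε := ε + ε') s)
  rwa [add_zero, show ε + (ε + ε') = ε' from funext fun v => add_add_cancel2 _ _] at this

theorem G0.sm (h : G0 k D I S₂) {η : G → G → k} (c : Cz η)
    (s : Sm (D := D) (fun _ g l => η g l) e) : e = 0 := by
  obtain ⟨S, a, b⟩ := s
  exact b.trans (h.recip η c S a)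

end

variable {ξ ξ' : G → G → A} {f f' : ∀ v, D v → A} {y y' : G → A'} {e e' : k}

theorem pv_iff : PV β R ξ f y e ↔ ∃ η : G → G → k, LC2 η ∧
    (∀ g h l, d3 η g h l = c12 β R y ξ g h l) ∧ Sm (pl β R η y f) e :=
  ⟨fun ⟨η, S, a, b, c⟩ => ⟨η, a, b, S, c⟩, fun ⟨η, a, b, S, c⟩ => ⟨η, S, a, b, c⟩⟩

theorem LC2.res {Y : Type} {η : G → G → Y} (h : LC2 η) (E : Subgroup G) :
    LC2 fun g l : E => η g l :=
  h.at (continuous_subtype_val.comp continuous_fst) (continuous_subtype_val.comp continuous_snd)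

theorem Dat.add (d : Dat I R ξ f) (d' : Dat I R ξ' f') : Dat I R (ξ + ξ') (f + f') := by
  obtain ⟨S, a⟩ := d.ae
  obtain ⟨T, b⟩ := d'.ae
  refine ⟨d.z2.add d'.z2, fun v => (d.lc v).add (d'.lc v), fun v g h => ?_, S ∪ T,
    fun v hv g i hi => ?_⟩
  · rw [Pi.add_apply f, FR.d2_add, ← d.df, ← d'.df]; rfl
  · rw [Finset.mem_union, not_or] at hv
    simp only [Pi.add_apply, a v hv.1 g i hi, b v hv.2 g i hi]

theorem Dat.smul (d : Dat I R ξ f) (a : k) : Dat I R (a • ξ) (a • f) := by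
  obtain ⟨S, b⟩ := d.ae
  refine ⟨d.z2.smul a, fun v => (d.lc v).comp (a • ·), fun v g h => ?_, S, fun v hv g i hi => ?_⟩
  · rw [Pi.smul_apply a f, FR.d2_smul, ← d.df]; rfl
  · simp only [Pi.smul_apply, b v hv g i hi]

/-- A locally constant function is unramified at almost all places. -/
theorem G0.ae (h : G0 k D I S₂) {U : Subgroup G} (hU : IsOpen (U : Set G)) :
    ∃ S : Finset P, ∀ v ∉ S, I v ≤ U :=
  ⟨(h.finI U (hU.mem_nhds U.one_mem)).toFinset, fun v hv => by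
    by_contra q
    exact hv (by simpa using q)⟩

theorem G0.ae_inf (h : G0 k D I S₂) {Y : Type} {φ : G → Y} (hφ : IsLocallyConstant φ) :
    ∃ S : Finset P, ∀ v ∉ S, Inf (I v) φ := by
  obtain ⟨U, a, -, b⟩ := unif1 hφ
  obtain ⟨S, c⟩ := h.ae a
  exact ⟨S, fun v hv => b.mono (c v hv)⟩

theorem G0.ram (h : G0 k D I S₂) (R : FR k G A) :
    ∃ S : Finset P, ∀ v ∉ S, ∀ i ∈ I v, R.ac i = 1 := h.ae R.ker_open

theorem G0.dat_cob (h : G0 k D I S₂) {φ : G → A} (hφ : IsLocallyConstant φ) :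
    Dat (D := D) I R (R.d2 φ) fun _ g => φ g := by
  obtain ⟨S, a⟩ := h.ae_inf hφ
  exact ⟨R.z2_d2 hφ, fun v => lc_at hφ continuous_subtype_val, fun _ _ _ => rfl, S,
    fun v hv g i hi => a v hv g i hi⟩

theorem dat_loc {t : ∀ v, D v → A} (z : ∀ v, t v ∈ (R.res (D v)).Z1) {S : Finset P}
    (u : ∀ v ∉ S, t v ∈ (R.res (D v)).Un ((I v).subgroupOf (D v))) : Dat I R 0 t :=
  ⟨⟨IsLocallyConstant.const _, by simp⟩, fun v => (z v).1, fun v g l => ((z v).2 g l).symm,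
    S, fun v hv => (FR.inf_iff (z v)).2 (u v hv).2⟩

theorem Cd.dat {Y : ∀ v, Submodule k (D v → A)} {S : Finset P} (c : Cd I R Y S)
    {t : ∀ v, D v → A} (ht : ∀ v, t v ∈ Y v) : Dat I R 0 t :=
  dat_loc (fun v => c.z1 v (ht v)) fun v hv => c.un v hv ▸ ht v

theorem Dat.map (d : Dat I R ξ f) {F : A →ₗ[k] A₁} (hF : Eqv R R₁ F) :
    Dat I R₁ (fun g h => F (ξ g h)) fun v g => F (f v g) := by
  obtain ⟨S, a⟩ := d.ae
  exact ⟨hF.z2 d.z2, fun v => lc_one F (d.lc v), fun v g h => by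
    rw [(hF.res (D v)).d2, d.df], S, fun v hv g i hi => congrArg F (a v hv g i hi)⟩

theorem Dat.of_map {F : A →ₗ[k] A₁} (hF : Eqv R R₁ F) (inj : Function.Injective F)
    (d : Dat I R₁ (fun g h => F (ξ g h)) fun v g => F (f v g)) : Dat I R ξ f := by
  obtain ⟨S, a⟩ := d.ae
  exact ⟨hF.z2_of inj d.z2, fun v => (d.lc v).desc _ F inj, fun v g h =>
    inj ((d.df v g h).trans ((hF.res (D v)).d2 _ g h)), S, fun v hv g i hi => inj (a v hv g i hi)⟩

theorem cz_pl (hP : Pf R' R β) (hy : y ∈ R'.Z1) (d : Dat I R ξ f) {η : G → G → k} (l : LC2 η)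
    (q : ∀ g h l, d3 η g h l = c12 β R y ξ g h l) (v : P) : Cz (pl β R η y f v) :=
  cz_iff_d3.2 ⟨(l.res (D v)).add (c11_lc β _ (FR.res_z1 hy _).1 (d.lc v)), fun g h m => by
    have a := d3_add (fun g h : D v => η g h) (c11 β (R.res (D v)) (fun g => y g) (f v)) g h m
    rw [d3_c11 (hP.res _) (FR.res_z1 hy _), c12, ← d.df] at a
    exact a.trans ((congrArg (· + _) (q g h m)).trans (CharTwo.add_self_eq_zero _))⟩

theorem z3_c12 (hP : Pf R' R β) (hy : y ∈ R'.Z1) (z : R.Z2 ξ) : Z3 (c12 β R y ξ) :=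
  ⟨lc_two (fun u v => β u v) (lc_at hy.1 continuous_fst)
    (R.lc_ac continuous_fst (z.1.at (by fun_prop) (by fun_prop))), fun g h l m => by
    have a := hP.eq g (y h) (R.ac h (ξ l m))
    have b := congrArg (fun u => β (y g) (R.ac g u)) (z.2 h l m)
    simp only [c12, FR.coc hy, map_add, LinearMap.add_apply, R.mul] at b ⊢
    grind⟩

/-- The pairing has a value. -/
theorem PV.ex (h : G0 k D I S₂) (hP : Pf R' R β) (hy : y ∈ R'.Z1) (d : Dat I R ξ f) :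
    ∃ e, PV β R ξ f y e := by
  obtain ⟨η, l, q⟩ := h.h3 _ (z3_c12 hP hy d.z2) fun v =>
    ⟨_, c11_lc β _ (FR.res_z1 hy (D v)).1 (d.lc v), fun g l m => by
      rw [d3_c11 (hP.res _) (FR.res_z1 hy _), c12, ← d.df]; rfl⟩
  obtain ⟨U, u1, -, u2⟩ := unif2 l
  obtain ⟨S1, s1⟩ := h.ae u1
  obtain ⟨S3, s3⟩ := h.ae_inf hy.1
  obtain ⟨S4, s4⟩ := h.ram R
  obtain ⟨S5, s5⟩ := d.ae
  refine ⟨_, η, S₂ ∪ S1 ∪ S3 ∪ S4 ∪ S5, l, q, fun v hv => ?_, rfl⟩
  simp only [Finset.mem_union, not_or] at hv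
  obtain ⟨σ, m⟩ := h.mi v hv.1.1.1.1
  refine m.sz (cz_pl hP hy d l q v) fun g l i hi => ?_
  have a := u2 g l i (s1 v hv.1.1.1.2 hi)
  constructor
  · simp only [pl, c11, FR.res_ac, Subgroup.coe_mul, a.1, s3 v hv.1.1.2 g i hi, map_mul,
      s4 v hv.1.2 i hi, mul_one]
  · simp only [pl, c11, Subgroup.coe_mul, a.2, s5 v hv.2 l i hi]

theorem PV.add (h : G0 k D I S₂) (hP : Pf R' R β) (hy : y ∈ R'.Z1) (d : Dat I R ξ f)
    (d' : Dat I R ξ' f') (p : PV β R ξ f y e) (p' : PV β R ξ' f' y e') :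
    PV β R (ξ + ξ') (f + f') y (e + e') := by
  obtain ⟨η, l, q, s⟩ := pv_iff.1 p
  obtain ⟨η', l', q', s'⟩ := pv_iff.1 p'
  refine pv_iff.2 ⟨η + η', l.add l', fun g l m => by rw [d3_add, q, q']; simp [c12], ?_⟩
  convert s.add h.two (cz_pl hP hy d l q) (cz_pl hP hy d' l' q') s' using 1
  ext v g l
  simp only [pl, c11, Pi.add_apply, map_add]
  ring

theorem PV.add_y (h : G0 k D I S₂) (hP : Pf R' R β) (hy : y ∈ R'.Z1) (hy' : y' ∈ R'.Z1)
    (d : Dat I R ξ f) (p : PV β R ξ f y e) (p' : PV β R ξ f y' e') :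
    PV β R ξ f (y + y') (e + e') := by
  obtain ⟨η, l, q, s⟩ := pv_iff.1 p
  obtain ⟨η', l', q', s'⟩ := pv_iff.1 p'
  refine pv_iff.2 ⟨η + η', l.add l', fun g l m => by rw [d3_add, q, q']; simp [c12], ?_⟩
  convert s.add h.two (cz_pl hP hy d l q) (cz_pl hP hy' d l' q') s' using 1
  ext v g l
  simp only [pl, c11, Pi.add_apply, map_add, LinearMap.add_apply]
  ring

theorem PV.smul (h : G0 k D I S₂) (hP : Pf R' R β) (hy : y ∈ R'.Z1) (d : Dat I R ξ f)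
    (p : PV β R ξ f y e) (a : k) : PV β R (a • ξ) (a • f) y (a * e) := by
  obtain ⟨η, l, q, s⟩ := pv_iff.1 p
  refine pv_iff.2 ⟨a • η, l.comp (a * ·), fun g l m => ?_, ?_⟩
  · have := q g l m
    simp only [d3, c12, Pi.smul_apply, map_smul, smul_eq_mul] at this ⊢
    rw [← this]; ring
  · convert s.smul h.two (cz_pl hP hy d l q) a using 1
    ext v g l
    simp only [pl, c11, Pi.smul_apply, map_smul, smul_eq_mul]
    ring

theorem PV.smul_y (h : G0 k D I S₂) (hP : Pf R' R β) (hy : y ∈ R'.Z1) (d : Dat I R ξ f)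
    (p : PV β R ξ f y e) (a : k) : PV β R ξ f (a • y) (a * e) := by
  obtain ⟨η, l, q, s⟩ := pv_iff.1 p
  refine pv_iff.2 ⟨a • η, l.comp (a * ·), fun g l m => ?_, ?_⟩
  · have := q g l m
    simp only [d3, c12, Pi.smul_apply, map_smul, smul_eq_mul, LinearMap.smul_apply] at this ⊢
    rw [← this]; ring
  · convert s.smul h.two (cz_pl hP hy d l q) a using 1
    ext v g l
    simp only [pl, c11, Pi.smul_apply, map_smul, smul_eq_mul, LinearMap.smul_apply]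
    ring

/-- The value is unique. -/
theorem PV.uniq (h : G0 k D I S₂) (hP : Pf R' R β) (hy : y ∈ R'.Z1) (d : Dat I R ξ f)
    (p : PV β R ξ f y e) (p' : PV β R ξ f y e') : e = e' := by
  obtain ⟨η, l, q, s⟩ := pv_iff.1 p
  obtain ⟨η', l', q', s'⟩ := pv_iff.1 p'
  refine CharTwo.add_eq_zero.1 (h.sm (η := η + η') (cz_iff_d3.2 ⟨l.add l', fun g l m => by
    rw [d3_add, q, q', CharTwo.add_self_eq_zero]⟩) ?_)
  convert s.add h.two (cz_pl hP hy d l q) (cz_pl hP hy d l' q') s' using 1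
  ext v g l
  simp only [pl, Pi.add_apply]
  grind

/-- Change of the datum by a global cochain. -/
theorem PV.cob (hP : Pf R' R β) (hy : y ∈ R'.Z1) (p : PV β R ξ f y e) {φ : G → A}
    (hφ : IsLocallyConstant φ) (e1 : ∀ g h, ξ' g h = ξ g h + R.d2 φ g h)
    (e2 : ∀ v g, f' v g = f v g + φ g) : PV β R ξ' f' y e := by
  obtain ⟨η, l, q, s⟩ := pv_iff.1 p
  refine pv_iff.2 ⟨η + c11 β R y φ, l.add (c11_lc β R hy.1 hφ), fun g l m => by
    rw [d3_add, q, d3_c11 hP hy]; simp [c12, e1], ?_⟩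
  convert s using 1
  ext v g l
  simp only [pl, c11, Pi.add_apply, e2, map_add, FR.res_ac]
  grind

/-- The value on a family of local cocycles. -/
theorem PV.loc {t : ∀ v, D v → A}
    (s : Sm (fun v => c11 β (R.res (D v)) (fun g => y g) (t v)) e) : PV β R 0 t y e :=
  pv_iff.2 ⟨0, IsLocallyConstant.const _, fun g l m => by simp [d3, c12], by
    convert s using 1
    ext v g l
    simp [pl]⟩

theorem PV.loc0 {Y : ∀ v, Submodule k (D v → A)} {t : ∀ v, D v → A} (ht : ∀ v, t v ∈ Y v)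
    (hy : y ∈ R'.Sel fun v => ann β (R'.res (D v)) (R.res (D v)) (Y v)) : PV β R 0 t y 0 :=
  PV.loc (Sm.of_sz fun v => (hy.2 v).2 _ (ht v))

/-- Change of the local trivialisations by local cocycles. -/
theorem PV.chg (h : G0 k D I S₂) (hP : Pf R' R β) (hy : y ∈ R'.Z1) (d : Dat I R ξ f)
    (p : PV β R ξ f y e) {t : ∀ v, D v → A} (dt : Dat I R 0 t)
    (s : Sm (fun v => c11 β (R.res (D v)) (fun g => y g) (t v)) e') :
    PV β R ξ (f + t) y (e + e') := by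
  have := p.add h hP hy d dt (PV.loc s)
  rwa [add_zero] at this

theorem PV.chg0 (h : G0 k D I S₂) (hP : Pf R' R β) {Y : ∀ v, Submodule k (D v → A)}
    {S : Finset P} (c : Cd I R Y S)
    (hy : y ∈ R'.Sel fun v => ann β (R'.res (D v)) (R.res (D v)) (Y v)) (d : Dat I R ξ f)
    (p : PV β R ξ f y e) {t : ∀ v, D v → A} (ht : ∀ v, t v ∈ Y v) : PV β R ξ (f + t) y e := by
  have := p.chg h hP hy.1 d (c.dat ht) (Sm.of_sz fun v => (hy.2 v).2 _ (ht v))
  rwa [add_zero] at this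

/-- A solvable datum pairs to zero. -/
theorem PV.of_sol (hP : Pf R' R β) {Y : ∀ v, Submodule k (D v → A)}
    (hy : y ∈ R'.Sel fun v => ann β (R'.res (D v)) (R.res (D v)) (Y v)) {φ : G → A}
    (hφ : IsLocallyConstant φ) (e1 : ∀ g h, ξ g h = R.d2 φ g h)
    (e2 : ∀ v, ((fun g : D v => φ g) - f v) ∈ Y v) : PV β R ξ f y 0 :=
  (PV.loc0 e2 hy).cob hP hy.1 hφ (fun g l => by simp [e1]) fun v g => by
    rw [Pi.sub_apply, sub_eq k, add_right_comm, add_self (k := k), zero_add]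

/-- Adjoint maps. -/
theorem PV.adj {F : A →ₗ[k] A₁} {F' : A₁' →ₗ[k] A'} (hF : Eqv R R₁ F)
    (q : ∀ u v, β (F' u) v = γ u (F v)) {z : G → A₁'} :
    PV β R ξ f (fun g => F' (z g)) e ↔
      PV γ R₁ (fun g h => F (ξ g h)) (fun v g => F (f v g)) z e := by
  have a : c12 β R (fun g => F' (z g)) ξ = c12 γ R₁ z fun g h => F (ξ g h) := by
    ext g h l
    simp only [c12, q, hF g]
  have b : ∀ η, pl β R η (fun g => F' (z g)) f = pl γ R₁ η z fun v g => F (f v g) := fun η => by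
    ext v g h
    simp only [pl, c11, q, FR.res_ac, hF g]
  simp only [PV, a, b]

/-- The pairing as a linear functional. -/
theorem PV.lin (h : G0 k D I S₂) (hP : Pf R' R β) (d : Dat I R ξ f) :
    ∃ l : R'.Z1 →ₗ[k] k, ∀ y : R'.Z1, PV β R ξ f y (l y) := by
  choose l hl using fun y : R'.Z1 => PV.ex h hP y.2 d
  exact ⟨⟨⟨l, fun a b => (hl (a + b)).uniq h hP (a + b).2 d ((hl a).add_y h hP a.2 b.2 d (hl b))⟩,
    fun c a => (hl (c • a)).uniq h hP (c • a).2 d ((hl a).smul_y h hP a.2 d c)⟩, hl⟩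

theorem d3_c11' (hP : Pf R' R β) (y : G → A') (x : G → A) (g h l : G) :
    d3 (c11 β R y x) g h l =
      c12 β R y (R.d2 x) g h l + β (R'.d2 y g h) (R.ac (g * h) (x l)) := by
  have := hP.eq g (y h) (R.ac h (x l))
  simp only [d3, c11, c12, FR.d2, map_add, map_sub, LinearMap.add_apply, LinearMap.sub_apply,
    R.mul]
  grind

theorem d3_kap (hP : Pf R' R β) {ζ : G → G → A'} (z : R'.Z2 ζ) {x : G → A} (hx : x ∈ R.Z1)
    (g h l : G) : d3 (fun g h => β (ζ g h) (x (g * h))) g h l =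
      c12 β.flip R' x ζ g h l + β (ζ g h) (R.ac (g * h) (x l)) := by
  have c1 := hP.eq g (ζ h l) (x (h * l))
  have c2 := congrArg (β (ζ g h)) (FR.coc hx (g * h) l)
  have c3 := congrArg (β (R'.ac g (ζ h l))) (FR.coc hx g (h * l))
  have c4 := congrArg (fun u => β u (x (g * (h * l)))) (z.2 g h l)
  simp only [d3, c12, map_add, LinearMap.add_apply, LinearMap.flip_apply, mul_assoc] at *
  grind

/-- The pairing attached to an exact sequence and its dual is symmetric. -/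
theorem PV.symm (h : G0 k D I S₂) (hP : Pf R' R β) (hP₁ : Pf R₁' R₁ γ) (hP₂ : Pf R₂' R₂ δ)
    {i : A₁ →ₗ[k] A} {p : A →ₗ[k] A₂} {i' : A' →ₗ[k] A₁'} {p' : A₂' →ₗ[k] A'}
    (hi : Eqv R₁ R i) (hp : Eqv R R₂ p) (hp' : Eqv R₂' R' p') (pi : ∀ a, p (i a) = 0)
    (ei : ∀ u v, γ (i' u) v = β u (i v)) (ep : ∀ u v, β (p' u) v = δ u (p v))
    {x : G → A} (lx : IsLocallyConstant x) (zx : (fun g => p (x g)) ∈ R₂.Z1)
    (ly : IsLocallyConstant y) (zy : (fun g => i' (y g)) ∈ R₁'.Z1)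
    {ξ₁ : G → G → A₁} {f₁ : ∀ v, D v → A₁} (d₁ : Dat I R₁ ξ₁ f₁)
    {ξ₂ : G → G → A₂'} {f₂ : ∀ v, D v → A₂'} (z₂ : R₂'.Z2 ξ₂)
    {t : ∀ v, D v → A} (zt : ∀ v, t v ∈ (R.res (D v)).Z1) {t' : ∀ v, D v → A'}
    (st : ∀ v, Sz (c11 β.flip (R'.res (D v)) (t v) (t' v)))
    (a1 : ∀ g l, i (ξ₁ g l) = R.d2 x g l) (a2 : ∀ v g, i (f₁ v g) = t v g + x g)
    (b1 : ∀ g l, p' (ξ₂ g l) = R'.d2 y g l) (b2 : ∀ v g, p' (f₂ v g) = t' v g + y g)
    (q : PV γ R₁ ξ₁ f₁ (fun g => i' (y g)) e) : PV δ.flip R₂' ξ₂ f₂ (fun g => p (x g)) e := by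
  obtain ⟨η, l, q, s⟩ := pv_iff.1 q
  refine pv_iff.2 ⟨η + c11 β R y x + fun g l => δ (ξ₂ g l) (p (x (g * l))),
    (l.add (c11_lc β R ly lx)).add (lc_two (fun u v => δ u v) z₂.1 (lc_at zx.1 continuous_mul)),
    fun g l m => ?_, s.congr h.two (cz_pl hP₁ zy d₁ l q) fun v => ?_⟩
  · have c1 : c12 γ R₁ (fun g => i' (y g)) ξ₁ g l m = c12 β R y (R.d2 x) g l m := by
      rw [c12, ei, hi, a1]; rfl
    rw [d3_add, d3_add, q, d3_c11' hP, d3_kap hP₂ z₂ zx, c1, ← hp, ← ep, b1]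
    grind
  · have o : ∀ (g : D v) u, δ u (p (x g)) = β (p' u) (t v g) := fun g u => by
      have := congrArg p (a2 v g)
      rw [pi, map_add, eq_comm, add_eq_zero_iff_eq_neg, neg_eq k] at this
      rw [ep, this]
    refine sz_congr ((st v).add ⟨fun g : D v => β (y g) (t v g), lc_two (fun u v => β u v)
      (lc_at ly continuous_subtype_val) (zt v).1, fun _ _ => rfl⟩) fun g l => ?_
    have c1 := o (g * l) (ξ₂ g l)
    have c2 := o g (R₂'.ac g (f₂ v l))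
    have c3 : γ (i' (y g)) (R₁.ac g (f₁ v l)) = β (y g) (R.ac g (t v l + x l)) := by
      rw [ei, hi, a2]
    have c4 := hP.eq g (y l) (t v l)
    have c5 := FR.coc (zt v) g l
    rw [b1] at c1
    rw [hp', b2] at c2
    simp only [pl, c11, Pi.add_apply, LinearMap.flip_apply, FR.res_ac, Subgroup.coe_mul] at *
    rw [c1, c2, c3]
    simp only [c5, FR.d2, map_add, map_sub, LinearMap.add_apply, LinearMap.sub_apply]
    grind

end Pool.Agent.BC
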