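import Pool.Agent.Lib.MP_b4b3cb_nt.BC.Cp
import Pool.Agent.Lib.MP_b4b3cb_nt.BC.PV
import Pool.Agent.Lib.MP_b4b3cb_nt.BC.Sel

/-! The tower of descents for a self-dual lattice with arbitrary reduction. -/

set_option linter.unusedSectionVars false

namespace Pool.Agent.BC

open scoped Classical
open Module Pool.Agent.SP

variable {E k : Type} [NontriviallyNormedField E] [Field k] {G P : Type} [Group G]
  [TopologicalSpace G] {c : CF E k}

theorem Submodule.mem_of_eq_zero' {M : Type} [AddCommGroup M] [Module k M] {U : Submodule k M}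
    {x : M} (h : x = 0) : x ∈ U := h ▸ U.zero_mem

/-- A symplectic representation with a self-dual lattice and self-dual local conditions. -/
structure SD (A : AK G P c) (W : Type) [NormedAddCommGroup W] [NormedSpace E W] (M : Type)
    [AddCommGroup M] [Module k M] where
  /-- the lattice -/
  C : Lt c W M
  /-- the representation -/
  R : Rp E G W
  /-- its reduction -/
  Rb : FR k G M
  /-- the symplectic form -/
  om : W →ₗ[E] W →ₗ[E] E
  /-- the bilinear refinement of the symplectic form -/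
  be : W →ₗ[E] W →ₗ[E] E
  /-- the reduction of the form -/
  ob : M →ₗ[k] M →ₗ[k] k
  /-- the reduction of the refinement -/
  bb : M →ₗ[k] M →ₗ[k] k
  om_eq : ∀ u v, om u v = be u v - be v u
  /-- the local conditions -/
  Y : ∀ v, Submodule E (A.D v → W)
  /-- the bad places -/
  S : Finset P
  cp : Cp C R Rb
  pb : Pb C C om ob
  pe : Pb C C be bb
  pf : Pf Rb Rb ob
  equi : Equi A.χ R R om
  be_ac : ∀ g u, be (R.ac g u) (R.ac g u) = A.χ g * be u u ∨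
    be (R.ac g u) (R.ac g u) = -(A.χ g * be u u)
  coc : ∀ v, Y v ≤ (R.res (A.D v)).Z1
  iso : ∀ v, ∀ t ∈ Y v, ∀ t' ∈ Y v,
    Cob (fun g : A.D v => A.χ g) (cupB om (R.res (A.D v)) t t')
  good0 : ∀ v ∉ S, ∀ t ∈ Y v, ∀ g : A.D v, g.1 ∈ A.I v → t g = 0
  cd : Cd A.I Rb (fun v => C.Wd (Y v)) S
  sd : ∀ v, ann ob (Rb.res (A.D v)) (Rb.res (A.D v)) (C.Wd (Y v)) = C.Wd (Y v)

namespace SD

variable {A : AK G P c} {W : Type} [NormedAddCommGroup W] [NormedSpace E W] {M : Type}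
  [AddCommGroup M] [Module k M] (X : SD A W M)

/-- Selmer cochains of `T i / T j`. -/
def Sl (i j : ℤ) : AddSubgroup (G → W) where
  carrier := {x | x ∈ X.C.Lev X.R i j ∧
    ∀ v, ∃ t ∈ X.C.Z (X.Y v) i, ∀ g : A.D v, x g - t g ∈ X.C.T j}
  add_mem' := fun {a b} ha hb => ⟨add_mem ha.1 hb.1, fun v => by
    obtain ⟨s, hs, h⟩ := ha.2 v
    obtain ⟨t, ht, h'⟩ := hb.2 v
    exact ⟨s + t, add_mem hs ht, fun g => by
      simpa [add_sub_add_comm] using add_mem (h g) (h' g)⟩⟩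
  zero_mem' := ⟨zero_mem _, fun v => ⟨0, zero_mem _, by simp⟩⟩
  neg_mem' := fun {a} ha => ⟨neg_mem ha.1, fun v => by
    obtain ⟨s, hs, h⟩ := ha.2 v
    exact ⟨-s, neg_mem hs, fun g => by simpa [neg_add_eq_sub] using neg_mem (h g)⟩⟩

/-- The residual Selmer cocycles. -/
def Sb : Submodule k (G → M) := X.Rb.Sel fun v => X.C.Wd (X.Y v)

variable {X}

theorem z_smul {Z : Type} {Y : Submodule E (Z → W)} {i : ℤ} {t : Z → W} (ht : t ∈ X.C.Z Y i)
    {a : E} (ha : ‖a‖ ≤ 1) : a • t ∈ X.C.Z Y i :=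
  ⟨Y.smul_mem a ht.1, fun g => X.C.smul ha (ht.2 g)⟩

theorem sl_smul {i j : ℤ} {x : G → W} (hx : x ∈ X.Sl i j) {a : E} (ha : ‖a‖ ≤ 1) :
    a • x ∈ X.Sl i j :=
  ⟨Lt.lev_smul hx.1 ha, fun v => by
    obtain ⟨s, hs, h⟩ := hx.2 v
    exact ⟨a • s, z_smul hs ha, fun g => by simpa [smul_sub] using X.C.smul ha (h g)⟩⟩

theorem sl_mono {i i' j j' : ℤ} (h : i' ≤ i) (h' : j' ≤ j) : X.Sl i j ≤ X.Sl i' j' :=
  fun _ hx => ⟨Lt.lev_mono h h' hx.1, fun v => by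
    obtain ⟨s, hs, e⟩ := hx.2 v
    exact ⟨s, X.C.Z_anti h hs, fun g => X.C.anti h' (e g)⟩⟩

theorem sl_up {i i' j : ℤ} (h : i' ≤ j) {x : G → W} (hx : x ∈ X.Sl i j)
    (h' : ∀ g, x g ∈ X.C.T i') : x ∈ X.Sl i' j :=
  ⟨⟨hx.1.1, h', hx.1.2.2⟩, fun v => by
    obtain ⟨s, hs, e⟩ := hx.2 v
    exact ⟨s, ⟨hs.1, fun g => by simpa using sub_mem (h' g) (X.C.anti h (e g))⟩, e⟩⟩

theorem sl_per {i j : ℤ} {x : G → W} (m : ℤ) (hx : x ∈ X.Sl i j) :
    c.π ^ m • x ∈ X.Sl (i + m) (j + m) :=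
  ⟨Lt.lev_per m hx.1, fun v => by
    obtain ⟨s, hs, e⟩ := hx.2 v
    exact ⟨c.π ^ m • s, ⟨Submodule.smul_mem _ _ hs.1, fun g => (X.C.per_zpow m _ _).2 (hs.2 g)⟩,
      fun g => by simpa [smul_sub] using (X.C.per_zpow m _ _).2 (e g)⟩⟩

variable (X)

/-- The image of the Selmer group of `T i / T (i + m)` in the residual cocycles. -/
def SS (i : ℤ) (m : ℕ) : Submodule k (G → M) where
  carrier := {f | ∃ x ∈ X.Sl i (i + m), f = fun g => X.C.lam i (x g)}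
  add_mem' := by
    rintro _ _ ⟨a, ha, rfl⟩ ⟨b, hb, rfl⟩
    exact ⟨a + b, add_mem ha hb, funext fun g => (X.C.lam_add (ha.1.2.1 g) (hb.1.2.1 g)).symm⟩
  zero_mem' := ⟨0, zero_mem _, funext fun _ => (X.C.lam_of (zero_mem _)).symm⟩
  smul_mem' := by
    rintro a _ ⟨t, ht, rfl⟩
    exact ⟨c.sc a • t, sl_smul ht (c.sc_le a), funext fun g => (X.C.lam_sc a (ht.1.2.1 g)).symm⟩

theorem ss_le (i r : ℤ) (m : ℕ) : X.SS i m ≤ X.SS (i + r) m := by
  rintro _ ⟨x, hx, rfl⟩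
  refine ⟨c.π ^ r • x, ?_, funext fun g => (X.C.lam_zpow r i _).symm⟩
  rw [add_right_comm]
  exact sl_per r hx

theorem ss_per (i : ℤ) (m : ℕ) : X.SS (i + (1 : ℕ)) m = X.SS i m :=
  le_antisymm (by simpa using X.ss_le (i + (1 : ℕ)) (-1) m) (by simpa using X.ss_le i 1 m)

theorem ss_one (i : ℤ) : X.SS i 1 = X.Sb := Submodule.ext fun y => by
  constructor
  · rintro ⟨x, hx, rfl⟩
    refine ⟨X.cp.hom hx.1 (by simp), fun v => ?_⟩
    obtain ⟨s, hs, e⟩ := hx.2 v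
    exact (X.C.mem_W i).2 ⟨s, hs, funext fun g => X.C.lam_congr (hs.2 g) (e g)⟩
  · rintro ⟨h1, h2⟩
    obtain ⟨x, hx, e⟩ := X.cp.lev_hom i h1
    refine ⟨x, ⟨hx, fun v => ?_⟩, funext fun g => (e g).symm⟩
    obtain ⟨s, hs, e'⟩ := (X.C.mem_W i).1 (h2 v)
    exact ⟨s, hs, fun g => X.C.sub_mem_of (hx.2.1 g) (hs.2 g) ((e g).trans (congrFun e' g))⟩

theorem sb_ann {y : G → M} : y ∈ X.Sb ↔ y ∈ X.Rb.Sel fun v =>
    ann X.ob (X.Rb.res (A.D v)) (X.Rb.res (A.D v)) (X.C.Wd (X.Y v)) := by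
  simp only [X.sd, Sb]

/-- Witnesses for the pairing. -/
structure Wt (i j : ℤ) (x : G → W) (t : ∀ v, A.D v → W) : Prop where
  lev : x ∈ X.C.Lev X.R i j
  z : ∀ v, t v ∈ X.C.Z (X.Y v) i
  loc : ∀ v (g : A.D v), x g - t v g ∈ X.C.T j

/-- The obstruction. -/
noncomputable def xi (j : ℤ) (x : G → W) (g h : G) : M := X.C.lam j (X.R.d2 x g h)

/-- The local trivialisations. -/
noncomputable def df (j : ℤ) (x : G → W) (t : ∀ v, A.D v → W) (v : P) (g : A.D v) : M :=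
  X.C.lam j (x g - t v g)

variable [Finite k] [Algebra (ZMod 2) k]

/-- `e` is a value of the pairing of `x` with `y`. -/
def PE (i j : ℤ) (x : G → W) (y : G → M) (e : k) : Prop :=
  ∃ t, X.Wt i j x t ∧ PV X.ob X.Rb (X.xi j x) (X.df j x t) y e

/-- The pairing as a function. -/
noncomputable def pr (i j : ℤ) (x : G → W) (y : G → M) : k :=
  if h : ∃ e, X.PE i j x y e then h.choose else 0

variable {X} {i j : ℤ} {x x' : G → W} {t t' : ∀ v, A.D v → W} {y y' : G → M} {e e' : k}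

theorem wt_ex (hx : x ∈ X.Sl i j) : ∃ t, X.Wt i j x t := by
  choose t h1 h2 using hx.2
  exact ⟨t, hx.1, h1, h2⟩

theorem Wt.cont (w : X.Wt i j x t) (v : P) : Continuous fun g : A.D v => x g - t v g :=
  (w.lev.1.comp continuous_subtype_val).sub (X.coc v (w.z v).1).1

variable [CharP k 2] [IsTopologicalGroup G] [CompactSpace G] {S₂ : Finset P}
  (h : GP k A.D A.I S₂)

include h

theorem Wt.dat (w : X.Wt i j x t) : Dat A.I X.Rb (X.xi j x) (X.df j x t) := by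
  obtain ⟨S, a⟩ := h.toG0.ae_inf (φ := fun g => (x g : W ⧸ X.C.T (j + 1)))
    ((IsLocallyConstant.iff_eventually_eq _).2 fun g =>
      (X.C.near (j + 1) w.lev.1 g).mono fun _ hy => QuotientAddGroup.eq_iff_sub_mem.2 hy)
  refine ⟨X.cp.z2 w.lev, fun v => X.C.lc (w.cont v) (w.loc v), fun v g l => ?_, X.S ∪ S,
    fun v hv g l hl => ?_⟩
  · have := ((X.cp.res (A.D v)).lam_d2 (a := (fun g : A.D v => x g) - t v) (w.loc v) g l).2
    rw [Rp.d2_sub, (X.coc v (w.z v).1).2, sub_zero] at this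
    exact this
  · rw [Finset.mem_union, not_or] at hv
    refine X.C.lam_congr (w.loc v g) ?_
    rw [(X.R.res _).coc (X.coc v (w.z v).1), X.good0 v hv.1 _ (w.z v).1 l hl, map_zero, add_zero,
      sub_sub_sub_cancel_right]
    exact QuotientAddGroup.eq_iff_sub_mem.1 (a v hv.2 g l hl)

theorem PE.uniq (hy : y ∈ X.Sb) (p : X.PE i j x y e) (p' : X.PE i j x y e') : e = e' := by
  obtain ⟨t, w, p⟩ := p
  obtain ⟨t', w', p'⟩ := p'
  have m : ∀ v g, (t v - t' v) g ∈ X.C.T j := fun v g => by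
    simpa using sub_mem (w'.loc v g) (w.loc v g)
  have := p.chg0 h.toG0 X.pf X.cd (X.sb_ann.1 hy) (w.dat h)
    fun v => X.C.W_of (sub_mem (w.z v).1 (w'.z v).1) (m v)
  refine PV.uniq h.toG0 X.pf hy.1 (w'.dat h) ?_ p'
  convert this using 1
  ext v g
  simp only [Pi.add_apply, df]
  rw [← X.C.lam_add (w.loc v g) (m v g), Pi.sub_apply, sub_add_sub_cancel]

theorem PE.eq (hy : y ∈ X.Sb) (p : X.PE i j x y e) : X.pr i j x y = e := by
  rw [pr, dif_pos ⟨e, p⟩]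
  exact PE.uniq h hy (Exists.choose_spec (⟨e, p⟩ : ∃ e, X.PE i j x y e)) p

theorem Wt.pr (w : X.Wt i j x t) (hy : y ∈ X.Sb) :
    PV X.ob X.Rb (X.xi j x) (X.df j x t) y (X.pr i j x y) := by
  obtain ⟨e, p⟩ := PV.ex h.toG0 X.pf hy.1 (w.dat h)
  rwa [PE.eq h hy ⟨t, w, p⟩]

theorem pr_add (hx : x ∈ X.Sl i j) (hx' : x' ∈ X.Sl i j) (hy : y ∈ X.Sb) :
    X.pr i j (x + x') y = X.pr i j x y + X.pr i j x' y := by
  obtain ⟨t, w⟩ := wt_ex hx
  obtain ⟨t', w'⟩ := wt_ex hx'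
  refine PE.eq h hy ⟨t + t', ⟨add_mem w.lev w'.lev, fun v => add_mem (w.z v) (w'.z v),
    fun v g => by simpa [add_sub_add_comm] using add_mem (w.loc v g) (w'.loc v g)⟩, ?_⟩
  convert (w.pr h hy).add h.toG0 X.pf hy.1 (w.dat h) (w'.dat h) (w'.pr h hy) using 1
  · ext g l
    simp only [xi, Pi.add_apply, Rp.d2_add, X.C.lam_add (w.lev.2.2 g l) (w'.lev.2.2 g l)]
  · ext v g
    simp only [df, Pi.add_apply]
    rw [← X.C.lam_add (w.loc v g) (w'.loc v g), add_sub_add_comm]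

theorem pr_smul (r : k) (hx : x ∈ X.Sl i j) (hy : y ∈ X.Sb) :
    X.pr i j (c.sc r • x) y = r * X.pr i j x y := by
  obtain ⟨t, w⟩ := wt_ex hx
  refine PE.eq h hy ⟨c.sc r • t, ⟨Lt.lev_smul w.lev (c.sc_le r), fun v => z_smul (w.z v) (c.sc_le r),
    fun v g => by simpa [smul_sub] using X.C.smul (c.sc_le r) (w.loc v g)⟩, ?_⟩
  convert (w.pr h hy).smul h.toG0 X.pf hy.1 (w.dat h) r using 1
  · ext g l
    simp only [xi, Pi.smul_apply, Rp.d2_smul, X.C.lam_sc r (w.lev.2.2 g l)]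
  · ext v g
    simp only [df, Pi.smul_apply]
    rw [← X.C.lam_sc r (w.loc v g), smul_sub]

theorem pr_lin (hx : x ∈ X.Sl i j) : Lin X.Sb (X.pr i j x) := by
  obtain ⟨t, w⟩ := wt_ex hx
  exact ⟨fun y hy y' hy' => PE.eq h (add_mem hy hy')
      ⟨t, w, (w.pr h hy).add_y h.toG0 X.pf hy.1 hy'.1 (w.dat h) (w.pr h hy')⟩,
    fun r y hy => PE.eq h (Submodule.smul_mem _ r hy)
      ⟨t, w, (w.pr h hy).smul_y h.toG0 X.pf hy.1 (w.dat h) r⟩⟩

theorem pr_nat {i' : ℤ} (hi : i' ≤ i) (hx : x ∈ X.Sl i j) (hy : y ∈ X.Sb) :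
    X.pr i' j x y = X.pr i j x y := by
  obtain ⟨t, w⟩ := wt_ex hx
  exact PE.eq h hy ⟨t, ⟨Lt.lev_mono hi le_rfl w.lev, fun v => X.C.Z_anti hi (w.z v), w.loc⟩,
    w.pr h hy⟩

theorem ker (hS : S₂ ⊆ X.S) [FiniteDimensional k M] (hij : i ≤ j) (hx : x ∈ X.Sl i j) :
    (∀ y ∈ X.Sb, X.pr i j x y = 0) ↔ ∃ x' ∈ X.Sl i (j + 1), ∀ g, x' g - x g ∈ X.C.T j := by
  constructor
  · intro H
    obtain ⟨t, w⟩ := wt_ex hx
    obtain ⟨φ, a1, a2, a3⟩ := h.pt X.pf hS X.cd (w.dat h) fun y hy =>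
      H y (X.sb_ann.2 hy) ▸ w.pr h (X.sb_ann.2 hy)
    obtain ⟨x', b1, b2⟩ := X.cp.lift w.lev hij a1 a2
    refine ⟨x', ⟨b1, fun v => ?_⟩, fun g => by simpa using neg_mem (b2 g).1⟩
    obtain ⟨s, s1, s2⟩ := (X.C.mem_W j).1 (a3 v)
    refine ⟨t v - s, sub_mem (w.z v) (X.C.Z_anti hij s1), fun g => ?_⟩
    rw [show x' g - (t v - s) g = s g - (x g - x' g - (x g - t v g)) by
      simp only [Pi.sub_apply]; abel]
    refine X.C.sub_mem_of (s1.2 g) (sub_mem (b2 g).1 (w.loc v g)) ?_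
    rw [X.C.lam_sub (b2 g).1 (w.loc v g), (b2 g).2]
    exact (congrFun s2 g).symm
  · rintro ⟨x', a, b⟩ y hy
    obtain ⟨t, w⟩ := wt_ex a
    have b' : ∀ g, (x - x') g ∈ X.C.T j := fun g => by simpa using neg_mem (b g)
    have l : ∀ v (g : A.D v), x g - t v g - (x - x') g ∈ X.C.T (j + 1) := fun v g => by
      simpa using w.loc v g
    refine PE.eq h hy ⟨t, ⟨hx.1, w.z, fun v g => X.C.of_sub (b' g) (X.C.succ _ (l v g))⟩,
      PV.of_sol X.pf (X.sb_ann.1 hy) (X.C.lc (hx.1.1.sub a.1.1) b') (fun g l => ?_) fun v => ?_⟩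
    · rw [← (X.cp.lam_d2 b' g l).2]
      exact X.C.lam_congr (X.cp.lam_d2 b' g l).1 (by simpa [Rp.d2_sub] using a.1.2.2 g l)
    · exact Submodule.mem_of_eq_zero' (funext fun g =>
        sub_eq_zero.2 (X.C.lam_congr (b' g) (l v g)).symm)

variable [IsUltrametricDist E] (hinv : ∀ v, (A.ld v).inv = invK)

include hinv

theorem fin_sum (w : X.Wt i j x t) (hy : y ∈ X.Sb) (β : G → G → E)
    (h1 : Continuous fun p : G × G => β p.1 p.2)
    (h2 : ∀ g l m, c.Rd (c.π * (A.χ g * β l m - β (g * l) m + β g (l * m) - β g l))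
      (c12 X.ob X.Rb y (X.xi j x) g l m))
    (h3 : ∀ v, ∃ f : A.D v → E, Continuous f ∧ ∀ g l : A.D v,
      c.Rd (c.π * (β g l - dq (fun g : A.D v => A.χ g) f g l))
        (c11 X.ob (X.Rb.res (A.D v)) (fun g => y g) (X.df j x t v) g l)) : X.pr i j x y = 0 := by
  obtain ⟨η, S, a1, a2, a3, a4⟩ := w.pr h hy
  have := A.rglob (fun g l => β g l + c.π⁻¹ * c.sc (η g l))
    (h1.add (lc_one (fun a => c.π⁻¹ * c.sc a) a1).continuous) (fun g l m => ?_)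
    (pl X.ob X.Rb η y (X.df j x t)) (cz_pl X.pf hy.1 (w.dat h) a1 a2) (fun v => ?_) S
    fun v hv => by rw [hinv, invK_sz (a3 v hv)]
  · simp only [hinv] at this
    exact a4.trans this
  · refine CF.Rd.le_one (c := c) (((h2 g l m).add (((((A.rd_chi g).mul (c.rd_sc' (η l m))).sub
      (c.rd_sc' (η (g * l) m))).add (c.rd_sc' (η g (l * m)))).sub (c.rd_sc' (η g l)))).congr ?_ ?_)
    · field_simp [c.ne]
      ring
    · rw [← a2, d3]
      grind
  · obtain ⟨f, f1, f2⟩ := h3 v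
    refine ⟨f, f1, fun g l => ((c.rd_sc' (η g l)).add (f2 g l)).congr ?_ rfl⟩
    field_simp [c.ne]
    ring

variable [CompleteSpace E] [FiniteDimensional E W]

theorem orth {m : ℕ} (hj : j = i + m) (hx : x ∈ X.Sl i j) (hy : y ∈ X.SS (-j - 1) (m + 1)) :
    X.pr i j x y = 0 := by
  obtain ⟨u, hu, rfl⟩ := hy
  have ei : -j - 1 + ((m + 1 : ℕ) : ℤ) = -i := by omega
  rw [ei] at hu
  obtain ⟨t, w⟩ := wt_ex hx
  have hw := hu.1
  refine fin_sum h hinv w (X.ss_one (-j - 1) ▸ ⟨u, sl_mono le_rfl (by omega) hu, rfl⟩)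
    (cupB X.om X.R u x) (cont_bil X.om (hw.1.comp continuous_fst)
      (X.R.cont_ac continuous_fst (w.lev.1.comp continuous_snd))) (fun g l m => ?_) fun v => ?_
  · have a1 := c.rd_pi (X.pb.le (hw.2.2 g l) (X.cp.mem (g * l) (w.lev.2.1 m)) (by omega))
    have a2 := X.pb.lam (by omega) (hw.2.1 g) (X.cp.mem g (w.lev.2.2 l m))
    refine (a1.sub a2).congr ?_ (by rw [X.cp.lam g (w.lev.2.2 l m), zero_sub, CharTwo.neg_eq]; rfl)
    simp only [cupB]
    rw [← X.equi g, ← X.R.mul]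
    simp only [Rp.d2, map_sub, map_add, LinearMap.sub_apply, X.R.mul, LinearMap.add_apply]
    ring
  · obtain ⟨s, hs, hc⟩ := hu.2 v
    obtain ⟨f, f1, f2⟩ := X.iso v s hs.1 (t v) (w.z v).1
    refine ⟨f, f1, fun g l => ?_⟩
    have a1 := c.rd_pi (X.pb.le (hc g) (X.cp.mem g ((w.z v).2 l)) (by omega))
    have a2 := X.pb.lam (by omega) (hw.2.1 g) (X.cp.mem g (w.loc v l))
    rw [X.cp.lam g (w.loc v l)] at a2
    refine (a1.add a2).congr ?_ (zero_add _)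
    rw [← f2]
    change _ = c.π * (X.om (u g) (X.R.ac g (x l)) - X.om (s g) (X.R.ac g (t v l)))
    simp only [map_sub, LinearMap.sub_apply]
    ring

end SD

end Pool.Agent.BC
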