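import Pool.Agent.Lib.MP_b4b3cb_nt.BC.Cp
import Pool.Agent.Lib.MP_b4b3cb_nt.Par.AltIx

/-! Indices attached to a monodromy operator on a lattice. -/

set_option linter.unusedSectionVars false

namespace Pool.Agent.BC.Lt

open scoped Classical
open Module Pool.Agent.SP

variable {E k : Type} [NontriviallyNormedField E] [Field k] {c : CF E k}
  {V : Type} [NormedAddCommGroup V] [NormedSpace E V] {A : Type} [AddCommGroup A] [Module k A]
  (C : Lt c V A) [IsUltrametricDist E] [CompleteSpace E] [Finite k] [FiniteDimensional E V]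

/-- The preimage of a multiple of the lattice. -/
noncomputable def Pre (ν : End E V) (i : ℤ) : AddSubgroup V := (C.T i).comap ν.toAddMonoidHom

theorem mem_Pre {ν : End E V} {i : ℤ} {x : V} : x ∈ C.Pre ν i ↔ ν x ∈ C.T i := Iff.rfl

theorem ix_pre (ν : End E V) (M : AddSubgroup V) (hM : M ≤ C.Pre ν 0) (K : Submodule k A)
    (hK : ∀ a, a ∈ K ↔ ∃ x ∈ M, a = C.lam 0 (ν x)) :
    (C.Pre ν 1).relIndex M = Nat.card k ^ finrank k K := by
  have := C.dim_A.1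
  rw [← Module.natCard_eq_pow_finrank, ix (C.Pre ν 1) M (fun x => C.lam 0 (ν x))
    (fun a ha b hb => by rw [map_add]; exact C.lam_add (hM ha) (hM hb))
    fun a ha => (C.lam_zero (hM ha)).symm]
  exact Nat.card_congr (Equiv.setCongr (Set.ext fun a => (hK a).symm))

theorem ix_rank (ν : End E V) :
    (C.Pre ν 1).relIndex (C.Pre ν 0) = Nat.card k ^ finrank E (LinearMap.range ν) := by
  obtain ⟨K, -, b, d⟩ := C.sub_rd (LinearMap.range ν)
  rw [← b]
  refine C.ix_pre ν _ le_rfl K fun a => (d 0 a).trans ⟨?_, ?_⟩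
  · rintro ⟨_, ⟨x, rfl⟩, h, rfl⟩
    exact ⟨x, h, rfl⟩
  · rintro ⟨x, h, rfl⟩
    exact ⟨_, ⟨x, rfl⟩, h, rfl⟩

theorem ix_ne (i : ℤ) (r : ℕ) : (C.T (i + r)).relIndex (C.T i) ≠ 0 := by
  have := C.dim_A.1
  have : Finite A := Module.finite_of_finite k
  induction r with
  | zero => simp
  | succ r ih =>
    rw [← AddSubgroup.relIndex_mul_relIndex _ (C.T (i + r)) _ (C.anti (by omega))
      (C.anti (by omega))]
    refine mul_ne_zero ?_ ih
    rw [Nat.cast_succ, ← add_assoc, ix _ _ (C.lam (i + r)) (fun a ha b hb => C.lam_add ha hb)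
      fun a ha => (C.lam_zero ha).symm]
    have : Nonempty {y | ∃ a ∈ C.T (i + r), y = C.lam (i + r) a} := ⟨⟨_, 0, zero_mem _, rfl⟩⟩
    exact Nat.card_pos.ne'

variable {C} {P : V →ₗ[E] V →ₗ[E] E} {b : A →ₗ[k] A →ₗ[k] k}

/-- The dual of the lattice in the image. -/
theorem dual_im (hP : Pb C C P b) (nr : ∀ v, (∀ u, b u v = 0) → v = 0) {ν : End E V}
    (h1 : ∀ x y, ν x = 0 → P x (ν y) = 0) {y : V} (hy : ∀ x, ν x ∈ C.T 0 → ‖P y (ν x)‖ ≤ 1) :
    ∃ z, ν z = 0 ∧ y - z ∈ C.T 0 := by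
  have := C.dim_A.1
  obtain ⟨K, -, k1, k2⟩ := C.sub_rd (LinearMap.ker ν)
  obtain ⟨R, -, r1, r2⟩ := C.sub_rd (LinearMap.range ν)
  have e : K = LinearMap.ker (b.compl₂ R.subtype) := by
    refine Submodule.eq_of_le_of_finrank_eq (fun a ha => LinearMap.ext fun g => ?_) ?_
    · obtain ⟨x, x1, x2, rfl⟩ := (k2 0 a).1 ha
      obtain ⟨_, ⟨u, rfl⟩, u2, u3⟩ := (r2 (-1) g).1 g.2
      have := hP.lam (by omega) x2 u2
      rw [h1 x u x1, mul_zero, u3] at this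
      exact this.uniq c.rd_zero'
    · have a1 := rank_ker (b.compl₂ R.subtype)
      have a2 : LinearMap.ker (b.compl₂ R.subtype).flip = ⊥ :=
        eq_bot_iff.2 fun g hg => Subtype.ext (nr _ fun u => LinearMap.congr_fun hg u)
      have a3 := ν.finrank_range_add_finrank_ker
      have a4 := C.dim_A.2
      rw [a2, finrank_bot] at a1
      omega
  obtain ⟨j, hj⟩ := C.exh y
  have : ∀ l, j ≤ l → l ≤ 0 → ∃ z, ν z = 0 ∧ y - z ∈ C.T l := fun l hl => by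
    induction l, hl using Int.leInduction with
    | base => exact fun _ => ⟨0, map_zero _, by simpa using hj⟩
    | succ l _ ih =>
      intro hl
      obtain ⟨z, z1, z2⟩ := ih (by omega)
      have : C.lam l (y - z) ∈ K := by
        rw [e]
        refine LinearMap.ext fun g => ?_
        obtain ⟨_, ⟨u, rfl⟩, u2, u3⟩ := (r2 (-l - 1) g).1 g.2
        have := hP.lam (by omega) z2 u2
        rw [map_sub, LinearMap.sub_apply, h1 z u z1, sub_zero, u3] at this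
        exact this.uniq (c.rd_pi (hy u (C.anti (by omega) u2)))
      obtain ⟨x, x1, x2, x3⟩ := (k2 l _).1 this
      refine ⟨z + x, by rw [map_add, z1, x1, add_zero], ?_⟩
      rw [← sub_sub]
      exact C.sub_mem_of z2 x2 x3.symm
  rcases le_total j 0 with h | h
  · exact this _ h le_rfl
  · exact ⟨0, map_zero _, by simpa using C.anti h hj⟩

theorem inert [CharZero E] (hP : Pb C C P b) (nr : ∀ v, (∀ u, b u v = 0) → v = 0) (φ ν : End E V)
    (h1 : ∀ x y, ν x = 0 → P x (ν y) = 0)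
    (h2 : ∀ x y, ν x ∈ C.T 0 → ν y ∈ C.T 0 → ‖P x (ν y) - P (φ y + y) (ν x)‖ ≤ 1)
    (h3 : ∀ x, ν x = 0 → ν (φ x) = 0) (h4 : ∀ x, ν x = 0 → φ x = 0 → x = 0)
    (h5 : C.T 0 ≤ C.Pre ν 0 ⊓ C.Pre φ 0) : ∃ a a' : ℕ,
    (C.Pre ν 0 ⊓ C.Pre φ 0 ⊔ C.Pre ν 1).relIndex (C.Pre ν 0) * Nat.card k ^ (2 * a') =
      Nat.card k ^ (2 * a) := by
  set K := (LinearMap.ker ν).toAddSubgroup
  set M := C.Pre ν 0 ⊓ C.Pre φ 0
  have sj : ∀ x, ν x = 0 → ∃ y, ν y = 0 ∧ φ y = x := fun x hx => by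
    obtain ⟨y, hy⟩ := LinearMap.injective_iff_surjective.1 ((injective_iff_map_eq_zero
      (φ.restrict (p := LinearMap.ker ν) (q := LinearMap.ker ν) h3)).2 fun y hy =>
      Subtype.ext (h4 y y.2 (congrArg Subtype.val hy))) ⟨x, hx⟩
    exact ⟨y, y.2, congrArg Subtype.val hy⟩
  have kl : ∀ i, K ≤ C.Pre ν i := fun i x hx => by
    rw [mem_Pre, show ν x = 0 from hx]
    exact zero_mem _
  have le : M ⊔ K ≤ C.Pre ν 0 := sup_le inf_le_left (kl 0)
  have sm : ∀ a : E, ‖a‖ ≤ 1 → ∀ x ∈ C.Pre ν 0, a • x ∈ C.Pre ν 0 := fun a ha x hx => by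
    rw [mem_Pre, map_smul]
    exact C.smul ha hx
  have rad : ∀ y ∈ C.Pre ν 0, y ∈ M ⊔ K ↔
      ∀ x ∈ C.Pre ν 0, ‖((P.compl₂ ν).flip - P.compl₂ ν) x y‖ ≤ 1 := fun y hy => by
    have e1 : ∀ x ∈ C.Pre ν 0, ‖((P.compl₂ ν).flip - P.compl₂ ν) x y‖ ≤ 1 ↔
        ‖P (φ y) (ν x)‖ ≤ 1 := fun x hx => by
      have a := mem_O1.2 (h2 x y hx hy)
      rw [← mem_O1, ← mem_O1, ← neg_mem_iff (x := P _ _), ← (O1 E).add_mem_cancel_left a]
      congr! 1
      simp only [LinearMap.sub_apply, LinearMap.flip_apply, LinearMap.compl₂_apply, map_add,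
        LinearMap.add_apply]
      ring
    refine ⟨fun a x hx => (e1 x hx).2 ?_, fun a => ?_⟩
    · obtain ⟨u, hu, z, hz, rfl⟩ := AddSubgroup.mem_sup.1 a
      rw [map_add, map_add, LinearMap.add_apply, h1 (φ z) x (h3 z hz), add_zero]
      exact hP.le hu.2 hx (by omega)
    · obtain ⟨z, z1, z2⟩ := dual_im hP nr h1 fun x hx => (e1 x hx).1 (a x hx)
      obtain ⟨z', z3, rfl⟩ := sj z z1
      exact AddSubgroup.mem_sup.2 ⟨y - z', ⟨C.mem_Pre.2 (by rwa [map_sub, z3, sub_zero]),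
        C.mem_Pre.2 (by rwa [map_sub])⟩, z', z3, sub_add_cancel _ _⟩
  have n0 : (M ⊔ K).relIndex (C.Pre ν 0) ≠ 0 := fun h0 => by
    obtain ⟨g', hg⟩ := ν.rangeRestrict.exists_rightInverse_of_surjective ν.range_rangeRestrict
    obtain ⟨g, rfl⟩ := g'.exists_extend
    obtain ⟨B, hB⟩ := C.bdd' 0
    obtain ⟨j, hj⟩ := C.exh_bd (‖LinearMap.toContinuousLinearMap g‖ * B)
    have a1 : C.Pre ν 0 ≤ C.T (-(-j).toNat) ⊔ K := fun x hx =>
      AddSubgroup.mem_sup.2 ⟨g (ν x), C.anti (by omega) (hj _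
        (((LinearMap.toContinuousLinearMap g).le_opNorm _).trans
        (mul_le_mul_of_nonneg_left (hB _ hx) (norm_nonneg _)))), x - g (ν x), by
        change ν _ = 0
        rw [map_sub, sub_eq_zero]
        exact (congrArg Subtype.val (LinearMap.congr_fun hg ⟨_, x, rfl⟩)).symm, by simp⟩
    have a2 := C.ix_ne (-(-j).toNat) (-j).toNat
    rw [neg_add_cancel, ix_split K (C.anti (by omega)), AddSubgroup.relIndex_eq_zero_of_le_left
      (sup_le_sup_right h5 K) (AddSubgroup.relIndex_eq_zero_of_le_right a1 h0), mul_zero] at a2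
    exact a2 rfl
  obtain ⟨a, ha⟩ := altix c _ (by simp) _ _ _ sm le rad rfl n0
  have l1 : M ⊔ K ≤ C.Pre ν 0 ⊓ (M ⊔ K).comap (sml c.π) := fun y hy => ⟨le hy,
    (rad _ (sm _ c.lt.le y (le hy))).2 fun x hx => by
      rw [map_smul, norm_smul]
      exact mul_le_one₀ c.lt.le (norm_nonneg _) ((rad y (le hy)).1 hy x hx)⟩
  obtain ⟨a', ha'⟩ := altix c (c.π • ((P.compl₂ ν).flip - P.compl₂ ν)) (by simp)
    (C.Pre ν 0 ⊓ (M ⊔ K).comap (sml c.π)) _ _ sm inf_le_left (fun y hy =>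
      ⟨fun h x hx => by
        have := (rad _ (sm _ c.lt.le y hy)).1 h.2 x hx
        rwa [map_smul] at this,
      fun h => ⟨hy, (rad _ (sm _ c.lt.le y hy)).2 fun x hx => by
        rw [map_smul]; exact h x hx⟩⟩) rfl
    fun h => n0 (AddSubgroup.relIndex_eq_zero_of_le_left l1 h)
  refine ⟨a, a', ?_⟩
  have e1 : (C.Pre ν 0 ⊓ (M ⊔ K).comap (sml c.π)).relIndex (C.Pre ν 0) =
      (M ⊔ K).relIndex (C.Pre ν 1) :=
    ix_tr (sml c.π) (fun y => ⟨fun hy => ⟨c.π⁻¹ • y, by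
      rw [mem_Pre, map_smul, ← C.per, smul_inv_smul₀ c.ne]; exact hy, smul_inv_smul₀ c.ne y⟩,
      fun ⟨x, hx, h⟩ => by
        rw [← h, mem_Pre, sml_apply, map_smul]; exact (C.per 0 _).2 hx⟩)
      fun x hx => ⟨fun h => h.2, fun h => ⟨hx, h⟩⟩
  have e2 : M ⊔ C.Pre ν 1 = C.Pre ν 1 ⊔ (M ⊔ K) := by
    rw [sup_left_comm, sup_eq_left.2 (kl 1)]
  rw [← ha, ← ha', e1, e2, ← AddSubgroup.relIndex_sup_right (C.Pre ν 1) (M ⊔ K), mul_comm]
  exact AddSubgroup.relIndex_mul_relIndex _ _ _ le_sup_right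
    (sup_le (fun x hx => C.succ 0 hx) le)

end Pool.Agent.BC.Lt
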