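import Pool.Agent.Lib.MP_b4b3cb_nt.BC.EInA
import Pool.Agent.Lib.MP_b4b3cb_nt.BC.EInd
import Pool.Agent.Lib.MP_b4b3cb_nt.BC.LocC
import Pool.Agent.Lib.MP_b4b3cb_nt.BC.LocM
import Pool.Agent.Lib.MP_b4b3cb_nt.BC.LocN

/-! The local term at an inert place. -/

set_option linter.unusedSectionVars false

namespace Pool.Agent.BC

open scoped Classical
open Module Pool.Agent.SP

theorem RD.Term.congr {k G V : Type} [Field k] [Group G] [TopologicalSpace G] [AddCommGroup V]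
    [Module k V] [Finite k] [Algebra (ZMod 2) k] {X : RD k G V} {Y : Submodule k (G → V × V)}
    {z z' : ℤ} (h : X.Term Y z) (e : (4 : ℤ) ∣ z - z') : X.Term Y z' := by
  obtain ⟨t, a, b, m, d, f⟩ := h
  exact ⟨t, a, b, m, d, by omega⟩

variable {E k : Type} [NontriviallyNormedField E] [Field k] {Γ G : Type} [Group Γ]
  [TopologicalSpace Γ] [Group G] [TopologicalSpace G] {J : IG Γ G} {c : CF E k} {χ : G →* E}
  {V : Type} [NormedAddCommGroup V] [NormedSpace E V] {A : Type} [AddCommGroup A] [Module k A]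
  (U : VD J c χ V A) [Finite k] [IsUltrametricDist E] [CompleteSpace E] [FiniteDimensional E V]
  [CharP k 2] [CharZero E] [Algebra (ZMod 2) k] [IsTopologicalGroup G] {D : Subgroup G}
  [CompactSpace D] {I : Subgroup D} {σ τ : D}

theorem VD.inert_tm (H : Two D) (L : LDm k D) (h1 : ∀ g, c.Rd (χ g) 1) (M : MI k I σ)
    (h0W : ∀ w, (∀ g : D, U.R.ac g w = w) → w = 0) (hσ : σ.1 ∉ J.H)
    (hI : ∀ i ∈ I, i.1 ∈ J.H ∧ χ i = 1) (hτ : τ ∈ I)
    (gI : ∀ i ∈ I, ∀ j x, U.ρ.ac (J.u τ) x - x ∈ U.Λ.T j → U.ρ.ac (J.u i) x - x ∈ U.Λ.T j)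
    (gr : ∀ i ∈ I, ∃ j : ℕ, U.X.r.ac i = U.X.r.ac τ ^ j)
    (tame : ∀ f : I → E, Continuous f → (∀ g h, ‖f (g * h) - f g - f h‖ ≤ 1) →
      ∀ g g' : I, g'.1 = σ * g * σ⁻¹ → ‖f g' - χ σ * f g‖ ≤ 1)
    (hq : (U.X.res D).SQ (U.T.Wd (U.R.res D).B1)) :
    (U.X.res D).Term (U.T.Wd (U.R.res D).B1)
      (2 * finrank E (LinearMap.range (U.ρ.ac (J.u τ) - 1))) := by
  have fA := U.Λ.dim_A.1
  have nor := M.nor
  have cp := U.cpT.res D
  have c0 : ∀ i ∈ I, (U.X.res D).χ i = 0 := fun i hi => U.c0 _ (hI i hi).1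
  have T := RD.cmp H L hq (RD.unr M fun i hi => Or.inl (c0 i hi))
    (RD.inert H M c0 (U.c1 _ hσ) hτ gr)
  refine T.congr ?_
  set S := U.ρ.ac (J.cj (J.u σ)) with hS
  set Φ := U.ρ.ac (J.u (σ * σ)) with hΦ
  set ν := U.ρ.ac (J.u τ) - 1
  have cσ : ∀ i ∈ I, J.cj (J.u (σ * i * σ⁻¹ : D)) * J.cj (J.u σ) = J.cj (J.u σ) * J.u i :=
    fun i hi => by
    rw [← map_mul, ← J.u_in (hI _ (nor.conj_mem i hi σ)).1, Subgroup.coe_mul, Subgroup.coe_mul,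
      Subgroup.coe_inv, inv_mul_cancel_right, J.u_out hσ, map_mul, J.cj_cj]
  let P := U.B.compl₂ S
  have hP : Pb U.Λ U.Λ P ((U.X.a.compl₂ (U.X.r.ac J.s)).compl₂ (U.X.r.ac (J.ι (J.cj (J.u σ))))) :=
    fun u hu v hv => (U.pb u hu _ (U.cp _ v hv).1).congr rfl (by rw [(U.cp _ v hv).2]; rfl)
  have p1 : ∀ i ∈ I, ∀ x y, P (U.ρ.ac (J.u (σ * i * σ⁻¹ : D)) x) (U.ρ.ac (J.u i) y) = P x y :=
    fun i hi x y => by
    have := U.equi (J.u (σ * i * σ⁻¹ : D)) x (S y)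
    have m := hI _ (nor.conj_mem i hi σ)
    rwa [J.u1 _ m.1, m.2, one_mul, hS, ← U.ρ.mul, cσ i hi, U.ρ.mul] at this
  have p2 : ∀ x y, P (Φ y) x = -(χ σ * P x y) := fun x y => by
    rw [hΦ, J.u_out hσ, U.ρ.mul]
    exact (U.equi _ _ _).trans (by rw [U.chi_out hσ, U.sy, neg_mul]; rfl)
  have ml : ∀ i ∈ I, ∀ (g : G) x, U.ρ.ac (J.u i) (U.ρ.ac (J.u g) x) = U.ρ.ac (J.u (i * g)) x :=
    fun i hi g x => by rw [J.u_in (hI i hi).1, U.ρ.mul]
  have nφ : ∀ {j x}, ν x ∈ U.Λ.T j → ∀ i ∈ I, U.ρ.ac (J.u i) (Φ x) - Φ x ∈ U.Λ.T j :=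
    fun {j x} h i hi => by
    have := U.mem (J.u (σ * σ)) (gI _ (nor.conj_mem' i hi (σ * σ)) j x h)
    rwa [map_sub, ← U.ρ.mul, ← J.u_in (J.two _ _ hσ hσ), Subgroup.coe_mul, Subgroup.coe_mul,
      Subgroup.coe_inv, Subgroup.coe_mul, ← mul_assoc, mul_inv_cancel_left, ← ml i hi] at this
  have iw : ∀ {j x}, ν x ∈ U.Λ.T j → ∀ i ∈ I, U.R.ac i (x, S x) - (x, S x) ∈ U.T.T j :=
    fun {j x} h i hi => by
    rw [U.R_in (hI i hi).1]
    refine ⟨gI i hi j x h, ?_⟩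
    have m := nor.conj_mem' i hi σ
    have := U.mem (J.cj (J.u σ)) (gI _ m j x h)
    rwa [map_sub, ← U.ρ.mul, ← cσ _ m, show σ * (σ⁻¹ * i * σ) * σ⁻¹ = i by group, U.ρ.mul] at this
  have gD : ∀ {j x}, ν x ∈ U.Λ.T j → (Φ - 1) x ∈ U.Λ.T j →
      ∀ g : D, U.R.ac g (x, S x) - (x, S x) ∈ U.T.T j := fun {j x} h h' g =>
    (M.gen (cp.fx j (x, S x)) (cp.fx_open j _) (fun i hi => iw h i hi) (by
      change U.R.ac σ (x, S x) - (x, S x) ∈ U.T.T j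
      rw [U.R_out hσ]
      refine U.mem_T.2 ⟨?_, by rw [Prod.snd_sub, sub_self]; exact zero_mem _⟩
      rwa [hΦ, J.u_out hσ, map_mul] at h')).ge (Subgroup.mem_top g)
  have l0 : U.Λ.T 0 ≤ U.Λ.Pre ν 0 ⊓ U.Λ.Pre (Φ - 1) 0 := fun x hx =>
    ⟨sub_mem (U.mem _ hx) hx, sub_mem (U.mem _ hx) hx⟩
  obtain ⟨a, a', ha⟩ := Lt.inert hP (fun v hv => by
      have := U.X.pf.nr _ hv
      rw [← U.X.r.inv_ac (J.s * J.ι (J.cj (J.u σ))) v, U.X.r.mul, this, map_zero])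
    (Φ - 1) ν (fun x y hx => by
      have := sub_eq_zero.1 (U.Λ.sep fun j => gI _ (nor.conj_mem τ hτ σ) j x
        ((show U.ρ.ac (J.u τ) x - x = 0 from hx) ▸ zero_mem _))
      rw [LinearMap.sub_apply, map_sub, End.one_apply, ← p1 τ hτ x y, this, sub_self])
    (fun x y hx hy => by
      have a1 := fun i hi => gI i hi 0 x hx
      have a3 := tame (fun g => P (Φ y) (U.ρ.ac (J.u g) x - x))
        (cont_bil P continuous_const ((U.ρ.cont_ac (J.cu.comp (continuous_subtype_val.comp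
          continuous_subtype_val)) continuous_const).sub continuous_const)) (fun g h => by
          have b := inv_mem (nor.conj_mem _ g.2 σ)
          have := p1 g g.2 (U.ρ.ac (J.u ((σ * g * σ⁻¹)⁻¹ : D)) (Φ y)) (U.ρ.ac (J.u h) x - x)
          rw [ml _ (nor.conj_mem _ g.2 σ), ← Subgroup.coe_mul, mul_inv_cancel, OneMemClass.coe_one,
            ← map_one J.ι, J.u_ι, U.ρ.one] at this
          convert hP.le (nφ hy _ b) (a1 h h.2) le_rfl using 2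
          rw [map_sub P, LinearMap.sub_apply, ← this]
          simp only [Subgroup.coe_mul, ← ml _ g.2, map_sub, hΦ]
          ring) ⟨τ, hτ⟩ ⟨_, nor.conj_mem τ hτ σ⟩ rfl
      have a4 := hP.le (U.mem (J.u (σ * σ)) hy) (a1 _ (nor.conj_mem τ hτ σ)) le_rfl
      have a5 := p1 τ hτ x y
      have a6 := p2 (U.ρ.ac (J.u (σ * τ * σ⁻¹ : D)) x - x) (U.ρ.ac (J.u τ) y)
      have a7 := mem_O1.1 (add_mem (mem_O1.2 a3) (mem_O1.2 a4))
      rw [← one_mul ‖_ - _‖, ← (h1 σ).norm_eq one_ne_zero, ← norm_mul,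
        (h1 σ).norm_eq one_ne_zero]
      convert a7 using 2
      simp only [ν, LinearMap.sub_apply, map_sub, End.one_apply, sub_add_cancel, ← hΦ] at a6 ⊢
      linear_combination (exp := 1) -a6 + χ σ * a5)
    (fun x hx => by
      change U.ρ.ac (J.u τ) (Φ x - x) - (Φ x - x) = 0
      have := U.Λ.sep fun j => nφ (j := j) (hx ▸ zero_mem _) τ hτ
      rw [map_sub, sub_eq_zero.1 this, sub_eq_zero.1 (show U.ρ.ac (J.u τ) x - x = 0 from hx),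
        sub_self])
    (fun x hx hy => congrArg Prod.fst (h0W (x, S x) fun g => sub_eq_zero.1 (U.T.sep fun j =>
      gD (hx ▸ zero_mem _) (hy ▸ zero_mem _) g))) l0
  set Y := U.T.Wd (U.R.res D).B1
  set Y' := (U.X.res D).W.Un I ⊔ (U.X.res D).W.B1
  have e0 := U.Λ.ix_rank ν
  have e1 := U.Λ.ix_pre ν (U.Λ.T 0) (l0.trans inf_le_left)
    (LinearMap.range ((U.X.res D).r.ac τ - 1)) fun a => by
      have e : ∀ x ∈ U.Λ.T 0, ((U.X.res D).r.ac τ - 1) (U.Λ.lam 0 x) = U.Λ.lam 0 (ν x) :=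
        fun x hx => by
        change _ = U.Λ.lam 0 (U.ρ.ac (J.u τ) x - x)
        rw [U.Λ.lam_sub (U.mem _ hx) hx, U.lam _ hx, J.u1 _ (hI τ hτ).1]
        rfl
      refine ⟨fun ⟨u, hu⟩ => ?_, fun ⟨x, hx, h⟩ => ⟨_, (e x hx).trans h.symm⟩⟩
      obtain ⟨x, hx, rfl⟩ := U.Λ.ex 0 u
      exact ⟨x, hx, hu.symm.trans (e x hx)⟩
  let N := (U.T.Z (U.R.res D).B1 0).comap (U.R.res D).d1.toAddMonoidHom
  have hN : ∀ w, w ∈ N ↔ ∀ g : D, U.R.ac g w - w ∈ U.T.T 0 := fun w =>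
    ⟨fun h => h.2, fun h => ⟨⟨w, rfl⟩, h⟩⟩
  have e2 : (U.Λ.T 0 ⊔ U.Λ.Pre ν 1).relIndex (U.Λ.Pre ν 0 ⊓ U.Λ.Pre (Φ - 1) 0) =
      Nat.card k ^ finrank k (Y.map Y'.mkQ) := by
    have fw := L.fin (U.X.res D).W
    have fY := Submodule.finiteDimensional_of_le hq.z1
    rw [← ix_tr (AddMonoidHom.fst V V) (A := N) (A' := U.Λ.Pre ν 0 ⊓ U.Λ.Pre (Φ - 1) 0)
      (B' := U.Λ.T 0 ⊔ U.Λ.Pre ν 1)
      (B := (U.Λ.T 0 ⊔ U.Λ.Pre ν 1).comap (AddMonoidHom.fst V V)) (fun x => ⟨fun hx =>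
        ⟨(x, S x), (hN _).2 (gD hx.1 hx.2), rfl⟩, fun ⟨w, hw, e⟩ => by
          have b1 := ((hN w).1 hw τ).1
          have b2 := ((hN w).1 hw (σ * σ)).1
          rw [U.R_in (hI τ hτ).1] at b1
          rw [Subgroup.coe_mul, U.R_in (J.two _ _ hσ hσ)] at b2
          exact e ▸ ⟨b1, b2⟩⟩) fun _ _ => Iff.rfl, ← Module.natCard_eq_pow_finrank,
      ix _ N (fun w => Y'.mkQ fun g => U.T.lam 0 ((U.R.res D).d1 w g)) (fun a ha b hb => by
        rw [← map_add, map_add (U.R.res D).d1]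
        exact congrArg _ (funext fun g => U.T.lam_add (ha.2 g) (hb.2 g))) fun w hw => ?_]
    · refine Nat.card_congr (Equiv.setCongr (Set.ext fun y => ⟨?_, ?_⟩))
      · rintro ⟨w, hw, rfl⟩
        exact ⟨_, ⟨_, hw, rfl⟩, rfl⟩
      · rintro ⟨_, ⟨_, ⟨⟨w, rfl⟩, hw⟩, rfl⟩, rfl⟩
        exact ⟨w, ⟨⟨w, rfl⟩, hw⟩, rfl⟩
    · have z : (fun g => U.T.lam 0 ((U.R.res D).d1 w g)) ∈ (U.X.res D).W.Z1 := hq.z1 ⟨_, hw, rfl⟩
      rw [Submodule.mkQ_apply, Submodule.Quotient.mk_eq_zero]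
      constructor
      · intro h
        obtain ⟨x, hx, y, hy, e⟩ := AddSubgroup.mem_sup.1 h
        have m : w - (y, S y) ∈ U.T.T 0 := by
          have b := (U.mem_T.1 ((hN w).1 hw σ)).2
          rw [U.R_out hσ] at b
          have e' : w.1 - y = x := by rw [← show x + y = w.1 from e, add_sub_cancel_right]
          refine U.mem_T.2 ⟨by rwa [Prod.fst_sub, e'], ?_⟩
          have := sub_mem (U.mem (J.cj (J.u σ)) hx) b
          rw [← e', map_sub] at this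
          convert this using 1
          simp only [Prod.snd_sub]
          abel
        refine Submodule.mem_sup.2 ⟨_, ⟨sub_mem z ((U.X.res D).W.d1_mem (U.T.lam 0 (w - (y, S y)))),
          fun i hi => ?_⟩, _, ⟨_, rfl⟩, sub_add_cancel _ _⟩
        rw [Pi.sub_apply, sub_eq_zero]
        refine Eq.trans ?_ (cp.lam_d1 m i).2
        refine U.T.lam_congr (cp.lam_d1 m i).1 ?_
        rw [← Pi.sub_apply, ← map_sub, sub_sub_cancel]
        exact iw hy i hi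
      · intro h
        obtain ⟨t, ht, _, ⟨u, rfl⟩, e⟩ := Submodule.mem_sup.1 h
        obtain ⟨w', m, rfl⟩ := U.T.ex 0 u
        have b := congrFun e τ
        rw [Pi.add_apply, ht.2 τ hτ, zero_add] at b
        have b' := (U.mem_T.1 (U.T.sub_mem_of (u := (U.R.res D).d1 w τ) (hw.2 τ) (cp.lam_d1 m τ).1
          (b.symm.trans (cp.lam_d1 m τ).2.symm))).1
        rw [← Pi.sub_apply, ← map_sub] at b'
        refine AddSubgroup.mem_sup.2 ⟨w'.1, m.1, (w - w').1, ?_, add_sub_cancel _ _⟩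
        change (U.R.ac τ (w - w') - (w - w')).1 ∈ _ at b'
        rwa [U.R_in (hI τ hτ).1] at b'
  have e3 : finrank k (Y.map Y'.mkQ) + finrank k (Y ⊓ Y' : Submodule k _) = finrank k Y := by
    have fw := L.fin (U.X.res D).W
    have fY := Submodule.finiteDimensional_of_le hq.z1
    have := (Y'.mkQ.domRestrict Y).finrank_range_add_finrank_ker
    rwa [LinearMap.range_domRestrict, LinearMap.ker_domRestrict, Submodule.ker_mkQ,
      ← Submodule.finrank_map_subtype_eq Y (Y'.comap Y.subtype), Submodule.map_comap_subtype] at this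
  have le1 : U.Λ.Pre ν 1 ≤ U.Λ.Pre ν 0 := fun x hx => U.Λ.succ 0 hx
  have e4 : (U.Λ.T 0 ⊔ U.Λ.Pre ν 1).relIndex (U.Λ.Pre ν 0 ⊓ U.Λ.Pre (Φ - 1) 0 ⊔ U.Λ.Pre ν 1) =
      Nat.card k ^ finrank k (Y.map Y'.mkQ) := by
    rw [← e2, ← AddSubgroup.relIndex_sup_right (U.Λ.Pre ν 0 ⊓ U.Λ.Pre (Φ - 1) 0), ← sup_assoc,
      sup_eq_left.2 l0]
  rw [← AddSubgroup.relIndex_mul_relIndex _ (U.Λ.T 0 ⊔ U.Λ.Pre ν 1) _ le_sup_right
      (sup_le (l0.trans inf_le_left) le1), AddSubgroup.relIndex_sup_right, e1,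
    ← AddSubgroup.relIndex_mul_relIndex _ (U.Λ.Pre ν 0 ⊓ U.Λ.Pre (Φ - 1) 0 ⊔ U.Λ.Pre ν 1) _
      (sup_le_sup_right l0 _) (sup_le inf_le_left le1), e4] at e0
  have e5 := congrArg (· * Nat.card k ^ (2 * a')) e0
  simp only [mul_assoc, ha, ← pow_add] at e5
  have e6 := Nat.pow_right_injective (Finite.one_lt_card (α := k)) e5
  omega

end Pool.Agent.BC
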