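import Pool.Agent.Lib.MP_b4b3cb_nt.BC.ERk

/-! The local term at odd split places. -/

set_option linter.unusedSectionVars false

namespace Pool.Agent.BC.VD

open scoped Classical
open Module Pool.Agent.SP

variable {E k : Type} [NontriviallyNormedField E] [Field k] {Γ G : Type} [Group Γ]
  [TopologicalSpace Γ] [Group G] [TopologicalSpace G] {J : IG Γ G} {c : CF E k} {χ : G →* E}
  {V : Type} [NormedAddCommGroup V] [NormedSpace E V] {A : Type} [AddCommGroup A] [Module k A]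
  (U : VD J c χ V A) {D : Subgroup G}
  [Finite k] [IsUltrametricDist E] [CompleteSpace E] [FiniteDimensional E V] [CharP k 2]
  [Algebra (ZMod 2) k] [IsTopologicalGroup G] [CompactSpace D] (H : Two D) (L : LDm k D)
  (Lam : LD D c fun g => χ g)

include H L Lam

theorem odd12 {I : Subgroup D} {σ : D} (M : MI k I σ)
    (h0W : ∀ w, (∀ g : D, U.R.ac g w = w) → w = 0) (hD : D ≤ J.H) :
    (U.r1 D hD).Z1 = (U.r1 D hD).B1 ∧ (U.r2 D hD).Z1 = (U.r2 D hD).B1 := by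
  obtain ⟨n, a1⟩ := U.Λ.dim_A
  have := ((U.cp1 hD).fd L le_rfl).1
  have := ((U.cp2 hD).fd L le_rfl).1
  obtain ⟨a2, a3⟩ := U.b12 hD h0W
  have a4 := M.dimZ (U.X.res D).pf
  have a5 := (U.X.res D).r.rank_B1
  have a6 := U.le12 hD H L Lam le_rfl le_rfl (Rp.B1_le _) fun t ht _ ⟨u, e⟩ =>
    e ▸ cob_right (U.equi12 hD) ht u
  have a7 := U.le12 hD H L Lam (Rp.B1_le _) (Rp.B1_le _) le_rfl fun _ ⟨u, e⟩ t ht =>
    e ▸ cob_left (U.equi12 hD) u ht
  exact ⟨(Submodule.eq_of_le_of_finrank_le (Rp.B1_le _) (by omega)).symm,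
    (Submodule.eq_of_le_of_finrank_le (Rp.B1_le _) (by omega)).symm⟩

theorem odd_split (h1 : ∀ g, c.Rd (χ g) 1) (hχ : Continuous χ) {I : Subgroup D} {σ : D}
    (M : MI k I σ) (h0W : ∀ w, (∀ g : D, U.R.ac g w = w) → w = 0) (hD : D ≤ J.H) :
    U.Loc D (U.R.res D).B1 0 := by
  obtain ⟨z1, z2⟩ := U.odd12 H L Lam M h0W hD
  have a := U.split H L Lam h1 hχ hD h0W le_rfl (Rp.B1_le _)
  have e : Spl (U.r1 D hD).B1 (perp U.B (U.r2 D hD) (fun g => χ g) (U.r1 D hD).B1) =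
      (U.R.res D).B1 := le_antisymm (fun t ⟨⟨u, p⟩, q⟩ => by
        obtain ⟨v, q⟩ := z2.le (mem_perp.1 q).1
        exact ⟨(u, v), funext fun g => by
          rw [Rp.d1_apply, U.res_in hD]
          exact Prod.ext (congrFun p g) (congrFun q g)⟩) (by
    rintro _ ⟨w, rfl⟩
    rw [mem_Spl]
    simp only [Rp.d1_apply, U.res_in hD]
    exact ⟨⟨w.1, rfl⟩, mem_perp.2 ⟨Rp.d1_mem _ w.2, fun t ht =>
      cob_right (U.equi12 hD) (Rp.B1_le _ ht) w.2⟩⟩)
  rw [e, z1, (U.b12 hD h0W).1] at a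
  convert a using 1
  ring

end Pool.Agent.BC.VD
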