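import Pool.Agent.Lib.MP_b4b3cb_nt.BC.ETow
import Pool.Agent.Lib.MP_b4b3cb_nt.BC.EOdd
import Pool.Agent.Lib.MP_b4b3cb_nt.BC.ESp

/-! The parity theorem for the conjugate self-dual representation. -/

set_option linter.unusedSectionVars false

namespace Pool.Agent.BC

open scoped Classical
open Module Pool.Agent.SP

variable {E k : Type} [NontriviallyNormedField E] [Field k] {Γ G : Type} [Group Γ]
  [TopologicalSpace Γ] [Group G] [TopologicalSpace G] {J : IG Γ G} {c : CF E k}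
  {V : Type} [NormedAddCommGroup V] [NormedSpace E V] {M : Type} [AddCommGroup M] [Module k M]
  [Finite k] [IsUltrametricDist E] [CompleteSpace E] [FiniteDimensional E V] [CharP k 2]
  [CharZero E] [Algebra (ZMod 2) k] [IsTopologicalGroup G] [CompactSpace G] {P : Type}

theorem VD.parity (A : AK G P c) {S₂ : Finset P} (h : GP k A.D A.I S₂)
    (hinv : ∀ v, (A.ld v).inv = invK) (U : VD J c A.χ V M) (S : Finset P) (hS₂ : S₂ ⊆ S)
    (D : P → Subgroup Γ) (hD : ∀ v γ, γ ∈ D v ↔ J.ι γ ∈ A.D v) (dy : P → Prop)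
    (hS : ∀ v ∉ S, ¬ dy v) (sp : ∀ v, dy v → A.D v ≤ J.H) (Y : ∀ v, Submodule E (D v → V))
    (hB : ∀ v, dy v → (U.ρ.res (D v)).B1 ≤ Y v) (hZ : ∀ v, dy v → Y v ≤ (U.ρ.res (D v)).Z1)
    (h0 : ∀ v, dy v ∨ v ∉ S → ∀ w, (∀ g : A.D v, U.R.ac g w = w) → w = 0) (p : P → ℤ)
    (loc : ∀ v ∈ S, ¬ dy v → (U.R.res (A.D v)).Z1 = (U.R.res (A.D v)).B1 ∧
      U.Loc (A.D v) (U.R.res (A.D v)).B1 (p v))
    (g0 : ∀ v ∉ S, ∀ g ∈ A.I v, U.R.ac g = 1) :
    FiniteDimensional E (U.Sel D dy Y) ∧ (4 : ℤ) ∣ 2 * (finrank E (U.Sel D dy Y) + finrank E V) -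
      ∑ v ∈ S, if e : dy v then
        (2 * finrank E (Y v) - finrank E (U.r1 _ (sp v e)).Z1 - finrank E V : ℤ) else p v := by
  let e : ∀ v, dy v → A.D v →* D v := fun v h =>
    (J.uD _ (sp v h)).codRestrict _ fun g => (hD v _).2 (by
      change J.ι (J.u g) ∈ _
      rw [J.u1 _ (sp v h g.2)]
      exact g.2)
  let e' : ∀ v, D v →* A.D v := fun v => (J.ι.comp (D v).subtype).codRestrict _ fun g =>
    (hD v _).1 g.2
  have ce : ∀ v h, Continuous (e v h) := fun v h =>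
    (J.cu.comp continuous_subtype_val).subtype_mk _
  have ce' : ∀ v, Continuous (e' v) := fun v => (J.cι.comp continuous_subtype_val).subtype_mk _
  have ee : ∀ v h g, e v h (e' v g) = g := fun v h g => Subtype.ext (J.u_ι g)
  have inj : ∀ v h, Function.Injective (LinearMap.funLeft E V (e v h)) := fun v h =>
    LinearMap.funLeft_injective_of_surjective _ _ _ fun g => ⟨_, ee v h g⟩
  let Y₁ : ∀ v, dy v → Submodule E (A.D v → V) := fun v h =>
    (Y v).map (LinearMap.funLeft E V (e v h))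
  let YW : ∀ v, Submodule E (A.D v → V × V) := fun v => if h : dy v then
    Spl (Y₁ v h) (perp U.B (U.r2 _ (sp v h)) (fun g => A.χ g) (Y₁ v h)) else (U.R.res (A.D v)).B1
  have cpt := A.cpt
  have gd : ∀ v ∉ S, ((U.R.res (A.D v)).Z1 = (U.R.res (A.D v)).B1 ∧
      (U.X.res (A.D v)).SQ (U.T.Wd (U.R.res (A.D v)).B1)) ∧ U.T.Wd (U.R.res (A.D v)).B1 =
      (U.X.W.res (A.D v)).Un ((A.I v).subgroupOf (A.D v)) := fun v hv => by
    obtain ⟨σ, m⟩ := h.mi v fun q => hv (hS₂ q)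
    have := U.odd (h.two v) (h.ld v) (A.ld v) A.rd_chi m (h0 v (.inr hv))
    exact ⟨⟨this.1, this.2.2⟩, U.good (h.two v) (h.ld v) (A.ld v) A.rd_chi m (h0 v (.inr hv))
      fun i hi => g0 v hv i hi⟩
  have hL : ∀ v ∈ S, U.Loc (A.D v) (YW v) (if e : dy v then
      (2 * finrank E (Y v) - finrank E (U.r1 _ (sp v e)).Z1 - finrank E V : ℤ) else p v) :=
    fun v hv => by
    by_cases q : dy v
    · simp only [YW, dif_pos q]
      rw [(Submodule.equivMapOfInjective _ (inj v q) _).finrank_eq]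
      refine U.split (h.two v) (h.ld v) (A.ld v) A.rd_chi A.cχ (sp v q) (h0 v (.inl q)) ?_ ?_
      · rintro _ ⟨a, rfl⟩
        exact ⟨_, hB v q ⟨a, rfl⟩, rfl⟩
      · rintro _ ⟨t, ht, rfl⟩
        exact ⟨(hZ v q ht).1.comp (ce v q), fun g l => by
          have := (hZ v q ht).2 (e v q g) (e v q l)
          rwa [Rp.d2, ← map_mul] at this⟩
    · simp only [YW, dif_neg q]
      exact (loc v hv q).2
  have yb : ∀ v ∉ S, YW v = (U.R.res (A.D v)).B1 := fun v hv => dif_neg (hS v hv)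
  have sq : ∀ v, (U.X.res (A.D v)).SQ (U.T.Wd (YW v)) := fun v => by
    by_cases hv : v ∈ S
    exacts [(hL v hv).sq, yb v hv ▸ (gd v hv).1.2]
  let X : SD A (V × V) (M × M) :=
    { C := U.T, R := U.R, Rb := U.X.W, om := U.om, be := U.be, ob := U.X.om, bb := _
      om_eq := U.om_eq, Y := YW, S := S, cp := U.cpT, pb := U.pbT, pe := U.pb_be, pf := U.X.pfW
      equi := U.equiT, be_ac := U.be_ac
      coc := fun v => by
        by_cases hv : v ∈ S
        exacts [(hL v hv).coc, yb v hv ▸ Rp.B1_le _]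
      iso := fun v => by
        by_cases hv : v ∈ S
        exacts [(hL v hv).iso, yb v hv ▸ U.isoB]
      good0 := fun v hv t ht g hg => by
        obtain ⟨w, rfl⟩ := (yb v hv).le ht
        exact sub_eq_zero.2 (LinearMap.congr_fun (g0 v hv g hg) w)
      cd := ⟨fun v => (sq v).b1, fun v => (sq v).z1, fun v hv => yb v hv ▸ (gd v hv).2⟩
      sd := fun v => (sq v).sd }
  obtain ⟨fd, z, hz⟩ := X.par h hinv hS₂
  have := U.fdA
  have co := core h U.X hS₂ X.cd sq fun v hv => (hL v hv).tm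
  have key : ∀ ξ ∈ U.ρ.Z1, ∀ b, U.sh (ξ, b) ∈ X.Yg ↔ ξ ∈ U.Sel D dy Y := fun ξ hξ b => by
    rw [X.mem_Yg, U.mem_Sel]
    refine and_congr (iff_of_true (U.sh_mem hξ b) hξ) (forall_congr' fun v => ?_)
    change _ ∈ YW v ↔ _
    by_cases h : dy v
    · simp only [YW, dif_pos h, h, true_imp_iff, mem_Spl, fun g : A.D v => U.sh_in ξ b (sp v h g.2)]
      refine and_congr ⟨fun ⟨t, ht, a⟩ => inj v h (a₂ := fun g => ξ g) a ▸ ht, fun a => ⟨_, a, rfl⟩⟩ ?_
      have b1 : (U.r2 _ (sp v h)).d1 b ∈ perp U.B (U.r2 _ (sp v h)) (fun g => A.χ g) (Y₁ v h) :=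
        mem_perp.2 ⟨Rp.d1_mem _ _, fun t ht => by
          obtain ⟨t, ht, rfl⟩ := ht
          exact cob_right (U.equi12 (sp v h)) ⟨(hZ v h ht).1.comp (ce v h), fun g l => by
            have := (hZ v h ht).2 (e v h g) (e v h l)
            rwa [Rp.d2, ← map_mul] at this⟩ b⟩
      refine (Submodule.add_mem_iff_left _ b1).trans ?_
      rw [mem_perp, mem_perp]
      refine and_congr (iff_of_true ⟨hξ.1.comp (J.ccj.comp (J.cu.comp continuous_subtype_val)),
        fun g l => ?_⟩ ⟨hξ.1.comp (J.ccj.comp continuous_subtype_val), fun g l => ?_⟩)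
        ⟨fun a t ht => (a _ ⟨t, ht, rfl⟩).comp (e' v) (ce' v) (fun _ => rfl) fun g l => ?_, ?_⟩
      · have := hξ.2 (J.cj (J.u g)) (J.cj (J.u l))
        rwa [Rp.d2, ← map_mul, ← J.u_in (sp v h g.2)] at this
      · have := hξ.2 (J.cj g) (J.cj l)
        rwa [Rp.d2, ← map_mul] at this
      · conv_lhs => rw [← ee v h g, ← ee v h l]
        rfl
      · rintro a _ ⟨t, ht, rfl⟩
        exact (a t ht).comp (e v h) (ce v h)
          (fun g => congrArg A.χ (J.u1 _ (sp v h g.2)).symm) fun _ _ => rfl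
    · have z : (U.R.res (A.D v)).Z1 = (U.R.res (A.D v)).B1 := by
        by_cases hv : v ∈ S
        exacts [(loc v hv h).1, (gd v hv).1.1]
      simp only [YW, dif_neg h, h, false_imp_iff, iff_true, ← z]
      exact U.R.res_mem (U.sh_mem hξ b) _
  have le : U.Sel D dy Y ≤ U.ρ.Z1 := inf_le_left
  let Φ := LinearEquiv.ofBijective ((U.sh ∘ₗ (U.Sel D dy Y).subtype.prodMap LinearMap.id).codRestrict
    X.Yg fun x => (key _ (le x.1.2) x.2).2 x.1.2) ⟨(injective_iff_map_eq_zero _).2 fun x hx => by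
      obtain ⟨a, b⟩ := U.sh_inj (le x.1.2) (b := x.2) (congrArg Subtype.val hx)
      exact Prod.ext (Subtype.ext a) b, fun x => by
      obtain ⟨ξ, h1, b, h2⟩ := U.sh_surj (X.mem_Yg.1 x.2).1
      exact ⟨(⟨ξ, (key ξ h1 b).1 (h2 ▸ x.2)⟩, b), Subtype.ext h2⟩⟩
  have fd' : FiniteDimensional E (U.Sel D dy Y) := FiniteDimensional.of_injective
    (Φ.toLinearMap ∘ₗ LinearMap.inl E _ _) (Φ.injective.comp LinearMap.inl_injective)
  refine ⟨fd', ?_⟩
  rw [← Φ.finrank_eq, finrank_prod] at hz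
  change (4 : ℤ) ∣ 2 * finrank k X.Sb - _ at co
  omega

end Pool.Agent.BC
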