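import Pool.Agent.Lib.MP_b4b3cb_nt.BC.EuS
import Pool.Agent.Lib.MP_b4b3cb_nt.BC.LD

/-! The local Euler characteristic: modules for a quotient of odd order. -/

set_option autoImplicit false
set_option linter.unusedSectionVars false

namespace Pool.Agent.BC.Eu

open scoped Classical
open Module MulAction Pool.Agent.SP

variable {k : Type} [Field k] [CharP k 2] {G : Type} [Group G] [TopologicalSpace G]
  [IsTopologicalGroup G] [CompactSpace G] {A : Type} [AddCommGroup A] [Module k A]

namespace Od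

/-- Equivariant homomorphisms on a normal subgroup. -/
def EH (R : FR k G A) (U : Subgroup G) [h : U.Normal] : Set (U → A) :=
  {x | IsLocallyConstant x ∧ (∀ u v, x (u * v) = x u + x v) ∧
    ∀ (g : G) (u : U), R.ac g (x ⟨g⁻¹ * u * g, h.conj_mem' _ u.2 g⟩) = x u}

theorem odd_smul (k : Type) [Field k] [CharP k 2] {A : Type} [AddCommGroup A] [Module k A] {n : ℕ}
    (h : Odd n) (v : A) : n • v = v := by
  obtain ⟨m, rfl⟩ := h
  rw [add_smul, one_smul, mul_smul, two_smul, add_self (k := k), zero_add]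

variable {R : FR k G A} {U : Subgroup G} [hn : U.Normal]

theorem ac_u (le : U ≤ R.ac.ker) {u : G} (hu : u ∈ U) (v : A) : R.ac u v = v := by
  rw [MonoidHom.mem_ker.1 (le hu)]; rfl

theorem ac_eq (le : U ≤ R.ac.ker) {a b : G} (e : (a : G ⧸ U) = b) (v : A) :
    R.ac a v = R.ac b v := by
  rw [← mul_inv_cancel_left a b, R.mul, ac_u le (QuotientGroup.eq.1 e)]

theorem out_smul (g : G) (δ : G ⧸ U) : ((g * δ.out : G) : G ⧸ U) = g • δ := by
  conv_rhs => rw [← δ.out_eq']
  rfl

theorem tr_mem (g : G) (δ : G ⧸ U) : δ.out⁻¹ * g * (g⁻¹ • δ).out ∈ U := by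
  rw [mul_assoc]
  exact QuotientGroup.eq.1 (by rw [out_smul, smul_inv_smul, QuotientGroup.out_eq'])

theorem fix_u {u : G} (hu : u ∈ U) (δ : G ⧸ U) : u • δ = δ := by
  rw [← out_smul, QuotientGroup.mk_mul, (QuotientGroup.eq_one_iff u).2 hu, one_mul,
    QuotientGroup.out_eq']

theorem ext_z1 (o : IsOpen (U : Set G)) (h : Odd U.index) (le : U ≤ R.ac.ker) {x : U → A}
    (hx : x ∈ EH R U) : ∃ X ∈ R.Z1, ∀ u : U, X u = x u := by
  have := U.quotient_finite_of_isOpen o
  have := Fintype.ofFinite (G ⧸ U)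
  refine ⟨fun g => ∑ δ : G ⧸ U, R.ac δ.out (x ⟨_, tr_mem g δ⟩), R.mk_z1 ?_ fun g l => ?_,
    fun u => ?_⟩
  · exact lc_one (fun f : G ⧸ U → A => ∑ δ, f δ) (lc_pi fun δ => lc_one (R.ac δ.out)
      (lc_at hx.1 ((rho_cont (lc_quot o) Quotient.out δ).subtype_mk _)))
  · rw [map_sum, ← Equiv.sum_comp (toPerm g⁻¹) fun δ : G ⧸ U =>
      R.ac g (R.ac δ.out (x ⟨_, tr_mem l δ⟩)), ← Finset.sum_add_distrib]
    refine Finset.sum_congr rfl fun δ _ => ?_
    rw [← R.mul, ac_eq le (a := g * (toPerm g⁻¹ δ).out) (b := δ.out) (by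
      rw [out_smul, QuotientGroup.out_eq']; exact smul_inv_smul g δ), ← map_add, ← hx.2.1]
    exact congrArg (fun z => R.ac δ.out (x z)) (Subtype.ext (rho_mul (X := G ⧸ U) Quotient.out g l δ))
  · have e : ∀ δ : G ⧸ U, R.ac δ.out (x ⟨_, tr_mem u.1 δ⟩) = x u := fun δ => by
      rw [← hx.2.2 δ.out u]
      exact congrArg (fun z => R.ac δ.out (x z)) (Subtype.ext (by
        simp only [fix_u (U.inv_mem u.2) δ]))
    simp only [e]
    rw [Finset.sum_const, Finset.card_univ, ← Nat.card_eq_fintype_card]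
    exact odd_smul k h _

theorem b1_of (o : IsOpen (U : Set G)) (h : Odd U.index) {x : G → A} (hx : x ∈ R.Z1)
    (h0 : ∀ u ∈ U, x u = 0) : x ∈ R.B1 := by
  have := U.quotient_finite_of_isOpen o
  have := Fintype.ofFinite (G ⧸ U)
  refine ⟨-∑ δ : G ⧸ U, x δ.out, funext fun g => ?_⟩
  have e : ∀ δ : G ⧸ U, x (toPerm g δ).out = x g + R.ac g (x δ.out) := fun δ => by
    rw [← FR.coc hx, ← (FR.inf_iff hx).2 h0 (g * δ.out) _ (QuotientGroup.eq.1
      ((out_smul g δ).trans (toPerm g δ).out_eq'.symm)), mul_inv_cancel_left]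
  have e2 := Equiv.sum_comp (toPerm g) fun δ : G ⧸ U => x δ.out
  simp only [e] at e2
  rw [Finset.sum_add_distrib, Finset.sum_const, Finset.card_univ, ← Nat.card_eq_fintype_card,
    odd_smul k (n := Nat.card (G ⧸ U)) h, ← map_sum] at e2
  rw [FR.d1_apply, map_neg, neg_sub_neg]
  exact sub_eq_of_eq_add e2.symm

theorem card_z1 (o : IsOpen (U : Set G)) (h : Odd U.index) (le : U ≤ R.ac.ker) :
    Nat.card R.Z1 = Nat.card R.B1 * Nat.card (EH R U) := by
  let F : R.Z1 →ₗ[k] (U → A) := LinearMap.funLeft k A Subtype.val ∘ₗ R.Z1.subtype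
  have e1 : LinearMap.ker F = R.B1.submoduleOf R.Z1 := by
    ext x
    refine ⟨fun hx => b1_of o h x.2 fun u hu => congrFun hx ⟨u, hu⟩, ?_⟩
    rintro ⟨v, hv⟩
    exact funext fun u => (congrFun hv u).symm.trans (sub_eq_zero.2 (ac_u le u.2 v))
  have e2 : ∀ x, x ∈ LinearMap.range F ↔ x ∈ EH R U := fun x => by
    constructor
    · rintro ⟨x, rfl⟩
      refine ⟨lc_at x.2.1 continuous_subtype_val, fun u v =>
        (FR.coc x.2 u v).trans (congrArg (x.1 u + ·) (ac_u le u.2 _)), fun g u => ?_⟩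
      have a := FR.coc x.2 g (g⁻¹ * u * g)
      rw [← mul_assoc, mul_inv_cancel_left, FR.coc x.2, ac_u le u.2, add_comm] at a
      exact (add_left_cancel a).symm
    · intro hx
      obtain ⟨X, h1, h2⟩ := ext_z1 o h le hx
      exact ⟨⟨X, h1⟩, funext h2⟩
  rw [Submodule.card_eq_card_quotient_mul_card (LinearMap.ker F),
    Nat.card_congr F.quotKerEquivRange.toEquiv, e1,
    Nat.card_congr (Submodule.submoduleOfEquivOfLe R.B1_le).toEquiv,
    Nat.card_congr (Equiv.subtypeEquivRight e2)]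

section bas

variable [Module (ZMod 2) A] {ι : Type} [Fintype ι] [DecidableEq ι] (b : Basis ι (ZMod 2) A)

variable (R) in
/-- The matrices of the action. -/
noncomputable def mt : G →* Matrix ι ι (ZMod 2) where
  toFun g := LinearMap.toMatrixAlgEquiv b ((R.ac g).toAddMonoidHom.toZModLinearMap 2)
  map_one' := by
    rw [← map_one (LinearMap.toMatrixAlgEquiv b)]
    exact congrArg _ (LinearMap.ext R.one)
  map_mul' g l := by
    rw [← map_mul]
    exact congrArg _ (LinearMap.ext (R.mul g l))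

theorem mt_repr (g : G) (v : A) (i : ι) :
    ∑ j, mt R b g i j * b.repr v j = b.repr (R.ac g v) i :=
  congrFun (LinearMap.toMatrix_mulVec_repr b b ((R.ac g).toAddMonoidHom.toZModLinearMap 2) v) i

theorem mt_u (le : U ≤ R.ac.ker) {u : G} (hu : u ∈ U) : mt R b u = 1 := by
  rw [← map_one (LinearMap.toMatrixAlgEquiv b)]
  exact congrArg (LinearMap.toMatrixAlgEquiv b) (LinearMap.ext (ac_u le hu))

theorem card_h0 : Nat.card R.H0 = Nat.card (Iv (mt R b) fun _ => AddMonoidHom.id (ZMod 2)) :=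
  Nat.card_congr (b.equivFun.toEquiv.subtypeEquiv fun v => by
    rw [R.mem_H0]
    refine forall_congr' fun g => ?_
    rw [← b.repr.injective.eq_iff, Finsupp.ext_iff]
    exact forall_congr' fun i => by rw [← mt_repr]; rfl)

theorem card_eh : Nat.card (EH R U) = Nat.card (Iv (mt R b) (cjH U)) := by
  refine Nat.card_congr (Equiv.ofBijective (fun x => ⟨fun i => ⟨fun u => b.repr (x.1 u) i,
    lc_one (fun v => b.repr v i) x.2.1, fun u v => by
      beta_reduce
      rw [x.2.2.1, map_add]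
      rfl⟩,
    fun g i => Subtype.ext (funext fun u => ?_)⟩) ⟨fun x y e => ?_, fun m => ?_⟩)
  · simp only [AddSubmonoidClass.coe_finsetSum, Finset.sum_apply, SetLike.val_smul, Pi.smul_apply,
      smul_eq_mul, cjH_apply]
    rw [mt_repr, x.2.2.2]
  · exact Subtype.ext (funext fun u => b.repr.injective (Finsupp.ext fun i =>
      congrFun (congrArg Subtype.val (congrFun (congrArg Subtype.val e) i)) u))
  · have e : ∀ u i, b.repr (b.equivFun.symm fun i => (m.1 i).1 u) i = (m.1 i).1 u := fun u i =>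
      congrFun (b.equivFun.apply_symm_apply _) i
    refine ⟨⟨fun u => b.equivFun.symm fun i => (m.1 i).1 u,
      lc_one b.equivFun.symm (lc_pi fun i => (m.1 i).2.1), fun u v => ?_, fun g u => ?_⟩,
      Subtype.ext (funext fun i => Subtype.ext (funext fun u => e u i))⟩
    · rw [← map_add]
      exact congrArg _ (funext fun i => (m.1 i).2.2 u v)
    · refine b.repr.injective (Finsupp.ext fun i => ?_)
      have := congrFun (congrArg Subtype.val (m.2 g i)) u
      simp only [AddSubmonoidClass.coe_finsetSum, Finset.sum_apply, SetLike.val_smul,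
        Pi.smul_apply, smul_eq_mul, cjH_apply] at this
      rw [← mt_repr, e, ← this]
      simp only [e]

end bas

theorem h0_le (o : IsOpen (U : Set G)) (h : Odd U.index) (le : U ≤ R.ac.ker) {A' : Type}
    [AddCommGroup A'] [Module k A'] [FiniteDimensional k A] {R' : FR k G A'}
    {β : A' →ₗ[k] A →ₗ[k] k} (hP : Pf R' R β) : finrank k R'.H0 ≤ finrank k R.H0 := by
  have := U.quotient_finite_of_isOpen o
  have := Fintype.ofFinite (G ⧸ U)
  rw [← Subspace.dual_finrank_eq (V := R.H0)]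
  refine LinearMap.finrank_le_finrank_of_injective (f := β.domRestrict₁₂ R'.H0 R.H0)
    ((injective_iff_map_eq_zero _).2 fun u hu => Subtype.ext (hP.nl _ fun v => ?_))
  have m : ∑ δ : G ⧸ U, R.ac δ.out v ∈ R.H0 := R.mem_H0.2 fun g => by
    rw [map_sum, ← Equiv.sum_comp (toPerm g) fun δ : G ⧸ U => R.ac δ.out v]
    exact Finset.sum_congr rfl fun δ _ => by
      rw [← R.mul]
      exact ac_eq le ((out_smul g δ).trans (toPerm g δ).out_eq'.symm) v
  have e : β u (∑ δ : G ⧸ U, R.ac δ.out v) = 0 := LinearMap.congr_fun hu ⟨_, m⟩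
  simp only [map_sum, hP.inv, R'.mem_H0.1 u.2] at e
  rwa [Finset.sum_const, Finset.card_univ, ← Nat.card_eq_fintype_card,
    odd_smul k (n := Nat.card (G ⧸ U)) h] at e

theorem count [Finite k] [FiniteDimensional k A] (o : IsOpen (U : Set G)) (h : Odd U.index)
    (le : U ≤ R.ac.ker) {y : ℕ}
    (hy : ∀ (ι : Type) [Fintype ι] [DecidableEq ι] (a : G →* Matrix ι ι (ZMod 2)),
      (∀ u ∈ U, a u = 1) → Nat.card (Iv a (cjH U)) =
        Nat.card (Iv a fun _ => AddMonoidHom.id (ZMod 2)) ^ 2 * y ^ Fintype.card ι) :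
    ∃ r, Nat.card A = 2 ^ r ∧ Nat.card R.Z1 = Nat.card R.B1 * (Nat.card R.H0 ^ 2 * y ^ r) := by
  let _ : Module (ZMod 2) A := AddCommGroup.zmodModule fun v => by
    rw [two_nsmul]; exact add_self (k := k) v
  have : Finite A := Module.finite_of_finite k
  have : Module.Finite (ZMod 2) A := Module.Finite.of_finite
  refine ⟨finrank (ZMod 2) A, by rw [Module.natCard_eq_pow_finrank (K := ZMod 2), Nat.card_zmod], ?_⟩
  rw [card_z1 o h le, card_eh (finBasis (ZMod 2) A), hy _ _ fun u hu => mt_u _ le hu,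
    ← card_h0, Fintype.card_fin]

end Od

open Od

/-- The formula for a module on which the group acts through a quotient of odd order. -/
theorem odd [Finite k] [Algebra (ZMod 2) k] [FiniteDimensional k A] (L : LF G) (C : Cnt G)
    (R : FR k G A) (h : Odd R.ac.ker.index) : FE R := by
  intro A' _ _ R' β hP
  obtain ⟨f', -, -⟩ := hP.bij
  have o := R.ker_open
  obtain ⟨y, hy⟩ := C R.ac.ker o h
  obtain ⟨r, r1, r2⟩ := count (R := R) o h le_rfl hy
  obtain ⟨d, d1, d2⟩ := count (R := triv k G) o h (fun _ _ => rfl) hy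
  have := (ldm (k := k) L).fin R
  have := (ldm (k := k) L).fin (triv k G)
  have e1 : finrank k R'.H0 = finrank k R.H0 := le_antisymm (h0_le o h le_rfl hP)
    (h0_le o h (fun _ hg => hP.triv hg) hP.flip)
  have e2 : (triv k G).Z1 = Hm k G := Submodule.ext fun _ => triv_z1
  have e3 : (triv k G).H0 = ⊤ := eq_top_iff.2 fun _ _ => (FR.mem_H0 _).2 fun _ => rfl
  have e4 := (triv k G).rank_B1
  have e5 := R.rank_B1
  rw [e3, finrank_top, finrank_self] at e4
  rw [Module.natCard_eq_pow_finrank (K := k)] at r1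
  rw [Module.natCard_eq_pow_finrank (K := k) (V := R.Z1),
    Module.natCard_eq_pow_finrank (K := k) (V := R.B1),
    Module.natCard_eq_pow_finrank (K := k) (V := R.H0)] at r2
  rw [Module.natCard_eq_pow_finrank (K := k) (V := (triv k G).Z1),
    Module.natCard_eq_pow_finrank (K := k) (V := (triv k G).B1),
    Module.natCard_eq_pow_finrank (K := k) (V := (triv k G).H0), e3, finrank_top, finrank_self,
    show finrank k (triv k G).B1 = 0 by omega, pow_zero, one_mul, pow_one, e2] at d2
  have e6 : r = d * finrank k A := Nat.pow_right_injective le_rfl (by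
    beta_reduce
    rw [← r1, d1, pow_mul])
  have e7 : Nat.card k ^ (finrank k R.Z1 + 2 * finrank k A) =
      Nat.card k ^ (finrank k R.B1 + finrank k R.H0 * 2 + finrank k (Hm k G) * finrank k A) := by
    rw [pow_add, r2, e6, pow_add, pow_add, pow_mul _ (finrank k (Hm k G)), d2]
    ring
  have e8 := Nat.pow_right_injective (Finite.one_lt_card (α := k)) e7
  omega

end Pool.Agent.BC.Eu
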