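import Mathlib

/-! Counting periodic points on finite subquotients. -/

namespace Pool.Agent.BC.Eu

open scoped Classical

section One

variable {G G' : Type} [AddCommGroup G] [AddCommGroup G'] (T : Module.End ℤ G)
  (T' : Module.End ℤ G')

/-- The points that are periodic modulo `A`. -/
def Pe (A : AddSubgroup G) : AddSubgroup G where
  carrier := {x | ∃ n, 0 < n ∧ ∀ m, (T ^ (n * m)) x - x ∈ A}
  add_mem' := by
    rintro x y ⟨n, h0, h⟩ ⟨n', h0', h'⟩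
    refine ⟨n * n', Nat.mul_pos h0 h0', fun m => ?_⟩
    rw [map_add, add_sub_add_comm]
    refine add_mem ?_ ?_
    · rw [mul_assoc]; exact h _
    · rw [mul_right_comm, mul_comm]; exact h' _
  zero_mem' := ⟨1, one_pos, fun m => by simp⟩
  neg_mem' := by
    rintro x ⟨n, h0, h⟩
    refine ⟨n, h0, fun m => ?_⟩
    rw [map_neg, neg_sub_neg, ← neg_mem_iff, neg_sub]
    exact h m

/-- The number of periodic points on `V / A`. -/
noncomputable def ci (A V : AddSubgroup G) : ℕ := A.relIndex (V ⊓ Pe T A)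

variable {T T'}

theorem pow_mem {A : AddSubgroup G} (hA : ∀ x ∈ A, T x ∈ A) (n : ℕ) : ∀ x ∈ A, (T ^ n) x ∈ A := by
  induction n with
  | zero => exact fun x hx => hx
  | succ n ih => exact fun x hx => by rw [pow_succ]; exact ih _ (hA x hx)

theorem mem_Pe {A : AddSubgroup G} (hA : ∀ x ∈ A, T x ∈ A) {x : G} {n : ℕ} (h0 : 0 < n)
    (h : (T ^ n) x - x ∈ A) : x ∈ Pe T A := by
  refine ⟨n, h0, fun m => ?_⟩
  induction m with
  | zero => simp
  | succ m ih =>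
    have := add_mem (pow_mem hA (n * m) _ h) ih
    rwa [map_sub, sub_add_sub_cancel, ← Module.End.mul_apply, ← pow_add, ← Nat.mul_succ] at this

theorem le_Pe {A : AddSubgroup G} (hA : ∀ x ∈ A, T x ∈ A) : A ≤ Pe T A := fun x hx =>
  mem_Pe hA one_pos (sub_mem (pow_mem hA 1 x hx) hx)

theorem Pe_st {A : AddSubgroup G} (hA : ∀ x ∈ A, T x ∈ A) : ∀ x ∈ Pe T A, T x ∈ Pe T A := by
  rintro x ⟨n, h0, h⟩
  refine ⟨n, h0, fun m => ?_⟩
  have := hA _ (h m)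
  rwa [map_sub, ← Module.End.mul_apply, ← pow_succ', pow_succ, Module.End.mul_apply] at this

theorem ev {A W : AddSubgroup G} (hA : ∀ x ∈ A, T x ∈ A) (hW : ∀ x ∈ W, T x ∈ W)
    (f : A.relIndex W ≠ 0) {x : G} (hx : x ∈ W) : ∃ i, (T ^ i) x ∈ Pe T A := by
  have : Finite (W ⧸ A.addSubgroupOf W) := AddSubgroup.index_ne_zero_iff_finite.1 f
  obtain ⟨i, j, h1, h2⟩ := Finite.exists_ne_map_eq_of_infinite
    fun i : ℕ => (QuotientAddGroup.mk ⟨(T ^ i) x, pow_mem hW i x hx⟩ : W ⧸ A.addSubgroupOf W)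
  wlog lt : i < j generalizing i j
  · exact this j i h1.symm h2.symm (by omega)
  obtain ⟨n, rfl⟩ : ∃ n, j = n + i := ⟨j - i, by omega⟩
  refine ⟨i, mem_Pe hA (n := n) (by omega) ?_⟩
  have h3 := AddSubgroup.mem_addSubgroupOf.1 (QuotientAddGroup.eq.1 h2)
  change -(T ^ i) x + (T ^ (n + i)) x ∈ A at h3
  rwa [neg_add_eq_sub, pow_add, Module.End.mul_apply] at h3

theorem ci_ne {A W : AddSubgroup G} (f : A.relIndex W ≠ 0) : ci T A W ≠ 0 :=
  mt (AddSubgroup.relIndex_eq_zero_of_le_right inf_le_left) f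

theorem ci_mul {A V W : AddSubgroup G} (hA : ∀ x ∈ A, T x ∈ A) (hV : ∀ x ∈ V, T x ∈ V)
    (hW : ∀ x ∈ W, T x ∈ W) (h1 : A ≤ V) (h2 : V ≤ W) (f : A.relIndex W ≠ 0) : ci T A W = ci T A V * ci T V W := by
  have e : W ⊓ Pe T A ⊔ V = W ⊓ Pe T V := by
    refine le_antisymm (sup_le (fun x ⟨a, n, b, c⟩ => ⟨a, n, b, fun m => h1 (c m)⟩) fun x hx =>
      ⟨h2 hx, le_Pe hV hx⟩) fun x ⟨a, n, b, c⟩ => ?_
    · obtain ⟨i, hi⟩ := ev hA hW f a
      have h3 : (T ^ (n * i)) x ∈ Pe T A := by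
        have := pow_mem (Pe_st hA) (n * i - i) _ hi
        rwa [← Module.End.mul_apply, ← pow_add,
          Nat.sub_add_cancel (Nat.le_mul_of_pos_left i b)] at this
      exact AddSubgroup.mem_sup.2 ⟨_, ⟨pow_mem hW _ x a, h3⟩, _, neg_mem (c i), by abel⟩
  rw [ci, ci, ci, ← AddSubgroup.relIndex_mul_relIndex A (V ⊓ Pe T A) (W ⊓ Pe T A)
    (le_inf h1 (le_Pe hA)) (inf_le_inf_right _ h2), ← e, AddSubgroup.relIndex_sup_right,
    ← AddSubgroup.inf_relIndex_right V, ← inf_assoc, inf_eq_left.2 h2]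

theorem rel_eq {A V : AddSubgroup G} {A' V' : AddSubgroup G'} (g : G → G')
    (h1 : ∀ x ∈ V, g x ∈ V') (h2 : ∀ y ∈ V', ∃ x ∈ V, g x - y ∈ A')
    (h3 : ∀ x ∈ V, ∀ y ∈ V, x - y ∈ A ↔ g x - g y ∈ A') : A.relIndex V = A'.relIndex V' := by
  have key : ∀ x y : V, QuotientAddGroup.leftRel (A.addSubgroupOf V) x y ↔
      QuotientAddGroup.leftRel (A'.addSubgroupOf V') ⟨g x, h1 _ x.2⟩ ⟨g y, h1 _ y.2⟩ :=
    fun x y => by
      rw [QuotientAddGroup.leftRel_apply, QuotientAddGroup.leftRel_apply, neg_add_eq_sub,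
        neg_add_eq_sub]
      exact h3 _ y.2 _ x.2
  refine Nat.card_congr (Equiv.ofBijective
    (Quotient.map' (fun x : V => (⟨g x, h1 _ x.2⟩ : V')) fun x y => (key x y).1) ⟨?_, ?_⟩)
  · rintro ⟨x⟩ ⟨y⟩ h
    exact Quotient.sound' ((key x y).2 (Quotient.exact' h))
  · rintro ⟨y⟩
    obtain ⟨x, hx, h⟩ := h2 y y.2
    refine ⟨Quotient.mk'' ⟨x, hx⟩, (Quotient.sound' ?_).symm⟩
    rw [QuotientAddGroup.leftRel_apply, neg_add_eq_sub]
    exact h

theorem ci_congr {A V : AddSubgroup G} {A' V' : AddSubgroup G'} (hV : ∀ x ∈ V, T x ∈ V)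
    (hA' : ∀ x ∈ A', T' x ∈ A') (g : G → G')
    (h1 : ∀ x ∈ V, g x ∈ V') (h2 : ∀ y ∈ V', ∃ x ∈ V, g x - y ∈ A')
    (h3 : ∀ x ∈ V, ∀ y ∈ V, x - y ∈ A ↔ g x - g y ∈ A')
    (h4 : ∀ x ∈ V, g (T x) - T' (g x) ∈ A') : ci T A V = ci T' A' V' := by
  have h5 : ∀ n, ∀ x ∈ V, g ((T ^ n) x) - (T' ^ n) (g x) ∈ A' := fun n => by
    induction n with
    | zero => simp
    | succ n ih =>
      intro x hx
      have := add_mem (h4 _ (pow_mem hV n x hx)) (hA' _ (ih x hx))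
      rwa [map_sub, sub_add_sub_cancel, ← Module.End.mul_apply, ← Module.End.mul_apply,
        ← pow_succ', ← pow_succ'] at this
  have h6 : ∀ x ∈ V, x ∈ Pe T A ↔ g x ∈ Pe T' A' := fun x hx =>
    exists_congr fun n => and_congr_right fun _ => forall_congr' fun m => by
      rw [h3 _ (pow_mem hV _ x hx) _ hx, ← sub_add_sub_cancel _ ((T' ^ (n * m)) (g x)),
        add_mem_cancel_left (h5 _ x hx)]
  refine rel_eq g (fun x hx => ⟨h1 x hx.1, (h6 x hx.1).1 hx.2⟩) (fun y hy => ?_)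
    fun x hx y hy => h3 x hx.1 y hy.1
  obtain ⟨x, hx, h⟩ := h2 y hy.1
  refine ⟨x, ⟨hx, (h6 x hx).2 ?_⟩, h⟩
  have := add_mem (le_Pe hA' h) hy.2
  rwa [sub_add_cancel] at this

end One

section Two

variable {Δ ι : Type} [Fintype Δ] [Fintype ι] (a : Δ → ι → ι → ℕ)
  {M M' : Type} [AddCommGroup M] [AddCommGroup M'] (ρ : Δ → M →+ M) (ρ' : Δ → M' →+ M')

/-- The operator attached to a family of matrices. -/
def op : Module.End ℤ (ι → M) :=
  LinearMap.pi fun i => ∑ δ, ∑ j, a δ i j • ((ρ δ).toIntLinearMap ∘ₗ LinearMap.proj j)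

theorem op_apply (x : ι → M) (i : ι) : op a ρ x i = ∑ δ, ∑ j, a δ i j • ρ δ (x j) := by
  simp [op]

/-- Stable subgroups. -/
def St (A : AddSubgroup M) : Prop := ∀ δ, ∀ x ∈ A, ρ δ x ∈ A

variable (ι) in
/-- Vectors with entries in `A`. -/
def pp (A : AddSubgroup M) : AddSubgroup (ι → M) := AddSubgroup.pi Set.univ fun _ => A

omit [Fintype ι] in
theorem mem_pp {A : AddSubgroup M} {x : ι → M} : x ∈ pp ι A ↔ ∀ i, x i ∈ A := by
  simp [pp, AddSubgroup.mem_pi]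

/-- The multiplicative invariant of `V / A`. -/
noncomputable def cc (A V : AddSubgroup M) : ℕ := ci (op a ρ) (pp ι A) (pp ι V)

variable {ρ ρ'}

theorem St.op {A : AddSubgroup M} (h : St ρ A) : ∀ x ∈ pp ι A, op a ρ x ∈ pp ι A := fun x hx =>
  mem_pp.2 fun i => by
    rw [op_apply]
    exact sum_mem fun δ _ => sum_mem fun j _ => nsmul_mem (h δ _ (mem_pp.1 hx j)) _

theorem pp_ne {A V : AddSubgroup M} (f : A.relIndex V ≠ 0) : (pp ι A).relIndex (pp ι V) ≠ 0 := by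
  have : Finite (V ⧸ A.addSubgroupOf V) := AddSubgroup.index_ne_zero_iff_finite.1 f
  refine AddSubgroup.index_ne_zero_iff_finite.2 (Finite.of_injective
    (fun (c : pp ι V ⧸ (pp ι A).addSubgroupOf (pp ι V)) (i : ι) =>
      (QuotientAddGroup.mk ⟨c.out.1 i, mem_pp.1 c.out.2 i⟩ : V ⧸ A.addSubgroupOf V)) fun c d e => ?_)
  rw [← c.out_eq, ← d.out_eq]
  exact QuotientAddGroup.eq.2 (AddSubgroup.mem_addSubgroupOf.2 (mem_pp.2 fun i =>
    AddSubgroup.mem_addSubgroupOf.1 (QuotientAddGroup.eq.1 (congrFun e i))))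

theorem cc_ne {A V : AddSubgroup M} (f : A.relIndex V ≠ 0) : cc a ρ A V ≠ 0 := ci_ne (pp_ne f)

theorem cc_mul {A V W : AddSubgroup M} (hA : St ρ A) (hV : St ρ V) (hW : St ρ W) (h1 : A ≤ V)
    (h2 : V ≤ W) (f : A.relIndex W ≠ 0) : cc a ρ A W = cc a ρ A V * cc a ρ V W :=
  ci_mul (hA.op a) (hV.op a) (hW.op a) (fun _ h => mem_pp.2 fun i => h1 (mem_pp.1 h i))
    (fun _ h => mem_pp.2 fun i => h2 (mem_pp.1 h i)) (pp_ne f)

theorem cc_congr {A V : AddSubgroup M} {A' V' : AddSubgroup M'} (hV : St ρ V) (hA' : St ρ' A')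
    (g : M → M') (h1 : ∀ x ∈ V, g x ∈ V') (h2 : ∀ y ∈ V', ∃ x ∈ V, g x - y ∈ A')
    (h3 : ∀ x ∈ V, g x ∈ A' ↔ x ∈ A)
    (h4 : ∀ x ∈ V, ∀ y ∈ V, g (x + y) - (g x + g y) ∈ A')
    (h5 : ∀ δ, ∀ x ∈ V, g (ρ δ x) - ρ' δ (g x) ∈ A') : cc a ρ A V = cc a ρ' A' V' := by
  let φ : V →+ M' ⧸ A' := AddMonoidHom.mk' (fun x => (g x : M' ⧸ A')) fun x y =>
    (QuotientAddGroup.eq_iff_sub_mem.2 (h4 _ x.2 _ y.2)).trans (QuotientAddGroup.mk_add _ _ _)
  refine ci_congr (hV.op a) (hA'.op a) (fun x i => g (x i))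
    (fun x hx => mem_pp.2 fun i => h1 _ (mem_pp.1 hx i)) (fun y hy => ?_) (fun x hx y hy => ?_)
    fun x hx => mem_pp.2 fun i => ?_
  · choose x h h' using fun i => h2 _ (mem_pp.1 hy i)
    exact ⟨x, mem_pp.2 h, mem_pp.2 h'⟩
  · rw [mem_pp, mem_pp]
    refine forall_congr' fun i => ?_
    have e := φ.map_sub ⟨_, mem_pp.1 hx i⟩ ⟨_, mem_pp.1 hy i⟩
    rw [Pi.sub_apply, Pi.sub_apply, ← h3 _ (sub_mem (mem_pp.1 hx i) (mem_pp.1 hy i)),
      ← QuotientAddGroup.eq_zero_iff, ← QuotientAddGroup.eq_zero_iff, QuotientAddGroup.mk_sub]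
    exact e ▸ Iff.rfl
  · have e : (⟨op a ρ x i, mem_pp.1 (hV.op a x hx) i⟩ : V) =
        ∑ δ, ∑ j, a δ i j • (⟨ρ δ (x j), hV δ _ (mem_pp.1 hx j)⟩ : V) :=
      Subtype.ext (by simp [op_apply])
    have e' := congrArg φ e
    simp only [map_sum, map_nsmul] at e'
    refine QuotientAddGroup.eq_iff_sub_mem.1 (Eq.trans e' ?_)
    rw [op_apply]
    simp only [QuotientAddGroup.mk_sum, QuotientAddGroup.mk_nsmul]
    exact Finset.sum_congr rfl fun δ _ => Finset.sum_congr rfl fun j _ => congrArg _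
      (QuotientAddGroup.eq_iff_sub_mem.2 (h5 δ _ (mem_pp.1 hx j)))

theorem cc_hom {A V : AddSubgroup M} {A' V' : AddSubgroup M'} (hV : St ρ V) (hA' : St ρ' A')
    (g : M →+ M') (h1 : ∀ x ∈ V, g x ∈ V') (h2 : ∀ y ∈ V', ∃ x ∈ V, g x - y ∈ A')
    (h3 : ∀ x ∈ V, g x ∈ A' ↔ x ∈ A) (h5 : ∀ δ, ∀ x ∈ V, g (ρ δ x) = ρ' δ (g x)) :
    cc a ρ A V = cc a ρ' A' V' :=
  cc_congr a hV hA' g h1 h2 h3 (fun x _ y _ => by simp) fun δ x hx => by simp [h5 δ x hx]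

/-- Doubling. -/
def dbl (A : AddSubgroup M) : AddSubgroup M := A.map (nsmulAddMonoidHom 2)

omit [Fintype Δ] in
theorem St.dbl {A : AddSubgroup M} (h : St ρ A) : St ρ (dbl A) := by
  rintro δ _ ⟨x, hx, rfl⟩
  exact ⟨_, h δ x hx, (map_nsmul _ _ _).symm⟩

theorem dbl_le (A : AddSubgroup M) : dbl A ≤ A := by
  rintro _ ⟨x, hx, rfl⟩
  exact nsmul_mem hx 2

omit [Fintype Δ] in
theorem St.sup {A B : AddSubgroup M} (h : St ρ A) (h' : St ρ B) : St ρ (A ⊔ B) := fun δ x hx => by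
  obtain ⟨y, hy, z, hz, rfl⟩ := AddSubgroup.mem_sup.1 hx
  rw [map_add]
  exact AddSubgroup.add_mem_sup (h δ y hy) (h' δ z hz)

/-- The quotient by the doubles compared with a subgroup of finite index. -/
theorem cc_dbl {A B V : AddSubgroup M} (hA : St ρ A) (hB : St ρ B) (hV : St ρ V) (h1 : A ≤ B)
    (h2 : B ≤ V) (f : (dbl A).relIndex V ≠ 0) (h3 : ∀ x ∈ V, 2 • x ∈ dbl A ↔ x ∈ B) :
    cc a ρ (dbl V) V = cc a ρ (dbl A) A * cc a ρ A B := by
  have f' : A.relIndex V ≠ 0 := mt (AddSubgroup.relIndex_eq_zero_of_le_left (dbl_le A)) f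
  have e1 := cc_mul a hA.dbl hV.dbl hV (AddSubgroup.map_mono (h1.trans h2)) (dbl_le V) f
  have e2 := cc_mul a hA.dbl hA hV (dbl_le A) (h1.trans h2) f
  have e3 := cc_mul a hA hB hV h1 h2 f'
  have e4 : cc a ρ B V = cc a ρ (dbl A) (dbl V) :=
    cc_hom a hV hA.dbl (nsmulAddMonoidHom 2) (fun x hx => ⟨x, hx, rfl⟩)
      (by rintro _ ⟨x, hx, rfl⟩; exact ⟨x, hx, by simp⟩) h3 fun δ x _ => (map_nsmul _ _ _).symm
  refine mul_left_cancel₀ (cc_ne a (ρ := ρ)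
    (mt (AddSubgroup.relIndex_eq_zero_of_le_left h1) f')) ?_
  rw [e4, ← e1, e2, e3, e4]
  ring

theorem cc_self {A : AddSubgroup M} : cc a ρ A A = 1 :=
  AddSubgroup.relIndex_eq_one.2 inf_le_left

end Two

section Three

variable {Δ ι : Type} [Group Δ] [Fintype ι] [DecidableEq ι] (a : Δ →* Matrix ι ι (ZMod 2))
  {M : Type} [AddCommGroup M] [Module (ZMod 2) M] (ρ : Δ → M →+ M)

/-- The invariants of the tensor product. -/
def Iv : Set (ι → M) := {x | ∀ δ i, ∑ j, a δ i j • ρ δ (x j) = x i}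

variable {ρ}

theorem cc_eq [Fintype Δ] (h : Odd (Fintype.card Δ)) (hρ : ∀ δ δ' x, ρ (δ * δ') x = ρ δ (ρ δ' x)) :
    cc (fun δ i j => (a δ i j).val) ρ ⊥ ⊤ = Nat.card (Iv a ρ) := by
  have e : ∀ (x : ι → M) i, op (fun δ i j => (a δ i j).val) ρ x i =
      ∑ δ, ∑ j, a δ i j • ρ δ (x j) := fun x i => by
    simp only [op_apply, ← Nat.cast_smul_eq_nsmul (ZMod 2), ZMod.natCast_zmod_val]
  have h1 : ∀ x : ι → M, op (fun δ i j => (a δ i j).val) ρ x ∈ Iv a ρ := fun x δ i => by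
    simp only [e, map_sum, ZMod.map_smul, Finset.smul_sum, smul_smul, ← hρ]
    rw [Finset.sum_comm]
    refine Eq.trans (Finset.sum_congr rfl fun δ' _ => ?_) (Equiv.sum_comp (Equiv.mulLeft δ) _)
    rw [Finset.sum_comm]
    simp only [Equiv.coe_mulLeft, map_mul, Matrix.mul_apply, Finset.sum_smul]
  have h2 : ∀ x ∈ Iv a ρ, op (fun δ i j => (a δ i j).val) ρ x = x := fun x hx => funext fun i => by
    obtain ⟨m, hm⟩ := h
    rw [e, Finset.sum_congr rfl fun δ _ => hx δ i, Finset.sum_const, Finset.card_univ, hm,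
      ← Nat.cast_smul_eq_nsmul (ZMod 2), Nat.cast_add, Nat.cast_mul,
      show ((2 : ℕ) : ZMod 2) = 0 from rfl, zero_mul, zero_add, Nat.cast_one, one_smul]
  have h3 : pp ι (⊥ : AddSubgroup M) = ⊥ := by
    ext x
    simp [mem_pp, funext_iff]
  rw [cc, ci, h3, AddSubgroup.relIndex_bot_left]
  refine Nat.card_congr (Equiv.subtypeEquivRight fun x => ⟨fun ⟨_, n, h0, h4⟩ => ?_, fun hx =>
    ⟨mem_pp.2 fun _ => trivial, mem_Pe (by simp) one_pos (by simp [h2 x hx])⟩⟩)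
  obtain ⟨n, rfl⟩ : ∃ m, n = m + 1 := ⟨n - 1, by omega⟩
  have := h4 1
  rw [mul_one, AddSubgroup.mem_bot, sub_eq_zero, pow_succ', Module.End.mul_apply] at this
  rw [← this]
  exact h1 _

/-- Left translation on functions. -/
def reg (Y : Type) [AddCommGroup Y] (δ : Δ) : (Δ → Y) →+ (Δ → Y) :=
  AddMonoidHom.mk' (fun f σ => f (δ⁻¹ * σ)) fun _ _ => rfl

theorem card_reg (Y : Type) [AddCommGroup Y] [Module (ZMod 2) Y] :
    Nat.card (Iv a (reg Y)) = Nat.card Y ^ Fintype.card ι := by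
  rw [← Nat.card_eq_fintype_card, ← Nat.card_fun]
  refine Nat.card_congr (Equiv.ofBijective (fun x i => x.1 i 1) ⟨fun x y e => ?_, fun y => ?_⟩)
  · refine Subtype.ext (funext fun i => funext fun σ => ?_)
    rw [← x.2 σ i, ← y.2 σ i]
    simp [reg, congrFun e]
  · refine ⟨⟨fun i σ => ∑ j, a σ i j • y j, fun δ i => funext fun σ => ?_⟩, funext fun i => ?_⟩
    · simp only [reg, Finset.sum_apply, Pi.smul_apply, AddMonoidHom.mk'_apply, Finset.smul_sum,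
        smul_smul]
      rw [Finset.sum_comm]
      simp only [← Finset.sum_smul, ← Matrix.mul_apply, ← map_mul, mul_inv_cancel_left]
    · simp [Matrix.one_apply]

end Three

end Pool.Agent.BC.Eu
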