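import Pool.Agent.Lib.MP_b4b3cb_nt.BC.Inv

/-! Transport along isomorphisms of topological groups. -/

namespace Pool.Agent.BC

open scoped Classical
open Module Pool.Agent.SP

variable {k : Type} [Field k] {G G' : Type} [Group G] [TopologicalSpace G] [Group G']
  [TopologicalSpace G']

/-- A continuous bijective homomorphism from a compact group to a separated group. -/
noncomputable def mkIso [CompactSpace G] [T2Space G'] (φ : G →* G') (hφ : Continuous φ)
    (b : Function.Bijective φ) : G ≃ₜ* G' :=
  { MulEquiv.ofBijective φ b with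
    continuous_toFun := hφ
    continuous_invFun := Continuous.continuous_symm_of_equiv_compact_to_t2
      (f := Equiv.ofBijective φ b) hφ }

theorem mkIso_apply [CompactSpace G] [T2Space G'] (φ : G →* G') (hφ : Continuous φ)
    (b : Function.Bijective φ) (g : G) : mkIso φ hφ b g = φ g := rfl

theorem hm_iso (e : G ≃ₜ* G') {a : G' → k} (h : a ∈ Hm k G') : (fun g => a (e g)) ∈ Hm k G :=
  Hm.comp h e.toMulEquiv.toMonoidHom e.continuous

theorem cz_iso [CharP k 2] (e : G ≃ₜ* G') {ε : G' → G' → k} (h : Cz ε) : Cz fun g l => ε (e g) (e l) :=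
  cz_comap h e.toMulEquiv.toMonoidHom e.continuous

theorem sz_iso [CharP k 2] (e : G ≃ₜ* G') {ε : G' → G' → k} : (Sz fun g l => ε (e g) (e l)) ↔ Sz ε :=
  ⟨fun h => sz_congr (sz_comap h e.symm.toMulEquiv.toMonoidHom e.symm.continuous) fun g l =>
      congrArg₂ ε (e.apply_symm_apply g) (e.apply_symm_apply l),
    fun h => sz_comap h e.toMulEquiv.toMonoidHom e.continuous⟩

theorem invK_iso [Finite k] [Algebra (ZMod 2) k] (e : G ≃ₜ* G') (ε : G' → G' → k) :
    invK (fun g l => ε (e g) (e l)) = invK ε := by
  unfold invK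
  exact congrArg _ (funext fun i => if_congr (sz_iso e (ε := fun g l => cd i (ε g l))) rfl rfl)

variable (k) in
/-- Characters of isomorphic groups. -/
def hmEquiv (e : G ≃ₜ* G') : Hm k G' ≃ Hm k G where
  toFun a := ⟨_, hm_iso e a.2⟩
  invFun a := ⟨_, hm_iso e.symm a.2⟩
  left_inv a := Subtype.ext (funext fun g => congrArg a.1 (e.apply_symm_apply g))
  right_inv a := Subtype.ext (funext fun g => congrArg a.1 (e.symm_apply_apply g))

theorem L0.iso (e : G ≃ₜ* G') (h : L0 G) : L0 G' where
  two _ _ a b := (h.two _ _ (cz_iso e a) (cz_iso e b)).imp (sz_iso e).1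
    (.imp (sz_iso e).1 (sz_iso e).1)
  nd a ha h0 := funext fun g => (congrArg a (e.apply_symm_apply g)).symm.trans
    (congrFun (h.nd _ (hm_iso e ha) fun b hb => sz_congr ((sz_iso e).2 (h0 _ (hm_iso e.symm hb)))
      fun g l => congrArg (a (e g) * b ·) (e.symm_apply_apply l)) (e.symm g))
  fin := have := h.fin; Finite.of_equiv _ (hmEquiv _ e).symm

theorem L0.triv [Subsingleton G] : L0 G where
  two ε _ _ _ := .inl ⟨fun _ => ε 1 1, IsLocallyConstant.const _, fun g l => by
    rw [Subsingleton.elim g 1, Subsingleton.elim l 1, add_sub_cancel_right]⟩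
  nd a ha _ := funext fun g => by
    have := ha.2 g g
    rwa [Subsingleton.elim (g * g) g, left_eq_add] at this
  fin := inferInstance

variable (G) in
/-- The whole group as a subgroup. -/
def topIso : G ≃ₜ* (⊤ : Subgroup G) :=
  { Subgroup.topEquiv.symm with
    continuous_toFun := continuous_id.subtype_mk _
    continuous_invFun := continuous_subtype_val }

end Pool.Agent.BC
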