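import Pool.Agent.Lib.MP_b4b3cb_nt.BC.MI
import Pool.Agent.Lib.MP_b4b3cb_nt.BC.Iso

/-! The local Euler characteristic: the statement for modules that are trivial on a subgroup. -/

set_option autoImplicit false

namespace Pool.Agent.BC

open Module

variable (k : Type) [Field k] {G : Type} [Group G] [TopologicalSpace G]

/-- The Euler characteristic formula for the modules on which `U` acts trivially. -/
def EPt (U : Subgroup G) (n : ℕ) : Prop :=
  ∀ {A A' : Type} [AddCommGroup A] [Module k A] [FiniteDimensional k A] [AddCommGroup A']
    [Module k A'] {R' : FR k G A'} {R : FR k G A} {β : A' →ₗ[k] A →ₗ[k] k}, Pf R' R β →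
    U ≤ R.ac.ker → finrank k R.Z1 = finrank k A + finrank k R'.H0 + n * finrank k A

end Pool.Agent.BC
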