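import Pool.Agent.Lib.MP_b4b3cb_nt.BC.EuC
import Pool.Agent.Lib.MP_ca56d1_nt.Loc1

/-! The square classes of a valued field as a module for a group of odd order. -/

namespace Pool.Agent.BC.Eu

open scoped Classical
open Pool.Agent.Stark Pool.Agent.Stark.LocAux

section Gen

variable {Δ ι : Type} [Fintype Δ] [Fintype ι] (a : Δ → ι → ι → ℕ)
  {M : Type} [AddCommGroup M] {ρ : Δ → M →+ M}

theorem cc_sq {K A B V : AddSubgroup M} (hK : St ρ K) (hA : St ρ A) (hB : St ρ B) (hV : St ρ V)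
    (h0 : K ≤ A) (h1 : A ≤ B) (h2 : B ≤ V) (f : K.relIndex V ≠ 0)
    (h3 : ∀ x ∈ V, 2 • x ∈ K ↔ x ∈ B) :
    cc a ρ (K ⊔ dbl V) V = cc a ρ K A * cc a ρ A B := by
  have f' : A.relIndex V ≠ 0 := mt (AddSubgroup.relIndex_eq_zero_of_le_left h0) f
  have e1 := cc_mul a hK (hK.sup hV.dbl) hV le_sup_left
    (sup_le (h0.trans (h1.trans h2)) (dbl_le V)) f
  have e2 := cc_mul a hK hA hV h0 (h1.trans h2) f
  have e3 := cc_mul a hA hB hV h1 h2 f'
  have e4 : cc a ρ B V = cc a ρ K (K ⊔ dbl V) :=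
    cc_hom a hV hK (nsmulAddMonoidHom 2) (fun x hx => AddSubgroup.mem_sup_right ⟨x, hx, rfl⟩)
      (fun y hy => by
        obtain ⟨k, hk, _, ⟨x, hx, rfl⟩, rfl⟩ := AddSubgroup.mem_sup.1 hy
        exact ⟨x, hx, by simpa using hk⟩) h3 fun δ x _ => (map_nsmul _ _ _).symm
  refine mul_left_cancel₀ (cc_ne a (ρ := ρ)
    (mt (AddSubgroup.relIndex_eq_zero_of_le_left h1) f')) ?_
  rw [e4, ← e1, e2, e3, e4]
  ring

end Gen

variable {F₀ F : Type} [Field F₀] [Field F] [Algebra F₀ F] [FiniteDimensional F₀ F]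
  {w : Valuation F (WithZero (Multiplicative ℤ))}

/-- The action on the additive group. -/
def rA (δ : Gal(F/F₀)) : F →+ F := (δ : F →+* F).toAddMonoidHom

/-- The action on the multiplicative group. -/
def rM (δ : Gal(F/F₀)) : Additive Fˣ →+ Additive Fˣ :=
  MonoidHom.toAdditive (Units.map (δ : F →* F))

omit [FiniteDimensional F₀ F] in
theorem st_pw (hw : ∀ (δ : Gal(F/F₀)) x, w (δ x) = w x) (j : ℤ) :
    St (rA (F₀ := F₀)) (pw w j) := fun δ x hx => (hw δ x).le.trans hx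

theorem dbl_pw (h2 : (2 : F) ≠ 0) (j : ℤ) : dbl (pw w j) = pw w (j + ord w (2 : F)) := by
  ext x
  constructor
  · rintro ⟨y, hy, rfl⟩
    rw [nsmulAddMonoidHom_apply, nsmul_eq_mul, Nat.cast_ofNat]
    exact pw_mul (mem_of_le le_rfl) hy (by omega)
  · intro hx
    refine ⟨x / 2, pw_div hx le_rfl, ?_⟩
    rw [nsmulAddMonoidHom_apply, nsmul_eq_mul, Nat.cast_ofNat, mul_div_cancel₀ _ h2]

/-- The additive part: lattice independence and the normal basis theorem. -/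
theorem lat [IsGalois F₀ F] (h2 : (2 : F) ≠ 0) (hf : ∀ i j, (pw w j).relIndex (pw w i) ≠ 0)
    (hw : ∀ (δ : Gal(F/F₀)) x, w (δ x) = w x) (odd : Odd (Fintype.card Gal(F/F₀))) (j : ℤ) :
    ∃ y : ℕ, ∀ (ι : Type) [Fintype ι] [DecidableEq ι] (a : Gal(F/F₀) →* Matrix ι ι (ZMod 2)),
      cc (fun δ i l => (a δ i l).val) rA (dbl (pw w j)) (pw w j) = y ^ Fintype.card ι := by
  let b := IsGalois.normalBasis F₀ F
  have hb : ∀ δ, b δ = δ (b 1) := IsGalois.normalBasis_apply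
  have h20 : (2 : F₀) ≠ 0 := fun h => h2 (by rw [← map_ofNat (algebraMap F₀ F) 2, h, map_zero])
  let B : AddSubgroup F₀ := (pw w (j - ord w (b 1))).comap (algebraMap F₀ F).toAddMonoidHom
  let Y := B ⧸ dbl (⊤ : AddSubgroup B)
  let _ : Module (ZMod 2) Y := AddCommGroup.zmodModule fun y => by
    obtain ⟨y, rfl⟩ := QuotientAddGroup.mk_surjective y
    exact (QuotientAddGroup.eq_zero_iff (2 • y)).2 ⟨y, trivial, rfl⟩
  refine ⟨Nat.card Y, fun ι _ _ a => ?_⟩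
  let g : (Gal(F/F₀) → B) →+ F :=
    b.equivFun.symm.toAddEquiv.toAddMonoidHom.comp (B.subtype.compLeft _)
  have hg : ∀ f, g f = ∑ δ, (f δ).1 • b δ := fun f => b.equivFun_symm_apply _
  have inj : Function.Injective g := fun f f' e =>
    funext fun δ => Subtype.ext (congrFun (b.equivFun.symm.injective e) δ)
  have eqv : ∀ δ f, g (reg B δ f) = rA δ (g f) := fun δ f => by
    rw [hg, hg, map_sum, ← Equiv.sum_comp (Equiv.mulLeft δ)]
    refine Finset.sum_congr rfl fun σ _ => ?_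
    change (f (δ⁻¹ * (δ * σ))).1 • b (δ * σ) = δ ((f σ).1 • b σ)
    rw [inv_mul_cancel_left, map_smul, hb (δ * σ), hb σ, AlgEquiv.mul_apply]
  have sL : St (rA (F₀ := F₀)) g.range := by
    rintro δ _ ⟨f, rfl⟩
    exact ⟨_, eqv δ f⟩
  have sT : St (reg B (Δ := Gal(F/F₀))) ⊤ := fun _ _ _ => trivial
  have le : g.range ≤ pw w j := by
    rintro _ ⟨f, rfl⟩
    rw [hg]
    refine sum_mem fun δ _ => ?_
    rw [Algebra.smul_def]
    exact pw_mul (f δ).2 (show b δ ∈ pw w (ord w (b 1)) from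
      hb δ ▸ st_pw hw _ δ _ (mem_of_le le_rfl)) (by omega)
  obtain ⟨N, hN⟩ := Finite.exists_le fun δ => -ord w (b.traceDual δ)
  have ge : pw w (N + (j - ord w (b 1)) + ord w (2 : F)) ≤ dbl g.range := fun x hx => by
    have h3 : x / 2 ∈ pw w (N + (j - ord w (b 1))) := pw_div hx le_rfl
    have h4 : ∀ δ, b.repr (x / 2) δ ∈ B := fun δ => by
      have := b.traceDual.traceDual_repr_apply (x / 2) δ
      rw [Module.Basis.traceDual_traceDual] at this
      change algebraMap F₀ F _ ∈ pw w _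
      rw [this, Algebra.traceForm_apply, trace_eq_sum_automorphisms]
      exact sum_mem fun σ _ => st_pw hw _ σ _
        (pw_mul h3 (mem_of_le le_rfl) (by have := hN δ; omega))
    refine ⟨x / 2, ⟨fun δ => ⟨_, h4 δ⟩, (hg _).trans (b.sum_repr _)⟩, ?_⟩
    rw [nsmulAddMonoidHom_apply, nsmul_eq_mul, Nat.cast_ofNat, mul_div_cancel₀ _ h2]
  have tf : ∀ x y : F, 2 • x = 2 • y → x = y := fun x y h => by
    simpa [h2] using h
  rw [cc_dbl _ sL sL (st_pw hw j) le_rfl le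
    (mt (AddSubgroup.relIndex_eq_zero_of_le_left ge) (hf _ _))
    (fun x _ => ⟨fun ⟨y, hy, e⟩ => tf _ _ e ▸ hy, fun h => ⟨x, h, rfl⟩⟩), cc_self, mul_one,
    ← cc_hom _ (A := dbl ⊤) (V' := g.range) sT sL.dbl g (fun f _ => ⟨f, rfl⟩)
      (by rintro _ ⟨f, rfl⟩; exact ⟨f, trivial, by simp⟩)
      (fun f _ => ⟨fun ⟨_, ⟨f', rfl⟩, e⟩ => ⟨f', trivial, inj ((map_nsmul g 2 f').trans e)⟩,
        fun ⟨f', _, e⟩ => ⟨_, ⟨f', rfl⟩, e ▸ (map_nsmul g 2 f').symm⟩⟩) (fun δ f _ => eqv δ f),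
    cc_hom _ (ρ' := reg Y) (A' := ⊥) (V' := ⊤) sT (fun _ _ h => by simp [AddSubgroup.mem_bot.1 h])
      ((QuotientAddGroup.mk' _).compLeft _) (fun _ _ => trivial) (fun y _ => ?_) (fun f _ => ?_)
      (fun _ _ _ => rfl),
    cc_eq a odd (fun δ δ' f => funext fun σ => by simp [reg, mul_assoc]), card_reg]
  · choose f hf using fun δ => QuotientAddGroup.mk_surjective (y δ)
    exact ⟨f, trivial, sub_eq_zero.2 (funext hf)⟩
  · constructor
    · intro h
      choose f' _ hf' using fun δ => (QuotientAddGroup.eq_zero_iff (f δ)).1 (congrFun h δ)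
      exact ⟨f', trivial, funext hf'⟩
    · rintro ⟨f', -, rfl⟩
      exact funext fun δ => (QuotientAddGroup.eq_zero_iff _).2 ⟨f' δ, trivial, rfl⟩

/-- The multiplicative part. -/
theorem loc0 [IsGalois F₀ F] (h2 : (2 : F) ≠ 0) (hs : ∀ n, ∃ x : F, x ≠ 0 ∧ ord w x = n)
    (hf : ∀ i j, (pw w j).relIndex (pw w i) ≠ 0) (hw : ∀ (δ : Gal(F/F₀)) x, w (δ x) = w x)
    (odd : Odd (Fintype.card Gal(F/F₀))) :
    ∃ y : ℕ, ∀ (ι : Type) [Fintype ι] [DecidableEq ι] (a : Gal(F/F₀) →* Matrix ι ι (ZMod 2))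
      (H : Type) [AddCommGroup H] [Module (ZMod 2) H] [Finite H] (ρ : Gal(F/F₀) → H →+ H)
      (κ : Additive Fˣ →+ H), Function.Surjective κ → (∀ δ x, κ (rM δ x) = ρ δ (κ x)) →
      (∀ x : Fˣ, κ (.ofMul x) = 0 ↔ ∃ z : Fˣ, ((x / z ^ 2 : Fˣ) : F) - 1 ∈
        pw w (2 * ord w (2 : F) + 1)) →
      Nat.card (Iv a ρ) =
        Nat.card (Iv a fun _ => AddMonoidHom.id (ZMod 2)) ^ 2 * y ^ Fintype.card ι := by
  have he := two_nonneg (w := w) (k := F)
  obtain ⟨y, hy⟩ := lat h2 hf hw odd (ord w (2 : F) + 1)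
  refine ⟨y, fun ι _ _ a H _ _ _ ρ κ sj eqv ker => ?_⟩
  have ho : ∀ (δ : Gal(F/F₀)) x, ord w (δ x) = ord w x := fun δ x => by rw [ord, hw, ord]
  set e := ord w (2 : F) with hee
  let K := (U w (2 * e + 1) (by omega)).toAddSubgroup
  let A := (U w (e + 1) (by omega)).toAddSubgroup
  let B := K.comap (nsmulAddMonoidHom 2)
  let V := (V w).toAddSubgroup
  have sU : ∀ j hj, St (rM (F₀ := F₀)) (U w j hj).toAddSubgroup := fun j hj δ x hx => by
    have : δ ((x.toMul : F) - 1) ∈ pw w j := st_pw hw j δ _ hx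
    rwa [map_sub, map_one] at this
  have sB : St (rM (F₀ := F₀)) B := fun δ x hx => by
    have : rM δ (2 • x) ∈ K := sU (2 * e + 1) (by omega) δ (2 • x) hx
    rwa [map_nsmul] at this
  have sV : St (rM (F₀ := F₀)) V := fun δ x hx => (ho δ _).trans hx
  have sT : St (rM (F₀ := F₀) (F := F)) ⊤ := fun _ _ _ => trivial
  have mB : ∀ x : Fˣ, Additive.ofMul x ∈ B ↔ (x : F) ^ 2 - 1 ∈ pw w (2 * e + 1) := fun x => by
    rw [← Units.val_pow_eq_pow_val]
    rfl
  have AB : A ≤ B := fun x hx => (mB x.toMul).2 (by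
    rw [show (x.toMul : F) ^ 2 - 1 = (x.toMul - 1) * (x.toMul - 1) + 2 * (x.toMul - 1) by ring]
    exact add_mem (pw_mul hx hx (by omega)) (pw_mul (mem_of_le le_rfl) hx (by omega)))
  have BV : B ≤ V := fun x hx => by
    have := unit_of (by omega) ((mB x.toMul).1 hx)
    rw [ord_pow] at this
    change ord w (x.toMul : F) = 0
    omega
  have fK : K.relIndex V ≠ 0 := by
    have := AddSubgroup.index_ne_zero_iff_finite.1 (hf 0 (2 * e + 1))
    refine index_ne_zero ((U w (2 * e + 1) (by omega)).subgroupOf (LocAux.V w))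
      (fun x : LocAux.V w => (QuotientAddGroup.mk ⟨x.1, mem_of_le x.2.ge⟩ :
        pw w 0 ⧸ (pw w (2 * e + 1)).addSubgroupOf (pw w 0))) fun x y h => ?_
    have h1 := QuotientAddGroup.eq.1 h
    exact (inv_mul_sub x.2).2 h1
  have mS : ∀ x, κ x ∈ (⊥ : AddSubgroup H) ↔ x ∈ K ⊔ dbl ⊤ := fun x => by
    refine (ker x.toMul).trans ⟨fun ⟨z, hz⟩ => AddSubgroup.mem_sup.2
      ⟨.ofMul (x.toMul / z ^ 2), hz, _, ⟨.ofMul z, trivial, rfl⟩,
        div_mul_cancel x.toMul (z ^ 2)⟩, fun h => ?_⟩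
    obtain ⟨k, hk, _, ⟨z, -, rfl⟩, rfl⟩ := AddSubgroup.mem_sup.1 h
    exact ⟨z.toMul, (mul_div_cancel_right k.toMul (z.toMul ^ 2)).symm ▸ hk⟩
  have sS := (sU (2 * e + 1) (by omega)).sup sT.dbl
  have fS : (K ⊔ dbl ⊤).relIndex ⊤ ≠ 0 := by
    rw [rel_eq (V := ⊤) (A' := ⊥) (V' := ⊤) κ (fun _ _ => trivial)
      (fun y _ => (sj y).imp fun x hx => ⟨AddSubgroup.mem_top x, by simp [hx]⟩)
      fun x _ y _ => by rw [← map_sub, mS], AddSubgroup.relIndex_bot_left]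
    exact Nat.card_pos.ne'
  have hρ : ∀ δ δ' x, ρ (δ * δ') x = ρ δ (ρ δ' x) := fun δ δ' x => by
    obtain ⟨x, rfl⟩ := sj x
    rw [← eqv, ← eqv, ← eqv]
    rfl
  have c2 := cc_eq a (ρ := fun _ => AddMonoidHom.id (ZMod 2)) odd fun _ _ _ => rfl
  have s0 : St (fun _ : Gal(F/F₀) => AddMonoidHom.id (ZMod 2)) ⊥ := fun _ _ h => h
  set a' : Gal(F/F₀) → ι → ι → ℕ := fun δ i l => (a δ i l).val
  have e1 : cc a' rM (K ⊔ dbl ⊤) ⊤ = Nat.card (Iv a ρ) :=
    (cc_hom a' (A' := ⊥) (V' := ⊤) sT (fun _ _ h => by simp [AddSubgroup.mem_bot.1 h]) κ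
      (fun _ _ => trivial)
      (fun y _ => (sj y).imp fun x hx => ⟨trivial, by simp [hx]⟩) (fun x _ => mS x)
      fun δ x _ => eqv δ x).trans (cc_eq a odd hρ)
  have e2 := cc_mul a' sS (sV.sup sS) sT le_sup_right le_top fS
  have e3 : cc a' rM (V ⊔ (K ⊔ dbl ⊤)) ⊤ = cc a' (fun _ => AddMonoidHom.id (ZMod 2)) ⊥ ⊤ := by
    refine cc_hom a' sT s0 (AddMonoidHom.mk' (fun x => (ord w (x.toMul : F) : ZMod 2)) fun x y => by
      rw [← Int.cast_add, ← ord_mul (Units.ne_zero _) (Units.ne_zero _)]; rfl) (fun _ _ => trivial)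
      (fun c _ => ?_) (fun x _ => ?_) fun δ x _ => congrArg Int.cast (ho δ x.toMul)
    · obtain ⟨x, h0, hx⟩ := hs c.val
      exact ⟨.ofMul (Units.mk0 x h0), trivial, by simp [hx]⟩
    · rw [AddSubgroup.mem_bot, AddMonoidHom.mk'_apply, ZMod.intCast_zmod_eq_zero_iff_dvd]
      constructor
      · rintro ⟨m, hm⟩
        obtain ⟨z, h0, hz⟩ := hs m
        refine AddSubgroup.mem_sup.2 ⟨.ofMul (x.toMul / Units.mk0 z h0 ^ 2), ?_, _,
          AddSubgroup.mem_sup_right ⟨.ofMul (Units.mk0 z h0), trivial, rfl⟩,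
          div_mul_cancel x.toMul (Units.mk0 z h0 ^ 2)⟩
        change ord w ((x.toMul / Units.mk0 z h0 ^ 2 : Fˣ) : F) = 0
        rw [Units.val_div_eq_div_val, ord_div (Units.ne_zero _) (Units.ne_zero _),
          Units.val_pow_eq_pow_val, ord_pow, Units.val_mk0, hz, hm, sub_self]
      · intro h
        obtain ⟨v, hv, _, h', rfl⟩ := AddSubgroup.mem_sup.1 h
        obtain ⟨k, hk, _, ⟨z, -, rfl⟩, rfl⟩ := AddSubgroup.mem_sup.1 h'
        refine ⟨ord w (z.toMul : F), ?_⟩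
        change ord w ((v.toMul * (k.toMul * z.toMul ^ 2) : Fˣ) : F) = _
        rw [Units.val_mul, Units.val_mul, ord_mul (Units.ne_zero _) (by simp),
          ord_mul (Units.ne_zero _) (Units.ne_zero _), (mem_V (x := v.toMul)).1 hv,
          unit_of (by omega) hk,
          Units.val_pow_eq_pow_val, ord_pow, zero_add, zero_add]
  have e4 : cc a' rM (K ⊔ dbl V) V = cc a' rM (K ⊔ dbl ⊤) (V ⊔ (K ⊔ dbl ⊤)) := by
    refine cc_hom a' sV sS (AddMonoidHom.id _) (fun x hx => AddSubgroup.mem_sup_left hx)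
      (fun y hy => ?_) (fun x hx => ⟨fun h => ?_,
        fun h => sup_le_sup_left (AddSubgroup.map_mono le_top) K h⟩) fun _ _ _ => rfl
    · obtain ⟨v, hv, s, hs, rfl⟩ := AddSubgroup.mem_sup.1 hy
      exact ⟨v, hv, by simpa using hs⟩
    · obtain ⟨k, hk, _, ⟨z, -, rfl⟩, rfl⟩ := AddSubgroup.mem_sup.1 h
      refine AddSubgroup.add_mem_sup hk ⟨z, ?_, rfl⟩
      change ord w (z.toMul : F) = 0
      have : ord w ((k.toMul * z.toMul ^ 2 : Fˣ) : F) = 0 := hx
      rw [Units.val_mul, ord_mul (Units.ne_zero _) (Units.ne_zero _), unit_of (by omega) hk,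
        Units.val_pow_eq_pow_val, ord_pow] at this
      omega
  have e5 := cc_sq a' (sU (2 * e + 1) (by omega)) (sU (e + 1) (by omega)) sB sV
    (fun _ => anti (by omega)) AB BV fK fun _ _ => Iff.rfl
  have n2 : (2 : F) ∉ pw w (e + 1) := not_mem.2 ⟨h2, by omega⟩
  have e6 : cc a' (fun _ => AddMonoidHom.id (ZMod 2)) ⊥ ⊤ = cc a' rM A B := by
    have cs : ∀ c : ZMod 2, c = 0 ∨ c = 1 := by decide
    let g : ZMod 2 →+ Additive Fˣ := ZMod.lift 2 ⟨zmultiplesHom _ (.ofMul (-1)), by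
      change Additive.ofMul ((-1 : Fˣ) ^ (2 : ℤ)) = 0
      simp⟩
    have g1 : g 1 = .ofMul (-1) := (ZMod.lift_coe 2 _ 1).trans (one_zsmul _)
    refine cc_hom a' (fun _ _ _ => trivial) (sU _ _) g (fun c _ => ?_) (fun y hy => ?_)
      (fun c _ => ?_) fun δ c _ => ?_
    · rcases cs c with rfl | rfl
      · simp
      · exact g1 ▸ (mB _).2 (by simp)
    · have h3 := (mB y.toMul).1 hy
      by_cases h : 1 + (y.toMul : F) ∈ pw w (e + 1)
      · refine ⟨1, trivial, neg_mem_iff.1 ?_⟩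
        rw [g1, neg_sub]
        change ((y.toMul / -1 : Fˣ) : F) - 1 ∈ pw w (e + 1)
        rw [← neg_mem_iff]
        simpa [div_neg, add_comm] using h
      · refine ⟨0, trivial, ?_⟩
        rw [map_zero, zero_sub, neg_mem_iff]
        have h7 := not_mem.1 h
        change (y.toMul : F) - 1 ∈ pw w (e + 1)
        rw [show (y.toMul : F) - 1 = (y.toMul ^ 2 - 1) / (1 + y.toMul) by
          rw [eq_div_iff h7.1]; ring]
        exact pw_div h3 (by omega)
    · rcases cs c with rfl | rfl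
      · simp
      · refine iff_of_false (fun h => n2 (neg_mem_iff.1 ?_)) (by simp)
        rw [g1] at h
        have : ((-1 : Fˣ) : F) - 1 ∈ pw w (e + 1) := h
        convert this using 1
        norm_num
    · rcases cs c with rfl | rfl
      · simp
      · rw [AddMonoidHom.id_apply, g1]
        exact congrArg Additive.ofMul (Units.ext (by simp))
  have e7 : cc a' rM K A = cc a' rA (dbl (pw w (e + 1))) (pw w (e + 1)) := by
    rw [dbl_pw h2, show e + 1 + ord w (2 : F) = 2 * e + 1 by omega]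
    refine cc_congr a' (sU _ _) (st_pw hw _) (fun x => (x.toMul : F) - 1) (fun _ h => h)
      (fun y hy => ⟨.ofMul (Units.mk0 _ (one_add (anti (by omega) hy)).1), ?_, by simp⟩)
      (fun _ _ => Iff.rfl) (fun x hx y hy => ?_) fun δ x _ => ?_
    · change 1 + y - 1 ∈ pw w (e + 1)
      rwa [add_sub_cancel_left]
    · rw [toMul_add, Units.val_mul, show (x.toMul : F) * y.toMul - 1 -
        (x.toMul - 1 + (y.toMul - 1)) = (x.toMul - 1) * (y.toMul - 1) by ring]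
      exact pw_mul hx hy (by omega)
    · simp [rM, rA]
  rw [← e1, e2, ← e4, e5, e7, ← e6, e3, c2, hy]
  ring

/-- The same for a group that maps onto the Galois group. -/
theorem loc [IsGalois F₀ F] (h2 : (2 : F) ≠ 0) (hs : ∀ n, ∃ x : F, x ≠ 0 ∧ ord w x = n)
    (hf : ∀ i j, (pw w j).relIndex (pw w i) ≠ 0) {G : Type} [Group G] (σ : G →* Gal(F/F₀))
    (hσ : Function.Surjective σ) (hw : ∀ g x, w (σ g x) = w x) (odd : Odd σ.ker.index)
    {H : Type} [AddCommGroup H] [Module (ZMod 2) H] [Finite H] (ρ : G → H →+ H)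
    (κ : Additive Fˣ →+ H) (sj : Function.Surjective κ) (eqv : ∀ g x, κ (rM (σ g) x) = ρ g (κ x))
    (ker : ∀ x : Fˣ, κ (.ofMul x) = 0 ↔ ∃ z : Fˣ, ((x / z ^ 2 : Fˣ) : F) - 1 ∈
      pw w (2 * ord w (2 : F) + 1)) :
    ∃ y : ℕ, ∀ (ι : Type) [Fintype ι] [DecidableEq ι] (a : G →* Matrix ι ι (ZMod 2)),
      (∀ u ∈ σ.ker, a u = 1) → Nat.card (Iv a ρ) =
        Nat.card (Iv a fun _ => AddMonoidHom.id (ZMod 2)) ^ 2 * y ^ Fintype.card ι := by
  choose s hs' using hσ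
  rw [Subgroup.index_ker, MonoidHom.range_eq_top.2 fun δ => ⟨_, hs' δ⟩, Subgroup.card_top,
    Nat.card_eq_fintype_card] at odd
  obtain ⟨y, hy⟩ := loc0 h2 hs hf (fun δ x => hs' δ ▸ hw (s δ) x) odd
  refine ⟨y, fun ι _ _ a ha => ?_⟩
  have k1 : ∀ g g', σ g = σ g' → a g = a g' := fun g g' e => by
    rw [← mul_inv_cancel_left g g', map_mul, ha (g⁻¹ * g') (by simp [MonoidHom.mem_ker, e]), mul_one]
  have k2 : ∀ g, ρ (s (σ g)) = ρ g := fun g => AddMonoidHom.ext fun x => by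
    obtain ⟨x, rfl⟩ := sj x
    rw [← eqv, ← eqv, hs']
  let a' : Gal(F/F₀) →* Matrix ι ι (ZMod 2) :=
    { toFun := fun δ => a (s δ)
      map_one' := ha _ (hs' 1)
      map_mul' := fun δ δ' => by rw [← map_mul]; exact k1 _ _ (by rw [map_mul, hs', hs', hs']) }
  have k3 : ∀ g, a' (σ g) = a g := fun g => k1 _ _ (hs' _)
  have e1 : Iv a ρ = Iv a' fun δ => ρ (s δ) :=
    Set.ext fun x => ⟨fun h δ => h (s δ), fun h g i => by simpa only [k3, k2] using h (σ g) i⟩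
  have e2 : (Iv a fun _ => AddMonoidHom.id (ZMod 2)) = Iv a' fun _ => AddMonoidHom.id (ZMod 2) :=
    Set.ext fun x => ⟨fun h δ => h (s δ), fun h g i => by rw [← h (σ g) i, k3]⟩
  rw [e1, e2]
  exact hy ι a' H _ κ sj (fun δ x => by rw [← eqv, hs']) ker

end Pool.Agent.BC.Eu
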