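import Pool.Agent.Lib.MP_b4b3cb_nt.BC.Inv
import Pool.Agent.Lib.MP_b4b3cb_nt.Par.Ari

/-! The local-global principle in degree three. -/

set_option linter.unusedSectionVars false

namespace Pool.Agent.BC

open scoped Classical
open Module NumberField Pool.Agent.Stark Pool.Agent.SP

namespace H3

section Grp

variable {k : Type} [Field k] [CharP k 2] {G G' : Type} [Group G] [TopologicalSpace G] [Group G']
  [TopologicalSpace G'] {z : G → G → G → k}

theorem prism (hz : Z3 z) {g h l u0 u1 u2 u3 g' h' l' : G} (e1 : u0 * g' = g * u1)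
    (e2 : u1 * h' = h * u2) (e3 : u2 * l' = l * u3) :
    (z u1 h' l' + z h u2 l' + z h l u3) + (z u0 (g' * h') l' + z (g * h) u2 l' + z (g * h) l u3) +
      (z u0 g' (h' * l') + z g u1 (h' * l') + z g (h * l) u3) +
      (z u0 g' h' + z g u1 h' + z g h u2) = z g h l + z g' h' l' := by
  have c1 := hz.2 u0 g' h' l'
  have c2 := hz.2 g u1 h' l'
  have c3 := hz.2 g h u2 l'
  have c4 := hz.2 g h l u3
  rw [e1] at c1
  rw [e2] at c2
  rw [e3] at c3
  grind

theorem z3_comap (h : Z3 z) (φ : G' →* G) (hφ : Continuous φ) :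
    Z3 fun g l m => z (φ g) (φ l) (φ m) :=
  ⟨h.1.at (by fun_prop) (by fun_prop) (by fun_prop), fun a b c d => by
    simp only [map_mul]; exact h.2 _ _ _ _⟩

theorem b3_comap (h : B3 z) (φ : G' →* G) (hφ : Continuous φ) :
    B3 fun g l m => z (φ g) (φ l) (φ m) := by
  obtain ⟨η, a, b⟩ := h
  exact ⟨fun g l => η (φ g) (φ l), a.at (by fun_prop) (by fun_prop), fun g l m => by
    simp only [← b, d3, map_mul]⟩

variable [IsTopologicalGroup G]

theorem sh3 (hz : Z3 z) {H : Subgroup G} (hH : B3 fun g h l : H => z g h l) {X : Type}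
    (t : G → X → G) (ac : G → X → X) (h1 : ∀ x, IsLocallyConstant fun a => t a x)
    (h2 : ∀ a b g x, b = a * g → (t a x)⁻¹ * g * t b x ∈ H)
    (h3 : ∀ g a x, t a (ac g x) = t (g * a) x) :
    ∃ Θ : X → G → G → k, (∀ x, LC2 (Θ x)) ∧ ∀ g h l x,
      Θ (ac g x) h l + Θ x (g * h) l + Θ x g (h * l) + Θ x g h = z g h l := by
  obtain ⟨η, a, b⟩ := hH
  obtain ⟨η, rfl⟩ := ext2 η
  refine ⟨fun x g h => z (t 1 x) ((t 1 x)⁻¹ * g * t g x) ((t g x)⁻¹ * h * t (g * h) x) +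
    z g (t g x) ((t g x)⁻¹ * h * t (g * h) x) + z g h (t (g * h) x) +
    η ((t 1 x)⁻¹ * g * t g x) ((t g x)⁻¹ * h * t (g * h) x), fun x => ?_, fun g h l x => ?_⟩
  · have c := (h1 x).continuous
    have c1 : Continuous fun p : G × G => t p.1 x := c.comp continuous_fst
    have c2 : Continuous fun p : G × G => t (p.1 * p.2) x := c.comp continuous_mul
    have c3 : Continuous fun p : G × G => (t 1 x)⁻¹ * p.1 * t p.1 x :=
      (continuous_const.mul continuous_fst).mul c1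
    have c4 : Continuous fun p : G × G => (t p.1 x)⁻¹ * p.2 * t (p.1 * p.2) x :=
      (c1.inv.mul continuous_snd).mul c2
    exact (((hz.1.at continuous_const c3 c4).add (hz.1.at continuous_fst c1 c4)).add
      (hz.1.at continuous_fst continuous_snd c2)).add (a.at
        (c3.subtype_mk fun p => h2 1 _ _ x (one_mul _).symm) (c4.subtype_mk fun p => h2 _ _ _ x rfl))
  · have d := b ⟨_, h2 1 g g x (one_mul _).symm⟩ ⟨_, h2 g _ h x rfl⟩ ⟨_, h2 (g * h) _ l x rfl⟩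
    have e := prism hz (g := g) (h := h) (l := l) (u0 := t 1 x) (u1 := t g x) (u2 := t (g * h) x)
      (u3 := t (g * h * l) x) (g' := (t 1 x)⁻¹ * g * t g x) (h' := (t g x)⁻¹ * h * t (g * h) x)
      (l' := (t (g * h) x)⁻¹ * l * t (g * h * l) x) (by group) (by group) (by group)
    have e1 : (t 1 x)⁻¹ * g * t g x * ((t g x)⁻¹ * h * t (g * h) x) =
      (t 1 x)⁻¹ * (g * h) * t (g * h) x := by group
    have e2 : (t g x)⁻¹ * h * t (g * h) x * ((t (g * h) x)⁻¹ * l * t (g * h * l) x) =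
      (t g x)⁻¹ * (h * l) * t (g * h * l) x := by group
    simp only [d3, Subgroup.coe_mul, e1, e2] at d
    rw [e1, e2] at e
    simp only [h3, mul_one, ← mul_assoc g h l]
    grind

theorem odd [CompactSpace G] (hz : Z3 z) {H : Subgroup G} (o : IsOpen (H : Set G))
    (n : Odd H.index) (hH : B3 fun g h l : H => z g h l) : B3 z := by
  have := H.quotient_finite_of_isOpen o
  have := Fintype.ofFinite (G ⧸ H)
  obtain ⟨Θ, a, b⟩ := sh3 hz hH (fun a (x : G ⧸ H) => (a⁻¹ • x).out) (fun g x => g⁻¹ • x)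
    (fun x => lc_one (fun s : Equiv.Perm (G ⧸ H) => (s.symm x).out) (lc_quot o))
    (fun a b g x e => by
      rw [mul_assoc, ← QuotientGroup.eq, QuotientGroup.out_eq', ← smul_eq_mul,
        ← MulAction.Quotient.smul_mk, QuotientGroup.out_eq', e, mul_inv_rev, mul_smul, smul_inv_smul])
    fun g a x => by rw [mul_inv_rev, mul_smul]
  refine ⟨fun g h => ∑ x, Θ x g h, lc_one (fun f : G ⧸ H → k => ∑ x, f x) (lc_pi a),
    fun g h l => ?_⟩
  have e := Finset.sum_congr (s₁ := Finset.univ) rfl fun x _ => b g h l x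
  simp only [Finset.sum_add_distrib] at e
  rw [show ∑ x, Θ (g⁻¹ • x) h l = ∑ x, Θ x h l from
    Equiv.sum_comp (MulAction.toPerm g⁻¹) fun x => Θ x h l, Finset.sum_const, Finset.card_univ,
    ← Nat.card_eq_fintype_card, ← Subgroup.index_eq_card, nsmul_eq_mul] at e
  obtain ⟨m, hm⟩ := n
  rw [hm, Nat.cast_add, Nat.cast_mul, Nat.cast_two, CharTwo.two_eq_zero, zero_mul, zero_add,
    Nat.cast_one, one_mul] at e
  exact e

theorem gys {z : G → G → G → ZMod 2} (hz : Z3 z) {b : G → ZMod 2} (hb : b ∈ Hm (ZMod 2) G) {σ : G} (hσ : b σ = 1)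
    {H : Subgroup G} (hH : ∀ g, b g = 0 → g ∈ H) (h : B3 fun g h l : H => z g h l) :
    ∃ θ ε : G → G → ZMod 2, LC2 θ ∧ Cz ε ∧ ∀ g h l, z g h l = d3 θ g h l + b g * ε h l := by
  have b1 : b 1 = 0 := by simpa using hb.2 1 1
  have bi : ∀ g, b g⁻¹ = b g := fun g => by
    have := hb.2 g⁻¹ g
    rw [inv_mul_cancel, b1] at this
    exact CharTwo.add_eq_zero.1 this.symm
  have bt : ∀ x : ZMod 2, b (if x = 0 then 1 else σ) = x := fun x => by
    rcases zmod2_cases x with rfl | rfl <;> simp [b1, hσ]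
  obtain ⟨Θ, a, c⟩ := sh3 hz h (fun a (x : ZMod 2) => if x + b a = 0 then 1 else σ)
    (fun g x => x + b g) (fun x => lc_one (fun y => if x + y = 0 then 1 else σ) hb.1)
    (fun a a' g x e => hH _ (by
      rw [hb.2, hb.2, bi, bt, bt, e, hb.2]
      grind))
    fun g a x => by rw [hb.2, add_assoc]
  refine ⟨Θ 0, Θ 0 + Θ 1, a 0, cz_iff_d3.2 ⟨(a 0).add (a 1), fun g h l => ?_⟩, fun g h l => ?_⟩
  · have c0 := c g h l 0
    have c1 := c g h l 1
    simp only [d3, Pi.add_apply]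
    rcases zmod2_cases (b g) with e | e
    · rw [e, add_zero] at c0 c1
      grind
    · rw [e, zero_add] at c0
      rw [e, CharTwo.add_self_eq_zero] at c1
      grind
  · have c0 := c g h l 0
    simp only [d3, Pi.add_apply]
    rcases zmod2_cases (b g) with e | e
    · rw [e, add_zero] at c0
      rw [e]
      grind
    · rw [e, zero_add] at c0
      rw [e]
      grind

theorem b3_cup {a b s : G → ZMod 2} {ε : G → G → ZMod 2} (hb : b ∈ Hm (ZMod 2) G)
    (hs : s ∈ Hm (ZMod 2) G) (h1 : Sz (cup b a)) (h2 : Sz (ε + cup a s)) :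
    B3 fun g h l => b g * ε h l := by
  obtain ⟨e, e1, e2⟩ := h1
  obtain ⟨f, f1, f2⟩ := h2
  refine ⟨fun g h => b g * f h + e g * s h, ((lc_at hb.1 continuous_fst).mul
    (lc_at f1 continuous_snd)).add ((lc_at e1 continuous_fst).mul (lc_at hs.1 continuous_snd)),
    fun g h l => ?_⟩
  have c1 := e2 g h
  have c2 := f2 h l
  simp only [d3, hb.2, hs.2, cup, Pi.add_apply] at c1 c2 ⊢
  grind

omit [IsTopologicalGroup G] in
theorem sz_two {s : G} (ss : s * s = 1) (cs : ∀ g, g = 1 ∨ g = s) {ε : G → G → k} (h : Cz ε)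
    (e : ε s s + ε 1 s = 0) : Sz ε :=
  ⟨fun _ => ε 1 1, IsLocallyConstant.const _, fun g l => by
    have e1 := h.2 1 1 s
    have e2 := h.2 s 1 1
    simp only [mul_one, one_mul] at e1 e2
    rcases cs g with rfl | rfl <;> rcases cs l with rfl | rfl <;> grind⟩

omit [IsTopologicalGroup G] in
theorem d3_two {s : G} (ss : s * s = 1) (η : G → G → k) : d3 η s s s + d3 η s 1 s = 0 := by
  simp only [d3, ss, mul_one, one_mul]
  grind

omit [IsTopologicalGroup G] in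
theorem conj_two (hz : Z3 z) {g c σ : G} (e : σ⁻¹ * g * σ = c) (gg : g * g = 1)
    (h : z c c c + z c 1 c = 0) : z g g g + z g 1 g = 0 := by
  have e1 : σ * c = g * σ := by rw [← e]; group
  have cc : c * c = 1 := by
    rw [← e, mul_assoc (σ⁻¹ * g), ← mul_assoc σ, ← mul_assoc σ, mul_inv_cancel, one_mul,
      ← mul_assoc, mul_assoc σ⁻¹, gg, mul_one, inv_mul_cancel]
  have a := prism hz e1 e1 e1
  have b := prism hz e1 ((mul_one σ).trans (one_mul σ).symm) e1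
  simp only [gg, cc, mul_one, one_mul] at a b
  grind

end Grp

section Apx

theorem near {k : Type} [Field k] {w : Valuation k (WithZero (Multiplicative ℤ))} (L : IsLoc w)
    {β : k} (hβ : β ≠ 0) : ∃ (s : k) (j : ℕ), ∀ y t : k, y - s ∈ pw w j → t - 1 ∈ pw w j →
      y ^ 2 - β * t ^ 2 ≠ 0 → ¬ IsSquare (y ^ 2 - β * t ^ 2) := by
  obtain ⟨u, e, u0, e0, a, b⟩ := SC.TwoAAux.loc L hβ
  obtain ⟨x, t, rfl⟩ := hs_eq_zero.1 b
  have ns : ¬ IsSquare (x ^ 2 - β * t ^ 2) := fun h => by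
    rw [hs_of_isSquare_right u h] at a
    exact zero_ne_one a
  have t0 : t ≠ 0 := fun h => ns ⟨x, by rw [h]; ring⟩
  have ns' : ¬ IsSquare ((x / t) ^ 2 - β) := fun h => ns (by
    rw [show x ^ 2 - β * t ^ 2 = ((x / t) ^ 2 - β) * (t * t) by field_simp]
    exact h.mul (IsSquare.mul_self t))
  generalize x / t = s at ns'
  have s0 : s ^ 2 - β ≠ 0 := fun h => ns' (h ▸ IsSquare.zero)
  have h2 := ord_two_nonneg (w := w)
  refine ⟨s, (|ord w (s ^ 2 - β)| + (2 * ord w (2 : k) + 1) + |ord w (2 * s)| + |ord w β|).toNat,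
    fun y t hy ht a0 hsq => ns' ?_⟩
  have p1 := le_abs_self (ord w (s ^ 2 - β))
  have p2 := neg_abs_le (ord w (2 * s))
  have p3 := neg_abs_le (ord w β)
  have p4 := abs_nonneg (ord w (s ^ 2 - β))
  have p5 := abs_nonneg (ord w (2 * s))
  have p6 := abs_nonneg (ord w β)
  have m : y ^ 2 - β * t ^ 2 - (s ^ 2 - β) ∈ pw w (ord w (s ^ 2 - β) + (2 * ord w (2 : k) + 1)) := by
    have m1 : y - s + 2 * s ∈ pw w (-|ord w (2 * s)|) :=
      add_mem (LocAux.anti (by omega) hy) (LocAux.mem_of_le p2)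
    have m2 : t - 1 + 2 ∈ pw w 0 := add_mem (LocAux.anti (by omega) ht) LocAux.two_mem
    rw [show y ^ 2 - β * t ^ 2 - (s ^ 2 - β) =
      (y - s) * (y - s + 2 * s) - β * ((t - 1) * (t - 1 + 2)) by ring]
    exact sub_mem (LocAux.pw_mul hy m1 (by omega)) (LocAux.pw_mul (LocAux.mem_of_le p3)
      (LocAux.pw_mul ht m2 le_rfl) (by omega))
  have := ComplAux.pw_div s0 m
  rw [sub_div, div_self s0] at this
  have := hsq.div (LocAux.hens L this)
  rwa [div_div_cancel₀ a0] at this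

variable {F : Type} [Field F] [NumberField F]

theorem exA {β : F} (hβ : β ≠ 0) (S : Finset (SC.Pl F)) (hS : ∀ φ, .inr φ ∈ S → 0 < φ β) :
    ∃ y t : F, y ^ 2 - β * t ^ 2 ≠ 0 ∧ ∀ v ∈ S, ¬ SC.lsq v (y ^ 2 - β * t ^ 2) := by
  choose s j hj using fun q : Pr F => near (isLoc_wv q) ((map_ne_zero (emb q)).2 hβ)
  obtain ⟨y, hy, -⟩ := approx_strong S.toLeft s (∑ q ∈ S.toLeft, j q : ℕ)
  have n0 : Ideal.absNorm (∏ q ∈ S.toLeft, q.asIdeal ^ j q) ≠ 0 := Ideal.absNorm_eq_zero_iff.not.2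
    (Finset.prod_ne_zero_iff.2 fun q _ => pow_ne_zero _ q.ne_bot)
  have n1 := Ideal.absNorm_mem (∏ q ∈ S.toLeft, q.asIdeal ^ j q)
  generalize Ideal.absNorm (∏ q ∈ S.toLeft, q.asIdeal ^ j q) = n at n0 n1
  obtain ⟨M, hM⟩ := exists_nat_gt (∑ φ : F →+* ℂ, ‖φ y‖ ^ 2 / ‖φ β‖)
  have key : ∀ φ : F →+* ℂ, ‖φ y‖ ^ 2 < ‖φ β‖ * (M * n + 1 : ℕ) ^ 2 := fun φ => by
    have a := (Finset.single_le_sum (f := fun φ : F →+* ℂ => ‖φ y‖ ^ 2 / ‖φ β‖)
      (fun _ _ => by positivity) (Finset.mem_univ φ)).trans_lt hM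
    have b : 0 < ‖φ β‖ := norm_pos_iff.2 ((map_ne_zero φ).2 hβ)
    rw [div_lt_iff₀' b] at a
    refine a.trans_le (mul_le_mul_of_nonneg_left ?_ b.le)
    have : M ≤ (M * n + 1) ^ 2 := ((Nat.le_mul_of_pos_right _ (Nat.pos_of_ne_zero n0)).trans
      (Nat.le_succ _)).trans (Nat.le_self_pow two_ne_zero _)
    exact_mod_cast this
  have a0 : y ^ 2 - β * ((M * n + 1 : ℕ) : F) ^ 2 ≠ 0 := fun h => by
    have := key (Classical.arbitrary _)
    rw [← norm_pow, ← map_pow, sub_eq_zero.1 h, map_mul, map_pow, map_natCast, norm_mul, norm_pow,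
      Complex.norm_natCast] at this
    exact lt_irrefl _ this
  refine ⟨y, (M * n + 1 : ℕ), a0, ?_⟩
  rintro (q | φ) hv
  · have hq := Finset.mem_toLeft.2 hv
    have a1 := (map_ne_zero (emb q)).2 a0
    change ¬ IsSquare (emb q _)
    rw [map_sub, map_mul, map_pow, map_pow] at a1 ⊢
    refine hj q _ _ (LocAux.anti (Nat.cast_le.2 (Finset.single_le_sum (fun _ _ => Nat.zero_le _) hq))
      (hy q hq)) ?_ a1
    have := (ComplAux.emb_mem_pw q _ _).2 ((ComplAux.int_mem_pw q _ _).2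
      (Ideal.mul_mem_left _ (M : 𝓞 F) (Ideal.prod_le_inf.trans (Finset.inf_le hq) n1)))
    simpa using this
  · have := key (Complex.ofRealHom.comp φ)
    simp only [RingHom.comp_apply, Complex.ofRealHom_eq_coe, Complex.norm_real, Real.norm_eq_abs,
      sq_abs, abs_of_pos (hS φ hv)] at this
    change ¬ 0 < φ _
    rw [map_sub, map_mul, map_pow, map_pow, map_natCast, not_lt, sub_nonpos]
    exact this.le

end Apx

end H3

/-- Unramified classes at odd primes are split. -/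
def UnrSz (F Ω : Type) [Field F] [NumberField F] [Field Ω] [Algebra F Ω] : Prop :=
  ∀ (π : SC.Plc F Ω) (q : Pr F), og q (2 : F) = 0 →
    ∀ e : π.D (.inl q) → π.D (.inl q) → ZMod 2, Cz e →
      Inf2 ((π.I (.inl q)).subgroupOf (π.D (.inl q))) e → Sz e

namespace H3

variable {K Ω : Type} [Field K] [NumberField K] [Field Ω] [Algebra K Ω] [IsAlgClosed Ω]
  [IsGalois K Ω] [CharZero Ω]

theorem ae (hu : UnrSz K Ω) (π : SC.Plc K Ω) {ε : Gal(Ω/K) → Gal(Ω/K) → ZMod 2} (h : Cz ε) :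
    {v | ¬ Sz fun g l : π.D v => ε g l}.Finite := by
  obtain ⟨U, o, -, a⟩ := unif2 (G := Gal(Ω/K)) h.1
  obtain ⟨A, -, -, h3, -⟩ := (facts K Ω).ad π
  have b := A.finI U (o.mem_nhds (one_mem U))
  rw [h3] at b
  refine ((b.union ((og_finite (2 : K)).image Sum.inl)).union
    (Set.finite_range Sum.inr)).subset ?_
  rintro (q | φ) hv
  · by_contra c
    simp only [Set.mem_union, Set.mem_ofPred_eq, not_or, not_not] at c
    exact hv (hu π q (not_not.1 fun d => c.1.2 ⟨q, d, rfl⟩) _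
      (cz_comap h (π.D _).subtype continuous_subtype_val) fun g l i hi => a g l i (c.1.1 hi))
  · exact .inr ⟨φ, rfl⟩

theorem symb (π : SC.Plc K Ω) {ε : Gal(Ω/K) → Gal(Ω/K) → ZMod 2} (h : Cz ε) {a : K} (a0 : a ≠ 0)
    (ha : ∀ v, (¬ Sz fun g l : π.D v => ε g l) → ¬ SC.lsq v a) :
    ∃ s ∈ Hm (ZMod 2) Gal(Ω/K), Sz (ε + cup (SC.kr (SC.rt Ω a)) s) := by
  have F := facts K Ω
  have hQ : SC.QuadSt K Ω := SC.st_Quad SC.st_Sz F.top F.kum F.br
  have hA : SC.AbhnKSt K Ω := SC.st_AbhnK (SC.st_Abhn SC.st_Syl F.top F.kum F.br (SC.st_Tr F.top)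
    (SC.st_Norm SC.st_Sz F.top F.kum F.br) hQ F.sym F.cj F.pr) F.br F.pr F.cj
  have hc := F.br.coc_sg (cz_top h)
  have hm : ∀ {x : K} v, x ≠ 0 → (fun g : π.D v => SC.kr (SC.rt Ω x) g.1) ∈ Hm (ZMod 2) (π.D v) :=
    fun v h => Hm.res (hom_top.2 (F.dict.hom h)) _
  have hN : SC.Spl (MulAction.stabilizer Gal(Ω/K) (SC.rt Ω a)) (SC.sgc ε) := by
    refine hA π _ _ 1 (stabilizer_isOpen_of_isIntegral _)
      (SC.RecAux.normal (SC.RecAux.rt_fix ⊤ a)) hc (fun g l => (pow_two _).trans (sg_mul_self _))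
      fun v => ?_
    by_cases c : Sz fun g l : π.D v => ε g l
    · exact F.br.mono ((F.br.sz (F.dict.closed π v)).2 (sz_iff.1 c)) inf_le_left
    obtain ⟨x, x0, hx⟩ := F.dict.hp_nd v a0 (ha v c)
    rw [← F.dict.sym π v a0 x0, symz_eq] at hx
    have d := ((two_D π v _ _ (cz_comap h (π.D _).subtype continuous_subtype_val)
      (cz_cup (hm v a0) (hm v x0))).resolve_left c).resolve_left fun d => by
        simp [i2_zero.2 d] at hx
    refine F.br.congr (F.br.mono ((F.br.sz (F.dict.closed π v)).2 ((sz_iff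
      (ε := ε + SC.cup (SC.kr (SC.rt Ω a)) (SC.kr (SC.rt Ω x)))).1 d)) inf_le_left)
      fun g hg l _ => ?_
    have e : g (SC.rt Ω a) = SC.rt Ω a := hg.2
    simp only [SC.sgc, Pi.add_apply, SC.cup, SC.kr, e, if_true, zero_mul, add_zero]
  obtain ⟨s, s0, s1, s2⟩ := hQ ⊤ _ (SC.rt Ω a) _ isClosed_univ (SC.RecAux.rt_ne a0)
    (SC.RecAux.rt_fix ⊤ a) (fun g => ⟨fun h => ⟨trivial, h⟩, fun h => h.2⟩) hc hN
  rw [← F.br.sgc_add, F.br.sz isClosed_univ] at s2
  exact ⟨_, hom_top.2 (F.kum.hom s0 s1), sz_top s2⟩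

variable (K) in
/-- The condition at the complex conjugations. -/
def RC (z : Gal(Ω/K) → Gal(Ω/K) → Gal(Ω/K) → ZMod 2) : Prop :=
  ∀ j g, SC.Cj j g → z g g g + z g 1 g = 0

theorem step (hu : UnrSz K Ω) {z : Gal(Ω/K) → Gal(Ω/K) → Gal(Ω/K) → ZMod 2} (hz : Z3 z)
    (hr : RC K z) {b : Gal(Ω/K) → ZMod 2} (hb : b ∈ Hm (ZMod 2) Gal(Ω/K)) {σ : Gal(Ω/K)}
    (hσ : b σ = 1) {H : Subgroup Gal(Ω/K)} (hH : ∀ g, b g = 0 → g ∈ H)
    (h : B3 fun g h l : H => z g h l) : B3 z := by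
  have F := facts K Ω
  obtain ⟨θ, ε, a1, a2, a3⟩ := gys hz hb hσ hH h
  choose P hP using F.pr.ex K
  obtain ⟨π, -⟩ := exPlc P hP
  obtain ⟨β, β0, rfl⟩ := F.dict.glob b (hom_top.1 hb)
  obtain ⟨y, t, a0, ha⟩ := exA β0 (ae hu π a2).toFinset fun φ hφ => by
    obtain ⟨c1, c2, -⟩ := F.cj.sq (π.hc φ)
    refine (F.dict.zero π (.inr φ) β0).1 fun g hg => ?_
    rcases (c2 g).1 hg with rfl | rfl
    · exact if_pos rfl
    refine (zmod2_cases _).resolve_right fun e => (Set.Finite.mem_toFinset _).1 hφ ?_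
    have d := hr _ _ (π.hc φ)
    have d' := d3_two c1 θ
    rw [a3, a3, e] at d
    exact sz_two (s := ⟨π.c φ, Subgroup.mem_zpowers _⟩) (Subtype.ext c1)
      (fun g => ((c2 g).1 g.2).imp Subtype.ext Subtype.ext)
      (cz_comap a2 (π.D _).subtype continuous_subtype_val) (by
        change ε (π.c φ) (π.c φ) + ε 1 (π.c φ) = 0
        grind)
  obtain ⟨s, s1, s2⟩ := symb π a2 a0 fun v hv => ha v ((Set.Finite.mem_toFinset _).2 hv)
  obtain ⟨η, e1, e2⟩ := b3_cup hb s1 (sz_top ((SC.st_Norm SC.st_Sz F.top F.kum F.br ⊤ _ _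
    isClosed_univ (SC.RecAux.rt_ne β0) (SC.RecAux.rt_ne a0) (SC.RecAux.rt_fix ⊤ _)
    (SC.RecAux.rt_fix ⊤ _)).2 ⟨algebraMap K Ω y, algebraMap K Ω t, fun g _ => g.commutes y,
      fun g _ => g.commutes t, by simp [SC.rt_sq]⟩)) s2
  exact ⟨θ + η, a1.add e1, fun g h l => by rw [d3_add, e2, a3]⟩

theorem two (hu : ∀ (F : Type) [Field F] [NumberField F] [Algebra F Ω] [IsGalois F Ω], UnrSz F Ω)
    {z : Gal(Ω/K) → Gal(Ω/K) → Gal(Ω/K) → ZMod 2} (hz : Z3 z) (hr : RC K z) : B3 z := by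
  have T := (facts K Ω).top
  obtain ⟨U, o, n, a⟩ := unif3 (G := Gal(Ω/K)) hz.1
  have z1 : z 1 1 1 = 0 := by
    have := hz.2 1 1 1 1
    simp only [mul_one] at this
    grind
  obtain ⟨P, p1, -, p2, p3⟩ := SC.st_Syl _ ⊤ U n (T.fi U o) (fun N => B3 fun g h l : N => z g h l)
    ⟨0, IsLocallyConstant.const (0 : ZMod 2), fun g h l => by
      have c1 := (a 1 h l g g.2.2).1
      have c2 := (a 1 1 l h h.2.2).2.1
      have c3 := (a 1 1 1 l l.2.2).2.2
      rw [one_mul] at c1 c2 c3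
      simp only [d3, Pi.zero_apply, add_zero, c1, c2, c3, z1]⟩
    fun N N' b1 b2 b3 b4 b5 => by
      obtain ⟨d, hd, hN, σ, s1, s2⟩ := T.two ⊤ U N N' o b1 b2 b3 b4
      obtain ⟨F, hF, rfl⟩ := T.field N' (Subgroup.isOpen_mono (le_inf le_top le_rfl |>.trans
        (b1.trans b2)) o)
      have : NumberField F := NumberField.of_module_finite K F
      have : IsGalois F Ω := IsGalois.tower_top_of_isGalois K F Ω
      let ι : Gal(Ω/F) →* Gal(Ω/K) := AlgEquiv.restrictScalarsHom K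
      have c : Continuous ι := (SC.st_Trf (K := K) (L := F) (Ω := Ω)).cont
      have m : ∀ g, ι g ∈ SC.Gs K Ω F := fun g x => g.commutes x
      exact b3_comap (step (hu F) (z3_comap hz ι c) (fun j g hj => by
          rw [map_one]
          exact hr j _ hj)
        (Hm.comp (hom_iff.2 hd) (ι.codRestrict _ m) (c.subtype_mk m))
        (σ := SC.GlAux.up ⟨σ, s1⟩) s2 (H := N.comap ι) (fun g hg => (hN _).2 ⟨m g, hg⟩)
        (b3_comap b5 (ι.subgroupComap N) ((c.comp continuous_subtype_val).subtype_mk _)))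
        SC.GlAux.up (SC.GlAux.cont_of _ fun x => ((stabilizer_isOpen_of_isIntegral (K := K)
          x).preimage continuous_subtype_val).mem_nhds (Subgroup.one_mem _))
  rw [Subgroup.relIndex_top_right] at p2
  exact odd hz (Subgroup.isOpen_mono (le_inf le_top le_rfl |>.trans p1) o) p2 p3

end H3

variable {K Ω : Type} [Field K] [NumberField K] [Field Ω] [Algebra K Ω] [IsAlgClosed Ω]
  [IsGalois K Ω] [CharZero Ω] {k : Type} [Field k] [Finite k] [CharP k 2] [Algebra (ZMod 2) k]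

theorem h3K (hu : ∀ (F : Type) [Field F] [NumberField F] [Algebra F Ω] [IsGalois F Ω], UnrSz F Ω)
    (π : SC.Plc K Ω) : ∀ z : Gal(Ω/K) → Gal(Ω/K) → Gal(Ω/K) → k, Z3 z →
      (∀ v, B3 fun g h l : π.D v => z g h l) → B3 z := by
  intro z hz hv
  have F := facts K Ω
  have hr : ∀ j g, SC.Cj j g → z g g g + z g 1 g = 0 := fun j g hj => by
    obtain ⟨φ, hφ⟩ := F.cj.real hj
    obtain ⟨σ, hσ⟩ := F.cj.conj (π.hc φ) hj fun a => (π.hj φ a).trans (hφ a).symm
    obtain ⟨η, -, e⟩ := hv (.inr φ)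
    have d := H3.d3_two (s := (⟨π.c φ, Subgroup.mem_zpowers _⟩ : π.D (.inr φ)))
      (Subtype.ext (F.cj.sq (π.hc φ)).1) η
    rw [e, e] at d
    exact H3.conj_two hz hσ (F.cj.sq hj).1 d
  choose η e1 e2 using fun i => H3.two hu (z := fun g h l => cd i (z g h l))
    ⟨lc_one (cd i) hz.1, fun a b c d => by simp only [← map_add, hz.2, map_zero]⟩
    fun j g hj => by rw [← map_add, hr j g hj, map_zero]
  obtain ⟨Φ, a, b⟩ := glue (k := k) (fun i (p : Gal(Ω/K) × Gal(Ω/K)) => η i p.1 p.2) e1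
  exact ⟨fun g h => Φ (g, h), a, fun g h l => cd_ext fun i => by
    refine Eq.trans ?_ (e2 i g h l)
    simp only [d3, map_add, b]⟩

end Pool.Agent.BC
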