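import Pool.Agent.Lib.MP_b4b3cb_nt.BC.Defs

/-! The invariant, uniform local constancy, symmetry of the cup product. -/

set_option linter.unusedSectionVars false

namespace Pool.Agent.BC

open scoped Classical
open Module Pool.Agent.SP

variable {k : Type} [Field k] {G : Type} [Group G] [TopologicalSpace G]
  {A A' : Type} [AddCommGroup A] [Module k A] [AddCommGroup A'] [Module k A']

section Unif

variable [IsTopologicalGroup G] [CompactSpace G]

theorem fin_index {U : Subgroup G} (h : IsOpen (U : Set G)) : U.FiniteIndex :=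
  have := U.quotient_finite_of_isOpen h
  Subgroup.finiteIndex_of_finite_quotient

theorem core_open {U : Subgroup G} (h : IsOpen (U : Set G)) : IsOpen (U.normalCore : Set G) :=
  have := fin_index h
  Subgroup.isOpen_of_isClosed_of_finiteIndex _
    (U.normalCore_isClosed (U.isClosed_of_isOpen h))

theorem unif_aux {X Y : Type} [TopologicalSpace X] [CompactSpace X] {f : X → Y}
    (h : IsLocallyConstant f) {a : G → X → X} (ha : Continuous fun p : G × X => a p.1 p.2)
    (h1 : ∀ x, a 1 x = x) (h2 : ∀ g l x, a (g * l) x = a l (a g x)) :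
    ∃ U : Subgroup G, IsOpen (U : Set G) ∧ U.Normal ∧ ∀ i ∈ U, ∀ x, f (a i x) = f x := by
  let V : Subgroup G :=
    { carrier := {i | ∀ x, f (a i x) = f x}
      mul_mem' := fun {i j} hi hj x => by rw [h2, hj, hi]
      one_mem' := fun x => by rw [h1]
      inv_mem' := fun {i} hi x => by rw [← hi, ← h2, inv_mul_cancel, h1] }
  have o : ∀ᶠ i in nhds (1 : G), ∀ x ∈ Set.univ, f (a i x) = f x :=
    isCompact_univ.eventually_forall_of_forall_eventually fun x _ => by
      filter_upwards [(lc_at h ha).eventually_eq (1, x),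
        (lc_at h (continuous_snd (X := G))).eventually_eq (1, x)] with p a1 a2
      rw [a1, a2, h1]
  exact ⟨V.normalCore, core_open (V.isOpen_of_mem_nhds (g := 1) (o.mono fun i hi x => hi x trivial)),
    inferInstance, fun i hi => V.normalCore_le hi⟩

theorem unif1 {Y : Type} {f : G → Y} (h : IsLocallyConstant f) :
    ∃ U : Subgroup G, IsOpen (U : Set G) ∧ U.Normal ∧ Inf U f := by
  obtain ⟨U, a, b, c⟩ := unif_aux (G := G) h (a := fun i g => g * i) (by fun_prop) mul_one
    fun g l x => (mul_assoc _ _ _).symm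
  exact ⟨U, a, b, fun g i hi => c i hi g⟩

theorem unif2 {Y : Type} {f : G → G → Y} (h : LC2 f) :
    ∃ U : Subgroup G, IsOpen (U : Set G) ∧ U.Normal ∧ Inf2 U f := by
  obtain ⟨U, a, b, c⟩ := unif_aux (G := G) h (a := fun i p => (p.1 * i, p.2)) (by fun_prop)
    (by simp) fun g l x => by simp [mul_assoc]
  obtain ⟨U', a', b', c'⟩ := unif_aux (G := G) h (a := fun i p => (p.1, p.2 * i)) (by fun_prop)
    (by simp) fun g l x => by simp [mul_assoc]
  exact ⟨U ⊓ U', a.inter a', inferInstance, fun g l i hi => ⟨c i hi.1 (g, l), c' i hi.2 (g, l)⟩⟩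

theorem unif3 {Y : Type} {f : G → G → G → Y} (h : LC3 f) :
    ∃ U : Subgroup G, IsOpen (U : Set G) ∧ U.Normal ∧ ∀ g l m, ∀ i ∈ U,
      f (g * i) l m = f g l m ∧ f g (l * i) m = f g l m ∧ f g l (m * i) = f g l m := by
  obtain ⟨U, a, b, c⟩ := unif_aux (G := G) h (a := fun i p => (p.1 * i, p.2)) (by fun_prop)
    (by simp) fun g l x => by simp [mul_assoc]
  obtain ⟨U', a', b', c'⟩ := unif_aux (G := G) h (a := fun i p => (p.1, p.2.1 * i, p.2.2))
    (by fun_prop) (by simp) fun g l x => by simp [mul_assoc]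
  obtain ⟨U'', a'', b'', c''⟩ := unif_aux (G := G) h (a := fun i p => (p.1, p.2.1, p.2.2 * i))
    (by fun_prop) (by simp) fun g l x => by simp [mul_assoc]
  exact ⟨U ⊓ U' ⊓ U'', (a.inter a').inter a'', inferInstance, fun g l m i hi =>
    ⟨c i hi.1.1 (g, l, m), c' i hi.1.2 (g, l, m), c'' i hi.2 (g, l, m)⟩⟩

omit [CompactSpace G] in
theorem lc_of_inf {Y : Type} {U : Subgroup G} (hU : IsOpen (U : Set G)) {f : G → Y}
    (h : Inf U f) : IsLocallyConstant f :=
  (IsLocallyConstant.iff_eventually_eq _).2 fun g => by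
    have : Continuous fun l => g⁻¹ * l := by fun_prop
    filter_upwards [this.continuousAt.eventually (hU.mem_nhds (by simp : g⁻¹ * g ∈ U))] with l hl
    rw [← h g _ hl, mul_inv_cancel_left]

theorem lc_quot {H : Subgroup G} (h : IsOpen (H : Set G)) :
    IsLocallyConstant (MulAction.toPermHom G (G ⧸ H)) :=
  lc_of_inf (core_open h) fun g i hi => by
    rw [map_mul, Subgroup.normalCore_eq_ker] at *
    rw [show MulAction.toPermHom G (G ⧸ H) i = 1 from hi, mul_one]

omit [IsTopologicalGroup G] [CompactSpace G] in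
theorem FR.ker_open (R : FR k G A) : IsOpen (R.ac.ker : Set G) := R.lc.isOpen_fiber 1

end Unif

theorem Inf.mono {G Y : Type} [Group G] {I U : Subgroup G} {f : G → Y} (h : Inf U f) (le : I ≤ U) :
    Inf I f := fun g i hi => h g i (le hi)

theorem Inf2.mono {G Y : Type} [Group G] {I U : Subgroup G} {f : G → G → Y} (h : Inf2 U f)
    (le : I ≤ U) : Inf2 I f := fun g l i hi => h g l i (le hi)

theorem FR.inf_iff {R : FR k G A} {I : Subgroup G} {x : G → A} (hx : x ∈ R.Z1) :
    Inf I x ↔ ∀ i ∈ I, x i = 0 :=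
  ⟨fun h i hi => by rw [← one_mul i, h 1 i hi, FR.z1_one hx],
    fun h g i hi => by rw [FR.coc hx, h i hi, map_zero, add_zero]⟩

/-- The elements on which a cocycle vanishes. -/
def FR.zs {R : FR k G A} {x : G → A} (hx : x ∈ R.Z1) : Subgroup G where
  carrier := {g | x g = 0}
  mul_mem' := fun {a b} ha hb => by
    rw [Set.mem_ofPred_eq, FR.coc hx, ha, hb, map_zero, add_zero]
  one_mem' := FR.z1_one hx
  inv_mem' := fun {a} ha => by
    have := FR.coc hx a⁻¹ a
    rw [inv_mul_cancel, FR.z1_one hx, ha, map_zero, add_zero] at this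
    exact this.symm

theorem MI.ext {I : Subgroup G} {σ : G} (h : MI k I σ) {R : FR k G A} {x : G → A} (hx : x ∈ R.Un I)
    (h0 : x σ = 0) : x = 0 := funext fun g =>
  (h.gen (FR.zs hx.1) (hx.1.1.isOpen_fiber 0) hx.2 h0).ge (Subgroup.mem_top g)

variable [CharP k 2]

theorem MI.sz {I : Subgroup G} {σ : G} (h : MI k I σ) {ε : G → G → k} (hε : Cz ε)
    (h' : Inf2 I ε) : Sz ε := by
  obtain ⟨φ, a, -, -, b⟩ := h.u0 (triv k G) ε 0 hε h' (fun _ _ _ _ => rfl) fun _ _ => rfl
  exact ⟨φ, a, b⟩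

variable {β : A' →ₗ[k] A →ₗ[k] k} {R : FR k G A} {R' : FR k G A'}

theorem sz_swap (hP : Pf R' R β) {y : G → A'} (hy : y ∈ R'.Z1) {x : G → A} (hx : x ∈ R.Z1) :
    Sz (c11 β R y x + c11 β.flip R' x y) :=
  ⟨fun g => β (y g) (x g), lc_two (fun u v => β u v) hy.1 hx.1, fun g h => by
    have := hP.eq g (y h) (x h)
    simp only [Pi.add_apply, c11, FR.coc hy, FR.coc hx, map_add, LinearMap.add_apply,
      LinearMap.flip_apply]
    grind⟩

theorem sz_b1_left (hP : Pf R' R β) {y : G → A'} (hy : y ∈ R'.B1) {x : G → A} (hx : x ∈ R.Z1) :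
    Sz (c11 β R y x) := by
  obtain ⟨u, rfl⟩ := hy
  refine ⟨fun g => β u (x g), lc_one _ hx.1, fun g h => ?_⟩
  have := hP.eq g u (x h)
  simp only [c11, FR.coc hx, FR.d1_apply, map_add, map_sub, LinearMap.sub_apply]
  grind

theorem sz_b1_right (hP : Pf R' R β) {y : G → A'} (hy : y ∈ R'.Z1) {x : G → A} (hx : x ∈ R.B1) :
    Sz (c11 β R y x) := by
  obtain ⟨u, rfl⟩ := hx
  refine ⟨fun g => β (y g) (R.ac g u), lc_two (fun u v => β u v) hy.1
    (R.lc_ac continuous_id (IsLocallyConstant.const u)), fun g h => ?_⟩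
  have := hP.eq g (y h) (R.ac h u)
  simp only [c11, FR.coc hy, FR.d1_apply, map_add, map_sub, LinearMap.add_apply, R.mul]
  grind

theorem add_add_cancel2 (ε ε' : G → G → k) : ε + (ε + ε') = ε' := by
  ext g h
  simp only [Pi.add_apply, CharTwo.add_cancel_left]

theorem sz_flip (hP : Pf R' R β) {y : G → A'} (hy : y ∈ R'.Z1) {x : G → A} (hx : x ∈ R.Z1)
    (h : Sz (c11 β R y x)) : Sz (c11 β.flip R' x y) :=
  add_add_cancel2 (c11 β R y x) (c11 β.flip R' x y) ▸ h.add (sz_swap hP hy hx)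

theorem cz_sq {ε : G → G → k} (h : Cz ε) : Cz fun g l => ε g l ^ 2 :=
  ⟨lc_one (· ^ 2) h.1, fun a b c => by
    beta_reduce
    rw [← CharTwo.add_sq, h.2, CharTwo.add_sq]⟩

variable [Finite k] [Algebra (ZMod 2) k] (H : Two G) {ε ε' : G → G → k}

include H

theorem invK_add (h : Cz ε) (h' : Cz ε') : invK (ε + ε') = invK ε + invK ε' := cd_ext fun i => by
  rw [map_add, invK_spec H h, invK_spec H h', invK_spec H (h.add h'),
    ← i2_add H (h.map _) (h'.map _)]
  exact congrArg i2 (funext₂ fun g l => map_add _ _ _)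

theorem invK_lin (h : Cz ε) (φ : k →ₗ[ZMod 2] k) : invK (fun g l => φ (ε g l)) = φ (invK ε) :=
  cd_ext fun i => by
    rw [invK_spec H ⟨lc_one φ h.1, fun a b c => by rw [← map_add, h.2, map_add]⟩]
    exact (invK_spec H h (cd i ∘ₗ φ)).symm

theorem invK_smul (a : k) (h : Cz ε) : invK (a • ε) = a * invK ε :=
  invK_lin H h (LinearMap.mulLeft _ a)

theorem invK_sq (h : Cz ε) : invK (fun g l => ε g l ^ 2) = invK ε ^ 2 :=
  invK_lin H h ((frobenius k 2).toAddMonoidHom.toZModLinearMap 2)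

theorem invK_zero (h : Cz ε) : invK ε = 0 ↔ Sz ε :=
  ⟨fun a => sz_cd fun i => i2_zero.1 (by rw [← invK_spec H h, a, map_zero]),
    fun a => cd_ext fun i => by rw [invK_spec H h, map_zero, i2_zero.2 (a.map _)]⟩

omit H in
theorem invK_sz (h : Sz ε) : invK ε = 0 := by
  simp only [invK, fun i => i2_zero.2 (h.map (cd i))]
  exact map_zero _

theorem invK_congr (h : Cz ε) (h' : Cz ε') (e : Sz (ε + ε')) : invK ε = invK ε' :=
  CharTwo.add_eq_zero.1 (by rw [← invK_add H h h', invK_sz e])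

theorem invK_swap (hP : Pf R' R β) {y : G → A'} (hy : y ∈ R'.Z1) {x : G → A} (hx : x ∈ R.Z1) :
    invK (c11 β R y x) = invK (c11 β.flip R' x y) :=
  invK_congr H (cz_c11 hP hy hx) (cz_c11 hP.flip hx hy) (sz_swap hP hy hx)

end Pool.Agent.BC
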