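import Pool.Agent.Lib.MP_b4b3cb_nt.BC.Ann
import Pool.Agent.Lib.MP_b4b3cb_nt.BC.Dev

/-! Local duality passes to extensions and retracts. -/

set_option linter.unusedSectionVars false

namespace Pool.Agent.BC

open scoped Classical
open Module Pool.Agent.SP

variable {k : Type} [Field k] {G : Type} [Group G] [TopologicalSpace G]
  {A A' A₁ A₁' A₂ A₂' : Type} [AddCommGroup A] [Module k A] [AddCommGroup A'] [Module k A']
  [AddCommGroup A₁] [Module k A₁] [AddCommGroup A₁'] [Module k A₁']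
  [AddCommGroup A₂] [Module k A₂] [AddCommGroup A₂'] [Module k A₂']

/-- Local duality for one pairing. -/
structure LDp (R' : FR k G A') (R : FR k G A) (β : A' →ₗ[k] A →ₗ[k] k) : Prop where
  fin : FiniteDimensional k R.Z1
  one : ∀ x ∈ R.Z1, (∀ y ∈ R'.Z1, Sz (c11 β R y x)) → x ∈ R.B1
  two : ∀ ξ, R.Z2 ξ → (∀ u ∈ R'.H0, Sz fun g h => β u (ξ g h)) → R.B2 ξ

variable {β : A' →ₗ[k] A →ₗ[k] k} {R : FR k G A} {R' : FR k G A'}
  {β₁ : A₁' →ₗ[k] A₁ →ₗ[k] k} {R₁ : FR k G A₁} {R₁' : FR k G A₁'}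
  {β₂ : A₂' →ₗ[k] A₂ →ₗ[k] k} {R₂ : FR k G A₂} {R₂' : FR k G A₂'}

theorem Eqv.h0 {f : A →ₗ[k] A₁} (h : Eqv R R₁ f) {u : A} (hu : u ∈ R.H0) : f u ∈ R₁.H0 :=
  R₁.mem_H0.2 fun g => by rw [← h, R.mem_H0.1 hu]

theorem Eqv.b2 {f : A →ₗ[k] A₁} (h : Eqv R R₁ f) {ξ : G → G → A} (hξ : R.B2 ξ) :
    R₁.B2 fun g l => f (ξ g l) := by
  obtain ⟨φ, a, b⟩ := hξ
  exact ⟨_, lc_one f a, fun g l => by rw [h.d2, ← b]⟩

theorem LDp.ret {i : A →ₗ[k] A₁} {p : A₁ →ₗ[k] A} {i' : A₁' →ₗ[k] A'} (hi : Eqv R R₁ i)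
    (hp : Eqv R₁ R p) (e : ∀ a, p (i a) = a) (hi' : Eqv R₁' R' i')
    (ad : ∀ u v, β (i' u) v = β₁ u (i v)) (h : LDp R₁' R₁ β₁) : LDp R' R β where
  fin := by
    have := h.fin
    exact Submodule.finiteDimensional_of_le (S₂ := R₁.Z1.map (p.compLeft G))
      fun x hx => ⟨_, hi.z1 hx, funext fun g => e _⟩
  one x hx h0 := by
    have := hp.b1 (h.one _ (hi.z1 hx) fun y hy => c11_adj hi ad y x ▸ h0 _ (hi'.z1 hy))
    simpa only [e] using this
  two ξ hξ h0 := by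
    have := hp.b2 (h.two _ (hi.z2 hξ) fun u hu => sz_congr (h0 _ (hi'.h0 hu)) fun g l => ad _ _)
    simpa only [e] using this

theorem LDp.zero [Subsingleton A] : LDp R' R β where
  fin := Module.Finite.of_finite
  one x _ _ := Subsingleton.elim 0 x ▸ zero_mem _
  two _ _ _ := ⟨0, IsLocallyConstant.const _, fun _ _ => Subsingleton.elim _ _⟩

variable [CharP k 2]

theorem sz_d2 (hP : Pf R' R β) (u : A') {x : G → A} (hx : IsLocallyConstant x) :
    Sz ((fun g h => β u (R.d2 x g h)) + c11 β R (R'.d1 u) x) :=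
  ⟨fun g => β u (x g), lc_one _ hx, fun g h => by
    have := hP.eq g u (x h)
    simp only [Pi.add_apply, c11, FR.d2, FR.d1_apply, map_add, map_sub, LinearMap.sub_apply]
    grind⟩

theorem sz_h0 (hP : Pf R' R β) {u : A'} (hu : u ∈ R'.H0) {x : G → A} (hx : IsLocallyConstant x) :
    Sz fun g h => β u (R.d2 x g h) :=
  sz_congr (sz_d2 hP u hx) fun g l => by
    rw [show R'.d1 u = 0 from hu]
    simp [c11]

theorem sz_cancel {ε ε' : G → G → k} (h : Sz ε) (h' : Sz (ε + ε')) : Sz ε' :=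
  add_add_cancel2 ε ε' ▸ h.add h'

/-- An exact sequence with a linear splitting. -/
structure Ex (R₁ : FR k G A₁) (R : FR k G A) (R₂ : FR k G A₂) (i : A₁ →ₗ[k] A) (p : A →ₗ[k] A₂)
    (r : A →ₗ[k] A₁) (s : A₂ →ₗ[k] A) : Prop where
  hi : Eqv R₁ R i
  hp : Eqv R R₂ p
  ri : ∀ a, r (i a) = a
  ps : ∀ a, p (s a) = a
  pi : ∀ a, p (i a) = 0
  ir : ∀ a, p a = 0 → i (r a) = a

theorem exEx {i : A₁ →ₗ[k] A} {p : A →ₗ[k] A₂} (hi : Eqv R₁ R i) (hp : Eqv R R₂ p)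
    (inj : Function.Injective i) (sj : Function.Surjective p)
    (e : LinearMap.ker p = LinearMap.range i) : ∃ r s, Ex R₁ R R₂ i p r s := by
  obtain ⟨r, hr⟩ := i.exists_leftInverse_of_injective (LinearMap.ker_eq_bot.2 inj)
  obtain ⟨s, hs⟩ := p.exists_rightInverse_of_surjective (LinearMap.range_eq_top.2 sj)
  refine ⟨r, s, hi, hp, LinearMap.congr_fun hr, LinearMap.congr_fun hs,
    fun a => e.ge ⟨a, rfl⟩, fun a ha => ?_⟩
  obtain ⟨b, rfl⟩ := e.le ha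
  exact congrArg i (LinearMap.congr_fun hr b)

namespace Ex

variable {i : A₁ →ₗ[k] A} {p : A →ₗ[k] A₂} {r : A →ₗ[k] A₁} {s : A₂ →ₗ[k] A}
  (E : Ex R₁ R R₂ i p r s)

include E

theorem inj : Function.Injective i := Function.LeftInverse.injective E.ri

theorem z1 {x : G → A} (hx : x ∈ R.Z1) (h : ∀ g, p (x g) = 0) : (fun g => r (x g)) ∈ R₁.Z1 :=
  E.hi.z1_of E.inj (by simpa only [fun g => E.ir _ (h g)] using hx)

theorem z2 {ξ : G → G → A} (hx : R.Z2 ξ) (h : ∀ g l, p (ξ g l) = 0) :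
    R₁.Z2 fun g l => r (ξ g l) :=
  E.hi.z2_of E.inj (by simpa only [fun g l => E.ir _ (h g l)] using hx)

theorem pd1 {a : A₂} (ha : a ∈ R₂.H0) (g : G) : p (R.d1 (s a) g) = 0 := by
  rw [congrFun (E.hp.d1 _) g, E.ps, show R₂.d1 a = 0 from ha, Pi.zero_apply]

theorem pd2 {x : G → A₂} (hx : x ∈ R₂.Z1) (g l : G) : p (R.d2 (fun g => s (x g)) g l) = 0 := by
  rw [← E.hp.d2]
  simpa only [E.ps] using hx.2 g l

theorem dual [FiniteDimensional k A₁] [FiniteDimensional k A] (P₁ : Pf R₁' R₁ β₁) (P : Pf R' R β)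
    (P₂ : Pf R₂' R₂ β₂) : ∃ (i' : A' →ₗ[k] A₁') (p' : A₂' →ₗ[k] A') (r' : A' →ₗ[k] A₂')
      (s' : A₁' →ₗ[k] A'), Ex R₂' R' R₁' p' i' r' s' ∧ (∀ u v, β₁ (i' u) v = β u (i v)) ∧
        ∀ u v, β (p' u) v = β₂ u (p v) := by
  have : FiniteDimensional k A₂ := Module.Finite.of_surjective p
    (Function.RightInverse.surjective E.ps)
  obtain ⟨i', a1, a2⟩ := P₁.adj P E.hi
  obtain ⟨p', b1, b2⟩ := P.adj P₂ E.hp
  obtain ⟨r', s', h⟩ := exEx b1 a1 ((injective_iff_map_eq_zero _).2 fun u hu => P₂.nl u fun v => by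
      rw [← E.ps v, ← b2, hu, LinearMap.map_zero₂])
    (fun u => (P.bij.2.2 ((β₁ u).comp r)).imp fun w hw => sub_eq_zero.1 (P₁.nl _ fun v => by
      rw [map_sub, LinearMap.sub_apply, a2, hw, LinearMap.comp_apply, E.ri, sub_self]))
    (Submodule.ext fun u => ⟨fun hu => (P₂.bij.2.2 ((β u).comp s)).imp fun w hw =>
      sub_eq_zero.1 (P.nl _ fun v => by
        rw [map_sub, LinearMap.sub_apply, b2, hw, LinearMap.comp_apply, ← map_sub,
          ← E.ir (s (p v) - v) (by rw [map_sub, E.ps, sub_self]), ← a2, LinearMap.mem_ker.1 hu,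
          LinearMap.map_zero₂]),
      fun ⟨w, hw⟩ => P₁.nl _ fun v => by rw [a2, ← hw, b2, E.pi, map_zero]⟩)
  exact ⟨i', p', r', s', h, a2, b2⟩

end Ex

variable [Finite k] [Algebra (ZMod 2) k]

theorem LDp.ext [ContinuousMul G] (H : Two G) [FiniteDimensional k A₂] {i : A₁ →ₗ[k] A} {p : A →ₗ[k] A₂}
    {r : A →ₗ[k] A₁} {s : A₂ →ₗ[k] A} (E : Ex R₁ R R₂ i p r s) {i' : A' →ₗ[k] A₁'}
    {p' : A₂' →ₗ[k] A'} {r' : A' →ₗ[k] A₂'} {s' : A₁' →ₗ[k] A'} (E' : Ex R₂' R' R₁' p' i' r' s')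
    (P₁ : Pf R₁' R₁ β₁) (P : Pf R' R β) (P₂ : Pf R₂' R₂ β₂)
    (ai : ∀ u v, β₁ (i' u) v = β u (i v)) (ap : ∀ u v, β (p' u) v = β₂ u (p v))
    (h₁ : LDp R₁' R₁ β₁) (h₂ : LDp R₂' R₂ β₂) (h₂' : LDp R₂ R₂' β₂.flip) : LDp R' R β where
  fin := by
    have := h₁.fin
    have := h₂.fin
    have a : FiniteDimensional k (R.Z1.map (p.compLeft G)) :=
      Submodule.finiteDimensional_of_le (E.hp.map_z1 le_rfl)
    have b : FiniteDimensional k (R.Z1 ⊓ LinearMap.ker (p.compLeft G) : Submodule k _) :=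
      Submodule.finiteDimensional_of_le (S₂ := R₁.Z1.map (i.compLeft G)) fun x hx =>
        ⟨_, E.z1 hx.1 (congrFun hx.2), funext fun g => E.ir _ (congrFun hx.2 g)⟩
    exact Module.Finite.iff_fg.2 (Submodule.fg_of_fg_map_of_fg_inf_ker _ (Module.Finite.iff_fg.1 a)
      (Module.Finite.iff_fg.1 b))
  one x hx h0 := by
    obtain ⟨a, ha⟩ := h₂.one _ (E.hp.z1 hx) fun y hy => c11_adj E.hp ap y x ▸ h0 _ (E'.hi.z1 hy)
    have c1 : x - R.d1 (s a) ∈ R.Z1 := sub_mem hx (R.d1_mem _)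
    have c2 : ∀ g, p ((x - R.d1 (s a)) g) = 0 := fun g => by
      rw [Pi.sub_apply, map_sub, congrFun (E.hp.d1 _) g, E.ps, ha, sub_self]
    let δ : R₂.H0 →ₗ[k] R₁.Z1 := (r.compLeft G ∘ₗ R.d1 ∘ₗ s ∘ₗ R₂.H0.subtype).codRestrict _
      fun u => E.z1 (R.d1_mem _) (E.pd1 u.2)
    obtain ⟨u, hu⟩ := bidual ((lp H P₁).compl₂ δ) ((lp H P₁).flip ⟨_, E.z1 c1 c2⟩) fun y hy => by
      have l1 : IsLocallyConstant fun g => s' (y.1 g) := lc_one s' y.2.1
      obtain ⟨ψ, d1, d2⟩ := h₂'.two _ (E'.z2 (R'.z2_d2 l1) (E'.pd2 y.2)) fun w hw => by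
        have d := sz_flip P₁ y.2 (δ ⟨w, hw⟩).2 ((lp_zero H P₁ y _).1 (hy ⟨w, hw⟩))
        refine sz_congr (sz_cancel d (sz_congr (sz_d2 P.flip (s w) l1) fun g l => ?_))
          fun g l => rfl
        rw [Pi.add_apply, Pi.add_apply, add_comm]
        congr 1
        · change β (R'.ac g (s' _)) (R.d1 (s w) g) = β₁ (R₁'.ac g _) (r (R.d1 (s w) g))
          rw [← E.ir _ (E.pd1 hw g), ← ai, E'.hp, E'.ps, E.ri]
        · change β _ (s w) = β₂ (r' _) w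
          rw [← E'.ir _ (E'.pd2 y.2 g l), ap, E.ps, E'.ri]
      have d3 : (fun g => s' (y.1 g) - p' (ψ g)) ∈ R'.Z1 := ⟨l1.sub (lc_one p' d1), fun g l => by
        rw [show (fun g => s' (y.1 g) - p' (ψ g)) = (fun g => s' (y.1 g)) - fun g => p' (ψ g) from rfl,
          R'.d2_sub, E'.hi.d2, ← d2, E'.ir _ (E'.pd2 y.2 g l), sub_self]⟩
      refine (lp_zero H P₁ y _).2 (sz_congr ((h0 _ d3).add
        (sz_b1_right P d3 ⟨s a, rfl⟩)) fun g l => ?_)
      have d4 := congrFun₂ (c11_adj E.hi ai (fun g => s' (y.1 g) - p' (ψ g))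
        fun g => r ((x - R.d1 (s a)) g)) g l
      simp only [map_sub, E'.ps, E'.pi, sub_zero, fun g => E.ir _ (c2 g)] at d4
      refine Eq.trans ?_ d4.symm
      rw [← c11_add_right, ← sub_eq k]
    have c3 := h₁.one _ (sub_mem (E.z1 c1 c2) (δ u).2) fun y hy => by
      rw [sub_eq k, c11_add_right]
      exact (invK_zero H ((cz_c11 P₁ hy (E.z1 c1 c2)).add (cz_c11 P₁ hy (δ u).2))).1 (by
        rw [invK_add H (cz_c11 P₁ hy (E.z1 c1 c2)) (cz_c11 P₁ hy (δ u).2)]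
        exact CharTwo.add_eq_zero.2 (hu ⟨y, hy⟩))
    have c4 := add_mem (add_mem (E.hi.b1 c3) ⟨s u, rfl⟩) ⟨s a, rfl⟩
    refine (funext fun g => ?_ : _ = x) ▸ c4
    change i (r ((x - R.d1 (s a)) g) - r (R.d1 (s u) g)) + R.d1 (s u) g + R.d1 (s a) g = x g
    rw [map_sub, E.ir _ (c2 g), E.ir _ (E.pd1 u.2 g), sub_add_cancel, Pi.sub_apply, sub_add_cancel]
  two ξ hξ h0 := by
    have := h₂.fin
    obtain ⟨φ, a1, a2⟩ := h₂.two _ (E.hp.z2 hξ) fun u hu =>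
      sz_congr (h0 _ (E'.hi.h0 hu)) fun g l => ap _ _
    have l0 : IsLocallyConstant fun g => s (φ g) := lc_one s a1
    have c1 := hξ.sub (R.z2_d2 l0)
    have c2 : ∀ g l, p ((ξ - R.d2 fun g => s (φ g)) g l) = 0 := fun g l => by
      rw [Pi.sub_apply, Pi.sub_apply, map_sub, ← E.hp.d2]
      simp only [E.ps, ← a2, sub_self]
    have c3 := E.z2 c1 c2
    have c4 : ∀ x : R₂.Z1, R₁.Z2 fun g l => r (R.d2 (fun g => s (x.1 g)) g l) := fun x =>
      E.z2 (R.z2_d2 (lc_one s x.2.1)) (E.pd2 x.2)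
    let L : ∀ ζ : G → G → A₁, R₁.Z2 ζ → R₁'.H0 →ₗ[k] k := fun ζ hζ =>
      { toFun := fun u => invK fun g l => β₁ u (ζ g l)
        map_add' := fun u v => by
          rw [← invK_add H (cz_c02 P₁ u.2 hζ) (cz_c02 P₁ v.2 hζ)]
          exact congrArg invK (funext₂ fun g l => LinearMap.map_add₂ _ _ _ _)
        map_smul' := fun c u => by
          rw [RingHom.id_apply, smul_eq_mul, ← invK_smul H c (cz_c02 P₁ u.2 hζ)]
          exact congrArg invK (funext₂ fun g l => LinearMap.map_smul₂ _ _ _ _) }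
    let B : R₂.Z1 →ₗ[k] R₁'.H0 →ₗ[k] k :=
      { toFun := fun x => L _ (c4 x)
        map_add' := fun x y => LinearMap.ext fun u => by
          refine Eq.trans (congrArg invK (funext₂ fun g l => ?_))
            (invK_add H (cz_c02 P₁ u.2 (c4 x)) (cz_c02 P₁ u.2 (c4 y)))
          simp only [Submodule.coe_add, Pi.add_apply, map_add]
          rw [← map_add, ← map_add, ← R.d2_add]
          rfl
        map_smul' := fun c x => LinearMap.ext fun u => by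
          refine Eq.trans (congrArg invK (funext₂ fun g l => ?_))
            (invK_smul H c (cz_c02 P₁ u.2 (c4 x)))
          simp only [Submodule.coe_smul, Pi.smul_apply, map_smul]
          rw [← map_smul, ← map_smul, ← R.d2_smul]
          rfl }
    obtain ⟨x, hx⟩ := bidual B.flip (L _ c3) fun u hu => by
      have d0 : ∀ g, i' (R'.d1 (s' u) g) = 0 := E'.pd1 u.2
      have d1 := E'.z1 (R'.d1_mem _) d0
      obtain ⟨w, hw⟩ := h₂'.one _ d1 fun x hx => sz_flip P₂ d1 hx (by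
        refine sz_cancel ((invK_zero H (cz_c02 P₁ u.2 (c4 ⟨x, hx⟩))).1 (hu ⟨x, hx⟩))
          (sz_congr (sz_d2 P (s' u) (lc_one s hx.1)) fun g l => ?_)
        rw [Pi.add_apply, Pi.add_apply]
        congr 1
        · rw [← E.ir _ (E.pd2 hx g l), ← ai, E'.ps]
        · change β (R'.d1 (s' u) g) (R.ac g (s _)) = β₂ (r' (R'.d1 (s' u) g)) (R₂.ac g _)
          rw [← E'.ir _ (d0 g), ap, E.hp, E.ps, E'.ri])
      have d2 : s' u - p' w ∈ R'.H0 := funext fun g => by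
        rw [map_sub, Pi.sub_apply, ← congrFun (E'.hi.d1 w) g, hw, E'.ir _ (d0 g), sub_self]
        rfl
      refine invK_sz (sz_congr ((h0 _ d2).add (sz_h0 P d2 l0)) fun g l => ?_)
      rw [Pi.add_apply, Pi.add_apply, ← map_add, ← sub_eq k]
      change β _ ((ξ - R.d2 fun g => s (φ g)) g l) = _
      rw [← E.ir _ (c2 g l), ← ai, map_sub, E'.ps, E'.pi, sub_zero]
    obtain ⟨ψ, e1, e2⟩ := h₁.two _ (c3.add (c4 x)) fun u hu => sz_congr
      ((invK_zero H ((cz_c02 P₁ hu c3).add (cz_c02 P₁ hu (c4 x)))).1 (by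
        rw [invK_add H (cz_c02 P₁ hu c3) (cz_c02 P₁ hu (c4 x))]
        exact CharTwo.add_eq_zero.2 (hx ⟨u, hu⟩))) fun g l => (map_add _ _ _).symm
    refine ⟨(fun g => i (ψ g)) - (fun g => s (x.1 g)) + fun g => s (φ g),
      ((lc_one i e1).sub (lc_one s x.2.1)).add l0, fun g l => ?_⟩
    rw [R.d2_add, R.d2_sub, E.hi.d2, ← e2, Pi.add_apply, Pi.add_apply, map_add, E.ir _ (c2 g l),
      E.ir _ (E.pd2 x.2 g l), add_sub_cancel_right, Pi.sub_apply, Pi.sub_apply, sub_add_cancel]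

theorem ldm_of [IsTopologicalGroup G] [CompactSpace G] (H : Two G)
    (base : ∀ U : Subgroup G, IsOpen (U : Set G) → Odd U.index → ∀ [Fintype (G ⧸ U)]
      (h : IsLocallyConstant (MulAction.toPermHom G (G ⧸ U))),
      Pf (perm k (G ⧸ U) h) (perm k (G ⧸ U) h) (dotProductBilin k k) ∧
      LDp (perm k (G ⧸ U) h) (perm k (G ⧸ U) h) (dotProductBilin k k)) : LDm k G := by
  have key := deviss (k := k) (G := G) (fun A _ _ R => ∀ (A' : Type) [AddCommGroup A'] [Module k A']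
    (R' : FR k G A') (β : A' →ₗ[k] A →ₗ[k] k), Pf R' R β → LDp R' R β ∧ LDp R R' β.flip)
    (fun U o n h A' _ _ R' β P => by
      have := U.quotient_finite_of_isOpen o
      have := Fintype.ofFinite (G ⧸ U)
      obtain ⟨P₀, b⟩ := base U o n h
      have e : Eqv (perm k (G ⧸ U) h) (perm k (G ⧸ U) h) LinearMap.id := fun _ _ => rfl
      obtain ⟨j, j1, j2⟩ := P.adj P₀ e
      obtain ⟨j', j3, j4⟩ := P₀.adj P e
      exact ⟨b.ret e e (fun _ => rfl) j1 j2, LDp.ret (β := β.flip) (β₁ := dotProductBilin k k) j3 j1 (fun u => sub_eq_zero.1 (P.nl _ fun v => by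
        rw [map_sub, LinearMap.sub_apply, j2, LinearMap.id_apply, j4, LinearMap.id_apply,
          sub_self])) e (fun u v => (j4 v u).symm.trans (dotProduct_comm (j' v) u)) b⟩)
    (fun A _ _ R h A' _ _ R' β P => by
      have : Subsingleton A' := ⟨fun a b => sub_eq_zero.1 (P.nl _ fun v => by
        rw [Subsingleton.elim v 0, map_zero])⟩
      exact ⟨LDp.zero, LDp.zero⟩)
    (fun A₁ A A₂ _ _ _ _ _ _ _ _ _ R₁ R R₂ i p hi hp inj sj e q₁ q₂ A' _ _ R' β P => by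
      obtain ⟨r, s, E⟩ := exEx hi hp inj sj e
      obtain ⟨R₁', P₁, -⟩ := R₁.dual
      obtain ⟨R₂', P₂, -⟩ := R₂.dual
      obtain ⟨i', p', r', s', E', ai, ap⟩ := E.dual P₁ P P₂
      obtain ⟨a1, a2⟩ := q₁ _ _ _ P₁
      obtain ⟨b1, b2⟩ := q₂ _ _ _ P₂
      exact ⟨LDp.ext H E E' P₁ P P₂ ai ap a1 b1 b2, LDp.ext H E' E P₂.flip P.flip P₁.flip
        (fun u v => (ap v u).symm) (fun u v => (ai v u).symm) b2 a2 a1⟩)
    (fun A B _ _ _ _ _ _ R RB i p hi hp e q A' _ _ R' β P => by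
      obtain ⟨RB', PB, -⟩ := RB.dual
      obtain ⟨i', a1, a2⟩ := P.adj PB hi
      obtain ⟨p', b1, b2⟩ := PB.adj P hp
      obtain ⟨c1, c2⟩ := q _ _ _ PB
      exact ⟨c1.ret hi hp e a1 a2, LDp.ret (β := β.flip) (β₁ := LinearMap.id.flip) b1 a1 (fun u => sub_eq_zero.1 (P.nl _ fun v => by
        rw [map_sub, LinearMap.sub_apply, a2, b2, e, sub_self])) hp (fun u v => (b2 v u).symm) c2⟩)
  exact ⟨fun R => R.dual.elim fun R' P => (key _ R _ R' _ P.1).1.fin,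
    fun P => (key _ _ _ _ _ P).1.one, fun P => (key _ _ _ _ _ P).1.two⟩

end Pool.Agent.BC
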