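import Pool.Agent.Lib.MP_b4b3cb_nt.BC.Ann
import Pool.Agent.Lib.MP_b4b3cb_nt.BC.Wb

/-! Self-dual conditions on the induced module. -/

set_option linter.unusedSectionVars false

namespace Pool.Agent.BC.RD

open scoped Classical
open Module Pool.Agent.SP

variable {k : Type} [Field k] {G : Type} [Group G] [TopologicalSpace G]
  {V : Type} [AddCommGroup V] [Module k V] {X : RD k G V} {Y : Submodule k (G → V × V)}

theorem dimY (Y : Submodule k (G → V × V)) [FiniteDimensional k Y] :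
    finrank k Y = finrank k (Y0 Y) + finrank k (Y1 Y) := by
  have h := (((LinearMap.snd k V V).compLeft G).domRestrict Y).finrank_range_add_finrank_ker
  rw [LinearMap.range_domRestrict, LinearMap.ker_domRestrict] at h
  have e : (Y1 Y).map ((LinearMap.inl k V V).compLeft G) =
      (((LinearMap.snd k V V).compLeft G).ker.comap Y.subtype).map Y.subtype := by
    ext t
    constructor
    · rintro ⟨s, hs, rfl⟩
      exact ⟨⟨_, hs⟩, rfl, rfl⟩
    · rintro ⟨⟨t, ht⟩, p, rfl⟩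
      have q : (fun g => ((t g).1, (0 : V))) = t :=
        funext fun g => Prod.ext rfl (congrFun p g).symm
      exact ⟨fun g => (t g).1, mem_Y1.2 (q ▸ ht), q⟩
  rw [← h, ← Submodule.finrank_map_subtype_eq, ← e, ← (Submodule.equivMapOfInjective _
    (fun a b p => funext fun g => congrArg Prod.fst (congrFun p g)) (Y1 Y)).finrank_eq]
  rfl

theorem y0_b1 (h : X.W.B1 ≤ Y) : X.r.B1 ≤ Y0 Y := X.eqv_p.b1_map (fun u => ⟨(0, u), rfl⟩) h

theorem y0_z1 (h : Y ≤ X.W.Z1) : Y0 Y ≤ X.r.Z1 := X.eqv_p.map_z1 h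

theorem y1_b1 (h : X.W.B1 ≤ Y) : X.r.B1 ≤ Y1 Y := fun _ p => h (X.eqv_i.b1 p)

theorem y1_z1 (h : Y ≤ X.W.Z1) : Y1 Y ≤ X.r.Z1 :=
  fun _ p => X.eqv_i.z1_of LinearMap.inl_injective (h p)

theorem P_inl (y s : G → V) : X.P y (fun g => (s g, 0)) = c11 X.a X.r y s := by
  ext g h; simp [P, c11, W_ac]

theorem P_add (y : G → V) (t t' : G → V × V) : X.P y (t + t') = X.P y t + X.P y t' := by
  ext g h; simp [P]

variable [CharP k 2]

theorem ann_y0 : ann X.a X.r X.r (Y0 Y) = Y1 (ann X.om X.W X.W Y) := Submodule.ext fun _ =>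
  (mem_ann_map (β := X.om) X.eqv_p X.eqv_i fun u v => by simp [om_apply]).trans
    ⟨fun p => p.2, fun p => ⟨y1_z1 ann_le p, p⟩⟩

theorem sz_sy {x y : G → V} (hy : y ∈ X.r.Z1) (hx : x ∈ X.r.Z1) (h : Sz (c11 X.a X.r y x)) :
    Sz (c11 X.a X.r x y) := X.flip_a ▸ sz_flip X.pf hy hx h

variable (k) in
include k in
theorem add_inl {t t' : G → V × V} (e : ∀ g, (t g).2 = (t' g).2) :
    t + t' = fun g => ((t g).1 + (t' g).1, 0) :=
  funext fun g => Prod.ext rfl (by rw [Pi.add_apply, Prod.snd_add, e, add_self (k := k)])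

/-- The pseudo-determinant for the shifted quadratic form. -/
def D0 (X : RD k G V) (u : V) (h : G) : k :=
  X.D h + X.a u (X.c h) + X.a ((X.c + X.r.d1 u) h) (X.r.ac h u)

theorem D0_lc (u : V) : IsLocallyConstant (X.D0 u) :=
  (X.lcD.add (lc_one _ X.lcc)).add (lc_two (fun x y => X.a x y) (X.lcc.add (X.r.d1_mem u).1)
    (X.r.lc_ac continuous_id (IsLocallyConstant.const u)))

theorem D0_mul (u : V) (g h : G) : X.D0 u (g * h) = X.D0 u g + X.D0 u h +
    X.a ((X.c + X.r.d1 u) g) (X.r.ac g ((X.c + X.r.d1 u) h)) := by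
  have a1 := X.pf.eq g u (X.c h)
  have a2 := X.pf.eq g (X.c h) (X.r.ac h u)
  have a3 := X.pf.eq g u (X.r.ac h u)
  simp only [D0, X.hD, FR.coc X.c_z1, Pi.add_apply, FR.d1_apply, X.r.mul, map_add, map_sub,
    LinearMap.add_apply, LinearMap.sub_apply, X.alt]
  grind

/-- Change of the base point of the quadratic form. -/
theorem gv_shift {t : G → V × V} (ht : t ∈ X.W.Z1) (e : ∀ g, (t g).2 = X.c g) (u : V) :
    Sz (X.gv t + fun g h => X.χ g * X.D0 u h +
      X.P (X.c + X.r.d1 u) (t + X.W.d1 (0, u)) g h) :=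
  ⟨fun g => X.a u (t g).1 + X.χ g * X.a ((X.c + X.r.d1 u) g) (X.r.ac g u),
    (lc_one (fun w : V × V => X.a u w.1) ht.1).add (X.hχ.1.mul (lc_two (fun x y => X.a x y)
      (X.lcc.add (X.r.d1_mem u).1) (X.r.lc_ac continuous_id (IsLocallyConstant.const u)))),
    fun g h => by
      have a1 := X.pf.eq g u (X.c h)
      have a2 := X.pf.eq g (X.c h) (X.r.ac h u)
      have a3 := X.pf.eq g u (X.r.ac h u)
      have a4 := X.pf.eq g u (t h).1
      simp only [gv, P, D0, fst_coc ht, FR.coc X.c_z1, Pi.add_apply, FR.d1_apply, X.r.mul, W_ac,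
        Prod.fst_add, Prod.fst_sub, e, map_add, map_sub, map_smul,
        LinearMap.add_apply, LinearMap.sub_apply, X.alt, X.χ_mul, smul_eq_mul, map_zero]
      grind⟩

theorem D0_rk {u : V} {g : G} (e : X.c g = X.r.ac g u - u) :
    X.D0 u g = (finrank k (LinearMap.range (X.r.ac g - 1)) : k) := by
  rw [← X.rk g u e, D0, Pi.add_apply, FR.d1_apply, ← e, add_self (k := k), e]
  simp [X.alt]

theorem SQ.y1 (h : X.SQ Y) : ann X.a X.r X.r (Y0 Y) = Y1 Y := by rw [ann_y0, h.sd]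

variable [Finite k] [Algebra (ZMod 2) k] [FiniteDimensional k V] (H : Two G) (L : LDm k G)

include L in
theorem SQ.dim (h : X.SQ Y) : finrank k Y = finrank k (Y0 Y) + finrank k (Y1 Y) :=
  have := L.fin X.W
  have := Submodule.finiteDimensional_of_le h.z1
  dimY Y

include H L

theorem ann_ann_a {A : Submodule k (G → V)} (h1 : X.r.B1 ≤ A) (h2 : A ≤ X.r.Z1) :
    ann X.a X.r X.r (ann X.a X.r X.r A) = A := by
  have := ann_ann H L X.pf h1 h2
  rwa [X.flip_a] at this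

theorem SQ.y0 (h : X.SQ Y) : ann X.a X.r X.r (Y1 Y) = Y0 Y := by
  rw [← h.y1, ann_ann_a H L (y0_b1 h.b1) (y0_z1 h.z1)]

theorem SQ.c_mem (h : X.SQ Y) : X.c ∈ Y0 Y := by
  rw [← h.y0 H L]
  refine ⟨X.c_z1, fun s hs => ?_⟩
  have cz := cz_c11 X.pf X.c_z1 (y1_z1 h.z1 hs)
  obtain ⟨f, f1, f2⟩ := h.q _ hs
  rw [← invK_zero H cz, ← pow_eq_zero_iff two_ne_zero, ← invK_sq H cz]
  refine invK_sz ⟨f + fun g => X.N (s g) (s g),
    f1.add (lc_one (fun u => X.N u u) (y1_z1 h.z1 hs).1), fun g l => ?_⟩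
  have := (Q_eq (h.z1 hs) g l).symm.trans (f2 g l)
  simp only [P, dk, W_ac, LinearMap.compLeft_apply, Function.comp, LinearMap.inl_apply, map_zero,
    LinearMap.zero_apply, smul_zero, add_zero] at this
  simp only [c11, Pi.add_apply]
  grind

theorem SQ.gv_eq (h : X.SQ Y) {t t' : G → V × V} (ht : t ∈ Y) (ht' : t' ∈ Y)
    (e : ∀ g, (t g).2 = X.c g) (e' : ∀ g, (t' g).2 = X.c g) :
    invK (X.gv t) = invK (X.gv t') := by
  refine invK_congr H (cz_gv (h.z1 ht) e) (cz_gv (h.z1 ht') e') ?_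
  have q := add_inl k fun g => (e g).trans (e' g).symm
  have c := (h.y0 H L).ge (h.c_mem H L)
  refine sz_congr (c.2 _ (mem_Y1.2 (q ▸ add_mem ht ht'))) fun g l => ?_
  rw [← P_inl, ← q, P_add]
  simp only [gv, Pi.add_apply]
  grind

end Pool.Agent.BC.RD
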