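import Pool.Agent.Lib.MP_b4b3cb_nt.BC.Inv
import Pool.Agent.Lib.MP_b4b3cb_nt.Par.Dy

/-! A lattice with its reduction; spaces of functions with values in its multiples. -/

set_option linter.unusedSectionVars false

namespace Pool.Agent.BC

open scoped Classical
open Module Filter Topology Pool.Agent.SP

variable {E k : Type} [NontriviallyNormedField E] [Field k]

/-- A lattice with a reduction map onto `A`. -/
structure Lt (c : CF E k) (W : Type) [NormedAddCommGroup W] [NormedSpace E W] (A : Type)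
    [AddCommGroup A] [Module k A] where
  /-- the lattice -/
  L : AddSubgroup W
  /-- the reduction -/
  rd : W → A
  sm : ∀ {a : E} {u}, ‖a‖ ≤ 1 → u ∈ L → a • u ∈ L
  rd_add : ∀ {u v}, u ∈ L → v ∈ L → rd (u + v) = rd u + rd v
  rd_smul : ∀ {a : E} {u}, ‖a‖ ≤ 1 → u ∈ L → rd (a • u) = c.rd a • rd u
  rd_zero : ∀ {u}, u ∈ L → rd u = 0 → c.π⁻¹ • u ∈ L
  sj : ∀ a, ∃ e ∈ L, rd e = a
  op : IsOpen (L : Set W)
  bdd : ∃ C : ℝ, ∀ u ∈ L, ‖u‖ ≤ C

namespace Lt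

variable {c : CF E k} {W : Type} [NormedAddCommGroup W] [NormedSpace E W] {A : Type}
  [AddCommGroup A] [Module k A] (C : Lt c W A)

/-- The multiples of the lattice. -/
noncomputable def T (i : ℤ) : AddSubgroup W := C.L.comap (sml (c.π ^ (-i)))

/-- The reduction on a multiple. -/
noncomputable def lam (i : ℤ) (u : W) : A := C.rd (c.π ^ (-i) • u)

theorem mem_T {i : ℤ} {u : W} : u ∈ C.T i ↔ c.π ^ (-i) • u ∈ C.L := Iff.rfl

theorem T_zero {u : W} : u ∈ C.T 0 ↔ u ∈ C.L := by simp [mem_T]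

theorem lam_zero' (u : W) : C.lam 0 u = C.rd u := by simp [lam]

theorem sc_zpow (m i : ℤ) (u : W) : c.π ^ (-(i + m)) • c.π ^ m • u = c.π ^ (-i) • u := by
  rw [smul_smul, ← zpow_add₀ c.ne, neg_add_rev, add_comm (-m), neg_add_cancel_right]

theorem per_zpow (m i : ℤ) (u : W) : c.π ^ m • u ∈ C.T (i + m) ↔ u ∈ C.T i := by
  rw [mem_T, mem_T, sc_zpow]

theorem lam_zpow (m i : ℤ) (u : W) : C.lam (i + m) (c.π ^ m • u) = C.lam i u := by
  rw [lam, lam, sc_zpow]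

theorem per (i : ℤ) (u : W) : c.π • u ∈ C.T (i + 1) ↔ u ∈ C.T i := by
  simpa using C.per_zpow 1 i u

theorem lam_per (i : ℤ) (u : W) : C.lam (i + 1) (c.π • u) = C.lam i u := by
  simpa using C.lam_zpow 1 i u

theorem per_pow (m : ℕ) (i : ℤ) (u : W) : c.π ^ m • u ∈ C.T (i + m) ↔ u ∈ C.T i := by
  rw [← zpow_natCast, C.per_zpow]

theorem smul {i : ℤ} {a : E} {u : W} (ha : ‖a‖ ≤ 1) (h : u ∈ C.T i) : a • u ∈ C.T i := by
  rw [mem_T, smul_comm]
  exact C.sm ha h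

theorem succ (i : ℤ) : C.T (i + 1) ≤ C.T i := fun u h =>
  (C.per i u).1 (C.smul c.lt.le h)

theorem lam_add {i : ℤ} {u v : W} (h : u ∈ C.T i) (h' : v ∈ C.T i) :
    C.lam i (u + v) = C.lam i u + C.lam i v := by
  rw [lam, smul_add]
  exact C.rd_add h h'

theorem lam_smul {i : ℤ} {a : E} {u : W} (ha : ‖a‖ ≤ 1) (h : u ∈ C.T i) :
    C.lam i (a • u) = c.rd a • C.lam i u := by
  rw [lam, smul_comm]
  exact C.rd_smul ha h

theorem lam_sc {i : ℤ} (a : k) {u : W} (h : u ∈ C.T i) : C.lam i (c.sc a • u) = a • C.lam i u := by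
  rw [C.lam_smul (c.sc_le a) h, c.rd_sc]

theorem lam_of {i : ℤ} {u : W} (h : u ∈ C.T (i + 1)) : C.lam i u = 0 := by
  rw [← smul_inv_smul₀ c.ne u, C.per] at h
  rw [← smul_inv_smul₀ c.ne u, C.lam_smul c.lt.le h, (c.rd_lt c.lt).2, zero_smul]

theorem lam_zero {i : ℤ} {u : W} (h : u ∈ C.T i) : C.lam i u = 0 ↔ u ∈ C.T (i + 1) :=
  ⟨fun e => by
    have := C.rd_zero (C.mem_T.1 h) e
    rwa [smul_comm, ← mem_T, ← C.per, smul_inv_smul₀ c.ne] at this, C.lam_of⟩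

theorem ex (i : ℤ) (a : A) : ∃ e ∈ C.T i, C.lam i e = a := by
  obtain ⟨e, h1, h2⟩ := C.sj a
  refine ⟨c.π ^ i • e, ?_, ?_⟩
  · simpa using (C.per_zpow i 0 e).2 (C.T_zero.2 h1)
  · simpa [lam_zero', h2] using C.lam_zpow i 0 e

theorem isOpen (i : ℤ) : IsOpen (C.T i : Set W) := C.op.preimage (continuous_const_smul _)

theorem anti {i j : ℤ} (h : i ≤ j) : C.T j ≤ C.T i := by
  induction j, h using Int.leInduction with
  | base => exact le_rfl
  | succ j _ ih => exact (C.succ j).trans ih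

theorem lam_neg {i : ℤ} {u : W} (h : u ∈ C.T i) : C.lam i (-u) = -C.lam i u := by
  have := C.lam_add h (neg_mem h)
  rw [add_neg_cancel, C.lam_of (zero_mem _)] at this
  exact (neg_eq_of_add_eq_zero_right this.symm).symm

theorem lam_sub {i : ℤ} {u v : W} (h : u ∈ C.T i) (h' : v ∈ C.T i) :
    C.lam i (u - v) = C.lam i u - C.lam i v := by
  rw [sub_eq_add_neg, C.lam_add h (neg_mem h'), C.lam_neg h', sub_eq_add_neg]

theorem lam_congr {i : ℤ} {u v : W} (h : v ∈ C.T i) (h' : u - v ∈ C.T (i + 1)) :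
    C.lam i u = C.lam i v := by
  rw [← sub_add_cancel u v, C.lam_add (C.succ i h') h, C.lam_of h', zero_add]

theorem sub_mem_of {i : ℤ} {u v : W} (h : u ∈ C.T i) (h' : v ∈ C.T i)
    (e : C.lam i u = C.lam i v) : u - v ∈ C.T (i + 1) :=
  (C.lam_zero (sub_mem h h')).1 (by rw [C.lam_sub h h', e, sub_self])

theorem of_sub {i : ℤ} {u v : W} (h : v ∈ C.T i) (h' : u - v ∈ C.T i) : u ∈ C.T i := by
  simpa using add_mem h' h

theorem bdd' (i : ℤ) : ∃ B : ℝ, ∀ u ∈ C.T i, ‖u‖ ≤ B := by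
  obtain ⟨B, hB⟩ := C.bdd
  refine ⟨‖(c.π ^ (-i))⁻¹‖ * B, fun u hu => ?_⟩
  rw [← inv_smul_smul₀ (zpow_ne_zero (-i) c.ne) u, norm_smul]
  exact mul_le_mul_of_nonneg_left (hB _ hu) (norm_nonneg _)

theorem small {ε : ℝ} (h : 0 < ε) : ∃ j, ∀ u ∈ C.T j, ‖u‖ < ε := by
  obtain ⟨B, hB⟩ := C.bdd' 0
  obtain ⟨m, hm⟩ := c.small h B
  refine ⟨0 + m, fun u hu => ?_⟩
  have p := pow_ne_zero m c.ne
  rw [← smul_inv_smul₀ p u, C.per_pow] at hu
  rw [← smul_inv_smul₀ p u, norm_smul, norm_pow]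
  exact (mul_le_mul_of_nonneg_left (hB _ hu) (by positivity)).trans_lt hm

theorem sep {u : W} (h : ∀ i, u ∈ C.T i) : u = 0 := by
  by_contra h0
  obtain ⟨j, hj⟩ := C.small (norm_pos_iff.2 h0)
  exact (hj u (h j)).false

theorem isClosed (i : ℤ) : IsClosed (C.T i : Set W) := (C.T i).isClosed_of_isOpen (C.isOpen i)

theorem ball (i : ℤ) : ∃ ε : ℝ, 0 < ε ∧ ∀ u : W, ‖u‖ < ε → u ∈ C.T i := by
  obtain ⟨ε, h1, h2⟩ := Metric.isOpen_iff.1 (C.isOpen i) 0 (zero_mem _)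
  exact ⟨ε, h1, fun u hu => h2 (by simpa using hu)⟩

theorem exh_bd (B : ℝ) : ∃ i, ∀ u : W, ‖u‖ ≤ B → u ∈ C.T i := by
  obtain ⟨ε, h1, h2⟩ := C.ball 0
  obtain ⟨m, hm⟩ := c.small h1 B
  refine ⟨-m, fun u hu => (C.per_pow m _ u).1 ?_⟩
  rw [neg_add_cancel]
  refine h2 _ ?_
  rw [norm_smul, norm_pow]
  exact (mul_le_mul_of_nonneg_left hu (by positivity)).trans_lt hm

theorem exh (u : W) : ∃ i, u ∈ C.T i := (C.exh_bd ‖u‖).imp fun _ h => h u le_rfl

theorem exh_cont {X : Type} [TopologicalSpace X] [CompactSpace X] {x : X → W} (h : Continuous x) :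
    ∃ i, ∀ g, x g ∈ C.T i := by
  obtain ⟨B, hB⟩ := (isCompact_range h).isBounded.exists_norm_le
  obtain ⟨i, hi⟩ := C.exh_bd B
  exact ⟨i, fun g => hi _ (hB _ ⟨g, rfl⟩)⟩

theorem near {X : Type} [TopologicalSpace X] {x : X → W} (i : ℤ) (h : Continuous x) (g : X) :
    ∀ᶠ y in 𝓝 g, x y - x g ∈ C.T i :=
  (h.sub continuous_const).continuousAt.eventually ((C.isOpen i).mem_nhds
    (by simp : x g - x g ∈ C.T i))

theorem lc {X : Type} [TopologicalSpace X] {x : X → W} {i : ℤ} (h : Continuous x)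
    (h' : ∀ g, x g ∈ C.T i) : IsLocallyConstant fun g => C.lam i (x g) :=
  (IsLocallyConstant.iff_eventually_eq _).2 fun g =>
    (C.near (i + 1) h g).mono fun _ hy => C.lam_congr (h' g) hy

theorem lim [CompleteSpace W] {X : Type} [TopologicalSpace X] (a : ℤ) (x : ℕ → X → W)
    (hc : ∀ r, Continuous (x r)) (hs : ∀ (r : ℕ) g, x (r + 1) g - x r g ∈ C.T (a + r)) :
    ∃ y : X → W, Continuous y ∧ ∀ (r : ℕ) g, y g - x r g ∈ C.T (a + r) := by
  have sm : ∀ ε : ℝ, 0 < ε → ∃ n : ℕ, ∀ r ≥ n, ∀ u ∈ C.T (a + (r : ℕ)), ‖u‖ < ε := fun ε h => by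
    obtain ⟨j, hj⟩ := C.small h
    exact ⟨(j - a).toNat, fun r hr u hu => hj u (C.anti (by omega) hu)⟩
  have h1 : ∀ (r : ℕ) g, ∀ m ≥ r, x m g - x r g ∈ C.T (a + r) := by
    intro r g m hm
    induction m, hm using Nat.le_induction with
    | base => simp
    | succ m hm ih =>
      simpa using add_mem (C.anti (by omega : a + (r : ℤ) ≤ a + m) (hs m g)) ih
  have h2 : ∀ g, ∃ l, Tendsto (fun r => x r g) atTop (𝓝 l) := fun g => by
    refine cauchySeq_tendsto_of_complete (Metric.cauchySeq_iff'.2 fun ε hε => ?_)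
    obtain ⟨n, hn⟩ := sm ε hε
    exact ⟨n, fun m hm => by rw [dist_eq_norm]; exact hn n le_rfl _ (h1 n g m hm)⟩
  choose y hy using h2
  have h3 : ∀ (r : ℕ) g, y g - x r g ∈ C.T (a + r) := fun r g =>
    (C.isClosed _).mem_of_tendsto ((hy g).sub_const (x r g))
      (eventually_atTop.2 ⟨r, fun m hm => h1 r g m hm⟩)
  refine ⟨y, TendstoUniformly.continuous (p := atTop) (F := x) ?_
    (Eventually.of_forall hc).frequently, h3⟩
  refine Metric.tendstoUniformly_iff.2 fun ε hε => ?_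
  obtain ⟨n, hn⟩ := sm ε hε
  exact eventually_atTop.2 ⟨n, fun m hm g => by rw [dist_eq_norm]; exact hn m hm _ (h3 m g)⟩

/-- Passage to the limit along a sequence of approximations. -/
theorem lim_of [CompleteSpace W] {X : Type} [TopologicalSpace X] (Q : ℤ → (X → W) → Prop)
    (a M : ℤ) (hc : ∀ j x, Q j x → Continuous x)
    (h : ∀ j, a ≤ j → ∀ x, Q j x → ∃ x', Q (j + 1) x' ∧ ∀ g, x' g - x g ∈ C.T (j - M))
    {x : X → W} (hx : Q a x) : ∃ y : X → W, Continuous y ∧ (∀ g, y g - x g ∈ C.T (a - M)) ∧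
      ∀ j, ∃ j' x', j ≤ j' ∧ Q j' x' ∧ ∀ g, y g - x' g ∈ C.T j := by
  choose! F hF using h
  let xs : ℕ → X → W := fun r => Nat.rec x (fun r y => F (a + r) y) r
  have h1 : ∀ r : ℕ, Q (a + r) (xs r) := fun r => by
    induction r with
    | zero => rw [Nat.cast_zero, add_zero]; exact hx
    | succ r ih => simpa [add_assoc] using (hF (a + r) (by omega) _ ih).1
  obtain ⟨y, hy, h3⟩ := C.lim (a - M) xs (fun r => hc _ _ (h1 r)) fun r g => by
    have := (hF (a + r) (by omega) _ (h1 r)).2 g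
    rwa [show a + r - M = a - M + r by ring] at this
  refine ⟨y, hy, fun g => by simpa [xs] using h3 0 g, fun j => ?_⟩
  exact ⟨_, _, by omega, h1 ((j - a).toNat + (j - a + M).toNat), fun g => C.anti (by omega) (h3 _ g)⟩

variable {X : Type}

/-- The functions in `Y` with values in `T i`. -/
def Z (Y : Submodule E (X → W)) (i : ℤ) : AddSubgroup (X → W) where
  carrier := {t | t ∈ Y ∧ ∀ g, t g ∈ C.T i}
  add_mem' := fun ha hb => ⟨add_mem ha.1 hb.1, fun g => add_mem (ha.2 g) (hb.2 g)⟩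
  zero_mem' := ⟨zero_mem _, fun _ => zero_mem _⟩
  neg_mem' := fun ha => ⟨neg_mem ha.1, fun g => neg_mem (ha.2 g)⟩

/-- The reduction of `Y`. -/
def Wd (Y : Submodule E (X → W)) : Submodule k (X → A) where
  carrier := {f | ∃ t ∈ C.Z Y 0, f = fun g => C.lam 0 (t g)}
  add_mem' := by
    rintro _ _ ⟨a, ha, rfl⟩ ⟨b, hb, rfl⟩
    exact ⟨a + b, add_mem ha hb, funext fun g => (C.lam_add (ha.2 g) (hb.2 g)).symm⟩
  zero_mem' := ⟨0, zero_mem _, funext fun _ => (C.lam_of (zero_mem _)).symm⟩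
  smul_mem' := by
    rintro a _ ⟨t, ht, rfl⟩
    exact ⟨c.sc a • t, ⟨Y.smul_mem _ ht.1, fun g => C.smul (c.sc_le a) (ht.2 g)⟩,
      funext fun g => (C.lam_sc a (ht.2 g)).symm⟩

/-- The functions in `Y` are bounded. -/
def Bd (Y : Submodule E (X → W)) : Prop := ∀ t ∈ Y, ∃ i, ∀ g, t g ∈ C.T i

variable {Y Y' : Submodule E (X → W)}

theorem Z_anti {i j : ℤ} (h : i ≤ j) : C.Z Y j ≤ C.Z Y i :=
  fun _ ht => ⟨ht.1, fun g => C.anti h (ht.2 g)⟩

theorem mem_W (i : ℤ) {f : X → A} : f ∈ C.Wd Y ↔ ∃ t ∈ C.Z Y i, f = fun g => C.lam i (t g) := by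
  have e : ∀ i j : ℤ, (∃ t ∈ C.Z Y i, f = fun g => C.lam i (t g)) →
      ∃ t ∈ C.Z Y j, f = fun g => C.lam j (t g) := fun i j ⟨t, ht, e⟩ => by
    obtain ⟨m, rfl⟩ : ∃ m, j = i + m := ⟨j - i, by ring⟩
    exact ⟨c.π ^ m • t, ⟨Y.smul_mem _ ht.1, fun g => (C.per_zpow m i _).2 (ht.2 g)⟩,
      e.trans (funext fun g => (C.lam_zpow m i _).symm)⟩
  exact ⟨e 0 i, e i 0⟩

theorem W_of {i : ℤ} {t : X → W} (h : t ∈ Y) (h' : ∀ g, t g ∈ C.T i) :
    (fun g => C.lam i (t g)) ∈ C.Wd Y := (C.mem_W i).2 ⟨t, ⟨h, h'⟩, rfl⟩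

theorem Z_per (i : ℤ) : (C.Z Y i).map (sml c.π) = C.Z Y (i + 1) := by
  ext t
  constructor
  · rintro ⟨s, hs, rfl⟩
    exact ⟨Y.smul_mem _ hs.1, fun g => (C.per i _).2 (hs.2 g)⟩
  · intro h
    refine ⟨c.π⁻¹ • t, ⟨Y.smul_mem _ h.1, fun g => (C.per i _).1 ?_⟩, smul_inv_smul₀ c.ne t⟩
    rw [Pi.smul_apply, smul_inv_smul₀ c.ne]
    exact h.2 g

theorem W_mono (h : Y ≤ Y') : C.Wd Y ≤ C.Wd Y' := fun _ ⟨t, ht, e⟩ => ⟨t, ⟨h ht.1, ht.2⟩, e⟩

theorem ix_W : (C.Z Y (0 + 1)).relIndex (C.Z Y 0) = Nat.card (C.Wd Y) :=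
  ix (C.Z Y (0 + 1)) (C.Z Y 0) (fun t g => C.lam 0 (t g))
    (fun _ ha _ hb => funext fun g => C.lam_add (ha.2 g) (hb.2 g)) fun _ ha =>
    ⟨fun h => funext fun g => C.lam_of (h.2 g),
      fun h => ⟨ha.1, fun g => (C.lam_zero (ha.2 g)).1 (congrFun h g)⟩⟩

variable [CompleteSpace E] [FiniteDimensional E W]

theorem isLat [FiniteDimensional E Y] (hb : C.Bd Y) (i : ℤ) : IsLat Y (C.Z Y i) where
  le := fun _ h => h.1
  exh := fun y hy => by
    obtain ⟨j, hj⟩ := hb y hy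
    refine ⟨‖c.π ^ (i - j).natAbs‖, norm_pos_iff.2 (pow_ne_zero _ c.ne), fun a ha =>
      ⟨Y.smul_mem _ hy, fun g => ?_⟩⟩
    have p := pow_ne_zero (i - j).natAbs c.ne
    rw [Pi.smul_apply, ← div_mul_cancel₀ a p, mul_smul]
    exact C.smul (by rwa [norm_div, div_le_one (norm_pos_iff.2 p)])
      (C.anti (by omega) ((C.per_pow _ j _).2 (hj g)))
  bdd := fun K => by
    let L : X × Dual E W → Dual E Y := fun p => p.2 ∘ₗ LinearMap.proj p.1 ∘ₗ Y.subtype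
    have hK : K ∈ Submodule.span E (Set.range L) :=
      FiniteDimensional.mem_span_of_iInf_ker_le_ker fun y hy => by
        rw [Submodule.mem_iInf] at hy
        have : y = 0 := Subtype.ext (funext fun g =>
          (forall_dual_apply_eq_zero_iff E _).1 fun φ => hy (g, φ))
        simp [this]
    induction hK using Submodule.span_induction with
    | mem _ h =>
      obtain ⟨p, rfl⟩ := h
      obtain ⟨B, hB⟩ := C.bdd' i
      refine ⟨‖LinearMap.toContinuousLinearMap p.2‖ * B, fun y hy => ?_⟩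
      exact ((LinearMap.toContinuousLinearMap p.2).le_opNorm (y.1 p.1)).trans
        (mul_le_mul_of_nonneg_left (hB _ (hy.2 _)) (norm_nonneg _))
    | zero => exact ⟨0, by simp⟩
    | add _ _ _ _ h h' =>
      obtain ⟨B, hB⟩ := h
      obtain ⟨B', hB'⟩ := h'
      exact ⟨B + B', fun y hy => (norm_add_le _ _).trans (add_le_add (hB y hy) (hB' y hy))⟩
    | smul a _ _ h =>
      obtain ⟨B, hB⟩ := h
      exact ⟨‖a‖ * B, fun y hy => by
        rw [LinearMap.smul_apply, norm_smul]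
        exact mul_le_mul_of_nonneg_left (hB y hy) (norm_nonneg _)⟩

theorem cls [FiniteDimensional E Y] (hb : C.Bd Y) {x : X → W} (hx : ∃ i, ∀ g, x g ∈ C.T i)
    (h : ∀ j, ∃ t ∈ Y, ∀ g, x g - t g ∈ C.T j) : x ∈ Y := by
  by_contra hn
  have hb' : C.Bd (Y ⊔ E ∙ x) := fun t ht => by
    obtain ⟨y, hy, z, hz, rfl⟩ := Submodule.mem_sup.1 ht
    obtain ⟨a, rfl⟩ := Submodule.mem_span_singleton.1 hz
    obtain ⟨i, hi⟩ := hb y hy
    obtain ⟨j, hj⟩ := hx
    obtain ⟨B, hB⟩ := C.bdd' j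
    obtain ⟨l, hl⟩ := C.exh_bd (‖a‖ * B)
    exact ⟨min i l, fun g => add_mem (C.anti (min_le_left _ _) (hi g)) (C.anti (min_le_right _ _)
      (hl _ (by
        rw [Pi.smul_apply, norm_smul]
        exact mul_le_mul_of_nonneg_left (hB _ (hj g)) (norm_nonneg _))))⟩
  obtain ⟨K, hK, hK'⟩ := Y.exists_dual_map_eq_bot_of_notMem hn inferInstance
  obtain ⟨B, hB⟩ := (C.isLat hb' 0).bdd (K ∘ₗ (Y ⊔ E ∙ x).subtype)
  obtain ⟨m, hm⟩ := c.small (norm_pos_iff.2 hK) B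
  obtain ⟨t, ht, h1⟩ := h (0 + m)
  have p := pow_ne_zero m c.ne
  have h2 : (c.π ^ m)⁻¹ • (x - t) ∈ Y ⊔ E ∙ x := Submodule.smul_mem _ _ (sub_mem
    (Submodule.mem_sup_right (Submodule.mem_span_singleton_self x)) (Submodule.mem_sup_left ht))
  have h3 := hB ⟨_, h2⟩ ⟨h2, fun g => (C.per_pow m 0 _).1 (by
    rw [Subtype.coe_mk, Pi.smul_apply, smul_inv_smul₀ p]; exact h1 g)⟩
  have h4 : K t = 0 := (Submodule.mem_bot E).1 (hK' ▸ Submodule.mem_map_of_mem ht)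
  rw [LinearMap.comp_apply, Submodule.subtype_apply, map_smul, map_sub, h4, sub_zero, norm_smul,
    norm_inv, inv_mul_le_iff₀ (norm_pos_iff.2 p), norm_pow] at h3
  exact (h3.trans_lt hm).false

variable [IsUltrametricDist E] [Finite k]

theorem dim_W [FiniteDimensional E Y] (hb : C.Bd Y) :
    FiniteDimensional k (C.Wd Y) ∧ finrank k (C.Wd Y) = finrank E Y := by
  have h2 := (C.isLat hb 0).index c (by rw [C.Z_per]; exact C.Z_anti (by omega))
  rw [C.Z_per, C.ix_W] at h2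
  have := Nat.finite_of_card_ne_zero (h2.trans_ne (pow_ne_zero _ Nat.card_pos.ne'))
  refine ⟨inferInstance, ?_⟩
  rw [Module.natCard_eq_pow_finrank (K := k)] at h2
  exact Nat.pow_right_injective (Finite.one_lt_card (α := k)) h2

theorem fd (hb : C.Bd Y) (H : Submodule k (X → A)) [FiniteDimensional k H] (h : C.Wd Y ≤ H) :
    FiniteDimensional E Y := by
  refine Module.rank_lt_aleph0_iff.1 ((rank_le (n := finrank k H) fun s hs => ?_).trans_lt
    Cardinal.natCast_lt_aleph0)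
  have h1 := hs.map' Y.subtype Y.ker_subtype
  have h2 : Submodule.span E (Set.range (Y.subtype ∘ fun i : s => (i : Y))) ≤ Y :=
    Submodule.span_le.2 (by rintro _ ⟨i, rfl⟩; exact i.1.2)
  have := FiniteDimensional.span_of_finite E (Set.finite_range (Y.subtype ∘ fun i : s => (i : Y)))
  have h3 := finrank_span_eq_card h1
  rw [← (C.dim_W fun t ht => hb t (h2 ht)).2, Fintype.card_coe] at h3
  rw [← h3]
  exact Submodule.finrank_mono ((C.W_mono h2).trans h)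

/-- The reduction of a subspace. -/
theorem sub_rd (K : Submodule E W) : ∃ K' : Submodule k A, FiniteDimensional k K' ∧
    finrank k K' = finrank E K ∧ (∀ i a, a ∈ K' ↔ ∃ x ∈ K, x ∈ C.T i ∧ C.lam i x = a) := by
  let Y := K.comap (LinearEquiv.funUnique Unit E W).toLinearMap
  obtain ⟨a, b⟩ := C.dim_W (Y := Y) fun t _ => (C.exh (t ())).imp fun _ h _ => h
  refine ⟨(C.Wd Y).map (LinearEquiv.funUnique Unit k A).toLinearMap, inferInstance,
    ((LinearEquiv.finrank_map_eq _ _).trans b).trans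
      (LinearEquiv.ofSubmodule' (LinearEquiv.funUnique Unit E W) K).finrank_eq, fun i a => ⟨?_, ?_⟩⟩
  · rintro ⟨f, hf, rfl⟩
    obtain ⟨t, ht, rfl⟩ := (C.mem_W i).1 hf
    exact ⟨t (), ht.1, ht.2 (), rfl⟩
  · rintro ⟨x, h1, h2, rfl⟩
    exact ⟨_, C.W_of (t := fun _ => x) h1 fun _ => h2, rfl⟩

include C in
theorem dim_A : FiniteDimensional k A ∧ finrank k A = finrank E W := by
  obtain ⟨K, a, b, d⟩ := C.sub_rd ⊤
  obtain rfl : K = ⊤ := eq_top_iff.2 fun x _ => (d 0 x).2 ((C.ex 0 x).imp fun _ h => ⟨trivial, h⟩)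
  rw [finrank_top, finrank_top] at b
  exact ⟨Module.Finite.equiv Submodule.topEquiv, b⟩

end Lt

end Pool.Agent.BC
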