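import Pool.Agent.Lib.MP_b4b3cb_nt.BC.PV
import Pool.Agent.Lib.MP_b4b3cb_nt.BC.Sel

/-! The global duality passes to extensions. -/

set_option linter.unusedSectionVars false

namespace Pool.Agent.BC

open scoped Classical
open Module Pool.Agent.SP

variable {k : Type} [Field k] [Finite k] [CharP k 2] [Algebra (ZMod 2) k]
  {G : Type} [Group G] [TopologicalSpace G] [IsTopologicalGroup G] [CompactSpace G]
  {A A' A₁ A₁' A₂ A₂' : Type} [AddCommGroup A] [Module k A] [AddCommGroup A'] [Module k A']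
  [AddCommGroup A₁] [Module k A₁] [AddCommGroup A₁'] [Module k A₁']
  [AddCommGroup A₂] [Module k A₂] [AddCommGroup A₂'] [Module k A₂']
  {P : Type} {D I : P → Subgroup G} {S₂ S : Finset P}
  {β : A' →ₗ[k] A →ₗ[k] k} {R : FR k G A} {R' : FR k G A'}
  {γ : A₁' →ₗ[k] A₁ →ₗ[k] k} {R₁ : FR k G A₁} {R₁' : FR k G A₁'}
  {δ : A₂' →ₗ[k] A₂ →ₗ[k] k} {R₂ : FR k G A₂} {R₂' : FR k G A₂'}
  {Y : ∀ v, Submodule k (D v → A)} {ξ : G → G → A} {f : ∀ v, D v → A}
  {i : A₁ →ₗ[k] A} {p : A →ₗ[k] A₂}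

variable (D I S₂) in
/-- The global duality for one pair of dual modules. -/
def PTs (β : A' →ₗ[k] A →ₗ[k] k) (R' : FR k G A') (R : FR k G A) : Prop :=
  ∀ (Y : ∀ v, Submodule k (D v → A)) (S : Finset P), S₂ ⊆ S → Cd I R Y S →
    ∀ (ξ : G → G → A) (f : ∀ v, D v → A), Dat I R ξ f →
    (∀ y ∈ R'.Sel fun v => ann β (R'.res (D v)) (R.res (D v)) (Y v), PV β R ξ f y 0) →
    ∃ φ, IsLocallyConstant φ ∧ (∀ g h, ξ g h = R.d2 φ g h) ∧
      ∀ v, ((fun g : D v => φ g) - f v) ∈ Y v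

namespace PTe

theorem triv (c : Cd I R Y S) {v : P} (hv : v ∉ S) {j : D v} (hj : j ∈ (I v).subgroupOf (D v)) :
    (R.res (D v)).ac j = 1 := LinearMap.ext fun u =>
  sub_eq_zero.1 ((c.un v hv ▸ c.b1 v ⟨u, rfl⟩ :).2 j hj)

theorem cd_ann [FiniteDimensional k A] (h : G0 k D I S₂) (hP : Pf R' R β) (hS : S₂ ⊆ S)
    (c : Cd I R Y S) : Cd I R' (fun v => ann β (R'.res (D v)) (R.res (D v)) (Y v)) S :=
  ⟨fun v => b1_le_ann (hP.res _) (c.z1 v), fun _ => ann_le, fun v hv => by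
    obtain ⟨σ, m⟩ := h.mi v fun q => hv (hS q)
    rw [c.un v hv, m.ann (hP.res _), sup_eq_left]
    rintro _ ⟨u, rfl⟩
    exact ⟨FR.d1_mem _ u, fun j hj => by
      rw [FR.d1_apply, (hP.res _).triv (triv c hv hj)]; exact sub_self u⟩⟩

theorem cd_map (h : G0 k D I S₂) (hS : S₂ ⊆ S) (c : Cd I R Y S) (hp : Eqv R R₂ p)
    (sj : Function.Surjective p) : Cd I R₂ (fun v => (Y v).map (p.compLeft _)) S :=
  ⟨fun v => (hp.res _).b1_map sj (c.b1 v), fun v => (hp.res _).map_z1 (c.z1 v), fun v hv => by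
    obtain ⟨σ, m⟩ := h.mi v fun q => hv (hS q)
    have u : ∀ x ∈ (R.res (D v)).Un ((I v).subgroupOf (D v)),
        (fun g => p (x g)) ∈ (R₂.res (D v)).Un ((I v).subgroupOf (D v)) := fun x hx =>
      ⟨(hp.res _).z1 hx.1, fun j hj => (congrArg p (hx.2 j hj)).trans (map_zero p)⟩
    rw [c.un v hv]
    refine le_antisymm (fun _ ⟨x, hx, q⟩ => q ▸ u x hx) fun x hx => ?_
    obtain ⟨a, ha⟩ := sj (x σ)
    obtain ⟨φ, a1, a2, a3, a4⟩ := m.u0 (R.res (D v)) 0 a ⟨IsLocallyConstant.const _, by simp⟩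
      (fun _ _ _ _ => ⟨rfl, rfl⟩) (fun _ _ _ _ => map_zero _) fun j hj => by
        rw [triv c hv hj]; rfl
    have z : φ ∈ (R.res (D v)).Z1 := ⟨a1, fun g l => (a4 g l).symm⟩
    have z' : φ ∈ (R.res (D v)).Un _ := ⟨z, (FR.inf_iff z).1 a2⟩
    exact ⟨φ, z', sub_eq_zero.1 (m.ext (sub_mem (u φ z') hx) 
      (sub_eq_zero.2 ((congrArg p a3).trans ha)))⟩⟩

theorem cd_comap (c : Cd I R Y S) (hi : Eqv R₁ R i) (inj : Function.Injective i) :
    Cd I R₁ (fun v => (R₁.res (D v)).Z1 ⊓ (Y v).comap (i.compLeft _)) S :=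
  ⟨fun v => (hi.res _).b1_comap (c.b1 v), fun _ => inf_le_left, fun v hv => by
    rw [c.un v hv]
    exact le_antisymm (fun x hx => ⟨hx.1, fun j hj => inj ((hx.2.2 j hj).trans (map_zero i).symm)⟩)
      fun x hx => ⟨hx.1, (hi.res _).z1 hx.1, fun j hj =>
        (congrArg i (hx.2 j hj)).trans (map_zero i)⟩⟩

variable (I) in
/-- A datum of the submodule that is derived from a datum of the module. -/
structure Lf (R₁ : FR k G A₁) (R : FR k G A) (Y : ∀ v, Submodule k (D v → A)) (ξ : G → G → A)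
    (f : ∀ v, D v → A) (i : A₁ →ₗ[k] A)
    (ξ₁ : G → G → A₁) (f₁ : ∀ v, D v → A₁) (φ : G → A) (t : ∀ v, D v → A) : Prop where
  d : Dat I R₁ ξ₁ f₁
  lc : IsLocallyConstant φ
  mem : ∀ v, t v ∈ Y v
  e1 : ∀ g l, i (ξ₁ g l) = ξ g l + R.d2 φ g l
  e2 : ∀ v g, i (f₁ v g) = f v g + t v g + φ g

theorem lift (h : G0 k D I S₂) (c : Cd I R Y S) (hi : Eqv R₁ R i) (hp : Eqv R R₂ p)
    (inj : Function.Injective i) (sj : Function.Surjective p)
    (ex : LinearMap.ker p = LinearMap.range i) (d : Dat I R ξ f) {ψ : G → A₂}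
    (l : IsLocallyConstant ψ) (a1 : ∀ g h, p (ξ g h) = R₂.d2 ψ g h)
    (a2 : ∀ v, ((fun g : D v => ψ g) - fun g => p (f v g)) ∈ (Y v).map (p.compLeft _)) :
    ∃ ξ₁ f₁ φ t, Lf I R₁ R Y ξ f i ξ₁ f₁ φ t ∧ ∀ g, p (φ g) = ψ g := by
  choose s hs using sj
  choose t t1 t2 using a2
  have r : ∀ a, p a = 0 → ∃ b, i b = a := fun a q => ex.le q
  choose ξ₁ e1 using fun g l => r (ξ g l + R.d2 (fun g => s (ψ g)) g l) (by
    rw [map_add, a1, ← hp.d2]
    simp only [hs]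
    exact add_self (k := k) _)
  choose f₁ e2 using fun v (g : D v) => r (f v g + t v g + s (ψ g)) (by
    have : p (t v g) = ψ g - p (f v g) := congrFun (t2 v) g
    rw [map_add, map_add, this, hs, add_sub_cancel]
    exact add_self (k := k) _)
  refine ⟨ξ₁, f₁, _, t, ⟨Dat.of_map hi inj ?_, lc_one s l, t1, e1, e2⟩, fun g => hs _⟩
  simp only [e1, e2]
  have := (d.add (c.dat t1)).add (h.dat_cob (R := R) (lc_one s l))
  rw [add_zero] at this
  exact this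

variable {ξ₁ : G → G → A₁} {f₁ : ∀ v, D v → A₁} {φ : G → A} {t : ∀ v, D v → A}

theorem Lf.sol (L : Lf I R₁ R Y ξ f i ξ₁ f₁ φ t) (hi : Eqv R₁ R i) {ψ : G → A₁}
    (a1 : ∀ g h, ξ₁ g h = R₁.d2 ψ g h)
    (a2 : ∀ v, ((fun g : D v => ψ g) - f₁ v) ∈ (R₁.res (D v)).Z1 ⊓ (Y v).comap (i.compLeft _)) :
    (∀ g h, ξ g h = R.d2 (φ + fun g => i (ψ g)) g h) ∧
      ∀ v, ((fun g : D v => (φ + fun g => i (ψ g)) g) - f v) ∈ Y v := by
  refine ⟨fun g h => ?_, fun v => ?_⟩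
  · rw [R.d2_add, hi.d2, ← a1, L.e1, add_left_comm, add_self (k := k), add_zero]
  · convert add_mem (Submodule.mem_comap.1 (a2 v).2) (L.mem v) using 1
    ext g
    change φ g + i (ψ g) - f v g = i (ψ g - f₁ v g) + t v g
    rw [map_sub, L.e2, show i (ψ g) - (f v g + t v g + φ g) + t v g = -φ g + i (ψ g) - f v g by
      abel, neg_eq k]

theorem Lf.add (L : Lf I R₁ R Y ξ f i ξ₁ f₁ φ t) {ξ₂ : G → G → A₁} {f₂ : ∀ v, D v → A₁}
    {φ' : G → A} {t' : ∀ v, D v → A} (L' : Lf I R₁ R Y 0 0 i ξ₂ f₂ φ' t') :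
    Lf I R₁ R Y ξ f i (ξ₁ + ξ₂) (f₁ + f₂) (φ + φ') (t + t') :=
  ⟨L.d.add L'.d, L.lc.add L'.lc, fun v => add_mem (L.mem v) (L'.mem v), fun g l => by
    simp only [Pi.add_apply, map_add, L.e1, L'.e1, R.d2_add, Pi.zero_apply]; abel, fun v g => by
    simp only [Pi.add_apply, map_add, L.e2, L'.e2, Pi.zero_apply]; abel⟩

theorem lift0 (h : G0 k D I S₂) (c : Cd I R Y S) (hi : Eqv R₁ R i) (hp : Eqv R R₂ p)
    (inj : Function.Injective i) (sj : Function.Surjective p)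
    (ex : LinearMap.ker p = LinearMap.range i) {x : G → A₂}
    (hx : x ∈ R₂.Sel fun v => (Y v).map (p.compLeft _)) :
    ∃ ξ₁ f₁ φ t, Lf I R₁ R Y 0 0 i ξ₁ f₁ φ t ∧ ∀ g, p (φ g) = x g :=
  lift h c hi hp inj sj ex (c.dat fun _ => zero_mem _) hx.1.1
    (fun g l => (map_zero p).trans (hx.1.2 g l).symm) fun v => by
      convert hx.2 v using 1
      ext g
      simp

end PTe

open PTe

/-- The extension step. -/
theorem PTs.ext [FiniteDimensional k A] [FiniteDimensional k A₁] [FiniteDimensional k A₂]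
    (h : G0 k D I S₂) (hP : Pf R' R β) (hP₁ : Pf R₁' R₁ γ) (hP₂ : Pf R₂' R₂ δ)
    {i' : A' →ₗ[k] A₁'} {p' : A₂' →ₗ[k] A'}
    (hi : Eqv R₁ R i) (hp : Eqv R R₂ p) (hi' : Eqv R' R₁' i') (hp' : Eqv R₂' R' p')
    (inj : Function.Injective i) (sj : Function.Surjective p)
    (ex : LinearMap.ker p = LinearMap.range i)
    (inj' : Function.Injective p') (sj' : Function.Surjective i')
    (ex' : LinearMap.ker i' = LinearMap.range p')
    (ei : ∀ u v, γ (i' u) v = β u (i v)) (ep : ∀ u v, β (p' u) v = δ u (p v))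
    (fin : ∀ S, FiniteDimensional k (R₂.UnS I S))
    (q₁ : PTs D I S₂ γ R₁' R₁) (q₂ : PTs D I S₂ δ R₂' R₂) (q₃ : PTs D I S₂ δ.flip R₂ R₂') :
    PTs D I S₂ β R' R := by
  intro Y S hS c ξ f d hy
  have c2 := cd_map h hS c hp sj
  have c1 := cd_comap c hi inj
  have c' := cd_ann h hP hS c
  have pi : ∀ a, p (i a) = 0 := fun a => ex.ge ⟨a, rfl⟩
  have ip : ∀ a, i' (p' a) = 0 := fun a => ex'.ge ⟨a, rfl⟩
  have m2 := fun v => ann_map (Y := Y v) (hp.res (D v)) (hp'.res (D v)) ep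
  have m1 : ∀ v, ann γ (R₁'.res (D v)) (R₁.res (D v))
      ((R₁.res (D v)).Z1 ⊓ (Y v).comap (i.compLeft _)) =
      (ann β (R'.res (D v)) (R.res (D v)) (Y v)).map (i'.compLeft _) := fun v => by
    rw [ann_comap (h.two v) (h.ld v) (hP₁.res _) (hP.res _) (hi.res _) (hi'.res _) ei (c.b1 v)
      (c.z1 v), sup_eq_left.2 ((hi'.res _).b1_map sj' (c'.b1 v))]
  obtain ⟨ψ, l, a1, a2⟩ := q₂ _ S hS c2 _ _ (d.map hp) fun y q => (PV.adj hp ep).1
    (hy _ ⟨hp'.z1 q.1, fun v => ((m2 v).le (q.2 v)).2⟩)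
  obtain ⟨ξ₁, f₁, φ, t, L, -⟩ := lift h c hi hp inj sj ex d l a1 a2
  obtain ⟨w, hw⟩ := PV.lin h hP₁ L.d
  let U := R₂.Sel fun v => (Y v).map (p.compLeft _)
  let W := R₁'.Sel fun v => (ann β (R'.res (D v)) (R.res (D v)) (Y v)).map (i'.compLeft _)
  have : FiniteDimensional k U :=
    have := fin S
    Submodule.finiteDimensional_of_le (c2.sel_le h.le)
  choose xξ xf xφ xt xL xe using fun x : U => lift0 h c hi hp inj sj ex x.2
  choose yξ yf yφ yt yL ye using fun y : W => lift0 h c' hp' hi' inj' sj' ex' y.2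
  choose u hu using fun x : U => PV.lin h hP₁ (xL x).d
  choose u' hu' using fun y : W => PV.lin h hP₂.flip (yL y).d
  have sy : ∀ (x : U) (y : W), u x ⟨y, y.2.1⟩ = u' y ⟨x, x.2.1⟩ := fun x y => by
    have e1 : (fun g => p (xφ x g)) = x := funext (xe x)
    have e2 : (fun g => i' (yφ y g)) = y := funext (ye y)
    refine PV.uniq h hP₂.flip x.2.1 (yL y).d ?_ (hu' y ⟨x, x.2.1⟩)
    rw [← e1]
    refine PV.symm h hP hP₁ hP₂ hi hp hp' pi ei ep (xL x).lc (e1 ▸ x.2.1) (yL y).lc (e2 ▸ y.2.1)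
      (xL x).d (yL y).d.z2 (fun v => c.z1 v ((xL x).mem v)) (t' := yt y)
      (fun v => sz_flip (hP.res _) ((yL y).mem v).1 (c.z1 v ((xL x).mem v))
        (((yL y).mem v).2 _ ((xL x).mem v))) (fun g l => ((xL x).e1 g l).trans (zero_add _))
      (fun v g => ((xL x).e2 v g).trans (by simp)) (fun g l => ((yL y).e1 g l).trans (zero_add _))
      (fun v g => ((yL y).e2 v g).trans (by simp)) ?_
    rw [e2]
    exact hu x ⟨y, y.2.1⟩
  have lU : U ≤ R₂.Z1 := fun _ q => q.1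
  have lW : W ≤ R₁'.Z1 := fun _ q => q.1
  let b : W →ₗ[k] U →ₗ[k] k := LinearMap.mk₂ k (fun y x => u x ⟨y, y.2.1⟩)
    (fun a b x => (u x ∘ₗ Submodule.inclusion lW).map_add a b)
    (fun a b x => (u x ∘ₗ Submodule.inclusion lW).map_smul a b)
    (fun y a b => by
      simp only [sy]
      exact (u' y ∘ₗ Submodule.inclusion lU).map_add a b)
    fun a y b => by
      simp only [sy]
      exact (u' y ∘ₗ Submodule.inclusion lU).map_smul a b
  obtain ⟨x, hx⟩ := bidual b (w ∘ₗ Submodule.inclusion lW) fun y q => by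
    have := hP₂.bij.1
    obtain ⟨χ, l, b1, b2⟩ := q₃ _ S hS (cd_comap c' hp' inj') _ _ (yL y).d fun x hx => by
      have hx' : x ∈ U := ⟨hx.1, fun v => by
        have := hx.2 v
        simp only [← m2 v, ann_ann (h.two v) (h.ld v) (hP₂.res _) (c2.b1 v) (c2.z1 v)] at this
        exact this⟩
      have := hu' y ⟨x, hx.1⟩
      rwa [← sy ⟨x, hx'⟩ y, show u ⟨x, hx'⟩ _ = 0 from q ⟨x, hx'⟩] at this
    obtain ⟨s1, s2⟩ := (yL y).sol hp' b1 b2
    have m : (yφ y + fun g => p' (χ g)) ∈ R'.Sel fun v =>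
        ann β (R'.res (D v)) (R.res (D v)) (Y v) :=
      ⟨⟨(yL y).lc.add (lc_one p' l), fun g l => (s1 g l).symm⟩, fun v => by
        simpa only [Pi.zero_apply, sub_zero] using s2 v⟩
    have := (PV.adj (β := γ) (γ := β) hi ei).2
      (((hy _ m).chg0 h hP c m d L.mem).cob hP m.1 L.lc L.e1 L.e2)
    rw [show (fun g => i' ((yφ y + fun g => p' (χ g)) g)) = y from funext fun g => by
      rw [Pi.add_apply, map_add, ip, add_zero, ye]] at this
    exact (hw ⟨y, y.2.1⟩).uniq h hP₁ y.2.1 L.d this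
  have L' := L.add (xL x)
  obtain ⟨χ, l, b1, b2⟩ := q₁ _ S hS c1 _ _ L'.d fun y q => by
    have m : y ∈ W := ⟨q.1, fun v => (m1 v).le (q.2 v)⟩
    have := (hw ⟨y, q.1⟩).add h hP₁ q.1 L.d (xL x).d (hu x ⟨y, q.1⟩)
    rwa [show w ⟨y, q.1⟩ = u x ⟨y, q.1⟩ from hx ⟨y, m⟩, CharTwo.add_self_eq_zero] at this
  exact ⟨_, L'.lc.add (lc_one i l), L'.sol hi b1 b2⟩

end Pool.Agent.BC
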