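import Pool.Agent.Lib.MP_b4b3cb_nt.BC.LocN

/-! Tame quotients of a local group, and two invariants of a cocycle of the induced module. -/

namespace Pool.Agent.BC

open Module Polynomial Pool.Agent.SP

variable {k : Type} [Field k] {G : Type} [Group G] [TopologicalSpace G]
  {V : Type} [AddCommGroup V] [Module k V]

/-- Modulo `K` the group `I` is generated by `τ`, and `σ τ σ⁻¹ = τ ^ q`. -/
structure TQ (I : Subgroup G) (σ τ : G) (q : ℕ) (K : Subgroup G) : Prop where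
  nor : K.Normal
  op : IsOpen (K : Set G)
  gen : ∀ i ∈ I, ∃ m : ℕ, (τ ^ m)⁻¹ * i ∈ K
  rel : (σ * τ * σ⁻¹)⁻¹ * τ ^ q ∈ K

/-- The formula for the invariant of a two-cocycle that comes from a tame quotient. -/
def IT [Finite k] [Algebra (ZMod 2) k] (I : Subgroup G) (σ τ : G) (q : ℕ) (β : G → k) : Prop :=
  ∀ K, TQ I σ τ q K → ∀ ε : G → G → k, Cz ε →
    (∀ g h, ∀ i ∈ K, β i = 0 → ε (g * i) h = ε g h ∧ ε g (h * i) = ε g h) →
    invK ε = ε σ τ + ε (τ ^ q) σ + ∑ j ∈ Finset.range (q - 1), ε (τ ^ (j + 1)) τ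

namespace RD

variable (X : RD k G V)

/-- The first invariant. -/
def Am (τ : G) : (G → V × V) →ₗ[k] V :=
  (LinearMap.snd k V V + (X.r.ac τ - 1) ∘ₗ LinearMap.fst k V V) ∘ₗ LinearMap.proj τ

theorem Am_apply (τ : G) (t : G → V × V) :
    X.Am τ t = (t τ).2 + (X.r.ac τ (t τ).1 - (t τ).1) := rfl

/-- The second invariant. -/
noncomputable def Fm (σ τ : G) (v : k[X]) : (G → V × V) →ₗ[k] V :=
  aeval (X.r.ac τ ^ 2) (1 + (Polynomial.X - 1) * v) ∘ₗ
    (LinearMap.fst k V V + LinearMap.snd k V V) ∘ₗ LinearMap.proj σ +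
    aeval (X.r.ac τ ^ 2) v ∘ₗ X.Am τ

theorem Fm_apply (σ τ : G) (v : k[X]) (t : G → V × V) : X.Fm σ τ v t =
    aeval (X.r.ac τ ^ 2) (1 + (Polynomial.X - 1) * v) ((t σ).1 + (t σ).2) +
      aeval (X.r.ac τ ^ 2) v (X.Am τ t) := rfl

end RD

end Pool.Agent.BC
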