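import Pool.Agent.Lib.MP_b4b3cb_nt.BC.Dick
import Pool.Agent.Lib.MP_b4b3cb_nt.BC.Ann

/-! The Dickson invariant of the twisted Frobenius at a tamely ramified place. -/

set_option linter.unusedSectionVars false

namespace Pool.Agent.BC

open scoped Classical
open Module Polynomial Pool.Agent.SP

variable {k : Type} [Field k] [CharP k 2] [Finite k] {V : Type} [AddCommGroup V] [Module k V]
  [FiniteDimensional k V]

theorem adjP (a : V →ₗ[k] V →ₗ[k] k) {t t' : End k V} (h : ∀ x y, a x (t y) = a (t' x) y)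
    (u : k[X]) (x y : V) : a x (aeval t u y) = a (aeval t' u x) y := by
  induction u using Polynomial.induction_on' with
  | add p q hp hq => simp only [map_add, LinearMap.add_apply, hp, hq]
  | monomial j b =>
    simp only [aeval_monomial, End.mul_apply, algebraMap_end_apply, map_smul, LinearMap.smul_apply]
    refine congrArg _ ?_
    induction j generalizing x with
    | zero => rfl
    | succ j ih => rw [pow_succ', End.mul_apply, h, ih, pow_succ, End.mul_apply]

theorem comP {s t : End k V} (h : Commute s t) (u : k[X]) : Commute s (aeval t u) := by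
  rw [aeval_eq_sum_range]
  exact Commute.sum_right _ _ _ fun j _ => (h.pow_right j).smul_right _

theorem geomInj {τ φ : End k V} (hφ : Function.Injective φ) {r : ℕ}
    (rel : φ * τ = τ ^ (2 * r + 1) * φ) :
    Function.Injective (∑ i ∈ Finset.range (2 * r + 1), τ ^ i : End k V) := by
  have sj := LinearMap.injective_iff_surjective.1 hφ
  have pw : ∀ x, τ x = x → ∀ i, (τ ^ i) x = x := fun x h i => by
    rw [End.pow_apply, Function.iterate_fixed h]
  have key : ∀ x, (τ ^ (2 * r + 1)) x = x → x ∈ (LinearMap.ker (τ - 1)).map φ := fun x h => by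
    obtain ⟨y, rfl⟩ := sj x
    exact ⟨y, sub_eq_zero.2 (hφ ((LinearMap.congr_fun rel y).trans h)), rfl⟩
  have e := Submodule.eq_of_le_of_finrank_le (fun x h => key x (pw x (sub_eq_zero.1 h) _))
    (Submodule.finrank_map_le φ (LinearMap.ker (τ - 1)))
  refine (injective_iff_map_eq_zero _).2 fun x h => ?_
  have h1 := LinearMap.congr_fun (mul_geom_sum τ (2 * r + 1)) x
  rw [End.mul_apply, h, map_zero] at h1
  have h2 := pw x (sub_eq_zero.1 (e.ge (key x (sub_eq_zero.1 h1.symm))))
  simp only [LinearMap.sum_apply, h2, Finset.sum_const, Finset.card_range] at h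
  rw [← Nat.cast_smul_eq_nsmul k] at h
  simpa [CharTwo.two_eq_zero] using h

theorem cRange {a N : V →ₗ[k] V →ₗ[k] k} (sy : ∀ u v, a u v = a v u)
    (nd : ∀ u, (∀ v, a u v = 0) → u = 0) {g : End k V} (s : ∀ u v, a (g u) (g v) = a u v)
    (sj : Function.Surjective g) {c : V} (q : ∀ v, N (g v) (g v) = N v v + a c (g v) ^ 2) :
    ∃ u, c = g u - u := by
  obtain ⟨u, hu⟩ := bidual (a.flip ∘ₗ (1 - g)) (a c ∘ₗ g) fun v h => by
    have e : v - g v = 0 := nd _ fun x => (sy _ _).trans (h x)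
    have := q v
    rw [← sub_eq_zero.1 e] at this
    simpa [← sub_eq_zero.1 e] using this
  refine ⟨u, sub_eq_zero.1 (nd _ fun w => ?_)⟩
  obtain ⟨v, rfl⟩ := sj w
  have a1 : a c (g v) = a u (v - g v) := hu v
  simp only [map_sub, LinearMap.sub_apply, s] at a1 ⊢
  rw [a1, sub_self]

theorem dickR {a N : V →ₗ[k] V →ₗ[k] k} (hN : ∀ u v, N u v + N v u = a u v)
    (nd : ∀ u, (∀ v, a u v = 0) → u = 0) {τ τ' φ : End k V} (tt : τ * τ' = 1)
    (s1 : ∀ u v, a (τ u) (τ v) = a u v) (s3 : ∀ u v, a (φ u) (φ v) = a u v)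
    (q1 : ∀ v, N (τ v) (τ v) = N v v) {c : V}
    (q3 : ∀ v, N (φ v) (φ v) = N v v + a c (φ v) ^ 2) (hc : τ c = c) {r : ℕ}
    (rel : φ * τ = τ ^ (2 * r + 1) * φ) {w : k[X]}
    (hw : aeval τ w * aeval τ' w * τ ^ r = ∑ i ∈ Finset.range (2 * r + 1), τ ^ i) {u : V}
    (hu : c = φ u - u) :
    Function.Injective (∑ i ∈ Finset.range (2 * r + 1), τ ^ i : End k V) ∧ ∃ ψ : End k V,
      (∑ i ∈ Finset.range (2 * r + 1), τ ^ i) * ψ = aeval τ w ^ 2 * φ ∧
      (∀ x y, a (ψ x) (ψ y) = a x y) ∧ (∀ v, N (ψ v) (ψ v) = N v v + a c (ψ v) ^ 2) ∧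
      (∀ v, a c (ψ v) = a c (φ v)) ∧ ∃ u', c = ψ u' - u' ∧
        (finrank k (LinearMap.range (ψ - 1)) : k) + a u' (ψ u') =
          finrank k (LinearMap.range (φ - 1)) + a u (φ u) +
            r * finrank k (LinearMap.range (τ - 1)) := by
  have sy : ∀ u v, a u v = a v u := fun u v => by rw [← hN, ← hN, add_comm]
  have sj : ∀ g : End k V, (∀ u v, a (g u) (g v) = a u v) → Function.Surjective g := fun g s =>
    LinearMap.injective_iff_surjective.1 ((injective_iff_map_eq_zero g).2 fun x h =>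
      nd x fun y => by rw [← s, h, LinearMap.map_zero₂])
  have inj := geomInj (LinearMap.injective_iff_surjective.2 (sj φ s3)) rel
  have t1 : ∀ x, τ (τ' x) = x := LinearMap.congr_fun tt
  have t2 : τ' * τ = 1 := mul_eq_one_comm.1 tt
  have c1 : Commute τ τ' := tt.trans t2.symm
  have p1 : ∀ x y, a x (τ y) = a (τ' x) y := fun x y => by rw [← s1 (τ' x), t1]
  have p2 : ∀ x y, a x (τ' y) = a (τ x) y := fun x y => by rw [← s1 x, t1]
  have s2 : ∀ x y, a (τ' x) (τ' y) = a x y := fun x y => by rw [← s1, t1, t1]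
  have q2 : ∀ v, N (τ' v) (τ' v) = N v v := fun v => by rw [← q1, t1]
  have hc' : τ' c = c := by rw [← hc]; exact (LinearMap.congr_fun t2 c).trans hc.symm
  have c2 : ∀ p q, Commute (aeval τ' p) (aeval τ q) := fun p q => comP (comP c1 p).symm q
  have pw : ∀ g : End k V, (∀ v, N (g v) (g v) = N v v) → ∀ j v,
      N ((g ^ j) v) ((g ^ j) v) = N v v := fun g h j => by
    induction j with
    | zero => exact fun _ => rfl
    | succ j ih => exact fun v => by rw [pow_succ, End.mul_apply, ih, h]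
  have qw : ∀ (p : k[X]) v, N (aeval τ p v) (aeval τ p v) = N (aeval τ' p v) (aeval τ' p v) :=
    fun p v => by
    induction p using Polynomial.induction_on' with
    | add p q hp hq =>
      have e1 := hN (aeval τ p v) (aeval τ q v)
      have e2 := hN (aeval τ' p v) (aeval τ' q v)
      rw [sy, adjP a p1, ← End.mul_apply (aeval τ' p), (c2 p q).eq, End.mul_apply,
        ← adjP a p2, ← e2] at e1
      simp only [map_add, LinearMap.add_apply, hp, hq]
      linear_combination e1
    | monomial j b =>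
      simp only [aeval_monomial, End.mul_apply, algebraMap_end_apply, map_smul,
        LinearMap.smul_apply, pw τ q1, pw τ' q2]
  have cw : aeval τ w c = aeval τ' w c := by
    rw [End.aeval_apply_of_mem_apply_eq_smul (hc.trans (one_smul k c).symm),
      End.aeval_apply_of_mem_apply_eq_smul (hc'.trans (one_smul k c).symm)]
  obtain ⟨Y, hY⟩ := (LinearMap.isUnit_iff_ker_eq_bot (aeval τ' w)).2 (LinearMap.ker_eq_bot'.2
    fun x h => (injective_iff_map_eq_zero _).1 inj x (by
      rw [← hw, mul_assoc, ((comP c1 w).pow_left r).symm.eq, End.mul_apply, End.mul_apply, h,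
        map_zero, map_zero])) |>.exists_right_inv
  have y1 : ∀ x, aeval τ' w (Y x) = x := LinearMap.congr_fun hY
  obtain ⟨o, ho⟩ : ∃ o, o = aeval τ w * Y := ⟨_, rfl⟩
  have so : ∀ x y, a (o x) (o y) = a x y := fun x y => by
    rw [ho, End.mul_apply, End.mul_apply, adjP a p1, ← End.mul_apply (aeval τ' w), (c2 w w).eq,
      End.mul_apply, y1, ← adjP a p2, y1]
  have qo : ∀ v, N (o v) (o v) = N v v := fun v => by rw [ho, End.mul_apply, qw, y1]
  have co : ∀ v, a c (o v) = a c v := fun v => by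
    rw [ho, End.mul_apply, adjP a p1, ← cw, ← adjP a p2, y1]
  have ro : (finrank k (LinearMap.range (o - 1)) : k) = 0 := by
    have e : ∀ x y, a x ((aeval τ w - aeval τ' w) y) = -a ((aeval τ w - aeval τ' w) x) y :=
      fun x y => by
      simp only [LinearMap.sub_apply, map_sub, adjP a p1 w, adjP a p2 w, neg_sub]
    obtain ⟨m, h⟩ := alt_aux (a.compl₂ (aeval τ w - aeval τ' w)) (fun v => by
      change a v (aeval τ w v - aeval τ' w v) = 0
      rw [map_sub, adjP a p2, sy, sub_self]) (LinearMap.ker (aeval τ w - aeval τ' w)) _ ⊤ rfl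
      le_top fun x _ => ⟨fun p y _ => by
        rw [LinearMap.compl₂_apply, e, LinearMap.mem_ker.1 p, LinearMap.map_zero₂, neg_zero],
        fun p => nd _ fun y => neg_eq_zero.1 ((e x y).symm.trans (p y trivial))⟩
    have a2 := (aeval τ w - aeval τ' w).finrank_range_add_finrank_ker
    rw [finrank_top] at h
    rw [ho, ← hY, ← sub_mul, End.mul_eq_comp, LinearMap.range_comp_of_range_eq_top _
      (LinearMap.range_eq_top.2 (LinearMap.injective_iff_surjective.1
        (Function.LeftInverse.injective y1)))]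
    exact (CharP.cast_eq_zero_iff k 2 _).2 ⟨finrank k V - m, by omega⟩
  obtain ⟨cc, Dk, d1, d2, d3⟩ := dickson a N hN nd
  have un : ∀ g : End k V, (∀ u v, a (g u) (g v) = a u v) → ∀ z,
      (∀ v, N (g v) (g v) = N v v + a z (g v) ^ 2) → cc g = z := fun g s z h =>
    sub_eq_zero.1 (nd _ fun x => by
      obtain ⟨v, rfl⟩ := sj g s x
      have a1 := d1 g s v
      rw [h] at a1
      rw [map_sub, LinearMap.sub_apply]
      refine (pow_eq_zero_iff two_ne_zero).1 ?_
      grind)
  have u0 : ∀ g : End k V, (∀ u v, a (g u) (g v) = a u v) → (∀ v, N (g v) (g v) = N v v) →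
      cc g = 0 := fun g s h => un g s 0 fun v => by simp [h]
  have D0 : ∀ g : End k V, (∀ u v, a (g u) (g v) = a u v) → (∀ v, N (g v) (g v) = N v v) →
      Dk g = finrank k (LinearMap.range (g - 1)) := fun g s h => by
    simpa using d3 g 0 s (by simp [u0 g s h])
  have D1 : Dk 1 = 0 := by
    rw [D0 1 (fun _ _ => rfl) fun _ => rfl, sub_self, LinearMap.range_zero, finrank_bot,
      Nat.cast_zero]
  have Dt : Dk τ' = finrank k (LinearMap.range (τ - 1)) := by
    have := d2 τ τ' s1 s2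
    rw [tt, D1, u0 τ s1 q1, D0 τ s1 q1] at this
    simp only [LinearMap.map_zero₂] at this
    grind
  have pr : ∀ j : ℕ, (∀ x y, a ((τ' ^ j) x) ((τ' ^ j) y) = a x y) ∧
      (∀ v, a c ((τ' ^ j) v) = a c v) ∧ Dk (τ' ^ j) = j * Dk τ' := fun j => by
    induction j with
    | zero => exact ⟨fun _ _ => rfl, fun _ => rfl, by simp [D1]⟩
    | succ j ih =>
      refine ⟨fun x y => by rw [pow_succ', End.mul_apply, End.mul_apply, s2, ih.1],
        fun v => by rw [pow_succ', End.mul_apply, p2, hc, ih.2.1], ?_⟩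
      rw [pow_succ', d2 _ _ s2 ih.1, u0 τ' s2 q2, ih.2.2]
      simp [add_mul, add_comm]
  obtain ⟨r1, r2, r3⟩ := pr r
  have sψ : ∀ x y, a ((τ' ^ r * (o * φ)) x) ((τ' ^ r * (o * φ)) y) = a x y := fun x y => by
    simp only [End.mul_apply, r1, so, s3]
  have cψ : ∀ v, a c ((τ' ^ r * (o * φ)) v) = a c (φ v) := fun v => by
    simp only [End.mul_apply, r2, co]
  have qψ : ∀ v, N ((τ' ^ r * (o * φ)) v) ((τ' ^ r * (o * φ)) v) =
      N v v + a c ((τ' ^ r * (o * φ)) v) ^ 2 := fun v => by
    rw [cψ]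
    simp only [End.mul_apply, pw τ' q2, qo, q3]
  obtain ⟨u', hu'⟩ := cRange sy nd sψ (sj _ sψ) qψ
  refine ⟨inj, τ' ^ r * (o * φ), ?_, sψ, qψ, cψ, u', hu', ?_⟩
  · rw [← hw, ho, mul_assoc, ← mul_assoc (τ ^ r), ← c1.mul_pow, tt, one_pow, one_mul, mul_assoc,
      ← mul_assoc (aeval τ' w), ← mul_assoc (aeval τ' w), (c2 w w).eq, mul_assoc _ _ Y, hY,
      mul_one, pow_two, mul_assoc]
  · have e1 := d3 _ u' sψ ((un _ sψ c qψ).trans hu')
    have e2 := d3 _ u s3 ((un _ s3 c q3).trans hu)
    rw [d2 _ _ r1 fun x y => by simp only [End.mul_apply, so, s3], d2 _ _ so s3,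
      u0 _ r1 (pw τ' q2 r), u0 o so qo, r3, Dt, D0 o so qo, ro] at e1
    simp only [LinearMap.map_zero₂] at e1
    rw [← e1, ← e2]
    grind

end Pool.Agent.BC
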