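import Pool.Agent.Lib.MP_b4b3cb_nt.BC.EInA
import Pool.Agent.Lib.MP_b4b3cb_nt.Eps.Upo

/-! A form of Wall type on a lattice, and a square root of the geometric sum with its reduction. -/

set_option linter.unusedSectionVars false

namespace Pool.Agent.BC

open scoped Classical
open Module Polynomial Pool.Agent.SP

variable {E k : Type} [NontriviallyNormedField E] [Field k] {c : CF E k}
  {V : Type} [NormedAddCommGroup V] [NormedSpace E V] {A : Type} [AddCommGroup A] [Module k A]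
  {C : Lt c V A} [IsUltrametricDist E] [CompleteSpace E] [Finite k] [FiniteDimensional E V]
  {P : V →ₗ[E] V →ₗ[E] E} {b : A →ₗ[k] A →ₗ[k] k}

theorem Lt.dual_tw (hP : Pb C C P b) (nr : ∀ v, (∀ u, b u v = 0) → v = 0) {φ ν : End E V}
    (h1 : ∀ x y, ν x = 0 → P (φ x) (ν y) = 0) (h4 : ∀ x, ν x = 0 → φ x = 0 → x = 0) {y : V}
    (hy : ∀ x, ν x ∈ C.T 0 → ‖P y (ν x)‖ ≤ 1) : ∃ z, ν z = 0 ∧ y - φ z ∈ C.T 0 := by
  have := C.dim_A.1
  obtain ⟨K, -, k1, k2⟩ := C.sub_rd ((LinearMap.ker ν).map φ)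
  obtain ⟨R, -, r1, r2⟩ := C.sub_rd (LinearMap.range ν)
  rw [← LinearMap.range_domRestrict, LinearMap.finrank_range_of_inj
    ((injective_iff_map_eq_zero _).2 fun x hx => Subtype.ext (h4 x x.2 hx))] at k1
  have e : K = LinearMap.ker (b.compl₂ R.subtype) := by
    refine Submodule.eq_of_le_of_finrank_eq (fun a ha => LinearMap.ext fun g => ?_) ?_
    · obtain ⟨_, ⟨x, x1, rfl⟩, x2, rfl⟩ := (k2 0 a).1 ha
      obtain ⟨_, ⟨u, rfl⟩, u2, u3⟩ := (r2 (-1) g).1 g.2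
      have := hP.lam (by omega) x2 u2
      rw [h1 x u x1, mul_zero, u3] at this
      exact this.uniq c.rd_zero'
    · have a1 := rank_ker (b.compl₂ R.subtype)
      have a2 : LinearMap.ker (b.compl₂ R.subtype).flip = ⊥ :=
        eq_bot_iff.2 fun g hg => Subtype.ext (nr _ fun u => LinearMap.congr_fun hg u)
      have a3 := ν.finrank_range_add_finrank_ker
      have a4 := C.dim_A.2
      rw [a2, finrank_bot] at a1
      omega
  obtain ⟨j, hj⟩ := C.exh y
  have : ∀ l, j ≤ l → l ≤ 0 → ∃ z, ν z = 0 ∧ y - φ z ∈ C.T l := fun l hl => by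
    induction l, hl using Int.leInduction with
    | base => exact fun _ => ⟨0, map_zero _, by simpa using hj⟩
    | succ l _ ih =>
      intro hl
      obtain ⟨z, z1, z2⟩ := ih (by omega)
      have : C.lam l (y - φ z) ∈ K := by
        rw [e]
        refine LinearMap.ext fun g => ?_
        obtain ⟨_, ⟨u, rfl⟩, u2, u3⟩ := (r2 (-l - 1) g).1 g.2
        have := hP.lam (by omega) z2 u2
        rw [map_sub, LinearMap.sub_apply, h1 z u z1, sub_zero, u3] at this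
        exact this.uniq (c.rd_pi (hy u (C.anti (by omega) u2)))
      obtain ⟨_, ⟨x, x1, rfl⟩, x2, x3⟩ := (k2 l _).1 this
      refine ⟨z + x, by rw [map_add, z1, show ν x = 0 from x1, add_zero], ?_⟩
      rw [map_add, ← sub_sub]
      exact C.sub_mem_of z2 x2 x3.symm
  rcases le_total j 0 with h | h
  · exact this _ h le_rfl
  · exact ⟨0, map_zero _, by simpa using C.anti h hj⟩

theorem Lt.wall [CharZero E] (hP : Pb C C P b) (nr : ∀ v, (∀ u, b u v = 0) → v = 0)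
    (φ ν : End E V) (h1 : ∀ x y, ν x = 0 → P (φ x) (ν y) = 0)
    (h2 : ∀ x, P (ν x) (ν x) = P (φ x) (ν x)) (h4 : ∀ x, ν x = 0 → φ x = 0 → x = 0)
    (h5 : C.T 0 ≤ C.Pre ν 0 ⊓ C.Pre φ 0) (K : Submodule k A)
    (hK : ∀ a, a ∈ K ↔ ∃ x ∈ C.Pre ν 0 ⊓ C.Pre φ 0, a = C.lam 0 (ν x)) :
    Even (finrank E (LinearMap.range ν) + finrank k K) := by
  have hM := C.ix_pre ν _ inf_le_left K hK
  set N := (LinearMap.ker ν).toAddSubgroup
  set M := C.Pre ν 0 ⊓ C.Pre φ 0
  set ω := (P.compl₁₂ (ν - φ) ν).flip with hω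
  have alt : ∀ x, ω x x = 0 := by simp [hω, h2]
  have kl : ∀ i, N ≤ C.Pre ν i := fun i x hx => by
    rw [Lt.mem_Pre, show ν x = 0 from hx]
    exact zero_mem _
  have le : M ⊔ N ≤ C.Pre ν 0 := sup_le inf_le_left (kl 0)
  have sm : ∀ a : E, ‖a‖ ≤ 1 → ∀ x ∈ C.Pre ν 0, a • x ∈ C.Pre ν 0 := fun a ha x hx => by
    rw [Lt.mem_Pre, map_smul]
    exact C.smul ha hx
  have rad : ∀ y ∈ C.Pre ν 0, y ∈ M ⊔ N ↔ ∀ x ∈ C.Pre ν 0, ‖ω x y‖ ≤ 1 := fun y hy => by
    have e1 : ∀ x ∈ C.Pre ν 0, ‖ω x y‖ ≤ 1 ↔ ‖P (φ y) (ν x)‖ ≤ 1 := fun x hx => by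
      have a := neg_mem (mem_O1.2 (hP.le (u := ν y) (v := ν x) hy hx (by omega)))
      rw [← mem_O1, ← mem_O1, ← neg_mem_iff (x := P _ _), ← (O1 E).add_mem_cancel_left a,
        show -P (ν y) (ν x) + ω x y = -P (φ y) (ν x) by simp [hω]; ring]
    refine ⟨fun a x hx => (e1 x hx).2 ?_, fun a => ?_⟩
    · obtain ⟨u, hu, z, hz, rfl⟩ := AddSubgroup.mem_sup.1 a
      rw [map_add, map_add, LinearMap.add_apply, h1 z x hz, add_zero]
      exact hP.le hu.2 hx (by omega)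
    · obtain ⟨z, z1, z2⟩ := Lt.dual_tw hP nr h1 h4 fun x hx => (e1 x hx).1 (a x hx)
      exact AddSubgroup.mem_sup.2 ⟨y - z, ⟨C.mem_Pre.2 (by rwa [map_sub, z1, sub_zero]),
        C.mem_Pre.2 (by rwa [map_sub])⟩, z, z1, sub_add_cancel _ _⟩
  have n0 : (M ⊔ N).relIndex (C.Pre ν 0) ≠ 0 := fun h0 => by
    obtain ⟨g', hg⟩ := ν.rangeRestrict.exists_rightInverse_of_surjective ν.range_rangeRestrict
    obtain ⟨g, rfl⟩ := g'.exists_extend
    obtain ⟨B, hB⟩ := C.bdd' 0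
    obtain ⟨j, hj⟩ := C.exh_bd (‖LinearMap.toContinuousLinearMap g‖ * B)
    have a1 : C.Pre ν 0 ≤ C.T (-(-j).toNat) ⊔ N := fun x hx =>
      AddSubgroup.mem_sup.2 ⟨g (ν x), C.anti (by omega) (hj _
        (((LinearMap.toContinuousLinearMap g).le_opNorm _).trans
        (mul_le_mul_of_nonneg_left (hB _ hx) (norm_nonneg _)))), x - g (ν x), by
        change ν _ = 0
        rw [map_sub, sub_eq_zero]
        exact (congrArg Subtype.val (LinearMap.congr_fun hg ⟨_, x, rfl⟩)).symm, by simp⟩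
    have a2 := C.ix_ne (-(-j).toNat) (-j).toNat
    rw [neg_add_cancel, ix_split N (C.anti (by omega)), AddSubgroup.relIndex_eq_zero_of_le_left
      (sup_le_sup_right h5 N) (AddSubgroup.relIndex_eq_zero_of_le_right a1 h0), mul_zero] at a2
    exact a2 rfl
  obtain ⟨a, ha⟩ := altix c _ alt _ _ _ sm le rad rfl n0
  have l1 : M ⊔ N ≤ C.Pre ν 0 ⊓ (M ⊔ N).comap (sml c.π) := fun y hy => ⟨le hy,
    (rad _ (sm _ c.lt.le y (le hy))).2 fun x hx => by
      rw [map_smul, norm_smul]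
      exact mul_le_one₀ c.lt.le (norm_nonneg _) ((rad y (le hy)).1 hy x hx)⟩
  obtain ⟨a', ha'⟩ := altix c (c.π • ω) (by simp [alt])
    (C.Pre ν 0 ⊓ (M ⊔ N).comap (sml c.π)) _ _ sm inf_le_left (fun y hy =>
      ⟨fun h x hx => by
        have := (rad _ (sm _ c.lt.le y hy)).1 h.2 x hx
        rwa [map_smul] at this,
      fun h => ⟨hy, (rad _ (sm _ c.lt.le y hy)).2 fun x hx => by
        rw [map_smul]; exact h x hx⟩⟩) rfl
    fun h => n0 (AddSubgroup.relIndex_eq_zero_of_le_left l1 h)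
  have e1 : (C.Pre ν 0 ⊓ (M ⊔ N).comap (sml c.π)).relIndex (C.Pre ν 0) =
      (M ⊔ N).relIndex (C.Pre ν 1) :=
    ix_tr (sml c.π) (fun y => ⟨fun hy => ⟨c.π⁻¹ • y, by
      rw [Lt.mem_Pre, map_smul, ← C.per, smul_inv_smul₀ c.ne]; exact hy, smul_inv_smul₀ c.ne y⟩,
      fun ⟨x, hx, h⟩ => by
        rw [← h, Lt.mem_Pre, sml_apply, map_smul]; exact (C.per 0 _).2 hx⟩)
      fun x hx => ⟨fun h => h.2, fun h => ⟨hx, h⟩⟩
  have e2 : M ⊔ C.Pre ν 1 = C.Pre ν 1 ⊔ (M ⊔ N) := by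
    rw [sup_left_comm, sup_eq_left.2 (kl 1)]
  have l2 : M ⊔ C.Pre ν 1 ≤ C.Pre ν 0 := sup_le inf_le_left fun x hx => C.succ 0 hx
  have e3 := AddSubgroup.relIndex_mul_relIndex (M ⊔ N) _ _ (e2 ▸ le_sup_right) l2
  have e4 := AddSubgroup.relIndex_mul_relIndex (C.Pre ν 1) _ _ le_sup_right l2
  rw [AddSubgroup.relIndex_sup_right, hM, C.ix_rank] at e4
  rw [ha, e2, AddSubgroup.relIndex_sup_right, ← e2, ← e1, ha'] at e3
  have e5 := congrArg (Nat.card k ^ (2 * a') * ·) e4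
  simp only [mul_left_comm _ (Nat.card k ^ finrank k K), e3, ← pow_add] at e5
  have := Nat.pow_right_injective (Finite.one_lt_card (α := k)) e5
  exact ⟨finrank k K + a - a', by omega⟩

theorem Lt.rd_poly {T : End E V} {T' : End k A} {i : ℤ}
    (h : ∀ x ∈ C.T i, T x ∈ C.T i ∧ C.lam i (T x) = T' (C.lam i x)) {p : E[X]} {p' : k[X]}
    (hp : ∀ j, c.Rd (p.coeff j) (p'.coeff j)) {x : V} (hx : x ∈ C.T i) :
    aeval T p x ∈ C.T i ∧ C.lam i (aeval T p x) = aeval T' p' (C.lam i x) := by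
  have pw : ∀ j : ℕ, (T ^ j) x ∈ C.T i ∧ C.lam i ((T ^ j) x) = (T' ^ j) (C.lam i x) := fun j => by
    induction j with
    | zero => exact ⟨hx, rfl⟩
    | succ j ih =>
      rw [pow_succ', pow_succ', End.mul_apply, End.mul_apply, ← ih.2]
      exact h _ ih.1
  rw [aeval_eq_sum_range' (n := p.natDegree + p'.natDegree + 1) (by omega),
    aeval_eq_sum_range' (n := p.natDegree + p'.natDegree + 1) (by omega)]
  induction p.natDegree + p'.natDegree + 1 with
  | zero => exact ⟨zero_mem _, C.lam_of (zero_mem _)⟩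
  | succ n ih =>
    have m := C.smul (hp n).1 (pw n).1
    simp only [Finset.sum_range_succ, LinearMap.add_apply, LinearMap.smul_apply]
    exact ⟨add_mem ih.1 m, by rw [C.lam_add ih.1 m, ih.2, C.lam_smul (hp n).1 (pw n).1, (hp n).2,
      (pw n).2]⟩

omit [CompleteSpace E] in
theorem exU0 [CharP k 2] (c : CF E k) {p f : ℕ} (hp : Odd p) (h1 : ‖(p : E)‖ = 1) {ξ : E}
    (h : IsPrimitiveRoot ξ p) {g : E} (hg : g * g = (-1) ^ (p ^ f / 2) * (p ^ f : ℕ)) :
    ∃ (u v : E[X]) (v' w : k[X]), u = 1 + (X - 1) * v ∧ (∀ i, c.Rd (v.coeff i) (v'.coeff i)) ∧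
      w ^ 2 = expand k 2 (1 + (X - 1) * v') ∧ u.eval (-1) * g = 1 ∧
      (∀ y : E, y ≠ 0 → (p ^ f : ℕ) * (u.eval y * u.eval y⁻¹ * y ^ (p ^ f / 2)) =
        ∑ i ∈ Finset.range (p ^ f), y ^ i) ∧
      (∀ {G R : Type} [Group G] [Ring R] [Algebra E R] (ρ : G →* R) (t : G),
        p ^ f • (aeval (ρ t) u * aeval (ρ t⁻¹) u * ρ t ^ (p ^ f / 2)) =
          ∑ i ∈ Finset.range (p ^ f), ρ t ^ i) ∧
      ∀ {G R : Type} [Group G] [Ring R] [Algebra k R] (ρ : G →* R) (t : G),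
        aeval (ρ t) w * aeval (ρ t⁻¹) w * ρ t ^ (p ^ f / 2) =
          ∑ i ∈ Finset.range (p ^ f), ρ t ^ i := by
  let O := (NormedField.valuation (K := E)).integer
  have m : ∀ x, x ∈ O ↔ ‖x‖ ≤ 1 := fun x => Iff.rfl
  have p0 : (p : E) ≠ 0 := norm_ne_zero_iff.1 (h1 ▸ one_ne_zero)
  obtain ⟨u, hu⟩ := EP.exU1 (O := O) hp (ξ := ⟨ξ, (m _).2 (pow_eq_one_iff_of_nonneg (norm_nonneg _)
    hp.pos.ne' |>.1 (by rw [← norm_pow, h.pow_eq_one, norm_one])).le⟩)
    (h.of_map_of_injective O.subtype_injective) (isUnit_iff_exists_inv.2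
      ⟨⟨(p : E)⁻¹, (m _).2 (by simp [h1])⟩, Subtype.ext (mul_inv_cancel₀ p0)⟩)
  obtain ⟨v, hv⟩ := EP.exU2 hp hu f
  have ev : ∀ (w : O[X]) (y : E), (w.map (algebraMap O E)).eval y = aeval y w := fun w y =>
    eval_map_algebraMap w y
  have : ∃ w : O[X], EP.TU (p ^ f) w ∧ aeval (-1 : E) w * g = 1 := by
    have := hv.2 E (-1) (-1) (by simp)
    rw [neg_one_geom_sum, if_neg (Nat.not_even_iff_odd.2 hp.pow)] at this
    rcases mul_self_eq_one_iff.1 (show (aeval (-1 : E) v * g) * (aeval (-1 : E) v * g) = 1 by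
      rw [mul_mul_mul_comm, hg]; linear_combination this) with e | e
    exacts [⟨v, hv, e⟩, ⟨_, hv.x, by simp [e]⟩]
  obtain ⟨w, hw, e⟩ := this
  obtain ⟨z, hz⟩ : X - Polynomial.C 1 ∣ w - 1 := dvd_iff_isRoot.2 (by simp [hw.1])
  replace hz : w = 1 + (X - 1) * z := by rw [← C_1, ← hz, C_1, add_sub_cancel]
  let r : O →+* k :=
    { toFun := fun x => c.rd x
      map_one' := c.rd_one
      map_mul' := fun x y => c.rd_mul _ _ x.2 y.2
      map_zero' := c.rd_zero'.2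
      map_add' := fun x y => c.rd_add _ _ x.2 y.2 }
  let _ := r.toAlgebra
  obtain ⟨s, sq⟩ : ∃ s : k[X], s ^ 2 = expand k 2 (w.map r) :=
    ⟨(w.map r).map (frobeniusEquiv k 2).symm, by
      rw [← map_frobenius_expand, map_expand, Polynomial.map_map,
        frobenius_comp_frobeniusEquiv_symm, Polynomial.map_id]⟩
  refine ⟨w.map (algebraMap O E), z.map (algebraMap O E), z.map r, s, by simp [hz], fun i => by
    rw [coeff_map, coeff_map]; exact ⟨(z.coeff i).2, rfl⟩, sq.trans (by simp [hz]), by rw [ev, e],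
    fun y hy => by rw [ev, ev, hw.2 E y _ (mul_inv_cancel₀ hy)], fun {G R} _ _ _ ρ t => ?_,
    fun {G R} _ _ _ ρ t => ?_⟩
  · let φ := MonoidAlgebra.lift E R (Multiplicative ℤ) (ρ.comp (zpowersHom G t))
    have := congrArg φ (hw.2 (MonoidAlgebra E (Multiplicative ℤ))
      (MonoidAlgebra.of _ _ (.ofAdd 1)) (MonoidAlgebra.of _ _ (.ofAdd (-1)))
      (by rw [← map_mul, ← ofAdd_add, add_neg_cancel, ofAdd_zero, map_one]))
    simp only [← aeval_map_algebraMap E _ w, map_mul, map_sum, map_pow, ← aeval_algHom_apply,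
      map_natCast, φ, MonoidAlgebra.lift_of] at this
    simpa using this
  · let φ := MonoidAlgebra.lift k R (Multiplicative ℤ) (ρ.comp (zpowersHom G t))
    have key : ∀ y y' : MonoidAlgebra k (Multiplicative ℤ), y * y' = 1 →
        aeval y s * aeval y' s * y ^ (p ^ f / 2) = ∑ i ∈ Finset.range (p ^ f), y ^ i := by
      intro y y' hy
      have := charP_of_injective_algebraMap
        (algebraMap k (MonoidAlgebra k (Multiplicative ℤ))).injective 2
      have a := hw.2 _ (y ^ 2) (y' ^ 2) (by rw [← mul_pow, hy, one_pow])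
      have d : ∀ x : MonoidAlgebra k (Multiplicative ℤ), aeval (x ^ 2) w = aeval x s ^ 2 :=
        fun x => by rw [← map_pow, sq, expand_aeval]; exact (aeval_map_algebraMap k _ w).symm
      rw [d, d, CharTwo.natCast_eq_ite, if_neg (Nat.not_even_iff_odd.2 hp.pow), one_mul,
        pow_right_comm, ← mul_pow, ← mul_pow,
        Finset.sum_congr rfl fun i _ => pow_right_comm y 2 i, ← sum_pow_char] at a
      exact (sq_eq_sq_iff_eq_or_eq_neg.1 a).elim id fun e => e.trans (CharTwo.neg_eq _)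
    have := congrArg φ (key (MonoidAlgebra.of _ _ (.ofAdd 1)) (MonoidAlgebra.of _ _ (.ofAdd (-1)))
      (by rw [← map_mul, ← ofAdd_add, add_neg_cancel, ofAdd_zero, map_one]))
    simp only [map_mul, map_sum, map_pow, ← aeval_algHom_apply, φ, MonoidAlgebra.lift_of] at this
    simpa using this

end Pool.Agent.BC
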