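import Pool.Agent.Lib.MP_b4b3cb_nt.BC.R9R
import Pool.Agent.Lib.MP_b4b3cb_nt.BC.R9W
import Pool.Agent.Lib.MP_b4b3cb_nt.BC.EInB
import Pool.Agent.Lib.MP_b4b3cb_nt.BC.ETame
import Pool.Agent.Lib.MP_b4b3cb_nt.Par.Ram

/-! The local condition at a ramified place, for a tame representation. -/

set_option linter.unusedSectionVars false

namespace Pool.Agent.BC

open scoped Classical
open Module Polynomial Pool.Agent.SP

variable {E k : Type} [NontriviallyNormedField E] [Field k] {Γ G : Type} [Group Γ]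
  [TopologicalSpace Γ] [Group G] [TopologicalSpace G] {J : IG Γ G} {c : CF E k} {χ : G →* E}
  {V : Type} [NormedAddCommGroup V] [NormedSpace E V] {A : Type} [AddCommGroup A] [Module k A]
  (U : VD J c χ V A)

theorem VD.rel9 {τ σ : G} (h2 : τ ∉ J.H) (hσ : σ ∈ J.H) {r : ℕ}
    (rel : U.R.ac σ * U.R.ac τ = U.R.ac τ ^ (2 * r + 1) * U.R.ac σ) :
    (∀ x, U.ρ.ac (J.cj (J.u σ)) (U.ρ.ac (J.cj (J.u τ)) x) =
      U.ρ.ac (J.cj (J.u τ)) ((U.ρ.ac (J.u (τ * τ)) ^ r) (U.ρ.ac (J.u σ) x))) ∧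
    U.ρ.ac (J.u σ) * U.ρ.ac (J.u (τ * τ)) =
      U.ρ.ac (J.u (τ * τ)) ^ (2 * r + 1) * U.ρ.ac (J.u σ) := by
  have ab : ∀ x, U.ρ.ac (J.u τ) (U.ρ.ac (J.cj (J.u τ)) x) = U.ρ.ac (J.u (τ * τ)) x := fun x => by
    rw [J.u_out h2, U.ρ.mul]
  have pw : ∀ (j : ℕ) x y, (U.R.ac τ ^ (2 * j + 1)) (x, y) =
      ((U.ρ.ac (J.u (τ * τ)) ^ j) (U.ρ.ac (J.u τ) y),
        U.ρ.ac (J.cj (J.u τ)) ((U.ρ.ac (J.u (τ * τ)) ^ j) x)) := fun j x y => by
    induction j with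
    | zero => simpa using U.R_out h2 (x, y)
    | succ j ih =>
      rw [show 2 * (j + 1) + 1 = 2 * j + 1 + 1 + 1 by ring, pow_succ', pow_succ', End.mul_apply,
        End.mul_apply, ih, U.R_out h2, U.R_out h2, ab, ab, pow_succ', End.mul_apply, End.mul_apply]
  have r1 := fun x y => LinearMap.congr_fun rel (x, y)
  simp only [End.mul_apply, U.R_out h2, U.R_in hσ, pw, Prod.mk.injEq] at r1
  refine ⟨fun x => (r1 x 0).2, LinearMap.ext fun x => ?_⟩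
  have a1 := (r1 0 (U.ρ.ac (J.cj (J.u τ)) x)).1
  rw [(r1 x 0).2, ab, ab] at a1
  rw [two_mul, add_assoc, pow_add, pow_succ', End.mul_apply, a1]
  rfl

variable [Finite k] [IsUltrametricDist E] [CompleteSpace E] [FiniteDimensional E V]
  [CharP k 2] [CharZero E] [Algebra (ZMod 2) k] [IsTopologicalGroup G] {D : Subgroup G}
  [CompactSpace D] {I : Subgroup D} {σ τ : D}

theorem VD.ram9 (H : Two D) (L : LDm k D) (Λ : LD D c fun g => χ g) (h1 : ∀ g, c.Rd (χ g) 1)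
    (M : MI k I σ) (h0W : ∀ w, (∀ g : D, U.R.ac g w = w) → w = 0) (ev : Even (finrank E V))
    (hτ : τ ∈ I) (h2 : τ.1 ∉ J.H) (hχ : χ τ = 1) (hσ : σ.1 ∈ J.H) {r : ℕ}
    (hq : χ σ = (2 * r + 1 : ℕ)) (it : IT I σ τ (2 * r + 1) (U.X.res D).χ)
    (gen : ∀ g ∈ I, ∀ j, ∃ m : ℕ, (τ ^ m)⁻¹ * g ∈ (U.cpT.res D).lv j)
    (rel : U.R.ac σ * U.R.ac τ = U.R.ac τ ^ (2 * r + 1) * U.R.ac σ) {u v : E[X]} {v' w : k[X]}
    (e : u = 1 + (Polynomial.X - 1) * v) (hv : ∀ i, c.Rd (v.coeff i) (v'.coeff i))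
    (hw1 : w ^ 2 = expand k 2 (1 + (Polynomial.X - 1) * v'))
    (hid : (2 * r + 1) • (aeval (U.ρ.ac (J.u (τ * τ))) u * aeval (U.ρ.ac (J.u (τ * τ))⁻¹) u *
      U.ρ.ac (J.u (τ * τ)) ^ r) = ∑ i ∈ Finset.range (2 * r + 1), U.ρ.ac (J.u (τ * τ)) ^ i)
    (hw2 : aeval (U.X.r.ac τ) w * aeval (U.X.r.ac τ.1⁻¹) w * U.X.r.ac τ ^ r =
      ∑ i ∈ Finset.range (2 * r + 1), U.X.r.ac τ ^ i) :
    U.Loc D (U.R.res D).B1 (2 * finrank E (LinearMap.ker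
      (aeval (U.ρ.ac (J.u (τ * τ))) u * U.ρ.ac (J.u σ) - 1))) := by
  have fA := U.fdA
  have := Module.finite_of_finite k (M := A × A)
  obtain ⟨-, o2, o3⟩ := U.odd H L Λ h1 M h0W
  have cp := U.cpT.res D
  obtain ⟨r1, p4⟩ := U.rel9 h2 hσ rel
  have hh := J.two _ _ h2 h2
  have tt : U.ρ.ac (J.u (τ * τ))⁻¹ * U.ρ.ac (J.u (τ * τ)) = 1 := by
    rw [← map_mul, inv_mul_cancel, map_one]
  have tt' : U.ρ.ac (J.u (τ * τ)) * U.ρ.ac (J.u (τ * τ))⁻¹ = 1 := by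
    rw [← map_mul, mul_inv_cancel, map_one]
  have pT : ∀ (m : ℕ) {j x}, U.ρ.ac (J.u (τ * τ)) x - x ∈ U.Λ.T j →
      (U.ρ.ac (J.u (τ * τ)) ^ m) x - x ∈ U.Λ.T j := fun m j x h => by
    rw [← map_pow]
    exact (U.cp.fx j x).pow_mem h m
  have mT : ∀ (m : ℕ) {j x}, x ∈ U.Λ.T j → (U.ρ.ac (J.u (τ * τ)) ^ m) x ∈ U.Λ.T j :=
    fun m j x h => by
    rw [← map_pow]
    exact U.mem _ h
  have rT : ∀ {j}, ∀ x ∈ U.Λ.T j, U.ρ.ac (J.u (τ * τ)) x ∈ U.Λ.T j ∧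
      U.Λ.lam j (U.ρ.ac (J.u (τ * τ)) x) = (U.X.r.ac τ ^ 2) (U.Λ.lam j x) := fun x h =>
    ⟨U.mem _ h, by rw [U.lam _ h, J.u1 _ hh, map_mul, pow_two]⟩
  have ab : ∀ x, U.ρ.ac (J.u τ) (U.ρ.ac (J.cj (J.u τ)) x) = U.ρ.ac (J.u (τ * τ)) x := fun x => by
    rw [J.u_out h2, U.ρ.mul]
  have RT : ∀ x, (U.R.ac τ (U.R.ac τ x)).1 = U.ρ.ac (J.u (τ * τ)) x.1 := fun x => by
    rw [← U.R.mul, U.R_in hh]
  set S := U.ρ.ac (J.cj (J.u τ)) with hS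
  set T := U.ρ.ac (J.u (τ * τ)) with hT
  set Φ := U.ρ.ac (J.u σ) with hΦ
  let P := U.B.compl₂ S
  have hP : Pb U.Λ U.Λ P (U.X.a.compl₂ (U.X.r.ac τ)) :=
    fun u hu v hv => (U.pb u hu _ (U.cp _ v hv).1).congr rfl (by
      rw [(U.cp _ v hv).2]
      change U.X.a _ (U.X.r.ac J.s (U.X.r.ac (J.ι _) _)) = _
      rw [← FR.mul, J.hcj, J.u2 _ h2, mul_assoc, mul_assoc, J.ss, mul_one, J.s_s]
      rfl)
  have p2 : ∀ x y, P (T y) x = -P x y := fun x y => by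
    rw [← ab]
    exact (U.equi _ _ _).trans (by rw [U.chi_out h2, U.sy, hχ, neg_one_mul]; rfl)
  have p1 : ∀ x y, P x (T y) = P (U.ρ.ac (J.u (τ * τ))⁻¹ x) y := fun x y => by
    have := p2 (T y) (U.ρ.ac (J.u (τ * τ))⁻¹ x)
    rwa [← End.mul_apply, tt', End.one_apply, p2, neg_neg] at this
  have p3 : ∀ x y, P (Φ x) ((T ^ r) (Φ y)) = (2 * r + 1 : ℕ) * P x y := fun x y => by
    rw [← hq, ← J.u1 _ hσ]
    exact (congrArg _ (r1 y).symm).trans (U.equi _ _ _)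
  have iso := iso_tw P tt tt' p1 p3 p4 hid
  have sy : ∀ x y, P ((T - 1) x) y = -P y x - P x y := fun x y => by
    rw [LinearMap.sub_apply, map_sub, LinearMap.sub_apply, p2, End.one_apply]
  have ue : ∀ x, aeval T u x = x + aeval T v (T x - x) := fun x => by
    rw [e, mul_comm, map_add, map_mul, map_sub, aeval_X, map_one]
    rfl
  have pv := fun {j x} => Lt.rd_poly (C := U.Λ) (i := j) rT hv (x := x)
  have fe : ∀ x, (aeval T u * Φ - 1) x = aeval T u (Φ x - x) + aeval T v (T x - x) := fun x => by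
    rw [map_sub (aeval T u), ue x, LinearMap.sub_apply, End.mul_apply, End.one_apply]
    abel
  have pu : ∀ {j x}, x ∈ U.Λ.T j → aeval T u x ∈ U.Λ.T j ∧ U.Λ.lam j (aeval T u x) =
      aeval (U.X.r.ac τ ^ 2) (1 + (Polynomial.X - 1) * v') (U.Λ.lam j x) := fun {j x} h => by
    have a := sub_mem (rT x h).1 h
    rw [ue, U.Λ.lam_add h (pv a).1, (pv a).2, U.Λ.lam_sub (rT x h).1 h, (rT x h).2, mul_comm,
      map_add, map_mul, map_sub (aeval _), aeval_X, map_one]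
    exact ⟨add_mem h (pv a).1, rfl⟩
  have iw : ∀ {j x}, T x - x ∈ U.Λ.T j → ∀ i ∈ I, U.R.ac i (x, S x) - (x, S x) ∈ U.T.T j :=
    fun {j x} h i hi => cp.gen_T (D := I) gen hi (by
      change U.R.ac τ (x, S x) - (x, S x) ∈ U.T.T j
      rw [U.R_out h2, ab]
      exact U.mem_T.2 ⟨h, by rw [Prod.snd_sub, sub_self]; exact zero_mem _⟩)
  have gD : ∀ {j x}, (aeval T u * Φ - 1) x ∈ U.Λ.T j → T x - x ∈ U.Λ.T j →
      ∀ g : D, U.R.ac g (x, S x) - (x, S x) ∈ U.T.T j := fun {j x} h' h g => by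
    have a := (U.mem_T.1 (U.cpT.mem σ (iw h _ (M.nor.conj_mem' _ (mul_mem hτ hτ) σ)))).1
    rw [map_sub, ← U.R.mul, Subgroup.coe_mul, Subgroup.coe_mul, Subgroup.coe_inv, ← mul_assoc,
      mul_inv_cancel_left, U.R.mul, Subgroup.coe_mul, U.R.mul, Prod.fst_sub, RT, U.R_in hσ] at a
    have b : Φ x - x ∈ U.Λ.T j := by
      convert sub_mem h' (pv a).1 using 1
      rw [LinearMap.sub_apply, End.mul_apply, ue, End.one_apply]
      abel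
    refine (M.gen (cp.fx j (x, S x)) (cp.fx_open j _) (fun i hi => iw h i hi) ?_).ge
      (Subgroup.mem_top g)
    change U.R.ac σ (x, S x) - (x, S x) ∈ U.T.T j
    rw [U.R_in hσ, r1]
    refine U.mem_T.2 ⟨b, ?_⟩
    convert U.mem (J.cj (J.u τ)) (add_mem (mT r b) (pT r h)) using 1
    rw [map_sub, sub_add_sub_cancel, map_sub]
    rfl
  have ev1 : ∀ z : V × V, (∀ g : D, U.R.ac g z - z ∈ U.T.T 0) →
      (T z.1 - z.1 ∈ U.Λ.T 0 ∧ (aeval T u * Φ - 1) z.1 ∈ U.Λ.T 0) ∧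
      (U.X.res D).Am τ (fun g => U.T.lam 0 ((U.R.res D).d1 z g)) = U.Λ.lam 0 (T z.1 - z.1) ∧
      (U.X.res D).Fm σ τ v' (fun g => U.T.lam 0 ((U.R.res D).d1 z g)) =
        U.Λ.lam 0 ((aeval T u * Φ - 1) z.1) := fun z hz => by
    have b1 := U.mem_T.1 (hz τ)
    have b2 := (U.mem_T.1 (hz σ)).1
    have b3 := U.mem (J.u τ) b1.2
    have e1 : T z.1 - z.1 = (U.R.ac τ z - z).1 + U.ρ.ac (J.u τ) (U.R.ac τ z - z).2 := by
      rw [U.R_out h2, Prod.fst_sub, Prod.snd_sub, map_sub, ab]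
      abel
    have b4 : T z.1 - z.1 ∈ U.Λ.T 0 := e1 ▸ add_mem b1.1 b3
    have e2 : (U.X.res D).Am τ (fun g => U.T.lam 0 ((U.R.res D).d1 z g)) =
        U.Λ.lam 0 (T z.1 - z.1) := by
      rw [e1, U.Λ.lam_add b1.1 b3, U.lam _ b1.2, J.u2 _ h2, FR.mul, RD.Am_apply]
      exact (add_assoc _ _ _).trans (congrArg _ (add_sub_cancel _ _))
    have e3 : (U.R.ac σ z - z).1 = Φ z.1 - z.1 := by rw [U.R_in hσ]; rfl
    rw [e3] at b2
    refine ⟨⟨b4, by rw [fe]; exact add_mem (pu b2).1 (pv b4).1⟩, e2, ?_⟩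
    rw [RD.Fm_apply, e2, fe, U.Λ.lam_add (pu b2).1 (pv b4).1, (pu b2).2, (pv b4).2, ← e3]
    congr 2
    exact (add_left_comm _ _ _).trans ((congrArg _ (add_self (k := k) _)).trans (add_zero _))
  have h2' : ∀ x, P ((aeval T u * Φ - 1) x) ((aeval T u * Φ - 1) x) =
      P ((T - 1) x) ((aeval T u * Φ - 1) x) := fun x => by
    have := iso x x
    rw [sy, sy] at this
    rw [sy]
    simp only [LinearMap.sub_apply, map_sub, End.mul_apply, End.one_apply]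
    linear_combination (-1 / 2 : E) * this
  have W := Lt.wall hP (fun a ha => by
      rw [← U.X.r.inv_ac τ a, U.X.pf.nr _ ha, map_zero]) (T - 1) (aeval T u * Φ - 1)
    (fun x y hx => by
      have := iso x y
      rw [show aeval T u (Φ x) = x from sub_eq_zero.1 hx] at this
      rw [LinearMap.sub_apply _ 1 y, map_sub, End.mul_apply, this, End.one_apply, sub_self]) h2'
    (fun x hx hy => congrArg Prod.fst (h0W (x, S x) fun g => sub_eq_zero.1 (U.T.sep fun j =>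
      gD (hx ▸ zero_mem _) ((show T x - x = 0 from hy) ▸ zero_mem _) g)))
    (fun x hx => ⟨sub_mem (pu (U.mem _ hx)).1 hx, sub_mem (rT x hx).1 hx⟩)
    ((U.T.Wd (U.R.res D).B1).map ((U.X.res D).Fm σ τ v')) fun a => ⟨by
      rintro ⟨_, ⟨_, ⟨⟨z, rfl⟩, hz⟩, rfl⟩, rfl⟩
      exact ⟨z.1, ⟨(ev1 z hz).1.2, (ev1 z hz).1.1⟩, (ev1 z hz).2.2⟩, by
      rintro ⟨x, hx, rfl⟩
      exact ⟨_, ⟨_, ⟨⟨(x, S x), rfl⟩, gD hx.1 hx.2⟩, rfl⟩, (ev1 _ (gD hx.1 hx.2)).2.2⟩⟩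
  refine ⟨Rp.B1_le _, U.isoB, o3, (RD.ram9 H L M o3 (by rw [o2, U.dimA]) hτ (U.c1 _ h2) (U.c0 _ hσ)
    it ?_ hw1 hw2 ?_).congr ?_⟩
  · rintro _ ⟨_, ⟨⟨z, rfl⟩, hz⟩, rfl⟩
    obtain ⟨i, hi⟩ := U.T.exh z
    refine ⟨cp.lv ((1 - i).toNat + 1), ⟨inferInstance, cp.lv_open _, fun g hg => gen g hg _,
      cp.mem_lv.2 fun l y _ => ?_⟩, fun g hg => ⟨LinearMap.ext fun a => ?_,
      U.T.lam_of (U.T.anti (by push_cast; omega) (cp.mem_lv.1 hg i z hi))⟩⟩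
    · have : (U.R.res D).ac (τ ^ (2 * r + 1)) = (U.R.res D).ac (σ * τ * σ⁻¹) := by
        rw [map_mul, map_mul, map_pow]
        change _ = U.R.ac σ * U.R.ac τ * _
        rw [rel, mul_assoc]
        change _ = _ * ((U.R.res D).ac σ * _)
        rw [← map_mul, mul_inv_cancel, map_one, mul_one]
        rfl
      rw [map_mul, this, ← map_mul, inv_mul_cancel, map_one, End.one_apply, sub_self]
      exact zero_mem _
    · obtain ⟨y, hy, rfl⟩ := U.T.ex 0 a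
      exact (cp.lam g hy).symm.trans
        (U.T.lam_congr hy (U.T.anti (by push_cast; omega) (cp.mem_lv.1 hg 0 y hy)))
  · rintro _ ⟨_, ⟨⟨z, rfl⟩, hz⟩, rfl⟩
    obtain ⟨⟨a1, a2⟩, a3, a4⟩ := ev1 z hz
    rw [a3, a4]
    exact (hP.rd a1 a2).uniq ((hP.rd a2 a2).congr (by rw [h2']; rfl) rfl)
  · have := (aeval T u * Φ - 1).finrank_range_add_finrank_ker
    obtain ⟨a, W⟩ := W
    obtain ⟨b, ev⟩ := ev
    omega

end Pool.Agent.BC
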