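import Pool.Agent.Lib.MP_b4b3cb_nt.BC.Wb
import Pool.Agent.Lib.MP_b4b3cb_nt.BC.Ann
import Pool.Agent.Lib.MP_b4b3cb_nt.BC.ERk

/-! The parity of the intersections of three Lagrangian subspaces in characteristic two. -/

set_option linter.unusedSectionVars false

namespace Pool.Agent.BC

open scoped Classical
open Module Polynomial Pool.Agent.SP

variable {k : Type} [Field k] [CharP k 2] {V : Type} [AddCommGroup V] [Module k V]
  [FiniteDimensional k V]

theorem or_sup (β : LinearMap.BilinForm k V) (S T : Submodule k V) :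
    β.orthogonal (S ⊔ T) = β.orthogonal S ⊓ β.orthogonal T :=
  le_antisymm (le_inf (LinearMap.BilinForm.orthogonal_le le_sup_left)
    (LinearMap.BilinForm.orthogonal_le le_sup_right)) fun x h y hy => by
      obtain ⟨a, ha, b, hb, rfl⟩ := Submodule.mem_sup.1 hy
      have h1 : β a x = 0 := h.1 a ha
      have h2 : β b x = 0 := h.2 b hb
      show β (a + b) x = 0
      rw [map_add, LinearMap.add_apply, h1, h2, add_zero]

theorem or_lag {β : LinearMap.BilinForm k V} (hB : β.Nondegenerate) (hr : β.IsRefl)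
    {R S T : Submodule k V} (h1 : β.orthogonal R = R) (h2 : β.orthogonal S = S)
    (h3 : β.orthogonal T = T) : β.orthogonal (R ⊔ S ⊓ T) = R ⊓ (S ⊔ T) := by
  have e : S ⊓ T = β.orthogonal (S ⊔ T) := by rw [or_sup, h2, h3]
  rw [or_sup, h1, e, LinearMap.BilinForm.orthogonal_orthogonal hB hr]

theorem lag3 {β : V →ₗ[k] V →ₗ[k] k} {Q : V → k} (hQ : ∀ x y, Q (x + y) = Q x + Q y + β x y)
    (nd : ∀ x, (∀ y, β x y = 0) → x = 0) {L L' M : Submodule k V} {m : ℕ}
    (hX : finrank k V = 2 * m) (d1 : finrank k L = m) (d2 : finrank k L' = m)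
    (d3 : finrank k M = m) (q1 : ∀ x ∈ L, Q x = 0) (q2 : ∀ x ∈ L', Q x = 0) {l g l' g' : V}
    (hl : l ∈ L) (hg : g ∈ M) (hl' : l' ∈ L') (hg' : g' ∈ M) (e : l + g = l' + g')
    (q3 : ∀ x ∈ M, Q x = β (l + g) x ^ 2) :
    ((m + finrank k (L ⊓ L' : Submodule k V) + finrank k (L ⊓ M : Submodule k V) +
      finrank k (L' ⊓ M : Submodule k V) : ℕ) : k) = β l g + β l' g' := by
  have sy : ∀ x y, β x y = β y x := fun x y => by
    have := hQ x y
    rw [add_comm x, hQ] at this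
    linear_combination -this
  have hr : LinearMap.BilinForm.IsRefl β := fun x y h => (sy y x).trans h
  have hB : LinearMap.BilinForm.Nondegenerate β :=
    ⟨nd, fun y h => nd y fun x => (sy y x).trans (h x)⟩
  have i1 : ∀ x ∈ L, ∀ y ∈ L, β x y = 0 := fun x hx y hy => by
    have := hQ x y
    rwa [q1 _ (add_mem hx hy), q1 x hx, q1 y hy, zero_add, zero_add, eq_comm] at this
  have i2 : ∀ x ∈ L', ∀ y ∈ L', β x y = 0 := fun x hx y hy => by
    have := hQ x y
    rwa [q2 _ (add_mem hx hy), q2 x hx, q2 y hy, zero_add, zero_add, eq_comm] at this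
  have i3 : ∀ x ∈ M, ∀ y ∈ M, β x y = 0 := fun x hx y hy => by
    have := hQ x y
    rw [q3 _ (add_mem hx hy), q3 x hx, q3 y hy, map_add (β (l + g))] at this
    grind
  have lg : ∀ W : Submodule k V, finrank k W = m → (∀ x ∈ W, ∀ y ∈ W, β x y = 0) →
      LinearMap.BilinForm.orthogonal β W = W := fun W d i =>
    (Submodule.eq_of_le_of_finrank_le
      (show W ≤ LinearMap.BilinForm.orthogonal β W from fun x hx y hy => i y hy x hx) (by
      rw [LinearMap.BilinForm.finrank_orthogonal hB]; omega)).symm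
  have o1 := lg L d1 i1
  have o2 := lg L' d2 i2
  have o3 := lg M d3 i3
  let A : Submodule k (V × V) :=
    L.prod L' ⊓ M.comap (LinearMap.fst k V V + LinearMap.snd k V V)
  have hA : ∀ p, p ∈ A ↔ (p.1 ∈ L ∧ p.2 ∈ L') ∧ p.1 + p.2 ∈ M := fun p => Iff.rfl
  let A' : Submodule k (V × V) := A ⊓ (L ⊔ L' ⊓ M).comap (LinearMap.snd k V V)
  have hc : (l, l') ∈ A := (hA _).2 ⟨⟨hl, hl'⟩, by
    have : l + l' = g' - g := by
      rw [← sub_eq k, sub_eq_sub_iff_add_eq_add, e, add_comm]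
    exact this ▸ sub_mem hg' hg⟩
  have w := wu (A' := A') (f := fun p p' => β p.1 p'.2) inf_le_left
    (fun b _ => ⟨fun x _ y _ => by simp, fun r x _ => by simp⟩)
    (fun a _ => ⟨fun x _ y _ => by simp, fun r x _ => by simp⟩) hc
    (fun p hp => by
      obtain ⟨⟨a, b⟩, c⟩ := (hA p).1 hp
      have := hQ p.1 p.2
      rw [q3 _ c, q1 _ a, q2 _ b, map_add β, LinearMap.add_apply, i3 g hg _ c, map_add,
        i1 l hl _ a] at this
      simpa using this.symm)
    (fun b hb => by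
      have t : b.2 ∈ L ⊔ L' ⊓ M ↔ ∀ x ∈ L ⊓ (L' ⊔ M), β x b.2 = 0 := by
        rw [← or_lag hB hr o1 o2 o3, ← LinearMap.BilinForm.mem_orthogonal_iff,
          LinearMap.BilinForm.orthogonal_orthogonal hB hr]
      refine ⟨fun h a ha => t.1 h.2 _ ⟨((hA a).1 ha).1.1, ?_⟩, fun h => ⟨hb, t.2 fun x hx => ?_⟩⟩
      · simpa using sub_mem (Submodule.mem_sup_right (S := L') ((hA a).1 ha).2)
          (Submodule.mem_sup_left ((hA a).1 ha).1.2)
      · obtain ⟨y, hy, z, hz, r⟩ := Submodule.mem_sup.1 hx.2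
        exact h (x, -y) ((hA _).2 ⟨⟨hx.1, neg_mem hy⟩, by simpa [← r] using hz⟩))
  have m1 : A.map (LinearMap.snd k V V) = L' ⊓ (L ⊔ M) := by
    refine le_antisymm ?_ fun x hx => ?_
    · rintro _ ⟨a, ha, rfl⟩
      exact ⟨((hA a).1 ha).1.2, by
        simpa using sub_mem (Submodule.mem_sup_right (S := L) ((hA a).1 ha).2)
          (Submodule.mem_sup_left ((hA a).1 ha).1.1)⟩
    · obtain ⟨y, hy, z, hz, r⟩ := Submodule.mem_sup.1 hx.2
      exact ⟨(-y, x), (hA _).2 ⟨⟨neg_mem hy, hx.1⟩, by simpa [← r] using hz⟩, rfl⟩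
  have m2 : A'.map (LinearMap.snd k V V) = L ⊓ L' ⊔ L' ⊓ M := by
    rw [← Submodule.map_inf_eq_map_inf_comap, m1, inf_assoc,
      inf_eq_right.2 (sup_le_sup_left inf_le_right L), ← inf_sup_assoc_of_le _ inf_le_left,
      inf_comm L']
  have m3 : A' ⊓ LinearMap.ker (LinearMap.snd k V V) = A ⊓ LinearMap.ker (LinearMap.snd k V V) :=
    le_antisymm (inf_le_inf_right _ inf_le_left) fun p hp =>
      ⟨⟨hp.1, Submodule.mem_comap.2 (by rw [hp.2]; exact zero_mem _)⟩, hp.2⟩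
  have n1 := dim_map (LinearMap.snd k V V) A
  have n2 := dim_map (LinearMap.snd k V V) A'
  rw [m1, ← or_lag hB hr o2 o1 o3, LinearMap.BilinForm.finrank_orthogonal hB] at n1
  rw [m2, m3] at n2
  have n3 := Submodule.finrank_sup_add_finrank_inf_eq L' (L ⊓ M)
  have n4 := Submodule.finrank_sup_add_finrank_inf_eq (L ⊓ L') (L' ⊓ M)
  have n5 := Submodule.finrank_le (L' ⊔ L ⊓ M)
  rw [show L ⊓ L' ⊓ (L' ⊓ M) = L' ⊓ (L ⊓ M) by
    ext x; simp only [Submodule.mem_inf]; tauto] at n4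
  have cast : ∀ {a b : ℕ}, Even (a + b) → (a : k) = b := fun {a b} h => by
    have := (CharP.cast_eq_zero_iff k 2 _).2 h.two_dvd
    rw [Nat.cast_add] at this
    grind
  refine (cast ?_).trans (w.trans ?_)
  · rw [Nat.even_iff]; omega
  · have a1 := congrArg (β l) e
    have a2 := congrArg (β · g') e
    simp only [map_add, LinearMap.add_apply, i1 l hl l hl, i3 g hg g' hg', i3 g' hg' g' hg'] at a1 a2
    show β l l' = _
    grind

theorem lagR {a N : V →ₗ[k] V →ₗ[k] k} (hN : ∀ u v, N u v + N v u = a u v)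
    (nd : ∀ u, (∀ v, a u v = 0) → u = 0) {τ ψ : End k V} (s1 : ∀ u v, a (τ u) (τ v) = a u v)
    (s2 : ∀ u v, a (ψ u) (ψ v) = a u v) (q1 : ∀ v, N (τ v) (τ v) = N v v) {c : V}
    (q2 : ∀ v, N (ψ v) (ψ v) = N v v + a c (ψ v) ^ 2) {Γ : Submodule k (V × V)}
    (dΓ : finrank k Γ = finrank k V) (hΓ : ∀ p ∈ Γ, a p.1 (τ p.2) = a p.2 (τ p.2)) {u : V}
    (hu : c = ψ u - u) {v f : V} (h1 : (τ v - v, f) ∈ Γ) (h2 : τ f - f + (ψ v - v) = c)
    {Θ : Submodule k (V × V)}
    (hΘ : ∀ p, p ∈ Θ ↔ (τ p.1 - p.1, p.2) ∈ Γ ∧ τ p.2 - p.2 = ψ p.1 - p.1) :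
    ((finrank k V + finrank k (Γ.map (LinearMap.snd k V V)) + finrank k Θ +
      finrank k (LinearMap.range (ψ - 1)) : ℕ) : k) = a u (ψ u) + a c (ψ v) := by
  have sy : ∀ x y, a x y = a y x := fun x y => by rw [← hN, ← hN, add_comm]
  have al : ∀ x, a x x = 0 := fun x => by rw [← hN]; grind
  have it : Function.Injective τ := (injective_iff_map_eq_zero _).2 fun x hx =>
    nd x fun y => by rw [← s1, hx]; simp
  let F := LinearMap.fst k V V
  let S := LinearMap.snd k V V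
  let F' := LinearMap.fst k (V × V) (V × V)
  let S' := LinearMap.snd k (V × V) (V × V)
  let B : (V × V) × V × V →ₗ[k] (V × V) × V × V →ₗ[k] k :=
    a.compl₁₂ ((F + S) ∘ₗ F') (τ ∘ₗ S ∘ₗ F') + N.compl₁₂ (F ∘ₗ S') (F ∘ₗ S') +
      N.compl₁₂ (S ∘ₗ S') (S ∘ₗ S')
  have hQ : ∀ p, B p p = a p.1.1 (τ p.1.2) + a p.1.2 (τ p.1.2) + N p.2.1 p.2.1 + N p.2.2 p.2.2 :=
    fun p => by simp [B, F, S, F', S']
  have hb : ∀ p q, (B + B.flip) p q = a p.1.1 (τ q.1.2) + a p.1.2 (τ q.1.2) + a q.1.1 (τ p.1.2) +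
      a q.1.2 (τ p.1.2) + a p.2.1 q.2.1 + a p.2.2 q.2.2 := fun p q => by
    simp only [B, F, S, F', S', ← hN p.2.1, ← hN p.2.2, LinearMap.add_apply, LinearMap.flip_apply,
      LinearMap.compl₁₂_apply, LinearMap.comp_apply, LinearMap.fst_apply, LinearMap.snd_apply,
      map_add]
    ring
  let j : V × V →ₗ[k] (V × V) × V × V := (F.prod 0).prod (S.prod S)
  let j' : V × V →ₗ[k] (V × V) × V × V :=
    ((τ ∘ₗ F - F).prod S).prod (F.prod (F + (τ ∘ₗ S - S)))
  let i : Γ × V →ₗ[k] (V × V) × V × V := Γ.subtype.prodMap (LinearMap.id.prod ψ)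
  have ej : ∀ p, j p = ((p.1, 0), p.2, p.2) := fun _ => rfl
  have ej' : ∀ p, j' p = ((τ p.1 - p.1, p.2), p.1, p.1 + (τ p.2 - p.2)) := fun _ => rfl
  have ei : ∀ p, i p = (p.1.1, p.2, ψ p.2) := fun _ => rfl
  have ij : Function.Injective j := fun p q h =>
    Prod.ext (congrArg (·.1.1) h) (congrArg (·.2.1) h)
  have ij' : Function.Injective j' := fun p q h =>
    Prod.ext (congrArg (·.2.1) h) (congrArg (·.1.2) h)
  have ii : Function.Injective i := fun p q h =>
    Prod.ext (Subtype.ext (congrArg (·.1) h)) (congrArg (·.2.1) h)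
  have hi : ∀ p, p ∈ LinearMap.range i ↔ p.1 ∈ Γ ∧ p.2.2 = ψ p.2.1 := fun p =>
    ⟨fun ⟨x, hx⟩ => hx ▸ ⟨x.1.2, rfl⟩, fun h =>
      ⟨(⟨_, h.1⟩, p.2.1), Prod.ext rfl (Prod.ext rfl h.2.symm)⟩⟩
  have c1 : u + ψ u = c := by rw [hu, sub_eq k, add_comm]
  have c2 : v + (τ f - f) + ψ v = c := by rw [← h2, sub_eq k (ψ v)]; abel
  have w := lag3 (β := B + B.flip) (Q := fun p => B p p) (L := LinearMap.range j)
    (L' := LinearMap.range j') (M := LinearMap.range i) (m := 2 * finrank k V)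
    (fun x y => by simp only [map_add, LinearMap.add_apply, LinearMap.flip_apply]; ring)
    (fun p h => by
      simp only [hb] at h
      have a1 : p.1.2 = 0 := it ((nd _ fun y => by
        simpa [sy y] using h ((y, 0), 0, 0)).trans (map_zero τ).symm)
      have a2 : p.1.1 = 0 := nd _ fun y => by
        obtain ⟨y, rfl⟩ := (LinearMap.injective_iff_surjective.1 it) y
        simpa [a1] using h ((0, y), 0, 0)
      have a3 : p.2.1 = 0 := nd _ fun y => by simpa using h ((0, 0), y, 0)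
      have a4 : p.2.2 = 0 := nd _ fun y => by simpa using h ((0, 0), 0, y)
      exact Prod.ext (Prod.ext a2 a1) (Prod.ext a3 a4))
    (by simp only [finrank_prod]; ring)
    (by rw [LinearMap.finrank_range_of_inj ij, finrank_prod, two_mul])
    (by rw [LinearMap.finrank_range_of_inj ij', finrank_prod, two_mul])
    (by rw [LinearMap.finrank_range_of_inj ii, finrank_prod, dΓ, two_mul])
    (by
      rintro _ ⟨p, rfl⟩
      rw [hQ, ej]
      simp only [map_zero]
      grind)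
    (by
      rintro _ ⟨p, rfl⟩
      have b1 := hN p.1 p.2
      have b2 := hN p.1 (τ p.2)
      have b3 := hN p.2 (τ p.2)
      rw [hQ, ej']
      simp only [map_add, map_sub, LinearMap.add_apply, LinearMap.sub_apply, s1, q1]
      grind)
    (l := j (0, u)) (g := (0, u, ψ u)) (l' := j' (v, f)) (g' := ((τ v - v, f), v, ψ v))
    ⟨_, rfl⟩ ((hi _).2 ⟨zero_mem _, rfl⟩) ⟨_, rfl⟩ ((hi _).2 ⟨h1, rfl⟩)
    (by simp only [ej, ej', Prod.mk_add_mk, add_self (k := k), c1, c2, add_zero]; rfl)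
    (fun p hp => by
      obtain ⟨b1, b2⟩ := (hi p).1 hp
      rw [hQ, hb, ej, b2, hΓ _ b1, q2]
      simp [add_self (k := k), c1]
      grind)
  have e1 : LinearMap.range j ⊓ LinearMap.range j' = LinearMap.range (j' ∘ₗ LinearMap.inl k V V) := by
    refine le_antisymm ?_ ?_
    · rintro _ ⟨⟨p, hp⟩, q, rfl⟩
      have : q.2 = 0 := (congrArg (·.1.2) hp).symm
      exact ⟨q.1, congrArg j' (Prod.ext rfl this.symm)⟩
    · rintro _ ⟨x, rfl⟩
      exact ⟨⟨(τ x - x, x), by simp [ej, ej']⟩, _, rfl⟩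
  let i' : (Γ ⊓ LinearMap.ker S : Submodule k (V × V)) × LinearMap.ker (ψ - 1) →ₗ[k]
      (V × V) × V × V := (Submodule.subtype _).prodMap
        ((Submodule.subtype _).prod (Submodule.subtype _))
  have ii' : Function.Injective i' := fun p q h =>
    Prod.ext (Subtype.ext (congrArg (·.1) h)) (Subtype.ext (congrArg (·.2.1) h))
  have e2 : LinearMap.range j ⊓ LinearMap.range i = LinearMap.range i' := by
    refine le_antisymm ?_ ?_
    · rintro _ ⟨⟨p, rfl⟩, h⟩
      obtain ⟨b1, b2⟩ := (hi _).1 h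
      exact ⟨(⟨_, b1, rfl⟩, ⟨p.2, sub_eq_zero.2 (b2.symm :)⟩), rfl⟩
    · rintro _ ⟨x, rfl⟩
      exact ⟨⟨(x.1.1.1, x.2), Prod.ext (Prod.ext rfl x.1.2.2.symm) rfl⟩,
        (hi _).2 ⟨x.1.2.1, (sub_eq_zero.1 x.2.2).symm⟩⟩
  have e3 : LinearMap.range j' ⊓ LinearMap.range i = Θ.map j' := by
    refine le_antisymm ?_ ?_
    · rintro _ ⟨⟨p, rfl⟩, h⟩
      obtain ⟨b1, b2⟩ := (hi _).1 h
      exact ⟨p, (hΘ p).2 ⟨b1, eq_sub_of_add_eq' b2⟩, rfl⟩
    · rintro _ ⟨p, h, rfl⟩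
      exact ⟨⟨_, rfl⟩, (hi _).2 ⟨((hΘ p).1 h).1, add_eq_of_eq_sub' ((hΘ p).1 h).2⟩⟩
  rw [e1, e2, e3, LinearMap.finrank_range_of_inj (f := j' ∘ₗ LinearMap.inl k V V)
    (ij'.comp LinearMap.inl_injective),
    LinearMap.finrank_range_of_inj ii', finrank_prod,
    ← (Submodule.equivMapOfInjective j' ij' Θ).finrank_eq, hb, hb, ej, ej'] at w
  have n1 : finrank k Γ = finrank k (Γ.map (LinearMap.snd k V V)) +
    finrank k (Γ ⊓ LinearMap.ker S : Submodule k (V × V)) := dim_map S Γ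
  have n2 := (ψ - 1).finrank_range_add_finrank_ker
  have cast : ∀ {a b : ℕ}, Even (a + b) → (a : k) = b := fun {a b} h => by
    have := (CharP.cast_eq_zero_iff k 2 _).2 h.two_dvd
    rw [Nat.cast_add] at this
    grind
  refine (cast ?_).trans (w.trans ?_)
  · rw [Nat.even_iff]; omega
  · rw [← c2, map_add a _ (ψ v), LinearMap.add_apply, al]
    simp [al]
    grind

end Pool.Agent.BC
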