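import Pool.Agent.Lib.MP_b4b3cb_nt.BC.R9
import Pool.Agent.Lib.MP_b4b3cb_nt.BC.R9D
import Pool.Agent.Lib.MP_b4b3cb_nt.BC.R9L
import Pool.Agent.Lib.MP_b4b3cb_nt.BC.LocR2

/-! The local term modulo the uniformiser at a ramified place, for a tame module. -/

set_option linter.unusedSectionVars false

namespace Pool.Agent.BC

open scoped Classical
open Module Polynomial Pool.Agent.SP

variable {k : Type} [Field k] {G : Type} [Group G] [TopologicalSpace G]
  {V : Type} [AddCommGroup V] [Module k V] {I : Subgroup G} {σ τ : G}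

theorem TQ.un {A : Type} [AddCommGroup A] [Module k A] {R : FR k G A} {q : ℕ} {K : Subgroup G}
    (h : TQ I σ τ q K) {x : G → A} (hx : x ∈ R.Z1) (hK : ∀ i ∈ K, x i = 0) (h0 : x τ = 0) :
    x ∈ R.Un I := ⟨hx, fun i hi => by
  obtain ⟨m, hm⟩ := h.gen i hi
  rw [← mul_inv_cancel_left (τ ^ m) i]
  exact (FR.zs hx).mul_mem ((FR.zs hx).pow_mem h0 m) (hK _ hm)⟩

theorem TQ.ex {q : ℕ} {K : Subgroup G} (h : TQ I σ τ q K) : ∃ i ∈ K, τ ^ q * σ = σ * τ * i :=
  ⟨_, h.nor.conj_mem' _ h.rel σ, by group⟩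

namespace RD

variable {X : RD k G V} [CharP k 2]

theorem chi_pow (c1 : X.χ τ = 1) (j : ℕ) : X.χ (τ ^ j) = j := by
  induction j with
  | zero => simpa using X.χ_one
  | succ j ih => rw [pow_succ, X.χ_mul, ih, c1, Nat.cast_succ]

theorem sum_succ (r : ℕ) : ∑ j ∈ Finset.range (2 * r), ((j + 1 : ℕ) : k) = r := by
  induction r with
  | zero => simp
  | succ r ih =>
    rw [mul_add_one, Finset.sum_range_succ, Finset.sum_range_succ, ih]
    push_cast
    grind

theorem z1_pow {t : G → V × V} (ht : t ∈ X.W.Z1) (h : (t τ).2 = 0) (j : ℕ) :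
    t (τ ^ j) = ((∑ i ∈ Finset.range j, X.r.ac τ ^ i) (t τ).1, 0) := by
  induction j with
  | zero => rw [pow_zero, FR.z1_one ht]; rfl
  | succ j ih =>
    rw [pow_succ, FR.coc ht, ih, W_ac, h, Finset.sum_range_succ, map_pow]
    simp

theorem d_yy (c1 : X.χ τ = 1) (c0 : X.χ σ = 0) (v : k[X]) (y : V) :
    X.Am τ (X.W.d1 (y, y)) = 0 ∧ X.Fm σ τ v (X.W.d1 (y, y)) = 0 ∧ (X.W.d1 (y, y) τ).1 = y := by
  have a : (X.W.d1 (y, y) τ).1 = y := by
    simp [FR.d1_apply, W_ac, c1, add_self (k := k), neg_eq k]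
  have b : X.Am τ (X.W.d1 (y, y)) = 0 := by
    rw [Am_apply, a]
    exact add_self (k := k) _
  refine ⟨b, ?_, a⟩
  rw [Fm_apply, b]
  simp [FR.d1_apply, W_ac, c0, add_self (k := k)]

/-- The tame relation for a cocycle whose image in the quotient vanishes at `τ`. -/
theorem key9 (c1 : X.χ τ = 1) {r : ℕ} {K : Subgroup G}
    (h : TQ I σ τ (2 * r + 1) K) (c0 : X.χ σ = 0) {t : G → V × V} (ht : t ∈ X.W.Z1)
    (hK : ∀ i ∈ K, X.W.ac i = 1 ∧ t i = 0) (h0 : (t τ).2 = 0) (v : k[X]) :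
    aeval (X.r.ac τ ^ 2) (1 + (Polynomial.X - 1) * v) (t σ).2 =
      (∑ i ∈ Finset.range (2 * r + 1), X.r.ac τ ^ i)
        (X.r.ac τ (X.Fm σ τ v t) - X.Fm σ τ v t - (t τ).1) +
      aeval (X.r.ac τ ^ 2) (1 + (Polynomial.X - 1) * v) (X.r.ac σ (t τ).1) := by
  obtain ⟨i, hi, e⟩ := h.ex
  have a := congrArg (fun g => (t g).1) e
  simp only [fst_coc ht, z1_pow ht h0, (hK i hi).2, chi_pow c1, c0, map_pow] at a
  set T := X.r.ac τ
  set S := ∑ i ∈ Finset.range (2 * r + 1), T ^ i with hS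
  have e1 : ((2 * r + 1 : ℕ) : k) = 1 := by push_cast; grind
  have g := geom_sum_mul T (2 * r + 1)
  rw [← hS] at g
  rw [e1, one_smul, ← sub_add_cancel (T ^ _) 1, ← g] at a
  simp only [Prod.fst_zero, Prod.snd_zero, smul_zero, add_zero, map_zero, zero_smul,
    LinearMap.add_apply, End.one_apply] at a
  have b : (t σ).2 = S (t τ).1 + (S * (T - 1)) ((t σ).1 + (t σ).2) + X.r.ac σ (t τ).1 := by
    rw [← add_left_inj ((t σ).1 + (t σ).2), add_right_comm _ (X.r.ac σ _), add_assoc (S _), a]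
    rw [add_left_comm, add_self (k := k), add_assoc, add_self (k := k)]
  have cS : ∀ p : k[X], Commute (aeval (T ^ 2) p) S := fun p => by
    rw [hS, ← expand_aeval]
    exact Commute.sum_right _ _ _ fun i _ => by
      simpa using (Commute.all (expand k 2 p) (Polynomial.X ^ i)).map (aeval T)
  have cT : ∀ p : k[X], Commute (aeval (T ^ 2) p) (T - 1) := fun p => by
    have := (Commute.all (expand k 2 p) (Polynomial.X - 1)).map (aeval T)
    rwa [expand_aeval, map_sub, aeval_X, map_one] at this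
  have u : aeval (T ^ 2) (1 + (Polynomial.X - 1) * v) =
      1 + (T - 1) * aeval (T ^ 2) v * (T - 1) := by
    rw [← (cT v).eq, mul_assoc, (cT v).mul_right (cT v), map_add, map_mul, map_sub, aeval_X,
      map_one, add_right_inj]
    congr 1
    ext x
    simp [sq, sub_eq k, add_assoc, ← add_assoc (T x), add_self (k := k)]
  rw [Fm_apply, Am_apply, h0, zero_add]
  nth_rw 1 [b]
  rw [map_add, add_left_inj, map_add, ← End.mul_apply, ← End.mul_apply, (cS _).eq,
    ((cS _).mul_right (cT _)).eq, End.mul_apply, End.mul_apply, End.mul_apply, ← map_add]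
  congr 1
  nth_rw 1 [u]
  simp only [LinearMap.add_apply, End.mul_apply, End.one_apply, map_add, sub_eq k]
  abel

variable [FiniteDimensional k V] [Finite k] [Algebra (ZMod 2) k] {Y : Submodule k (G → V × V)}

theorem ram9 (H : Two G) (L : LDm k G) (M : MI k I σ) (hq : X.SQ Y)
    (dY : finrank k Y = 2 * finrank k V) (hτ : τ ∈ I)
    (c1 : X.χ τ = 1) (c0 : X.χ σ = 0) {r : ℕ} (it : IT I σ τ (2 * r + 1) X.χ)
    (hK : ∀ t ∈ Y, ∃ K, TQ I σ τ (2 * r + 1) K ∧ ∀ i ∈ K, X.W.ac i = 1 ∧ t i = 0)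
    {v w : k[X]} (hw1 : w ^ 2 = expand k 2 (1 + (Polynomial.X - 1) * v))
    (hw2 : aeval (X.r.ac τ) w * aeval (X.r.ac τ⁻¹) w * X.r.ac τ ^ r =
      ∑ i ∈ Finset.range (2 * r + 1), X.r.ac τ ^ i)
    (hQ : ∀ t ∈ Y, X.a (X.Am τ t) (X.r.ac τ (X.Fm σ τ v t)) =
      X.a (X.Fm σ τ v t) (X.r.ac τ (X.Fm σ τ v t))) :
    X.Term Y (2 * finrank k (Y.map (X.Fm σ τ v))) := by
  have fw := L.fin X.W
  have fr := L.fin X.r
  have fY := Submodule.finiteDimensional_of_le hq.z1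
  have f1 := Submodule.finiteDimensional_of_le (y1_z1 hq.z1)
  have rW : ∀ {i}, X.W.ac i = 1 → X.r.ac i = 1 := fun p => LinearMap.ext fun x =>
    congrArg Prod.snd (LinearMap.congr_fun p (0, x))
  obtain ⟨t, ht, e⟩ := hq.c_mem H L
  have t3 : ∀ g, (t g).2 = X.c g := congrFun e
  obtain ⟨u, hu⟩ := X.c_range τ
  obtain ⟨u1, hu1⟩ := X.c_range σ
  have cz := add_mem X.c_z1 (X.r.d1_mem u)
  have m0 : t + X.W.d1 (0, u) ∈ Y := add_mem ht (hq.b1 ⟨_, rfl⟩)
  have e0 : ∀ g, ((t + X.W.d1 (0, u)) g).2 = (X.c + X.r.d1 u) g := fun g => by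
    rw [Pi.add_apply, Prod.snd_add, t3]; rfl
  have cτ : (X.c + X.r.d1 u) τ = 0 := by rw [Pi.add_apply, hu]; exact add_self (k := k) _
  obtain ⟨K, k1, k2⟩ := hK _ m0
  have cK : ∀ i ∈ K, (X.c + X.r.d1 u) i = 0 := fun i hi => by rw [← e0, (k2 i hi).2]; rfl
  have cU := k1.un cz cK cτ
  have fx := FR.un_fix M.nor cU hτ σ
  have cs : (X.c + X.r.d1 u) σ = X.r.ac σ (u1 + u) - (u1 + u) := by
    rw [Pi.add_apply, hu1, map_add, FR.d1_apply]; abel
  let N : V →ₗ[k] V →ₗ[k] k := X.N + (LinearMap.mul k k).compl₁₂ (X.a u) (X.a u)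
  have hN : ∀ x y, N x y + N y x = X.a x y := fun x y => by
    have := X.hN x y
    simp only [N, LinearMap.add_apply, LinearMap.compl₁₂_apply, LinearMap.mul_apply']
    grind
  have hc : ∀ g x, N (X.r.ac g x) (X.r.ac g x) =
      N x x + X.a ((X.c + X.r.d1 u) g) (X.r.ac g x) ^ 2 := fun g x => by
    simp only [N, LinearMap.add_apply, LinearMap.compl₁₂_apply, LinearMap.mul_apply', X.hc,
      Pi.add_apply, FR.d1_apply, map_add, map_sub, LinearMap.sub_apply, X.pf.eq]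
    grind
  obtain ⟨i0, hi0, ei0⟩ := k1.ex
  obtain ⟨inj, ψ, p1, p2, p3, p4, u', p5, p6⟩ := dickR hN X.pf.nl (τ' := X.r.ac τ⁻¹)
    (by rw [← map_mul, mul_inv_cancel, map_one]) (X.pf.eq τ) (X.pf.eq σ)
    (fun x => by simpa [cτ] using hc τ x) (hc σ) fx (by
      rw [← map_pow, ← map_mul, ← map_mul, ei0, map_mul _ _ i0, rW (k2 _ hi0).1, mul_one]) hw2 cs
  have eu : aeval (X.r.ac τ ^ 2) (1 + (Polynomial.X - 1) * v) = aeval (X.r.ac τ) w ^ 2 := by
    rw [← expand_aeval, ← hw1, map_pow]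
  have iu : ∀ x, aeval (X.r.ac τ ^ 2) (1 + (Polynomial.X - 1) * v) x = 0 → x = 0 := fun x p => by
    have a : ∀ x, aeval (X.r.ac τ) w x = 0 → x = 0 := fun x p => inj (by
      have b : Commute (aeval (X.r.ac τ) w) (X.r.ac τ) := by
        simpa using (Commute.all w Polynomial.X).map (aeval (X.r.ac τ))
      have b' : Commute (aeval (X.r.ac τ) w) (X.r.ac τ⁻¹) := by
        have := (b.units_inv_right (u := X.r.ac.toHomUnits τ))
        rwa [← map_inv] at this
      rw [← hw2, mul_assoc, ((comP b' w).mul_right (b.pow_right r)).eq, End.mul_apply, p,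
        map_zero, map_zero])
    rw [eu, sq] at p
    exact a _ (a _ p)
  have key : ∀ t ∈ Y, (t τ).2 = 0 → aeval (X.r.ac τ ^ 2) (1 + (Polynomial.X - 1) * v) (t σ).2 =
      (∑ i ∈ Finset.range (2 * r + 1), X.r.ac τ ^ i) (X.r.ac τ (X.Fm σ τ v t) - X.Fm σ τ v t +
        (ψ (t τ).1 - (t τ).1)) := fun t ht p => by
    obtain ⟨K, k1, k2⟩ := hK t ht
    rw [key9 c1 k1 c0 (hq.z1 ht) k2 p, eu, ← End.mul_apply _ (X.r.ac σ), ← p1, End.mul_apply,
      ← map_add]
    congr 1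
    abel
  have snd0 : ∀ t ∈ Y, (t τ).2 = 0 → (t σ).2 = 0 → ∀ g, (t g).2 = 0 := fun t ht p p' => by
    obtain ⟨K, k1, k2⟩ := hK t ht
    exact congrFun (M.ext (k1.un (snd_z1 (hq.z1 ht)) (fun i hi => by rw [(k2 i hi).2]; rfl) p) p')
  have xi : ∀ t ∈ Y, X.Am τ t = 0 → X.Fm σ τ v t = 0 → (t τ).1 = 0 → t = 0 := fun t ht a b d => by
    have a2 : (t τ).2 = 0 := by simpa [Am_apply, d] using a
    have a3 := iu _ ((key t ht a2).trans (by simp [b, d]))
    rw [Fm_apply, a, map_zero, add_zero] at b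
    have a4 := iu _ b
    rw [a3, add_zero] at a4
    obtain ⟨K, k1, k2⟩ := hK t ht
    exact M.ext (k1.un (hq.z1 ht) (fun i hi => (k2 i hi).2) (Prod.ext d a2)) (Prod.ext a4 a3)
  have dy := d_yy c1 c0 v
  have d1 := dim_map ((X.Am τ).prod (X.Fm σ τ v)) Y
  rw [show Y ⊓ LinearMap.ker ((X.Am τ).prod (X.Fm σ τ v)) =
      LinearMap.range (X.W.d1 ∘ₗ LinearMap.id.prod LinearMap.id) from le_antisymm
      (fun t p => ⟨(t τ).1, (sub_eq_zero.1 (xi _ (sub_mem p.1 (hq.b1 ⟨((t τ).1, (t τ).1), rfl⟩))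
        (by rw [map_sub, (dy _).1, sub_zero]; exact congrArg Prod.fst p.2)
        (by rw [map_sub, (dy _).2.1, sub_zero]; exact congrArg Prod.snd p.2)
        (by rw [Pi.sub_apply, Prod.fst_sub, (dy _).2.2, sub_self]))).symm⟩)
      (by rintro _ ⟨y, rfl⟩; exact ⟨hq.b1 ⟨_, rfl⟩, Prod.ext (dy y).1 (dy y).2.1⟩),
    LinearMap.finrank_range_of_inj fun y z p => (dy y).2.2.symm.trans
      ((congrArg (fun t => (t τ).1) p).trans (dy z).2.2)] at d1
  let θ : (G → V) →ₗ[k] V × V :=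
    (LinearMap.proj τ).prod (X.Fm σ τ v ∘ₗ (LinearMap.inl k V V).compLeft G)
  have d2 := dim_map θ (Y1 Y)
  rw [show Y1 Y ⊓ LinearMap.ker θ = ⊥ from eq_bot_iff.2 fun s p => by
      have a : s τ = 0 := congrArg Prod.fst p.2
      exact funext fun g => congrArg Prod.fst (congrFun (xi _ p.1 (by simp [Am_apply, a])
        (congrArg Prod.snd p.2) a) g), finrank_bot] at d2
  have a0 : X.Am τ (t + X.W.d1 (0, u)) =
      X.r.ac τ ((t + X.W.d1 (0, u)) τ).1 - ((t + X.W.d1 (0, u)) τ).1 := by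
    rw [Am_apply, e0, cτ, zero_add]
  have lag := lagR hN X.pf.nl (X.pf.eq τ) p2 (fun x => by simpa [cτ] using hc τ x) p3
    (Γ := Y.map ((X.Am τ).prod (X.Fm σ τ v))) (by omega) (by rintro _ ⟨t, ht, rfl⟩; exact hQ t ht)
    p5 ⟨_, m0, Prod.ext a0 rfl⟩ (inj (by
      refine (key _ m0 ((e0 τ).trans cτ)).symm.trans ?_
      rw [e0]
      have a : ∀ j : ℕ, (X.r.ac τ ^ j) ((X.c + X.r.d1 u) σ) = (X.c + X.r.d1 u) σ := fun j => by
        rw [← map_pow]
        exact FR.un_fix M.nor cU (pow_mem hτ j) σ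
      rw [mul_comm _ v, map_add, map_mul, map_sub, aeval_X]
      simp only [LinearMap.add_apply, map_one, End.mul_apply, LinearMap.sub_apply, a,
        End.one_apply, sub_self, map_zero, add_zero, LinearMap.sum_apply, Finset.sum_const,
        Finset.card_range, add_smul, one_smul, mul_smul, two_smul, add_self (k := k), zero_add]))
    (Θ := (Y1 Y).map θ) fun p => ⟨by
      rintro ⟨s, hs, rfl⟩
      exact ⟨⟨_, hs, Prod.ext (zero_add _) rfl⟩, (sub_eq_zero.1 ((sub_eq k _ _).trans (inj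
        ((key _ hs rfl).symm.trans ((map_zero _).trans (map_zero _).symm)))))⟩, by
      rintro ⟨⟨t, ht, q⟩, q'⟩
      have m : t + X.W.d1 (p.1 - (t τ).1, p.1 - (t τ).1) ∈ Y := add_mem ht (hq.b1 ⟨_, rfl⟩)
      have b1 : X.Am τ (t + X.W.d1 (p.1 - (t τ).1, p.1 - (t τ).1)) = X.r.ac τ p.1 - p.1 := by
        rw [map_add, (dy _).1, add_zero]; exact congrArg Prod.fst q
      have b2 : X.Fm σ τ v (t + X.W.d1 (p.1 - (t τ).1, p.1 - (t τ).1)) = p.2 := by
        rw [map_add, (dy _).2.1, add_zero]; exact congrArg Prod.snd q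
      have b3 : ((t + X.W.d1 (p.1 - (t τ).1, p.1 - (t τ).1)) τ).1 = p.1 := by
        rw [Pi.add_apply, Prod.fst_add, (dy _).2.2, add_sub_cancel]
      generalize t + X.W.d1 (p.1 - (t τ).1, p.1 - (t τ).1) = s at m b1 b2 b3
      rw [Am_apply, b3, add_eq_right] at b1
      have b4 := snd0 s m b1 (iu _ ((key s m b1).trans (by
        rw [b2, b3, q', add_self (k := k), map_zero])))
      have b5 : (fun g => ((s g).1, (0 : V))) = s := funext fun g => Prod.ext rfl (b4 g).symm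
      exact ⟨fun g => (s g).1, mem_Y1.2 (b5 ▸ m), Prod.ext b3 ((congrArg _ b5).trans b2)⟩⟩
  rw [← Submodule.map_comp, LinearMap.snd_prod] at lag
  refine ⟨t, ht, t3, finrank k V + finrank k (Y.map (X.Fm σ τ v)) + finrank k ((Y1 Y).map θ), ?_,
    by have := hq.dim L; omega⟩
  have z0 := hq.z1 m0
  have cε : Cz fun g h => X.χ g * X.D0 u h +
      X.P (X.c + X.r.d1 u) (t + X.W.d1 (0, u)) g h :=
    cz_iff_d3.2 ⟨((lc_at X.hχ.1 continuous_fst).mul (lc_at (D0_lc u) continuous_snd)).add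
      (X.P_lc cz.1 z0.1), fun g l m => by
        have a1 := d3_chi (X := X) (X.D0 u) g l m
        have a2 := d3_P cz z0 g l m
        have a3 := D0_mul (X := X) u l m
        rw [funext e0] at a2
        simp only [d3, dk, c11] at a1 a2 ⊢
        grind⟩
  have cp : ∀ j : ℕ, (X.c + X.r.d1 u) (τ ^ j) = 0 := fun j => cU.2 _ (pow_mem hτ j)
  rw [invK_congr H (cz_gv (hq.z1 ht) t3) cε (gv_shift (hq.z1 ht) t3 u), it K k1 _ cε
    fun g h i hi p => by
      have a : X.D0 u i = 0 := by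
        simp [D0, X.D_triv (rW (k2 i hi).1), X.c_triv (rW (k2 i hi).1), cK i hi]
      simp only [P, X.χ_mul, p, add_zero, D0_mul, a, cK i hi, map_zero, FR.coc cz, FR.coc z0,
        X.W.mul, (k2 i hi).1, (k2 i hi).2, End.one_apply, and_self]]
  simp only [P, cp, map_zero, LinearMap.zero_apply, add_zero, chi_pow c1, c0, zero_mul, zero_add,
    W_ac, zero_smul, Nat.add_sub_cancel, ← Finset.sum_mul, sum_succ, D0_rk hu, D0_rk' hu1]
  rw [p4] at lag
  simp only [LinearMap.sub_apply, map_sub, End.one_apply, X.alt]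
  push_cast at lag ⊢
  grind

end RD

end Pool.Agent.BC
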